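import Mathlib

/-!
# Arrangements of algebraic surface patches: definitions used in the statement

Patch `i` is a closed subset of the hypersurface `g.poly i none = 0`, cut out by an arbitrary Boolean
combination of sign conditions on the boundary polynomials `g.poly i (some l)`.
-/

namespace CurK

open MvPolynomial

variable {d : ℕ} {ι μ : Type}

/-- A family of closed patches: polynomials, and for every patch the set of admitted sign vectors
of its boundary polynomials (an arbitrary Boolean formula in sign conditions). -/
structure Arr (d : ℕ) (ι μ : Type) where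
  poly : ι → Option μ → MvPolynomial (Fin d) ℝ
  sel : ι → Set (μ → SignType)
  closed : ∀ i, IsClosed {x : Fin d → ℝ | eval x (poly i none) = 0 ∧
    (fun l => SignType.sign (eval x (poly i (some l)))) ∈ sel i}

/-- The patch number `i`. -/
def patch (g : Arr d ι μ) (i : ι) : Set (Fin d → ℝ) :=
  {x | eval x (g.poly i none) = 0 ∧
    (fun l => SignType.sign (eval x (g.poly i (some l)))) ∈ g.sel i}

/-- The gradient of the polynomial `p` at `x`. -/
noncomputable def grad (p : MvPolynomial (Fin d) ℝ) (x : Fin d → ℝ) : Fin d → ℝ :=
  fun j => eval x (pderiv j p)

/-- General position: at every point, the gradients of the equations of the patches through the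
point and of their boundary conditions that vanish at the point are linearly independent. -/
def GenPos (g : Arr d ι μ) : Prop :=
  ∀ x, LinearIndependent ℝ
    fun j : {j : ι × Option μ // x ∈ patch g j.1 ∧ eval x (g.poly j.1 j.2) = 0} =>
      grad (g.poly j.1.1 j.1.2) x

/-- `x` and `y` lie on the same patches, and on the same boundary pieces of these patches. -/
def Same (g : Arr d ι μ) (x y : Fin d → ℝ) : Prop :=
  ∀ i, (x ∈ patch g i ↔ y ∈ patch g i) ∧
    (x ∈ patch g i → ∀ l, (eval x (g.poly i (some l)) = 0 ↔ eval y (g.poly i (some l)) = 0))

/-- The face of the arrangement that contains `x`. -/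
def face (g : Arr d ι μ) (x : Fin d → ℝ) : Set (Fin d → ℝ) :=
  connectedComponentIn {y | Same g x y} x

/-- The cell of the arrangement that contains `p`. -/
def cell (g : Arr d ι μ) (p : Fin d → ℝ) : Set (Fin d → ℝ) :=
  connectedComponentIn (⋃ i, patch g i)ᶜ p

/-- A Davenport-Schinzel sequence of order `s` on `n` symbols: no two equal neighbours and no
alternating subsequence of length `s + 2`. -/
def IsDS (n s : ℕ) (l : List (Fin n)) : Prop :=
  l.IsChain (· ≠ ·) ∧
    ∀ a b : Fin n, a ≠ b → ¬ (List.ofFn fun i : Fin (s + 2) => if Even i.1 then a else b).Sublist l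

/-- The largest length of a Davenport-Schinzel sequence of order `s` on `n` symbols. -/
noncomputable def lam (s n : ℕ) : ℕ := sSup {k | ∃ l, IsDS n s l ∧ l.length = k}

end CurK
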