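import Mathlib

-- merged part: Pool.Agent.Work.MP_8a5de9_co_K.HT
section
/-! Lemma HT (paper 4.2). -/

namespace CurK

open Finset

section

variable {V : Type} {ep : V → V → ZMod 2} {A : V → V → Prop}

/-- a graph with the parity identity for disjoint edges -/
structure ht_Par (ep : V → V → ZMod 2) (A : V → V → Prop) : Prop where
  symm : ∀ x y, A x y → A y x
  irr : ∀ x y, A x y → x ≠ y
  par : ∃ ν : V → V → V → ZMod 2, ∀ x y z w, A x y → A z w → x ≠ z → x ≠ w → y ≠ z → y ≠ w →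
    ν x y z + ν x y w + ν z w x + ν z w y = ep x z + ep x w + ep y z + ep y w

theorem ht_two : (2 : ZMod 2) = 0 := rfl

theorem ht_k33 (h : ht_Par ep A) {a b c x y z : V} (hab : a ≠ b) (hac : a ≠ c) (hbc : b ≠ c)
    (hxy : x ≠ y) (hxz : x ≠ z) (hyz : y ≠ z) (e1 : ep x y + ep y x = 1)
    (e2 : ep x z + ep z x = 1) (e3 : ep y z + ep z y = 1)
    (hA : ∀ u ∈ ({a, b, c} : Set V), ∀ v ∈ ({x, y, z} : Set V), A u v) : False := by
  obtain ⟨ν, hν⟩ := h.par
  have k : ∀ u ∈ ({a, b, c} : Set V), ∀ u' ∈ ({a, b, c} : Set V), u ≠ u' →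
      ν u x y + ν u y x + ν u x z + ν u z x + ν u y z + ν u z y +
        (ν u' x y + ν u' y x + ν u' x z + ν u' z x + ν u' y z + ν u' z y) = 1 := by
    intro u hu u' hu' huu
    have q : ∀ v ∈ ({x, y, z} : Set V), ∀ v' ∈ ({x, y, z} : Set V), v ≠ v' →
        ν u v u' + ν u v v' + ν u' v' u + ν u' v' v = ep u u' + ep u v' + ep v u' + ep v v' :=
      fun v hv v' hv' hvv => hν u v u' v' (hA u hu v hv) (hA u' hu' v' hv') huu
        (h.irr _ _ (hA u hu v' hv')) (h.irr _ _ (hA u' hu' v hv)).symm hvv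
    have mx : x ∈ ({x, y, z} : Set V) := by simp
    have my : y ∈ ({x, y, z} : Set V) := by simp
    have mz : z ∈ ({x, y, z} : Set V) := by simp
    linear_combination q x mx y my hxy + q y my x mx hxy.symm + q x mx z mz hxz +
      q z mz x mx hxz.symm + q y my z mz hyz + q z mz y my hyz.symm + e1 + e2 + e3 +
      (1 + 3 * ep u u' + ep u x + ep u y + ep u z + ep x u' + ep y u' + ep z u' -
        (ν u x u' + ν u y u' + ν u z u' + ν u' x u + ν u' y u + ν u' z u)) * ht_two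
  have k1 := k a (by simp) b (by simp) hab
  have k2 := k a (by simp) c (by simp) hac
  have k3 := k b (by simp) c (by simp) hbc
  generalize ν a x y + ν a y x + ν a x z + ν a z x + ν a y z + ν a z y = p at k1 k2
  generalize ν b x y + ν b y x + ν b x z + ν b z x + ν b y z + ν b z y = q at k1 k3
  generalize ν c x y + ν c y x + ν c x z + ν c z x + ν c y z + ν c z y = r at k2 k3
  have : (1 : ZMod 2) = 0 := by linear_combination (p + q + r - 1) * ht_two - k1 - k2 - k3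
  exact one_ne_zero this

/-- contraction of the edge `x y` to `x` -/
def ht_con (A : V → V → Prop) (x y u v : V) : Prop :=
  u ≠ y ∧ v ≠ y ∧ u ≠ v ∧ (A u v ∨ ((u = x ∨ v = x) ∧ A u y ∧ A y v))

theorem ht_con_par (h : ht_Par ep A) (x y : V) : ht_Par ep (ht_con A x y) := by
  classical
  obtain ⟨ν, hν⟩ := h.par
  refine ⟨?_, fun u v k => k.2.2.1, fun u v => if A u v then ν u v else ν u y + ν y v, ?_⟩
  · rintro u v ⟨h1, h2, h3, h4⟩
    exact ⟨h2, h1, h3.symm, h4.imp (h.symm _ _) fun k =>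
      ⟨k.1.symm, h.symm _ _ k.2.2, h.symm _ _ k.2.1⟩⟩
  · rintro u v z w ⟨h1, h2, -, h4⟩ ⟨k1, k2, -, k4⟩ n1 n2 n3 n4
    by_cases a1 : A u v <;> by_cases a2 : A z w
    · simpa only [a1, a2, if_true] using hν u v z w a1 a2 n1 n2 n3 n4
    · obtain ⟨-, b1, b2⟩ := k4.resolve_left a2
      simp only [a1, a2, if_true, if_false, Pi.add_apply]
      linear_combination hν u v z y a1 b1 n1 h1 n3 h2 + hν u v y w a1 b2 h1 n2 h2 n4 +
        (ep u y + ep v y - ν u v y) * ht_two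
    · obtain ⟨-, b1, b2⟩ := h4.resolve_left a1
      simp only [a1, a2, if_true, if_false, Pi.add_apply]
      linear_combination hν u y z w b1 a2 n1 n2 k1.symm k2.symm +
        hν y v z w b2 a2 k1.symm k2.symm n3 n4 + (ep y z + ep y w - ν z w y) * ht_two
    · obtain ⟨b1, -⟩ := h4.resolve_left a1
      obtain ⟨b2, -⟩ := k4.resolve_left a2
      exfalso
      rcases b1 with rfl | rfl <;> rcases b2 with rfl | rfl <;> contradiction

open Classical in
/-- ordered pairs of adjacent points of `S` -/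
noncomputable def ht_D (A : V → V → Prop) (S : Finset V) : Finset (V × V) :=
  (S ×ˢ S).filter fun p => A p.1 p.2

theorem ht_mem {S : Finset V} {u v : V} : (u, v) ∈ ht_D A S ↔ u ∈ S ∧ v ∈ S ∧ A u v := by
  simp only [ht_D, mem_filter, mem_product, and_assoc]

open Classical in
theorem ht_con_card (h : ht_Par ep A) {S : Finset V} {x y : V} (hx : x ∈ S) (hxy : A x y) :
    (ht_D A S).card ≤ (ht_D (ht_con A x y) (S.erase y)).card +
      2 * ((S.filter fun v => A x v ∧ A y v).card + 1) := by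
  set C := insert x (S.filter fun v => A x v ∧ A y v) with hC
  have c1 : C.card ≤ (S.filter fun v => A x v ∧ A y v).card + 1 := card_insert_le _ _
  have hne := h.irr _ _ hxy
  have c2 : ht_D A S ⊆ (ht_D (ht_con A x y) (S.erase y)).image
      (fun p => if A p.1 p.2 then p else if p.1 = x then (y, p.2) else (p.1, y)) ∪
        (C.image (fun v => (y, v)) ∪ C.image fun v => (v, y)) := by
    rintro ⟨u, v⟩ hp
    obtain ⟨hu, hv, ha⟩ := ht_mem.1 hp
    have huv := h.irr _ _ ha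
    simp only [mem_union, mem_image]
    by_cases h1 : u = y
    · subst h1
      by_cases h2 : v ∈ C
      · exact Or.inr (Or.inl ⟨v, h2, rfl⟩)
      · simp only [hC, mem_insert, mem_filter, hv, ha, true_and, and_true, not_or] at h2
        refine Or.inl ⟨(x, v), ht_mem.2 ⟨mem_erase.2 ⟨hne, hx⟩, mem_erase.2 ⟨huv.symm, hv⟩, hne,
          huv.symm, Ne.symm h2.1, Or.inr ⟨Or.inl rfl, hxy, ha⟩⟩, ?_⟩
        simp only [h2.2, if_false, if_true]
    by_cases h3 : v = y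
    · subst h3
      by_cases h2 : u ∈ C
      · exact Or.inr (Or.inr ⟨u, h2, rfl⟩)
      · simp only [hC, mem_insert, mem_filter, hu, h.symm _ _ ha, true_and, and_true, not_or] at h2
        have h4 : ¬ A u x := fun k => h2.2 (h.symm _ _ k)
        refine Or.inl ⟨(u, x), ht_mem.2 ⟨mem_erase.2 ⟨huv, hu⟩, mem_erase.2 ⟨hne, hx⟩, huv,
          hne, h2.1, Or.inr ⟨Or.inr rfl, ha, h.symm _ _ hxy⟩⟩, ?_⟩
        simp only [h4, h2.1, if_false]
    · refine Or.inl ⟨(u, v), ht_mem.2 ⟨mem_erase.2 ⟨h1, hu⟩, mem_erase.2 ⟨h3, hv⟩, h1, h3, huv,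
        Or.inl ha⟩, ?_⟩
      simp only [ha, if_true]
  have c3 := (card_le_card c2).trans ((card_union_le _ _).trans (add_le_add card_image_le
    ((card_union_le _ _).trans (add_le_add card_image_le card_image_le))))
  omega

/-- the bound for sets that are joined to `t` apices -/
def ht_B (ep : V → V → ZMod 2) (t k : ℕ) : Prop :=
  ∀ (A : V → V → Prop) (S T : Finset V), ht_Par ep A →
    (∀ x ∈ S, ∀ z ∈ S, x ≠ z → ep x z + ep z x = 1) → (∀ a ∈ T, ∀ b ∈ S, A a b) → T.card = t →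
      (ht_D A S).card ≤ k * S.card

theorem ht_base : ht_B ep 3 2 := by
  classical
  intro A S T h hS hT h3
  obtain ⟨a, b, c, hab, hac, hbc, rfl⟩ := card_eq_three.1 h3
  by_cases h2 : 2 < S.card
  · obtain ⟨x, y, z, hx, hy, hz, hxy, hxz, hyz⟩ := two_lt_card_iff.1 h2
    refine (ht_k33 h hab hac hbc hxy hxz hyz (hS x hx y hy hxy) (hS x hx z hz hxz)
      (hS y hy z hz hyz) fun u hu v hv => hT u (by simpa using hu) v ?_).elim
    rcases hv with rfl | rfl | rfl <;> assumption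
  · refine (card_filter_le _ _).trans ?_
    rw [card_product]
    exact Nat.mul_le_mul_right _ (not_lt.1 h2)

theorem ht_step {t k : ℕ} (ih : ht_B ep (t + 1) k) : ht_B ep t (2 * (k + 1)) := by
  classical
  intro A S T h hS hT ht
  induction hn : S.card generalizing A S with
  | zero =>
    rw [card_eq_zero.1 hn]
    simp [ht_D]
  | succ n ihn =>
    by_cases hc : ∃ x ∈ S, ∃ y ∈ S, A x y ∧ (S.filter fun v => A x v ∧ A y v).card ≤ k
    · obtain ⟨x, hx, y, hy, hxy, hk⟩ := hc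
      have h1 := ihn (ht_con A x y) (S.erase y) (ht_con_par h x y)
        (fun u hu v hv => hS u (mem_of_mem_erase hu) v (mem_of_mem_erase hv))
        (fun a ha b hb => ⟨h.irr _ _ (hT a ha y hy), ne_of_mem_erase hb,
          h.irr _ _ (hT a ha b (mem_of_mem_erase hb)), Or.inl (hT a ha b (mem_of_mem_erase hb))⟩)
        (by rw [card_erase_of_mem hy, hn]; rfl)
      have h2 := ht_con_card h hx hxy
      rw [Nat.mul_succ]
      omega
    · rcases (ht_D A S).eq_empty_or_nonempty with h0 | ⟨⟨x, y⟩, hp⟩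
      · rw [h0]
        exact Nat.zero_le _
      obtain ⟨hx, hy, hxy⟩ := ht_mem.1 hp
      exfalso
      set N := S.filter (A x) with hN
      have h1 := ih A N (insert x T) h
        (fun u hu v hv => hS u (mem_filter.1 hu).1 v (mem_filter.1 hv).1)
        (fun a ha b hb => (mem_insert.1 ha).elim (fun e => e ▸ (mem_filter.1 hb).2)
          fun e => hT a e b (mem_filter.1 hb).1)
        (by rw [card_insert_of_notMem fun e => h.irr _ _ (hT x e x hx) rfl, ht])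
      have h2 : (ht_D A N).card = ∑ u ∈ N, (N.filter (A u)).card := by
        rw [ht_D, card_filter, sum_product]
        exact sum_congr rfl fun u _ => by rw [card_filter]
      have h3 : N.card • (k + 1) ≤ ∑ u ∈ N, (N.filter (A u)).card := by
        refine card_nsmul_le_sum _ _ _ fun u hu => ?_
        rw [hN, filter_filter]
        by_contra h4
        exact hc ⟨x, hx, u, (mem_filter.1 hu).1, (mem_filter.1 hu).2, by omega⟩
      have h4 : 0 < N.card := card_pos.2 ⟨y, mem_filter.2 ⟨hy, hxy⟩⟩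
      rw [smul_eq_mul, Nat.mul_succ, mul_comm] at h3
      omega

end

theorem ht_bound {V : Type} [DecidableEq V] (S : Finset V) (E : Finset (V × V))
    (n : V × V → V → ZMod 2) (ep : V → V → ZMod 2)
    (hE : ∀ e ∈ E, e.1 ∈ S ∧ e.2 ∈ S ∧ e.1 ≠ e.2)
    (hep : ∀ x ∈ S, ∀ z ∈ S, x ≠ z → ep x z + ep z x = 1)
    (hn : ∀ e ∈ E, ∀ f ∈ E, e.1 ≠ f.1 → e.1 ≠ f.2 → e.2 ≠ f.1 → e.2 ≠ f.2 →
      n e f.1 + n e f.2 + n f e.1 + n f e.2 = ep e.1 f.1 + ep e.1 f.2 + ep e.2 f.1 + ep e.2 f.2) :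
    E.card ≤ 128 * S.card := by
  have h : ht_Par ep fun x y => (x, y) ∈ E ∨ (y, x) ∈ E := by
    refine ⟨fun x y k => k.symm, fun x y k => k.elim (fun k => (hE _ k).2.2)
      fun k => (hE _ k).2.2.symm, fun x y => if (x, y) ∈ E then n (x, y) else n (y, x), ?_⟩
    intro x y z w h1 h2 n1 n2 n3 n4
    by_cases a1 : (x, y) ∈ E <;> by_cases a2 : (z, w) ∈ E <;> simp only [a1, a2, if_true, if_false]
    · exact hn _ a1 _ a2 n1 n2 n3 n4
    · linear_combination hn _ a1 _ (h2.resolve_left a2) n2 n1 n4 n3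
    · linear_combination hn _ (h1.resolve_left a1) _ a2 n3 n4 n1 n2
    · linear_combination hn _ (h1.resolve_left a1) _ (h2.resolve_left a2) n4 n3 n2 n1
  have h1 := ht_step (ht_step (ht_step ht_base)) _ S ∅ h hep (by simp) rfl
  have h2 : E ⊆ ht_D (fun x y => (x, y) ∈ E ∨ (y, x) ∈ E) S := fun e he =>
    ht_mem.2 ⟨(hE e he).1, (hE e he).2.1, Or.inl he⟩
  have h3 := card_le_card h2
  omega

end CurK
end

-- merged part: Pool.Agent.Work.MP_8a5de9_co_K.Ex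
section
/-!
# Expectations over Bernoulli samples

Prove `Ex_insert` from `Finset.sum_powerset_insert`; most of the other statements follow by
`Finset.induction_on` on `A`, generalizing the function.
-/

namespace CurK

variable {J : Type} [DecidableEq J]

/-- The expectation of `f R` when every element of `A` is put into `R` with probability `ρ`. -/
def Ex (A : Finset J) (ρ : ℝ) (f : Finset J → ℝ) : ℝ :=
  ∑ R ∈ A.powerset, ρ ^ R.card * (1 - ρ) ^ (A.card - R.card) * f R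

variable {A : Finset J} {ρ : ℝ} {f g : Finset J → ℝ}

omit [DecidableEq J] in
theorem Ex_empty (ρ : ℝ) (f : Finset J → ℝ) : Ex ∅ ρ f = f ∅ := by
  simp [Ex]

theorem Ex_insert {a : J} (ha : a ∉ A) (ρ : ℝ) (f : Finset J → ℝ) :
    Ex (insert a A) ρ f = ρ * Ex A ρ (fun R => f (insert a R)) + (1 - ρ) * Ex A ρ f := by
  unfold Ex
  rw [Finset.sum_powerset_insert ha, Finset.mul_sum, Finset.mul_sum, add_comm,
    Finset.card_insert_of_notMem ha]
  congr 1
  · refine Finset.sum_congr rfl fun R hR => ?_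
    have h1 : a ∉ R := fun h => ha (Finset.mem_powerset.1 hR h)
    rw [Finset.card_insert_of_notMem h1, Nat.add_sub_add_right]
    ring
  · refine Finset.sum_congr rfl fun R hR => ?_
    rw [Nat.succ_sub (Finset.card_le_card (Finset.mem_powerset.1 hR)), pow_succ]
    ring

omit [DecidableEq J] in
theorem Ex_congr (h : ∀ R ⊆ A, f R = g R) : Ex A ρ f = Ex A ρ g := by
  exact Finset.sum_congr rfl fun R hR => by rw [h R (Finset.mem_powerset.1 hR)]

theorem Ex_const (A : Finset J) (ρ c : ℝ) : Ex A ρ (fun _ => c) = c := by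
  induction A using Finset.induction_on with
  | empty => exact Ex_empty _ _
  | insert a A ha ih => rw [Ex_insert ha, ih]; ring

omit [DecidableEq J] in
theorem Ex_add (A : Finset J) (ρ : ℝ) (f g : Finset J → ℝ) :
    Ex A ρ (fun R => f R + g R) = Ex A ρ f + Ex A ρ g := by
  simp only [Ex, mul_add, Finset.sum_add_distrib]

omit [DecidableEq J] in
theorem Ex_sub (A : Finset J) (ρ : ℝ) (f g : Finset J → ℝ) :
    Ex A ρ (fun R => f R - g R) = Ex A ρ f - Ex A ρ g := by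
  simp only [Ex, mul_sub, Finset.sum_sub_distrib]

omit [DecidableEq J] in
theorem Ex_mul (A : Finset J) (ρ c : ℝ) (f : Finset J → ℝ) :
    Ex A ρ (fun R => c * f R) = c * Ex A ρ f := by
  simp only [Ex, Finset.mul_sum]
  exact Finset.sum_congr rfl fun R _ => by ring

omit [DecidableEq J] in
theorem Ex_sum {κ : Type} (A : Finset J) (ρ : ℝ) (T : Finset κ) (f : κ → Finset J → ℝ) :
    Ex A ρ (fun R => ∑ k ∈ T, f k R) = ∑ k ∈ T, Ex A ρ (f k) := by
  simp only [Ex, Finset.mul_sum]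
  exact Finset.sum_comm

omit [DecidableEq J] in
theorem Ex_mono (h0 : 0 ≤ ρ) (h1 : ρ ≤ 1) (h : ∀ R ⊆ A, f R ≤ g R) : Ex A ρ f ≤ Ex A ρ g := by
  exact Finset.sum_le_sum fun R hR => mul_le_mul_of_nonneg_left (h R (Finset.mem_powerset.1 hR))
    (mul_nonneg (pow_nonneg h0 _) (pow_nonneg (sub_nonneg.2 h1) _))

omit [DecidableEq J] in
theorem Ex_nonneg (h0 : 0 ≤ ρ) (h1 : ρ ≤ 1) (h : ∀ R ⊆ A, 0 ≤ f R) : 0 ≤ Ex A ρ f := by
  exact Finset.sum_nonneg fun R hR => mul_nonneg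
    (mul_nonneg (pow_nonneg h0 _) (pow_nonneg (sub_nonneg.2 h1) _)) (h R (Finset.mem_powerset.1 hR))

theorem Ex_card (A : Finset J) (ρ : ℝ) : Ex A ρ (fun R => (R.card : ℝ)) = ρ * A.card := by
  induction A using Finset.induction_on with
  | empty => simp [Ex_empty]
  | insert a A ha ih =>
    have e : Ex A ρ (fun R => ((insert a R).card : ℝ)) = Ex A ρ fun R => (R.card : ℝ) + 1 :=
      Ex_congr fun R hR => by
        rw [Finset.card_insert_of_notMem fun h => ha (hR h)]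
        push_cast
        rfl
    rw [Ex_insert ha, e, Ex_add, ih, Ex_const, Finset.card_insert_of_notMem ha]
    push_cast
    ring

theorem Ex_choose (A : Finset J) (ρ : ℝ) (k : ℕ) :
    Ex A ρ (fun R => (R.card.choose k : ℝ)) = ρ ^ k * A.card.choose k := by
  induction A using Finset.induction_on generalizing k with
  | empty => cases k <;> simp [Ex_empty]
  | insert a A ha ih =>
    cases k with
    | zero => simp [Ex_const]
    | succ k =>
      have e : Ex A ρ (fun R => ((insert a R).card.choose (k + 1) : ℝ)) =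
          Ex A ρ fun R => (R.card.choose k : ℝ) + R.card.choose (k + 1) :=
        Ex_congr fun R hR => by
          rw [Finset.card_insert_of_notMem fun h => ha (hR h), Nat.choose_succ_succ']
          push_cast
          rfl
      rw [Ex_insert ha, e, Ex_add, ih, ih, Finset.card_insert_of_notMem ha, Nat.choose_succ_succ']
      push_cast
      ring

/-- The probability that `I` is chosen and `Y` is avoided. -/
theorem Ex_ind {I Y : Finset J} (hI : I ⊆ A) (hY : Y ⊆ A) (h : Disjoint I Y) (ρ : ℝ) :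
    Ex A ρ (fun R => if I ⊆ R ∧ Disjoint Y R then 1 else 0) =
      ρ ^ I.card * (1 - ρ) ^ Y.card := by
  induction A using Finset.induction_on generalizing I Y with
  | empty =>
    rw [Finset.subset_empty] at hI hY
    subst hI hY
    simp [Ex_empty]
  | insert a A ha ih =>
    rw [Ex_insert ha]
    by_cases h1 : a ∈ I
    · have h2 : a ∉ Y := Finset.disjoint_left.1 h h1
      have e1 : Ex A ρ (fun R => if I ⊆ insert a R ∧ Disjoint Y (insert a R) then 1 else 0) =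
          Ex A ρ fun R => if I.erase a ⊆ R ∧ Disjoint Y R then 1 else 0 :=
        Ex_congr fun R _ => by
          simp only [Finset.subset_insert_iff, Finset.disjoint_insert_right, h2, not_false_eq_true,
            true_and]
      have e2 : Ex A ρ (fun R => if I ⊆ R ∧ Disjoint Y R then 1 else 0) = Ex A ρ fun _ => 0 :=
        Ex_congr fun R hR => if_neg fun h' => ha (hR (h'.1 h1))
      rw [e1, e2, Ex_const, ih (Finset.subset_insert_iff.1 hI)
        ((Finset.subset_insert_iff_of_notMem h2).1 hY)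
        (Finset.disjoint_of_subset_left (Finset.erase_subset _ _) h),
        ← Finset.card_erase_add_one h1]
      ring
    · have hI' := (Finset.subset_insert_iff_of_notMem h1).1 hI
      by_cases h2 : a ∈ Y
      · have e1 : Ex A ρ (fun R => if I ⊆ insert a R ∧ Disjoint Y (insert a R) then 1 else 0) =
            Ex A ρ fun _ => 0 :=
          Ex_congr fun R _ => if_neg fun h' => (Finset.disjoint_insert_right.1 h'.2).1 h2
        have e2 : Ex A ρ (fun R => if I ⊆ R ∧ Disjoint Y R then 1 else 0) =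
            Ex A ρ fun R => if I ⊆ R ∧ Disjoint (Y.erase a) R then 1 else 0 :=
          Ex_congr fun R hR => by
            have : Disjoint Y R ↔ Disjoint (Y.erase a) R := by
              conv_lhs => rw [← Finset.insert_erase h2, Finset.disjoint_insert_left]
              exact and_iff_right fun h' => ha (hR h')
            simp only [this]
        rw [e1, e2, Ex_const, ih hI' (Finset.subset_insert_iff.1 hY)
          (Finset.disjoint_of_subset_right (Finset.erase_subset _ _) h),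
          ← Finset.card_erase_add_one h2]
        ring
      · have e1 : Ex A ρ (fun R => if I ⊆ insert a R ∧ Disjoint Y (insert a R) then 1 else 0) =
            Ex A ρ fun R => if I ⊆ R ∧ Disjoint Y R then 1 else 0 :=
          Ex_congr fun R _ => by
            simp only [Finset.subset_insert_iff_of_notMem h1, Finset.disjoint_insert_right, h2,
              not_false_eq_true, true_and]
        rw [e1, ih hI' ((Finset.subset_insert_iff_of_notMem h2).1 hY) h]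
        ring

theorem Ex_rate_mono {ρ' : ℝ} (h0 : 0 ≤ ρ) (h1 : ρ ≤ ρ') (h2 : ρ' ≤ 1)
    (h : ∀ R R', R ⊆ R' → R' ⊆ A → f R ≤ f R') : Ex A ρ f ≤ Ex A ρ' f := by
  induction A using Finset.induction_on generalizing f with
  | empty => rw [Ex_empty, Ex_empty]
  | insert a A ha ih =>
    have a1 := ih (f := fun R => f (insert a R)) fun R R' h3 h4 =>
      h _ _ (Finset.insert_subset_insert a h3) (Finset.insert_subset_insert a h4)
    have a2 := ih (f := f) fun R R' h3 h4 => h _ _ h3 (h4.trans (Finset.subset_insert a A))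
    have a3 : Ex A ρ' f ≤ Ex A ρ' fun R => f (insert a R) :=
      Ex_mono (h0.trans h1) h2 fun R hR =>
        h _ _ (Finset.subset_insert a R) (Finset.insert_subset_insert a hR)
    rw [Ex_insert ha, Ex_insert ha]
    nlinarith [mul_le_mul_of_nonneg_left a1 h0,
      mul_le_mul_of_nonneg_left a2 (sub_nonneg.2 (h1.trans h2)),
      mul_le_mul_of_nonneg_left a3 (sub_nonneg.2 h1)]

theorem Ex_Ex (A : Finset J) (q s : ℝ) (f : Finset J → ℝ) :
    Ex A q (fun U => Ex U s f) = Ex A (q * s) f := by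
  induction A using Finset.induction_on generalizing f with
  | empty => simp only [Ex_empty]
  | insert a A ha ih =>
    have e : Ex A q (fun U => Ex (insert a U) s f) =
        Ex A q fun U => s * Ex U s (fun R => f (insert a R)) + (1 - s) * Ex U s f :=
      Ex_congr fun U hU => Ex_insert (fun h => ha (hU h)) s f
    rw [Ex_insert ha, Ex_insert ha, e, Ex_add, Ex_mul, Ex_mul, ih, ih]
    ring

theorem Ex_inter {A' : Finset J} (h : A' ⊆ A) (ρ : ℝ) (f : Finset J → ℝ) :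
    Ex A ρ (fun R => f (R ∩ A')) = Ex A' ρ f := by
  induction A using Finset.induction_on generalizing A' f with
  | empty =>
    rw [Finset.subset_empty] at h
    subst h
    simp only [Ex_empty, Finset.inter_self]
  | insert a A ha ih =>
    rw [Ex_insert ha]
    by_cases h1 : a ∈ A'
    · have h2 := Finset.subset_insert_iff.1 h
      have e1 : Ex A ρ (fun R => f (insert a R ∩ A')) =
          Ex A ρ fun R => f (insert a (R ∩ A'.erase a)) :=
        Ex_congr fun R _ => by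
          congr 1
          ext i
          by_cases hi : i = a <;> simp [hi, h1]
      have e2 : Ex A ρ (fun R => f (R ∩ A')) = Ex A ρ fun R => f (R ∩ A'.erase a) :=
        Ex_congr fun R hR => by
          congr 1
          ext i
          by_cases hi : i = a
          · have : a ∉ R := fun h' => ha (hR h')
            simp [hi, this]
          · simp [hi]
      rw [e1, e2, ih h2 fun R => f (insert a R), ih h2 f, ← Ex_insert (Finset.notMem_erase a A'),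
        Finset.insert_erase h1]
    · have h2 := (Finset.subset_insert_iff_of_notMem h1).1 h
      simp only [Finset.insert_inter_of_notMem h1]
      rw [ih h2 f]
      ring

theorem Ex_sum_mem (A : Finset J) (ρ : ℝ) (g : J → Finset J → ℝ) :
    Ex A ρ (fun R => ∑ b ∈ R, g b R) =
      ρ * ∑ b ∈ A, Ex (A.erase b) ρ (fun R => g b (insert b R)) := by
  have e : Ex A ρ (fun R => ∑ b ∈ R, g b R) =
      Ex A ρ fun R => ∑ b ∈ A, if b ∈ R then g b R else 0 :=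
    Ex_congr fun R hR => by rw [Finset.sum_ite_mem, Finset.inter_eq_right.2 hR]
  rw [e, Ex_sum, Finset.mul_sum]
  refine Finset.sum_congr rfl fun b hb => ?_
  have e2 : Ex (A.erase b) ρ (fun R => if b ∈ R then g b R else 0) = Ex (A.erase b) ρ fun _ => 0 :=
    Ex_congr fun R hR => if_neg fun h => Finset.notMem_erase b A (hR h)
  conv_lhs => rw [← Finset.insert_erase hb, Ex_insert (Finset.notMem_erase b A), e2, Ex_const]
  simp

theorem Ex_sum_notMem (A : Finset J) (ρ : ℝ) (g : J → Finset J → ℝ) :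
    Ex A ρ (fun R => ∑ b ∈ A \ R, g b R) = (1 - ρ) * ∑ b ∈ A, Ex (A.erase b) ρ (g b) := by
  have e : Ex A ρ (fun R => ∑ b ∈ A \ R, g b R) =
      Ex A ρ fun R => ∑ b ∈ A, if b ∉ R then g b R else 0 :=
    Ex_congr fun R _ => by rw [Finset.sdiff_eq_filter, Finset.sum_filter]
  rw [e, Ex_sum, Finset.mul_sum]
  refine Finset.sum_congr rfl fun b hb => ?_
  have e2 : Ex (A.erase b) ρ (fun R => if b ∉ R then g b R else 0) = Ex (A.erase b) ρ (g b) :=
    Ex_congr fun R hR => if_pos fun h => Finset.notMem_erase b A (hR h)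
  conv_lhs => rw [← Finset.insert_erase hb, Ex_insert (Finset.notMem_erase b A), e2]
  simp [Ex_const]

end CurK
end

-- merged part: Pool.Agent.Work.MP_8a5de9_co_K.Rich
section
/-! Lemma RICH (paper 4.3), abstract form. -/

namespace CurK

section

variable {A J : Type} [DecidableEq A] [DecidableEq J]

/-- The indicator that `I` is chosen and `Y` is avoided. -/
def ri_i (I Y R : Finset A) : ℝ := if I ⊆ R ∧ Disjoint Y R then 1 else 0

theorem ri_two {As I Y : Finset A} {Js I' Y' : Finset J} (hI : I ⊆ As) (hY : Y ⊆ As)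
    (h : Disjoint I Y) (hI' : I' ⊆ Js) (hY' : Y' ⊆ Js) (h' : Disjoint I' Y') (p q : ℝ) :
    Ex As p (fun R => Ex Js q fun R' => ri_i I Y R * ri_i I' Y' R') =
      p ^ I.card * (1 - p) ^ Y.card * (q ^ I'.card * (1 - q) ^ Y'.card) := by
  have e : ∀ R, Ex Js q (fun R' => ri_i I Y R * ri_i I' Y' R') =
      q ^ I'.card * (1 - q) ^ Y'.card * ri_i I Y R := fun R => by
    rw [Ex_mul, mul_comm]
    exact congrArg (· * _) (Ex_ind hI' hY' h' q)
  simp only [e]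
  rw [Ex_mul, mul_comm]
  exact congrArg (· * _) (Ex_ind hI hY h p)

theorem ri_sum {κ : Type} (T : Finset κ) (I Y : κ → Finset A) (I' Y' : κ → Finset J)
    (R : Finset A) (R' : Finset J) :
    ∑ t ∈ T, ri_i (I t) (Y t) R * ri_i (I' t) (Y' t) R' = ((T.filter fun t =>
      (I t ⊆ R ∧ Disjoint (Y t) R) ∧ I' t ⊆ R' ∧ Disjoint (Y' t) R').card : ℝ) := by
  rw [Finset.card_filter]
  push_cast
  exact Finset.sum_congr rfl fun t _ => by rw [ri_i, ri_i, ite_zero_mul_ite_zero, mul_one]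

theorem ri_half {p : ℝ} {k : ℕ} (h1 : p ≤ 1) (h : k * p ≤ 1 / 2) : 1 / 2 ≤ (1 - p) ^ k := by
  have := one_add_mul_le_pow (a := -p) (by linarith) k
  rw [← sub_eq_add_neg] at this
  linarith

end

open Classical in
/-- The realised paths: all but the conflicting ones are edges of a graph as in `ht_bound`. -/
theorem ri_point {A J : Type} {mA : A → A → Prop} {mJ : J → A → Prop} {mJJ : J → J → Prop}
    {n : A × J × A → A → ZMod 2} {ep : A → A → ZMod 2} {R : Finset A} {T : Finset (A × J × A)}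
    (hs : ∀ x y, mA x y → mA y x) (hep : ∀ x ∈ R, ∀ z ∈ R, ¬ mA x z → ep x z + ep z x = 1)
    (ha : ∀ t ∈ T, t.1 ≠ t.2.2 ∧ ¬ mA t.1 t.2.2 ∧ t.1 ∈ R ∧ t.2.2 ∈ R ∧
      ∀ z ∈ R, mA t.1 z ∨ mA t.2.2 z ∨ mJ t.2.1 z → z = t.1 ∨ z = t.2.2)
    (hd : ∀ t ∈ T, ∀ u ∈ T, t.1 = u.1 → t.2.2 = u.2.2 → t = u)
    (hn : ∀ t ∈ T, ∀ u ∈ T, ¬ mA t.1 u.1 → ¬ mA t.1 u.2.2 → ¬ mA t.2.2 u.1 → ¬ mA t.2.2 u.2.2 →
      ¬ mJ t.2.1 u.1 → ¬ mJ t.2.1 u.2.2 → ¬ mJ u.2.1 t.1 → ¬ mJ u.2.1 t.2.2 →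
      ¬ mJJ t.2.1 u.2.1 → n t u.1 + n t u.2.2 + n u t.1 + n u t.2.2 =
        ep t.1 u.1 + ep t.1 u.2.2 + ep t.2.2 u.1 + ep t.2.2 u.2.2) :
    T.card ≤ 128 * R.card + ((T ×ˢ T).filter fun c => (c.1.1 ≠ c.2.1 ∧ c.1.1 ≠ c.2.2.2 ∧
      c.1.2.2 ≠ c.2.1 ∧ c.1.2.2 ≠ c.2.2.2) ∧ mJJ c.1.2.1 c.2.2.1).card := by
  set G : A × J × A → Prop := fun t => ∀ u ∈ T, (t.1 ≠ u.1 ∧ t.1 ≠ u.2.2 ∧
      t.2.2 ≠ u.1 ∧ t.2.2 ≠ u.2.2) → ¬ mJJ t.2.1 u.2.1 with hG
  rw [← Finset.card_filter_add_card_filter_not (s := T) G]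
  refine add_le_add ?_ ((Finset.card_le_card fun t ht => ?_).trans
    (Finset.card_image_le (f := Prod.fst)))
  · have hex : ∀ e : A × A, ∃ m : A → ZMod 2, e ∈ (T.filter G).image (fun t => (t.1, t.2.2)) →
        ∃ t ∈ T.filter G, (t.1, t.2.2) = e ∧ m = n t := fun e => by
      by_cases h : e ∈ (T.filter G).image fun t => (t.1, t.2.2)
      · obtain ⟨t, h1, h2⟩ := Finset.mem_image.1 h
        exact ⟨n t, fun _ => ⟨t, h1, h2, rfl⟩⟩
      · exact ⟨0, fun h' => absurd h' h⟩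
    choose m hm using hex
    have hi : ((T.filter G).image fun t => (t.1, t.2.2)).card = (T.filter G).card :=
      Finset.card_image_of_injOn fun t ht u hu e => hd t (Finset.mem_filter.1 ht).1 u
        (Finset.mem_filter.1 hu).1 (Prod.mk.inj e).1 (Prod.mk.inj e).2
    rw [← hi]
    refine (ht_bound (R.filter fun x => ∀ z ∈ R, mA x z → z = x) _ m ep (fun e he => ?_)
      (fun x hx z hz e => ?_) fun e he f hf h1 h2 h3 h4 => ?_).trans
      (Nat.mul_le_mul_left _ (Finset.card_filter_le _ _))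
    · obtain ⟨t, ht, rfl⟩ := Finset.mem_image.1 he
      obtain ⟨a1, a2, a3, a4, a5⟩ := ha t (Finset.mem_filter.1 ht).1
      refine ⟨Finset.mem_filter.2 ⟨a3, fun z hz h => ?_⟩,
        Finset.mem_filter.2 ⟨a4, fun z hz h => ?_⟩, a1⟩
      · exact (a5 z hz (Or.inl h)).resolve_right fun e => a2 (e ▸ h)
      · exact (a5 z hz (Or.inr (Or.inl h))).resolve_left fun e => a2 (hs _ _ (e ▸ h))
    · rw [Finset.mem_filter] at hx hz
      exact hep x hx.1 z hz.1 fun h => e (hx.2 z hz.1 h).symm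
    · obtain ⟨t, ht, rfl, e1⟩ := hm e he
      obtain ⟨u, hu, rfl, e2⟩ := hm f hf
      rw [Finset.mem_filter] at ht hu
      obtain ⟨-, -, a3, a4, a5⟩ := ha t ht.1
      obtain ⟨-, -, b3, b4, b5⟩ := ha u hu.1
      have c1 := fun h => (a5 _ b3 h).elim (fun e => h1 e.symm) fun e => h3 e.symm
      have c2 := fun h => (a5 _ b4 h).elim (fun e => h2 e.symm) fun e => h4 e.symm
      rw [e1, e2]
      exact hn t ht.1 u hu.1 (fun h => c1 (.inl h)) (fun h => c2 (.inl h))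
        (fun h => c1 (.inr (.inl h))) (fun h => c2 (.inr (.inl h))) (fun h => c1 (.inr (.inr h)))
        (fun h => c2 (.inr (.inr h))) (fun h => (b5 _ a3 (.inr (.inr h))).elim h1 h2)
        (fun h => (b5 _ a4 (.inr (.inr h))).elim h3 h4) (ht.2 u hu.1 ⟨h1, h2, h3, h4⟩)
  · obtain ⟨h1, h2⟩ := Finset.mem_filter.1 ht
    simp only [hG, not_forall, not_not] at h2
    obtain ⟨u, hu, h3, h4⟩ := h2
    exact Finset.mem_image.2 ⟨(t, u), Finset.mem_filter.2
      ⟨Finset.mem_product.2 ⟨h1, hu⟩, h3, h4⟩, rfl⟩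

open Classical in
theorem ri_pairs {A J : Type} {As : Finset A} {Js : Finset J} {mJ : J → A → Prop}
    {mJJ : J → J → Prop} {Tr : Finset (A × J × A)} {m1 Mx : ℕ}
    (hT : ∀ t ∈ Tr, t.2.1 ∈ Js ∧ t.2.2 ∈ As ∧ mJ t.2.1 t.2.2)
    (h1 : ∀ j, ((Tr.filter fun t => t.2.1 = j).image fun t => t.1).card ≤ m1)
    (hJA : ∀ j ∈ Js, (As.filter (mJ j)).card ≤ Mx) (hJJ : ∀ j ∈ Js, (Js.filter (mJJ j)).card ≤ Mx)
    {C : Finset ((A × J × A) × A × J × A)}
    (hC : ∀ c ∈ C, c.1 ∈ Tr ∧ c.2 ∈ Tr ∧ mJJ c.1.2.1 c.2.2.1) :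
    C.card ≤ m1 * Mx * (m1 * Mx) * (Mx * Js.card) := by
  have k1 : ∀ j ∈ Js, (Tr.filter fun t => t.2.1 = j).card ≤ m1 * Mx := fun j hj => by
    refine le_trans ?_ (Nat.mul_le_mul (h1 j) (hJA j hj))
    rw [← Finset.card_product]
    refine Finset.card_le_card_of_injOn (fun t => (t.1, t.2.2)) (fun t ht => ?_)
      fun t ht u hu e => ?_
    · have h := Finset.mem_filter.1 (Finset.mem_coe.1 ht)
      exact Finset.mem_coe.2 (Finset.mem_product.2 ⟨Finset.mem_image_of_mem _ ht,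
        Finset.mem_filter.2 ⟨(hT t h.1).2.1, h.2 ▸ (hT t h.1).2.2⟩⟩)
    · exact Prod.ext (Prod.mk.inj e).1 (Prod.ext ((Finset.mem_filter.1 ht).2.trans
        (Finset.mem_filter.1 hu).2.symm) (Prod.mk.inj e).2)
  have k2 : ((Js ×ˢ Js).filter fun b => mJJ b.1 b.2).card ≤ Mx * Js.card := by
    refine Finset.card_le_mul_card_image_of_maps_to (f := Prod.fst)
      (fun b hb => (Finset.mem_product.1 (Finset.mem_filter.1 hb).1).1) _ fun j hj => ?_
    refine le_trans (Finset.card_le_card_of_injOn Prod.snd (fun b hb => ?_) fun b hb c hc e => ?_)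
      (hJJ j hj)
    · obtain ⟨h, e⟩ := Finset.mem_filter.1 (Finset.mem_coe.1 hb)
      rw [Finset.mem_filter] at h
      exact Finset.mem_coe.2 (Finset.mem_filter.2 ⟨(Finset.mem_product.1 h.1).2, e ▸ h.2⟩)
    · exact Prod.ext ((Finset.mem_filter.1 hb).2.trans (Finset.mem_filter.1 hc).2.symm) e
  refine le_trans (Finset.card_le_mul_card_image_of_maps_to (f := fun c => (c.1.2.1, c.2.2.1))
    (fun c hc => ?_) _ fun b hb => ?_) (Nat.mul_le_mul_left _ k2)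
  · obtain ⟨a1, a2, a3⟩ := hC c hc
    exact Finset.mem_filter.2 ⟨Finset.mem_product.2 ⟨(hT _ a1).1, (hT _ a2).1⟩, a3⟩
  · have h := Finset.mem_product.1 (Finset.mem_filter.1 hb).1
    refine le_trans ?_ (Nat.mul_le_mul (k1 _ h.1) (k1 _ h.2))
    rw [← Finset.card_product]
    refine Finset.card_le_card fun c hc => ?_
    obtain ⟨a, e⟩ := Finset.mem_filter.1 hc
    exact Finset.mem_product.2 ⟨Finset.mem_filter.2 ⟨(hC c a).1, congrArg Prod.fst e⟩,
      Finset.mem_filter.2 ⟨(hC c a).2.1, congrArg Prod.snd e⟩⟩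

open Classical in
theorem rich : ∃ C : ℝ, 0 ≤ C ∧ ∀ {A J : Type} (As : Finset A) (Js : Finset J)
    (mA : A → A → Prop) (mJ : J → A → Prop) (mJJ : J → J → Prop) (Tr : Finset (A × J × A))
    (m1 Mx N0 : ℕ) (Q : ℝ) (n : A × J × A → A → ZMod 2) (ep : A → A → ZMod 2),
    1 ≤ Q → m1 ≤ Mx → As.card ≤ N0 → Js.card ≤ N0 →
    (∀ t ∈ Tr, t.1 ∈ As ∧ t.2.1 ∈ Js ∧ t.2.2 ∈ As ∧ mJ t.2.1 t.1 ∧ mJ t.2.1 t.2.2) →
    (∀ x ∈ As, mA x x) → (∀ x y, mA x y → mA y x) →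
    (∀ j, ((Tr.filter fun t => t.2.1 = j).image fun t => t.1).card ≤ m1) →
    (∀ x ∈ As, (As.filter (mA x)).card ≤ Mx) → (∀ j ∈ Js, (As.filter (mJ j)).card ≤ Mx) →
    (∀ j ∈ Js, (Js.filter (mJJ j)).card ≤ Mx) →
    (∀ x ∈ As, ∀ z ∈ As, ¬ mA x z → ep x z + ep z x = 1) →
    (∀ t ∈ Tr, ∀ u ∈ Tr, ¬ mA t.1 u.1 → ¬ mA t.1 u.2.2 → ¬ mA t.2.2 u.1 → ¬ mA t.2.2 u.2.2 →
      ¬ mJ t.2.1 u.1 → ¬ mJ t.2.1 u.2.2 → ¬ mJ u.2.1 t.1 → ¬ mJ u.2.1 t.2.2 →
      ¬ mJJ t.2.1 u.2.1 → n t u.1 + n t u.2.2 + n u t.1 + n u t.2.2 =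
        ep t.1 u.1 + ep t.1 u.2.2 + ep t.2.2 u.1 + ep t.2.2 u.2.2) →
    ((Tr.filter fun t => ¬ mA t.1 t.2.2 ∧
      ((Tr.filter fun u => u.1 = t.1 ∧ u.2.2 = t.2.2).card : ℝ) * Q ^ 3 ≤ m1).card : ℝ) * Q ≤
        C * N0 * m1 * Mx := by
  refine ⟨6145, by norm_num, ?_⟩
  intro A J As Js mA mJ mJJ Tr m1 Mx N0 Q n ep hQ hm hA hJ hT hr hs h1 hAA hJA hJJ hep hn
  set B := Tr.filter fun t => ¬ mA t.1 t.2.2 ∧
    ((Tr.filter fun u => u.1 = t.1 ∧ u.2.2 = t.2.2).card : ℝ) * Q ^ 3 ≤ m1 with hB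
  have hb : ∀ t ∈ B, t ∈ Tr ∧ t.1 ≠ t.2.2 ∧ ¬ mA t.1 t.2.2 ∧
      ((Tr.filter fun u => u.1 = t.1 ∧ u.2.2 = t.2.2).card : ℝ) * Q ^ 3 ≤ m1 := fun t ht => by
    obtain ⟨a1, a2, a3⟩ := Finset.mem_filter.1 ht
    exact ⟨a1, fun e => a2 (e ▸ hr _ (hT t a1).1), a2, a3⟩
  rcases B.eq_empty_or_nonempty with h0 | ⟨t0, ht0⟩
  · rw [h0, Finset.card_empty, Nat.cast_zero, zero_mul]
    positivity
  have hQ0 : 0 < Q := by linarith
  have hQ3 : Q ^ 3 ≤ m1 := by
    refine le_trans (le_mul_of_one_le_left (by positivity) ?_) (hb t0 ht0).2.2.2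
    exact Nat.one_le_cast.2 (Finset.card_pos.2 ⟨t0, Finset.mem_filter.2 ⟨(hb t0 ht0).1, rfl, rfl⟩⟩)
  have hm1 : (1 : ℝ) ≤ m1 := (one_le_pow₀ hQ).trans hQ3
  have hM : (1 : ℝ) ≤ Mx := hm1.trans (Nat.cast_le.2 hm)
  have hQ2 : 1 ≤ Q ^ 2 := one_le_pow₀ hQ
  obtain ⟨p, hp⟩ : ∃ p : ℝ, p = 1 / (6 * Mx * Q ^ 2) := ⟨_, rfl⟩
  obtain ⟨q, hq⟩ : ∃ q : ℝ, q = Q ^ 3 / (2 * m1) := ⟨_, rfl⟩
  have p0 : 0 < p := by rw [hp]; positivity
  have q0 : 0 < q := by rw [hq]; positivity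
  have p2 : 3 * Mx * p ≤ 1 / 2 := by
    rw [hp, mul_one_div, div_le_div_iff₀ (by positivity) (by positivity)]
    nlinarith
  have p1 : p ≤ 1 := by nlinarith
  have q1 : q ≤ 1 := by
    rw [hq, div_le_one (by positivity)]
    linarith
  set Y : A × J × A → Finset A := fun t =>
    (As.filter (mA t.1) ∪ As.filter (mA t.2.2) ∪ As.filter (mJ t.2.1)) \ {t.1, t.2.2} with hY
  set Y' : A × J × A → Finset J := fun t =>
    ((Tr.filter fun u => u.1 = t.1 ∧ u.2.2 = t.2.2).image fun u => u.2.1) \ {t.2.1} with hY'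
  set C := (B ×ˢ B).filter fun c => (c.1.1 ≠ c.2.1 ∧ c.1.1 ≠ c.2.2.2 ∧
    c.1.2.2 ≠ c.2.1 ∧ c.1.2.2 ≠ c.2.2.2) ∧ mJJ c.1.2.1 c.2.2.1 ∧ c.1.2.1 ≠ c.2.2.1 with hC
  have key : ∀ R ⊆ As, ∀ R' ⊆ Js,
      ∑ t ∈ B, ri_i {t.1, t.2.2} (Y t) R * ri_i {t.2.1} (Y' t) R' ≤ 128 * R.card +
        ∑ c ∈ C, ri_i {c.1.1, c.1.2.2, c.2.1, c.2.2.2} ∅ R * ri_i {c.1.2.1, c.2.2.1} ∅ R' := by
    intro R hR R' hR'
    rw [ri_sum B (fun t => {t.1, t.2.2}) Y (fun t => {t.2.1}) Y',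
      ri_sum C (fun c => {c.1.1, c.1.2.2, c.2.1, c.2.2.2}) (fun _ => ∅)
        (fun c => {c.1.2.1, c.2.2.1}) fun _ => ∅]
    set T := B.filter fun t => ({t.1, t.2.2} ⊆ R ∧ Disjoint (Y t) R) ∧ {t.2.1} ⊆ R' ∧
      Disjoint (Y' t) R'
    have ha : ∀ t ∈ T, t ∈ B ∧ t.1 ∈ R ∧ t.2.2 ∈ R ∧ t.2.1 ∈ R' ∧ Disjoint (Y' t) R' ∧
        ∀ z ∈ R, mA t.1 z ∨ mA t.2.2 z ∨ mJ t.2.1 z → z = t.1 ∨ z = t.2.2 := fun t ht => by
      obtain ⟨a1, ⟨a2, a3⟩, a4, a5⟩ := Finset.mem_filter.1 ht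
      refine ⟨a1, a2 (by simp), a2 (by simp), a4 (by simp), a5, fun z hz h => ?_⟩
      by_contra h'
      refine Finset.disjoint_left.1 a3 (Finset.mem_sdiff.2 ⟨?_, by simpa using h'⟩) hz
      simpa [hR hz] using h
    have := ri_point (mJ := mJ) (mJJ := mJJ) (n := n) (T := T) hs
      (fun x hx z hz => hep x (hR hx) z (hR hz))
      (fun t ht => ⟨(hb t (ha t ht).1).2.1, (hb t (ha t ht).1).2.2.1, (ha t ht).2.1,
        (ha t ht).2.2.1, (ha t ht).2.2.2.2.2⟩)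
      (fun t ht u hu e1 e2 => by
        refine Prod.ext e1 (Prod.ext ?_ e2)
        by_contra h
        exact Finset.disjoint_left.1 (ha t ht).2.2.2.2.1 (Finset.mem_sdiff.2
          ⟨Finset.mem_image_of_mem _ (Finset.mem_filter.2 ⟨(hb u (ha u hu).1).1, e1.symm, e2.symm⟩),
            fun h' => h (Finset.mem_singleton.1 h').symm⟩) (ha u hu).2.2.2.1)
      fun t ht u hu => hn t (hb t (ha t ht).1).1 u (hb u (ha u hu).1).1
    refine mod_cast this.trans (Nat.add_le_add_left (Finset.card_le_card fun c hc => ?_) _)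
    obtain ⟨a1, a2, a3⟩ := Finset.mem_filter.1 hc
    obtain ⟨b1, b2, b3, b4, -, b5⟩ := ha _ (Finset.mem_product.1 a1).1
    obtain ⟨c1, c2, c3, c4, -⟩ := ha _ (Finset.mem_product.1 a1).2
    refine Finset.mem_filter.2 ⟨Finset.mem_filter.2 ⟨Finset.mem_product.2 ⟨b1, c1⟩, a2, a3,
      fun e => ?_⟩, ?_⟩
    · exact (b5 _ c2 (.inr (.inr (e ▸ (hT _ (hb _ c1).1).2.2.2.1)))).elim
        (fun e => a2.1 e.symm) fun e => a2.2.2.1 e.symm
    · simp [Finset.insert_subset_iff, b2, b3, b4, c2, c3, c4]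
  have main := Ex_mono (A := As) p0.le p1 fun R hR =>
    Ex_mono (A := Js) q0.le q1 fun R' hR' => key R hR R' hR'
  simp only [Ex_add, Ex_sum, Ex_const] at main
  rw [Ex_mul, Ex_card] at main
  have lo : ∀ t ∈ B, p ^ 2 * q / 4 ≤
      Ex As p fun R => Ex Js q fun R' => ri_i {t.1, t.2.2} (Y t) R * ri_i {t.2.1} (Y' t) R' := by
    intro t ht
    obtain ⟨a1, a2, -, a3⟩ := hb t ht
    obtain ⟨b1, b2, b3, -⟩ := hT t a1
    rw [ri_two (by simp [Finset.insert_subset_iff, b1, b3])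
      (Finset.sdiff_subset.trans (by simp [Finset.union_subset_iff])) Finset.disjoint_sdiff
      (by simpa using b2) (Finset.sdiff_subset.trans (Finset.image_subset_iff.2 fun u hu =>
        (hT u (Finset.mem_filter.1 hu).1).2.1)) Finset.disjoint_sdiff,
      Finset.card_pair a2, Finset.card_singleton, pow_one]
    have c1 : (Y t).card ≤ 3 * Mx := by
      have := (Finset.card_le_card Finset.sdiff_subset : (Y t).card ≤ _).trans
        ((Finset.card_union_le _ _).trans (add_le_add ((Finset.card_union_le _ _).trans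
          (add_le_add (hAA _ b1) (hAA _ b3))) (hJA _ b2)))
      omega
    have c2 : (Y' t).card ≤ (Tr.filter fun u => u.1 = t.1 ∧ u.2.2 = t.2.2).card :=
      (Finset.card_le_card Finset.sdiff_subset).trans Finset.card_image_le
    have d1 := ri_half (k := (Y t).card) p1
      ((mul_le_mul_of_nonneg_right (mod_cast c1) p0.le).trans p2)
    have d2 := ri_half (k := (Y' t).card) q1 (by
      refine (mul_le_mul_of_nonneg_right (Nat.cast_le.2 c2) q0.le).trans ?_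
      rw [hq, ← mul_div_assoc, div_le_div_iff₀ (by positivity) (by positivity)]
      linarith)
    refine le_trans (le_of_eq (by ring)) (mul_le_mul (mul_le_mul_of_nonneg_left d1 (by positivity))
      (mul_le_mul_of_nonneg_left d2 q0.le) (by positivity)
      (mul_nonneg (by positivity) (by linarith)))
  have up : ∀ c ∈ C, (Ex As p fun R => Ex Js q fun R' =>
      ri_i {c.1.1, c.1.2.2, c.2.1, c.2.2.2} ∅ R * ri_i {c.1.2.1, c.2.2.1} ∅ R') ≤ p ^ 4 * q ^ 2 := by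
    intro c hc
    obtain ⟨a1, ⟨a2, a3, a4, a5⟩, -, a6⟩ := Finset.mem_filter.1 hc
    obtain ⟨b1, b2, -⟩ := hb _ (Finset.mem_product.1 a1).1
    obtain ⟨c1, c2, -⟩ := hb _ (Finset.mem_product.1 a1).2
    rw [ri_two (by simp [Finset.insert_subset_iff, hT _ b1, hT _ c1]) (Finset.empty_subset _)
      (Finset.disjoint_empty_right _) (by simp [Finset.insert_subset_iff, hT _ b1, hT _ c1])
      (Finset.empty_subset _) (Finset.disjoint_empty_right _), Finset.card_pair a6,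
      Finset.card_insert_of_notMem (by simp [*]), Finset.card_insert_of_notMem (by simp [*]),
      Finset.card_pair c2]
    simp
  have k1 := (Finset.card_nsmul_le_sum B _ _ lo).trans
    (main.trans (add_le_add_right (Finset.sum_le_card_nsmul C _ _ up) _))
  have k3 : (C.card : ℝ) ≤ m1 * Mx * (m1 * Mx) * (Mx * N0) := mod_cast
    (ri_pairs (fun t ht => ⟨(hT t ht).2.1, (hT t ht).2.2.1, (hT t ht).2.2.2.2⟩) h1 hJA hJJ
      fun c hc => ⟨(hb _ (Finset.mem_product.1 (Finset.mem_filter.1 hc).1).1).1,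
        (hb _ (Finset.mem_product.1 (Finset.mem_filter.1 hc).1).2).1,
        (Finset.mem_filter.1 hc).2.2.1⟩).trans (by gcongr)
  rw [nsmul_eq_mul, nsmul_eq_mul] at k1
  have k4 : (B.card : ℝ) * (p ^ 2 * q / 4) ≤
      128 * (p * N0) + m1 * Mx * (m1 * Mx) * (Mx * N0) * (p ^ 4 * q ^ 2) := k1.trans (by gcongr)
  have e : 128 * (p * N0) + m1 * Mx * (m1 * Mx) * (Mx * N0) * (p ^ 4 * q ^ 2) =
      (6144 + 1 / 18) * (N0 * m1 * Mx) / Q * (p ^ 2 * q / 4) := by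
    rw [hp, hq]
    field_simp
    ring
  rw [e] at k4
  have k5 := (le_div_iff₀ hQ0).1 (le_of_mul_le_mul_right k4 (by positivity))
  have : (0 : ℝ) ≤ N0 * m1 * Mx := by positivity
  linarith

end CurK
end

-- merged part: Pool.Agent.Work.MP_8a5de9_co_K.Model
section
/-!
# The combinatorial model (section 1 of the paper)

Sign vectors are the sets of their positive coordinates.  Slot `x` of a piece lies between the
hits `x - 1` and `x`.
-/

namespace CurK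

open Finset

/-- The inverse Ackermann function. -/
noncomputable def invAck (n : ℕ) : ℕ := sInf {k | n ≤ ack k k}

/-- The reflection invariant part of the model. -/
structure Mod (d s : ℕ) (I P V : Type) [DecidableEq I] where
  cur : P → Finset I
  cur_card : ∀ p, (cur p).card + 1 = d
  cur_le : ∀ γ, {p | cur p = γ}.ncard ≤ s
  len : P → ℕ
  hit : P → ℕ → I
  hit_not : ∀ p a, a < len p → hit p a ∉ cur p
  hit_le : ∀ p w, ((range (len p)).filter fun a => hit p a = w).card ≤ s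
  Vis : Finset I → P → Finset I → ℕ → Prop
  vis_sub : ∀ {R p σ x}, Vis R p σ x → cur p ⊆ R ∧ σ ⊆ cur p ∧ x ≤ len p
  mono : ∀ {R R' p σ x}, cur p ⊆ R → R ⊆ R' → Vis R' p σ x → Vis R p σ x
  slide : ∀ {R p σ x}, x < len p → hit p x ∉ R → (Vis R p σ x ↔ Vis R p σ (x + 1))
  tup : V → Finset I
  tup_card : ∀ v, (tup v).card = d
  tup_le : ∀ D, {v | tup v = D}.ncard ≤ s
  pc : V → I → P
  ps : V → I → ℕ
  dir : V → Finset I
  dir_sub : ∀ v, dir v ⊆ tup v
  pc_cur : ∀ v, ∀ i ∈ tup v, cur (pc v i) = (tup v).erase i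
  ps_lt : ∀ v, ∀ i ∈ tup v, ps v i < len (pc v i)
  ps_hit : ∀ v, ∀ i ∈ tup v, hit (pc v i) (ps v i) = i
  inj : ∀ v v', ∀ i ∈ tup v, ∀ i' ∈ tup v', pc v i = pc v' i' → ps v i = ps v' i' → v = v'
  bad : ∀ R : Finset I, {x : P × ℕ | x.2 < len x.1 ∧ cur x.1 ⊆ R ∧ hit x.1 x.2 ∈ R ∧
    ¬ ∃ v, ∃ i ∈ tup v, pc v i = x.1 ∧ ps v i = x.2}.ncard ≤ s * (R.card + 1) ^ (d - 1)
  link : ∀ R v σ, tup v ⊆ R → σ ⊆ tup v → ∀ i ∈ tup v, ∀ j ∈ tup v,
    Vis R (pc v i) (σ.erase i) (ps v i + if (i ∈ σ ↔ i ∈ dir v) then 1 else 0) →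
    Vis R (pc v j) (σ.erase j) (ps v j + if (j ∈ σ ↔ j ∈ dir v) then 1 else 0)
  lab : P → Finset I → ℕ
  lab_eq : ∀ v, ∀ i ∈ tup v, ∀ j ∈ tup v, i ≠ j →
    lab (pc v i) (((tup v).erase i).erase j) = lab (pc v j) (((tup v).erase i).erase j)
  nu : Finset I → P → V → V → ZMod 2
  ep : Finset I → ℕ → V → V → ZMod 2
  ep_anti : ∀ F u z, ∀ i ∈ tup u, ∀ j ∈ tup z, F.card + 2 = d → F ⊆ cur (pc u i) →
    F ⊆ cur (pc z j) → lab (pc u i) F = lab (pc z j) F → u ≠ z →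
    ep F (lab (pc u i) F) u z + ep F (lab (pc u i) F) z u = 1
  pl : ∀ F p q (u z : Bool → V) (i j : Bool → I), F.card + 2 = d → F ⊆ cur p → F ⊆ cur q →
    lab p F = lab q F → (∀ a, i a ∈ tup (u a) ∧ pc (u a) (i a) = p) →
    (∀ a, j a ∈ tup (z a) ∧ pc (z a) (j a) = q) →
    (∀ x ∈ Set.uIcc (ps (u true) (i true)) (ps (u false) (i false)),
      ∀ y ∈ Set.uIcc (ps (z true) (j true)) (ps (z false) (j false)),
        ¬ (p = q ∧ x = y) ∧ ¬ (hit p x ∈ cur q ∧ hit q y ∈ cur p)) →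
    ∑ a, ∑ b, (nu F p (u a) (z b) + nu F q (z b) (u a) + ep F (lab p F) (u a) (z b)) = 0

namespace Mod

variable {d s : ℕ} {I P V : Type} [DecidableEq I] (M : Mod d s I P V)

/-- The orthant `σ` at the vertex `v` is visible. -/
def OV (R : Finset I) (v : V) (σ : Finset I) : Prop :=
  M.tup v ⊆ R ∧ σ ⊆ M.tup v ∧ ∀ i ∈ M.tup v,
    M.Vis R (M.pc v i) (σ.erase i) (M.ps v i + if (i ∈ σ ↔ i ∈ M.dir v) then 1 else 0)

/-- The number of visible orthants at regular vertices. -/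
noncomputable def VV (R : Finset I) : ℕ := {x : V × Finset I | M.OV R x.1 x.2}.ncard

/-- The number of ends. -/
noncomputable def WW (R : Finset I) : ℕ :=
  {x : P × Finset I × ℕ | x.2.2 < M.len x.1 ∧ M.hit x.1 x.2.2 ∈ R ∧
    (M.Vis R x.1 x.2.1 x.2.2 ∨ M.Vis R x.1 x.2.1 (x.2.2 + 1))}.ncard

/-- The patches of `R` that hit `p` at a position in `[x, y)`. -/
def cf (R : Finset I) (p : P) (x y : ℕ) : Finset I :=
  (((Ico x y).filter fun a => a < M.len p).image (M.hit p)).filter (· ∈ R)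

/-- The number of hits by patches of `R` at positions below `x`. -/
def cnt (R : Finset I) (p : P) (x : ℕ) : ℕ :=
  ((range x).filter fun a => a < M.len p ∧ M.hit p a ∈ R).card

/-- A set of visible slots, `m`-separated on every piece and side. -/
def Sep (R : Finset I) (m : ℕ) (S : Finset (P × Finset I × ℕ)) : Prop :=
  (∀ x ∈ S, M.Vis R x.1 x.2.1 x.2.2) ∧
    ∀ p σ x y, (p, σ, x) ∈ S → (p, σ, y) ∈ S → x < y → m < (M.cf R p x y).card

/-- The part of the model that is not reflection invariant. -/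
structure Hts (ht : V → ℝ) : Prop where
  lt : ∀ v v', ∀ i ∈ M.tup v, ∀ i' ∈ M.tup v', M.pc v i = M.pc v' i' → M.ps v i < M.ps v' i' →
    ht v < ht v'
  min : ∀ R, {v | M.OV R v (M.dir v)}.ncard ≤ s * (R.card + 1) ^ (d - 1)

/-- An object of section 4: visible slots `y 0 < … < y k` and scales `Ms`. -/
structure Obj (R : Finset I) (k : ℕ) (Ms : ℕ → ℕ) (p : P) (σ : Finset I) (y : ℕ → ℕ) : Prop where
  vis : ∀ t ≤ k, M.Vis R p σ (y t)
  gap : ∀ t < k, M.cnt R p (y t) + Ms t ≤ M.cnt R p (y (t + 1))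
  near : ∀ t < k, M.cnt R p (y t) ≤ M.cnt R p (y 0) + Ms t

/-- The segment `(p, c, l)`: positions of `p` whose count lies in `[c, c + l)`. -/
def seg (R : Finset I) (S : P × ℕ × ℕ) : Set ℕ :=
  {a | a < M.len S.1 ∧ S.2.1 ≤ M.cnt R S.1 a ∧ M.cnt R S.1 a < S.2.1 + S.2.2}

/-- Two segments meet. -/
def Meet (R : Finset I) (S T : P × ℕ × ℕ) : Prop :=
  ∃ x ∈ M.seg R S, ∃ y ∈ M.seg R T,
    (S.1 = T.1 ∧ x = y) ∨ (M.hit S.1 x ∈ M.cur T.1 ∧ M.hit T.1 y ∈ M.cur S.1)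

/-- The arc of length `Λ` through `v` on the curve without `e`. -/
def arc (R : Finset I) (Λ : ℕ) (v : V) (e : I) : P × ℕ × ℕ :=
  (M.pc v e, M.cnt R (M.pc v e) (M.ps v e) / Λ * Λ, Λ)

/-- `(v, w)` is a first hit in the zone of length `m` after the visible slot `y` of `p`. -/
def Zone (R : Finset I) (p : P) (y m : ℕ) (v : V) (w : I) : Prop :=
  w ∈ M.tup v ∧ w ∈ R ∧ M.pc v w = p ∧ y ≤ M.ps v w ∧
    M.cnt R p (M.ps v w) < M.cnt R p y + m ∧ w ∉ M.cf R p y (M.ps v w)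

end Mod

end CurK
end

-- merged part: Pool.Agent.Work.MP_8a5de9_co_K.Arcs
section
/-! Paper 4.1 (number of active arcs), first hits in a zone, and the final count of 4.7. -/

namespace CurK

theorem ar_pow_le (j r : ℕ) :
    (r + 1) ^ j ≤ j.factorial * 2 ^ j * ∑ i ∈ Finset.range (j + 1), r.choose i := by
  refine (Nat.pow_succ_le_ascFactorial (r + 1) j).trans ?_
  rw [Nat.ascFactorial_eq_factorial_mul_choose, mul_assoc, Nat.add_choose_eq,
    Finset.Nat.sum_antidiagonal_eq_sum_range_succ (fun a b => r.choose a * j.choose b),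
    Finset.mul_sum _ _ (2 ^ j)]
  refine Nat.mul_le_mul_left _ (Finset.sum_le_sum fun i _ => ?_)
  rw [mul_comm]
  exact Nat.mul_le_mul_right _ (Nat.choose_le_two_pow _ _)

theorem ar_mom {I : Type} [DecidableEq I] (R : Finset I) {ρ : ℝ} (h0 : 0 ≤ ρ) (h1 : ρ ≤ 1)
    (j : ℕ) : Ex R ρ (fun R' => ((R'.card : ℝ) + 1) ^ j) ≤
      j.factorial * 2 ^ j * (j + 1) * (ρ * R.card + 1) ^ j := by
  have a1 : Ex R ρ (fun R' => ((R'.card : ℝ) + 1) ^ j) ≤ Ex R ρ fun R' =>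
      (j.factorial * 2 ^ j : ℝ) * ∑ i ∈ Finset.range (j + 1), (R'.card.choose i : ℝ) :=
    Ex_mono h0 h1 fun R' _ => by exact_mod_cast ar_pow_le j R'.card
  refine a1.trans ?_
  rw [Ex_mul, Ex_sum, mul_assoc (_ * _ : ℝ)]
  refine mul_le_mul_of_nonneg_left ?_ (by positivity)
  have hx : 0 ≤ ρ * R.card := by positivity
  have a2 : ∀ i ∈ Finset.range (j + 1),
      Ex R ρ (fun R' => (R'.card.choose i : ℝ)) ≤ (ρ * R.card + 1) ^ j := fun i hi => by
    rw [Ex_choose]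
    have b1 : (R.card.choose i : ℝ) ≤ (R.card : ℝ) ^ i := by
      exact_mod_cast Nat.choose_le_pow R.card i
    calc ρ ^ i * (R.card.choose i : ℝ) ≤ ρ ^ i * (R.card : ℝ) ^ i :=
          mul_le_mul_of_nonneg_left b1 (by positivity)
      _ = (ρ * R.card) ^ i := (mul_pow _ _ _).symm
      _ ≤ (ρ * R.card + 1) ^ i := pow_le_pow_left₀ hx (by linarith) _
      _ ≤ (ρ * R.card + 1) ^ j :=
          pow_le_pow_right₀ (by linarith) (Nat.lt_succ_iff.1 (Finset.mem_range.1 hi))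
  refine (Finset.sum_le_card_nsmul _ _ _ a2).trans ?_
  rw [Finset.card_range, nsmul_eq_mul]
  push_cast
  exact le_rfl

open Classical in
theorem ar_prob {I : Type} [DecidableEq I] {R c K Y : Finset I} {m : ℕ} (hm : 1 ≤ m)
    (hc : c ⊆ R) (hK : K ⊆ R) (hY : Y ⊆ R) (h1 : Disjoint c K) (h2 : Disjoint c Y)
    (h3 : Disjoint K Y) (kK : K.card ≤ m) (kY : 2 * m ≤ Y.card) :
    (1 / (2 * m) : ℝ) ^ c.card / 4 ≤ Ex R (1 / (2 * m))
      fun R' => if c ⊆ R' ∧ Disjoint K R' ∧ ¬ Disjoint Y R' then 1 else 0 := by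
  have hm' : (1 : ℝ) ≤ m := by exact_mod_cast hm
  obtain ⟨ρ, hρ⟩ : ∃ ρ : ℝ, ρ = 1 / (2 * m) := ⟨_, rfl⟩
  rw [← hρ]
  have r1 : ρ * (2 * m) = 1 := by rw [hρ]; field_simp
  have r0 : 0 < ρ := by rw [hρ]; positivity
  have r2 : ρ ≤ 1 / 2 := by nlinarith
  have e : Ex R ρ (fun R' => if c ⊆ R' ∧ Disjoint K R' ∧ ¬ Disjoint Y R' then 1 else 0) =
      Ex R ρ fun R' => (if c ⊆ R' ∧ Disjoint K R' then 1 else 0) -
        (if c ⊆ R' ∧ Disjoint (K ∪ Y) R' then 1 else 0) :=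
    Ex_congr fun R' _ => by
      simp only [Finset.disjoint_union_left]
      by_cases a : c ⊆ R' <;> by_cases b : Disjoint K R' <;> by_cases b' : Disjoint Y R' <;>
        simp [a, b, b']
  rw [e, Ex_sub, Ex_ind hc hK h1, Ex_ind hc (Finset.union_subset hK hY)
    (Finset.disjoint_union_right.2 ⟨h1, h2⟩), Finset.card_union_of_disjoint h3, pow_add]
  have q0 : 0 ≤ 1 - ρ := by linarith
  have q1 : 1 - ρ ≤ 1 := by linarith
  have a1 : 1 / 2 ≤ (1 - ρ) ^ K.card := by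
    have b1 := one_add_mul_le_pow (a := -ρ) (by linarith) m
    have b2 : (1 - ρ) ^ m ≤ (1 - ρ) ^ K.card := pow_le_pow_of_le_one q0 q1 kK
    rw [← sub_eq_add_neg] at b1
    linarith
  have a2 : (1 - ρ) ^ Y.card ≤ 1 / 2 := by
    have b1 := one_add_mul_le_pow (a := ρ) (by linarith) (2 * m)
    have b2 : (1 - ρ) ^ Y.card ≤ (1 - ρ) ^ (2 * m) := pow_le_pow_of_le_one q0 q1 kY
    have b3 : (1 - ρ) ^ (2 * m) * (1 + ρ) ^ (2 * m) ≤ 1 := by
      rw [← mul_pow]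
      exact pow_le_one₀ (by positivity) (by nlinarith)
    have b4 : 0 ≤ (1 - ρ) ^ (2 * m) := by positivity
    push_cast at b1
    nlinarith
  have a3 : 0 ≤ ρ ^ c.card := by positivity
  have a4 : 1 / 4 ≤ (1 - ρ) ^ K.card - (1 - ρ) ^ K.card * (1 - ρ) ^ Y.card := by nlinarith
  nlinarith

theorem ar_div {a q L : ℕ} (h1 : q * L ≤ a) (h2 : a < (q + 2) * L) :
    ∃ i : Fin 2, a / L - i = q := by
  have hL : 0 < L := by
    rcases Nat.eq_zero_or_pos L with h | h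
    · rw [h] at h2; omega
    · exact h
  have b1 : q ≤ a / L := (Nat.le_div_iff_mul_le hL).2 h1
  have b2 : a / L < q + 2 := (Nat.div_lt_iff_lt_mul hL).2 h2
  by_cases h : a / L = q
  · exact ⟨0, by simpa using h⟩
  · exact ⟨1, by simp only [Fin.val_one]; omega⟩

namespace Mod

variable {d s : ℕ} {I P V : Type} [DecidableEq I]

theorem ar_mem_cf (M : Mod d s I P V) {R : Finset I} {p : P} {x y : ℕ} {w : I} :
    w ∈ M.cf R p x y ↔ w ∈ R ∧ ∃ a, x ≤ a ∧ a < y ∧ a < M.len p ∧ M.hit p a = w := by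
  simp only [cf, Finset.mem_filter, Finset.mem_image, Finset.mem_Ico]
  constructor
  · rintro ⟨⟨a, ⟨⟨h1, h2⟩, h3⟩, h4⟩, h5⟩
    exact ⟨h5, a, h1, h2, h3, h4⟩
  · rintro ⟨h5, a, h1, h2, h3, h4⟩
    exact ⟨⟨a, ⟨⟨h1, h2⟩, h3⟩, h4⟩, h5⟩

theorem cnt_mono (M : Mod d s I P V) (R : Finset I) (p : P) : Monotone (M.cnt R p) := by
  intro x y h
  exact Finset.card_le_card (Finset.filter_subset_filter _ (Finset.range_subset_range.2 h))

theorem ar_fib (M : Mod d s I P V) (p : P) (D : Finset ℕ) (T : Finset I)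
    (h : ∀ a ∈ D, a < M.len p ∧ M.hit p a ∈ T) : D.card ≤ s * T.card := by
  refine Finset.card_le_mul_card_image_of_maps_to (f := M.hit p) (fun a ha => (h a ha).2) s
    fun w _ => le_trans (Finset.card_le_card fun a ha => ?_) (M.hit_le p w)
  rw [Finset.mem_filter] at ha ⊢
  exact ⟨Finset.mem_range.2 (h a ha.1).1, ha.2⟩

theorem cnt_le (M : Mod d s I P V) (R : Finset I) (p : P) (x : ℕ) : M.cnt R p x ≤ s * R.card := by
  exact M.ar_fib p _ R fun a ha => (Finset.mem_filter.1 ha).2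

theorem cnt_lt (M : Mod d s I P V) {R : Finset I} {p : P} {a b : ℕ} (ha : a < M.len p)
    (h : M.hit p a ∈ R) (hab : a < b) : M.cnt R p a < M.cnt R p b := by
  refine Finset.card_lt_card ⟨Finset.filter_subset_filter _ (Finset.range_subset_range.2 hab.le),
    fun h' => ?_⟩
  have := h' (Finset.mem_filter.2 ⟨Finset.mem_range.2 hab, ha, h⟩)
  simp at this

theorem ar_cnt_succ (M : Mod d s I P V) (R : Finset I) (p : P) (x : ℕ) :
    M.cnt R p (x + 1) ≤ M.cnt R p x + 1 := by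
  unfold cnt
  rw [Finset.range_add_one, Finset.filter_insert]
  split_ifs
  · exact Finset.card_insert_le _ _
  · exact Nat.le_succ _

theorem cf_le (M : Mod d s I P V) (R : Finset I) (p : P) {x y : ℕ} (h : x ≤ y) :
    (M.cf R p x y).card + M.cnt R p x ≤ M.cnt R p y ∧
      M.cnt R p y ≤ s * (M.cf R p x y).card + M.cnt R p x := by
  obtain ⟨D, hD⟩ : ∃ D, D = (Finset.Ico x y).filter fun a => a < M.len p ∧ M.hit p a ∈ R :=
    ⟨_, rfl⟩
  have mD : ∀ a, a ∈ D ↔ (x ≤ a ∧ a < y) ∧ a < M.len p ∧ M.hit p a ∈ R := fun a => by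
    rw [hD, Finset.mem_filter, Finset.mem_Ico]
  have e : M.cnt R p y = D.card + M.cnt R p x := by
    unfold cnt
    rw [← Finset.card_union_of_disjoint]
    · congr 1
      ext a
      simp only [Finset.mem_union, mD, Finset.mem_filter, Finset.mem_range]
      constructor
      · rintro ⟨h1, h2⟩
        by_cases h3 : x ≤ a
        · exact Or.inl ⟨⟨h3, h1⟩, h2⟩
        · exact Or.inr ⟨not_le.1 h3, h2⟩
      · rintro (⟨h1, h2⟩ | ⟨h1, h2⟩)
        · exact ⟨h1.2, h2⟩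
        · exact ⟨h1.trans_le h, h2⟩
    · rw [Finset.disjoint_left]
      intro a h1 h2
      have := ((mD a).1 h1).1.1
      have := Finset.mem_range.1 (Finset.mem_filter.1 h2).1
      omega
  have a1 : (M.cf R p x y).card ≤ D.card := by
    refine le_trans (Finset.card_le_card fun w hw => ?_) (Finset.card_image_le (f := M.hit p))
    obtain ⟨h1, a, h2, h3, h4, rfl⟩ := M.ar_mem_cf.1 hw
    exact Finset.mem_image_of_mem _ ((mD a).2 ⟨⟨h2, h3⟩, h4, h1⟩)
  have a2 : D.card ≤ s * (M.cf R p x y).card := M.ar_fib p D _ fun a ha => by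
    obtain ⟨⟨h1, h2⟩, h3, h4⟩ := (mD a).1 ha
    exact ⟨h3, M.ar_mem_cf.2 ⟨h4, a, h1, h2, h3, rfl⟩⟩
  omega

/-- Sliding over several hits. -/
theorem slide' (M : Mod d s I P V) {R : Finset I} {p : P} {σ : Finset I} {x y : ℕ} (h : x ≤ y)
    (hy : y ≤ M.len p) (hd : M.cf R p x y = ∅) : M.Vis R p σ x ↔ M.Vis R p σ y := by
  induction y, h using Nat.le_induction with
  | base => exact Iff.rfl
  | succ y h ih =>
    have hn : ∀ w, w ∉ M.cf R p x (y + 1) := fun w => by rw [hd]; exact Finset.notMem_empty w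
    refine (ih (Nat.le_of_succ_le hy) (Finset.eq_empty_of_forall_notMem fun w hw => ?_)).trans
      (M.slide hy fun h' => hn _ (M.ar_mem_cf.2 ⟨h', y, h, Nat.lt_succ_self y, hy, rfl⟩))
    obtain ⟨h1, a, h2, h3, h4⟩ := M.ar_mem_cf.1 hw
    exact hn w (M.ar_mem_cf.2 ⟨h1, a, h2, Nat.lt_succ_of_lt h3, h4⟩)

/-- After a visible slot, the first hit by a patch of `R` is an end. -/
theorem first_end (M : Mod d s I P V) {R : Finset I} {p : P} {σ : Finset I} {x y : ℕ}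
    (hv : M.Vis R p σ x) (h : (M.cf R p x y).Nonempty) :
    ∃ a, x ≤ a ∧ a < y ∧ a < M.len p ∧ M.hit p a ∈ R ∧ M.Vis R p σ a := by
  classical
  obtain ⟨w, hw⟩ := h
  obtain ⟨h1, a, h2, h3, h4, rfl⟩ := M.ar_mem_cf.1 hw
  have ex : ∃ a, x ≤ a ∧ a < y ∧ a < M.len p ∧ M.hit p a ∈ R := ⟨a, h2, h3, h4, h1⟩
  obtain ⟨k1, k2, k3, k4⟩ := Nat.find_spec ex
  refine ⟨_, k1, k2, k3, k4, (M.slide' k1 k3.le
    (Finset.eq_empty_of_forall_notMem fun w hw => ?_)).1 hv⟩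
  obtain ⟨g1, b, g2, g3, g4, rfl⟩ := M.ar_mem_cf.1 hw
  exact Nat.find_min ex g3 ⟨g2, g3.trans k2, g4, g1⟩

/-- The first position at which the count reaches a given value. -/
theorem ar_reach (M : Mod d s I P V) (R : Finset I) (p : P) {c y : ℕ} (h : c ≤ M.cnt R p y) :
    ∃ b, c ≤ M.cnt R p b ∧ ∀ a < b, M.cnt R p a < c := by
  classical
  have ex : ∃ b, c ≤ M.cnt R p b := ⟨y, h⟩
  exact ⟨_, Nat.find_spec ex, fun a ha => not_le.1 (Nat.find_min ex ha)⟩

/-- A zone contains `m / s` first hits, regular or bad. -/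
theorem zone_card [Finite V] (M : Mod d s I P V) (R : Finset I) (p : P) (y y' m : ℕ)
    (h : M.cnt R p y + m ≤ M.cnt R p y') :
    m ≤ s * ({w | ∃ v, M.Zone R p y m v w}.ncard +
      {a | a < M.len p ∧ M.hit p a ∈ R ∧ M.cnt R p y ≤ M.cnt R p a ∧ M.cnt R p a < M.cnt R p y + m ∧
        ¬ ∃ v, ∃ i ∈ M.tup v, M.pc v i = p ∧ M.ps v i = a}.ncard) := by
  classical
  rcases Nat.eq_zero_or_pos m with rfl | hm
  · exact Nat.zero_le _
  obtain ⟨b, hb, hb'⟩ := M.ar_reach R p h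
  have hyb : y ≤ b := by
    by_contra h'
    have := M.cnt_mono R p (not_le.1 h').le
    omega
  have a1 := (M.cf_le R p hyb).2
  refine le_trans (by omega : m ≤ s * (M.cf R p y b).card) (Nat.mul_le_mul_left _ ?_)
  set W := {w | ∃ v, M.Zone R p y m v w}
  set Bd := {a | a < M.len p ∧ M.hit p a ∈ R ∧ M.cnt R p y ≤ M.cnt R p a ∧
    M.cnt R p a < M.cnt R p y + m ∧ ¬ ∃ v, ∃ i ∈ M.tup v, M.pc v i = p ∧ M.ps v i = a}
  have fW : W.Finite := R.finite_toSet.subset fun w ⟨_, hv⟩ => hv.2.1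
  have fB : Bd.Finite := (Set.finite_lt_nat (M.len p)).subset fun a ha => ha.1
  have sub : (M.cf R p y b : Set I) ⊆ W ∪ M.hit p '' Bd := by
    intro w hw
    obtain ⟨h1, ex⟩ := M.ar_mem_cf.1 hw
    obtain ⟨k1, k2, k3, k4⟩ := Nat.find_spec ex
    have k5 : w ∉ M.cf R p y (Nat.find ex) := fun h' => by
      obtain ⟨-, a, g2, g3, g4, g5⟩ := M.ar_mem_cf.1 h'
      exact Nat.find_min ex g3 ⟨g2, g3.trans k2, g4, g5⟩
    generalize Nat.find ex = a at k1 k2 k3 k4 k5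
    by_cases hr : ∃ v, ∃ i ∈ M.tup v, M.pc v i = p ∧ M.ps v i = a
    · obtain ⟨v, i, hi, e1, e2⟩ := hr
      have e3 := M.ps_hit v i hi
      rw [e1, e2, k4] at e3
      subst e3
      exact Or.inl ⟨v, hi, h1, e1, e2 ▸ k1, e2 ▸ hb' a k2, e2 ▸ k5⟩
    · exact Or.inr ⟨a, ⟨k3, k4 ▸ h1, M.cnt_mono R p k1, hb' a k2, hr⟩, k4⟩
  rw [← Set.ncard_coe_finset]
  exact (Set.ncard_le_ncard sub (fW.union (fB.image _))).trans
    ((Set.ncard_union_le _ _).trans (Nat.add_le_add_left (Set.ncard_image_le fB) _))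

/-- The set counted by `WW`. -/
def ar_ends (M : Mod d s I P V) (R : Finset I) : Set (P × Finset I × ℕ) :=
  {x | x.2.2 < M.len x.1 ∧ M.hit x.1 x.2.2 ∈ R ∧
    (M.Vis R x.1 x.2.1 x.2.2 ∨ M.Vis R x.1 x.2.1 (x.2.2 + 1))}

theorem ar_ends_fin [Finite P] (M : Mod d s I P V) (R : Finset I) : (M.ar_ends R).Finite := by
  refine (Set.finite_iUnion fun p : P => (Set.finite_singleton p).prod
    ((M.cur p).powerset.finite_toSet.prod (Set.finite_lt_nat (M.len p)))).subset ?_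
  rintro ⟨p, σ, a⟩ ⟨h1, -, h2⟩
  refine Set.mem_iUnion.2 ⟨p, rfl, ?_, h1⟩
  rw [Finset.mem_coe, Finset.mem_powerset]
  rcases h2 with h2 | h2 <;> exact (M.vis_sub h2).2.1

/-- The two arcs charged to a position. -/
def ar_phi (M : Mod d s I P V) (R : Finset I) (L : ℕ) (p : P) (a : ℕ) (i : Fin 2) : P × ℕ × ℕ :=
  (p, (M.cnt R p a / L - i) * L, L)

theorem ar_key (M : Mod d s I P V) {R : Finset I} {m : ℕ} (hm : 1 ≤ m) (hs : 1 ≤ s) {v : V}
    {w e : I} {σ : Finset I} {y : ℕ} (hv : M.Vis R (M.pc v w) σ y)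
    (hz : M.Zone R (M.pc v w) y m v w) (he : e ∈ (M.tup v).erase w) :
    M.cur (M.pc v e) ⊆ R ∧ ((∃ i, M.arc R (3 * s * m) v e =
        M.ar_phi R (3 * s * m) (M.pc v e) (M.len (M.pc v e)) i) ∨
      ∃ K Y : Finset I, K ⊆ R ∧ Y ⊆ R ∧ Disjoint (M.cur (M.pc v e)) K ∧
        Disjoint (M.cur (M.pc v e)) Y ∧ Disjoint K Y ∧ K.card ≤ m ∧ 2 * m ≤ Y.card ∧
        ∀ R' ⊆ R, M.cur (M.pc v e) ⊆ R' → Disjoint K R' → ¬ Disjoint Y R' →
          ∃ x ∈ M.ar_ends R', ∃ i, M.arc R (3 * s * m) v e = M.ar_phi R (3 * s * m) x.1 x.2.2 i) := by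
  obtain ⟨hw, hwR, -, hy, hc, hK⟩ := hz
  obtain ⟨hew, het⟩ := Finset.mem_erase.1 he
  obtain ⟨v1, v2, -⟩ := M.vis_sub hv
  rw [M.pc_cur v w hw] at v1 v2
  have tR : M.tup v ⊆ R := fun i hi => by
    by_cases h : i = w
    · exact h ▸ hwR
    · exact v1 (Finset.mem_erase.2 ⟨h, hi⟩)
  have ce := M.pc_cur v e het
  refine ⟨ce ▸ (Finset.erase_subset _ _).trans tR, ?_⟩
  obtain ⟨L, hL⟩ : ∃ L, L = 3 * s * m := ⟨_, rfl⟩
  rw [← hL]
  have L0 : 0 < L := by rw [hL]; positivity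
  obtain ⟨q, hq⟩ : ∃ q, q = M.cnt R (M.pc v e) (M.ps v e) / L := ⟨_, rfl⟩
  have q1 : q * L ≤ M.cnt R (M.pc v e) (M.ps v e) := hq ▸ Nat.div_mul_le_self _ _
  have q2 : M.cnt R (M.pc v e) (M.ps v e) < (q + 1) * L :=
    (Nat.div_lt_iff_lt_mul L0).1 (hq ▸ Nat.lt_succ_self _)
  have ch : ∀ a, M.ps v e ≤ a → M.cnt R (M.pc v e) a < (q + 2) * L →
      ∃ i, M.arc R L v e = M.ar_phi R L (M.pc v e) a i := fun a h1 h2 => by
    obtain ⟨i, hi⟩ := ar_div (q1.trans (M.cnt_mono R _ h1)) h2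
    exact ⟨i, by rw [arc, ar_phi, hi, hq]⟩
  by_cases full : M.cnt R (M.pc v e) (M.len (M.pc v e)) < (q + 2) * L
  · exact Or.inl (ch _ (M.ps_lt v e het).le full)
  right
  obtain ⟨b, hb, hb'⟩ := M.ar_reach R _ (not_lt.1 full)
  obtain ⟨τ, τ1, τ2, τ3⟩ : ∃ τ, τ ⊆ M.tup v ∧ τ.erase w = σ ∧ ¬ (w ∈ τ ↔ w ∈ M.dir v) := by
    have n : w ∉ σ := fun h => Finset.notMem_erase w _ (v2 h)
    have v3 := v2.trans (Finset.erase_subset _ _)
    by_cases h : w ∈ M.dir v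
    · exact ⟨σ, v3, Finset.erase_eq_of_notMem n, fun h' => n (h'.2 h)⟩
    · exact ⟨insert w σ, Finset.insert_subset hw v3, Finset.erase_insert n,
        fun h' => h (h'.1 (Finset.mem_insert_self _ _))⟩
  obtain ⟨x, hx⟩ : ∃ x, x = M.ps v e + if (e ∈ τ ↔ e ∈ M.dir v) then 1 else 0 := ⟨_, rfl⟩
  have x1 : M.ps v e ≤ x := by omega
  have x2 : M.cnt R (M.pc v e) x ≤ (q + 1) * L := by
    have a1 : x ≤ M.ps v e + 1 := by rw [hx]; split_ifs <;> omega
    have a2 := M.cnt_mono R (M.pc v e) a1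
    have a3 := M.ar_cnt_succ R (M.pc v e) (M.ps v e)
    omega
  have x3 : (q + 2) * L = (q + 1) * L + L := by ring
  have xb : x ≤ b := by
    by_contra h'
    have := M.cnt_mono R (M.pc v e) (not_le.1 h').le
    omega
  have kK : (M.cf R (M.pc v w) y (M.ps v w)).card ≤ m := by
    have := (M.cf_le R (M.pc v w) hy).1
    omega
  have kY : 3 * m ≤ (M.cf R (M.pc v e) x b).card := by
    have a1 := (M.cf_le R (M.pc v e) xb).2
    refine Nat.le_of_mul_le_mul_left (?_ : s * _ ≤ s * _) hs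
    have : s * (3 * m) = L := by rw [hL]; ring
    omega
  have dK : ∀ i ∈ M.tup v, i ∉ M.cf R (M.pc v w) y (M.ps v w) := fun i hi h => by
    by_cases h' : i = w
    · exact hK (h' ▸ h)
    · obtain ⟨-, a, -, -, g, rfl⟩ := M.ar_mem_cf.1 h
      exact M.hit_not _ a g (M.pc_cur v w hw ▸ Finset.mem_erase.2 ⟨h', hi⟩)
  refine ⟨M.cf R (M.pc v w) y (M.ps v w),
    M.cf R (M.pc v e) x b \ M.cf R (M.pc v w) y (M.ps v w), fun i hi => (M.ar_mem_cf.1 hi).1,
    fun i hi => (M.ar_mem_cf.1 (Finset.mem_sdiff.1 hi).1).1,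
    Finset.disjoint_left.2 fun i hi => dK i (Finset.mem_of_mem_erase (ce ▸ hi)),
    Finset.disjoint_left.2 fun i hi h => ?_, Finset.disjoint_sdiff, kK, ?_,
    fun R' hR c1 c2 c3 => ?_⟩
  · obtain ⟨-, a, -, -, g, rfl⟩ := M.ar_mem_cf.1 (Finset.mem_sdiff.1 h).1
    exact M.hit_not _ a g hi
  · have := Finset.le_card_sdiff (M.cf R (M.pc v w) y (M.ps v w)) (M.cf R (M.pc v e) x b)
    omega
  have t1 : M.tup v ⊆ insert e R' := Finset.subset_insert_iff.2 (ce ▸ c1)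
  have t2 : insert e R' ⊆ R := Finset.insert_subset (tR het) hR
  have w1 : M.Vis (insert e R') (M.pc v w) σ y :=
    M.mono (M.pc_cur v w hw ▸ (Finset.erase_subset _ _).trans t1) t2 hv
  have w2 : M.Vis (insert e R') (M.pc v w) σ (M.ps v w) := by
    refine (M.slide' hy (M.ps_lt v w hw).le
      (Finset.eq_empty_of_forall_notMem fun i hi => ?_)).1 w1
    obtain ⟨g1, g2⟩ := M.ar_mem_cf.1 hi
    have g3 := M.ar_mem_cf.2 ⟨t2 g1, g2⟩
    rcases Finset.mem_insert.1 g1 with g | g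
    · exact dK i (g ▸ het) g3
    · exact Finset.disjoint_left.1 c2 g3 g
  have w3 := M.link (insert e R') v τ t1 τ1 w hw e het (by rw [τ2, if_neg τ3]; exact w2)
  rw [← hx] at w3
  have w4 := M.mono c1 (Finset.subset_insert e R') w3
  obtain ⟨i, i1, i2⟩ := Finset.not_disjoint_iff.1 c3
  obtain ⟨a, g1, g2, g3, g4, g5⟩ := M.first_end (y := b) w4
    ⟨i, M.ar_mem_cf.2 ⟨i2, (M.ar_mem_cf.1 (Finset.mem_sdiff.1 i1).1).2⟩⟩
  exact ⟨(M.pc v e, τ.erase e, a), ⟨g3, g4, Or.inl g5⟩, ch a (x1.trans g1) (hb' a g2)⟩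

theorem ar_pieces [Finite P] (M : Mod d s I P V) (R : Finset I) :
    {p | M.cur p ⊆ R}.ncard ≤ s * R.card ^ (d - 1) := by
  classical
  have f := Set.toFinite {p | M.cur p ⊆ R}
  rw [Set.ncard_eq_toFinset_card _ f]
  refine (Finset.card_le_mul_card_image_of_maps_to (f := M.cur) (t := R.powersetCard (d - 1))
    (fun p hp => ?_) s fun γ _ => ?_).trans ?_
  · rw [Finset.mem_powersetCard]
    exact ⟨f.mem_toFinset.1 hp, by have := M.cur_card p; omega⟩
  · refine le_trans ?_ (M.cur_le γ)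
    rw [← Set.ncard_coe_finset]
    exact Set.ncard_le_ncard (fun p hp => (Finset.mem_filter.1 hp).2) (Set.toFinite _)
  · rw [Finset.card_powersetCard]
    exact Nat.mul_le_mul_left _ (Nat.choose_le_pow _ _)

theorem ar_two {α β : Type} {S : Set α} (hS : S.Finite) (f : α → Fin 2 → β) {T : Set β}
    (h : ∀ J ∈ T, ∃ x ∈ S, ∃ i, J = f x i) : T.ncard ≤ 2 * S.ncard := by
  have sub : T ⊆ (fun x => f x 0) '' S ∪ (fun x => f x 1) '' S := fun J hJ => by
    obtain ⟨x, hx, i, rfl⟩ := h J hJ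
    fin_cases i
    · exact Or.inl ⟨x, hx, rfl⟩
    · exact Or.inr ⟨x, hx, rfl⟩
  have a1 := Set.ncard_le_ncard sub ((hS.image _).union (hS.image _))
  have a2 := Set.ncard_union_le ((fun x => f x 0) '' S) ((fun x => f x 1) '' S)
  have a3 := Set.ncard_image_le (f := fun x => f x 0) hS
  have a4 := Set.ncard_image_le (f := fun x => f x 1) hS
  omega

/-- 4.1: the number of active arcs. -/
theorem arcs_le (d s : ℕ) : ∃ C : ℝ, 1 ≤ C ∧ ∀ {I P V : Type} [DecidableEq I] [Finite P] [Finite V]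
    (M : Mod d s I P V) (R : Finset I) (B : ℝ) (m : ℕ), 1 ≤ B → 1 ≤ m → m ≤ s * R.card →
    (∀ R' ⊆ R, (M.WW R' : ℝ) ≤ B * (R'.card + 1) ^ (d - 1)) →
    ({J | ∃ v w σ y, M.Vis R (M.pc v w) σ y ∧ M.Zone R (M.pc v w) y m v w ∧
      ∃ e ∈ (M.tup v).erase w, J = M.arc R (3 * s * m) v e}.ncard : ℝ) ≤
        C * B * (R.card + 1) ^ (d - 1) := by
  classical
  obtain ⟨j, hj⟩ : ∃ j, j = d - 1 := ⟨_, rfl⟩
  obtain ⟨C0, hC⟩ : ∃ C0 : ℝ, C0 = j.factorial * 2 ^ j * (j + 1) := ⟨_, rfl⟩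
  have C00 : 0 ≤ C0 := by rw [hC]; positivity
  refine ⟨1 + 2 * s + 8 * C0 * (1 + 2 * s) ^ j,
    by have : 0 ≤ 2 * (s : ℝ) + 8 * C0 * (1 + 2 * s) ^ j := by positivity
       linarith, ?_⟩
  intro I P V _ _ _ M R B m hB hm hms hW
  rw [← hj] at hW ⊢
  have hs : 1 ≤ s := by
    rcases Nat.eq_zero_or_pos s with h | h
    · rw [h] at hms; omega
    · exact h
  set S := {J | ∃ v w σ y, M.Vis R (M.pc v w) σ y ∧ M.Zone R (M.pc v w) y m v w ∧
      ∃ e ∈ (M.tup v).erase w, J = M.arc R (3 * s * m) v e}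
  let N : Set (P × ℕ × ℕ) := {J | ∃ p ∈ {p | M.cur p ⊆ R}, ∃ i,
    J = M.ar_phi R (3 * s * m) p (M.len p) i}
  have fS : S.Finite := by
    refine (Set.finite_iUnion fun v : V => (M.tup v).finite_toSet.image
      (M.arc R (3 * s * m) v)).subset ?_
    rintro J ⟨v, w, σ, y, -, -, e, he, rfl⟩
    exact Set.mem_iUnion.2 ⟨v, e, Finset.mem_of_mem_erase he, rfl⟩
  have n1 : (S ∩ N).ncard ≤ 2 * (s * R.card ^ j) :=
    (ar_two (Set.toFinite _) (fun p i => M.ar_phi R (3 * s * m) p (M.len p) i)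
      fun J hJ => hJ.2).trans (Nat.mul_le_mul_left _ (hj ▸ M.ar_pieces R))
  obtain ⟨F, hF⟩ : ∃ F : Finset (P × ℕ × ℕ), (F : Set _) = S \ N :=
    ⟨_, (fS.subset Set.sdiff_subset).coe_toFinset⟩
  have ex : ∀ J : F, ∃ c K Y : Finset I, c.card = j ∧ c ⊆ R ∧ K ⊆ R ∧ Y ⊆ R ∧ Disjoint c K ∧
      Disjoint c Y ∧ Disjoint K Y ∧ K.card ≤ m ∧ 2 * m ≤ Y.card ∧
      ∀ R' ⊆ R, c ⊆ R' → Disjoint K R' → ¬ Disjoint Y R' →
        ∃ x ∈ M.ar_ends R', ∃ i, J.1 = M.ar_phi R (3 * s * m) x.1 x.2.2 i := fun J => by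
    have hJ : J.1 ∈ S \ N := hF ▸ Finset.mem_coe.2 J.2
    obtain ⟨⟨v, w, σ, y, h1, h2, e, he, eJ⟩, hN⟩ := hJ
    obtain ⟨k1, k2 | ⟨K, Y, k2⟩⟩ := M.ar_key hm hs h1 h2 he
    · exact absurd ⟨_, k1, eJ ▸ k2⟩ hN
    · exact ⟨_, K, Y, by have := M.cur_card (M.pc v e); omega, k1, eJ ▸ k2⟩
  choose c K Y p1 p2 p3 p4 p5 p6 p7 p8 p9 p10 using ex
  have hm' : (1 : ℝ) ≤ m := by exact_mod_cast hm
  obtain ⟨ρ, hρ⟩ : ∃ ρ : ℝ, ρ = 1 / (2 * m) := ⟨_, rfl⟩
  have r1 : ρ * (2 * m) = 1 := by rw [hρ]; field_simp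
  have r0 : 0 < ρ := by rw [hρ]; positivity
  have r2 : ρ ≤ 1 := by nlinarith
  have s1 : (F.card : ℝ) * (ρ ^ j / 4) ≤ Ex R ρ fun R' => ∑ J : F,
      if c J ⊆ R' ∧ Disjoint (K J) R' ∧ ¬ Disjoint (Y J) R' then 1 else 0 := by
    rw [Ex_sum, ← nsmul_eq_mul, ← Fintype.card_coe, ← Finset.card_univ]
    refine Finset.card_nsmul_le_sum _ _ _ fun J _ => ?_
    rw [hρ, ← p1 J]
    exact ar_prob hm (p2 J) (p3 J) (p4 J) (p5 J) (p6 J) (p7 J) (p8 J) (p9 J)
  have s2 : Ex R ρ (fun R' => ∑ J : F,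
      if c J ⊆ R' ∧ Disjoint (K J) R' ∧ ¬ Disjoint (Y J) R' then 1 else 0) ≤
      Ex R ρ fun R' => 2 * B * ((R'.card : ℝ) + 1) ^ j := by
    refine Ex_mono r0.le r2 fun R' hR => ?_
    rw [Finset.sum_boole]
    have a1 := ar_two (M.ar_ends_fin R') (fun x i => M.ar_phi R (3 * s * m) x.1 x.2.2 i)
      (T := Subtype.val '' (((Finset.univ.filter fun J : F =>
        c J ⊆ R' ∧ Disjoint (K J) R' ∧ ¬ Disjoint (Y J) R') : Finset F) : Set F)) (by
        rintro _ ⟨J, hJ, rfl⟩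
        obtain ⟨b1, b2, b3⟩ := (Finset.mem_filter.1 hJ).2
        exact p10 J R' hR b1 b2 b3)
    rw [Set.ncard_image_of_injective _ Subtype.val_injective, Set.ncard_coe_finset] at a1
    have a2 : ((M.ar_ends R').ncard : ℝ) ≤ B * (R'.card + 1) ^ j := hW R' hR
    have a3 := (Nat.cast_le (α := ℝ)).2 a1
    push_cast at a3
    linarith
  rw [Ex_mul] at s2
  have s3 := ar_mom R r0.le r2 j
  rw [← hC] at s3
  have n0 : (0 : ℝ) ≤ R.card := by positivity
  have s0 : (0 : ℝ) ≤ s := by positivity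
  have s4 : (ρ * R.card + 1) ^ j ≤ ρ ^ j * ((1 + 2 * s) ^ j * ((R.card : ℝ) + 1) ^ j) := by
    rw [← mul_pow, ← mul_pow]
    refine pow_le_pow_left₀ (by positivity) ?_ _
    have b1 : (m : ℝ) ≤ s * R.card := by exact_mod_cast hms
    have b2 : R.card + 2 * (m : ℝ) ≤ (1 + 2 * s) * (R.card + 1) := by nlinarith
    nlinarith [mul_le_mul_of_nonneg_left b2 r0.le]
  have s5 : (F.card : ℝ) ≤ 8 * C0 * (1 + 2 * s) ^ j * B * ((R.card : ℝ) + 1) ^ j := by
    refine le_of_mul_le_mul_left ?_ (by positivity : 0 < ρ ^ j / 4)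
    have b1 := mul_le_mul_of_nonneg_left (s3.trans (mul_le_mul_of_nonneg_left s4 C00))
      (by positivity : 0 ≤ 2 * B)
    calc ρ ^ j / 4 * F.card = F.card * (ρ ^ j / 4) := mul_comm _ _
      _ ≤ _ := s1.trans (s2.trans b1)
      _ = _ := by ring
  have s6 : S.ncard ≤ (S ∩ N).ncard + F.card := by
    rw [← Set.ncard_coe_finset, hF]
    exact (Set.ncard_inter_add_ncard_sdiff_eq_ncard S N fS).ge
  have s7 : (S.ncard : ℝ) ≤ 2 * (s * (R.card : ℝ) ^ j) + F.card := by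
    exact_mod_cast s6.trans (Nat.add_le_add_right n1 _)
  have s8 : (R.card : ℝ) ^ j ≤ B * ((R.card : ℝ) + 1) ^ j :=
    (pow_le_pow_left₀ n0 (by linarith) j).trans (le_mul_of_one_le_left (by positivity) hB)
  have s9 : 0 ≤ B * ((R.card : ℝ) + 1) ^ j := by positivity
  nlinarith [mul_le_mul_of_nonneg_left s8 s0]

/-- The last lines of 4.7. -/
theorem box_ends [Finite P] (M : Mod d s I P V) (R : Finset I) (k : ℕ)
    (A : Fin (d - 1) → Finset I) (ws : Fin k → I) (hA : ∀ i, (A i).card = k)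
    (hdis : ∀ i i', i ≠ i' → Disjoint (A i) (A i')) (hws : ∀ t, ws t ∈ R) (hAR : ∀ i, A i ⊆ R)
    (h : ∀ f : Fin (d - 1) → I, (∀ i, f i ∈ A i) → ∃ p σ, ∃ y : ℕ → ℕ,
      M.cur p = Finset.univ.image f ∧ (∀ t < k, M.Vis R p σ (y t) ∧ y t ≤ y (t + 1)) ∧
        ∀ t : Fin k, ws t ∈ M.cf R p (y t) (y (t + 1))) (hd : 1 ≤ d) :
    ∃ R' ⊆ R, R'.card ≤ d * k ∧ k ^ d ≤ M.WW R' := by
  classical
  obtain ⟨R', hR'⟩ : ∃ R', R' = Finset.univ.biUnion A ∪ Finset.univ.image ws := ⟨_, rfl⟩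
  have sub : R' ⊆ R := by
    rw [hR']
    exact Finset.union_subset (Finset.biUnion_subset.2 fun i _ => hAR i)
      (Finset.image_subset_iff.2 fun t _ => hws t)
  refine ⟨R', sub, ?_, ?_⟩
  · rw [hR']
    refine (Finset.card_union_le _ _).trans ?_
    have a1 := Finset.card_biUnion_le_card_mul Finset.univ A k fun i _ => (hA i).le
    have a2 := Finset.card_image_le (s := Finset.univ) (f := ws)
    rw [Finset.card_univ, Fintype.card_fin] at a1 a2
    have a3 : d * k = (d - 1) * k + k := by rw [← Nat.succ_mul]; congr 1; omega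
    omega
  have ex : ∀ f : Fintype.piFinset A, ∃ p σ, ∃ a : Fin k → ℕ, M.cur p = Finset.univ.image f.1 ∧
      StrictMono a ∧ ∀ t, (p, σ, a t) ∈ M.ar_ends R' := fun f => by
    have hf := Fintype.mem_piFinset.1 f.2
    obtain ⟨p, σ, y, h1, h2, h3⟩ := h f.1 hf
    have c1 : M.cur p ⊆ R' := by
      rw [h1, hR']
      exact Finset.image_subset_iff.2 fun i _ => Finset.mem_union_left _
        (Finset.mem_biUnion.2 ⟨i, Finset.mem_univ _, hf i⟩)
    have e1 : ∀ t : Fin k, ∃ a, y t ≤ a ∧ a < y (t + 1) ∧ a < M.len p ∧ M.hit p a ∈ R' ∧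
        M.Vis R' p σ a := fun t => M.first_end (M.mono c1 sub (h2 t t.2).1)
      ⟨ws t, M.ar_mem_cf.2 ⟨hR' ▸ Finset.mem_union_right _
        (Finset.mem_image_of_mem _ (Finset.mem_univ t)), (M.ar_mem_cf.1 (h3 t)).2⟩⟩
    choose a a1 a2 a3 a4 a5 using e1
    have mo : ∀ u t, u ≤ t → t ≤ k → y u ≤ y t := fun u t hut => by
      induction t, hut using Nat.le_induction with
      | base => exact fun _ => le_rfl
      | succ t _ ih => exact fun ht => (ih (Nat.le_of_succ_le ht)).trans (h2 t ht).2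
    exact ⟨p, σ, a, h1, fun u t hut => (a2 u).trans_le ((mo _ _ hut t.2.le).trans (a1 t)),
      fun t => ⟨a3 t, a4 t, Or.inl (a5 t)⟩⟩
  choose p σ a e1 e2 e3 using ex
  have inj : Function.Injective fun x : Fintype.piFinset A × Fin k => (p x.1, σ x.1, a x.1 x.2) := by
    rintro ⟨f, t⟩ ⟨g, u⟩ hx
    simp only [Prod.mk.injEq] at hx
    have fg : f = g := by
      refine Subtype.ext (funext fun i => ?_)
      have b1 : f.1 i ∈ Finset.univ.image g.1 := by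
        rw [← e1, ← hx.1, e1]
        exact Finset.mem_image_of_mem _ (Finset.mem_univ i)
      obtain ⟨i', -, b2⟩ := Finset.mem_image.1 b1
      by_cases b3 : i = i'
      · rw [← b2, b3]
      · exact absurd (b2 ▸ Fintype.mem_piFinset.1 g.2 i')
          (Finset.disjoint_left.1 (hdis i i' b3) (Fintype.mem_piFinset.1 f.2 i))
    subst fg
    rw [(e2 f).injective hx.2.2]
  have c1 := Set.ncard_le_ncard_of_injOn (s := Set.univ) (t := M.ar_ends R') _
    (fun x _ => e3 x.1 x.2) inj.injOn (M.ar_ends_fin R')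
  rw [Set.ncard_univ, Nat.card_eq_fintype_card, Fintype.card_prod, Fintype.card_coe,
    Fintype.card_piFinset, Fintype.card_fin, Finset.prod_congr rfl fun i _ => hA i,
    Finset.prod_const, Finset.card_univ, Fintype.card_fin, ← pow_succ,
    Nat.sub_add_cancel hd] at c1
  exact c1

end Mod

end CurK
end

-- merged part: Pool.Agent.Work.MP_8a5de9_co_K.RichMod
section
/-! Lemma RICH in the model (paper 4.3, last two lines, and the size of popular sets, 4.4). -/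

namespace CurK

namespace Mod

variable {d s : ℕ} {I P V : Type} [DecidableEq I]

/-- The segments `S`, `T` cross at a regular vertex, on the surface of `F`. -/
def Thru (M : Mod d s I P V) (R F : Finset I) (S T : P × ℕ × ℕ) : Prop :=
  ∃ v, ∃ i ∈ M.tup v, ∃ j ∈ M.tup v, i ≠ j ∧ F = ((M.tup v).erase i).erase j ∧
    M.pc v i = S.1 ∧ M.ps v i ∈ M.seg R S ∧ M.pc v j = T.1 ∧ M.ps v j ∈ M.seg R T

/-- A family of segments of length at most `Mx` on curves of `R` that covers every count at most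
twice. -/
def Fam (M : Mod d s I P V) (R : Finset I) (Mx : ℕ) {A : Type} (sa : A → P × ℕ × ℕ) : Prop :=
  (∀ x, M.cur (sa x).1 ⊆ R ∧ (sa x).2.2 ≤ Mx) ∧
    ∀ p c, {x | (sa x).1 = p ∧ (sa x).2.1 ≤ c ∧ c < (sa x).2.1 + (sa x).2.2}.ncard ≤ 2

theorem rm_le {α : Type} [Finite α] {s : Finset α} {T : Set α} (h : ∀ x ∈ s, x ∈ T) :
    s.card ≤ T.ncard := by
  rw [← Set.ncard_coe_finset]
  exact Set.ncard_le_ncard h

theorem rm_fil {α : Type} [Fintype α] (p : α → Prop) [DecidablePred p] :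
    (Finset.univ.filter p).card ≤ {x | p x}.ncard :=
  rm_le fun _ hx => (Finset.mem_filter.1 hx).2

theorem rm_ge {α : Type} {s : Finset α} {T : Set α} (h : ∀ x ∈ T, x ∈ s) : T.ncard ≤ s.card := by
  rw [← Set.ncard_coe_finset]
  exact Set.ncard_le_ncard h s.finite_toSet

/-- The members of a family on the surface of `F` that meet a given segment. -/
theorem meet_card [Finite P] (M : Mod d s I P V) (R F : Finset I) (Mx : ℕ) {A : Type} [Finite A]
    (sa : A → P × ℕ × ℕ) (h : M.Fam R Mx sa) (S : P × ℕ × ℕ) (hF : F.card + 2 = d)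
    (hS : F ⊆ M.cur S.1) :
    {x | F ⊆ M.cur (sa x).1 ∧ M.Meet R S (sa x)}.ncard ≤ (2 + 2 * s ^ 2) * S.2.2 := by
  classical
  have := Fintype.ofFinite A
  have := Fintype.ofFinite P
  let X : P → ℕ → Finset A := fun p c =>
    Finset.univ.filter fun x => (sa x).1 = p ∧ (sa x).2.1 ≤ c ∧ c < (sa x).2.1 + (sa x).2.2
  have hX : ∀ p c, (X p c).card ≤ 2 := fun p c =>
    (rm_fil _).trans (h.2 p c)
  obtain ⟨e, he⟩ : ∃ e, M.cur S.1 \ F = {e} := by
    rw [← Finset.card_eq_one, Finset.card_sdiff_of_subset hS]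
    have := M.cur_card S.1
    omega
  let H : Finset ℕ := (Finset.range (M.len S.1)).filter fun a => M.hit S.1 a ∈ R ∧ a ∈ M.seg R S
  have hH : H.card ≤ S.2.2 := by
    have h1 : H.card ≤ (Finset.Ico S.2.1 (S.2.1 + S.2.2)).card := by
      refine Finset.card_le_card_of_injOn (M.cnt R S.1) (fun a ha => ?_) fun a ha b hb hab => ?_
      · have := (Finset.mem_filter.1 ha).2.2
        exact Finset.mem_coe.2 (Finset.mem_Ico.2 this.2)
      · have h2 := (Finset.mem_filter.1 ha).2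
        have h3 := (Finset.mem_filter.1 hb).2
        rcases lt_trichotomy a b with l | l | l
        · exact absurd hab (M.cnt_lt h2.2.1 h2.1 l).ne
        · exact l
        · exact absurd hab (M.cnt_lt h3.2.1 h3.1 l).ne'
    simpa using h1
  let Y : P → Finset A := fun q =>
    ((Finset.range (M.len q)).filter fun b => M.hit q b = e).biUnion fun b => X q (M.cnt R q b)
  have hY : ∀ q, (Y q).card ≤ s * 2 := fun q =>
    (Finset.card_biUnion_le_card_mul _ _ 2 fun b _ => hX _ _).trans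
      (Nat.mul_le_mul_right 2 (M.hit_le q e))
  let Z : ℕ → Finset A := fun a =>
    (Finset.univ.filter fun q => M.cur q = insert (M.hit S.1 a) F).biUnion Y
  have hZ : ∀ a, (Z a).card ≤ s * (s * 2) := fun a =>
    (Finset.card_biUnion_le_card_mul _ _ (s * 2) fun q _ => hY q).trans
      (Nat.mul_le_mul_right _ ((rm_fil _).trans (M.cur_le (insert (M.hit S.1 a) F))))
  have h1 := Finset.card_biUnion_le_card_mul (Finset.Ico S.2.1 (S.2.1 + S.2.2)) (X S.1) 2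
    fun c _ => hX _ _
  have h2 := (Finset.card_biUnion_le_card_mul H Z _ fun a _ => hZ a).trans
    (Nat.mul_le_mul_right _ hH)
  refine (rm_ge (s := (Finset.Ico S.2.1 (S.2.1 + S.2.2)).biUnion (X S.1) ∪ H.biUnion Z) ?_).trans
    ((Finset.card_union_le _ _).trans ?_)
  · rintro x ⟨hx, a, ha, b, hb, ⟨e1, e2⟩ | ⟨e1, e2⟩⟩
    · refine Finset.mem_union_left _ (Finset.mem_biUnion.2 ⟨M.cnt R S.1 a,
        Finset.mem_Ico.2 ha.2, Finset.mem_filter.2 ⟨Finset.mem_univ _, e1.symm, ?_⟩⟩)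
      rw [e1, e2]
      exact hb.2
    · refine Finset.mem_union_right _ (Finset.mem_biUnion.2 ⟨a, Finset.mem_filter.2
        ⟨Finset.mem_range.2 ha.1, (h.1 x).1 e1, ha⟩, Finset.mem_biUnion.2 ⟨(sa x).1,
        Finset.mem_filter.2 ⟨Finset.mem_univ _, ?_⟩, Finset.mem_biUnion.2 ⟨b, Finset.mem_filter.2
        ⟨Finset.mem_range.2 hb.1, ?_⟩, Finset.mem_filter.2 ⟨Finset.mem_univ _, rfl, hb.2⟩⟩⟩⟩)
      · refine (Finset.eq_of_subset_of_card_le (Finset.insert_subset e1 hx) ?_).symm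
        rw [Finset.card_insert_of_notMem fun hh => M.hit_not _ _ ha.1 (hS hh)]
        have := M.cur_card (sa x).1
        omega
      · rw [← Finset.mem_singleton, ← he]
        exact Finset.mem_sdiff.2 ⟨e2, fun hh => M.hit_not _ _ hb.1 (hx hh)⟩
  · rw [Nat.card_Ico, Nat.add_sub_cancel_left] at h1
    calc _ ≤ S.2.2 * 2 + S.2.2 * (s * (s * 2)) := Nat.add_le_add h1 h2
      _ = _ := by ring

open Classical in
/-- The number of links that join `x` to `y` on the surface of `F`. -/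
noncomputable def cod {A J : Type} (Tr : Finset (Finset I × A × J × A)) (F : Finset I) (x y : A) :
    ℕ := (Tr.filter fun u => u.1 = F ∧ u.2.1 = x ∧ u.2.2.2 = y).card

/-- The popular set of `x` on the surface of `F`. -/
def Pop (M : Mod d s I P V) (R : Finset I) {A J : Type} (sa : A → P × ℕ × ℕ)
    (Tr : Finset (Finset I × A × J × A)) (m1 : ℕ) (Q : ℝ) (F : Finset I) (x : A) : Set A :=
  {y | F ⊆ M.cur (sa y).1 ∧ (M.Meet R (sa x) (sa y) ∨ (m1 : ℝ) < cod Tr F x y * Q ^ 3)}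

/-- The vertex `w.1` lies on the segment `S`, on its curve without `w.2`. -/
def rm_On (M : Mod d s I P V) (R : Finset I) (S : P × ℕ × ℕ) (w : V × I) : Prop :=
  w.2 ∈ M.tup w.1 ∧ M.pc w.1 w.2 = S.1 ∧ M.ps w.1 w.2 ∈ M.seg R S

theorem rm_symm {M : Mod d s I P V} {R : Finset I} {S T : P × ℕ × ℕ} (h : M.Meet R S T) :
    M.Meet R T S := by
  obtain ⟨a, ha, b, hb, h | h⟩ := h
  · exact ⟨b, hb, a, ha, Or.inl ⟨h.1.symm, h.2.symm⟩⟩
  · exact ⟨b, hb, a, ha, Or.inr h.symm⟩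

theorem rm_meet {M : Mod d s I P V} {R : Finset I} {S T : P × ℕ × ℕ} {v : V} {i j : I}
    (h1 : M.rm_On R S (v, i)) (h2 : M.rm_On R T (v, j)) : M.Meet R S T := by
  obtain ⟨a1, a2, a3⟩ := h1
  obtain ⟨b1, b2, b3⟩ := h2
  refine ⟨_, a3, _, b3, ?_⟩
  by_cases e : i = j
  · subst e
    exact Or.inl ⟨a2.symm.trans b2, rfl⟩
  · right
    rw [← a2, ← b2, M.ps_hit v i a1, M.ps_hit v j b1, M.pc_cur v i a1, M.pc_cur v j b1]
    exact ⟨Finset.mem_erase.2 ⟨e, a1⟩, Finset.mem_erase.2 ⟨Ne.symm e, b1⟩⟩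

theorem rm_conv {M : Mod d s I P V} {R : Finset I} {S : P × ℕ × ℕ} {a b x : ℕ}
    (ha : a ∈ M.seg R S) (hb : b ∈ M.seg R S) (hx : x ∈ Set.uIcc a b) : x ∈ M.seg R S := by
  rcases Set.mem_uIcc.1 hx with h | h
  · exact ⟨h.2.trans_lt hb.1, ha.2.1.trans (M.cnt_mono R _ h.1),
      (M.cnt_mono R _ h.2).trans_lt hb.2.2⟩
  · exact ⟨h.2.trans_lt ha.1, hb.2.1.trans (M.cnt_mono R _ h.1),
      (M.cnt_mono R _ h.2).trans_lt ha.2.2⟩

/-- The segment lies in the class `(F, l)`. -/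
def rm_In (M : Mod d s I P V) (F : Finset I) (l : ℕ) (p : P) : Prop :=
  F ⊆ M.cur p ∧ M.lab p F = l

theorem rm_pl {M : Mod d s I P V} {R F : Finset I} {l : ℕ} (hF : F.card + 2 = d)
    {S T : P × ℕ × ℕ} (hS : M.rm_In F l S.1) (hT : M.rm_In F l T.1) (h : ¬ M.Meet R S T)
    {u u' z z' : V × I} (hu : M.rm_On R S u) (hu' : M.rm_On R S u') (hz : M.rm_On R T z)
    (hz' : M.rm_On R T z') :
    (M.nu F S.1 u.1 z.1 + M.nu F T.1 z.1 u.1 + M.ep F l u.1 z.1) +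
      (M.nu F S.1 u.1 z'.1 + M.nu F T.1 z'.1 u.1 + M.ep F l u.1 z'.1) +
      ((M.nu F S.1 u'.1 z.1 + M.nu F T.1 z.1 u'.1 + M.ep F l u'.1 z.1) +
      (M.nu F S.1 u'.1 z'.1 + M.nu F T.1 z'.1 u'.1 + M.ep F l u'.1 z'.1)) = 0 := by
  have := M.pl F S.1 T.1 (fun a => cond a u.1 u'.1) (fun a => cond a z.1 z'.1)
    (fun a => cond a u.2 u'.2) (fun a => cond a z.2 z'.2) hF hS.1 hT.1 (hS.2.trans hT.2.symm)
    (fun a => by cases a; exacts [⟨hu'.1, hu'.2.1⟩, ⟨hu.1, hu.2.1⟩])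
    (fun a => by cases a; exacts [⟨hz'.1, hz'.2.1⟩, ⟨hz.1, hz.2.1⟩])
    (fun x hx y hy => not_or.1 fun hh =>
      h ⟨x, rm_conv hu.2.2 hu'.2.2 hx, y, rm_conv hz.2.2 hz'.2.2 hy, hh⟩)
  rw [hS.2] at this
  simpa only [Fintype.sum_bool, cond_true, cond_false] using this

/-- What a crossing gives. -/
theorem rm_thru {M : Mod d s I P V} {R F : Finset I} {S T : P × ℕ × ℕ} (h : M.Thru R F S T) :
    F.card + 2 = d ∧ F ⊆ M.cur S.1 ∧ F ⊆ M.cur T.1 ∧ M.lab S.1 F = M.lab T.1 F ∧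
      ∃ w : V × I × I, M.rm_On R S (w.1, w.2.1) ∧ M.rm_On R T (w.1, w.2.2) := by
  obtain ⟨v, i, hi, j, hj, hij, rfl, a1, a2, b1, b2⟩ := h
  refine ⟨?_, ?_, ?_, ?_, (v, i, j), ⟨hi, a1, a2⟩, hj, b1, b2⟩
  · have h1 := Finset.card_erase_add_one hi
    have h2 := Finset.card_erase_add_one (Finset.mem_erase.2 ⟨hij.symm, hj⟩)
    have := M.tup_card v
    omega
  · rw [← a1, M.pc_cur v i hi]
    exact Finset.erase_subset _ _
  · rw [← b1, M.pc_cur v j hj, Finset.erase_right_comm]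
    exact Finset.erase_subset _ _
  · rw [← a1, ← b1]
    exact M.lab_eq v i hi j hj hij

theorem rm_cls (M : Mod d s I P V) {A : Type} [Fintype A] (f : A → P)
    (Cl : Finset (Finset I × ℕ)) (X : Finset I × ℕ → Finset A)
    (hX : ∀ c, ∀ x ∈ X c, M.rm_In c.1 c.2 (f x)) :
    ∑ c ∈ Cl, (X c).card ≤ 2 ^ d * Fintype.card A := by
  classical
  have h1 : ∑ c ∈ Cl, (X c).card = ∑ x : A, (Cl.filter fun c => x ∈ X c).card := by
    simp only [Finset.card_filter]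
    rw [Finset.sum_comm]
    refine Finset.sum_congr rfl fun c _ => ?_
    rw [← Finset.card_filter, Finset.filter_mem_eq_inter, Finset.univ_inter]
  rw [h1, mul_comm]
  refine Finset.sum_le_card_nsmul _ _ _ fun x _ => ?_
  refine (Finset.card_le_card_of_injOn (t := (M.cur (f x)).powerset) Prod.fst (fun c hc => ?_)
    fun c hc c' hc' e => ?_).trans ?_
  · exact Finset.mem_coe.2 (Finset.mem_powerset.2 (hX c x (Finset.mem_filter.1 hc).2).1)
  · refine Prod.ext e ?_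
    rw [← (hX c x (Finset.mem_filter.1 hc).2).2, ← (hX c' x (Finset.mem_filter.1 hc').2).2, e]
  · rw [Finset.card_powerset]
    have := M.cur_card (f x)
    exact Nat.pow_le_pow_right (by norm_num) (by omega)

/-- The nine identities add up. -/
theorem rm_nine {P V : Type} (nu : P → V → V → ZMod 2) (ep : V → V → ZMod 2)
    (N : V → ZMod 2) {p q1 q2 q3 : P} {a a' c0 c1 c2 c3 : V}
    (hN : ∀ v, N v = nu q1 c0 v + nu q1 c1 v + nu q2 c1 v + nu q2 c2 v + nu q3 c2 v + nu q3 c3 v)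
    (h1 : (nu p a c0 + nu q1 c0 a + ep a c0) + (nu p a c1 + nu q1 c1 a + ep a c1) +
      ((nu p a' c0 + nu q1 c0 a' + ep a' c0) + (nu p a' c1 + nu q1 c1 a' + ep a' c1)) = 0)
    (h2 : (nu p a c1 + nu q2 c1 a + ep a c1) + (nu p a c2 + nu q2 c2 a + ep a c2) +
      ((nu p a' c1 + nu q2 c1 a' + ep a' c1) + (nu p a' c2 + nu q2 c2 a' + ep a' c2)) = 0)
    (h3 : (nu p a c2 + nu q3 c2 a + ep a c2) + (nu p a c3 + nu q3 c3 a + ep a c3) +
      ((nu p a' c2 + nu q3 c2 a' + ep a' c2) + (nu p a' c3 + nu q3 c3 a' + ep a' c3)) = 0) :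
    nu p a c0 + nu p a' c0 + nu p a c3 + nu p a' c3 + N a + N a' +
      (ep a c0 + ep a c3) + (ep a' c0 + ep a' c3) = 0 := by
  have h : (2 : ZMod 2) = 0 := rfl
  rw [hN, hN]
  linear_combination h1 + h2 + h3 - (nu p a c1 + ep a c1 + nu p a' c1 + ep a' c1 + nu p a c2 +
    ep a c2 + nu p a' c2 + ep a' c2) * h

open Classical in
/-- Lemma RICH in one class. -/
theorem rm_class {C : ℝ} (hC : ∀ {A J : Type} (As : Finset A) (Js : Finset J)
    (mA : A → A → Prop) (mJ : J → A → Prop) (mJJ : J → J → Prop) (Tr : Finset (A × J × A))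
    (m1 Mx N0 : ℕ) (Q : ℝ) (n : A × J × A → A → ZMod 2) (ep : A → A → ZMod 2),
    1 ≤ Q → m1 ≤ Mx → As.card ≤ N0 → Js.card ≤ N0 →
    (∀ t ∈ Tr, t.1 ∈ As ∧ t.2.1 ∈ Js ∧ t.2.2 ∈ As ∧ mJ t.2.1 t.1 ∧ mJ t.2.1 t.2.2) →
    (∀ x ∈ As, mA x x) → (∀ x y, mA x y → mA y x) →
    (∀ j, ((Tr.filter fun t => t.2.1 = j).image fun t => t.1).card ≤ m1) →
    (∀ x ∈ As, (As.filter (mA x)).card ≤ Mx) → (∀ j ∈ Js, (As.filter (mJ j)).card ≤ Mx) →
    (∀ j ∈ Js, (Js.filter (mJJ j)).card ≤ Mx) →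
    (∀ x ∈ As, ∀ z ∈ As, ¬ mA x z → ep x z + ep z x = 1) →
    (∀ t ∈ Tr, ∀ u ∈ Tr, ¬ mA t.1 u.1 → ¬ mA t.1 u.2.2 → ¬ mA t.2.2 u.1 → ¬ mA t.2.2 u.2.2 →
      ¬ mJ t.2.1 u.1 → ¬ mJ t.2.1 u.2.2 → ¬ mJ u.2.1 t.1 → ¬ mJ u.2.1 t.2.2 →
      ¬ mJJ t.2.1 u.2.1 → n t u.1 + n t u.2.2 + n u t.1 + n u t.2.2 =
        ep t.1 u.1 + ep t.1 u.2.2 + ep t.2.2 u.1 + ep t.2.2 u.2.2) →
    ((Tr.filter fun t => ¬ mA t.1 t.2.2 ∧
      ((Tr.filter fun u => u.1 = t.1 ∧ u.2.2 = t.2.2).card : ℝ) * Q ^ 3 ≤ m1).card : ℝ) * Q ≤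
        C * N0 * m1 * Mx) [Finite P]
    (M : Mod d s I P V) (R : Finset I) {A J : Type} [Fintype A] [Fintype J]
    (sa : A → P × ℕ × ℕ) (sj : J → P × ℕ × ℕ) (Tr : Finset (Finset I × A × J × A)) (m1 Mx : ℕ)
    (Q : ℝ) (hQ : 1 ≤ Q) (hm : m1 ≤ Mx) (ha : M.Fam R Mx sa) (hj : M.Fam R Mx sj)
    (hb : ∀ x, ∃ v, ∃ i ∈ M.tup v, M.pc v i = (sa x).1 ∧ M.ps v i ∈ M.seg R (sa x))
    (hT : ∀ t ∈ Tr, M.Thru R t.1 (sa t.2.1) (sj t.2.2.1) ∧ M.Thru R t.1 (sa t.2.2.2) (sj t.2.2.1))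
    (h1 : ∀ F j, {x | ∃ y, (F, x, j, y) ∈ Tr}.ncard ≤ m1) (F : Finset I) (l : ℕ)
    (hF : F.card + 2 = d) (As : Finset A) (Js : Finset J)
    (hAs : ∀ x, x ∈ As ↔ M.rm_In F l (sa x).1) (hJs : ∀ x, x ∈ Js ↔ M.rm_In F l (sj x).1)
    (B : Finset (Finset I × A × J × A))
    (hB : ∀ t ∈ B, t ∈ Tr ∧ t.2.2.2 ∉ M.Pop R sa Tr m1 Q t.1 t.2.1 ∧ t.1 = F ∧
      M.lab (sa t.2.1).1 F = l) :
    (B.card : ℝ) * Q ≤ C * (As.card + Js.card : ℕ) * m1 * ((2 + 2 * s ^ 2) * Mx : ℕ) := by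
  obtain ⟨bv, hbv⟩ : ∃ bv : A → V × I, ∀ x, M.rm_On R (sa x) (bv x) := by
    choose v i h using hb
    exact ⟨fun x => (v x, i x), h⟩
  let T : Finset (A × J × A) := Finset.univ.filter fun t => (F, t) ∈ Tr ∧ M.lab (sa t.1).1 F = l
  have hmem : ∀ t, t ∈ T ↔ (F, t) ∈ Tr ∧ M.lab (sa t.1).1 F = l := fun t => by simp [T]
  have hcl : ∀ t ∈ T, M.rm_In F l (sa t.1).1 ∧ M.rm_In F l (sj t.2.1).1 ∧
      M.rm_In F l (sa t.2.2).1 := by
    intro t ht
    obtain ⟨a1, a2⟩ := (hmem t).1 ht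
    obtain ⟨-, b1, b2, b3, -⟩ := rm_thru (hT _ a1).1
    obtain ⟨-, c1, -, c3, -⟩ := rm_thru (hT _ a1).2
    exact ⟨⟨b1, a2⟩, ⟨b2, b3.symm.trans a2⟩, c1, c3.trans (b3.symm.trans a2)⟩
  obtain ⟨w, w', hw⟩ : ∃ w w' : A × J × A → V × I × I, ∀ t ∈ T,
      (M.rm_On R (sa t.1) ((w t).1, (w t).2.1) ∧ M.rm_On R (sj t.2.1) ((w t).1, (w t).2.2)) ∧
      M.rm_On R (sa t.2.2) ((w' t).1, (w' t).2.1) ∧ M.rm_On R (sj t.2.1) ((w' t).1, (w' t).2.2) := by
    have : ∀ t : A × J × A, ∃ w w' : V × I × I, t ∈ T →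
        (M.rm_On R (sa t.1) (w.1, w.2.1) ∧ M.rm_On R (sj t.2.1) (w.1, w.2.2)) ∧
        M.rm_On R (sa t.2.2) (w'.1, w'.2.1) ∧ M.rm_On R (sj t.2.1) (w'.1, w'.2.2) := by
      intro t
      by_cases ht : t ∈ T
      · obtain ⟨-, -, -, -, w, hw⟩ := rm_thru (hT _ ((hmem t).1 ht).1).1
        obtain ⟨-, -, -, -, w', hw'⟩ := rm_thru (hT _ ((hmem t).1 ht).1).2
        exact ⟨w, w', fun _ => ⟨hw, hw'⟩⟩
      · exact ⟨((bv t.1).1, (bv t.1).2, (bv t.1).2), ((bv t.1).1, (bv t.1).2, (bv t.1).2),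
          fun h => absurd h ht⟩
    choose w w' h using this
    exact ⟨w, w', h⟩
  obtain ⟨N, e4⟩ : ∃ N : A × J × A → V → ZMod 2, ∀ t v, N t v =
      M.nu F (sa t.1).1 (bv t.1).1 v + M.nu F (sa t.1).1 (w t).1 v + M.nu F (sj t.2.1).1 (w t).1 v +
      M.nu F (sj t.2.1).1 (w' t).1 v + M.nu F (sa t.2.2).1 (w' t).1 v +
      M.nu F (sa t.2.2).1 (bv t.2.2).1 v := ⟨_, fun _ _ => rfl⟩
  have hK : ∀ {B : Type} [Finite B] (sb : B → P × ℕ × ℕ) (S : P × ℕ × ℕ) (X : Finset B),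
      M.Fam R Mx sb → F ⊆ M.cur S.1 → S.2.2 ≤ Mx →
      (∀ x ∈ X, F ⊆ M.cur (sb x).1 ∧ M.Meet R S (sb x)) → X.card ≤ (2 + 2 * s ^ 2) * Mx :=
    fun sb S X f1 f2 f3 f4 => (rm_le f4).trans ((M.meet_card R F Mx sb f1 S hF f2).trans
      (Nat.mul_le_mul_left _ f3))
  refine le_trans (mul_le_mul_of_nonneg_right ?_ (by linarith))
    (hC As Js (fun x y => M.Meet R (sa x) (sa y)) (fun j x => M.Meet R (sj j) (sa x))
      (fun j j' => M.Meet R (sj j) (sj j')) T m1 ((2 + 2 * s ^ 2) * Mx) (As.card + Js.card) Q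
      (fun t z => N t (bv z).1) (fun x z => M.ep F l (bv x).1 (bv z).1) hQ
      (hm.trans (Nat.le_mul_of_pos_left _ (by positivity))) (Nat.le_add_right _ _)
      (Nat.le_add_left _ _) ?_ (fun x _ => rm_meet (hbv x) (hbv x)) (fun x y => rm_symm) ?_ ?_ ?_
      ?_ ?_ ?_)
  · refine Nat.cast_le.2 (Finset.card_le_card_of_injOn Prod.snd (fun t ht => ?_)
      fun t ht t' ht' e => Prod.ext ((hB t ht).2.2.1.trans (hB t' ht').2.2.1.symm) e)
    obtain ⟨a1, a2, a3, a4⟩ := hB t ht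
    have a5 : t.2 ∈ T := (hmem _).2 ⟨by rw [← a3]; exact a1, a4⟩
    rw [a3] at a2
    have a6 := not_or.1 fun hh => a2 ⟨(hcl _ a5).2.2.1, hh⟩
    refine Finset.mem_coe.2 (Finset.mem_filter.2 ⟨a5, a6.1, le_trans ?_ (not_lt.1 a6.2)⟩)
    refine mul_le_mul_of_nonneg_right (Nat.cast_le.2 ?_) (by positivity)
    refine Finset.card_le_card_of_injOn (fun u => (F, u)) (fun u hu => ?_)
      fun u _ u' _ e => (Prod.ext_iff.1 e).2
    have a7 := Finset.mem_filter.1 hu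
    exact Finset.mem_coe.2 (Finset.mem_filter.2 ⟨((hmem u).1 a7.1).1, rfl, a7.2⟩)
  · intro t ht
    exact ⟨(hAs _).2 (hcl t ht).1, (hJs _).2 (hcl t ht).2.1, (hAs _).2 (hcl t ht).2.2,
      rm_meet (hw t ht).1.2 (hw t ht).1.1, rm_meet (hw t ht).2.2 (hw t ht).2.1⟩
  · intro j
    refine (rm_le fun x hx => ?_).trans (h1 F j)
    obtain ⟨t, ht, rfl⟩ := Finset.mem_image.1 hx
    obtain ⟨a1, rfl⟩ := Finset.mem_filter.1 ht
    exact ⟨t.2.2, ((hmem t).1 a1).1⟩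
  · exact fun x hx => hK sa (sa x) _ ha ((hAs x).1 hx).1 (ha.1 x).2 fun y hy =>
      ⟨((hAs y).1 (Finset.mem_filter.1 hy).1).1, (Finset.mem_filter.1 hy).2⟩
  · exact fun x hx => hK sa (sj x) _ ha ((hJs x).1 hx).1 (hj.1 x).2 fun y hy =>
      ⟨((hAs y).1 (Finset.mem_filter.1 hy).1).1, (Finset.mem_filter.1 hy).2⟩
  · exact fun x hx => hK sj (sj x) _ hj ((hJs x).1 hx).1 (hj.1 x).2 fun y hy =>
      ⟨((hJs y).1 (Finset.mem_filter.1 hy).1).1, (Finset.mem_filter.1 hy).2⟩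
  · intro x hx z hz hn
    have a1 := (hAs x).1 hx
    have a2 := (hAs z).1 hz
    have a3 := M.ep_anti F (bv x).1 (bv z).1 _ (hbv x).1 _ (hbv z).1 hF
      (by rw [(hbv x).2.1]; exact a1.1) (by rw [(hbv z).2.1]; exact a2.1)
      (by rw [(hbv x).2.1, (hbv z).2.1, a1.2, a2.2]) fun e => hn
        (rm_meet (v := (bv x).1) (hbv x) (j := (bv z).2) (by rw [e]; exact hbv z))
    rwa [(hbv x).2.1, a1.2] at a3
  · intro t ht u hu n1 n2 n3 n4 n5 n6 n7 n8 n9
    obtain ⟨t1, t2, t3⟩ := hcl t ht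
    obtain ⟨u1, u2, u3⟩ := hcl u hu
    obtain ⟨⟨a1, a2⟩, a3, a4⟩ := hw t ht
    obtain ⟨⟨c1, c2⟩, c3, c4⟩ := hw u hu
    have p1 := rm_pl hF t1 u1 n1 (hbv t.1) a1 (hbv u.1) c1
    have p2 := rm_pl hF t1 u2 (fun h => n7 (rm_symm h)) (hbv t.1) a1 c2 c4
    have p3 := rm_pl hF t1 u3 n2 (hbv t.1) a1 c3 (hbv u.2.2)
    have p4 := rm_pl hF t2 u1 n5 a2 a4 (hbv u.1) c1
    have p5 := rm_pl hF t2 u2 n9 a2 a4 c2 c4
    have p6 := rm_pl hF t2 u3 n6 a2 a4 c3 (hbv u.2.2)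
    have p7 := rm_pl hF t3 u1 n3 a3 (hbv t.2.2) (hbv u.1) c1
    have p8 := rm_pl hF t3 u2 (fun h => n8 (rm_symm h)) a3 (hbv t.2.2) c2 c4
    have p9 := rm_pl hF t3 u3 n4 a3 (hbv t.2.2) c3 (hbv u.2.2)
    dsimp only at p1 p2 p3 p4 p5 p6 p7 p8 p9
    have e1 := rm_nine (M.nu F) (M.ep F l) (N u) (e4 u) p1 p2 p3
    have e2 := rm_nine (M.nu F) (M.ep F l) (N u) (e4 u) p4 p5 p6
    have e3 := rm_nine (M.nu F) (M.ep F l) (N u) (e4 u) p7 p8 p9
    have h : (2 : ZMod 2) = 0 := rfl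
    rw [e4 t, e4 t]
    linear_combination e1 + e2 + e3 - (N u (w t).1 + N u (w' t).1 +
      (M.ep F l (w t).1 (bv u.1).1 + M.ep F l (w t).1 (bv u.2.2).1) +
      (M.ep F l (w' t).1 (bv u.1).1 + M.ep F l (w' t).1 (bv u.2.2).1) +
      (M.ep F l (bv t.1).1 (bv u.1).1 + M.ep F l (bv t.1).1 (bv u.2.2).1) +
      (M.ep F l (bv t.2.2).1 (bv u.1).1 + M.ep F l (bv t.2.2).1 (bv u.2.2).1)) * h

/-- The size of a popular set. -/
theorem rm_pop [Finite P] (M : Mod d s I P V) (R : Finset I) {A J : Type} [Fintype A] [Fintype J]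
    (sa : A → P × ℕ × ℕ) (sj : J → P × ℕ × ℕ) (Tr : Finset (Finset I × A × J × A)) (m1 Mx c : ℕ)
    (Q : ℝ) (hQ : 1 ≤ Q) (hm : 1 ≤ m1) (ha : M.Fam R Mx sa) (hj : M.Fam R Mx sj)
    (hT : ∀ t ∈ Tr, M.Thru R t.1 (sa t.2.2.2) (sj t.2.2.1))
    (h2 : ∀ F x, {j | ∃ y, (F, x, j, y) ∈ Tr}.ncard ≤ c * m1) (F : Finset I) (x : A)
    (hF : F.card + 2 = d) (hx : F ⊆ M.cur (sa x).1) :
    ((M.Pop R sa Tr m1 Q F x).ncard : ℝ) ≤ (2 + 2 * s ^ 2) * (c + 1) * Mx * Q ^ 3 := by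
  classical
  let X : Finset A := Finset.univ.filter fun y => F ⊆ M.cur (sa y).1 ∧ M.Meet R (sa x) (sa y)
  let Y : Finset A := Finset.univ.filter fun y => (m1 : ℝ) < cod Tr F x y * Q ^ 3
  let U := Tr.filter fun u => u.1 = F ∧ u.2.1 = x
  have a1 : (M.Pop R sa Tr m1 Q F x).ncard ≤ X.card + Y.card := by
    refine (rm_ge (s := X ∪ Y) ?_).trans (Finset.card_union_le _ _)
    rintro y ⟨b1, b2 | b2⟩
    · exact Finset.mem_union_left _ (Finset.mem_filter.2 ⟨Finset.mem_univ _, b1, b2⟩)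
    · exact Finset.mem_union_right _ (Finset.mem_filter.2 ⟨Finset.mem_univ _, b2⟩)
  have a2 : X.card ≤ (2 + 2 * s ^ 2) * Mx :=
    (rm_fil _).trans
      ((M.meet_card R F Mx sa ha (sa x) hF hx).trans (Nat.mul_le_mul_left _ (ha.1 x).2))
  have a3 : ∑ y ∈ Y, cod Tr F x y ≤ U.card := by
    rw [Finset.card_eq_sum_card_fiberwise (f := fun u => u.2.2.2) (t := Finset.univ)
      fun _ _ => Finset.mem_coe.2 (Finset.mem_univ _)]
    refine (Finset.sum_le_sum fun y _ => ?_).trans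
      (Finset.sum_le_sum_of_subset (Finset.subset_univ Y))
    refine Finset.card_le_card fun u hu => ?_
    simp only [U, Finset.mem_filter] at hu ⊢
    exact ⟨⟨hu.1, hu.2.1, hu.2.2.1⟩, hu.2.2.2⟩
  have a4 : U.card ≤ (2 + 2 * s ^ 2) * Mx * (c * m1) := by
    refine (Finset.card_le_mul_card_image (f := fun u => u.2.2.1) U ((2 + 2 * s ^ 2) * Mx)
      fun j hj' => ?_).trans (Nat.mul_le_mul_left _ ((rm_le fun j hj' => ?_).trans (h2 F x)))
    · obtain ⟨t, ht, rfl⟩ := Finset.mem_image.1 hj'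
      obtain ⟨b1, b2, -⟩ := Finset.mem_filter.1 ht
      have b3 := (rm_thru (hT t b1)).2.2.1
      rw [b2] at b3
      refine le_trans ?_ ((M.meet_card R F Mx sa ha (sj t.2.2.1) hF b3).trans
        (Nat.mul_le_mul_left _ (hj.1 _).2))
      rw [← Finset.card_image_of_injOn (f := fun u => u.2.2.2)]
      · refine rm_le fun y hy => ?_
        obtain ⟨u, hu, rfl⟩ := Finset.mem_image.1 hy
        obtain ⟨c1, c2⟩ := Finset.mem_filter.1 hu
        obtain ⟨c3, c4, -⟩ := Finset.mem_filter.1 c1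
        obtain ⟨-, c5, -, -, w, c6, c7⟩ := rm_thru (hT u c3)
        rw [c4] at c5
        rw [← c2]
        exact ⟨c5, rm_meet c7 c6⟩
      · intro u hu u' hu' e
        obtain ⟨c1, c2⟩ := Finset.mem_filter.1 (Finset.mem_coe.1 hu)
        obtain ⟨c3, c4⟩ := Finset.mem_filter.1 (Finset.mem_coe.1 hu')
        obtain ⟨-, c5, c6⟩ := Finset.mem_filter.1 c1
        obtain ⟨-, c7, c8⟩ := Finset.mem_filter.1 c3
        exact Prod.ext (c5.trans c7.symm) (Prod.ext (c6.trans c8.symm)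
          (Prod.ext (c2.trans c4.symm) e))
    · obtain ⟨t, ht, rfl⟩ := Finset.mem_image.1 hj'
      obtain ⟨b1, b2, b3⟩ := Finset.mem_filter.1 ht
      refine ⟨t.2.2.2, ?_⟩
      rw [← b2, ← b3]
      exact b1
  have q3 : 1 ≤ Q ^ 3 := one_le_pow₀ hQ
  have a5 : (Y.card : ℝ) * m1 ≤ (∑ y ∈ Y, cod Tr F x y : ℕ) * Q ^ 3 := by
    rw [Nat.cast_sum, Finset.sum_mul, ← nsmul_eq_mul]
    exact Finset.card_nsmul_le_sum _ _ _ fun y hy => (Finset.mem_filter.1 hy).2.le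
  have a6 : ((∑ y ∈ Y, cod Tr F x y : ℕ) : ℝ) ≤ (2 + 2 * s ^ 2) * Mx * (c * m1) := by
    exact_mod_cast a3.trans a4
  have a7 : (0 : ℝ) < m1 := by exact_mod_cast hm
  have a8 : (Y.card : ℝ) ≤ (2 + 2 * s ^ 2) * Mx * c * Q ^ 3 := by
    refine le_of_mul_le_mul_right (a5.trans ?_) a7
    calc _ ≤ (2 + 2 * s ^ 2) * Mx * (c * m1) * Q ^ 3 := mul_le_mul_of_nonneg_right a6 (by linarith)
      _ = _ := by ring
  have a9 : ((M.Pop R sa Tr m1 Q F x).ncard : ℝ) ≤ (2 + 2 * s ^ 2) * Mx + Y.card := by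
    exact_mod_cast a1.trans (Nat.add_le_add_right a2 _)
  have a10 : (2 + 2 * (s : ℝ) ^ 2) * Mx * 1 ≤ (2 + 2 * s ^ 2) * Mx * Q ^ 3 :=
    mul_le_mul_of_nonneg_left q3 (by positivity)
  linarith

theorem richMod (d s : ℕ) : ∃ C : ℝ, 0 ≤ C ∧ ∀ {I P V : Type} [DecidableEq I] [Finite P] [Finite V]
    (M : Mod d s I P V) (R : Finset I) {A J : Type} [Fintype A] [Fintype J]
    (sa : A → P × ℕ × ℕ) (sj : J → P × ℕ × ℕ) (Tr : Finset (Finset I × A × J × A)) (m1 Mx c : ℕ)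
    (Q : ℝ), 1 ≤ Q → 1 ≤ m1 → m1 ≤ Mx → M.Fam R Mx sa → M.Fam R Mx sj →
    (∀ x, ∃ v, ∃ i ∈ M.tup v, M.pc v i = (sa x).1 ∧ M.ps v i ∈ M.seg R (sa x)) →
    (∀ t ∈ Tr, M.Thru R t.1 (sa t.2.1) (sj t.2.2.1) ∧ M.Thru R t.1 (sa t.2.2.2) (sj t.2.2.1)) →
    (∀ F j, {x | ∃ y, (F, x, j, y) ∈ Tr}.ncard ≤ m1) →
    (∀ F x, {j | ∃ y, (F, x, j, y) ∈ Tr}.ncard ≤ c * m1) →
    ({t | t ∈ Tr ∧ t.2.2.2 ∉ M.Pop R sa Tr m1 Q t.1 t.2.1}.ncard : ℝ) * Q ≤
        C * (Fintype.card A + Fintype.card J) * m1 * Mx ∧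
      ∀ F x, F.card + 2 = d → F ⊆ M.cur (sa x).1 →
        ((M.Pop R sa Tr m1 Q F x).ncard : ℝ) ≤ C * (c + 1) * Mx * Q ^ 3 := by
  classical
  obtain ⟨C, hC0, hC⟩ := rich
  refine ⟨C * 2 ^ d * (2 + 2 * s ^ 2) + (2 + 2 * s ^ 2), by positivity, ?_⟩
  intro I P V _ _ _ M R A J _ _ sa sj Tr m1 Mx c Q hQ hm1 hm ha hj hb hT h1 h2
  constructor
  · let B := Tr.filter fun t => t.2.2.2 ∉ M.Pop R sa Tr m1 Q t.1 t.2.1
    let κ : Finset I × A × J × A → Finset I × ℕ := fun t => (t.1, M.lab (sa t.2.1).1 t.1)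
    let As : Finset I × ℕ → Finset A := fun c => Finset.univ.filter fun x => M.rm_In c.1 c.2 (sa x).1
    let Js : Finset I × ℕ → Finset J := fun c => Finset.univ.filter fun x => M.rm_In c.1 c.2 (sj x).1
    have a1 : {t | t ∈ Tr ∧ t.2.2.2 ∉ M.Pop R sa Tr m1 Q t.1 t.2.1}.ncard ≤
        ∑ c ∈ B.image κ, (B.filter fun t => κ t = c).card := by
      rw [← Finset.card_eq_sum_card_image]
      exact rm_ge fun t ht => Finset.mem_filter.2 ht
    have a2 : ∀ c ∈ B.image κ, ((B.filter fun t => κ t = c).card : ℝ) * Q ≤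
        C * ((As c).card + (Js c).card : ℕ) * m1 * ((2 + 2 * s ^ 2) * Mx : ℕ) := by
      intro c hc
      obtain ⟨t, ht, rfl⟩ := Finset.mem_image.1 hc
      refine rm_class hC M R sa sj Tr m1 Mx Q hQ hm ha hj hb hT h1 (κ t).1 (κ t).2
        (rm_thru (hT t (Finset.mem_filter.1 ht).1).1).1 _ _ (fun x => by simp [As])
        (fun x => by simp [Js]) _ fun u hu => ?_
      obtain ⟨b1, b2⟩ := Finset.mem_filter.1 hu
      obtain ⟨b3, b4⟩ := Finset.mem_filter.1 b1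
      refine ⟨b3, b4, (Prod.ext_iff.1 b2).1, ?_⟩
      rw [← b2]
    have a3 := M.rm_cls (fun x => (sa x).1) (B.image κ) As fun c x hx => (Finset.mem_filter.1 hx).2
    have a4 := M.rm_cls (fun x => (sj x).1) (B.image κ) Js fun c x hx => (Finset.mem_filter.1 hx).2
    have a5 : ((∑ c ∈ B.image κ, ((As c).card + (Js c).card) : ℕ) : ℝ) ≤
        2 ^ d * (Fintype.card A + Fintype.card J) := by
      rw [Finset.sum_add_distrib, mul_add]
      exact_mod_cast Nat.add_le_add a3 a4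
    have a6 : (0 : ℝ) ≤ (2 + 2 * s ^ 2) * (Fintype.card A + Fintype.card J) * m1 * Mx := by
      positivity
    calc _ ≤ ((∑ c ∈ B.image κ, (B.filter fun t => κ t = c).card : ℕ) : ℝ) * Q :=
          mul_le_mul_of_nonneg_right (Nat.cast_le.2 a1) (by linarith)
      _ ≤ ∑ c ∈ B.image κ, C * ((As c).card + (Js c).card : ℕ) * m1 *
          ((2 + 2 * s ^ 2) * Mx : ℕ) := by
          rw [Nat.cast_sum, Finset.sum_mul]
          exact Finset.sum_le_sum a2
      _ = C * m1 * ((2 + 2 * s ^ 2) * Mx) *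
          ((∑ c ∈ B.image κ, ((As c).card + (Js c).card) : ℕ) : ℝ) := by
          rw [Nat.cast_sum, Finset.mul_sum]
          refine Finset.sum_congr rfl fun c _ => ?_
          push_cast
          ring
      _ ≤ C * m1 * ((2 + 2 * s ^ 2) * Mx) * (2 ^ d * (Fintype.card A + Fintype.card J)) :=
          mul_le_mul_of_nonneg_left a5 (by positivity)
      _ ≤ _ := by linarith
  · intro F x hF hx
    refine (M.rm_pop R sa sj Tr m1 Mx c Q hQ hm1 ha hj (fun t ht => (hT t ht).2) h2 F x hF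
      hx).trans ?_
    have : 0 ≤ C * 2 ^ d * (2 + 2 * s ^ 2) * (c + 1) * Mx * Q ^ 3 := by positivity
    linarith

end Mod

end CurK
end

-- merged part: Pool.Agent.Work.MP_8a5de9_co_K.ALA
section
/-! Theorem AL, first part: double counting and Lemma RICH for sets of segments. -/

namespace CurK

open Finset

/-- Double counting. -/
theorem al_dc {α β : Type} (S : Set α) {T : Set β} (hT : T.Finite) (r : α → β → Prop)
    {a b c : ℕ} (h1 : ∀ x ∈ S, a ≤ c * {y | y ∈ T ∧ r x y}.ncard)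
    (h2 : ∀ y ∈ T, {x | x ∈ S ∧ r x y}.ncard ≤ b) : S.ncard * a ≤ c * b * T.ncard := by
  classical
  by_cases hS : S.Finite
  swap
  · rw [Set.Infinite.ncard hS, zero_mul]
    exact Nat.zero_le _
  lift S to Finset α using hS
  lift T to Finset β using hT
  have e1 : ∀ x, {y | y ∈ (T : Set β) ∧ r x y}.ncard = (T.bipartiteAbove r x).card := fun x => by
    rw [← Set.ncard_coe_finset]
    congr 1
    ext y
    simp
  have e2 : ∀ y, {x | x ∈ (S : Set α) ∧ r x y}.ncard = (S.bipartiteBelow r y).card := fun y => by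
    rw [← Set.ncard_coe_finset]
    congr 1
    ext x
    simp
  simp only [e1] at h1
  simp only [e2] at h2
  rw [Set.ncard_coe_finset, Set.ncard_coe_finset]
  calc S.card * a = ∑ _x ∈ S, a := by rw [sum_const, smul_eq_mul]
    _ ≤ ∑ x ∈ S, c * (T.bipartiteAbove r x).card := sum_le_sum h1
    _ = c * ∑ y ∈ T, (S.bipartiteBelow r y).card := by
      rw [← mul_sum, sum_card_bipartiteAbove_eq_sum_card_bipartiteBelow]
    _ ≤ c * ∑ _y ∈ T, b := Nat.mul_le_mul_left _ (sum_le_sum h2)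
    _ = _ := by rw [sum_const, smul_eq_mul]; ring

/-- Every element of `S` has a partner in `T`. -/
theorem al_up {α β : Type} (S : Set α) {T : Set β} (hT : T.Finite) (r : α → β → Prop)
    {b : ℕ} (h1 : ∀ x ∈ S, ∃ y ∈ T, r x y)
    (h2 : ∀ y ∈ T, {x | x ∈ S ∧ r x y}.ncard ≤ b) : S.ncard ≤ b * T.ncard := by
  have := al_dc S hT r (a := 1) (c := 1) (fun x hx => ?_) h2
  · simpa using this
  obtain ⟨y, hy⟩ := h1 x hx
  rw [one_mul]
  exact (Set.ncard_pos (hT.subset fun _ h => h.1)).2 ⟨y, hy⟩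

theorem al_one {α : Type} {S : Set α} (h : ∀ x ∈ S, ∀ y ∈ S, x = y) : S.ncard ≤ 1 :=
  (Set.ncard_le_one (Set.Subsingleton.finite h)).2 h

theorem al_sub {α : Type} (A : Set α) (p : α → Prop) :
    {x : A | p x.1}.ncard = {x | x ∈ A ∧ p x}.ncard := by
  rw [← Set.ncard_image_of_injective _ Subtype.val_injective]
  congr 1
  ext x
  exact ⟨fun ⟨y, h, e⟩ => e ▸ ⟨y.2, h⟩, fun h => ⟨⟨x, h.1⟩, h.2, rfl⟩⟩

namespace Mod

variable {d s : ℕ} {I P V : Type} [DecidableEq I]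

theorem al_thru {M : Mod d s I P V} {R F : Finset I} {S T : P × ℕ × ℕ} (h : M.Thru R F S T) :
    F.card + 2 = d ∧ F ⊆ M.cur S.1 := by
  obtain ⟨v, i, hi, j, hj, hne, rfl, h1, -⟩ := h
  rw [← h1, M.pc_cur v i hi]
  refine ⟨?_, erase_subset _ _⟩
  have a := card_erase_add_one hi
  have b := card_erase_add_one (mem_erase.2 ⟨hne.symm, hj⟩)
  have := M.tup_card v
  omega

end Mod

/-- Lemma RICH for sets of segments and a set `Y` of parameters. -/
theorem al_rich (d s : ℕ) : ∃ C : ℝ, 0 ≤ C ∧ ∀ {I P V : Type} [DecidableEq I] [Finite P] [Finite V]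
    (M : Mod d s I P V) (R : Finset I) {β γ : Type} (As : Set (P × ℕ × ℕ)) (Js : Set γ)
    (sj : γ → P × ℕ × ℕ) (Y : Set β) (φ : β → Finset I × (P × ℕ × ℕ) × γ × (P × ℕ × ℕ))
    (m1 Mx μ : ℕ) (Q : ℝ), As.Finite → Js.Finite → Y.Finite → 1 ≤ Q → 1 ≤ m1 → m1 ≤ Mx →
    (∀ x ∈ As, M.cur x.1 ⊆ R ∧ x.2.2 ≤ Mx) →
    (∀ p c, {x | x ∈ As ∧ x.1 = p ∧ x.2.1 ≤ c ∧ c < x.2.1 + x.2.2}.ncard ≤ 2) →
    (∀ j ∈ Js, M.cur (sj j).1 ⊆ R ∧ (sj j).2.2 ≤ Mx) →
    (∀ p c, {j | j ∈ Js ∧ (sj j).1 = p ∧ (sj j).2.1 ≤ c ∧ c < (sj j).2.1 + (sj j).2.2}.ncard ≤ 2) →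
    (∀ x ∈ As, ∃ v, ∃ i ∈ M.tup v, M.pc v i = x.1 ∧ M.ps v i ∈ M.seg R x) →
    (∀ b ∈ Y, (φ b).2.1 ∈ As ∧ (φ b).2.2.1 ∈ Js ∧ (φ b).2.2.2 ∈ As ∧
      M.Thru R (φ b).1 (φ b).2.1 (sj (φ b).2.2.1) ∧
      M.Thru R (φ b).1 (φ b).2.2.2 (sj (φ b).2.2.1)) →
    (∀ j, {x | ∃ b ∈ Y, (φ b).2.1 = x ∧ (φ b).2.2.1 = j}.ncard ≤ m1) →
    (∀ x, {j | ∃ b ∈ Y, (φ b).2.1 = x ∧ (φ b).2.2.1 = j}.ncard ≤ m1) →
    (∀ u, {b | b ∈ Y ∧ φ b = u}.ncard ≤ μ) →
    ∃ Pop : P × ℕ × ℕ → Finset I → Set (P × ℕ × ℕ),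
      (∀ x F, (Pop x F).Finite ∧ ((Pop x F).ncard : ℝ) ≤ C * Mx * Q ^ 3) ∧
      ({b | b ∈ Y ∧ (φ b).2.2.2 ∉ Pop (φ b).2.1 (φ b).1}.ncard : ℝ) * Q ≤
        μ * C * (As.ncard + Js.ncard) * m1 * Mx := by
  obtain ⟨C, hC, H⟩ := Mod.richMod d s
  refine ⟨2 * C, by positivity, ?_⟩
  intro I P V _ _ _ M R β γ As Js sj Y φ m1 Mx μ Q fA fJ fY hQ h1 h2 a1 a2 j1 j2 a3 hY n1 n2 hμ
  let _ := fA.fintype
  let _ := fJ.fintype
  let ψ : Finset I × As × Js × As → Finset I × (P × ℕ × ℕ) × γ × (P × ℕ × ℕ) :=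
    fun u => (u.1, u.2.1.1, u.2.2.1.1, u.2.2.2.1)
  have hψ : Function.Injective ψ := by
    rintro ⟨F, x, j, y⟩ ⟨F', x', j', y'⟩ h
    simp only [ψ, Prod.mk.injEq] at h
    obtain ⟨rfl, b, c, e⟩ := h
    rw [Subtype.ext b, Subtype.ext c, Subtype.ext e]
  have fT : (ψ ⁻¹' (φ '' Y)).Finite := (fY.image φ).preimage hψ.injOn
  have mT : ∀ u, u ∈ fT.toFinset ↔ ∃ b ∈ Y, φ b = ψ u := fun u => by
    rw [Set.Finite.mem_toFinset]
    rfl
  obtain ⟨k1, k2⟩ := H M R (fun x : As => x.1) (fun j : Js => sj j.1) fT.toFinset m1 Mx 1 Q hQ h1 h2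
    ⟨fun x => a1 x.1 x.2, fun p c => (al_sub As _).trans_le (a2 p c)⟩
    ⟨fun j => j1 j.1 j.2, fun p c => (al_sub Js fun j => (sj j).1 = p ∧ (sj j).2.1 ≤ c ∧
      c < (sj j).2.1 + (sj j).2.2).trans_le (j2 p c)⟩
    (fun x => a3 x.1 x.2)
    (fun t ht => by
      obtain ⟨b, hb, e⟩ := (mT t).1 ht
      have := (hY b hb).2.2.2
      rw [e] at this
      exact this)
    (fun F j => by
      refine le_trans ?_ (n1 j.1)
      refine Set.ncard_le_ncard_of_injOn Subtype.val ?_ Subtype.val_injective.injOn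
        (fA.subset ?_)
      · rintro x ⟨y, hy⟩
        obtain ⟨b, hb, e⟩ := (mT _).1 hy
        exact ⟨b, hb, by rw [e], by rw [e]⟩
      · rintro x ⟨b, hb, rfl, -⟩
        exact (hY b hb).1)
    (fun F x => by
      rw [one_mul]
      refine le_trans ?_ (n2 x.1)
      refine Set.ncard_le_ncard_of_injOn Subtype.val ?_ Subtype.val_injective.injOn
        (fJ.subset ?_)
      · rintro j ⟨y, hy⟩
        obtain ⟨b, hb, e⟩ := (mT _).1 hy
        exact ⟨b, hb, by rw [e], by rw [e]⟩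
      · rintro j ⟨b, hb, -, rfl⟩
        exact (hY b hb).2.1)
  refine ⟨fun x F => {y | ∃ (hx : x ∈ As) (hy : y ∈ As), F.card + 2 = d ∧ F ⊆ M.cur x.1 ∧
    (⟨y, hy⟩ : As) ∈ M.Pop R (fun x : As => x.1) fT.toFinset m1 Q F ⟨x, hx⟩},
    fun x F => ⟨fA.subset fun y ⟨_, hy, _⟩ => hy, ?_⟩, ?_⟩
  · by_cases h : x ∈ As ∧ F.card + 2 = d ∧ F ⊆ M.cur x.1
    · refine le_trans ?_ ((k2 F ⟨x, h.1⟩ h.2.1 h.2.2).trans (le_of_eq (by push_cast; ring)))
      rw [← Set.ncard_image_of_injective _ Subtype.val_injective, Nat.cast_le]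
      refine Set.ncard_le_ncard ?_ (Set.toFinite _ |>.image _)
      rintro y ⟨_, hy, -, -, h3⟩
      exact ⟨⟨y, hy⟩, h3, rfl⟩
    · refine le_trans (le_of_eq ?_) (show (0 : ℝ) ≤ _ by positivity)
      rw [Nat.cast_eq_zero, ← Set.ncard_empty (P × ℕ × ℕ)]
      exact congrArg _ (Set.eq_empty_of_forall_notMem fun y ⟨hx, _, b, c, _⟩ => h ⟨hx, b, c⟩)
  · have k3 := al_up {b | b ∈ Y ∧ (φ b).2.2.2 ∉ {y | ∃ (hx : (φ b).2.1 ∈ As) (hy : y ∈ As),
        (φ b).1.card + 2 = d ∧ (φ b).1 ⊆ M.cur (φ b).2.1.1 ∧ (⟨y, hy⟩ : As) ∈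
          M.Pop R (fun x : As => x.1) fT.toFinset m1 Q (φ b).1 ⟨(φ b).2.1, hx⟩}}
      (T := {t | t ∈ fT.toFinset ∧
        t.2.2.2 ∉ M.Pop R (fun x : As => x.1) fT.toFinset m1 Q t.1 t.2.1})
      (fT.toFinset.finite_toSet.subset fun _ h => h.1) (fun b t => φ b = ψ t) (b := μ)
      (fun b hb => by
        obtain ⟨b1, b2, b3, b4, -⟩ := hY b hb.1
        refine ⟨((φ b).1, ⟨_, b1⟩, ⟨_, b2⟩, ⟨_, b3⟩), ⟨(mT _).2 ⟨b, hb.1, rfl⟩, fun h => ?_⟩, rfl⟩
        exact hb.2 ⟨b1, b3, (Mod.al_thru b4).1, (Mod.al_thru b4).2, h⟩)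
      (fun t _ => le_trans (Set.ncard_le_ncard (fun b hb => And.intro hb.1.1 hb.2)
        (fY.subset fun _ h => h.1)) (hμ (ψ t)))
    have e1 : (Fintype.card As : ℝ) = As.ncard := by
      rw [← Nat.card_eq_fintype_card, Nat.card_coe_set_eq]
    have e2 : (Fintype.card Js : ℝ) = Js.ncard := by
      rw [← Nat.card_eq_fintype_card, Nat.card_coe_set_eq]
    rw [e1, e2] at k1
    have k4 := mul_le_mul_of_nonneg_right (Nat.cast_le (α := ℝ) |>.2 k3) (zero_le_one.trans hQ)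
    refine k4.trans ?_
    rw [Nat.cast_mul, mul_assoc]
    refine (mul_le_mul_of_nonneg_left k1 (Nat.cast_nonneg _)).trans ?_
    have : (0 : ℝ) ≤ μ * (C * (As.ncard + Js.ncard) * m1 * Mx) := by positivity
    linarith

end CurK
end

-- merged part: Pool.Agent.Work.MP_8a5de9_co_K.ALB
section
/-! Theorem AL, second part: arcs, objects and the popular sets. -/

namespace CurK

open Finset

namespace Mod

variable {d s : ℕ} {I P V : Type} [DecidableEq I] (M : Mod d s I P V) (R : Finset I)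

/-- `(v, w)` is a first hit in a zone of length `m`. -/
def al_Hit (m : ℕ) (v : V) (w : I) : Prop :=
  ∃ σ y, M.Vis R (M.pc v w) σ y ∧ M.Zone R (M.pc v w) y m v w

/-- The active arcs. -/
def al_Act (m : ℕ) : Set (P × ℕ × ℕ) :=
  {J | ∃ v w σ y, M.Vis R (M.pc v w) σ y ∧ M.Zone R (M.pc v w) y m v w ∧
    ∃ e ∈ (M.tup v).erase w, J = M.arc R (3 * s * m) v e}

variable {M R}

theorem al_hit_sub {m : ℕ} {v : V} {w : I} (h : M.al_Hit R m v w) :
    w ∈ M.tup v ∧ M.tup v ⊆ R := by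
  obtain ⟨σ, y, h1, h2, h3, -⟩ := h
  refine ⟨h2, ?_⟩
  rw [← insert_erase h2, ← M.pc_cur v w h2]
  exact insert_subset h3 (M.vis_sub h1).1

theorem al_act_mem {m : ℕ} {v : V} {w e : I} (h : M.al_Hit R m v w) (he : e ∈ (M.tup v).erase w) :
    M.arc R (3 * s * m) v e ∈ M.al_Act R m := by
  obtain ⟨σ, y, h1, h2⟩ := h
  exact ⟨v, w, σ, y, h1, h2, e, he, rfl⟩

theorem al_act_ex {m : ℕ} {x : P × ℕ × ℕ} (h : x ∈ M.al_Act R m) :
    ∃ v, ∃ e ∈ M.tup v, M.tup v ⊆ R ∧ x = M.arc R (3 * s * m) v e := by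
  obtain ⟨v, w, σ, y, h1, h2, e, he, rfl⟩ := h
  exact ⟨v, e, mem_of_mem_erase he, (al_hit_sub ⟨σ, y, h1, h2⟩).2, rfl⟩

theorem al_seg_arc {Λ : ℕ} (hΛ : 1 ≤ Λ) {v : V} {e : I} (he : e ∈ M.tup v) :
    M.ps v e ∈ M.seg R (M.arc R Λ v e) :=
  ⟨M.ps_lt v e he, Nat.div_mul_le_self _ _, Nat.lt_div_mul_add hΛ⟩

theorem al_fin [Finite V] : {x : V × I | x.2 ∈ M.tup x.1}.Finite :=
  (Set.finite_iUnion fun v => (M.tup v).finite_toSet.image (Prod.mk v)).subset
    fun x hx => Set.mem_iUnion.2 ⟨x.1, x.2, hx, rfl⟩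

theorem al_on (S : P × ℕ × ℕ) : {x : V × I | x.2 ∈ M.tup x.1 ∧ x.2 ∈ R ∧ M.pc x.1 x.2 = S.1 ∧
    M.ps x.1 x.2 ∈ M.seg R S}.ncard ≤ S.2.2 := by
  refine (Set.ncard_le_ncard_of_injOn (t := (Ico S.2.1 (S.2.1 + S.2.2) : Finset ℕ))
    (fun x => M.cnt R S.1 (M.ps x.1 x.2)) (fun x hx => mem_coe.2 (mem_Ico.2 hx.2.2.2.2)) ?_
    (finite_toSet _)).trans (by simp)
  rintro ⟨v, i⟩ ⟨a1, a2, a3, a4⟩ ⟨v', i'⟩ ⟨b1, b2, b3, b4⟩ h
  dsimp only at *
  have c1 := M.ps_hit v i a1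
  have c2 := M.ps_hit v' i' b1
  rw [a3] at c1
  rw [b3] at c2
  have c3 : M.ps v i = M.ps v' i' := by
    rcases lt_trichotomy (M.ps v i) (M.ps v' i') with c | c | c
    · exact absurd h (M.cnt_lt a4.1 (c1.symm ▸ a2) c).ne
    · exact c
    · exact absurd h (M.cnt_lt b4.1 (c2.symm ▸ b2) c).ne'
  rw [M.inj v v' i a1 i' b1 (a3.trans b3.symm) c3, ← c1, ← c2, c3]

theorem al_on3 [Finite V] (S : P × ℕ × ℕ) {α : Type} (X : Set α) (r : α → V → I → I → Prop)
    (h1 : ∀ a ∈ X, ∃ v i j, i ∈ M.tup v ∧ i ∈ R ∧ M.pc v i = S.1 ∧ M.ps v i ∈ M.seg R S ∧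
      j ∈ M.tup v ∧ r a v i j)
    (h2 : ∀ a a' v i j, r a v i j → r a' v i j → a = a') : X.ncard ≤ d * S.2.2 := by
  refine (al_up X (T := {x : V × I | x.2 ∈ M.tup x.1 ∧ x.2 ∈ R ∧ M.pc x.1 x.2 = S.1 ∧
    M.ps x.1 x.2 ∈ M.seg R S}) (al_fin.subset fun _ h => h.1)
    (fun a x => ∃ j ∈ M.tup x.1, r a x.1 x.2 j) (b := d) (fun a ha => ?_) fun x _ => ?_).trans
    (Nat.mul_le_mul_left _ (al_on S))
  · obtain ⟨v, i, j, a1, a2, a3, a4, a5, a6⟩ := h1 a ha
    exact ⟨(v, i), ⟨a1, a2, a3, a4⟩, j, a5, a6⟩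
  · refine (al_up _ (M.tup x.1).finite_toSet (fun a j => r a x.1 x.2 j) (b := 1)
      (fun a ha => ha.2) fun j _ => al_one fun a ha a' ha' => h2 _ _ _ _ _ ha.2 ha'.2).trans ?_
    rw [one_mul, Set.ncard_coe_finset, M.tup_card]

theorem al_act_fin [Finite V] (m : ℕ) : (M.al_Act R m).Finite :=
  ((M.al_fin).image fun x => M.arc R (3 * s * m) x.1 x.2).subset fun x hx => by
    obtain ⟨v, e, he, -, rfl⟩ := al_act_ex hx
    exact ⟨(v, e), he, rfl⟩

theorem al_act_a1 {m : ℕ} {x : P × ℕ × ℕ} (h : x ∈ M.al_Act R m) :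
    M.cur x.1 ⊆ R ∧ x.2.2 = 3 * s * m := by
  obtain ⟨v, e, he, h1, rfl⟩ := al_act_ex h
  exact ⟨(M.pc_cur v e he).subset.trans ((erase_subset _ _).trans h1), rfl⟩

theorem al_act_a2 {m c : ℕ} {x : P × ℕ × ℕ} (h : x ∈ M.al_Act R m) (h1 : x.2.1 ≤ c)
    (h2 : c < x.2.1 + x.2.2) : x = (x.1, c / (3 * s * m) * (3 * s * m), 3 * s * m) := by
  obtain ⟨v, e, -, -, rfl⟩ := al_act_ex h
  have : c / (3 * s * m) = M.cnt R (M.pc v e) (M.ps v e) / (3 * s * m) :=
    Nat.div_eq_of_lt_le h1 (by rw [add_one_mul]; exact h2)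
  rw [this]
  rfl

theorem al_act_two (m m' : ℕ) (p : P) (c : ℕ) :
    {x | x ∈ M.al_Act R m ∪ M.al_Act R m' ∧ x.1 = p ∧ x.2.1 ≤ c ∧ c < x.2.1 + x.2.2}.ncard ≤ 2 := by
  refine (Set.ncard_le_ncard (t := {(p, c / (3 * s * m) * (3 * s * m), 3 * s * m),
    (p, c / (3 * s * m') * (3 * s * m'), 3 * s * m')}) ?_ (Set.toFinite _)).trans
    ((Set.ncard_insert_le _ _).trans (by simp))
  rintro x ⟨h | h, rfl, h1, h2⟩
  · exact Or.inl (al_act_a2 h h1 h2)
  · exact Or.inr (al_act_a2 h h1 h2)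

theorem al_act_a3 {m : ℕ} (hm : 1 ≤ 3 * s * m) {x : P × ℕ × ℕ} (h : x ∈ M.al_Act R m) :
    ∃ v, ∃ i ∈ M.tup v, M.pc v i = x.1 ∧ M.ps v i ∈ M.seg R x := by
  obtain ⟨v, e, he, -, rfl⟩ := al_act_ex h
  exact ⟨v, e, he, rfl, al_seg_arc hm he⟩

theorem al_cup {v : V} {i j : I} (hi : i ∈ M.tup v) (hj : j ∈ M.tup v) (h : i ≠ j) :
    M.tup v = M.cur (M.pc v i) ∪ M.cur (M.pc v j) := by
  rw [M.pc_cur v i hi, M.pc_cur v j hj]
  ext x
  simp only [mem_union, mem_erase]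
  refine ⟨fun hx => ?_, fun hx => hx.elim And.right And.right⟩
  by_cases e : x = i
  · exact Or.inr ⟨e ▸ h, hx⟩
  · exact Or.inl ⟨e, hx⟩

theorem al_mult [Finite V] {β : Type} (Fb : Set β) (g : β → V × V × I × I × I)
    (hg : Set.InjOn g Fb) (D D' : Finset I)
    (h : ∀ b ∈ Fb, M.tup (g b).1 = D ∧ M.tup (g b).2.1 = D' ∧ (g b).2.2.1 ∈ D ∧
      (g b).2.2.2.1 ∈ D ∪ D' ∧ (g b).2.2.2.2 ∈ D) : Fb.ncard ≤ 2 * s ^ 2 * d ^ 3 := by
  rcases Fb.eq_empty_or_nonempty with rfl | ⟨b, hb⟩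
  · simp
  have c1 : D.card = d := (h b hb).1 ▸ M.tup_card _
  have c2 : D'.card = d := (h b hb).2.1 ▸ M.tup_card _
  refine (Set.ncard_le_ncard_of_injOn (t := {v | M.tup v = D} ×ˢ {v | M.tup v = D'} ×ˢ
    (D : Set I) ×ˢ ((D ∪ D' : Finset I) : Set I) ×ˢ (D : Set I)) g h hg
    ((Set.toFinite _).prod ((Set.toFinite _).prod (D.finite_toSet.prod
      ((D ∪ D').finite_toSet.prod D.finite_toSet))))).trans ?_
  simp only [Set.ncard_prod, Set.ncard_coe_finset, c1]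
  have c3 : (D ∪ D').card ≤ 2 * d := (card_union_le _ _).trans (by omega)
  calc _ ≤ s * (s * (d * (2 * d * d))) := Nat.mul_le_mul (M.tup_le D) (Nat.mul_le_mul (M.tup_le D')
        (Nat.mul_le_mul_left _ (Nat.mul_le_mul_right _ c3)))
    _ = _ := by ring

omit [DecidableEq I] in
theorem al_fin5 [Finite V] : {y : V × V × I × I × I | y.2.2.1 ∈ R ∧ y.2.2.2.1 ∈ R ∧
    y.2.2.2.2 ∈ R}.Finite :=
  ((Set.finite_univ (α := V)).prod ((Set.finite_univ (α := V)).prod (R.finite_toSet.prod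
    (R.finite_toSet.prod R.finite_toSet)))).subset fun _ h => ⟨trivial, trivial, h⟩

end Mod

/-- The popular sets of the cleaning rounds. -/
theorem al_pop0 (d s : ℕ) (hd : 2 ≤ d) : ∃ C : ℝ, 0 ≤ C ∧ ∀ {I P V : Type} [DecidableEq I]
    [Finite P] [Finite V] (M : Mod d s I P V) (R : Finset I) (m : ℕ) (U : Set (V × I)) (Q : ℝ),
    1 ≤ s → 1 ≤ m → 1 ≤ Q → (∀ x ∈ U, M.al_Hit R m x.1 x.2) →
    ∃ Pop : P × ℕ × ℕ → Finset I → Set (P × ℕ × ℕ),
      (∀ x F, (Pop x F).Finite ∧ ((Pop x F).ncard : ℝ) ≤ C * m * Q ^ 3) ∧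
      ({y : V × V × I × I × I | (y.1, y.2.2.1) ∈ U ∧ (y.2.1, y.2.2.1) ∈ U ∧
        y.2.2.2.1 ∈ (M.tup y.1).erase y.2.2.1 ∧ (∃ e' ∈ M.tup y.2.1,
          M.arc R (3 * s * m) y.2.1 e' = M.arc R (3 * s * m) y.1 y.2.2.2.1) ∧
        y.2.2.2.2 ∈ ((M.tup y.1).erase y.2.2.1).erase y.2.2.2.1 ∧
        M.arc R (3 * s * m) y.2.1 y.2.2.2.2 ∉ Pop (M.arc R (3 * s * m) y.1 y.2.2.2.2)
          (((M.tup y.1).erase y.2.2.2.1).erase y.2.2.2.2)}.ncard : ℝ) * Q ≤
        C * (M.al_Act R m).ncard * m ^ 2 := by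
  obtain ⟨C, hC, H⟩ := al_rich d s
  refine ⟨C * (3 * s * d) * (1 + 4 * s ^ 2 * d ^ 3 * (3 * s * d)), by positivity, ?_⟩
  intro I P V _ _ _ M R m U Q hs hm hQ hU
  have hΛ : 1 ≤ 3 * s * m := Nat.mul_pos (by omega) hm
  have hΛ' : 3 * s * m ≤ d * (3 * s * m) := Nat.le_mul_of_pos_left _ (by omega)
  have key : ∀ y : V × V × I × I × I, (y.1, y.2.2.1) ∈ U ∧ (y.2.1, y.2.2.1) ∈ U ∧
      y.2.2.2.1 ∈ (M.tup y.1).erase y.2.2.1 ∧ (∃ e' ∈ M.tup y.2.1,
        M.arc R (3 * s * m) y.2.1 e' = M.arc R (3 * s * m) y.1 y.2.2.2.1) ∧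
      y.2.2.2.2 ∈ ((M.tup y.1).erase y.2.2.1).erase y.2.2.2.1 →
      M.tup y.1 ⊆ R ∧ y.2.2.1 ∈ M.tup y.1 ∧ y.2.2.2.1 ∈ M.tup y.1 ∧ y.2.2.2.2 ∈ M.tup y.1 ∧
      y.2.2.2.2 ≠ y.2.2.2.1 ∧ y.2.2.2.2 ≠ y.2.2.1 ∧ y.2.2.2.2 ∈ M.tup y.2.1 ∧
      ∃ e' ∈ M.tup y.2.1, y.2.2.2.2 ≠ e' ∧ (M.tup y.2.1).erase e' = (M.tup y.1).erase y.2.2.2.1 ∧
        M.arc R (3 * s * m) y.2.1 e' = M.arc R (3 * s * m) y.1 y.2.2.2.1 := by
    rintro ⟨v, v', w, e, x⟩ ⟨a1, a2, a3, ⟨e', a4, a5⟩, a6⟩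
    dsimp only at *
    simp only [mem_erase] at a3 a6
    have b1 : (M.tup v').erase e' = (M.tup v).erase e := by
      rw [← M.pc_cur v' e' a4, ← M.pc_cur v e a3.2]
      exact congrArg (fun J => M.cur J.1) a5
    have b2 : x ∈ (M.tup v').erase e' := b1 ▸ mem_erase.2 ⟨a6.1, a6.2.2⟩
    exact ⟨(Mod.al_hit_sub (hU _ a1)).2, (Mod.al_hit_sub (hU _ a1)).1, a3.2, a6.2.2, a6.1, a6.2.1,
      mem_of_mem_erase b2, e', a4, (mem_erase.1 b2).1, b1, a5⟩
  obtain ⟨Pop, p1, p2⟩ := H M R (M.al_Act R m) (M.al_Act R m) id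
    {y : V × V × I × I × I | (y.1, y.2.2.1) ∈ U ∧ (y.2.1, y.2.2.1) ∈ U ∧
      y.2.2.2.1 ∈ (M.tup y.1).erase y.2.2.1 ∧ (∃ e' ∈ M.tup y.2.1,
        M.arc R (3 * s * m) y.2.1 e' = M.arc R (3 * s * m) y.1 y.2.2.2.1) ∧
      y.2.2.2.2 ∈ ((M.tup y.1).erase y.2.2.1).erase y.2.2.2.1}
    (fun y => (((M.tup y.1).erase y.2.2.2.1).erase y.2.2.2.2, M.arc R (3 * s * m) y.1 y.2.2.2.2,
      M.arc R (3 * s * m) y.1 y.2.2.2.1, M.arc R (3 * s * m) y.2.1 y.2.2.2.2))
    (d * (3 * s * m)) (d * (3 * s * m)) (2 * s ^ 2 * d ^ 3) Q (Mod.al_act_fin m)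
    (Mod.al_act_fin m)
    ((Mod.al_fin5 (R := R)).subset fun y hy => by
      obtain ⟨b1, b2, b3, b4, -⟩ := key y hy
      exact ⟨b1 b2, b1 b3, b1 b4⟩)
    hQ (hΛ.trans hΛ') le_rfl
    (fun x hx => ⟨(Mod.al_act_a1 hx).1, (Mod.al_act_a1 hx).2.trans_le hΛ'⟩)
    (fun p c => by simpa only [Set.union_self] using Mod.al_act_two (M := M) (R := R) m m p c)
    (fun x hx => ⟨(Mod.al_act_a1 hx).1, (Mod.al_act_a1 hx).2.trans_le hΛ'⟩)
    (fun p c => by simpa only [Set.union_self, id] using Mod.al_act_two (M := M) (R := R) m m p c)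
    (fun x hx => Mod.al_act_a3 hΛ hx)
    (fun y hy => by
      obtain ⟨b1, b2, b3, b4, b5, b6, b7, e', c1, c2, c3, c4⟩ := key y hy
      refine ⟨Mod.al_act_mem (hU _ hy.1) (mem_erase.2 ⟨b6, b4⟩), Mod.al_act_mem (hU _ hy.1) hy.2.2.1,
        Mod.al_act_mem (hU _ hy.2.1) (mem_erase.2 ⟨b6, b7⟩),
        ⟨y.1, _, b4, _, b3, b5, erase_right_comm, rfl, Mod.al_seg_arc hΛ b4, rfl,
          Mod.al_seg_arc hΛ b3⟩,
        ⟨y.2.1, _, b7, _, c1, c2, ?_, rfl, Mod.al_seg_arc hΛ b7, congrArg Prod.fst c4, ?_⟩⟩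
      · dsimp only
        rw [← c3, erase_right_comm]
      · dsimp only [id]
        rw [← c4]
        exact Mod.al_seg_arc hΛ c1)
    (fun j => by
      refine Mod.al_on3 (M := M) (R := R) (j.1, j.2.1, 3 * s * m) _
        (fun a v _ x => a = M.arc R (3 * s * m) v x) ?_ fun _ _ _ _ _ a b => a.trans b.symm
      rintro _ ⟨y, hy, rfl, rfl⟩
      obtain ⟨b1, b2, b3, b4, -⟩ := key y hy
      exact ⟨y.1, _, _, b3, b1 b3, rfl, Mod.al_seg_arc hΛ b3, b4, rfl⟩)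
    (fun x => by
      refine Mod.al_on3 (M := M) (R := R) (x.1, x.2.1, 3 * s * m) _
        (fun a v _ e => a = M.arc R (3 * s * m) v e) ?_ fun _ _ _ _ _ a b => a.trans b.symm
      rintro _ ⟨y, hy, rfl, rfl⟩
      obtain ⟨b1, b2, b3, b4, -⟩ := key y hy
      exact ⟨y.1, _, _, b4, b1 b4, rfl, Mod.al_seg_arc hΛ b4, b3, rfl⟩)
    (fun u => by
      refine Mod.al_mult (M := M) _ id (Set.injOn_id _) (M.cur u.2.1.1 ∪ M.cur u.2.2.1.1)
        (M.cur u.2.2.2.1 ∪ M.cur u.2.2.1.1) ?_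
      rintro y ⟨hy, rfl⟩
      obtain ⟨b1, b2, b3, b4, b5, b6, b7, e', c1, c2, c3, c4⟩ := key y hy
      have e1 := Mod.al_cup b4 b3 b5
      have e2 := Mod.al_cup b7 c1 c2
      rw [show M.pc y.2.1 e' = M.pc y.1 y.2.2.2.1 from congrArg Prod.fst c4] at e2
      exact ⟨e1, e2, e1.subset b2, mem_union_left _ (e1.subset b3), e1.subset b4⟩)
  have k1 : (1 : ℝ) ≤ 1 + 4 * s ^ 2 * d ^ 3 * (3 * s * d) := le_add_of_nonneg_right (by positivity)
  refine ⟨Pop, fun x F => ⟨(p1 x F).1, (p1 x F).2.trans ?_⟩, ?_⟩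
  · refine le_trans (le_of_eq ?_) (mul_le_mul_of_nonneg_right (mul_le_mul_of_nonneg_right
      (mul_le_mul_of_nonneg_left k1 (by positivity)) (by positivity)) (by positivity))
    push_cast
    ring
  · simp only [Set.mem_ofPred_eq, and_assoc] at p2
    refine p2.trans ?_
    have : (0 : ℝ) ≤ C * (3 * s * d) * (M.al_Act R m).ncard * m ^ 2 := by positivity
    push_cast
    linarith

end CurK
end

-- merged part: Pool.Agent.Work.MP_8a5de9_co_K.ALC
section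
/-! Theorem AL, third part: objects and the popular sets of the zones. -/

namespace CurK

open Finset

namespace Mod

variable {d s : ℕ} {I P V : Type} [DecidableEq I]

/-- A family of objects with disjoint extents. -/
structure al_H (M : Mod d s I P V) (R : Finset I) (k : ℕ) (Ms : ℕ → ℕ) {O : Type} (op : O → P)
    (oσ : O → Finset I) (oy : O → ℕ → ℕ) : Prop where
  obj : ∀ o, M.Obj R k Ms (op o) (oσ o) (oy o)
  sep : ∀ o o', o ≠ o' → op o = op o' →
    M.cnt R (op o) (oy o 0) + 2 * Ms (k - 1) ≤ M.cnt R (op o') (oy o' 0) ∨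
    M.cnt R (op o') (oy o' 0) + 2 * Ms (k - 1) ≤ M.cnt R (op o) (oy o 0)
  ms : ∀ t < k, Ms 0 ≤ Ms t ∧ Ms t ≤ Ms (k - 1)
  pos : 1 ≤ Ms 0
  hk : 0 < k
  hs : 1 ≤ s

variable {M : Mod d s I P V} {R : Finset I} {k : ℕ} {Ms : ℕ → ℕ} {O : Type} {op : O → P}
  {oσ : O → Finset I} {oy : O → ℕ → ℕ}

theorem al_H.cnt0 (h : M.al_H R k Ms op oσ oy) (o : O) {t : ℕ} (ht : t ≤ k) :
    M.cnt R (op o) (oy o 0) ≤ M.cnt R (op o) (oy o t) := by
  induction t with
  | zero => exact le_rfl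
  | succ t ih => exact (ih (by omega)).trans (le_of_add_le_left ((h.obj o).gap t ht))

theorem al_H.uniq (h : M.al_H R k Ms op oσ oy) {o o' : O} {t c : ℕ} (ht : t < k)
    (e : op o = op o') (h1 : M.cnt R (op o) (oy o 0) ≤ c)
    (h2 : c < M.cnt R (op o) (oy o 0) + 2 * Ms t) (h3 : M.cnt R (op o') (oy o' 0) ≤ c)
    (h4 : c < M.cnt R (op o') (oy o' 0) + 2 * Ms t) : o = o' := by
  by_contra hne
  have := (h.ms t ht).2
  rcases h.sep o o' hne e with a | a <;> omega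

theorem al_H.win (h : M.al_H R k Ms op oσ oy) (o : O) {t t' c : ℕ} (ht : t < k) (hm : Ms t ≤ Ms t')
    (h1 : M.cnt R (op o) (oy o t) ≤ c) (h2 : c < M.cnt R (op o) (oy o t) + Ms t) :
    M.cnt R (op o) (oy o 0) ≤ c ∧ c < M.cnt R (op o) (oy o 0) + 2 * Ms t' := by
  have a := h.cnt0 o ht.le
  have b := (h.obj o).near t ht
  omega

theorem al_H.seg (h : M.al_H R k Ms op oσ oy) {o : O} {t t' : ℕ} (ht : t < k) (hm : Ms t ≤ Ms t')
    {v : V} {w : I} (hz : M.Zone R (op o) (oy o t) (Ms t) v w) :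
    M.ps v w ∈ M.seg R (op o, M.cnt R (op o) (oy o 0), 2 * Ms t') := by
  obtain ⟨a1, -, a3, a4, a5, -⟩ := hz
  exact ⟨a3 ▸ M.ps_lt v w a1, h.win o ht hm (M.cnt_mono R _ a4) a5⟩

theorem al_zseg {p : P} {y m : ℕ} {v : V} {w : I} (hz : M.Zone R p y m v w) :
    M.ps v w ∈ M.seg R (p, M.cnt R p y, m) := by
  obtain ⟨a1, -, a3, a4, a5, -⟩ := hz
  exact ⟨a3 ▸ M.ps_lt v w a1, M.cnt_mono R _ a4, a5⟩

theorem al_H.zuniq (h : M.al_H R k Ms op oσ oy) {o o' : O} {t : ℕ} (ht : t < k) {v : V} {w : I}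
    (hz : M.Zone R (op o) (oy o t) (Ms t) v w) (hz' : M.Zone R (op o') (oy o' t) (Ms t) v w) :
    o = o' := by
  have e : op o = op o' := hz.2.2.1.symm.trans hz'.2.2.1
  obtain ⟨-, a1, a2⟩ := h.seg ht le_rfl hz
  obtain ⟨-, b1, b2⟩ := h.seg ht le_rfl hz'
  dsimp only at a1 a2 b1 b2
  rw [e] at a1 a2
  exact h.uniq ht e (e ▸ a1) (e ▸ a2) b1 b2

theorem al_H.hit (h : M.al_H R k Ms op oσ oy) {o : O} {t : ℕ} (ht : t < k) {v : V} {w : I}
    (hz : M.Zone R (op o) (oy o t) (Ms t) v w) : M.al_Hit R (Ms t) v w := by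
  refine ⟨oσ o, oy o t, ?_⟩
  rw [hz.2.2.1]
  exact ⟨(h.obj o).vis t ht.le, hz⟩

theorem al_zcur {p : P} {y m : ℕ} {v : V} {w : I} (hz : M.Zone R p y m v w) :
    (M.tup v).erase w = M.cur p := by
  rw [← hz.2.2.1, M.pc_cur v w hz.1]

end Mod

/-- The popular sets of zone `t`. -/
theorem al_popt (d s : ℕ) (hd : 2 ≤ d) : ∃ C : ℝ, 0 ≤ C ∧ ∀ {I P V : Type} [DecidableEq I]
    [Finite P] [Finite V] (M : Mod d s I P V) (R : Finset I) (k : ℕ) (Ms : ℕ → ℕ) {O : Type}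
    [Finite O] (op : O → P) (oσ : O → Finset I) (oy : O → ℕ → ℕ) (t : ℕ) (Q N : ℝ),
    M.al_H R k Ms op oσ oy → t < k → 1 ≤ Q → ((M.al_Act R (Ms 0)).ncard : ℝ) ≤ N →
    ((M.al_Act R (Ms t)).ncard : ℝ) ≤ N → ((Set.univ : Set O).ncard : ℝ) ≤ N →
    ∃ Pop : P × ℕ × ℕ → Finset I → Set (P × ℕ × ℕ),
      (∀ x F, (Pop x F).Finite ∧ ((Pop x F).ncard : ℝ) ≤ C * Ms t * Q ^ 3) ∧
      ({b : O × V × V × I × I × I | M.Zone R (op b.1) (oy b.1 0) (Ms 0) b.2.1 b.2.2.2.1 ∧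
        M.Zone R (op b.1) (oy b.1 t) (Ms t) b.2.2.1 b.2.2.2.2.1 ∧
        b.2.2.2.2.2 ∈ (M.tup b.2.1).erase b.2.2.2.1 ∧
        M.arc R (3 * s * Ms t) b.2.2.1 b.2.2.2.2.2 ∉
          Pop (M.arc R (3 * s * Ms 0) b.2.1 b.2.2.2.2.2)
            (((M.tup b.2.1).erase b.2.2.2.1).erase b.2.2.2.2.2)}.ncard : ℝ) * Q ≤
        C * N * Ms 0 * Ms t := by
  obtain ⟨C, hC, H⟩ := al_rich d s
  refine ⟨C * (3 * s * d) * (1 + 6 * s ^ 2 * d ^ 3 * (3 * s * d)), by positivity, ?_⟩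
  intro I P V _ _ _ M R k Ms O _ op oσ oy t Q N h ht hQ n0 nt nO
  have hs := h.hs
  have hm := h.pos
  have hmt := (h.ms t ht).1
  have hΛ : 1 ≤ 3 * s * Ms 0 := Nat.mul_pos (by omega) hm
  have hΛt : 1 ≤ 3 * s * Ms t := Nat.mul_pos (by omega) (by omega)
  have l1 : 3 * s * Ms 0 ≤ 3 * s * Ms t := Nat.mul_le_mul_left _ hmt
  have l2 : 3 * s * Ms t ≤ d * (3 * s * Ms t) := Nat.le_mul_of_pos_left _ (by omega)
  have l3 : 2 * Ms t ≤ 3 * s * Ms t := Nat.mul_le_mul_right _ (by omega)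
  have l4 : Ms 0 ≤ 3 * s * Ms 0 := Nat.le_mul_of_pos_left _ (by omega)
  have key : ∀ b : O × V × V × I × I × I, M.Zone R (op b.1) (oy b.1 0) (Ms 0) b.2.1 b.2.2.2.1 ∧
      M.Zone R (op b.1) (oy b.1 t) (Ms t) b.2.2.1 b.2.2.2.2.1 ∧
      b.2.2.2.2.2 ∈ (M.tup b.2.1).erase b.2.2.2.1 →
      M.tup b.2.1 ⊆ R ∧ b.2.2.2.2.2 ∈ M.tup b.2.1 ∧ b.2.2.2.2.2 ≠ b.2.2.2.1 ∧
        b.2.2.2.2.2 ∈ M.tup b.2.2.1 ∧ b.2.2.2.2.2 ≠ b.2.2.2.2.1 := by
    rintro b ⟨a1, a2, a3⟩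
    have a4 := a3
    rw [Mod.al_zcur a1, ← Mod.al_zcur a2] at a4
    exact ⟨(Mod.al_hit_sub (h.hit h.hk a1)).2, mem_of_mem_erase a3, (mem_erase.1 a3).1,
      mem_of_mem_erase a4, (mem_erase.1 a4).1⟩
  obtain ⟨Pop, p1, p2⟩ := H M R (M.al_Act R (Ms 0) ∪ M.al_Act R (Ms t)) (Set.univ : Set O)
    (fun o => (op o, M.cnt R (op o) (oy o 0), 2 * Ms t))
    {b : O × V × V × I × I × I | M.Zone R (op b.1) (oy b.1 0) (Ms 0) b.2.1 b.2.2.2.1 ∧
      M.Zone R (op b.1) (oy b.1 t) (Ms t) b.2.2.1 b.2.2.2.2.1 ∧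
      b.2.2.2.2.2 ∈ (M.tup b.2.1).erase b.2.2.2.1}
    (fun b => (((M.tup b.2.1).erase b.2.2.2.1).erase b.2.2.2.2.2,
      M.arc R (3 * s * Ms 0) b.2.1 b.2.2.2.2.2, b.1, M.arc R (3 * s * Ms t) b.2.2.1 b.2.2.2.2.2))
    (d * (3 * s * Ms 0)) (d * (3 * s * Ms t)) (2 * s ^ 2 * d ^ 3) Q
    ((Mod.al_act_fin _).union (Mod.al_act_fin _)) Set.finite_univ
    (((Set.finite_univ (α := O)).prod (Mod.al_fin5 (V := V) (R := R))).subset fun b hb =>
      ⟨trivial, hb.1.2.1, hb.2.1.2.1, (key b hb).1 (key b hb).2.1⟩)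
    hQ (Nat.mul_pos (by omega) hΛ) (Nat.mul_le_mul_left _ l1)
    (fun x hx => hx.elim
      (fun hx => ⟨(Mod.al_act_a1 hx).1, (Mod.al_act_a1 hx).2.trans_le (l1.trans l2)⟩)
      fun hx => ⟨(Mod.al_act_a1 hx).1, (Mod.al_act_a1 hx).2.trans_le l2⟩)
    (Mod.al_act_two _ _)
    (fun o _ => ⟨(M.vis_sub ((h.obj o).vis 0 (Nat.zero_le _))).1, l3.trans l2⟩)
    (fun p c => (al_one fun o ho o' ho' => h.uniq ht (ho.2.1.trans ho'.2.1.symm) ho.2.2.1 ho.2.2.2
      ho'.2.2.1 ho'.2.2.2).trans one_le_two)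
    (fun x hx => hx.elim (Mod.al_act_a3 hΛ) (Mod.al_act_a3 hΛt))
    (fun b hb => by
      obtain ⟨b1, b2, b3, b4, b5⟩ := key b hb
      obtain ⟨a1, a2, a3⟩ := hb
      refine ⟨Or.inl (Mod.al_act_mem (h.hit h.hk a1) a3), trivial,
        Or.inr (Mod.al_act_mem (h.hit ht a2) (mem_erase.2 ⟨b5, b4⟩)),
        ⟨b.2.1, _, b2, _, a1.1, b3, erase_right_comm, rfl, Mod.al_seg_arc hΛ b2, a1.2.2.1,
          h.seg h.hk hmt a1⟩,
        ⟨b.2.2.1, _, b4, _, a2.1, b5, ?_, rfl, Mod.al_seg_arc hΛt b4, a2.2.2.1,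
          h.seg ht le_rfl a2⟩⟩
      dsimp only
      rw [Mod.al_zcur a1, ← Mod.al_zcur a2, erase_right_comm])
    (fun o => by
      refine le_trans (Mod.al_on3 (M := M) (R := R) (op o, M.cnt R (op o) (oy o 0), Ms 0) _
        (fun a v _ x => a = M.arc R (3 * s * Ms 0) v x) ?_ fun _ _ _ _ _ a b => a.trans b.symm)
        (Nat.mul_le_mul_left _ l4)
      rintro _ ⟨b, hb, rfl, rfl⟩
      exact ⟨b.2.1, _, _, hb.1.1, hb.1.2.1, hb.1.2.2.1, Mod.al_zseg hb.1, (key b hb).2.1, rfl⟩)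
    (fun x => by
      refine Mod.al_on3 (M := M) (R := R) (x.1, x.2.1, 3 * s * Ms 0) _
        (fun o v _ w => M.Zone R (op o) (oy o 0) (Ms 0) v w) ?_
        fun _ _ _ _ _ a b => h.zuniq h.hk a b
      rintro _ ⟨b, hb, rfl, rfl⟩
      obtain ⟨b1, b2, -⟩ := key b hb
      exact ⟨b.2.1, _, _, b2, b1 b2, rfl, Mod.al_seg_arc hΛ b2, hb.1.1, hb.1⟩)
    (fun u => by
      refine Mod.al_mult (M := M) _ Prod.snd ?_ (M.cur u.2.1.1 ∪ M.cur (op u.2.2.1))
        (M.cur u.2.2.2.1 ∪ M.cur (op u.2.2.1)) ?_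
      · rintro b ⟨-, hb⟩ b' ⟨-, hb'⟩ e
        exact Prod.ext (congrArg (fun u => u.2.2.1) (hb.trans hb'.symm)) e
      rintro b ⟨hb, rfl⟩
      obtain ⟨b1, b2, b3, b4, b5⟩ := key b hb
      have e1 := Mod.al_cup b2 hb.1.1 b3
      have e2 := Mod.al_cup b4 hb.2.1.1 b5
      rw [hb.1.2.2.1] at e1
      rw [hb.2.1.2.2.1] at e2
      exact ⟨e1, e2, e1.subset hb.1.1, mem_union_right _ (e2.subset hb.2.1.1), e1.subset b2⟩)
  have k1 : (1 : ℝ) ≤ 1 + 6 * s ^ 2 * d ^ 3 * (3 * s * d) := le_add_of_nonneg_right (by positivity)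
  refine ⟨Pop, fun x F => ⟨(p1 x F).1, (p1 x F).2.trans ?_⟩, ?_⟩
  · refine le_trans (le_of_eq ?_) (mul_le_mul_of_nonneg_right (mul_le_mul_of_nonneg_right
      (mul_le_mul_of_nonneg_left k1 (by positivity)) (by positivity)) (by positivity))
    push_cast
    ring
  · simp only [Set.mem_ofPred_eq, and_assoc] at p2
    refine p2.trans ?_
    have k2 : ((M.al_Act R (Ms 0) ∪ M.al_Act R (Ms t)).ncard : ℝ) ≤
        (M.al_Act R (Ms 0)).ncard + (M.al_Act R (Ms t)).ncard := by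
      exact_mod_cast Set.ncard_union_le _ _
    have k3 : ((M.al_Act R (Ms 0) ∪ M.al_Act R (Ms t)).ncard : ℝ) + (Set.univ : Set O).ncard ≤
        3 * N := by linarith
    have k4 : 0 ≤ N := (Nat.cast_nonneg _).trans nO
    have k5 : (0 : ℝ) ≤ C * (3 * s * d) * N * Ms 0 * Ms t := by positivity
    refine (mul_le_mul_of_nonneg_right (mul_le_mul_of_nonneg_right
      (mul_le_mul_of_nonneg_left k3 (by positivity)) (by positivity)) (by positivity)).trans ?_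
    push_cast
    linarith

end CurK
end

-- merged part: Pool.Agent.Work.MP_8a5de9_co_K.ALD
section
/-! Theorem AL, fourth part: the set `U^0` is large. -/

namespace CurK

open Finset

theorem al_bU {α : Type} {S S' : Set α} (k : ℕ) (F : ℕ → Set α) (hS : S'.Finite)
    (hF : ∀ t < k, (F t).Finite) (h : ∀ x ∈ S, x ∈ S' ∨ ∃ t < k, x ∈ F t) :
    (S.ncard : ℝ) ≤ S'.ncard + ∑ t ∈ range k, ((F t).ncard : ℝ) := by
  have h1 : S.ncard ≤ (S' ∪ ⋃ t ∈ range k, F t).ncard := by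
    refine Set.ncard_le_ncard (fun x hx => (h x hx).imp_right fun ⟨t, ht, a⟩ => ?_)
      (hS.union ((range k).finite_toSet.biUnion fun t ht => hF t (mem_range.1 ht)))
    exact Set.mem_biUnion (mem_coe.2 (mem_range.2 ht)) a
  exact_mod_cast h1.trans ((Set.ncard_union_le _ _).trans
    (Nat.add_le_add_left (Finset.set_ncard_biUnion_le _ _) _))

namespace Mod

variable {d s : ℕ} {I P V : Type} [DecidableEq I] (M : Mod d s I P V) (R : Finset I)
  (Ms : ℕ → ℕ) {O : Type} (op : O → P) (oy : O → ℕ → ℕ)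
  (Pop : ℕ → P × ℕ × ℕ → Finset I → Set (P × ℕ × ℕ))

open Classical in
/-- The good patches of zone `t`. -/
noncomputable def al_ZZ (t : ℕ) (v : V) (w : I) : Finset I :=
  R.filter fun w' => ∃ o v', M.Zone R (op o) (oy o 0) (Ms 0) v w ∧
    M.Zone R (op o) (oy o t) (Ms t) v' w' ∧ ∀ x ∈ (M.tup v).erase w,
      M.arc R (3 * s * Ms t) v' x ∈
        Pop t (M.arc R (3 * s * Ms 0) v x) (((M.tup v).erase w).erase x)

/-- The set `U^0`. -/
def al_U (k T : ℕ) : Set (V × I) :=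
  {x | (∃ o, M.Zone R (op o) (oy o 0) (Ms 0) x.1 x.2) ∧
    ∀ t < k, Ms t ≤ (M.al_ZZ R Ms op oy Pop t x.1 x.2).card * T}

/-- Bad hits of a zone. -/
def al_bad (o : O) (t : ℕ) : Set ℕ :=
  {a | a < M.len (op o) ∧ M.hit (op o) a ∈ R ∧ M.cnt R (op o) (oy o t) ≤ M.cnt R (op o) a ∧
    M.cnt R (op o) a < M.cnt R (op o) (oy o t) + Ms t ∧
      ¬ ∃ v, ∃ i ∈ M.tup v, M.pc v i = op o ∧ M.ps v i = a}

/-- Bad paths of zone `t`. -/
def al_Bad (t : ℕ) : Set (O × V × V × I × I × I) :=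
  {b | M.Zone R (op b.1) (oy b.1 0) (Ms 0) b.2.1 b.2.2.2.1 ∧
    M.Zone R (op b.1) (oy b.1 t) (Ms t) b.2.2.1 b.2.2.2.2.1 ∧
    b.2.2.2.2.2 ∈ (M.tup b.2.1).erase b.2.2.2.1 ∧
    M.arc R (3 * s * Ms t) b.2.2.1 b.2.2.2.2.2 ∉
      Pop t (M.arc R (3 * s * Ms 0) b.2.1 b.2.2.2.2.2)
        (((M.tup b.2.1).erase b.2.2.2.1).erase b.2.2.2.2.2)}

variable {M R Ms op oy Pop} {k : ℕ} {oσ : O → Finset I}

theorem al_mem_ZZ {t : ℕ} {v : V} {w w' : I} : w' ∈ M.al_ZZ R Ms op oy Pop t v w ↔ w' ∈ R ∧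
    ∃ o v', M.Zone R (op o) (oy o 0) (Ms 0) v w ∧ M.Zone R (op o) (oy o t) (Ms t) v' w' ∧
      ∀ x ∈ (M.tup v).erase w, M.arc R (3 * s * Ms t) v' x ∈
        Pop t (M.arc R (3 * s * Ms 0) v x) (((M.tup v).erase w).erase x) := by
  classical
  exact mem_filter

theorem al_H.badobj [Finite P] (h : M.al_H R k Ms op oσ oy) {t : ℕ} (ht : t < k) :
    {o | Ms t < 2 * s * (M.al_bad R Ms op oy o t).ncard}.ncard * Ms 0 ≤
      2 * s ^ 2 * (R.card + 1) ^ (d - 1) := by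
  have fT : {x : P × ℕ | x.2 < M.len x.1 ∧ M.cur x.1 ⊆ R ∧ M.hit x.1 x.2 ∈ R ∧
      ¬ ∃ v, ∃ i ∈ M.tup v, M.pc v i = x.1 ∧ M.ps v i = x.2}.Finite :=
    (Set.finite_iUnion fun p => (Set.finite_lt_nat (M.len p)).image (Prod.mk p)).subset
      fun x hx => Set.mem_iUnion.2 ⟨x.1, x.2, hx.1, rfl⟩
  refine (al_dc _ fT (fun o x => x.1 = op o ∧ x.2 ∈ M.al_bad R Ms op oy o t) (c := 2 * s) (b := 1)
    (fun o ho => ?_) fun x _ => al_one ?_).trans ?_
  · refine ((h.ms t ht).1.trans ho.le).trans (Nat.mul_le_mul_left _ ?_)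
    refine Set.ncard_le_ncard_of_injOn (Prod.mk (op o)) (fun a ha => ?_)
      (fun _ _ _ _ e => congrArg Prod.snd e) (fT.subset fun _ h => h.1)
    exact ⟨⟨ha.1, (M.vis_sub ((h.obj o).vis 0 (Nat.zero_le _))).1, ha.2.1, ha.2.2.2.2⟩, rfl, ha⟩
  · rintro o ⟨-, a1, -, -, a2, a3, -⟩ o' ⟨-, b1, -, -, b2, b3, -⟩
    have e : op o = op o' := a1.symm.trans b1
    obtain ⟨c1, c2⟩ := h.win o ht le_rfl a2 a3
    obtain ⟨c3, c4⟩ := h.win o' ht le_rfl b2 b3
    rw [e] at c1 c2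
    exact h.uniq ht e (e ▸ c1) (e ▸ c2) c3 c4
  · exact (Nat.mul_le_mul_left _ (M.bad R)).trans (le_of_eq (by ring))

theorem al_H.bad_fin [Finite V] [Finite O] (h : M.al_H R k Ms op oσ oy) (t : ℕ) :
    (M.al_Bad R Ms op oy Pop t).Finite :=
  ((Set.finite_univ (α := O)).prod (al_fin5 (V := V) (R := R))).subset fun _ hb =>
    ⟨trivial, hb.1.2.1, hb.2.1.2.1,
      (al_hit_sub (h.hit h.hk hb.1)).2 (mem_of_mem_erase hb.2.2.1)⟩

theorem al_H.fail [Finite V] [Finite O] (h : M.al_H R k Ms op oσ oy) {t T : ℕ} (ht : t < k)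
    (hT : 4 * s ≤ T) :
    {x : O × V × I | 2 * s * (M.al_bad R Ms op oy x.1 t).ncard ≤ Ms t ∧
      M.Zone R (op x.1) (oy x.1 0) (Ms 0) x.2.1 x.2.2 ∧
      (M.al_ZZ R Ms op oy Pop t x.2.1 x.2.2).card * T < Ms t}.ncard * Ms t ≤
      4 * s * (M.al_Bad R Ms op oy Pop t).ncard := by
  refine (al_dc _ (h.bad_fin (Pop := Pop) t)
    (fun x b => b.1 = x.1 ∧ b.2.1 = x.2.1 ∧ b.2.2.2.1 = x.2.2) (c := 4 * s) (b := 1)
    ?_ fun b _ => al_one ?_).trans (by rw [mul_one])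
  · rintro ⟨o, v, w⟩ ⟨a1, a2, a3⟩
    dsimp only at *
    have c1 := M.zone_card R (op o) (oy o t) _ (Ms t) ((h.obj o).gap t ht)
    have fB := (h.bad_fin (Pop := Pop) t).subset
      (t := {b | b ∈ M.al_Bad R Ms op oy Pop t ∧ b.1 = o ∧ b.2.1 = v ∧ b.2.2.2.1 = w})
      fun _ h => h.1
    have c2 : {w | ∃ v, M.Zone R (op o) (oy o t) (Ms t) v w}.ncard ≤
        (M.al_ZZ R Ms op oy Pop t v w).card +
          {b | b ∈ M.al_Bad R Ms op oy Pop t ∧ b.1 = o ∧ b.2.1 = v ∧ b.2.2.2.1 = w}.ncard := by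
      refine le_trans (Set.ncard_le_ncard ?_ ((finite_toSet _).union
        (fB.image fun b => b.2.2.2.2.1))) ((Set.ncard_union_le _ _).trans
          (add_le_add (Set.ncard_coe_finset _).le (Set.ncard_image_le fB)))
      rintro w' ⟨v', hz⟩
      by_cases c : ∀ x ∈ (M.tup v).erase w, M.arc R (3 * s * Ms t) v' x ∈
        Pop t (M.arc R (3 * s * Ms 0) v x) (((M.tup v).erase w).erase x)
      · exact Or.inl (al_mem_ZZ.2 ⟨hz.2.1, o, v', a2, hz, c⟩)
      · simp only [not_forall] at c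
        obtain ⟨x, hx, c⟩ := c
        exact Or.inr ⟨(o, v, v', w, w', x), ⟨⟨a2, hz, hx, c⟩, rfl, rfl, rfl⟩, rfl⟩
    have c3 := Nat.mul_le_mul_left (M.al_ZZ R Ms op oy Pop t v w).card hT
    have c4 := Nat.mul_le_mul_left s c2
    change Ms t ≤ s * (_ + (M.al_bad R Ms op oy o t).ncard) at c1
    nlinarith
  · rintro x ⟨-, a1, a2, a3⟩ y ⟨-, b1, b2, b3⟩
    exact Prod.ext (a1.symm.trans b1) (Prod.ext (a2.symm.trans b2) (a3.symm.trans b3))

theorem al_finW [Finite V] [Finite O] : {x : O × V × I | x.2.2 ∈ M.tup x.2.1}.Finite :=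
  ((Set.finite_univ (α := O)).prod M.al_fin).subset fun _ h => ⟨trivial, h⟩

theorem al_H.low [Finite V] [Finite O] (h : M.al_H R k Ms op oσ oy) :
    {o | ∀ t < k, 2 * s * (M.al_bad R Ms op oy o t).ncard ≤ Ms t}.ncard * Ms 0 ≤
      2 * s * {x : O × V × I | (∀ t < k, 2 * s * (M.al_bad R Ms op oy x.1 t).ncard ≤ Ms t) ∧
        M.Zone R (op x.1) (oy x.1 0) (Ms 0) x.2.1 x.2.2}.ncard := by
  have fW := (al_finW (M := M) (O := O)).subset (t := {x : O × V × I |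
    (∀ t < k, 2 * s * (M.al_bad R Ms op oy x.1 t).ncard ≤ Ms t) ∧
      M.Zone R (op x.1) (oy x.1 0) (Ms 0) x.2.1 x.2.2}) fun _ h => h.2.1
  refine (al_dc _ fW (fun o x => x.1 = o) (c := 2 * s) (b := 1) (fun o ho => ?_)
    fun x _ => al_one fun o a o' b => a.2.symm.trans b.2).trans (by rw [mul_one])
  have c1 := M.zone_card R (op o) (oy o 0) _ (Ms 0) ((h.obj o).gap 0 h.hk)
  have c2 := ho 0 h.hk
  have fB := fW.subset (t := {x | x ∈ {x : O × V × I |
    (∀ t < k, 2 * s * (M.al_bad R Ms op oy x.1 t).ncard ≤ Ms t) ∧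
      M.Zone R (op x.1) (oy x.1 0) (Ms 0) x.2.1 x.2.2} ∧ x.1 = o}) fun _ h => h.1
  have c3 : {w | ∃ v, M.Zone R (op o) (oy o 0) (Ms 0) v w}.ncard ≤ _ :=
    le_trans (Set.ncard_le_ncard (by
      rintro w ⟨v, hz⟩
      exact ⟨(o, v, w), ⟨⟨ho, hz⟩, rfl⟩, rfl⟩) (fB.image fun x => x.2.2)) (Set.ncard_image_le fB)
  have c4 := Nat.mul_le_mul_left s c3
  change Ms 0 ≤ s * (_ + (M.al_bad R Ms op oy o 0).ncard) at c1
  nlinarith

theorem al_H.count [Finite P] [Finite V] [Finite O] (h : M.al_H R k Ms op oσ oy) {T : ℕ} {C N : ℝ}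
    (hT : 4 * s ≤ T) (hm : 8 * k * s ^ 2 * T ≤ Ms 0) (hC : 32 * k * s ^ 2 * C ≤ T)
    (hN : ((R.card : ℝ) + 1) ^ (d - 1) ≤ N) (hO : N ≤ (Set.univ : Set O).ncard * T)
    (hB : ∀ t < k, ((M.al_Bad R Ms op oy Pop t).ncard : ℝ) * (T : ℝ) ^ 7 ≤ C * N * Ms 0 * Ms t) :
    N * Ms 0 ≤ (M.al_U R Ms op oy Pop k T).ncard * (T : ℝ) ^ 2 := by
  have hs := h.hs
  have T1 : (1 : ℝ) ≤ T := by exact_mod_cast (show 1 ≤ T by omega)
  have T0 : (0 : ℝ) < T := by linarith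
  have s0 : (0 : ℝ) ≤ s := Nat.cast_nonneg _
  have N0 : 0 ≤ N := le_trans (by positivity) hN
  have m0 : (0 : ℝ) ≤ Ms 0 := Nat.cast_nonneg _
  have a1 := al_bU (S := (Set.univ : Set O))
    (S' := {o | ∀ t < k, 2 * s * (M.al_bad R Ms op oy o t).ncard ≤ Ms t}) k
    (fun t => {o | Ms t < 2 * s * (M.al_bad R Ms op oy o t).ncard}) (Set.toFinite _)
    (fun _ _ => Set.toFinite _) fun o _ => by
      by_contra c
      rw [not_or] at c
      exact c.1 fun t ht => not_lt.1 fun a => c.2 ⟨t, ht, a⟩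
  have a2 : (∑ t ∈ range k, ({o | Ms t < 2 * s * (M.al_bad R Ms op oy o t).ncard}.ncard : ℝ)) *
      Ms 0 ≤ k * (2 * s ^ 2 * N) := by
    rw [sum_mul]
    refine (sum_le_card_nsmul _ _ _ fun t ht => ?_).trans (by rw [card_range, nsmul_eq_mul])
    refine le_trans ?_ (mul_le_mul_of_nonneg_left hN (by positivity))
    exact_mod_cast h.badobj (mem_range.1 ht)
  have a3 := (Nat.cast_le (α := ℝ)).2 h.low
  have a4 := al_bU (S := {x : O × V × I |
      (∀ t < k, 2 * s * (M.al_bad R Ms op oy x.1 t).ncard ≤ Ms t) ∧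
        M.Zone R (op x.1) (oy x.1 0) (Ms 0) x.2.1 x.2.2})
    (S' := {x | M.Zone R (op x.1) (oy x.1 0) (Ms 0) x.2.1 x.2.2 ∧
      x.2 ∈ M.al_U R Ms op oy Pop k T}) k
    (fun t => {x : O × V × I | 2 * s * (M.al_bad R Ms op oy x.1 t).ncard ≤ Ms t ∧
      M.Zone R (op x.1) (oy x.1 0) (Ms 0) x.2.1 x.2.2 ∧
      (M.al_ZZ R Ms op oy Pop t x.2.1 x.2.2).card * T < Ms t})
    (al_finW.subset fun _ h => h.1.1) (fun _ _ => al_finW.subset fun _ h => h.2.1.1)
    fun x hx => by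
      by_contra c
      rw [not_or] at c
      exact c.1 ⟨hx.2, ⟨x.1, hx.2⟩, fun t ht => not_lt.1 fun a => c.2 ⟨t, ht, hx.1 t ht, hx.2, a⟩⟩
  have a5 : {x : O × V × I | M.Zone R (op x.1) (oy x.1 0) (Ms 0) x.2.1 x.2.2 ∧
      x.2 ∈ M.al_U R Ms op oy Pop k T}.ncard ≤ (M.al_U R Ms op oy Pop k T).ncard :=
    Set.ncard_le_ncard_of_injOn Prod.snd (fun _ hx => hx.2)
      (fun x hx y hy e => Prod.ext (h.zuniq h.hk hx.1 (e ▸ hy.1)) e)
      (al_fin.subset fun _ ⟨⟨_, hz⟩, _⟩ => hz.1)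
  have a6 : (∑ t ∈ range k, ({x : O × V × I | 2 * s * (M.al_bad R Ms op oy x.1 t).ncard ≤ Ms t ∧
      M.Zone R (op x.1) (oy x.1 0) (Ms 0) x.2.1 x.2.2 ∧
      (M.al_ZZ R Ms op oy Pop t x.2.1 x.2.2).card * T < Ms t}.ncard : ℝ)) * (T : ℝ) ^ 7 ≤
      k * (4 * s * (C * N * Ms 0)) := by
    rw [sum_mul]
    refine (sum_le_card_nsmul _ _ _ fun t ht => ?_).trans (by rw [card_range, nsmul_eq_mul])
    rw [mem_range] at ht
    have b1 := (Nat.cast_le (α := ℝ)).2 (h.fail (Pop := Pop) ht hT)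
    have b2 : (0 : ℝ) < Ms t := by exact_mod_cast h.pos.trans (h.ms t ht).1
    have b3 := mul_le_mul_of_nonneg_left (hB t ht) (show (0 : ℝ) ≤ 4 * s by positivity)
    have b4 := mul_le_mul_of_nonneg_right b1 (show (0 : ℝ) ≤ (T : ℝ) ^ 7 by positivity)
    push_cast at b4
    refine le_of_mul_le_mul_right ?_ b2
    linarith
  have a7 := (Nat.cast_le (α := ℝ)).2 a5
  have a8 := (Nat.cast_le (α := ℝ)).2 hm
  have a9 := (Nat.cast_le (α := ℝ)).2 hT
  push_cast at a3 a8 a9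
  generalize (∑ t ∈ range k, ({x : O × V × I | 2 * s * (M.al_bad R Ms op oy x.1 t).ncard ≤ Ms t ∧
      M.Zone R (op x.1) (oy x.1 0) (Ms 0) x.2.1 x.2.2 ∧
      (M.al_ZZ R Ms op oy Pop t x.2.1 x.2.2).card * T < Ms t}.ncard : ℝ)) = f at *
  have b1 : 8 * s * f * T ≤ N * Ms 0 := by
    have c1 := mul_le_mul_of_nonneg_right hC (mul_nonneg N0 m0)
    have c2 : (T : ℝ) * (N * Ms 0) ≤ (T : ℝ) ^ 6 * (N * Ms 0) :=
      mul_le_mul_of_nonneg_right (le_self_pow₀ T1 (by norm_num)) (mul_nonneg N0 m0)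
    have c3 := mul_le_mul_of_nonneg_left a6 (show (0 : ℝ) ≤ 8 * s by positivity)
    refine le_of_mul_le_mul_left ?_ (pow_pos T0 6)
    linarith
  have b2 := mul_le_mul_of_nonneg_right hO m0
  have b3 := mul_le_mul_of_nonneg_right a1 (mul_nonneg T0.le m0)
  have b4 := mul_le_mul_of_nonneg_right a2 T0.le
  have b5 := mul_le_mul_of_nonneg_right a3 T0.le
  have b6 := mul_le_mul_of_nonneg_right (a4.trans (add_le_add a7 le_rfl))
    (show (0 : ℝ) ≤ 2 * s * T by positivity)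
  have b7 := mul_le_mul_of_nonneg_right a8 N0
  have b8 := mul_le_mul_of_nonneg_right a9
    (show (0 : ℝ) ≤ (M.al_U R Ms op oy Pop k T).ncard * T by positivity)
  linarith

end Mod

end CurK
end

-- merged part: Pool.Agent.Work.MP_8a5de9_co_K.LW
section
/-! Lemma LW (paper 4.5) and the box lemma (4.7). -/

namespace CurK

/-- The link of a vertex in a family of finite sets. -/
def lw_link {I : Type} [DecidableEq I] (F : Finset (Finset I)) (x : I) : Finset (Finset I) :=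
  (F.filter (fun h => x ∈ h)).image (fun h => h.erase x)

theorem lw_link_card {I : Type} [DecidableEq I] (F : Finset (Finset I)) (x : I) :
    (lw_link F x).card = (F.filter (fun h => x ∈ h)).card := by
  unfold lw_link
  apply Finset.card_image_of_injOn
  intro a ha b hb hab
  have ha' : x ∈ a := (Finset.mem_filter.1 ha).2
  have hb' : x ∈ b := (Finset.mem_filter.1 hb).2
  have h1 : a.erase x = b.erase x := hab
  rw [← Finset.insert_erase ha', ← Finset.insert_erase hb', h1]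

theorem lw_link_rich {I : Type} [DecidableEq I] (F : Finset (Finset I)) (lam : ℝ) (x : I)
    (hP : ∀ h ∈ F, ∀ z ∈ h, lam ≤ ((F.filter (fun h' => h.erase z ⊆ h')).card : ℝ)) :
    ∀ g ∈ lw_link F x, ∀ z ∈ g,
      lam ≤ (((lw_link F x).filter (fun g' => g.erase z ⊆ g')).card : ℝ) := by
  intro g hg z hz
  obtain ⟨h, hh, rfl⟩ := Finset.mem_image.1 hg
  obtain ⟨hhF, hxh⟩ := Finset.mem_filter.1 hh
  have hzx : z ≠ x := (Finset.mem_erase.1 hz).1
  have hzh : z ∈ h := (Finset.mem_erase.1 hz).2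
  refine (hP h hhF z hzh).trans ?_
  have hx' : x ∈ h.erase z := Finset.mem_erase.2 ⟨hzx.symm, hxh⟩
  have key : (F.filter (fun h' => h.erase z ⊆ h')).card ≤
      ((lw_link F x).filter (fun g' => (h.erase x).erase z ⊆ g')).card := by
    apply Finset.card_le_card_of_injOn (fun h' => h'.erase x)
    · intro a ha
      obtain ⟨haF, hsub⟩ := Finset.mem_filter.1 (Finset.mem_coe.1 ha)
      refine Finset.mem_coe.2 (Finset.mem_filter.2 ⟨?_, ?_⟩)
      · exact Finset.mem_image.2 ⟨a, Finset.mem_filter.2 ⟨haF, hsub hx'⟩, rfl⟩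
      · intro y hy
        obtain ⟨hyz, hy2⟩ := Finset.mem_erase.1 hy
        obtain ⟨hyx, hyh⟩ := Finset.mem_erase.1 hy2
        exact Finset.mem_erase.2 ⟨hyx, hsub (Finset.mem_erase.2 ⟨hyz, hyh⟩)⟩
    · intro a ha b hb hab
      have ha' : x ∈ a := (Finset.mem_filter.1 (Finset.mem_coe.1 ha)).2 hx'
      have hb' : x ∈ b := (Finset.mem_filter.1 (Finset.mem_coe.1 hb)).2 hx'
      have h1 : a.erase x = b.erase x := hab
      rw [← Finset.insert_erase ha', ← Finset.insert_erase hb', h1]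
  exact_mod_cast key

theorem lw_link_size {I : Type} [DecidableEq I] (F : Finset (Finset I)) (i : ℕ) (x : I)
    (hF : ∀ h ∈ F, h.card = i + 1) : ∀ g ∈ lw_link F x, g.card = i := by
  intro g hg
  obtain ⟨h, hh, rfl⟩ := Finset.mem_image.1 hg
  obtain ⟨hhF, hxh⟩ := Finset.mem_filter.1 hh
  rw [Finset.card_erase_of_mem hxh, hF h hhF]
  rfl

/-- A nonempty family of `i`-sets in which every member of the shadow has at least `lam`
extensions has at least `lam ^ i / i!` members. -/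
theorem lw_rich {I : Type} [DecidableEq I] (lam : ℝ) (hl : 0 ≤ lam) (i : ℕ) :
    ∀ F : Finset (Finset I), F.Nonempty → (∀ h ∈ F, h.card = i) →
      (∀ h ∈ F, ∀ z ∈ h, lam ≤ ((F.filter (fun h' => h.erase z ⊆ h')).card : ℝ)) →
      lam ^ i ≤ i.factorial * F.card := by
  induction i with
  | zero =>
    intro F hne _ _
    have : 1 ≤ F.card := hne.card_pos
    simp only [pow_zero, Nat.factorial_zero, Nat.cast_one, one_mul]
    exact_mod_cast this
  | succ i ih =>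
    intro F hne hF hP
    set V : Finset I := F.biUnion id with hV
    have hsum : ∑ x ∈ V, (F.filter (fun h => x ∈ h)).card = (i + 1) * F.card := by
      have h1 : ∑ x ∈ V, (F.filter (fun h => x ∈ h)).card
          = ∑ h ∈ F, (V.filter (fun x => x ∈ h)).card := by
        simp only [Finset.card_filter]
        exact Finset.sum_comm
      rw [h1, Finset.sum_congr rfl (g := fun _ => i + 1)]
      · simp [mul_comm]
      · intro h hh
        rw [← hF h hh]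
        congr 1
        ext y
        simp only [Finset.mem_filter, hV, Finset.mem_biUnion, id]
        exact ⟨fun hy => hy.2, fun hy => ⟨⟨h, hh, hy⟩, hy⟩⟩
    have hVc : lam ≤ (V.card : ℝ) := by
      obtain ⟨h, hh⟩ := hne
      have hpos : 0 < h.card := by rw [hF h hh]; omega
      obtain ⟨z, hz⟩ := Finset.card_pos.1 hpos
      refine (hP h hh z hz).trans ?_
      have hsub : F.filter (fun h' => h.erase z ⊆ h') ⊆
          V.image (fun y => insert y (h.erase z)) := by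
        intro a ha
        obtain ⟨haF, hs⟩ := Finset.mem_filter.1 ha
        have hc : (h.erase z).card = i := by
          rw [Finset.card_erase_of_mem hz, hF h hh]; rfl
        have hlt : (h.erase z).card < a.card := by rw [hc, hF a haF]; omega
        obtain ⟨y, hya, hyn⟩ := Finset.exists_mem_notMem_of_card_lt_card hlt
        refine Finset.mem_image.2 ⟨y, Finset.mem_biUnion.2 ⟨a, haF, hya⟩, ?_⟩
        apply Finset.eq_of_subset_of_card_le
        · exact Finset.insert_subset hya hs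
        · rw [Finset.card_insert_of_notMem hyn, hc, hF a haF]
      have := (Finset.card_le_card hsub).trans Finset.card_image_le
      exact_mod_cast this
    have hlk : ∀ x ∈ V, lam ^ i ≤ i.factorial * ((F.filter (fun h => x ∈ h)).card : ℝ) := by
      intro x hx
      rw [← lw_link_card]
      apply ih _ _ (lw_link_size F i x hF) (lw_link_rich F lam x hP)
      obtain ⟨h, hh, hxh⟩ := Finset.mem_biUnion.1 hx
      exact ⟨h.erase x, Finset.mem_image.2 ⟨h, Finset.mem_filter.2 ⟨hh, hxh⟩, rfl⟩⟩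
    have h2 : (V.card : ℝ) * lam ^ i ≤
        i.factorial * ∑ x ∈ V, ((F.filter (fun h => x ∈ h)).card : ℝ) := by
      rw [Finset.mul_sum]
      have := Finset.card_nsmul_le_sum V _ _ hlk
      simpa [nsmul_eq_mul] using this
    have h3 : ∑ x ∈ V, ((F.filter (fun h => x ∈ h)).card : ℝ) = (i + 1) * F.card := by
      exact_mod_cast hsum
    rw [h3] at h2
    have h4 : lam ^ (i + 1) ≤ (V.card : ℝ) * lam ^ i := by
      rw [pow_succ, mul_comm]
      exact mul_le_mul_of_nonneg_right hVc (pow_nonneg hl i)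
    rw [Nat.factorial_succ]
    push_cast
    nlinarith [h2, h4]

/-- The shadow of a family of finite sets. -/
def lw_sh {I : Type} [DecidableEq I] (F : Finset (Finset I)) : Finset (Finset I) :=
  F.biUnion (fun h => h.image (fun x => h.erase x))

theorem lw_mem_sh {I : Type} [DecidableEq I] (F : Finset (Finset I)) (g : Finset I) :
    g ∈ lw_sh F ↔ ∃ h ∈ F, ∃ x ∈ h, h.erase x = g := by
  simp [lw_sh]

/-- Pruning: a family larger than `lam` times its shadow has a rich nonempty subfamily. -/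
theorem lw_prune {I : Type} [DecidableEq I] (lam : ℝ) (hl : 0 ≤ lam) (n : ℕ) :
    ∀ T : Finset (Finset I), T.card = n → lam * (lw_sh T).card < T.card →
      ∃ F ⊆ T, F.Nonempty ∧
        ∀ h ∈ F, ∀ z ∈ h, lam ≤ ((F.filter (fun h' => h.erase z ⊆ h')).card : ℝ) := by
  induction n using Nat.strong_induction_on with
  | _ n ih =>
    intro T hn hT
    by_cases hP : ∀ h ∈ T, ∀ z ∈ h, lam ≤ ((T.filter (fun h' => h.erase z ⊆ h')).card : ℝ)
    · refine ⟨T, subset_rfl, ?_, hP⟩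
      have h0 : (0 : ℝ) < T.card := lt_of_le_of_lt (by positivity) hT
      exact Finset.card_pos.1 (by exact_mod_cast h0)
    · push Not at hP
      obtain ⟨h, hh, z, hz, hlt⟩ := hP
      set T' := T.filter (fun h' => ¬ h.erase z ⊆ h') with hT'
      have hc : (T.filter (fun h' => h.erase z ⊆ h')).card + T'.card = T.card :=
        Finset.card_filter_add_card_filter_not _
      have hpos : 0 < (T.filter (fun h' => h.erase z ⊆ h')).card :=
        Finset.card_pos.2 ⟨h, Finset.mem_filter.2 ⟨hh, Finset.erase_subset _ _⟩⟩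
      have hsh : (lw_sh T').card + 1 ≤ (lw_sh T).card := by
        apply Finset.card_lt_card
        refine ⟨?_, ?_⟩
        · intro g hg
          obtain ⟨a, ha, x, hx, rfl⟩ := (lw_mem_sh _ _).1 hg
          exact (lw_mem_sh _ _).2 ⟨a, (Finset.mem_filter.1 ha).1, x, hx, rfl⟩
        · intro hsub
          have h1 : h.erase z ∈ lw_sh T' := hsub ((lw_mem_sh _ _).2 ⟨h, hh, z, hz, rfl⟩)
          obtain ⟨a, ha, x, _, hax⟩ := (lw_mem_sh _ _).1 h1
          apply (Finset.mem_filter.1 ha).2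
          rw [← hax]
          exact Finset.erase_subset _ _
      have hc' : ((T.filter (fun h' => h.erase z ⊆ h')).card : ℝ) + T'.card = T.card := by
        exact_mod_cast hc
      have hsh' : ((lw_sh T').card : ℝ) + 1 ≤ (lw_sh T).card := by exact_mod_cast hsh
      have hnew : lam * (lw_sh T').card < T'.card := by
        have := mul_le_mul_of_nonneg_left hsh' hl
        linarith
      obtain ⟨F, hF, hrest⟩ := ih T'.card (by omega) T' rfl hnew
      exact ⟨F, hF.trans (Finset.filter_subset _ _), hrest⟩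

theorem lw {I : Type} [DecidableEq I] (j : ℕ) (T G : Finset (Finset I)) (lam : ℝ) (hl : 0 ≤ lam)
    (hT : ∀ h ∈ T, h.card = j + 1) (hG : ∀ h ∈ T, ∀ x ∈ h, h.erase x ∈ G) :
    (T.card : ℝ) ≤ lam * G.card ∨ lam ^ j ≤ j.factorial * G.card := by
  by_cases h0 : (T.card : ℝ) ≤ lam * G.card
  · exact Or.inl h0
  right
  have hsh : lw_sh T ⊆ G := by
    intro g hg
    obtain ⟨a, ha, x, hx, rfl⟩ := (lw_mem_sh _ _).1 hg
    exact hG a ha x hx
  have hc : ((lw_sh T).card : ℝ) ≤ G.card := by exact_mod_cast Finset.card_le_card hsh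
  have hlt : lam * (lw_sh T).card < T.card :=
    lt_of_le_of_lt (mul_le_mul_of_nonneg_left hc hl) (not_le.1 h0)
  obtain ⟨F, hF, ⟨h, hh⟩, hP⟩ := lw_prune lam hl _ T rfl hlt
  have hFc : ∀ h ∈ F, h.card = j + 1 := fun a ha => hT a (hF ha)
  have hpos : 0 < h.card := by rw [hFc h hh]; omega
  obtain ⟨x, hx⟩ := Finset.card_pos.1 hpos
  have h1 := lw_rich lam hl j (lw_link F x)
    ⟨h.erase x, Finset.mem_image.2 ⟨h, Finset.mem_filter.2 ⟨hh, hx⟩, rfl⟩⟩
    (lw_link_size F j x hFc) (lw_link_rich F lam x hP)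
  have hsub : lw_link F x ⊆ G := by
    intro g hg
    obtain ⟨a, ha, rfl⟩ := Finset.mem_image.1 hg
    obtain ⟨haF, hxa⟩ := Finset.mem_filter.1 ha
    exact hG a (hF haF) x hxa
  have h2 : ((lw_link F x).card : ℝ) ≤ G.card := by exact_mod_cast Finset.card_le_card hsub
  exact h1.trans (mul_le_mul_of_nonneg_left h2 (by positivity))

/-- One step of the box lemma: `k` vertices with many common links. -/
theorem lw_step {I : Type} [DecidableEq I] (j k : ℕ) (L : Finset I) (H : Finset (Finset I))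
    (X : ℕ) (hX : 1 ≤ X) (hL0 : 0 < L.card) (hL : 4 * k * X ≤ L.card)
    (hH : ∀ h ∈ H, h ⊆ L ∧ h.card = j + 1) (hc : L.card ^ (j + 1) ≤ X * H.card) :
    ∃ (K : Finset I) (H' : Finset (Finset I)), K.card = k ∧ (∀ g ∈ H', g ⊆ L ∧ g.card = j) ∧
      L.card ^ j ≤ 2 * X * (4 * X) ^ k * H'.card ∧ ∀ g ∈ H', ∀ x ∈ K, insert x g ∈ H := by
  set n := L.card with hn
  set U : Finset (Finset I) := L.powersetCard j with hU
  set D : Finset I → Finset I := fun g => L.filter (fun x => insert x g ∈ H) with hD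
  have hUc : U.card ≤ n ^ j := by
    rw [hU, Finset.card_powersetCard]
    exact Nat.choose_le_pow _ _
  have hDn : ∀ g, (D g).card ≤ n := fun g => Finset.card_filter_le _ _
  have h1 : H.card ≤ ∑ g ∈ U, (D g).card := by
    have hsub : H ⊆ U.biUnion (fun g => (D g).image (fun x => insert x g)) := by
      intro h hh
      obtain ⟨hs, hcard⟩ := hH h hh
      have hpos : 0 < h.card := by omega
      obtain ⟨x, hx⟩ := Finset.card_pos.1 hpos
      refine Finset.mem_biUnion.2 ⟨h.erase x, ?_, ?_⟩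
      · refine Finset.mem_powersetCard.2 ⟨(Finset.erase_subset _ _).trans hs, ?_⟩
        rw [Finset.card_erase_of_mem hx, hcard]; rfl
      · refine Finset.mem_image.2 ⟨x, Finset.mem_filter.2 ⟨hs hx, ?_⟩, Finset.insert_erase hx⟩
        rw [Finset.insert_erase hx]; exact hh
    refine (Finset.card_le_card hsub).trans (Finset.card_biUnion_le.trans ?_)
    exact Finset.sum_le_sum (fun g _ => Finset.card_image_le)
  set U' := U.filter (fun g => n ≤ 2 * X * (D g).card) with hU'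
  have h2 : n ^ j ≤ 2 * X * U'.card := by
    have ha : 2 * X * ∑ g ∈ U, (D g).card ≤ 2 * X * n * U'.card + n * U.card := by
      rw [Finset.mul_sum]
      have hb : ∀ g ∈ U, 2 * X * (D g).card ≤
          (if n ≤ 2 * X * (D g).card then 2 * X * n else 0) + n := by
        intro g _
        split_ifs with hg
        · have := Nat.mul_le_mul_left (2 * X) (hDn g)
          omega
        · omega
      refine (Finset.sum_le_sum hb).trans (le_of_eq ?_)
      rw [Finset.sum_add_distrib, ← Finset.sum_filter, Finset.sum_const, Finset.sum_const,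
        smul_eq_mul, smul_eq_mul]
      ring
    have hb : 2 * n ^ (j + 1) ≤ 2 * X * ∑ g ∈ U, (D g).card := by
      have := Nat.mul_le_mul_left X h1
      nlinarith
    have hc2 : n * U.card ≤ n ^ (j + 1) := by
      rw [pow_succ, mul_comm]
      exact Nat.mul_le_mul_right n hUc
    have hd : n * n ^ j ≤ n * (2 * X * U'.card) := by
      have he : n * n ^ j = n ^ (j + 1) := by ring
      have hf : n * (2 * X * U'.card) = 2 * X * n * U'.card := by ring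
      omega
    exact Nat.le_of_mul_le_mul_left hd hL0
  have hkn : k ≤ n := by nlinarith
  set W : Finset (Finset I) := L.powersetCard k with hW
  have hWne : W.Nonempty := Finset.powersetCard_nonempty.2 hkn
  obtain ⟨K, hK, hmax⟩ := Finset.exists_max_image W
    (fun K => (U'.filter (fun g => K ⊆ D g)).card) hWne
  have h3 : ∑ g ∈ U', (D g).card.choose k = ∑ K ∈ W, (U'.filter (fun g => K ⊆ D g)).card := by
    have ha : ∑ K ∈ W, (U'.filter (fun g => K ⊆ D g)).card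
        = ∑ g ∈ U', (W.filter (fun K => K ⊆ D g)).card := by
      simp only [Finset.card_filter]
      exact Finset.sum_comm
    rw [ha]
    refine Finset.sum_congr rfl (fun g _ => ?_)
    rw [← Finset.card_powersetCard]
    congr 1
    ext K
    simp only [Finset.mem_filter, hW, Finset.mem_powersetCard]
    exact ⟨fun h => ⟨⟨h.1.trans (Finset.filter_subset _ _), h.2⟩, h.1⟩, fun h => ⟨h.2, h.1.2⟩⟩
  have h4 : ∑ K ∈ W, (U'.filter (fun g => K ⊆ D g)).card ≤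
      W.card * (U'.filter (fun g => K ⊆ D g)).card := by
    have := Finset.sum_le_card_nsmul W _ _ hmax
    simpa [smul_eq_mul] using this
  have h5 : k.factorial * W.card ≤ n ^ k := by
    rw [hW, Finset.card_powersetCard, ← Nat.descFactorial_eq_factorial_mul_choose]
    exact Nat.descFactorial_le_pow _ _
  have h6 : ∀ g ∈ U', n ^ k ≤ (4 * X) ^ k * (k.factorial * (D g).card.choose k) := by
    intro g hg
    have hg2 : n ≤ 2 * X * (D g).card := (Finset.mem_filter.1 hg).2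
    have hd : k ≤ (D g).card := by
      by_contra hlt
      have hlt' : (D g).card ≤ k := by omega
      have := Nat.mul_le_mul_left (2 * X) hlt'
      have hz : (D g).card + 1 ≤ k := by omega
      have := Nat.mul_le_mul_left (2 * X) hz
      nlinarith
    obtain ⟨e, he⟩ := Nat.exists_eq_add_of_le hd
    have ha : n ≤ 4 * X * ((D g).card + 1 - k) := by
      have hb : (D g).card + 1 - k = e + 1 := by omega
      rw [hb]
      rw [he] at hg2
      nlinarith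
    rw [← Nat.descFactorial_eq_factorial_mul_choose]
    calc n ^ k ≤ (4 * X * ((D g).card + 1 - k)) ^ k := Nat.pow_le_pow_left ha k
      _ = (4 * X) ^ k * ((D g).card + 1 - k) ^ k := mul_pow _ _ _
      _ ≤ _ := Nat.mul_le_mul_left _ (Nat.pow_sub_le_descFactorial _ _)
  have h7 : U'.card * n ^ k ≤ (4 * X) ^ k * (k.factorial * ∑ g ∈ U', (D g).card.choose k) := by
    rw [Finset.mul_sum, Finset.mul_sum]
    have := Finset.card_nsmul_le_sum U' _ _ h6
    simpa [smul_eq_mul] using this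
  have h8 : U'.card ≤ (4 * X) ^ k * (U'.filter (fun g => K ⊆ D g)).card := by
    have ha : k.factorial * ∑ g ∈ U', (D g).card.choose k ≤
        n ^ k * (U'.filter (fun g => K ⊆ D g)).card := by
      rw [h3]
      calc _ ≤ k.factorial * (W.card * (U'.filter (fun g => K ⊆ D g)).card) :=
            Nat.mul_le_mul_left _ h4
        _ = k.factorial * W.card * (U'.filter (fun g => K ⊆ D g)).card := by ring
        _ ≤ _ := Nat.mul_le_mul_right _ h5
    have hb : n ^ k * U'.card ≤ n ^ k * ((4 * X) ^ k * (U'.filter (fun g => K ⊆ D g)).card) := by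
      calc n ^ k * U'.card = U'.card * n ^ k := by ring
        _ ≤ _ := h7
        _ ≤ (4 * X) ^ k * (n ^ k * (U'.filter (fun g => K ⊆ D g)).card) :=
            Nat.mul_le_mul_left _ ha
        _ = _ := by ring
    exact Nat.le_of_mul_le_mul_left hb (pow_pos hL0 k)
  refine ⟨K, U'.filter (fun g => K ⊆ D g), (Finset.mem_powersetCard.1 hK).2, ?_, ?_, ?_⟩
  · intro g hg
    exact Finset.mem_powersetCard.1 (Finset.mem_filter.1 (Finset.mem_filter.1 hg).1).1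
  · calc n ^ j ≤ 2 * X * U'.card := h2
      _ ≤ 2 * X * ((4 * X) ^ k * (U'.filter (fun g => K ⊆ D g)).card) :=
          Nat.mul_le_mul_left _ h8
      _ = _ := by ring
  · intro g hg x hx
    exact (Finset.mem_filter.1 ((Finset.mem_filter.1 hg).2 hx)).2

/-- The box lemma without the disjointness clause. -/
theorem lw_box (j k : ℕ) : ∃ E X0 : ℕ, ∀ {I : Type} [DecidableEq I] (L : Finset I)
    (H : Finset (Finset I)) (X : ℕ), X0 ≤ X → X ^ E ≤ L.card → (∀ h ∈ H, h ⊆ L ∧ h.card = j) →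
    L.card ^ j ≤ X * H.card → ∃ A : Fin j → Finset I, (∀ i, (A i).card = k) ∧
      ∀ f : Fin j → I, (∀ i, f i ∈ A i) → Finset.univ.image f ∈ H := by
  induction j with
  | zero =>
    refine ⟨0, 0, ?_⟩
    intro I _ L H X _ _ hH hc
    refine ⟨fun i => i.elim0, fun i => i.elim0, ?_⟩
    intro f _
    have hpos : 0 < H.card := by
      rcases Nat.eq_zero_or_pos H.card with h | h
      · rw [h] at hc; simp at hc
      · exact h
    obtain ⟨h, hh⟩ := Finset.card_pos.1 hpos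
    have h0 : h = ∅ := Finset.card_eq_zero.1 (hH h hh).2
    have h1 : Finset.univ.image f = ∅ := by simp
    rw [h1, ← h0]
    exact hh
  | succ j ih =>
    obtain ⟨E, X0, ih⟩ := ih
    refine ⟨(k + 2) * E + 2, X0 + 2 * 4 ^ k + 4 * k, ?_⟩
    intro I _ L H X hX hE hH hc
    have h4 : 0 < 4 ^ k := by positivity
    have hX1 : 1 ≤ X := by omega
    have hA : X ^ 2 ≤ L.card := (Nat.pow_le_pow_right hX1 (by omega)).trans hE
    have hB : (X ^ (k + 2)) ^ E ≤ L.card := by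
      rw [← pow_mul]
      exact (Nat.pow_le_pow_right hX1 (by omega)).trans hE
    have hL : 4 * k * X ≤ L.card := by
      have : 4 * k * X ≤ X * X := Nat.mul_le_mul_right X (by omega)
      nlinarith
    have hL0 : 0 < L.card := lt_of_lt_of_le (pow_pos hX1 2) hA
    obtain ⟨K, H', hK, hH', hc', hins⟩ := lw_step j k L H X hX1 hL0 hL hH hc
    have hXX : 2 * X * (4 * X) ^ k ≤ X ^ (k + 2) := by
      calc 2 * X * (4 * X) ^ k = (2 * 4 ^ k) * (X * X ^ k) := by ring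
        _ ≤ X * (X * X ^ k) := Nat.mul_le_mul_right _ (by omega)
        _ = X ^ (k + 2) := by ring
    have hX0 : X0 ≤ X ^ (k + 2) := by
      have : X ^ 1 ≤ X ^ (k + 2) := Nat.pow_le_pow_right hX1 (by omega)
      rw [pow_one] at this
      omega
    obtain ⟨A, hA1, hA2⟩ := ih L H' (X ^ (k + 2)) hX0 hB hH'
      (hc'.trans (Nat.mul_le_mul_right _ hXX))
    refine ⟨Fin.cons K A, ?_, ?_⟩
    · intro i
      refine Fin.cases ?_ (fun i => ?_) i
      · simpa using hK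
      · simpa using hA1 i
    · intro f hf
      have h0 : f 0 ∈ K := by simpa using hf 0
      have h1 : Finset.univ.image (fun i : Fin j => f i.succ) ∈ H' :=
        hA2 _ (fun i => by simpa using hf i.succ)
      have h2 : Finset.univ.image f =
          insert (f 0) (Finset.univ.image (fun i : Fin j => f i.succ)) := by
        ext y
        simp only [Finset.mem_image, Finset.mem_univ, true_and, Finset.mem_insert,
          Fin.exists_fin_succ]
        exact ⟨fun h => h.imp Eq.symm id, fun h => h.imp Eq.symm id⟩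
      rw [h2]
      exact hins _ h1 _ h0

theorem box (j k : ℕ) : ∃ E X0 : ℕ, ∀ {I : Type} [DecidableEq I] (L : Finset I)
    (H : Finset (Finset I)) (X : ℕ), X0 ≤ X → X ^ E ≤ L.card → (∀ h ∈ H, h ⊆ L ∧ h.card = j) →
    L.card ^ j ≤ X * H.card → ∃ A : Fin j → Finset I, (∀ i, (A i).card = k) ∧
      (∀ i i', i ≠ i' → Disjoint (A i) (A i')) ∧
      ∀ f : Fin j → I, (∀ i, f i ∈ A i) → Finset.univ.image f ∈ H := by
  obtain ⟨E, X0, h⟩ := lw_box j k
  refine ⟨E, X0, ?_⟩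
  intro I _ L H X hX hE hH hc
  obtain ⟨A, hA1, hA2⟩ := h L H X hX hE hH hc
  refine ⟨A, hA1, ?_, hA2⟩
  intro i i' hii
  rw [Finset.disjoint_left]
  intro x hx hx'
  have hk : 0 < k := by
    rw [← hA1 i]
    exact Finset.card_pos.2 ⟨x, hx⟩
  have hne : ∀ l, ∃ y, y ∈ A l := fun l => Finset.card_pos.1 (by rw [hA1 l]; exact hk)
  choose a ha using hne
  set f : Fin j → I := fun l => if l = i ∨ l = i' then x else a l with hf
  have hfA : ∀ l, f l ∈ A l := by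
    intro l
    by_cases hl : l = i ∨ l = i'
    · have h1 : f l = x := if_pos hl
      rw [h1]
      rcases hl with rfl | rfl
      · exact hx
      · exact hx'
    · have h1 : f l = a l := if_neg hl
      rw [h1]
      exact ha l
  have hcard : (Finset.univ.image f).card = (Finset.univ : Finset (Fin j)).card := by
    rw [(hH _ (hA2 f hfA)).2]
    simp
  have hinj := Finset.injOn_of_card_image_eq hcard
  apply hii
  apply hinj (Finset.mem_coe.2 (Finset.mem_univ _)) (Finset.mem_coe.2 (Finset.mem_univ _))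
  have h1 : f i = x := if_pos (Or.inl rfl)
  have h2 : f i' = x := if_pos (Or.inr rfl)
  rw [h1, h2]

end CurK
end

-- merged part: Pool.Agent.Work.MP_8a5de9_co_K.Stage
section
/-! Cleaning rounds and stages (paper 4.4 from `U^{i+1}` on, and 4.6), abstract form.
Partners: at least `m / T ^ 3` per arc. -/

namespace CurK

open Finset

theorem st_fib {α β : Type} [DecidableEq β] (s : Finset α) (t : Finset β) (f : α → β) (m c : ℕ)
    (h : ∀ b ∈ t, m ≤ (s.filter fun a => f a = b).card * c) : t.card * m ≤ s.card * c := by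
  have h1 := card_nsmul_le_sum t _ m h
  rw [← sum_mul, sum_card_fiberwise_eq_card_filter, smul_eq_mul] at h1
  exact h1.trans (Nat.mul_le_mul_right _ (card_filter_le _ _))

theorem st_lw {I : Type} [DecidableEq I] (j m c : ℕ) (hc : 0 < c) (T G : Finset (Finset I))
    (hT : ∀ h ∈ T, h.card = j + 1) (hG : ∀ h ∈ T, ∀ x ∈ h, h.erase x ∈ G) :
    T.card * c ≤ m * G.card ∨ m ^ j ≤ j.factorial * G.card * c ^ j := by
  have c0 : (0 : ℝ) < c := by exact_mod_cast hc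
  rcases lw j T G ((m : ℝ) / c) (by positivity) hT hG with h | h
  · left
    rw [div_mul_eq_mul_div, le_div_iff₀ c0] at h
    exact_mod_cast h
  · right
    rw [div_pow, div_le_iff₀ (by positivity)] at h
    exact_mod_cast h

section
variable {I V Ar : Type} [DecidableEq I] [DecidableEq V] [DecidableEq Ar] [Fintype V]
  (tup : V → Finset I) (arc : V → I → Ar) (Pop : Ar → Finset I → Finset Ar) (T m : ℕ)

/-- vertices on the arc `J` -/
def st_on (W : Finset (V × I)) (J : Ar) (w : I) : Finset V :=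
  univ.filter fun v' => (v', w) ∈ W ∧ ∃ e' ∈ tup v', arc v' e' = J

/-- partners -/
def st_pa (W : Finset (V × I)) (v : V) (w e : I) : Finset V :=
  (st_on tup arc W (arc v e) w).filter fun v' => ∀ x ∈ ((tup v).erase w).erase e,
    arc v' x ∈ Pop (arc v x) (((tup v).erase e).erase x)

/-- one cleaning round -/
def st_next (W : Finset (V × I)) : Finset (V × I) :=
  W.filter fun z => ∀ e ∈ (tup z.1).erase z.2, m ≤ (st_pa tup arc Pop W z.1 z.2 e).card * T ^ 3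

/-- the invariant -/
def st_Inv (d : ℕ) (W : Finset (V × I)) (j E : ℕ) : Prop :=
  ∃ (w : I) (Φ L : Finset I) (S : Finset V) (Us : Finset Ar), w ∈ Φ ∧ Φ.card + (j + 1) = d ∧
    (∀ v ∈ S, (v, w) ∈ W ∧ Φ ⊆ tup v ∧ tup v ⊆ Φ ∪ L ∧ ∀ x ∈ tup v \ Φ, arc v x ∈ Us) ∧
    L.card ≤ m * T ^ E ∧ m ^ (j + 1) ≤ S.card * T ^ E ∧ Us.card ≤ m ^ j * T ^ E

variable {tup arc Pop T m} {curA : Ar → Finset I} {d s a : ℕ}

theorem st_mem_on {W : Finset (V × I)} {J : Ar} {w : I} {v' : V} :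
    v' ∈ st_on tup arc W J w ↔ (v', w) ∈ W ∧ ∃ e' ∈ tup v', arc v' e' = J := by
  simp only [st_on, mem_filter, mem_univ, true_and]

theorem st_loss (hT : 1 ≤ T) (hd : ∀ v, (tup v).card = d)
    (hc : ∀ v, ∀ e ∈ tup v, curA (arc v e) = (tup v).erase e) (W : Finset (V × I))
    (hW : ∀ z ∈ W, z.2 ∈ tup z.1) (Act : Finset Ar)
    (hA : ∀ z ∈ W, ∀ e ∈ (tup z.1).erase z.2, arc z.1 e ∈ Act) (Bad : Finset (V × V × I × I × I))
    (hB : ∀ v v' w e x, (v, w) ∈ W → (v', w) ∈ W → e ∈ (tup v).erase w →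
      (∃ e' ∈ tup v', arc v' e' = arc v e) → x ∈ ((tup v).erase w).erase e →
      arc v' x ∉ Pop (arc v x) (((tup v).erase e).erase x) → (v, v', w, e, x) ∈ Bad) :
    ∃ cA cB : ℕ, W.card ≤ (st_next tup arc Pop T m W).card + cA + cB ∧
      cA * T ^ 3 ≤ 2 * m * (Act.card * d) ∧ cB * m ≤ Bad.card * T ^ 3 := by
  obtain ⟨D, hD⟩ : ∃ D, D = W.filter fun z => ¬ ∀ e ∈ (tup z.1).erase z.2,
    m ≤ (st_pa tup arc Pop W z.1 z.2 e).card * T ^ 3 := ⟨_, rfl⟩
  have h1 : (st_next tup arc Pop T m W).card + D.card = W.card := by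
    rw [hD]
    exact card_filter_add_card_filter_not _
  have h2 : ∀ z : V × I, ∃ e, z ∈ D → z ∈ W ∧ e ∈ (tup z.1).erase z.2 ∧
      (st_pa tup arc Pop W z.1 z.2 e).card * T ^ 3 < m := by
    intro z
    by_cases hz : z ∈ D
    · rw [hD, mem_filter] at hz
      obtain ⟨e, he⟩ := not_forall.1 hz.2
      obtain ⟨e1, e2⟩ := Classical.not_imp.1 he
      exact ⟨e, fun _ => ⟨hz.1, e1, not_le.1 e2⟩⟩
    · exact ⟨z.2, fun h => absurd h hz⟩
  choose e he using h2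
  have h3 := card_filter_add_card_filter_not (s := D)
    fun z => (st_on tup arc W (arc z.1 (e z)) z.2).card * T ^ 3 ≤ 2 * m
  refine ⟨_, _, by rw [add_assoc, h3, h1], ?_, ?_⟩
  · have k := card_le_mul_card_image_of_maps_to (f := fun z : V × I => (arc z.1 (e z), z.2))
      (s := D.filter fun z => (st_on tup arc W (arc z.1 (e z)) z.2).card * T ^ 3 ≤ 2 * m)
      (t := (Act.filter fun J => (curA J).card ≤ d).biUnion fun J => (curA J).image (Prod.mk J))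
      (fun z hz => by
        obtain ⟨z1, z2, -⟩ := he z (mem_filter.1 hz).1
        have z3 := hc z.1 _ (mem_of_mem_erase z2)
        refine mem_biUnion.2 ⟨_, mem_filter.2 ⟨hA z z1 _ z2, ?_⟩, mem_image_of_mem _ ?_⟩
        · rw [z3, ← hd z.1]
          exact card_erase_le
        · rw [z3]
          exact mem_erase.2 ⟨(mem_erase.1 z2).1.symm, hW z z1⟩)
      (2 * m / T ^ 3) fun b _ => ?_
    · have k2 : ((Act.filter fun J => (curA J).card ≤ d).biUnion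
          fun J => (curA J).image (Prod.mk J)).card ≤ Act.card * d :=
        (card_biUnion_le_card_mul _ _ d fun J hJ => card_image_le.trans (mem_filter.1 hJ).2).trans
          (Nat.mul_le_mul_right _ (card_filter_le _ _))
      calc _ ≤ 2 * m / T ^ 3 * (Act.card * d) * T ^ 3 :=
            Nat.mul_le_mul_right _ (k.trans (Nat.mul_le_mul_left _ k2))
        _ = 2 * m / T ^ 3 * T ^ 3 * (Act.card * d) := by ring
        _ ≤ _ := Nat.mul_le_mul_right _ (Nat.div_mul_le_self _ _)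
    · have h0 : 0 < T ^ 3 := Nat.pow_pos hT
      rcases (filter (fun z : V × I => (arc z.1 (e z), z.2) = b) (D.filter fun z =>
        (st_on tup arc W (arc z.1 (e z)) z.2).card * T ^ 3 ≤ 2 * m)).eq_empty_or_nonempty with
        k | ⟨z0, k⟩
      · rw [k]
        exact Nat.zero_le _
      obtain ⟨k1, rfl⟩ := mem_filter.1 k
      refine le_trans (card_le_card_of_injOn Prod.fst (fun z hz => ?_) fun z hz z' hz' h => ?_)
        ((Nat.le_div_iff_mul_le h0).2 (mem_filter.1 k1).2)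
      · obtain ⟨z1, z2⟩ := mem_filter.1 (mem_coe.1 hz)
        obtain ⟨z3, z4, -⟩ := he z (mem_filter.1 z1).1
        obtain ⟨z5, z6⟩ := Prod.mk.inj z2
        exact mem_coe.2 (st_mem_on.2 ⟨z6 ▸ z3, _, mem_of_mem_erase z4, z5⟩)
      · exact Prod.ext h ((Prod.mk.inj (mem_filter.1 (mem_coe.1 hz)).2).2.trans
          (Prod.mk.inj (mem_filter.1 (mem_coe.1 hz')).2).2.symm)
  · refine st_fib Bad _ (fun y => (y.1, y.2.2.1)) m (T ^ 3) fun z hz => ?_
    obtain ⟨z0, z1⟩ := mem_filter.1 hz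
    obtain ⟨z2, z3, z4⟩ := he z z0
    have k1 := card_filter_add_card_filter_not (s := st_on tup arc W (arc z.1 (e z)) z.2)
      fun v' => ∀ x ∈ ((tup z.1).erase z.2).erase (e z),
        arc v' x ∈ Pop (arc z.1 x) (((tup z.1).erase (e z)).erase x)
    have k2 : ((st_on tup arc W (arc z.1 (e z)) z.2).filter
        fun v' => ¬ ∀ x ∈ ((tup z.1).erase z.2).erase (e z),
          arc v' x ∈ Pop (arc z.1 x) (((tup z.1).erase (e z)).erase x)).card ≤
        (Bad.filter fun y => (y.1, y.2.2.1) = z).card := by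
      refine le_trans (card_le_card fun v' hv' => ?_) (card_image_le (f := fun y => y.2.1))
      obtain ⟨v1, v2⟩ := mem_filter.1 hv'
      obtain ⟨x, hx⟩ := not_forall.1 v2
      obtain ⟨x1, x2⟩ := Classical.not_imp.1 hx
      obtain ⟨v3, v4⟩ := st_mem_on.1 v1
      exact mem_image.2 ⟨(z.1, v', z.2, e z, x),
        mem_filter.2 ⟨hB _ _ _ _ _ z2 v3 z3 v4 x1 x2, rfl⟩, rfl⟩
    have k3 := Nat.mul_le_mul_right (T ^ 3) k2
    rw [← k1, add_mul] at z1
    unfold st_pa at z4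
    omega

theorem st_base (hd2 : 2 ≤ d) (hd : ∀ v, (tup v).card = d)
    (hc : ∀ v, ∀ e ∈ tup v, curA (arc v e) = (tup v).erase e) (W : Finset (V × I))
    (hW : ∀ z ∈ W, z.2 ∈ tup z.1) (hJ : ∀ J w, (st_on tup arc W J w).card ≤ m * T) (hT : 1 ≤ T)
    (hne : (st_next tup arc Pop T m W).Nonempty) : st_Inv tup arc T m d W 0 3 := by
  obtain ⟨⟨v, w⟩, hz⟩ := hne
  obtain ⟨z1, z2⟩ := mem_filter.1 hz
  have z3 := hW _ z1
  obtain ⟨e, he⟩ : ((tup v).erase w).Nonempty := by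
    rw [← card_pos, card_erase_of_mem z3, hd]
    omega
  have e1 := mem_of_mem_erase he
  have k : ∀ v' ∈ st_pa tup arc Pop W v w e, (v', w) ∈ W ∧ ∃ e' ∈ tup v', arc v' e' = arc v e ∧
      (tup v').erase e' = (tup v).erase e ∧ tup v' \ (tup v).erase e = {e'} := fun v' hv' => by
    obtain ⟨v1, e', v2, v3⟩ := st_mem_on.1 (mem_filter.1 hv').1
    have v4 : (tup v').erase e' = (tup v).erase e := by rw [← hc _ _ v2, v3, hc _ _ e1]
    exact ⟨v1, e', v2, v3, v4, by rw [← v4, sdiff_erase_self v2]⟩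
  refine ⟨w, (tup v).erase e, (st_pa tup arc Pop W v w e).biUnion fun v' => tup v' \ (tup v).erase e,
    st_pa tup arc Pop W v w e, {arc v e}, mem_erase.2 ⟨(mem_erase.1 he).1.symm, z3⟩, ?_,
    fun v' hv' => ?_, ?_, ?_, ?_⟩
  · rw [card_erase_of_mem e1, hd]
    omega
  · obtain ⟨v1, e', v2, v3, v4, v5⟩ := k v' hv'
    refine ⟨v1, v4 ▸ erase_subset _ _, fun x hx => ?_, fun x hx => ?_⟩
    · by_cases h : x ∈ (tup v).erase e
      · exact mem_union_left _ h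
      · exact mem_union_right _ (mem_biUnion.2 ⟨v', hv', mem_sdiff.2 ⟨hx, h⟩⟩)
    · rw [v5, mem_singleton] at hx
      rw [hx, v3]
      exact mem_singleton_self _
  · refine (card_biUnion_le_card_mul _ _ 1 fun v' hv' => ?_).trans ?_
    · obtain ⟨-, e', -, -, -, v5⟩ := k v' hv'
      rw [v5, card_singleton]
    · rw [mul_one]
      exact ((card_filter_le _ _).trans (hJ _ _)).trans
        (Nat.mul_le_mul_left _ (Nat.le_self_pow (by norm_num) T))
  · rw [zero_add, pow_one]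
    exact z2 e he
  · rw [card_singleton, pow_zero, one_mul]
    exact Nat.one_le_pow _ _ hT

theorem st_num {T m s d j E a nS nJ nP nB nG nS' nL nL' nU nQ nU' : ℕ} (hm : 0 < m) (t1 : 2 ≤ T)
    (t2 : j.factorial ≤ T) (t3 : 2 * s ^ 2 ≤ T) (t4 : 2 * d * s ≤ T) (t5 : s ≤ T)
    (hL : nL ≤ m * T ^ E) (hS : m ^ (j + 1) ≤ nS * T ^ E) (hU : nU ≤ m ^ j * T ^ E)
    (a1 : nS ≤ s * nJ) (a2 : nJ ≤ s * nL ^ (j + 1)) (a3 : nJ * m ≤ nP * T ^ 3)
    (a4 : nQ ≤ nU * (m * T ^ a)) (a5 : nB * T ^ (2 * E + a + 4) ≤ s * (m * nQ))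
    (a6 : nP ≤ nG + nB) (a7 : nG ≤ d * nS')
    (a8 : nL' * m ^ j ≤ j.factorial * nQ * (T ^ (2 * E + a + 4)) ^ j) (a9 : nU' ≤ nJ + nQ) :
    nL + nL' ≤ m * T ^ ((j + 2) * (3 * E + 2 * a + 6)) ∧
      m ^ (j + 1 + 1) ≤ nS' * T ^ ((j + 2) * (3 * E + 2 * a + 6)) ∧
      nU' ≤ m ^ (j + 1) * T ^ ((j + 2) * (3 * E + 2 * a + 6)) := by
  have t0 : 0 < T := by omega
  have x1 : (j + 2) * (3 * E + 2 * a + 6) =
      (2 * E + a + 4) * j + (E * j + (a + 2) * j + (6 * E + 4 * a + 12)) := by ring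
  have x2 : E * (j + 1) = E * j + E := mul_add_one E j
  have mono : ∀ {x y : ℕ}, x ≤ y → T ^ x ≤ T ^ y := fun h => Nat.pow_le_pow_right t0 h
  have two : ∀ {c x y z : ℕ}, x ≤ c * T ^ z → y ≤ c * T ^ z → x + y ≤ c * T ^ (z + 1) := by
    intro c x y z h1 h2
    have := Nat.mul_le_mul_left (c * T ^ z) t1
    rw [pow_succ, ← mul_assoc]
    omega
  have q1 : nQ ≤ m ^ (j + 1) * T ^ (E + a) :=
    (a4.trans (Nat.mul_le_mul_right _ hU)).trans_eq (by ring)
  have p1 : m ^ (j + 1 + 1) ≤ s * nP * T ^ (E + 3) := by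
    calc m ^ (j + 1 + 1) = m ^ (j + 1) * m := pow_succ _ _
      _ ≤ s * nJ * T ^ E * m :=
        Nat.mul_le_mul_right _ (hS.trans (Nat.mul_le_mul_right _ a1))
      _ = s * T ^ E * (nJ * m) := by ring
      _ ≤ s * T ^ E * (nP * T ^ 3) := Nat.mul_le_mul_left _ a3
      _ = _ := by ring
  have p2 : 2 * nB ≤ nP := by
    refine Nat.le_of_mul_le_mul_right ?_ (Nat.pow_pos (n := 2 * E + a + 4) t0)
    calc 2 * nB * T ^ (2 * E + a + 4) = 2 * (nB * T ^ (2 * E + a + 4)) := mul_assoc _ _ _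
      _ ≤ 2 * (s * (m * (m ^ (j + 1) * T ^ (E + a)))) := Nat.mul_le_mul_left _
        (a5.trans (Nat.mul_le_mul_left _ (Nat.mul_le_mul_left _ q1)))
      _ = 2 * s * T ^ (E + a) * m ^ (j + 1 + 1) := by ring
      _ ≤ 2 * s * T ^ (E + a) * (s * nP * T ^ (E + 3)) := Nat.mul_le_mul_left _ p1
      _ = 2 * s ^ 2 * (nP * T ^ (2 * E + a + 3)) := by ring
      _ ≤ T * (nP * T ^ (2 * E + a + 3)) := Nat.mul_le_mul_right _ t3
      _ = _ := by ring
  refine ⟨?_, ?_, ?_⟩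
  · have b1 : nL' ≤ m * T ^ (E + a + (2 * E + a + 4) * j + 1) := by
      refine Nat.le_of_mul_le_mul_right (a8.trans ?_) (Nat.pow_pos (n := j) hm)
      calc _ ≤ T * (m ^ (j + 1) * T ^ (E + a)) * (T ^ (2 * E + a + 4)) ^ j :=
            Nat.mul_le_mul_right _ (Nat.mul_le_mul t2 q1)
        _ = _ := by ring
    exact (two (hL.trans (Nat.mul_le_mul_left _ (mono (by omega)))) b1).trans
      (Nat.mul_le_mul_left _ (mono (by omega)))
  · calc _ ≤ s * (2 * (d * nS')) * T ^ (E + 3) :=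
          p1.trans (Nat.mul_le_mul_right _ (Nat.mul_le_mul_left _ (by omega)))
      _ = 2 * d * s * (nS' * T ^ (E + 3)) := by ring
      _ ≤ T * (nS' * T ^ (E + 3)) := Nat.mul_le_mul_right _ t4
      _ = nS' * T ^ (E + 4) := by ring
      _ ≤ _ := Nat.mul_le_mul_left _ (mono (by omega))
  · have b1 : nJ ≤ m ^ (j + 1) * T ^ (E * (j + 1) + 1 + (E + a)) := by
      calc nJ ≤ T * (m * T ^ E) ^ (j + 1) :=
            a2.trans (Nat.mul_le_mul t5 (Nat.pow_le_pow_left hL _))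
        _ = m ^ (j + 1) * T ^ (E * (j + 1) + 1) := by ring
        _ ≤ _ := Nat.mul_le_mul_left _ (mono (by omega))
    exact (a9.trans (two b1 (q1.trans (Nat.mul_le_mul_left _ (mono (by omega)))))).trans
      (Nat.mul_le_mul_left _ (mono (by omega)))

theorem st_step (hd : ∀ v, (tup v).card = d)
    (hc : ∀ v, ∀ e ∈ tup v, curA (arc v e) = (tup v).erase e)
    (hs : ∀ D, (univ.filter fun v => tup v = D).card ≤ s) (hP : ∀ J F, (Pop J F).card ≤ m * T ^ a)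
    (hm : 0 < m) (t1 : 2 ≤ T) (t2 : d.factorial ≤ T) (t3 : 2 * s ^ 2 ≤ T) (t4 : 2 * d * s ≤ T)
    (t5 : s ≤ T) (W : Finset (V × I)) {j E : ℕ} (hj : j + 3 ≤ d)
    (h : st_Inv tup arc T m d (st_next tup arc Pop T m W) j E) :
    st_Inv tup arc T m d W (j + 1) ((j + 2) * (3 * E + 2 * a + 6)) := by
  obtain ⟨w, Φ, L, S, Us, hw, hΦ, hS, hL, hSc, hU⟩ := h
  obtain ⟨e, he⟩ : (Φ.erase w).Nonempty := by
    rw [← card_pos, card_erase_of_mem hw]
    omega
  have e1 := mem_of_mem_erase he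
  have hs' : ∀ (X : Finset V) (D : Finset I), (∀ v ∈ X, tup v = D) → X.card ≤ s := fun X D h =>
    (card_le_card fun v hv => mem_filter.2 ⟨mem_univ _, h v hv⟩).trans (hs D)
  obtain ⟨Pr, hPr⟩ : ∃ Pr : Finset (V × I), ∀ z, z ∈ Pr ↔ z.2 ∈ tup z.1 ∧ (z.1, w) ∈ W ∧
      ∃ v ∈ S, arc z.1 z.2 = arc v e ∧ ∀ x ∈ ((tup v).erase w).erase e,
        arc z.1 x ∈ Pop (arc v x) (((tup v).erase e).erase x) := by
    refine ⟨(univ.biUnion fun v' => (tup v').image (Prod.mk v')).filter fun z => (z.1, w) ∈ W ∧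
      ∃ v ∈ S, arc z.1 z.2 = arc v e ∧ ∀ x ∈ ((tup v).erase w).erase e,
        arc z.1 x ∈ Pop (arc v x) (((tup v).erase e).erase x), fun z => ?_⟩
    rw [mem_filter]
    refine and_congr_left fun _ => ⟨fun h => ?_, fun h => ?_⟩
    · obtain ⟨v', -, h⟩ := mem_biUnion.1 h
      obtain ⟨x, hx, rfl⟩ := mem_image.1 h
      exact hx
    · exact mem_biUnion.2 ⟨z.1, mem_univ _, mem_image_of_mem _ h⟩
  obtain ⟨Q, hQ, hQc⟩ : ∃ Q : Finset (Ar × Ar),
      (∀ p, p ∈ Q ↔ p.1 ∈ Us ∧ p.2 ∈ Pop p.1 ((curA p.1).erase e)) ∧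
        Q.card ≤ Us.card * (m * T ^ a) := by
    refine ⟨Us.biUnion fun X => (Pop X ((curA X).erase e)).image (Prod.mk X), fun p => ⟨fun h => ?_,
      fun h => mem_biUnion.2 ⟨p.1, h.1, mem_image_of_mem _ h.2⟩⟩,
      card_biUnion_le_card_mul _ _ _ fun X _ => card_image_le.trans (hP _ _)⟩
    obtain ⟨X, hX, h⟩ := mem_biUnion.1 h
    obtain ⟨x, hx, rfl⟩ := mem_image.1 h
    exact ⟨hX, hx⟩
  have key : ∀ z ∈ Pr, ∃ v ∈ S, arc z.1 z.2 = arc v e ∧ (tup z.1).erase z.2 = (tup v).erase e ∧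
      (tup z.1).erase z.2 \ Φ.erase e = tup v \ Φ ∧ ∀ x ∈ tup v \ Φ, (arc v x, arc z.1 x) ∈ Q := by
    intro z hz
    obtain ⟨z1, -, v, hv, z2, z3⟩ := (hPr z).1 hz
    obtain ⟨-, v1, -, v2⟩ := hS v hv
    have z4 : (tup z.1).erase z.2 = (tup v).erase e := by rw [← hc _ _ z1, z2, hc _ _ (v1 e1)]
    refine ⟨v, hv, z2, z4, ?_, fun x hx => (hQ _).2 ⟨v2 x hx, ?_⟩⟩
    · rw [z4]
      ext x
      simp only [mem_sdiff, mem_erase]
      exact ⟨fun h => ⟨h.1.2, fun k => h.2 ⟨h.1.1, k⟩⟩,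
        fun h => ⟨⟨fun k => h.2 (k ▸ e1), h.1⟩, fun k => h.2 k.2⟩⟩
    · obtain ⟨x1, x2⟩ := mem_sdiff.1 hx
      show arc z.1 x ∈ Pop (arc v x) ((curA (arc v x)).erase e)
      rw [hc _ _ x1, erase_right_comm]
      exact z3 x (mem_erase.2 ⟨fun k => x2 (k ▸ e1), mem_erase.2 ⟨fun k => x2 (k ▸ hw), x1⟩⟩)
  have hsub : ∀ z ∈ Pr, Φ.erase e ⊆ (tup z.1).erase z.2 := fun z hz => by
    obtain ⟨v, hv, -, z4, -⟩ := key z hz
    rw [z4]
    exact erase_subset_erase _ (hS v hv).2.1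
  obtain ⟨G, hG⟩ : ∃ G : I → Finset (Finset I), G = fun y => (Q.filter fun p =>
      y ∉ (curA p.1).erase e ∧ curA p.2 = insert y ((curA p.1).erase e)).image
        fun p => curA p.1 \ Φ := ⟨_, rfl⟩
  have hGs : ∀ Y : Finset I, ∑ y ∈ Y, (G y).card ≤ Q.card := fun Y => by
    rw [hG]
    refine (sum_le_sum fun y _ => card_image_le).trans ?_
    rw [← card_biUnion fun y _ y' _ hy => disjoint_left.2 fun p p1 p2 => ?_]
    · exact card_le_card (biUnion_subset.2 fun y _ => filter_subset _ _)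
    · obtain ⟨-, p3, p4⟩ := mem_filter.1 p1
      obtain ⟨-, -, p5⟩ := mem_filter.1 p2
      have p6 : y ∈ insert y' ((curA p.1).erase e) := p5 ▸ p4 ▸ mem_insert_self _ _
      exact hy ((mem_insert.1 p6).resolve_right p3)
  have hlw : ∀ y, (Pr.filter fun z => z.2 = y).card * T ^ (2 * E + a + 4) ≤ s * (m * (G y).card) ∨
      m ^ j ≤ j.factorial * (G y).card * (T ^ (2 * E + a + 4)) ^ j := fun y => by
    refine (st_lw j m _ (Nat.pow_pos (by omega)) ((Pr.filter fun z => z.2 = y).image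
      fun z => (tup z.1).erase z.2 \ Φ.erase e) (G y) (fun h hh => ?_) fun h hh x hx => ?_).imp_left
      fun k => le_trans ?_ (Nat.mul_le_mul_left s k)
    · obtain ⟨z, hz, rfl⟩ := mem_image.1 hh
      obtain ⟨v, hv, -, -, z5, -⟩ := key z (mem_filter.1 hz).1
      rw [z5, card_sdiff_of_subset (hS v hv).2.1, hd]
      omega
    · obtain ⟨z, hz, rfl⟩ := mem_image.1 hh
      obtain ⟨z0, rfl⟩ := mem_filter.1 hz
      obtain ⟨v, hv, -, z4, z5, z6⟩ := key z z0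
      have x0 := (mem_sdiff.1 hx).1
      rw [z5] at hx ⊢
      have x1 := (mem_sdiff.1 hx).1
      have x2 : (curA (arc v x)).erase e = ((tup z.1).erase x).erase z.2 := by
        rw [hc _ _ x1, erase_right_comm, ← z4, erase_right_comm]
      rw [hG]
      refine mem_image.2 ⟨_, mem_filter.2 ⟨z6 x hx, ?_⟩, ?_⟩
      · show z.2 ∉ (curA (arc v x)).erase e ∧
          curA (arc z.1 x) = insert z.2 ((curA (arc v x)).erase e)
        rw [x2, hc _ _ (mem_of_mem_erase x0),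
          insert_erase (mem_erase.2 ⟨(mem_erase.1 x0).1.symm, ((hPr z).1 z0).1⟩)]
        exact ⟨notMem_erase _ _, rfl⟩
      · show curA (arc v x) \ Φ = _
        rw [hc _ _ x1, erase_sdiff_comm]
    · rw [← mul_assoc]
      refine Nat.mul_le_mul_right _ (card_le_mul_card_image _ s fun h _ => ?_)
      refine le_trans (card_le_card_of_injOn Prod.fst (t := univ.filter fun v =>
        tup v = insert y (Φ.erase e ∪ h)) (fun z hz => ?_) fun z hz z' hz' k => ?_) (hs _)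
      · obtain ⟨z1, rfl⟩ := mem_filter.1 (mem_coe.1 hz)
        obtain ⟨z0, rfl⟩ := mem_filter.1 z1
        refine mem_coe.2 (mem_filter.2 ⟨mem_univ _, ?_⟩)
        rw [union_sdiff_of_subset (hsub z z0), insert_erase ((hPr z).1 z0).1]
      · exact Prod.ext k ((mem_filter.1 (mem_filter.1 (mem_coe.1 hz)).1).2.trans
          (mem_filter.1 (mem_filter.1 (mem_coe.1 hz')).1).2.symm)
  obtain ⟨L', hL'⟩ : ∃ L' : Finset I, ∀ y, y ∈ L' ↔ y ∈ Pr.image Prod.snd ∧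
    m ^ j ≤ j.factorial * (G y).card * (T ^ (2 * E + a + 4)) ^ j := ⟨_, fun y => mem_filter⟩
  have num := st_num (nS := S.card) (nJ := (S.image fun v => arc v e).card) (nP := Pr.card)
    (nB := (Pr.filter fun z : V × I => ¬ z.2 ∈ L').card)
    (nG := (Pr.filter fun z : V × I => z.2 ∈ L').card)
    (nS' := ((Pr.filter fun z : V × I => z.2 ∈ L').image Prod.fst).card) (nL' := L'.card)
    (nQ := Q.card)
    (nU' := (S.image (fun v => arc v e) ∪ Q.image Prod.snd).card) (d := d) hm t1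
    ((Nat.factorial_le (by omega)).trans t2) t3 t4 t5 hL hSc hU ?_ ?_ ?_ hQc ?_
    (card_filter_add_card_filter_not _).ge ?_ ?_
    ((card_union_le _ _).trans (Nat.add_le_add_left card_image_le _))
  · refine ⟨w, Φ.erase e, L ∪ L', (Pr.filter fun z : V × I => z.2 ∈ L').image Prod.fst,
      S.image (fun v => arc v e) ∪ Q.image Prod.snd, mem_erase.2 ⟨(mem_erase.1 he).1.symm, hw⟩, ?_,
      fun v' hv' => ?_, (card_union_le _ _).trans num.1, num.2.1, num.2.2⟩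
    · rw [card_erase_of_mem e1]
      omega
    · obtain ⟨z, hz, rfl⟩ := mem_image.1 hv'
      obtain ⟨z0, z1⟩ := mem_filter.1 hz
      obtain ⟨v, hv, z2, z4, z5, z6⟩ := key z z0
      have k : ∀ x ∈ tup z.1, x ≠ z.2 → x ∉ Φ.erase e → x ∈ tup v \ Φ := fun x x1 x2 x3 =>
        z5 ▸ mem_sdiff.2 ⟨mem_erase.2 ⟨x2, x1⟩, x3⟩
      refine ⟨((hPr z).1 z0).2.1, (hsub z z0).trans (erase_subset _ _), fun x hx => ?_,
        fun x hx => ?_⟩
      · by_cases x1 : x ∈ Φ.erase e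
        · exact mem_union_left _ x1
        refine mem_union_right _ ?_
        by_cases x2 : x = z.2
        · exact mem_union_right _ (x2 ▸ z1)
        · obtain ⟨x3, x4⟩ := mem_sdiff.1 (k x hx x2 x1)
          exact mem_union_left _ ((mem_union.1 ((hS v hv).2.2.1 x3)).resolve_left x4)
      · by_cases x2 : x = z.2
        · rw [x2, z2]
          exact mem_union_left _ (mem_image_of_mem (fun v => arc v e) hv)
        · exact mem_union_right _ (mem_image.2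
            ⟨_, z6 x (k x (mem_sdiff.1 hx).1 x2 (mem_sdiff.1 hx).2), rfl⟩)
  · refine card_le_mul_card_image _ s fun J _ => hs' _ (insert e (curA J)) fun v hv => ?_
    obtain ⟨v1, rfl⟩ := mem_filter.1 hv
    rw [hc _ _ ((hS v v1).2.1 e1), insert_erase ((hS v v1).2.1 e1)]
  · refine card_image_le.trans ((card_le_mul_card_image_of_maps_to (f := fun v => tup v \ Φ)
      (t := powersetCard (j + 1) L) (fun v hv => mem_powersetCard.2 ⟨fun x hx => ?_, ?_⟩) s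
      fun h _ => hs' _ (Φ ∪ h) fun v hv => ?_).trans (Nat.mul_le_mul_left _ ?_))
    · exact (mem_union.1 ((hS v hv).2.2.1 (mem_sdiff.1 hx).1)).resolve_left (mem_sdiff.1 hx).2
    · rw [card_sdiff_of_subset (hS v hv).2.1, hd]
      omega
    · obtain ⟨v1, rfl⟩ := mem_filter.1 hv
      rw [union_sdiff_of_subset (hS v v1).2.1]
    · rw [card_powersetCard]
      exact Nat.choose_le_pow _ _
  · refine st_fib Pr _ (fun z => arc z.1 z.2) m (T ^ 3) fun J hJ => ?_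
    obtain ⟨v, hv, rfl⟩ := mem_image.1 hJ
    obtain ⟨v1, v2, -⟩ := hS v hv
    refine ((mem_filter.1 v1).2 e (mem_erase.2 ⟨(mem_erase.1 he).1, v2 e1⟩)).trans
      (Nat.mul_le_mul_right _ (le_trans (card_le_card fun v' hv' => ?_)
        (card_image_le (f := Prod.fst))))
    obtain ⟨v3, v4⟩ := mem_filter.1 hv'
    obtain ⟨v5, e', v6, v7⟩ := st_mem_on.1 v3
    exact mem_image.2 ⟨(v', e'), mem_filter.2 ⟨(hPr _).2 ⟨v6, v5, v, hv, v7, v4⟩, v7⟩, rfl⟩
  · have k := sum_card_fiberwise_eq_card_filter Pr (Pr.image Prod.snd \ L') Prod.snd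
    rw [filter_congr (q := fun z => ¬ z.2 ∈ L') fun z hz => by
      rw [mem_sdiff, and_iff_right (mem_image_of_mem _ hz)]] at k
    rw [← k, sum_mul]
    refine le_trans (sum_le_sum fun y hy => (hlw y).resolve_right fun h => ?_) ?_
    · exact (mem_sdiff.1 hy).2 ((hL' y).2 ⟨(mem_sdiff.1 hy).1, h⟩)
    · rw [← mul_sum, ← mul_sum]
      exact Nat.mul_le_mul_left _ (Nat.mul_le_mul_left _ (hGs _))
  · refine card_le_mul_card_image _ d fun v' _ => ?_
    rw [← hd v']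
    refine card_le_card_of_injOn Prod.snd (fun z hz => ?_) fun z hz z' hz' k => ?_
    · obtain ⟨z1, rfl⟩ := mem_filter.1 (mem_coe.1 hz)
      exact mem_coe.2 ((hPr z).1 (mem_filter.1 z1).1).1
    · exact Prod.ext ((mem_filter.1 (mem_coe.1 hz)).2.trans (mem_filter.1 (mem_coe.1 hz')).2.symm) k
  · have k := card_nsmul_le_sum L' _ _ fun y hy => ((hL' y).1 hy).2
    rw [← sum_mul, ← mul_sum, smul_eq_mul] at k
    exact k.trans (Nat.mul_le_mul_right _ (Nat.mul_le_mul_left _ (hGs _)))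

/-- the exponents -/
def st_E (a : ℕ) : ℕ → ℕ
  | 0 => 3
  | j + 1 => (j + 2) * (3 * st_E a j + 2 * a + 6)

theorem st_iter (hd : ∀ v, (tup v).card = d)
    (hc : ∀ v, ∀ e ∈ tup v, curA (arc v e) = (tup v).erase e)
    (hs : ∀ D, (univ.filter fun v => tup v = D).card ≤ s) (hP : ∀ J F, (Pop J F).card ≤ m * T ^ a)
    (hm : 0 < m) (t1 : 2 ≤ T) (t2 : d.factorial ≤ T) (t3 : 2 * s ^ 2 ≤ T) (t4 : 2 * d * s ≤ T)
    (t5 : s ≤ T) (j : ℕ) (hj : j + 2 ≤ d) (W : Finset (V × I)) (hW : ∀ z ∈ W, z.2 ∈ tup z.1)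
    (hJ : ∀ J w, (st_on tup arc W J w).card ≤ m * T)
    (hne : ((st_next tup arc Pop T m)^[j + 1] W).Nonempty) :
    st_Inv tup arc T m d W j (st_E a j) := by
  induction j generalizing W with
  | zero => exact st_base hj hd hc W hW hJ (by omega) hne
  | succ j ih =>
    refine st_step hd hc hs hP hm t1 t2 t3 t4 t5 W hj (ih (by omega) _
      (fun z hz => hW z (mem_filter.1 hz).1) (fun J w => le_trans (card_le_card fun v hv => ?_)
        (hJ J w)) hne)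
    exact st_mem_on.2 ⟨(mem_filter.1 (st_mem_on.1 hv).1).1, (st_mem_on.1 hv).2⟩

theorem st_rounds (hT : 1 ≤ T) (hm : 0 < m) (hd : ∀ v, (tup v).card = d)
    (hc : ∀ v, ∀ e ∈ tup v, curA (arc v e) = (tup v).erase e) (W : Finset (V × I))
    (hW : ∀ z ∈ W, z.2 ∈ tup z.1) (Act : Finset Ar)
    (hA : ∀ z ∈ W, ∀ e ∈ (tup z.1).erase z.2, arc z.1 e ∈ Act) (Bad : Finset (V × V × I × I × I))
    (hB : ∀ v v' w e x, (v, w) ∈ W → (v', w) ∈ W → e ∈ (tup v).erase w →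
      (∃ e' ∈ tup v', arc v' e' = arc v e) → x ∈ ((tup v).erase w).erase e →
      arc v' x ∉ Pop (arc v x) (((tup v).erase e).erase x) → (v, v', w, e, x) ∈ Bad) {N : ℝ}
    (h1 : (Act.card : ℝ) ≤ N) (h2 : (Bad.card : ℝ) * T ^ 6 ≤ N * m ^ 2) (r : ℕ) :
    (st_next tup arc Pop T m)^[r] W ⊆ W ∧ (W.card : ℝ) * T ^ 3 ≤
      ((st_next tup arc Pop T m)^[r] W).card * T ^ 3 + r * ((2 * d + 1) * (N * m)) := by
  induction r with
  | zero => simp
  | succ r ih =>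
    rw [Function.iterate_succ_apply']
    obtain ⟨i1, i2⟩ := ih
    refine ⟨(filter_subset _ _).trans i1, ?_⟩
    obtain ⟨cA, cB, k1, k2, k3⟩ := st_loss (Pop := Pop) (m := m) hT hd hc _
      (fun z hz => hW z (i1 hz)) Act (fun z hz => hA z (i1 hz)) Bad
      fun v v' w e x a b => hB v v' w e x (i1 a) (i1 b)
    have m0 : (0 : ℝ) < m := by exact_mod_cast hm
    have T0 : (0 : ℝ) ≤ (T : ℝ) ^ 3 := by positivity
    have l1 := mul_le_mul_of_nonneg_right (Nat.cast_le (α := ℝ).2 k1) T0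
    have l2 := Nat.cast_le (α := ℝ).2 k2
    have l3 := mul_le_mul_of_nonneg_right (Nat.cast_le (α := ℝ).2 k3) T0
    push_cast at l1 l2 l3 ⊢
    have l4 : (cB : ℝ) * T ^ 3 ≤ N * m := by
      refine le_of_mul_le_mul_right ?_ m0
      linarith
    have l5 := mul_le_mul_of_nonneg_left h1 (by positivity : (0 : ℝ) ≤ 2 * m * d)
    linarith

end

theorem stage (d s a : ℕ) (hd : 2 ≤ d) : ∃ E T0 : ℕ, ∀ {I V Ar : Type} [DecidableEq I] [Finite V]
    (tup : V → Finset I) (arc : V → I → Ar) (curA : Ar → Finset I) (U0 : Set (V × I))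
    (Pop : Ar → Finset I → Set Ar) (T m : ℕ) (N : ℝ), T0 ≤ T → T ^ E ≤ m → 0 < N →
    (∀ v, (tup v).card = d) → (∀ D, {v | tup v = D}.ncard ≤ s) →
    (∀ v, ∀ e ∈ tup v, curA (arc v e) = (tup v).erase e) → (∀ x ∈ U0, x.2 ∈ tup x.1) →
    (∀ J, {x : V × I | x.2 ∈ tup x.1 ∧ arc x.1 x.2 = J ∧ ∃ w, (x.1, w) ∈ U0}.ncard ≤ m * T) →
    ({J | ∃ x ∈ U0, ∃ e ∈ (tup x.1).erase x.2, J = arc x.1 e}.ncard : ℝ) ≤ N →
    (∀ J F, (Pop J F).Finite ∧ (Pop J F).ncard ≤ m * T ^ a) →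
    ({y : V × V × I × I × I | (y.1, y.2.2.1) ∈ U0 ∧ (y.2.1, y.2.2.1) ∈ U0 ∧
      y.2.2.2.1 ∈ (tup y.1).erase y.2.2.1 ∧ (∃ e' ∈ tup y.2.1, arc y.2.1 e' = arc y.1 y.2.2.2.1) ∧
      y.2.2.2.2 ∈ ((tup y.1).erase y.2.2.1).erase y.2.2.2.1 ∧
      arc y.2.1 y.2.2.2.2 ∉ Pop (arc y.1 y.2.2.2.2)
        (((tup y.1).erase y.2.2.2.1).erase y.2.2.2.2)}.ncard : ℝ) * T ^ 6 ≤ N * m ^ 2 →
    N * m ≤ U0.ncard * T ^ 2 →
    ∃ (w : I) (L : Finset I) (S : Set V), (∀ v ∈ S, (v, w) ∈ U0 ∧ tup v ⊆ insert w L) ∧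
      L.card ≤ m * T ^ E ∧ m ^ (d - 1) ≤ S.ncard * T ^ E ∧
      {J | ∃ v ∈ S, ∃ x ∈ (tup v).erase w, J = arc v x}.ncard ≤ m ^ (d - 2) * T ^ E := by
  refine ⟨st_E a (d - 2), d.factorial + 2 * s ^ 2 + 2 * d * s + s + d * (2 * d + 1) + 2, ?_⟩
  intro I V Ar _ _ tup arc curA U0 Pop T m N hT hm hN hd' hs hc hW hJ hA hP hB hU
  classical
  have := Fintype.ofFinite V
  have hm0 : 0 < m := lt_of_lt_of_le (Nat.pow_pos (by omega)) hm
  have hΩ : ∀ X : Set (V × I), (∀ x ∈ X, x.2 ∈ tup x.1) → X.Finite := fun X h =>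
    (univ.biUnion fun v => (tup v).image (Prod.mk v)).finite_toSet.subset fun x hx =>
      mem_coe.2 (mem_biUnion.2 ⟨x.1, mem_univ _, mem_image_of_mem _ (h x hx)⟩)
  obtain ⟨W, rfl⟩ := (hΩ U0 hW).exists_finset_coe
  choose P hP' using fun J F => (hP J F).1.exists_finset_coe
  obtain ⟨Act, hAct⟩ := Set.Finite.exists_finset_coe
    (s := {J | ∃ x ∈ (W : Set (V × I)), ∃ e ∈ (tup x.1).erase x.2, J = arc x.1 e})
    ((W.biUnion fun x => ((tup x.1).erase x.2).image (arc x.1)).finite_toSet.subset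
      fun J ⟨x, hx, e, he, h⟩ => mem_coe.2 (mem_biUnion.2 ⟨x, hx, h ▸ mem_image_of_mem _ he⟩))
  obtain ⟨Bad, hBad⟩ := Set.Finite.exists_finset_coe
    (s := {y : V × V × I × I × I | (y.1, y.2.2.1) ∈ (W : Set (V × I)) ∧
      (y.2.1, y.2.2.1) ∈ (W : Set (V × I)) ∧
      y.2.2.2.1 ∈ (tup y.1).erase y.2.2.1 ∧ (∃ e' ∈ tup y.2.1, arc y.2.1 e' = arc y.1 y.2.2.2.1) ∧
      y.2.2.2.2 ∈ ((tup y.1).erase y.2.2.1).erase y.2.2.2.1 ∧
      arc y.2.1 y.2.2.2.2 ∉ Pop (arc y.1 y.2.2.2.2)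
        (((tup y.1).erase y.2.2.2.1).erase y.2.2.2.2)})
    ((univ ×ˢ univ ×ˢ univ.biUnion tup ×ˢ univ.biUnion tup ×ˢ univ.biUnion tup).finite_toSet.subset
      fun y hy => mem_coe.2 (mem_product.2 ⟨mem_univ _, mem_product.2 ⟨mem_univ _, mem_product.2
        ⟨mem_biUnion.2 ⟨_, mem_univ _, hW _ hy.1⟩, mem_product.2
          ⟨mem_biUnion.2 ⟨_, mem_univ _, mem_of_mem_erase hy.2.2.1⟩, mem_biUnion.2
            ⟨_, mem_univ _, mem_of_mem_erase (mem_of_mem_erase hy.2.2.2.2.1)⟩⟩⟩⟩⟩))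
  rw [← hAct, Set.ncard_coe_finset] at hA
  rw [← hBad, Set.ncard_coe_finset] at hB
  rw [Set.ncard_coe_finset] at hU
  have k1 := (st_rounds (Pop := P) (by omega) hm0 hd' hc W hW Act
    (fun z hz e he => mem_coe.1 (hAct ▸ ⟨z, hz, e, he, rfl⟩)) Bad
    (fun v v' w e x a1 a2 a3 a4 a5 a6 => mem_coe.1 (hBad ▸
      ⟨a1, a2, a3, a4, a5, fun h => a6 (mem_coe.1 (hP' _ _ ▸ h))⟩)) hA hB (d - 2 + 1)).2
  have hne : ((st_next tup arc P T m)^[d - 2 + 1] W).Nonempty := by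
    rw [nonempty_iff_ne_empty]
    intro h
    rw [h, card_empty, Nat.cast_zero, zero_mul, zero_add] at k1
    have b1 : (((d - 2 + 1) * (2 * d + 1) + 1 : ℕ) : ℝ) ≤ T := Nat.cast_le.2 (by
      have := Nat.mul_le_mul_right (2 * d + 1) (show d - 2 + 1 ≤ d by omega)
      omega)
    have b2 : 0 < N * m := mul_pos hN (by exact_mod_cast hm0)
    have b3 := mul_le_mul_of_nonneg_right hU (Nat.cast_nonneg (α := ℝ) T)
    have b4 := mul_le_mul_of_nonneg_left b1 b2.le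
    push_cast at b4 k1
    linarith
  obtain ⟨w, Φ, L, S, Us, hw, hΦ, hS, hL, hSc, hUs⟩ := st_iter (a := a) (s := s) hd' hc
    (fun D => by
      rw [← Set.ncard_coe_finset, coe_filter]
      simpa only [mem_univ, true_and] using hs D)
    (fun J F => by
      rw [← Set.ncard_coe_finset, hP']
      exact (hP J F).2) hm0 (by omega) (by omega) (by omega) (by omega) (by omega) (d - 2)
    (by omega) W hW (fun J w => by
      refine le_trans ?_ (hJ J)
      rw [← Set.ncard_coe_finset]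
      refine le_trans (Set.ncard_le_ncard (fun v hv => ?_) ((hΩ _ fun x hx => hx.1).image Prod.fst))
        (Set.ncard_image_le (hΩ _ fun x hx => hx.1))
      obtain ⟨v1, e, v2, v3⟩ := st_mem_on.1 (mem_coe.1 hv)
      exact ⟨(v, e), ⟨v2, v3, w, v1⟩, rfl⟩) hne
  obtain ⟨w', rfl⟩ := card_eq_one.1 (show Φ.card = 1 by omega)
  obtain rfl := mem_singleton.1 hw
  refine ⟨w, L, S, fun v hv => ⟨(hS v hv).1, insert_eq w L ▸ (hS v hv).2.2.1⟩, hL, ?_, ?_⟩
  · rwa [Set.ncard_coe_finset, show d - 1 = d - 2 + 1 by omega]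
  · refine le_trans ?_ hUs
    rw [← Set.ncard_coe_finset]
    refine Set.ncard_le_ncard ?_ Us.finite_toSet
    rintro _ ⟨v, hv, x, hx, rfl⟩
    exact (hS v hv).2.2.2 x (sdiff_singleton_eq_erase w (tup v) ▸ hx)

end CurK
end

-- merged part: Pool.Agent.Work.MP_8a5de9_co_K.End
section
/-! The last step (paper 4.7), abstract form.  `Z t v` = good patches of zone `t`,
`G t y` = the sets `g` in whose popular list `y` occurs. -/

namespace CurK

theorem en_swap {I V : Type} [DecidableEq I] (S : Finset V) (Y : Finset I) (Z : V → Finset I) :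
    ∑ v ∈ S, (Y.filter fun y => y ∈ Z v).card = ∑ y ∈ Y, (S.filter fun v => y ∈ Z v).card := by
  simp only [Finset.card_filter]
  exact Finset.sum_comm

theorem en_zone {I V : Type} [DecidableEq I] (j s a T m M : ℕ) (S : Finset V)
    (cur Z : V → Finset I) (Y : Finset I) (G : I → Finset (Finset I))
    (hT : 1 ≤ T) (hfac : j.factorial ≤ T) (hm : 1 ≤ m) (hM : 1 ≤ M)
    (hc : ∀ v ∈ S, (cur v).card = j + 1)
    (hs : ∀ S1 ⊆ S, S1.card ≤ s * (S1.image cur).card)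
    (hS : m ^ (j + 1) ≤ S.card * T ^ a)
    (hZ : ∀ v ∈ S, M ≤ (Z v).card * T ∧ Z v ⊆ Y)
    (hG : ∑ y ∈ Y, (G y).card ≤ m ^ j * M * T ^ a)
    (hE : ∀ v ∈ S, ∀ y ∈ Z v, ∀ x ∈ cur v, (cur v).erase x ∈ G y) :
    ∃ Ys : Finset I, Ys.card ≤ M * T ^ ((2 * a + 2) * j + a + 1) ∧
      (S.filter fun v => ¬ M ≤ (Z v ∩ Ys).card * (2 * T)).card * T ≤ 2 * s * S.card := by
  classical
  obtain ⟨b, hb⟩ : ∃ b, b = 2 * a + 2 := ⟨_, rfl⟩
  rw [← hb]
  obtain ⟨Ys, hYs⟩ : ∃ Ys : Finset I,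
      Ys = Y.filter fun y => m ^ j ≤ j.factorial * (G y).card * (T ^ b) ^ j := ⟨_, rfl⟩
  refine ⟨Ys, ?_, ?_⟩
  · have h1 : Ys.card * m ^ j ≤ ∑ y ∈ Ys, j.factorial * (G y).card * (T ^ b) ^ j := by
      rw [← smul_eq_mul]
      apply Finset.card_nsmul_le_sum
      intro y hy
      rw [hYs, Finset.mem_filter] at hy
      exact hy.2
    have h2 : ∑ y ∈ Ys, j.factorial * (G y).card * (T ^ b) ^ j
        = j.factorial * (∑ y ∈ Ys, (G y).card) * (T ^ b) ^ j := by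
      rw [Finset.mul_sum, Finset.sum_mul]
    have h3 : ∑ y ∈ Ys, (G y).card ≤ ∑ y ∈ Y, (G y).card :=
      Finset.sum_le_sum_of_subset (by rw [hYs]; exact Finset.filter_subset _ _)
    have h4 : Ys.card * m ^ j ≤ M * T ^ (b * j + a + 1) * m ^ j := by
      calc Ys.card * m ^ j ≤ j.factorial * (∑ y ∈ Ys, (G y).card) * (T ^ b) ^ j := h2 ▸ h1
        _ ≤ T * (m ^ j * M * T ^ a) * (T ^ b) ^ j :=
          Nat.mul_le_mul_right _ (Nat.mul_le_mul hfac (h3.trans hG))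
        _ = M * T ^ (b * j + a + 1) * m ^ j := by rw [← pow_mul]; ring
    exact Nat.le_of_mul_le_mul_right h4 (pow_pos hm _)
  · have hy : ∀ y ∈ Y \ Ys, (S.filter fun v => y ∈ Z v).card * T ^ b ≤ s * (m * (G y).card) := by
      intro y hy
      rw [Finset.mem_sdiff, hYs, Finset.mem_filter] at hy
      have hn : ¬ m ^ j ≤ j.factorial * (G y).card * (T ^ b) ^ j := fun h => hy.2 ⟨hy.1, h⟩
      have hTb : (0 : ℝ) < (T : ℝ) ^ b := pow_pos (by exact_mod_cast hT) _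
      have h1 := lw j ((S.filter fun v => y ∈ Z v).image cur) (G y) ((m : ℝ) / (T : ℝ) ^ b)
        (by positivity) (by
          intro h hh
          obtain ⟨v, hv, rfl⟩ := Finset.mem_image.1 hh
          exact hc v (Finset.mem_filter.1 hv).1) (by
          intro h hh x hx
          obtain ⟨v, hv, rfl⟩ := Finset.mem_image.1 hh
          exact hE v (Finset.mem_filter.1 hv).1 y (Finset.mem_filter.1 hv).2 x hx)
      have h2 : ((S.filter fun v => y ∈ Z v).image cur).card * T ^ b ≤ m * (G y).card := by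
        rcases h1 with h1 | h1
        · rw [div_mul_eq_mul_div, le_div_iff₀ hTb] at h1
          exact_mod_cast h1
        · exfalso
          apply hn
          rw [div_pow, div_le_iff₀ (pow_pos hTb _)] at h1
          exact_mod_cast h1
      calc (S.filter fun v => y ∈ Z v).card * T ^ b
          ≤ s * ((S.filter fun v => y ∈ Z v).image cur).card * T ^ b :=
            Nat.mul_le_mul_right _ (hs _ (Finset.filter_subset _ _))
        _ ≤ s * (m * (G y).card) := by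
            rw [mul_assoc]; exact Nat.mul_le_mul_left _ h2
    obtain ⟨Bd, hBd⟩ : ∃ Bd : Finset V,
        Bd = S.filter fun v => ¬ M ≤ (Z v ∩ Ys).card * (2 * T) := ⟨_, rfl⟩
    rw [← hBd]
    have hsub : Bd ⊆ S := by rw [hBd]; exact Finset.filter_subset _ _
    have hv : ∀ v ∈ Bd, M ≤ 2 * T * ((Y \ Ys).filter fun y => y ∈ Z v).card := by
      intro v hv
      rw [hBd, Finset.mem_filter] at hv
      obtain ⟨h1, h2⟩ := hZ v hv.1
      have h3 : ((Y \ Ys).filter fun y => y ∈ Z v) = Z v \ Ys := by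
        ext y
        simp only [Finset.mem_filter, Finset.mem_sdiff]
        exact ⟨fun h => ⟨h.2, h.1.2⟩, fun h => ⟨⟨h2 h.1, h.2⟩, h.1⟩⟩
      rw [h3]
      have h4 := Finset.card_sdiff_add_card_inter (Z v) Ys
      have h5 := not_le.1 hv.2
      rw [← h4] at h1
      nlinarith
    have h1 : Bd.card * M ≤ ∑ v ∈ Bd, 2 * T * ((Y \ Ys).filter fun y => y ∈ Z v).card := by
      rw [← smul_eq_mul]
      exact Finset.card_nsmul_le_sum _ _ _ hv
    have h2 : ∑ v ∈ Bd, 2 * T * ((Y \ Ys).filter fun y => y ∈ Z v).card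
        ≤ 2 * T * ∑ y ∈ Y \ Ys, (S.filter fun v => y ∈ Z v).card := by
      rw [← en_swap, Finset.mul_sum]
      exact Finset.sum_le_sum_of_subset hsub
    have h3 : (∑ y ∈ Y \ Ys, (S.filter fun v => y ∈ Z v).card) * T ^ b
        ≤ s * (m * (m ^ j * M * T ^ a)) := by
      rw [Finset.sum_mul]
      calc ∑ y ∈ Y \ Ys, (S.filter fun v => y ∈ Z v).card * T ^ b
          ≤ ∑ y ∈ Y \ Ys, s * (m * (G y).card) := Finset.sum_le_sum hy
        _ ≤ ∑ y ∈ Y, s * (m * (G y).card) := Finset.sum_le_sum_of_subset Finset.sdiff_subset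
        _ = s * (m * ∑ y ∈ Y, (G y).card) := by rw [Finset.mul_sum, Finset.mul_sum]
        _ ≤ s * (m * (m ^ j * M * T ^ a)) := Nat.mul_le_mul_left _ (Nat.mul_le_mul_left _ hG)
    have h4 : Bd.card * T * (M * T ^ (2 * a + 1)) ≤ 2 * s * S.card * (M * T ^ (2 * a + 1)) := by
      calc Bd.card * T * (M * T ^ (2 * a + 1)) = Bd.card * M * T ^ b := by rw [hb]; ring
        _ ≤ 2 * T * (∑ y ∈ Y \ Ys, (S.filter fun v => y ∈ Z v).card) * T ^ b :=
          Nat.mul_le_mul_right _ (h1.trans h2)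
        _ ≤ 2 * T * (s * (m * (m ^ j * M * T ^ a))) := by
          rw [mul_assoc (2 * T)]; exact Nat.mul_le_mul_left _ h3
        _ = 2 * T * s * M * T ^ a * m ^ (j + 1) := by ring
        _ ≤ 2 * T * s * M * T ^ a * (S.card * T ^ a) := Nat.mul_le_mul_left _ hS
        _ = 2 * s * S.card * (M * T ^ (2 * a + 1)) := by ring
    exact Nat.le_of_mul_le_mul_right h4 (Nat.mul_pos hM (pow_pos hT _))

theorem en_avg1 {I V : Type} [DecidableEq I] (w : I) (S : Finset V) (Ys : Finset I)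
    (Z : V → Finset I) (M A B : ℕ) (hM : 1 ≤ M) (hZ : ∀ v ∈ S, M ≤ (Z v ∩ Ys).card * A)
    (hY : Ys.card ≤ M * B) : ∃ y, S.card ≤ (S.filter fun v => y ∈ Z v).card * (A * B) := by
  rcases Ys.eq_empty_or_nonempty with h0 | h0
  · refine ⟨w, ?_⟩
    have : S = ∅ := by
      apply Finset.eq_empty_of_forall_notMem
      intro v hv
      have := hZ v hv
      rw [h0] at this
      simp at this
      omega
    rw [this]
    simp
  · obtain ⟨y, -, hy⟩ := Finset.exists_max_image Ys (fun y => (S.filter fun v => y ∈ Z v).card) h0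
    refine ⟨y, ?_⟩
    have h1 : S.card * M ≤ ∑ v ∈ S, (Ys.filter fun y => y ∈ Z v).card * A := by
      rw [← smul_eq_mul]
      apply Finset.card_nsmul_le_sum
      intro v hv
      rw [Finset.filter_mem_eq_inter, Finset.inter_comm]
      exact hZ v hv
    rw [← Finset.sum_mul, en_swap] at h1
    have h2 : ∑ y' ∈ Ys, (S.filter fun v => y' ∈ Z v).card
        ≤ Ys.card * (S.filter fun v => y ∈ Z v).card := by
      rw [← smul_eq_mul]
      exact Finset.sum_le_card_nsmul _ _ _ hy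
    have h3 : S.card * M ≤ (S.filter fun v => y ∈ Z v).card * (A * B) * M := by
      calc S.card * M ≤ Ys.card * (S.filter fun v => y ∈ Z v).card * A :=
            h1.trans (Nat.mul_le_mul_right _ h2)
        _ ≤ M * B * (S.filter fun v => y ∈ Z v).card * A :=
            Nat.mul_le_mul_right _ (Nat.mul_le_mul_right _ hY)
        _ = (S.filter fun v => y ∈ Z v).card * (A * B) * M := by ring
    exact Nat.le_of_mul_le_mul_right h3 hM

theorem en_avg {I V K : Type} [DecidableEq I] [DecidableEq K] (w : I) (S : Finset V)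
    (Ys : K → Finset I) (Z : K → V → Finset I) (M : K → ℕ) (A B : ℕ) (hM : ∀ t, 1 ≤ M t)
    (hZ : ∀ t, ∀ v ∈ S, M t ≤ (Z t v ∩ Ys t).card * A) (hY : ∀ t, (Ys t).card ≤ M t * B)
    (F : Finset K) : ∃ (ws : K → I) (S1 : Finset V), S1 ⊆ S ∧
      (∀ v ∈ S1, ∀ t ∈ F, ws t ∈ Z t v) ∧ S.card ≤ S1.card * (A * B) ^ F.card := by
  induction F using Finset.induction_on with
  | empty => exact ⟨fun _ => w, S, subset_rfl, by simp, by simp⟩
  | insert t F ht ih =>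
    obtain ⟨ws, S1, h1, h2, h3⟩ := ih
    obtain ⟨y, hy⟩ := en_avg1 w S1 (Ys t) (Z t) (M t) A B (hM t) (fun v hv => hZ t v (h1 hv)) (hY t)
    refine ⟨Function.update ws t y, S1.filter fun v => y ∈ Z t v,
      (Finset.filter_subset _ _).trans h1, ?_, ?_⟩
    · intro v hv t' ht'
      rw [Finset.mem_filter] at hv
      rcases Finset.mem_insert.1 ht' with rfl | h
      · rw [Function.update_self]; exact hv.2
      · rw [Function.update_of_ne (by rintro rfl; exact ht h)]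
        exact h2 v hv.1 t' h
    · rw [Finset.card_insert_of_notMem ht, pow_succ']
      calc S.card ≤ S1.card * (A * B) ^ F.card := h3
        _ ≤ (S1.filter fun v => y ∈ Z t v).card * (A * B) * (A * B) ^ F.card :=
          Nat.mul_le_mul_right _ hy
        _ = _ := by ring

theorem endgame (d s k a : ℕ) (hd : 2 ≤ d) : ∃ E T0 : ℕ, ∀ {I V : Type} [DecidableEq I] [Finite V]
    (tup : V → Finset I) (w : I) (L : Finset I) (S : Set V) (c : ℕ) (Ms : Fin c → ℕ)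
    (Z : Fin c → V → Finset I) (Y : Fin c → Finset I) (G : Fin c → I → Finset (Finset I)) (T m : ℕ),
    c ≤ k → T0 ≤ T → T ^ E ≤ m → (∀ v, (tup v).card = d) → (∀ D, {v | tup v = D}.ncard ≤ s) →
    (∀ v ∈ S, w ∈ tup v ∧ tup v ⊆ insert w L) → L.card ≤ m * T ^ a →
    m ^ (d - 1) ≤ S.ncard * T ^ a → (∀ t, 1 ≤ Ms t) →
    (∀ t, ∀ v ∈ S, Ms t ≤ (Z t v).card * T ∧ Z t v ⊆ Y t) →
    (∀ t, ∑ y ∈ Y t, (G t y).card ≤ m ^ (d - 2) * Ms t * T ^ a) →
    (∀ t, ∀ v ∈ S, ∀ y ∈ Z t v, ∀ x ∈ (tup v).erase w, ((tup v).erase w).erase x ∈ G t y) →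
    ∃ (A : Fin (d - 1) → Finset I) (ws : Fin c → I), (∀ i, (A i).card = k) ∧
      (∀ i i', i ≠ i' → Disjoint (A i) (A i')) ∧
      ∀ f : Fin (d - 1) → I, (∀ i, f i ∈ A i) →
        ∃ v ∈ S, (tup v).erase w = Finset.univ.image f ∧ ∀ t, ws t ∈ Z t v := by
  obtain ⟨j, rfl⟩ : ∃ j, d = j + 2 := ⟨d - 2, by omega⟩
  obtain ⟨E, X0, hbox⟩ := box (j + 1) k
  obtain ⟨g, hg⟩ : ∃ g, g = (2 * a + 2) * j + a + 1 := ⟨_, rfl⟩
  obtain ⟨e1, he1⟩ : ∃ e1, e1 = (g + 2) * k + a + 1 := ⟨_, rfl⟩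
  obtain ⟨e, he⟩ : ∃ e, e = e1 + a * (j + 1) := ⟨_, rfl⟩
  refine ⟨e * E + e1 + 1, X0 + 4 * s * k + 2 * s + j.factorial + 2, ?_⟩
  intro I V _ _ tup w L S c Ms Z Y G T m hck hT0 hm htup hfib hS hL hSm hMs hZ hG hE
  classical
  have e21 : j + 2 - 1 = j + 1 := rfl
  have e22 : j + 2 - 2 = j := rfl
  simp only [e21, e22] at hSm hG ⊢
  have hT : 1 ≤ T := by omega
  have hm1 : 1 ≤ m := le_trans (Nat.one_le_pow _ _ hT) hm
  obtain ⟨Sf, hSf⟩ : ∃ Sf : Finset V, ∀ v, v ∈ Sf ↔ v ∈ S :=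
    ⟨S.toFinite.toFinset, fun v => Set.Finite.mem_toFinset _⟩
  have hSc : S.ncard = Sf.card := by
    rw [← Set.ncard_coe_finset]
    congr 1
    ext v
    simp [hSf]
  rw [hSc] at hSm
  have hc : ∀ v ∈ Sf, ((tup v).erase w).card = j + 1 := by
    intro v hv
    rw [Finset.card_erase_of_mem (hS v ((hSf v).1 hv)).1, htup]
    rfl
  have hs : ∀ S1 ⊆ Sf, S1.card ≤ s * (S1.image fun v => (tup v).erase w).card := by
    intro S1 h1
    apply Finset.card_le_mul_card_image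
    intro h _
    refine le_trans ?_ (hfib (insert w h))
    rw [← Set.ncard_coe_finset]
    apply Set.ncard_le_ncard _ (Set.toFinite _)
    intro v hv
    simp only [Finset.coe_filter, Set.mem_ofPred_eq] at hv ⊢
    rw [← hv.2, Finset.insert_erase (hS v ((hSf v).1 (h1 hv.1))).1]
  have hz : ∀ t, ∃ Ys : Finset I, Ys.card ≤ Ms t * T ^ g ∧
      (Sf.filter fun v => ¬ Ms t ≤ (Z t v ∩ Ys).card * (2 * T)).card * T ≤ 2 * s * Sf.card := by
    intro t
    rw [hg]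
    exact en_zone j s a T m (Ms t) Sf (fun v => (tup v).erase w) (Z t) (Y t) (G t) hT (by omega)
      hm1 (hMs t) hc hs hSm (fun v hv => hZ t v ((hSf v).1 hv)) (hG t)
      (fun v hv => hE t v ((hSf v).1 hv))
  choose Ys hY1 hY2 using hz
  obtain ⟨S', hS'⟩ : ∃ S' : Finset V,
      S' = Sf.filter fun v => ∀ t, Ms t ≤ (Z t v ∩ Ys t).card * (2 * T) := ⟨_, rfl⟩
  have hS'sub : S' ⊆ Sf := by rw [hS']; exact Finset.filter_subset _ _
  have hhalf : Sf.card ≤ 2 * S'.card := by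
    have h1 : Sf ⊆ S' ∪ Finset.univ.biUnion fun t =>
        Sf.filter fun v => ¬ Ms t ≤ (Z t v ∩ Ys t).card * (2 * T) := by
      intro v hv
      by_cases h : ∀ t, Ms t ≤ (Z t v ∩ Ys t).card * (2 * T)
      · exact Finset.mem_union_left _ (by rw [hS']; exact Finset.mem_filter.2 ⟨hv, h⟩)
      · obtain ⟨t, ht⟩ := not_forall.1 h
        exact Finset.mem_union_right _ (Finset.mem_biUnion.2
          ⟨t, Finset.mem_univ _, Finset.mem_filter.2 ⟨hv, ht⟩⟩)
    have h2 := (Finset.card_le_card h1).trans ((Finset.card_union_le _ _).trans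
      (Nat.add_le_add_left Finset.card_biUnion_le _))
    have h3 : (∑ t, (Sf.filter fun v => ¬ Ms t ≤ (Z t v ∩ Ys t).card * (2 * T)).card) * T
        ≤ c * (2 * s * Sf.card) := by
      rw [Finset.sum_mul]
      have := Finset.sum_le_card_nsmul Finset.univ _ _ (fun t _ => hY2 t)
      simpa using this
    generalize (∑ t, (Sf.filter fun v => ¬ Ms t ≤ (Z t v ∩ Ys t).card * (2 * T)).card) = x
      at h2 h3
    have h4 : 2 * x * T ≤ Sf.card * T := by
      calc 2 * x * T = 2 * (x * T) := by ring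
        _ ≤ 2 * (k * (2 * s * Sf.card)) :=
          Nat.mul_le_mul_left _ (h3.trans (Nat.mul_le_mul_right _ hck))
        _ = Sf.card * (4 * s * k) := by ring
        _ ≤ Sf.card * T := Nat.mul_le_mul_left _ (by omega)
    have h5 := Nat.le_of_mul_le_mul_right h4 hT
    omega
  obtain ⟨ws, S1, h1, h2, h3⟩ := en_avg w S' Ys Z Ms (2 * T) (T ^ g) hMs
    (fun t v hv => by rw [hS', Finset.mem_filter] at hv; exact hv.2 t) hY1 Finset.univ
  rw [Finset.card_univ, Fintype.card_fin] at h3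
  obtain ⟨H, hH⟩ : ∃ H : Finset (Finset I), H = S1.image fun v => (tup v).erase w := ⟨_, rfl⟩
  have hH1 : ∀ h ∈ H, h ⊆ L ∧ h.card = j + 1 := by
    intro h hh
    rw [hH] at hh
    obtain ⟨v, hv, rfl⟩ := Finset.mem_image.1 hh
    have hv' := hS'sub (h1 hv)
    exact ⟨Finset.subset_insert_iff.1 (hS v ((hSf v).1 hv')).2, hc v hv'⟩
  have hH2 : m ^ (j + 1) ≤ T ^ e1 * H.card := by
    have h4 : S1.card ≤ s * H.card := by rw [hH]; exact hs S1 (h1.trans hS'sub)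
    have h5 : (2 * T * T ^ g) ^ c ≤ T ^ ((g + 2) * k) := by
      calc (2 * T * T ^ g) ^ c ≤ (T * T * T ^ g) ^ c :=
            Nat.pow_le_pow_left (Nat.mul_le_mul_right _ (Nat.mul_le_mul_right _ (by omega))) _
        _ = T ^ ((g + 2) * c) := by rw [pow_mul]; ring
        _ ≤ T ^ ((g + 2) * k) := Nat.pow_le_pow_right hT (Nat.mul_le_mul_left _ hck)
    calc m ^ (j + 1) ≤ Sf.card * T ^ a := hSm
      _ ≤ 2 * (s * H.card * T ^ ((g + 2) * k)) * T ^ a :=
        Nat.mul_le_mul_right _ (hhalf.trans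
          (Nat.mul_le_mul_left _ (h3.trans (Nat.mul_le_mul h4 h5))))
      _ = 2 * s * (H.card * T ^ ((g + 2) * k) * T ^ a) := by ring
      _ ≤ T * (H.card * T ^ ((g + 2) * k) * T ^ a) := Nat.mul_le_mul_right _ (by omega)
      _ = T ^ e1 * H.card := by rw [he1]; ring
  have hH3 : H.card ≤ L.card ^ (j + 1) := by
    have h4 : H ⊆ Finset.powersetCard (j + 1) L := fun h hh =>
      Finset.mem_powersetCard.2 (hH1 h hh)
    have h5 := Finset.card_le_card h4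
    rw [Finset.card_powersetCard] at h5
    exact h5.trans (Nat.choose_le_pow _ _)
  have hX0 : X0 ≤ T ^ e := by
    refine le_trans (by omega : X0 ≤ T) (Nat.le_self_pow ?_ T)
    omega
  have hXE : (T ^ e) ^ E ≤ L.card := by
    by_contra hlt
    have h4 : L.card ^ (j + 1) ≤ T ^ (e * E * (j + 1)) := by
      rw [pow_mul, pow_mul]
      exact Nat.pow_le_pow_left (not_le.1 hlt).le _
    have h5 : T ^ ((e * E + e1 + 1) * (j + 1)) ≤ T ^ (e1 + e * E * (j + 1)) := by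
      calc T ^ ((e * E + e1 + 1) * (j + 1)) ≤ m ^ (j + 1) := by
            rw [pow_mul]; exact Nat.pow_le_pow_left hm _
        _ ≤ T ^ e1 * T ^ (e * E * (j + 1)) := hH2.trans (Nat.mul_le_mul_left _ (hH3.trans h4))
        _ = _ := by rw [← pow_add]
    have h6 := (Nat.pow_le_pow_iff_right (by omega : 1 < T)).1 h5
    nlinarith
  have hLX : L.card ^ (j + 1) ≤ T ^ e * H.card := by
    calc L.card ^ (j + 1) ≤ (m * T ^ a) ^ (j + 1) := Nat.pow_le_pow_left hL _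
      _ = m ^ (j + 1) * T ^ (a * (j + 1)) := by rw [mul_pow, ← pow_mul]
      _ ≤ T ^ e1 * H.card * T ^ (a * (j + 1)) := Nat.mul_le_mul_right _ hH2
      _ = T ^ e * H.card := by rw [he, pow_add]; ring
  obtain ⟨A, hA1, hA2, hA3⟩ := hbox L H (T ^ e) hX0 hXE hH1 hLX
  refine ⟨A, ws, hA1, hA2, fun f hf => ?_⟩
  have h4 := hA3 f hf
  rw [hH] at h4
  obtain ⟨v, hv, hv2⟩ := Finset.mem_image.1 h4
  exact ⟨v, (hSf v).1 (hS'sub (h1 hv)), hv2, fun t => h2 v hv t (Finset.mem_univ _)⟩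

end CurK
end

-- merged part: Pool.Agent.Work.MP_8a5de9_co_K.AL
section
/-! Theorem AL (paper section 4). -/

namespace CurK

open Finset

open Classical in
/-- The sets `g` in whose popular list the patch `y` occurs. -/
noncomputable def al_G {I A : Type} (cur : A → Finset I) (R : Finset I) (Us : Set A)
    (Pop : A → Finset I → Set A) (y : I) : Finset (Finset I) :=
  R.powerset.filter fun g => ∃ X ∈ Us, g ⊆ cur X ∧ ∃ J ∈ Pop X g, y ∈ cur J

theorem al_mem_G {I A : Type} {cur : A → Finset I} {R : Finset I} {Us : Set A}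
    {Pop : A → Finset I → Set A} {y : I} {g : Finset I} : g ∈ al_G cur R Us Pop y ↔
      g ⊆ R ∧ ∃ X ∈ Us, g ⊆ cur X ∧ ∃ J ∈ Pop X g, y ∈ cur J := by
  classical
  exact mem_filter.trans (and_congr_left' mem_powerset)

theorem al_G_sum {I A : Type} (cur : A → Finset I) (R : Finset I) {Us : Set A} (hU : Us.Finite)
    (Pop : A → Finset I → Set A) {d K : ℕ} (hd : ∀ X, (cur X).card ≤ d)
    (hK : ∀ X g, (Pop X g).Finite ∧ (Pop X g).ncard ≤ K) :
    ∑ y ∈ R, (al_G cur R Us Pop y).card ≤ d * K * 2 ^ d * Us.ncard := by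
  rw [← card_sigma, ← Set.ncard_coe_finset]
  refine al_up _ hU (fun u X => u.2 ⊆ cur X ∧ ∃ J ∈ Pop X u.2, u.1 ∈ cur J)
    (fun u hu => (al_mem_G.1 (mem_sigma.1 hu).2).2) fun X _ => ?_
  refine (al_up _ (cur X).powerset.finite_toSet (fun u g => u.2 = g) (b := d * K)
    (fun u hu => ⟨u.2, mem_powerset.2 hu.2.1, rfl⟩) fun g _ => ?_).trans ?_
  · refine (al_up _ (hK X g).1 (fun u J => u.1 ∈ cur J) (b := d)
      (fun u hu => hu.2 ▸ hu.1.2.2) fun J _ => ?_).trans (Nat.mul_le_mul_left _ (hK X g).2)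
    refine (Set.ncard_le_ncard_of_injOn (t := (cur J : Set I)) (fun u => u.1) (fun u hu => hu.2)
      (fun u hu u' hu' e => Sigma.ext e (heq_of_eq (hu.1.2.trans hu'.1.2.symm)))
      (finite_toSet _)).trans ?_
    rw [Set.ncard_coe_finset]
    exact hd J
  · rw [Set.ncard_coe_finset, card_powerset]
    exact Nat.mul_le_mul_left _ (Nat.pow_le_pow_right two_pos (hd X))

theorem al_pow {C T : ℝ} {m n : ℕ} {T' : ℕ} (hT : T = T') (hC : C ≤ T)
    (h : (n : ℝ) ≤ C * m * (T ^ 7) ^ 3) : n ≤ m * T' ^ 22 := by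
  subst hT
  have := mul_le_mul_of_nonneg_right hC (show (0 : ℝ) ≤ m * ((T' : ℝ) ^ 7) ^ 3 by positivity)
  rw [← Nat.cast_le (α := ℝ)]
  push_cast
  linarith

theorem al_core (d s k : ℕ) (hd : 2 ≤ d) : ∃ T0 E : ℕ, 2 ≤ T0 ∧
    ∀ {I P V : Type} [DecidableEq I] [Finite P] [Finite V] (M : Mod d s I P V) (R : Finset I)
    (N : ℝ) (Ms : ℕ → ℕ) (T : ℕ) {O : Type} [Finite O] (op : O → P) (oσ : O → Finset I)
    (oy : O → ℕ → ℕ), M.al_H R k Ms op oσ oy → T0 ≤ T → T ^ E ≤ Ms 0 →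
    ((R.card : ℝ) + 1) ^ (d - 1) ≤ N → (∀ t < k, ((M.al_Act R (Ms t)).ncard : ℝ) ≤ N) →
    ((Set.univ : Set O).ncard : ℝ) ≤ N → N ≤ (Set.univ : Set O).ncard * T →
    ∃ R' ⊆ R, R'.card ≤ d * k ∧ k ^ d ≤ M.WW R' := by
  obtain ⟨C0, -, H0⟩ := al_pop0 d s hd
  obtain ⟨Ct, -, Ht⟩ := al_popt d s hd
  obtain ⟨E1, T1, H1⟩ := stage d s 22 hd
  obtain ⟨E2, T2, H2⟩ := endgame d s k (E1 + 23) hd
  refine ⟨2 + T1 + T2 + 4 * s + 8 * k * s ^ 2 + d * 2 ^ d + ⌈C0⌉₊ + ⌈Ct⌉₊ + ⌈32 * k * s ^ 2 * Ct⌉₊,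
    E1 + E2 + 2, by omega, ?_⟩
  intro I P V _ _ _ M R N Ms T O _ op oσ oy h hT hE hN hA hO hO'
  have t1 : 1 ≤ T := by omega
  have t2 : (1 : ℝ) ≤ T := by exact_mod_cast t1
  have t3 : (1 : ℝ) ≤ (T : ℝ) ^ 7 := one_le_pow₀ t2
  have c0 : C0 ≤ T := Nat.ceil_le.1 (by omega)
  have ct : Ct ≤ T := Nat.ceil_le.1 (by omega)
  have ck : 32 * k * s ^ 2 * Ct ≤ T := Nat.ceil_le.1 (by omega)
  have e1 : T ^ E1 ≤ Ms 0 := (Nat.pow_le_pow_right t1 (by omega)).trans hE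
  have e2 : T ^ E2 ≤ Ms 0 := (Nat.pow_le_pow_right t1 (by omega)).trans hE
  have e3 : 8 * k * s ^ 2 * T ≤ Ms 0 := by
    refine le_trans ?_ ((Nat.pow_le_pow_right t1 (show 2 ≤ E1 + E2 + 2 by omega)).trans hE)
    rw [sq T]
    exact Nat.mul_le_mul_right _ (by omega)
  have e4 : T ^ E1 ≤ T ^ (E1 + 23) := Nat.pow_le_pow_right t1 (by omega)
  have N0 : 0 < N := lt_of_lt_of_le (by positivity) hN
  have hΛ : 1 ≤ 3 * s * Ms 0 := Nat.mul_pos (by have := h.hs; omega) h.pos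
  choose! Pop p1 p2 using fun t ht =>
    Ht M R k Ms op oσ oy t ((T : ℝ) ^ 7) N h ht t3 (hA 0 h.hk) (hA t ht) hO
  have hU : ∀ x ∈ M.al_U R Ms op oy Pop k T, M.al_Hit R (Ms 0) x.1 x.2 :=
    fun x hx => hx.1.elim fun o ho => h.hit h.hk ho
  obtain ⟨Pop0, q1, q2⟩ := H0 M R (Ms 0) _ _ h.hs h.pos t3 hU
  obtain ⟨w, L, S, s1, s2, s3, s4⟩ := H1 M.tup (M.arc R (3 * s * Ms 0)) (fun J => M.cur J.1)
    (M.al_U R Ms op oy Pop k T) Pop0 T (Ms 0) N (by omega) e1 N0 M.tup_card M.tup_le M.pc_cur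
    (fun x hx => (Mod.al_hit_sub (hU x hx)).1)
    (fun J => by
      refine le_trans (Set.ncard_le_ncard ?_ (Mod.al_fin.subset fun _ h => h.1))
        ((Mod.al_on (M := M) (R := R) (J.1, J.2.1, 3 * s * Ms 0)).trans ?_)
      · rintro x ⟨a, rfl, w, b⟩
        exact ⟨a, (Mod.al_hit_sub (hU _ b)).2 a, rfl, Mod.al_seg_arc hΛ a⟩
      · rw [mul_comm (Ms 0)]
        exact Nat.mul_le_mul_right _ (by omega))
    (by
      refine le_trans (Nat.cast_le.2 (Set.ncard_le_ncard ?_ (Mod.al_act_fin _))) (hA 0 h.hk)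
      rintro _ ⟨x, hx, e, he, rfl⟩
      exact Mod.al_act_mem (hU x hx) he)
    (fun J F => ⟨(q1 J F).1, al_pow rfl c0 (q1 J F).2⟩)
    (by
      have a1 : C0 * (M.al_Act R (Ms 0)).ncard ≤ T * N :=
        mul_le_mul c0 (hA 0 h.hk) (Nat.cast_nonneg _) (Nat.cast_nonneg _)
      have a2 := q2.trans (mul_le_mul_of_nonneg_right a1 (by positivity))
      refine le_of_mul_le_mul_left ?_ (zero_lt_one.trans_le t2)
      linarith)
    (h.count (by omega) e3 ck hN hO' p2)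
  have hS : ∀ v ∈ S, w ∈ M.tup v ∧ M.tup v ⊆ R := fun v hv => Mod.al_hit_sub (hU _ (s1 v hv).1)
  obtain ⟨A, ws, a1, a2, a3⟩ := H2 M.tup w L S k (fun t => Ms t)
    (fun t v => M.al_ZZ R Ms op oy Pop t v w) (fun _ => R)
    (fun t => al_G (fun J => M.cur J.1) R
      {J | ∃ v ∈ S, ∃ x ∈ (M.tup v).erase w, J = M.arc R (3 * s * Ms 0) v x} (Pop t))
    T (Ms 0) le_rfl (by omega) e2 M.tup_card M.tup_le (fun v hv => ⟨(hS v hv).1, (s1 v hv).2⟩)
    (s2.trans (Nat.mul_le_mul_left _ e4)) (s3.trans (Nat.mul_le_mul_left _ e4))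
    (fun t => h.pos.trans (h.ms t t.2).1)
    (fun t v hv => ⟨(s1 v hv).1.2 t t.2, fun y hy => (Mod.al_mem_ZZ.1 hy).1⟩)
    (fun t => by
      refine (al_G_sum _ R ((Mod.al_act_fin (M := M) (R := R) (Ms 0)).subset ?_) (Pop t) (d := d)
        (K := Ms t * T ^ 22) (fun X => (Nat.le_succ _).trans (M.cur_card X.1).le)
        fun X g => ⟨(p1 t t.2 X g).1, al_pow rfl ct (p1 t t.2 X g).2⟩).trans ?_
      · rintro _ ⟨v, hv, e, he, rfl⟩
        exact Mod.al_act_mem (hU _ (s1 v hv).1) he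
      · calc _ ≤ d * (Ms t * T ^ 22) * 2 ^ d * (Ms 0 ^ (d - 2) * T ^ E1) :=
              Nat.mul_le_mul_left _ s4
          _ = d * 2 ^ d * (Ms t * T ^ 22 * (Ms 0 ^ (d - 2) * T ^ E1)) := by ring
          _ ≤ T * (Ms t * T ^ 22 * (Ms 0 ^ (d - 2) * T ^ E1)) := Nat.mul_le_mul_right _ (by omega)
          _ = _ := by ring)
    (fun t v hv y hy x hx => by
      obtain ⟨-, o, v', z1, z2, z3⟩ := Mod.al_mem_ZZ.1 hy
      have b1 := hx
      rw [Mod.al_zcur z1, ← Mod.al_zcur z2] at b1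
      refine al_mem_G.2 ⟨(erase_subset _ _).trans ((erase_subset _ _).trans (hS v hv).2), _,
        ⟨v, hv, x, hx, rfl⟩, ?_, _, z3 x hx, ?_⟩
      · exact (erase_subset_erase x (erase_subset _ _)).trans
          (M.pc_cur v x (mem_of_mem_erase hx)).superset
      · exact (M.pc_cur v' x (mem_of_mem_erase b1)).superset
          (mem_erase.2 ⟨(mem_erase.1 b1).1.symm, z2.1⟩))
  choose f0 hf0 using fun i => card_pos.1 ((a1 i).symm ▸ h.hk : 0 < (A i).card)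
  refine M.box_ends R k A ws a1 a2 (fun t => ?_) (fun i a ha => ?_) (fun f hf => ?_) (by omega)
  · obtain ⟨v, -, -, b⟩ := a3 f0 hf0
    exact (Mod.al_mem_ZZ.1 (b t)).1
  · obtain ⟨v, hv, b, -⟩ := a3 (Function.update f0 i a) fun j => by
      by_cases e : j = i
      · rw [e, Function.update_self]
        exact ha
      · rw [Function.update_of_ne e]
        exact hf0 j
    refine (hS v hv).2 (mem_of_mem_erase (b.superset (mem_image.2 ⟨i, mem_univ _, ?_⟩)))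
    exact Function.update_self ..
  · obtain ⟨v, hv, b1, b2⟩ := a3 f hf
    obtain ⟨o, ho⟩ := (s1 v hv).1.1
    refine ⟨op o, oσ o, oy o, (Mod.al_zcur ho).symm.trans b1, fun t ht =>
      ⟨(h.obj o).vis t ht.le, ?_⟩, fun t => ?_⟩
    · have b3 := (h.obj o).gap t ht
      have b4 := h.pos.trans (h.ms t ht).1
      exact ((M.cnt_mono R (op o)).reflect_lt (by omega)).le
    · obtain ⟨b3, o', v', z1, z2, -⟩ := Mod.al_mem_ZZ.1 (b2 t)
      obtain rfl := h.zuniq h.hk ho z1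
      obtain ⟨y1, -, y3, y4, y5, -⟩ := z2
      refine mem_filter.2 ⟨mem_image.2 ⟨M.ps v' (ws t), mem_filter.2 ⟨mem_Ico.2 ⟨y4, ?_⟩, ?_⟩,
        ?_⟩, b3⟩
      · exact (M.cnt_mono R _).reflect_lt (y5.trans_le ((h.obj o).gap t t.2))
      · exact y3 ▸ M.ps_lt v' _ y1
      · exact y3 ▸ M.ps_hit v' _ y1

theorem align (d s k : ℕ) (hd : 2 ≤ d) (hk : 1 ≤ k) : ∃ (C1 : ℝ) (T0 E : ℕ), 1 ≤ C1 ∧
    ∀ {I P V : Type} [DecidableEq I] [Finite P] [Finite V] (M : Mod d s I P V) (R : Finset I)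
    (B : ℝ), 1 ≤ B → (∀ R' ⊆ R, (M.WW R' : ℝ) ≤ B * (R'.card + 1) ^ (d - 1)) →
    (∀ R' ⊆ R, R'.card ≤ d * k → M.WW R' < k ^ d) →
    ∀ (Ms : ℕ → ℕ) (T : ℕ), (∀ t < k, Ms 0 ≤ Ms t ∧ Ms t ≤ Ms (k - 1)) → T0 ≤ T → T ^ E ≤ Ms 0 →
    ∀ {O : Type} [Fintype O] (op : O → P) (oσ : O → Finset I) (oy : O → ℕ → ℕ),
      (∀ o, M.Obj R k Ms (op o) (oσ o) (oy o)) →
      (∀ o o', o ≠ o' → op o = op o' →
        M.cnt R (op o) (oy o 0) + 2 * Ms (k - 1) ≤ M.cnt R (op o') (oy o' 0) ∨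
        M.cnt R (op o') (oy o' 0) + 2 * Ms (k - 1) ≤ M.cnt R (op o) (oy o 0)) →
      (Fintype.card O : ℝ) * T ≤ C1 * B * (R.card + 1) ^ (d - 1) := by
  obtain ⟨C, hC, HA⟩ := Mod.arcs_le d s
  obtain ⟨T0, E, hT0, H⟩ := al_core d s k hd
  refine ⟨2 * C, T0, E, by linarith, ?_⟩
  intro I P V _ _ _ M R B hB hW hk' Ms T hM hT hE O _ op oσ oy ho hsep
  by_contra hn
  rw [not_le] at hn
  have t1 : (2 : ℝ) ≤ T := by exact_mod_cast hT0.trans hT
  have t0 : (0 : ℝ) < T := by linarith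
  have m1 : 1 ≤ Ms 0 := (Nat.one_le_pow _ _ (by omega)).trans hE
  have n1 : (1 : ℝ) ≤ ((R.card : ℝ) + 1) ^ (d - 1) :=
    one_le_pow₀ (le_add_of_nonneg_left (Nat.cast_nonneg _))
  have n2 : ((R.card : ℝ) + 1) ^ (d - 1) ≤ C * B * ((R.card : ℝ) + 1) ^ (d - 1) :=
    le_mul_of_one_le_left (by linarith) (one_le_mul_of_one_le_of_one_le hC hB)
  generalize hN : C * B * ((R.card : ℝ) + 1) ^ (d - 1) = N at n2
  rw [mul_assoc, mul_assoc, ← mul_assoc C, hN] at hn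
  obtain ⟨O', -, hO'⟩ := exists_subset_card_eq (s := (univ : Finset O)) (n := ⌈2 * N / T⌉₊)
    (Nat.ceil_le.2 ((div_le_iff₀ t0).2 hn.le))
  obtain ⟨o⟩ : Nonempty O := Fintype.card_pos_iff.1 (Nat.cast_pos (α := ℝ).1
    (pos_of_mul_pos_left (by linarith) t0.le))
  have ms : ∀ t < k, 1 ≤ Ms t ∧ Ms t ≤ s * R.card := fun t ht =>
    ⟨m1.trans (hM t ht).1, (le_of_add_le_right ((ho o).gap t ht)).trans (M.cnt_le R _ _)⟩
  have hs : 1 ≤ s := Nat.pos_of_mul_pos_right (m1.trans (ms 0 hk).2)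
  have c1 : ((Set.univ : Set O').ncard : ℝ) = ⌈2 * N / T⌉₊ := by
    rw [Set.ncard_univ, Nat.card_eq_fintype_card, Fintype.card_coe, hO']
  obtain ⟨R', r1, r2, r3⟩ := H M R (2 * N) Ms T (fun o : O' => op o) (fun o => oσ o)
    (fun o => oy o) ⟨fun o => ho o, fun o o' h => hsep o o' fun e => h (Subtype.ext e), hM, m1, hk,
      hs⟩ hT hE (by linarith)
    (fun t ht => ((HA M R B (Ms t) hB (ms t ht).1 (ms t ht).2 hW).trans hN.le).trans (by linarith))
    (by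
      have a := Nat.ceil_lt_add_one (show 0 ≤ 2 * N / T from div_nonneg (by linarith) t0.le)
      have b : 2 * N / T ≤ N := (div_le_iff₀ t0).2 (by nlinarith)
      rw [c1]
      linarith)
    (by
      rw [c1]
      exact (div_le_iff₀ t0).1 (Nat.le_ceil _))
  exact absurd (hk' R' r1 r2) r3.not_gt

end CurK
end

-- merged part: Pool.Agent.Work.MP_8a5de9_co_K.HS
section
/-! Theorem HS and Corollary O (paper section 3). -/

namespace CurK

open Finset

theorem hs_cover {α β : Type} {S : Set α} {T : Set β} (hT : T.Finite) (f : β → Finset α) (k : ℕ)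
    (hf : ∀ b ∈ T, (f b).card ≤ k) (h : ∀ a ∈ S, ∃ b ∈ T, a ∈ f b) : S.ncard ≤ k * T.ncard := by
  classical
  have h1 : S ⊆ ↑(hT.toFinset.biUnion f) := fun a ha => by
    obtain ⟨b, hb, hab⟩ := h a ha
    exact mem_coe.2 (mem_biUnion.2 ⟨b, hT.mem_toFinset.2 hb, hab⟩)
  refine (Set.ncard_le_ncard h1 (Finset.finite_toSet _)).trans ?_
  rw [Set.ncard_coe_finset, Set.ncard_eq_toFinset_card T hT, mul_comm]
  exact card_biUnion_le_card_mul _ _ _ fun b hb => hf b (hT.mem_toFinset.1 hb)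

theorem hs_split {α : Type} (S : Set α) (Q : α → Prop) :
    S.ncard ≤ {x | x ∈ S ∧ Q x}.ncard + {x | x ∈ S ∧ ¬ Q x}.ncard := by
  refine le_trans (le_of_eq ?_) (Set.ncard_union_le _ _)
  congr 1
  ext x
  simp only [Set.mem_union, Set.mem_ofPred_eq]
  tauto

theorem hs_lift {I : Type} [DecidableEq I] {i : I} {σ : Finset I} (h : i ∉ σ) (Q : Prop) :
    ∃ σ' : Finset I, σ'.erase i = σ ∧ (i ∈ σ' ↔ Q) := by
  by_cases hQ : Q
  · exact ⟨insert i σ, erase_insert h, by simp [hQ]⟩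
  · exact ⟨σ, erase_eq_of_notMem h, by simp [hQ, h]⟩

theorem hs_sub {I : Type} [DecidableEq I] {i : I} {σ D : Finset I} (hi : i ∈ D)
    (h : σ.erase i ⊆ D.erase i) : σ ⊆ D := fun x hx => by
  by_cases hxi : x = i
  · exact hxi ▸ hi
  · exact mem_of_mem_erase (h (mem_erase.2 ⟨hxi, hx⟩))

theorem hs_mom {J : Type} [DecidableEq J] {ρ : ℝ} (h0 : 0 ≤ ρ) (h1 : ρ ≤ 1) (e : ℕ) :
    ∀ (A : Finset J) (c : ℝ), 0 ≤ c →
      Ex A ρ (fun R => ((R.card : ℝ) + c) ^ e) ≤ (ρ * A.card + c + e) ^ e := by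
  induction e with
  | zero => intro A c _; simp [Ex_const]
  | succ e ih =>
    intro A c hc
    have e1 : Ex A ρ (fun R => ((R.card : ℝ) + c) ^ (e + 1)) =
        Ex A ρ (fun R => ∑ _b ∈ R, ((R.card : ℝ) + c) ^ e) +
          c * Ex A ρ (fun R => ((R.card : ℝ) + c) ^ e) := by
      rw [← Ex_mul, ← Ex_add]
      refine Ex_congr fun R _ => ?_
      rw [sum_const, nsmul_eq_mul]
      ring
    have hA : (0 : ℝ) ≤ ρ * A.card := by positivity
    have e2 : ∀ b ∈ A, Ex (A.erase b) ρ (fun R => (((insert b R).card : ℝ) + c) ^ e) ≤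
        (ρ * A.card + c + (e + 1)) ^ e := fun b hb => by
      have e3 : Ex (A.erase b) ρ (fun R => (((insert b R).card : ℝ) + c) ^ e) =
          Ex (A.erase b) ρ (fun R => ((R.card : ℝ) + (c + 1)) ^ e) :=
        Ex_congr fun R hR => by
          rw [card_insert_of_notMem fun h => notMem_erase b A (hR h)]
          push_cast
          ring
      rw [e3]
      refine (ih _ _ (by linarith)).trans (pow_le_pow_left₀ (by positivity) ?_ e)
      have : ((A.erase b).card : ℝ) ≤ A.card := by exact_mod_cast card_erase_le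
      nlinarith
    have e4 := sum_le_card_nsmul _ _ _ e2
    rw [nsmul_eq_mul] at e4
    have e5 : (ρ * A.card + c + e) ^ e ≤ (ρ * A.card + c + (e + 1)) ^ e :=
      pow_le_pow_left₀ (by positivity) (by linarith) e
    have e6 := mul_le_mul_of_nonneg_left ((ih A c hc).trans e5) hc
    have e7 := mul_le_mul_of_nonneg_left e4 h0
    have e8 : (0 : ℝ) ≤ (ρ * A.card + c + (e + 1)) ^ e := by positivity
    have e9 : (0 : ℝ) ≤ (e + 1) * (ρ * A.card + c + (e + 1)) ^ e := by positivity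
    rw [e1, Ex_sum_mem A ρ (fun _ R => ((R.card : ℝ) + c) ^ e), pow_succ]
    push_cast
    nlinarith

theorem hs_mom' {J : Type} [DecidableEq J] {ρ : ℝ} (h0 : 0 ≤ ρ) (h1 : ρ ≤ 1) {j e : ℕ} (hj : j ≤ e)
    (A : Finset J) (hA : 1 ≤ ρ * (A.card + 1)) :
    Ex A ρ (fun R => ((R.card : ℝ) + 1) ^ e) ≤ ρ ^ j * ((e + 2) ^ e * (A.card + 1) ^ e) := by
  refine (hs_mom h0 h1 e A 1 zero_le_one).trans ?_
  have h2 : ρ * A.card + 1 + e ≤ ρ * ((e + 2) * (A.card + 1)) := by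
    have : (0 : ℝ) ≤ e := Nat.cast_nonneg e
    nlinarith
  refine (pow_le_pow_left₀ (by positivity) h2 e).trans ?_
  rw [mul_pow, mul_pow]
  exact mul_le_mul_of_nonneg_right (pow_le_pow_of_le_one h0 h1 hj) (by positivity)

section

variable {d s : ℕ} {I P V : Type} [DecidableEq I]

/-- The bad hits. -/
def hs_Bad (M : Mod d s I P V) (R : Finset I) : Set (P × ℕ) :=
  {x | x.2 < M.len x.1 ∧ M.cur x.1 ⊆ R ∧ M.hit x.1 x.2 ∈ R ∧
    ¬ ∃ v, ∃ i ∈ M.tup v, M.pc v i = x.1 ∧ M.ps v i = x.2}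

theorem hs_Bad_fin [Finite P] (M : Mod d s I P V) (R : Finset I) : (hs_Bad M R).Finite :=
  (Set.finite_univ.biUnion fun p _ => (Set.finite_Iio (M.len p)).image (Prod.mk p)).subset
    fun x hx => Set.mem_biUnion (Set.mem_univ x.1) ⟨x.2, hx.1, rfl⟩

theorem hs_OV_fin [Finite V] (M : Mod d s I P V) (R : Finset I) :
    {x : V × Finset I | M.OV R x.1 x.2}.Finite :=
  (Set.finite_univ.biUnion fun v _ =>
    ((M.tup v).powerset.finite_toSet).image (Prod.mk v)).subset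
    fun x hx => Set.mem_biUnion (Set.mem_univ x.1) ⟨x.2, mem_coe.2 (mem_powerset.2 hx.2.1), rfl⟩

theorem hs_tup (M : Mod d s I P V) {v : V} {i : I} (hi : i ∈ M.tup v) :
    insert (M.hit (M.pc v i) (M.ps v i)) (M.cur (M.pc v i)) = M.tup v := by
  rw [M.ps_hit v i hi, M.pc_cur v i hi, insert_erase hi]

theorem hs_pow (M : Mod d s I P V) (p : P) : (M.cur p).powerset.card ≤ 2 ^ d := by
  rw [card_powerset]
  exact Nat.pow_le_pow_right (by norm_num) (by have := M.cur_card p; omega)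

end

theorem ww_le {d s : ℕ} {I P V : Type} [DecidableEq I] [Finite P] [Finite V] (M : Mod d s I P V)
    (R : Finset I) : M.WW R ≤ d * M.VV R + 2 ^ d * s * (R.card + 1) ^ (d - 1) := by
  classical
  refine (hs_split _ fun x : P × Finset I × ℕ =>
    ∃ v, ∃ i ∈ M.tup v, M.pc v i = x.1 ∧ M.ps v i = x.2.2).trans (add_le_add ?_ ?_)
  · refine hs_cover (hs_OV_fin M R)
      (fun x => (M.tup x.1).image fun i => (M.pc x.1 i, x.2.erase i, M.ps x.1 i)) d
      (fun b _ => card_image_le.trans (M.tup_card _).le) ?_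
    rintro ⟨p, σ, a⟩ ⟨⟨h1, h2, h3⟩, v, i, hi, rfl, rfl⟩
    simp only at h1 h2 h3
    have hs : M.cur (M.pc v i) ⊆ R ∧ σ ⊆ M.cur (M.pc v i) := by
      rcases h3 with h | h
      · exact ⟨(M.vis_sub h).1, (M.vis_sub h).2.1⟩
      · exact ⟨(M.vis_sub h).1, (M.vis_sub h).2.1⟩
    have hR : M.tup v ⊆ R := by
      rw [← hs_tup M hi]; exact insert_subset h2 hs.1
    have hσ := hs.2
    rw [M.pc_cur v i hi] at hσ
    have hiσ : i ∉ σ := fun h => notMem_erase i _ (hσ h)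
    have key : ∀ σ' : Finset I, σ'.erase i = σ →
        M.Vis R (M.pc v i) σ (M.ps v i + if (i ∈ σ' ↔ i ∈ M.dir v) then 1 else 0) →
        ∃ b ∈ {x : V × Finset I | M.OV R x.1 x.2}, (M.pc v i, σ, M.ps v i) ∈
          (M.tup b.1).image fun i => (M.pc b.1 i, b.2.erase i, M.ps b.1 i) := by
      intro σ' e hv
      have h4 : σ' ⊆ M.tup v := hs_sub hi (e ▸ hσ)
      refine ⟨(v, σ'), ⟨hR, h4, fun j hj => M.link R v σ' hR h4 i hi j hj (e ▸ hv)⟩, ?_⟩
      exact mem_image.2 ⟨i, hi, by rw [e]⟩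
    rcases h3 with h | h
    · obtain ⟨σ', e, h5⟩ := hs_lift hiσ (i ∉ M.dir v)
      exact key σ' e (by rw [if_neg (by tauto)]; exact h)
    · obtain ⟨σ', e, h5⟩ := hs_lift hiσ (i ∈ M.dir v)
      exact key σ' e (by rw [if_pos h5]; exact h)
  · rw [mul_assoc]
    refine le_trans ?_ (Nat.mul_le_mul_left _ (M.bad R))
    refine hs_cover (hs_Bad_fin M R)
      (fun x => (M.cur x.1).powerset.image fun σ => (x.1, σ, x.2)) _
      (fun b _ => card_image_le.trans (hs_pow M _)) ?_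
    rintro ⟨p, σ, a⟩ ⟨⟨h1, h2, h3⟩, h4⟩
    simp only at h1 h2 h3 h4
    have hs : M.cur p ⊆ R ∧ σ ⊆ M.cur p := by
      rcases h3 with h | h
      · exact ⟨(M.vis_sub h).1, (M.vis_sub h).2.1⟩
      · exact ⟨(M.vis_sub h).1, (M.vis_sub h).2.1⟩
    exact ⟨(p, a), ⟨h1, hs.1, h2, h4⟩, mem_image.2 ⟨σ, mem_powerset.2 hs.2, rfl⟩⟩

section

variable {d s : ℕ} {I P V : Type} [DecidableEq I]

/-- A good pattern: the signs on `N` are given by `τ`, all completions are visible. -/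
def hs_Good (M : Mod d s I P V) (R : Finset I) (v : V) (N τ : Finset I) : Prop :=
  M.tup v ⊆ R ∧ N ⊆ M.tup v ∧ τ ⊆ N ∧ ∀ σ ⊆ M.tup v, σ ∩ N = τ → M.OV R v σ

/-- The number of higher vertices on the same patches. -/
noncomputable def hs_ab (M : Mod d s I P V) (ht : V → ℝ) (v : V) : ℕ :=
  {v' | M.tup v' = M.tup v ∧ ht v < ht v'}.ncard

/-- The sets of patches that carry a good pattern of rank below `l`. -/
def hs_T (M : Mod d s I P V) (ht : V → ℝ) (l : ℕ) (R : Finset I) : Set (Finset I) :=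
  {D | ∃ v N τ, M.tup v = D ∧ hs_Good M R v N τ ∧ s * N.card + hs_ab M ht v < l}

/-- A slot is visible for all completions. -/
def hs_All (M : Mod d s I P V) (R : Finset I) (p : P) (N τ : Finset I) (x : ℕ) : Prop :=
  ∀ σ ⊆ M.cur p, σ ∩ N = τ → M.Vis R p σ x

/-- Long slots. -/
def hs_Long (M : Mod d s I P V) (R : Finset I) (m : ℕ) (p : P) (N τ : Finset I) (x : ℕ) : Prop :=
  N ⊆ M.cur p ∧ τ ⊆ N ∧ hs_All M R p N τ x ∧
    ¬ ∃ y, x < y ∧ hs_All M R p N τ y ∧ (M.cf R p x y).card ≤ m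

theorem hs_ab_lt [Finite V] (M : Mod d s I P V) (ht : V → ℝ) (v : V) : hs_ab M ht v < s := by
  refine lt_of_lt_of_le (Set.ncard_lt_ncard ?_ (Set.toFinite _)) (M.tup_le (M.tup v))
  exact ⟨fun x hx => hx.1, fun h => lt_irrefl _ (h (rfl : M.tup v = M.tup v)).2⟩

theorem hs_ab_mono [Finite V] (M : Mod d s I P V) (ht : V → ℝ) {v v' : V}
    (h : M.tup v' = M.tup v) (h' : ht v < ht v') : hs_ab M ht v' < hs_ab M ht v := by
  refine Set.ncard_lt_ncard ?_ (Set.toFinite _)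
  exact ⟨fun x hx => ⟨hx.1.trans h, h'.trans hx.2⟩, fun k => lt_irrefl _ (k ⟨h, h'⟩).2⟩

theorem hs_T_sub (M : Mod d s I P V) (ht : V → ℝ) (l : ℕ) (R : Finset I) :
    hs_T M ht l R ⊆ ↑(R.powersetCard d) := by
  rintro D ⟨v, N, τ, rfl, h, -⟩
  exact mem_coe.2 (mem_powersetCard.2 ⟨h.1, M.tup_card v⟩)

theorem hs_T_fin (M : Mod d s I P V) (ht : V → ℝ) (l : ℕ) (R : Finset I) :
    (hs_T M ht l R).Finite := (Finset.finite_toSet _).subset (hs_T_sub M ht l R)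

theorem hs_T_le (M : Mod d s I P V) (ht : V → ℝ) (l : ℕ) (R : Finset I) :
    (hs_T M ht l R).ncard ≤ (R.card + 1) ^ d := by
  refine (Set.ncard_le_ncard (hs_T_sub M ht l R) (Finset.finite_toSet _)).trans ?_
  rw [Set.ncard_coe_finset, card_powersetCard]
  exact (Nat.choose_le_pow _ _).trans (Nat.pow_le_pow_left (by omega) _)

theorem hs_VV [Finite V] (M : Mod d s I P V) (ht : V → ℝ) (R : Finset I) :
    M.VV R ≤ s * 2 ^ d * (hs_T M ht (s * (d + 1)) R).ncard := by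
  classical
  refine hs_cover (hs_T_fin M ht _ R)
    (fun D => (Set.toFinite {v | M.tup v = D}).toFinset ×ˢ D.powerset) _ (fun D hD => ?_) ?_
  · rw [card_product, card_powerset, ← Set.ncard_eq_toFinset_card,
      (mem_powersetCard.1 (mem_coe.1 (hs_T_sub M ht _ R hD))).2]
    exact Nat.mul_le_mul_right _ (M.tup_le D)
  · rintro ⟨v, σ⟩ h
    refine ⟨M.tup v, ⟨v, M.tup v, σ, rfl, ⟨h.1, Subset.rfl, h.2.1, fun σ' h1 h2 => ?_⟩, ?_⟩, ?_⟩
    · rw [inter_eq_left.2 h1] at h2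
      exact h2 ▸ h
    · have := hs_ab_lt M ht v
      rw [M.tup_card, mul_add_one]
      omega
    · exact mem_product.2 ⟨(Set.Finite.mem_toFinset _).2 rfl, mem_powerset.2 h.2.1⟩

theorem hs_inter {i : I} {σ N τ : Finset I} (h : σ ∩ N = τ) :
    σ.erase i ∩ N.erase i = τ.erase i := by
  rw [← h]
  ext x
  simp only [mem_inter, mem_erase]
  tauto

theorem hs_tri [Finite V] (M : Mod d s I P V) {ht : V → ℝ} (H : M.Hts ht) (l m : ℕ)
    {R D : Finset I} (hD : D ∈ hs_T M ht (l + 1) R) :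
    (∃ v, M.OV R v (M.dir v) ∧ D = M.tup v) ∨
    (∃ p N τ a, hs_Long M R m p N τ a ∧ D = insert (M.hit p a) (M.cur p)) ∨
    ∃ K ⊆ R, Disjoint D K ∧ K.card ≤ m ∧ ∀ R', D ⊆ R' → R' ⊆ R → Disjoint K R' →
      D ∈ hs_T M ht l R' ∨ ∃ x ∈ hs_Bad M R', D = insert (M.hit x.1 x.2) (M.cur x.1) := by
  obtain ⟨v, N, τ, rfl, ⟨g1, g2, g3, g4⟩, hr⟩ := hD
  by_cases h : ∀ i ∈ N, (i ∈ τ ↔ i ∈ M.dir v)
  · refine Or.inl ⟨v, g4 _ (M.dir_sub v) ?_, rfl⟩
    ext x
    rw [mem_inter]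
    exact ⟨fun k => (h x k.2).2 k.1, fun k => ⟨(h x (g3 k)).1 k, g3 k⟩⟩
  right
  obtain ⟨i, hiN, hne⟩ : ∃ i ∈ N, ¬ (i ∈ τ ↔ i ∈ M.dir v) := by
    by_contra k
    exact h fun i hi => by_contra fun k' => k ⟨i, hi, k'⟩
  have hi := g2 hiN
  have c1 := M.pc_cur v i hi
  have c2 := M.ps_lt v i hi
  have c3 := M.ps_hit v i hi
  have c4 := hs_tup M hi
  have hall : hs_All M R (M.pc v i) (N.erase i) (τ.erase i) (M.ps v i) := by
    intro σ h1 h2
    rw [c1] at h1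
    have hiσ : i ∉ σ := fun k => notMem_erase i _ (h1 k)
    obtain ⟨σ', e, h5⟩ := hs_lift hiσ (i ∈ τ)
    have h6 : σ' ∩ N = τ := by
      ext x
      by_cases hx : x = i
      · rw [hx, mem_inter, h5]
        exact and_iff_left hiN
      · have := Finset.ext_iff.1 h2 x
        rw [← e] at this
        simpa only [mem_inter, mem_erase, ne_eq, hx, not_false_eq_true, true_and] using this
    have h7 := (g4 σ' (hs_sub hi (e ▸ h1)) h6).2.2 i hi
    rw [e, if_neg (by rw [h5]; exact hne)] at h7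
    exact h7
  have hN' : N.erase i ⊆ M.cur (M.pc v i) := c1 ▸ erase_subset_erase i g2
  have hτ' : τ.erase i ⊆ N.erase i := erase_subset_erase i g3
  by_cases hl : ∃ y, M.ps v i < y ∧ hs_All M R (M.pc v i) (N.erase i) (τ.erase i) y ∧
      (M.cf R (M.pc v i) (M.ps v i) y).card ≤ m
  swap
  · exact Or.inl ⟨_, _, _, _, ⟨hN', hτ', hall, hl⟩, c4.symm⟩
  right
  obtain ⟨y, y1, y2, y3⟩ := hl
  have y4 : y ≤ M.len (M.pc v i) :=
    (M.vis_sub (y2 _ (hτ'.trans hN') (inter_eq_left.2 hτ'))).2.2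
  obtain ⟨a', ha', hmax⟩ := Finset.exists_max_image
    ((Ico (M.ps v i) y).filter fun b => M.hit (M.pc v i) b = i) id
    ⟨M.ps v i, mem_filter.2 ⟨mem_Ico.2 ⟨le_rfl, y1⟩, c3⟩⟩
  obtain ⟨a1, a2⟩ := mem_filter.1 ha'
  obtain ⟨a3, a4⟩ := mem_Ico.1 a1
  refine ⟨(M.cf R (M.pc v i) (M.ps v i) y).erase i,
    fun w hw => (mem_filter.1 (mem_of_mem_erase hw)).2, ?_, card_erase_le.trans y3, ?_⟩
  · rw [disjoint_left]
    intro w h1 h2
    obtain ⟨h3, h4⟩ := mem_erase.1 h2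
    obtain ⟨b, hb, rfl⟩ := mem_image.1 (mem_filter.1 h4).1
    exact M.hit_not _ _ (mem_filter.1 hb).2 (c1 ▸ mem_erase.2 ⟨h3, h1⟩)
  intro R' r1 r2 r3
  have r4 : M.cur (M.pc v i) ⊆ R' := c1 ▸ (erase_subset _ _).trans r1
  have hcf : M.cf R' (M.pc v i) (a' + 1) y = ∅ := by
    rw [eq_empty_iff_forall_notMem]
    intro w hw
    obtain ⟨h1, h2⟩ := mem_filter.1 hw
    obtain ⟨b, hb, rfl⟩ := mem_image.1 h1
    obtain ⟨h3, h4⟩ := mem_filter.1 hb
    obtain ⟨h5, h6⟩ := mem_Ico.1 h3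
    have h7 : b ∈ Ico (M.ps v i) y := mem_Ico.2 ⟨by omega, h6⟩
    refine disjoint_left.1 r3 (mem_erase.2 ⟨fun k => ?_, mem_filter.2
      ⟨mem_image.2 ⟨b, mem_filter.2 ⟨h7, h4⟩, rfl⟩, r2 h2⟩⟩) h2
    have : b ≤ a' := hmax b (mem_filter.2 ⟨h7, k⟩)
    omega
  have hnext : hs_All M R' (M.pc v i) (N.erase i) (τ.erase i) (a' + 1) := fun σ h1 h2 =>
    (M.slide' (by omega) y4 hcf).2 (M.mono r4 r2 (y2 σ h1 h2))
  have hs1 := hs_ab_lt M ht v
  rcases eq_or_lt_of_le a3 with e | e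
  · refine Or.inl ⟨v, N.erase i, τ.erase i, rfl, ⟨r1, (erase_subset _ _).trans g2, hτ',
      fun σ h1 h2 => ⟨r1, h1, fun j hj => M.link R' v σ r1 h1 i hi j hj ?_⟩⟩, ?_⟩
    · have h3 : σ.erase i ⊆ M.cur (M.pc v i) := c1 ▸ erase_subset_erase i h1
      have h4 : σ.erase i ∩ N.erase i = τ.erase i := by
        have := hs_inter (i := i) h2
        rwa [erase_idem, erase_idem] at this
      split_ifs
      · rw [e]; exact hnext _ h3 h4
      · exact M.mono r4 r2 (hall _ h3 h4)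
    · rw [← card_erase_add_one hiN, mul_add_one] at hr
      omega
  · by_cases hreg : ∃ v', ∃ i' ∈ M.tup v', M.pc v' i' = M.pc v i ∧ M.ps v' i' = a'
    swap
    · refine Or.inr ⟨(M.pc v i, a'), ⟨by simp only; omega, r4, ?_, hreg⟩, ?_⟩
      · simp only [a2]; exact r1 hi
      · simp only [a2, c1, insert_erase hi]
    obtain ⟨v', i', hi', p1, p2⟩ := hreg
    have p3 : i' = i := by rw [← M.ps_hit v' i' hi', p1, p2, a2]
    subst p3
    have p4 : M.tup v' = M.tup v := by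
      rw [← insert_erase hi', ← M.pc_cur v' i' hi', p1, c1, insert_erase hi]
    have p5 := hs_ab_mono M ht p4 (H.lt v v' i' hi i' hi' p1.symm (by omega))
    obtain ⟨τ', e1, e2⟩ := hs_lift (notMem_erase i' τ) (i' ∈ M.dir v')
    refine Or.inl ⟨v', N, τ', p4, ⟨p4 ▸ r1, p4 ▸ g2, hs_sub hiN (e1 ▸ hτ'), fun σ h1 h2 =>
      ⟨p4 ▸ r1, h1, fun j hj => M.link R' v' σ (p4 ▸ r1) h1 i' hi' j hj ?_⟩⟩, by omega⟩
    have h3 : i' ∈ σ ↔ i' ∈ M.dir v' := by
      rw [← e2, ← h2, mem_inter]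
      exact (and_iff_left hiN).symm
    rw [if_pos h3, p1, p2]
    refine hnext _ (c1 ▸ erase_subset_erase i' (p4 ▸ h1)) ?_
    rw [hs_inter h2, e1]

theorem hs_code (M : Mod d s I P V) : ∃ code : P → Finset I → ℕ,
    (∀ p N, N ⊆ M.cur p → code p N < 2 ^ d) ∧
      ∀ p N N', N ⊆ M.cur p → N' ⊆ M.cur p → code p N = code p N' → N = N' := by
  refine ⟨fun p N => if h : N ⊆ M.cur p then
    ((M.cur p).powerset.equivFin ⟨N, mem_powerset.2 h⟩ : ℕ) else 0, fun p N h => ?_,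
    fun p N N' h h' e => ?_⟩
  · simp only [dif_pos h]
    exact lt_of_lt_of_le (Fin.is_lt _) (hs_pow M p)
  · simp only [dif_pos h, dif_pos h'] at e
    exact congrArg Subtype.val ((M.cur p).powerset.equivFin.injective (Fin.ext e))

theorem hs_long [Finite P] (M : Mod d s I P V) (R : Finset I) (m : ℕ) {A : ℝ}
    (hA : ∀ S, M.Sep R m S → (S.card : ℝ) ≤ A) {T : Set (Finset I)}
    (hT : ∀ D ∈ T, ∃ p N τ a, hs_Long M R m p N τ a ∧ D = insert (M.hit p a) (M.cur p)) :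
    (T.ncard : ℝ) ≤ 2 ^ d * A := by
  classical
  obtain ⟨code, c1, c2⟩ := hs_code M
  have hv : ∀ {p N τ a}, hs_Long M R m p N τ a → M.Vis R p τ a := fun h =>
    h.2.2.1 _ (h.2.1.trans h.1) (inter_eq_left.2 h.2.1)
  have fin : ∀ c : ℕ, {x : P × Finset I × ℕ | ∃ N, code x.1 N = c ∧
      hs_Long M R m x.1 N x.2.1 x.2.2}.Finite := fun c =>
    (Set.finite_univ.biUnion fun p _ => (((M.cur p).powerset.finite_toSet).prod
      (Set.finite_Iic (M.len p))).image (Prod.mk p)).subset (by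
        rintro ⟨p, τ, a⟩ ⟨N, -, h⟩
        have := M.vis_sub (hv h)
        exact Set.mem_biUnion (Set.mem_univ p)
          ⟨(τ, a), ⟨mem_coe.2 (mem_powerset.2 this.2.1), this.2.2⟩, rfl⟩)
  have sep : ∀ c, M.Sep R m (fin c).toFinset := fun c => by
    refine ⟨fun x hx => ?_, fun p σ x y hx hy hxy => ?_⟩
    · obtain ⟨N, -, h⟩ := (fin c).mem_toFinset.1 hx
      exact hv h
    · obtain ⟨N, e, h⟩ := (fin c).mem_toFinset.1 hx
      obtain ⟨N', e', h'⟩ := (fin c).mem_toFinset.1 hy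
      have := c2 p N N' h.1 h'.1 (e.trans e'.symm)
      subst this
      by_contra k
      exact h.2.2.2 ⟨y, hxy, h'.2.2.1, not_lt.1 k⟩
  have h1 : T ⊆ ↑((range (2 ^ d)).biUnion fun c =>
      (fin c).toFinset.image fun x => insert (M.hit x.1 x.2.2) (M.cur x.1)) := fun D hD => by
    obtain ⟨p, N, τ, a, h, rfl⟩ := hT D hD
    exact mem_coe.2 (mem_biUnion.2 ⟨code p N, mem_range.2 (c1 p N h.1),
      mem_image.2 ⟨(p, τ, a), (fin _).mem_toFinset.2 ⟨N, rfl, h⟩, rfl⟩⟩)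
  have h2 := Set.ncard_le_ncard h1 (Finset.finite_toSet _)
  rw [Set.ncard_coe_finset] at h2
  have h3 : (T.ncard : ℝ) ≤ ∑ c ∈ range (2 ^ d), ((fin c).toFinset.card : ℝ) := by
    exact_mod_cast h2.trans (card_biUnion_le.trans (sum_le_sum fun c _ => card_image_le))
  refine h3.trans ((sum_le_card_nsmul _ _ A fun c _ => hA _ (sep c)).trans (le_of_eq ?_))
  simp

theorem hs_short [Finite P] (M : Mod d s I P V) (ht : V → ℝ) (R : Finset I) (l m : ℕ) {ρ : ℝ}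
    (h0 : 0 ≤ ρ) (h1 : ρ ≤ 1) (hρ : m * ρ ≤ 1 / 2) {T : Set (Finset I)}
    (hT1 : T ⊆ ↑(R.powersetCard d))
    (hT : ∀ D ∈ T, ∃ K ⊆ R, Disjoint D K ∧ K.card ≤ m ∧ ∀ R', D ⊆ R' → R' ⊆ R → Disjoint K R' →
      D ∈ hs_T M ht l R' ∨ ∃ x ∈ hs_Bad M R', D = insert (M.hit x.1 x.2) (M.cur x.1)) :
    (T.ncard : ℝ) * (ρ ^ d / 2) ≤
      Ex R ρ fun R' => ((hs_T M ht l R').ncard : ℝ) + s * (R'.card + 1) ^ (d - 1) := by
  classical
  have fin : T.Finite := (Finset.finite_toSet _).subset hT1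
  choose! K k1 k2 k3 k4 using hT
  have e1 : ∀ D ∈ fin.toFinset, ρ ^ d / 2 ≤
      Ex R ρ (fun R' => if D ⊆ R' ∧ Disjoint (K D) R' then 1 else 0) := fun D hD => by
    have hD' := fin.mem_toFinset.1 hD
    obtain ⟨q1, q2⟩ := mem_powersetCard.1 (mem_coe.1 (hT1 hD'))
    rw [Ex_ind q1 (k1 D hD') (k2 D hD'), q2, div_eq_mul_one_div]
    refine mul_le_mul_of_nonneg_left ?_ (pow_nonneg h0 _)
    have q3 := one_add_mul_le_pow (a := -ρ) (by linarith) (K D).card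
    have q4 : ((K D).card : ℝ) ≤ m := by exact_mod_cast k3 D hD'
    rw [← sub_eq_add_neg] at q3
    nlinarith
  have e2 := card_nsmul_le_sum _ _ _ e1
  rw [nsmul_eq_mul, ← Set.ncard_eq_toFinset_card T fin, ← Ex_sum] at e2
  refine e2.trans (Ex_mono h0 h1 fun R' hR' => ?_)
  rw [sum_boole]
  have e3 : (↑(fin.toFinset.filter fun D => D ⊆ R' ∧ Disjoint (K D) R') : Set (Finset I)) ⊆
      hs_T M ht l R' ∪ (fun x : P × ℕ => insert (M.hit x.1 x.2) (M.cur x.1)) '' hs_Bad M R' :=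
    fun D hD => by
      obtain ⟨q1, q2, q3⟩ := mem_filter.1 (mem_coe.1 hD)
      rcases k4 D (fin.mem_toFinset.1 q1) R' q2 hR' q3 with q | ⟨x, q4, q5⟩
      · exact Or.inl q
      · exact Or.inr ⟨x, q4, q5.symm⟩
  have e4 := (Set.ncard_le_ncard e3 ((hs_T_fin M ht l R').union
    ((hs_Bad_fin M R').image _))).trans ((Set.ncard_union_le _ _).trans
      (Nat.add_le_add_left ((Set.ncard_image_le (hs_Bad_fin M R')).trans (M.bad R')) _))
  rw [Set.ncard_coe_finset] at e4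
  exact_mod_cast e4

end

theorem hs_ind (d s e : ℕ) (hd : 2 ≤ d) (he : d - 1 ≤ e) (Fm : ℝ → ℕ) (FC : ℝ → ℝ)
    (hF : ∀ ε, 0 < ε → 2 ≤ Fm ε) (l : ℕ) : ∀ η : ℝ, 0 < η → ∃ C : ℝ, 0 ≤ C ∧
    ∀ {I P V : Type} [DecidableEq I] [Finite P] [Finite V] (M : Mod d s I P V) (ht : V → ℝ),
      M.Hts ht → ∀ (R0 : Finset I) (L B : ℝ), 1 ≤ L → 0 ≤ B →
      (∀ ε, 0 < ε → ∀ R ⊆ R0, ∀ S, M.Sep R (Fm ε) S →
        (S.card : ℝ) ≤ FC ε * L * (R.card + 1) ^ (d - 1) + ε * B * (R.card + 1) ^ e) →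
      ∀ R ⊆ R0, ((hs_T M ht l R).ncard : ℝ) ≤
        C * L * (R.card + 1) ^ (d - 1) + η * B * (R.card + 1) ^ e := by
  induction l with
  | zero =>
    intro η hη
    refine ⟨0, le_rfl, fun M ht _ R0 L B hL hB _ R _ => ?_⟩
    have : hs_T M ht 0 R = ∅ := by
      rw [Set.eq_empty_iff_forall_notMem]
      rintro D ⟨v, N, τ, -, -, h⟩
      omega
    rw [this, Set.ncard_empty, Nat.cast_zero]
    positivity
  | succ l ih =>
    intro η hη
    have hε : 0 < η / (2 * 2 ^ d) := by positivity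
    set ε := η / (2 * 2 ^ d) with hεd
    have hm : (2 : ℝ) ≤ Fm ε := by exact_mod_cast hF ε hε
    set m := Fm ε with hmd
    have hm0 : (0 : ℝ) < m := by linarith
    obtain ⟨C', hC', IH⟩ := ih (η / (8 * m * (e + 2) ^ e)) (by positivity)
    set η' := η / (8 * m * (e + 2) ^ e) with hη'
    set G : ℝ := (((d - 1 : ℕ) : ℝ) + 2) ^ (d - 1) with hG
    have hG0 : 0 ≤ G := by positivity
    refine ⟨s + 2 ^ d * |FC ε| + 4 * m * (C' + s) * G + 2 * m, by positivity,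
      fun {I P V} _ _ _ M ht H R0 L B hL hB hS R hR => ?_⟩
    set X : ℝ := ((R.card : ℝ) + 1) ^ (d - 1) with hX
    set Y : ℝ := ((R.card : ℝ) + 1) ^ e with hY
    have hX0 : 0 ≤ X := by positivity
    have hY0 : 0 ≤ Y := by positivity
    have hLX : X ≤ L * X := le_mul_of_one_le_left hX0 hL
    have hLX0 : 0 ≤ L * X := hX0.trans hLX
    have hBY : 0 ≤ B * Y := mul_nonneg hB hY0
    have n1 : 0 ≤ (s : ℝ) * (L * X) := by positivity
    have n2 : 0 ≤ 2 ^ d * |FC ε| * (L * X) := by positivity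
    have n3 : 0 ≤ 4 * m * (C' + s) * G * (L * X) := by positivity
    have n4 : 0 ≤ 2 * m * (L * X) := by positivity
    have n5 : 0 ≤ η * (B * Y) := by positivity
    have goal : (s + 2 ^ d * |FC ε| + 4 * m * (C' + s) * G + 2 * m) * L * X + η * B * Y =
        s * (L * X) + 2 ^ d * |FC ε| * (L * X) + 4 * m * (C' + s) * G * (L * X) +
          2 * m * (L * X) + η * (B * Y) := by ring
    rw [goal]
    by_cases hn : (R.card : ℝ) + 1 ≤ 2 * m
    · have t1 : ((hs_T M ht (l + 1) R).ncard : ℝ) ≤ ((R.card : ℝ) + 1) ^ d := by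
        exact_mod_cast hs_T_le M ht (l + 1) R
      have t2 : ((R.card : ℝ) + 1) ^ d = (R.card + 1) * X := by
        rw [hX, ← pow_succ', Nat.sub_add_cancel (by omega)]
      have t3 : ((R.card : ℝ) + 1) * X ≤ 2 * m * (L * X) := mul_le_mul hn hLX hX0 (by linarith)
      linarith
    set ρ : ℝ := 1 / (2 * m) with hρ
    have ρ0 : 0 < ρ := by positivity
    have ρ1 : 2 * m * ρ = 1 := by rw [hρ]; field_simp
    have ρ2 : ρ ≤ 1 := by nlinarith
    have ρ3 : 1 ≤ ρ * (R.card + 1) := by nlinarith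
    set Q1 : Finset I → Prop := fun D => ∃ v, M.OV R v (M.dir v) ∧ D = M.tup v with hQ1
    set Q2 : Finset I → Prop := fun D =>
      ∃ p N τ a, hs_Long M R m p N τ a ∧ D = insert (M.hit p a) (M.cur p) with hQ2
    have s1 := hs_split (hs_T M ht (l + 1) R) Q1
    have s2 := hs_split {x | x ∈ hs_T M ht (l + 1) R ∧ ¬ Q1 x} Q2
    have s3 : ((hs_T M ht (l + 1) R).ncard : ℝ) ≤
        ({x | x ∈ hs_T M ht (l + 1) R ∧ Q1 x}.ncard : ℝ) +
        (({x | x ∈ {x | x ∈ hs_T M ht (l + 1) R ∧ ¬ Q1 x} ∧ Q2 x}.ncard : ℝ) +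
        ({x | x ∈ {x | x ∈ hs_T M ht (l + 1) R ∧ ¬ Q1 x} ∧ ¬ Q2 x}.ncard : ℝ)) := by
      exact_mod_cast s1.trans (Nat.add_le_add_left s2 _)
    have b1 : ({x | x ∈ hs_T M ht (l + 1) R ∧ Q1 x}.ncard : ℝ) ≤ s * X := by
      have q : {x | x ∈ hs_T M ht (l + 1) R ∧ Q1 x} ⊆ M.tup '' {v | M.OV R v (M.dir v)} := by
        rintro D ⟨-, v, q1, q2⟩
        exact ⟨v, q1, q2.symm⟩
      have q' := (Set.ncard_le_ncard q (Set.toFinite _)).trans
        ((Set.ncard_image_le (Set.toFinite _)).trans (H.min R))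
      rw [hX]
      exact_mod_cast q'
    have b2 := hs_long M R m (hS ε hε R hR)
      (T := {x | x ∈ {x | x ∈ hs_T M ht (l + 1) R ∧ ¬ Q1 x} ∧ Q2 x}) fun D hD => hD.2
    have b3 := hs_short M ht R l m ρ0.le ρ2 (by linarith)
      (T := {x | x ∈ {x | x ∈ hs_T M ht (l + 1) R ∧ ¬ Q1 x} ∧ ¬ Q2 x})
      (fun D hD => hs_T_sub M ht _ R hD.1.1)
      fun D hD => ((hs_tri M H l m hD.1.1).resolve_left hD.1.2).resolve_left hD.2
    have b4 : (Ex R ρ fun R' => ((hs_T M ht l R').ncard : ℝ) + s * (R'.card + 1) ^ (d - 1)) ≤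
        Ex R ρ fun R' => (C' + s) * L * ((R'.card : ℝ) + 1) ^ (d - 1) +
          η' * B * ((R'.card : ℝ) + 1) ^ e :=
      Ex_mono ρ0.le ρ2 fun R' hR' => by
        have q1 := IH M ht H R0 L B hL hB hS R' (hR'.trans hR)
        have q2 : (0 : ℝ) ≤ s * ((R'.card : ℝ) + 1) ^ (d - 1) := by positivity
        have q3 := le_mul_of_one_le_left q2 hL
        nlinarith
    conv_rhs at b4 => rw [Ex_add, Ex_mul, Ex_mul]
    have b5 := mul_le_mul_of_nonneg_left (hs_mom' ρ0.le ρ2 (le_refl (d - 1)) R ρ3)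
      (by positivity : 0 ≤ (C' + s) * L)
    have b6 := mul_le_mul_of_nonneg_left (hs_mom' ρ0.le ρ2 he R ρ3)
      (by positivity : 0 ≤ η' * B)
    have b7 : ρ ^ d = ρ ^ (d - 1) * ρ := by rw [← pow_succ, Nat.sub_add_cancel (by omega)]
    set t : ℝ := ({x | x ∈ {x | x ∈ hs_T M ht (l + 1) R ∧ ¬ Q1 x} ∧ ¬ Q2 x}.ncard : ℝ) with htd
    have b8 : ρ ^ (d - 1) * (t * (ρ / 2)) ≤
        ρ ^ (d - 1) * ((C' + s) * G * (L * X) + η' * (e + 2) ^ e * (B * Y)) := by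
      calc _ = t * (ρ ^ d / 2) := by rw [b7]; ring
        _ ≤ _ := b3.trans (b4.trans (add_le_add b5 b6))
        _ = _ := by ring
    have b9 := mul_le_mul_of_nonneg_left (le_of_mul_le_mul_left b8 (pow_pos ρ0 _))
      (by linarith : (0 : ℝ) ≤ 4 * m)
    have c1 : 4 * m * (t * (ρ / 2)) = t := by linear_combination t * ρ1
    have c2 : 4 * m * ((C' + s) * G * (L * X) + η' * (e + 2) ^ e * (B * Y)) =
        4 * m * (C' + s) * G * (L * X) + η / 2 * (B * Y) := by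
      rw [hη']; field_simp; ring
    have c3 : 2 ^ d * (FC ε * L * X + ε * B * Y) = 2 ^ d * FC ε * (L * X) + η / 2 * (B * Y) := by
      rw [hεd]; field_simp
    have c4 : 2 ^ d * FC ε * (L * X) ≤ 2 ^ d * |FC ε| * (L * X) :=
      mul_le_mul_of_nonneg_right (mul_le_mul_of_nonneg_left (le_abs_self _) (by positivity)) hLX0
    have c5 : (s : ℝ) * X ≤ s * (L * X) := mul_le_mul_of_nonneg_left hLX (Nat.cast_nonneg s)
    rw [c1, c2] at b9
    rw [c3] at b2
    linarith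

/-- `F ε = (m, C)` is the pair that works for `ε`; the constant is uniform in the model. -/
theorem hs (d s e : ℕ) (hd : 2 ≤ d) (he : e = d - 1 ∨ e = d) (Fm : ℝ → ℕ) (FC : ℝ → ℝ)
    (hF : ∀ ε, 0 < ε → 2 ≤ Fm ε) (η : ℝ) (hη : 0 < η) : ∃ C : ℝ, 0 ≤ C ∧
    ∀ {I P V : Type} [DecidableEq I] [Finite P] [Finite V] (M : Mod d s I P V) (ht : V → ℝ),
      M.Hts ht → ∀ (R0 : Finset I) (L B : ℝ), 1 ≤ L → 0 ≤ B →
      (∀ ε, 0 < ε → ∀ R ⊆ R0, ∀ S, M.Sep R (Fm ε) S →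
        (S.card : ℝ) ≤ FC ε * L * (R.card + 1) ^ (d - 1) + ε * B * (R.card + 1) ^ e) →
      ∀ R ⊆ R0, (M.VV R : ℝ) ≤ C * L * (R.card + 1) ^ (d - 1) + η * B * (R.card + 1) ^ e := by
  obtain ⟨C, hC, h⟩ := hs_ind d s e hd (by omega) Fm FC hF (s * (d + 1))
    (η / (s * 2 ^ d + 1)) (by positivity)
  refine ⟨s * 2 ^ d * C, by positivity, fun M ht H R0 L B hL hB hS R hR => ?_⟩
  have h1 : (M.VV R : ℝ) ≤ s * 2 ^ d * ((hs_T M ht (s * (d + 1)) R).ncard : ℝ) := by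
    exact_mod_cast hs_VV M ht R
  have h2 := mul_le_mul_of_nonneg_left (h M ht H R0 L B hL hB hS R hR)
    (by positivity : (0 : ℝ) ≤ s * 2 ^ d)
  have h3 : (s : ℝ) * 2 ^ d * (η / (s * 2 ^ d + 1)) ≤ η := by
    rw [← mul_div_assoc, div_le_iff₀ (by positivity)]
    nlinarith
  have h4 := mul_le_mul_of_nonneg_right h3
    (by positivity : (0 : ℝ) ≤ B * ((R.card : ℝ) + 1) ^ e)
  nlinarith

theorem hs_sep {d s : ℕ} {I P V : Type} [DecidableEq I] [Finite P] (M : Mod d s I P V)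
    {R : Finset I} {m : ℕ} (hm : 0 < m) {S : Finset (P × Finset I × ℕ)} (hS : M.Sep R m S) :
    S.card ≤ 2 ^ d * (s * R.card / m + 1) * (s * (R.card + 1) ^ (d - 1)) := by
  classical
  have h1 : {p | M.cur p ⊆ R}.ncard ≤ s * (R.card + 1) ^ (d - 1) := by
    refine (hs_cover (R.powersetCard (d - 1)).finite_toSet
      (fun γ => (Set.toFinite {p | M.cur p = γ}).toFinset) s (fun γ _ => ?_) fun p hp => ?_).trans ?_
    · rw [← Set.ncard_eq_toFinset_card]; exact M.cur_le γ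
    · exact ⟨M.cur p, mem_coe.2 (mem_powersetCard.2 ⟨hp, by have := M.cur_card p; omega⟩),
        (Set.Finite.mem_toFinset _).2 rfl⟩
    · rw [Set.ncard_coe_finset, card_powersetCard]
      exact Nat.mul_le_mul_left _
        ((Nat.choose_le_pow _ _).trans (Nat.pow_le_pow_left (by omega) _))
  have h2 : ∀ p σ x y, (p, σ, x) ∈ S → (p, σ, y) ∈ S → x < y →
      M.cnt R p x / m < M.cnt R p y / m := fun p σ x y hx hy hxy => by
    have q1 := hS.2 p σ x y hx hy hxy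
    have q2 := (M.cf_le R p hxy.le).1
    calc _ < (M.cnt R p x + m) / m := by rw [Nat.add_div_right _ hm]; omega
      _ ≤ _ := Nat.div_le_div_right (by omega)
  have h3 : Set.InjOn (fun x : P × Finset I × ℕ => (x.1, x.2.1, M.cnt R x.1 x.2.2 / m)) ↑S := by
    rintro ⟨p, σ, x⟩ hx ⟨p', σ', y⟩ hy e
    simp only [Prod.mk.injEq] at e
    obtain ⟨rfl, rfl, e⟩ := e
    rcases lt_trichotomy x y with q | q | q
    · exact absurd e (h2 p σ x y hx hy q).ne
    · rw [q]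
    · exact absurd e (h2 p σ y x hy hx q).ne'
  rw [← Set.ncard_coe_finset, ← Set.InjOn.ncard_image h3]
  refine le_trans ?_ (Nat.mul_le_mul_left _ h1)
  refine hs_cover (Set.toFinite _) (fun p => ((M.cur p).powerset ×ˢ range (s * R.card / m + 1)).image
    (Prod.mk p)) _ (fun p _ => card_image_le.trans ?_) ?_
  · rw [card_product, card_range]
    exact Nat.mul_le_mul_right _ (hs_pow M p)
  · rintro _ ⟨⟨p, σ, x⟩, hx, rfl⟩
    have q := M.vis_sub (hS.1 _ hx)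
    exact ⟨p, q.1, mem_image.2 ⟨(σ, M.cnt R p x / m), mem_product.2 ⟨mem_powerset.2 q.2.1,
      mem_range.2 (Nat.lt_succ_of_le (Nat.div_le_div_right (M.cnt_le R p x)))⟩, rfl⟩⟩

/-- Corollary O. -/
theorem corO (d s : ℕ) (hd : 2 ≤ d) : ∃ k, 2 ≤ k ∧
    ∀ {I P V : Type} [DecidableEq I] [Finite P] [Finite V] (M : Mod d s I P V) (ht : V → ℝ),
      M.Hts ht → ∀ R : Finset I, R.card ≤ d * k → M.WW R < k ^ d := by
  have hd' : (2 : ℝ) ≤ d := by exact_mod_cast hd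
  obtain ⟨C, hC, h⟩ := hs d s d hd (Or.inr rfl) (fun ε => ⌈2 ^ d * (s : ℝ) ^ 2 / ε⌉₊ + 2)
    (fun _ => 2 ^ d * s) (fun _ _ => by omega) (1 / (2 * d * (2 * d) ^ d)) (by positivity)
  obtain ⟨k, hk⟩ := exists_nat_gt (2 * ((d * C + 2 ^ d * s) * (2 * d) ^ (d - 1)) + 2)
  have n0 : 0 ≤ (d * C + 2 ^ d * s) * (2 * (d : ℝ)) ^ (d - 1) := by positivity
  have hk2 : (2 : ℝ) ≤ k := by linarith
  refine ⟨k, by exact_mod_cast hk2, fun M ht H R hR => ?_⟩
  have h1 := h M ht H R 1 1 le_rfl zero_le_one (fun ε hε R' _ S hS => by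
    set m : ℕ := ⌈2 ^ d * (s : ℝ) ^ 2 / ε⌉₊ + 2 with hm
    have q0 : (0 : ℝ) < m := by rw [hm]; positivity
    have q1 : 2 ^ d * (s : ℝ) ^ 2 / ε ≤ m := (Nat.le_ceil _).trans (by rw [hm]; push_cast; linarith)
    rw [div_le_iff₀ hε] at q1
    have q2 : (S.card : ℝ) ≤ 2 ^ d * (((s * R'.card / m : ℕ) : ℝ) + 1) *
        (s * ((R'.card : ℝ) + 1) ^ (d - 1)) := by
      exact_mod_cast hs_sep M (by omega) hS
    have q3 : ((s * R'.card / m : ℕ) : ℝ) ≤ s * R'.card / m := by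
      exact_mod_cast Nat.cast_div_le (α := ℝ) (m := s * R'.card) (n := m)
    have q4 : ((R'.card : ℝ) + 1) ^ d = (R'.card + 1) * ((R'.card : ℝ) + 1) ^ (d - 1) := by
      rw [← pow_succ', Nat.sub_add_cancel (by omega)]
    have q5 : 2 ^ d * ((s : ℝ) * R'.card / m) * s ≤ ε * (R'.card + 1) := by
      have : 2 ^ d * ((s : ℝ) * R'.card / m) * s = 2 ^ d * (s : ℝ) ^ 2 * R'.card / m := by ring
      rw [this, div_le_iff₀ q0]
      have q6 : (0 : ℝ) ≤ R'.card := Nat.cast_nonneg _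
      nlinarith [mul_le_mul_of_nonneg_right q1 q6, mul_pos q0 hε]
    rw [q4]
    set X := ((R'.card : ℝ) + 1) ^ (d - 1)
    have hX : 0 ≤ X := by positivity
    have q7 : 2 ^ d * (((s * R'.card / m : ℕ) : ℝ) + 1) * (s * X) ≤
        2 ^ d * ((s : ℝ) * R'.card / m + 1) * (s * X) := by gcongr
    have q8 := mul_le_mul_of_nonneg_right q5 hX
    nlinarith) R Subset.rfl
  have h2 : (M.WW R : ℝ) ≤ d * (M.VV R : ℝ) + 2 ^ d * s * ((R.card : ℝ) + 1) ^ (d - 1) := by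
    exact_mod_cast ww_le M R
  have h3 : (R.card : ℝ) + 1 ≤ 2 * d * k := by
    have : (R.card : ℝ) ≤ d * k := by exact_mod_cast hR
    nlinarith
  have h4 : ((R.card : ℝ) + 1) ^ (d - 1) ≤ (2 * d) ^ (d - 1) * (k : ℝ) ^ (d - 1) := by
    rw [← mul_pow]; exact pow_le_pow_left₀ (by positivity) h3 _
  have h5 : ((R.card : ℝ) + 1) ^ d ≤ (2 * d) ^ d * (k : ℝ) ^ d := by
    rw [← mul_pow]; exact pow_le_pow_left₀ (by positivity) h3 _
  have h6 : (k : ℝ) ^ d = k * (k : ℝ) ^ (d - 1) := by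
    rw [← pow_succ', Nat.sub_add_cancel (by omega)]
  have h7 : (0 : ℝ) < (k : ℝ) ^ (d - 1) := by positivity
  have h8 : d * (1 / (2 * d * (2 * (d : ℝ)) ^ d) * 1 * ((R.card : ℝ) + 1) ^ d) ≤ (k : ℝ) ^ d / 2 := by
    calc _ ≤ d * (1 / (2 * d * (2 * (d : ℝ)) ^ d) * 1 * ((2 * d) ^ d * (k : ℝ) ^ d)) := by gcongr
      _ = _ := by field_simp
  have h9 := mul_le_mul_of_nonneg_left h4 (by positivity : 0 ≤ d * C + 2 ^ d * (s : ℝ))
  have h10 := mul_le_mul_of_nonneg_left h1 (by positivity : (0 : ℝ) ≤ d)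
  have h11 := mul_lt_mul_of_pos_right hk h7
  have : (M.WW R : ℝ) < (k : ℝ) ^ d := by nlinarith
  exact_mod_cast this

end CurK
end

-- merged part: Pool.Agent.Work.MP_8a5de9_co_K.Refl
section
/-! The reflected model: `hit p a ↦ hit p (len p - 1 - a)`, slot `x ↦ len p - x`,
`dir v ↦ tup v \ dir v`. -/

namespace CurK

open Finset

theorem rf_slot {I : Type} [DecidableEq I] {T D σ : Finset I} {i : I} (hi : i ∈ T) {a L : ℕ}
    (h : a < L) :
    (L - 1 - a + if (i ∈ σ ↔ i ∈ T \ D) then 1 else 0) ≤ L ∧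
      L - (L - 1 - a + if (i ∈ σ ↔ i ∈ T \ D) then 1 else 0) =
        a + if (i ∈ σ ↔ i ∈ D) then 1 else 0 := by
  by_cases h1 : i ∈ σ <;> by_cases h2 : i ∈ D <;>
    simp only [h1, h2, mem_sdiff, hi, not_true_eq_false, not_false_eq_true, and_false, and_self,
      iff_false, iff_true, if_true, if_false, iff_self] <;> omega

theorem rf_mem {a b x L : ℕ} (ha : a < L) (hb : b < L) (hx : x ∈ Set.uIcc a b) :
    x < L ∧ L - 1 - x ∈ Set.uIcc (L - 1 - a) (L - 1 - b) := by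
  rw [Set.mem_uIcc] at hx ⊢
  omega

/-- The reflected model. -/
def rfMod {d s : ℕ} {I P V : Type} [DecidableEq I] (M : Mod d s I P V) : Mod d s I P V where
  cur := M.cur
  cur_card := M.cur_card
  cur_le := M.cur_le
  len := M.len
  hit p a := M.hit p (M.len p - 1 - a)
  hit_not p a h := M.hit_not p _ (by omega)
  hit_le p w := by
    refine le_trans (card_le_card_of_injOn (fun a => M.len p - 1 - a) ?_ ?_) (M.hit_le p w)
    · intro a ha
      simp only [coe_filter, mem_range, Set.mem_ofPred_eq] at ha ⊢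
      exact ⟨by omega, ha.2⟩
    · intro a ha b hb hab
      simp only [coe_filter, mem_range, Set.mem_ofPred_eq] at ha hb hab
      omega
  Vis R p σ x := x ≤ M.len p ∧ M.Vis R p σ (M.len p - x)
  vis_sub h := ⟨(M.vis_sub h.2).1, (M.vis_sub h.2).2.1, h.1⟩
  mono h1 h2 h := ⟨h.1, M.mono h1 h2 h.2⟩
  slide := by
    intro R p σ x hx hh
    have k := M.slide (σ := σ) (show M.len p - 1 - x < M.len p by omega) hh
    have e1 : M.len p - x = M.len p - 1 - x + 1 := by omega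
    have e2 : M.len p - (x + 1) = M.len p - 1 - x := by omega
    rw [e1, e2]
    exact ⟨fun h => ⟨hx, k.2 h.2⟩, fun h => ⟨hx.le, k.1 h.2⟩⟩
  tup := M.tup
  tup_card := M.tup_card
  tup_le := M.tup_le
  pc := M.pc
  ps v i := M.len (M.pc v i) - 1 - M.ps v i
  dir v := M.tup v \ M.dir v
  dir_sub _ := sdiff_subset
  pc_cur := M.pc_cur
  ps_lt v i hi := by
    have := M.ps_lt v i hi
    omega
  ps_hit v i hi := by
    have := M.ps_lt v i hi
    have e : M.len (M.pc v i) - 1 - (M.len (M.pc v i) - 1 - M.ps v i) = M.ps v i := by omega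
    rw [e]
    exact M.ps_hit v i hi
  inj v v' i hi i' hi' h1 h2 := by
    have k1 := M.ps_lt v i hi
    have k2 := M.ps_lt v' i' hi'
    rw [h1] at h2 k1
    exact M.inj v v' i hi i' hi' h1 (by omega)
  bad R := by
    refine le_trans (le_of_eq ?_) (M.bad R)
    refine Set.ncard_congr (fun x _ => (x.1, M.len x.1 - 1 - x.2)) ?_ ?_ ?_
    · rintro ⟨p, a⟩ ⟨h1, h2, h3, h4⟩
      dsimp only at h1 h2 h3 h4
      refine ⟨show M.len p - 1 - a < M.len p by omega, h2, h3, ?_⟩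
      rintro ⟨v, i, hi, k1, k2⟩
      dsimp only at k1 k2
      exact h4 ⟨v, i, hi, k1, by rw [k1]; omega⟩
    · rintro ⟨p, a⟩ ⟨q, b⟩ ⟨h1, -⟩ ⟨h2, -⟩ h
      obtain ⟨rfl, h'⟩ := Prod.mk.inj h
      dsimp only at h1 h2 h'
      exact Prod.ext rfl (show a = b by omega)
    · rintro ⟨p, a⟩ ⟨h1, h2, h3, h4⟩
      dsimp only at h1 h2 h3 h4
      have e : M.len p - 1 - (M.len p - 1 - a) = a := by omega
      refine ⟨(p, M.len p - 1 - a), ⟨show M.len p - 1 - a < M.len p by omega, h2, ?_, ?_⟩,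
        Prod.ext rfl e⟩
      · show M.hit p (M.len p - 1 - (M.len p - 1 - a)) ∈ R
        rwa [e]
      · rintro ⟨v, i, hi, k1, k2⟩
        dsimp only at k1 k2
        have := M.ps_lt v i hi
        rw [k1] at k2 this
        exact h4 ⟨v, i, hi, k1, by omega⟩
  link R v σ h1 h2 i hi j hj h := by
    have ki := rf_slot (D := M.dir v) (σ := σ) hi (M.ps_lt v i hi)
    have kj := rf_slot (D := M.dir v) (σ := σ) hj (M.ps_lt v j hj)
    refine ⟨kj.1, ?_⟩
    have h' := h.2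
    rw [ki.2] at h'
    rw [kj.2]
    exact M.link R v σ h1 h2 i hi j hj h'
  lab := M.lab
  lab_eq := M.lab_eq
  nu := M.nu
  ep := M.ep
  ep_anti := M.ep_anti
  pl F p q u z i j h1 h2 h3 h4 h5 h6 h7 := by
    refine M.pl F p q u z i j h1 h2 h3 h4 h5 h6 fun x hx y hy => ?_
    have a1 := M.ps_lt _ _ (h5 true).1
    have a2 := M.ps_lt _ _ (h5 false).1
    have b1 := M.ps_lt _ _ (h6 true).1
    have b2 := M.ps_lt _ _ (h6 false).1
    rw [(h5 true).2, (h5 false).2, (h6 true).2, (h6 false).2] at h7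
    rw [(h5 true).2] at a1
    rw [(h5 false).2] at a2
    rw [(h6 true).2] at b1
    rw [(h6 false).2] at b2
    have kx := rf_mem a1 a2 hx
    have ky := rf_mem b1 b2 hy
    have k := h7 _ kx.2 _ ky.2
    have ex : M.len p - 1 - (M.len p - 1 - x) = x := by omega
    have ey : M.len q - 1 - (M.len q - 1 - y) = y := by omega
    rw [ex, ey] at k
    exact ⟨fun h => k.1 ⟨h.1, by rw [h.1, h.2]⟩, k.2⟩

theorem rf_ww {d s : ℕ} {I P V : Type} [DecidableEq I] (M : Mod d s I P V) (R : Finset I) :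
    (rfMod M).WW R = M.WW R := by
  refine Set.ncard_congr (fun x _ => (x.1, x.2.1, M.len x.1 - 1 - x.2.2)) ?_ ?_ ?_
  · rintro ⟨p, σ, a⟩ ⟨h1, h2, h3⟩
    have h1' : a < M.len p := h1
    have e1 : M.len p - a = M.len p - 1 - a + 1 := by omega
    have e2 : M.len p - (a + 1) = M.len p - 1 - a := by omega
    refine ⟨show M.len p - 1 - a < M.len p by omega, h2, ?_⟩
    rcases h3 with h | h
    · have h' : M.Vis R p σ (M.len p - a) := h.2
      rw [e1] at h'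
      exact Or.inr h'
    · have h' : M.Vis R p σ (M.len p - (a + 1)) := h.2
      rw [e2] at h'
      exact Or.inl h'
  · rintro ⟨p, σ, a⟩ ⟨q, τ, b⟩ ⟨h1, -⟩ ⟨h2, -⟩ h
    obtain ⟨rfl, h'⟩ := Prod.mk.inj h
    obtain ⟨rfl, h''⟩ := Prod.mk.inj h'
    have h1' : a < M.len p := h1
    have h2' : b < M.len p := h2
    dsimp only at h''
    rw [show a = b by omega]
  · rintro ⟨p, σ, a⟩ ⟨h1, h2, h3⟩
    dsimp only at h1 h2 h3
    have e : M.len p - 1 - (M.len p - 1 - a) = a := by omega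
    have e1 : M.len p - (M.len p - 1 - a) = a + 1 := by omega
    have e2 : M.len p - (M.len p - 1 - a + 1) = a := by omega
    refine ⟨(p, σ, M.len p - 1 - a), ⟨show M.len p - 1 - a < M.len p by omega, ?_, ?_⟩,
      Prod.ext rfl (Prod.ext rfl e)⟩
    · show M.hit p (M.len p - 1 - (M.len p - 1 - a)) ∈ R
      rwa [e]
    · rcases h3 with h | h
      · refine Or.inr ⟨show M.len p - 1 - a + 1 ≤ M.len p by omega, ?_⟩
        show M.Vis R p σ (M.len p - (M.len p - 1 - a + 1))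
        rwa [e2]
      · refine Or.inl ⟨show M.len p - 1 - a ≤ M.len p by omega, ?_⟩
        show M.Vis R p σ (M.len p - (M.len p - 1 - a))
        rwa [e1]

theorem rf_count (Q : ℕ → Prop) [DecidablePred Q] (x k : ℕ) :
    ((range k).filter fun a => a < x + k ∧ Q (x + k - 1 - a)).card +
      ((range x).filter fun a => a < x + k ∧ Q a).card =
        ((range (x + k)).filter fun a => a < x + k ∧ Q a).card := by
  rw [card_filter, card_filter, card_filter, sum_range_add, add_comm,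
    ← sum_range_reflect (fun j => if x + j < x + k ∧ Q (x + j) then 1 else 0) k]
  refine congrArg _ (sum_congr rfl fun a ha => ?_)
  have h := mem_range.1 ha
  have e : x + k - 1 - a = x + (k - 1 - a) := by omega
  rw [e]
  exact if_congr ⟨fun h' => ⟨by omega, h'.2⟩, fun h' => ⟨by omega, h'.2⟩⟩ rfl rfl

theorem exists_refl {d s : ℕ} {I P V : Type} [DecidableEq I] [Finite P] (M : Mod d s I P V) :
    ∃ M' : Mod d s I P V, M'.cur = M.cur ∧ M'.len = M.len ∧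
      (∀ R p σ x, x ≤ M.len p → (M'.Vis R p σ (M.len p - x) ↔ M.Vis R p σ x)) ∧
      (∀ R, M'.WW R = M.WW R) ∧
      ∀ R p x, x ≤ M.len p → M'.cnt R p (M.len p - x) + M.cnt R p x = M.cnt R p (M.len p) := by
  refine ⟨rfMod M, rfl, rfl, fun R p σ x hx => ?_, rf_ww M, fun R p x hx => ?_⟩
  · show M.len p - x ≤ M.len p ∧ M.Vis R p σ (M.len p - (M.len p - x)) ↔ _
    rw [Nat.sub_sub_self hx]
    exact ⟨fun h => h.2, fun h => ⟨Nat.sub_le _ _, h⟩⟩
  · have k := rf_count (fun a => M.hit p a ∈ R) x (M.len p - x)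
    rw [Nat.add_sub_cancel' hx] at k
    exact k

end CurK
end
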