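import Mathlib
import Pool.Agent.Work.MP_8a5de9_co_K.Refl
import Pool.Agent.Work.MP_8a5de9_co_K.Defs
import Pool.Agent.Work.MP_8a5de9_co_C0.Few

-- merged part: Pool.Agent.Work.MP_8a5de9_co_K.Tree
section
/-! Paper 5.1 - 5.3: counting nodes of a subset of `ℕ`. -/

namespace CurK

/-- The end of the block of order `K` that starts at `a`. -/
def nxt : ℕ → ℕ → ℕ
  | 0, a => a + 1
  | K + 1, a => (nxt K)^[a + 1] a

theorem tr_iter (f : ℕ → ℕ) (hf : ∀ x, x < f x) (j a : ℕ) : a + j ≤ f^[j] a := by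
  induction j with
  | zero => simp
  | succ j ih =>
    rw [Function.iterate_succ_apply']
    have := hf (f^[j] a)
    omega

theorem tr_lt (K : ℕ) : ∀ a, a < nxt K a := by
  induction K with
  | zero => intro a; simp [nxt]
  | succ K ih =>
    intro a
    have := tr_iter (nxt K) ih (a + 1) a
    simp only [nxt]
    omega

theorem tr_ack (K : ℕ) : ∀ a, 1 ≤ a → ack K a ≤ nxt K a := by
  induction K with
  | zero => intro a _; simp [nxt]
  | succ K ih =>
    intro a ha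
    have h : ∀ j, ack (K + 1) j ≤ (nxt K)^[j + 1] a := by
      intro j
      induction j with
      | zero =>
        simp only [ack_succ_zero, zero_add, Function.iterate_one]
        exact ((ack_strictMono_right K).monotone ha).trans (ih a ha)
      | succ j ihj =>
        rw [ack_succ_succ, Function.iterate_succ_apply']
        have h1 := tr_iter (nxt K) (tr_lt K) (j + 1) a
        exact ((ack_strictMono_right K).monotone ihj).trans (ih _ (by omega))
    simpa only [nxt] using h a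

theorem ack_le_nxt (K a : ℕ) (ha : 1 ≤ a) : ack K a ≤ nxt K a := tr_ack K a ha

theorem lt_nxt (K a : ℕ) : a < nxt K a := tr_lt K a

theorem two_mul_le_nxt (K a : ℕ) (hK : 1 ≤ K) : 2 * a ≤ nxt K a := by
  obtain ⟨K, rfl⟩ : ∃ j, K = j + 1 := ⟨K - 1, by omega⟩
  have := tr_iter (nxt K) (tr_lt K) (a + 1) a
  simp only [nxt]
  omega

/-- A weak chain of length `c` in `T`. -/
def tr_WC (S : ℕ → Finset ℕ) (T : Finset ℕ) (c : ℕ) : Prop :=
  ∃ u q : ℕ → ℕ, (∀ j ≤ c, u j ∈ T) ∧ ∀ j < c, u j < q j ∧ q j ≤ u (j + 1) ∧ q j ∈ S (u 0)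

theorem tr_F (K : ℕ) : ∀ a, ∃ Sp : ℕ → Finset ℕ, (∀ u, a ≤ u → (Sp u).card ≤ K * (u + 2)) ∧
    ∀ c (T : Finset ℕ), (∀ x ∈ T, a ≤ x ∧ x < nxt K a) → ¬ tr_WC Sp T c →
      T.card ≤ (K + 1) ^ c := by
  induction K with
  | zero =>
    intro a
    refine ⟨fun _ => ∅, by simp, fun c T hT _ => ?_⟩
    simp only [zero_add, one_pow]
    rw [Finset.card_le_one]
    intro x hx y hy
    have h1 := hT x hx
    have h2 := hT y hy
    simp only [nxt] at h1 h2
    omega
  | succ K ih =>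
    intro a
    classical
    choose S hS1 hS2 using ih
    let b : ℕ → ℕ := fun i => (nxt K)^[i] a
    have hb : ∀ i, b (i + 1) = nxt K (b i) := fun i => Function.iterate_succ_apply' _ _ _
    have hbm : StrictMono b := strictMono_nat_of_lt_succ fun i => by rw [hb]; exact tr_lt K _
    have hb0 : b 0 = a := rfl
    let ix : ℕ → ℕ := fun u => Nat.findGreatest (fun i => b i ≤ u) u
    have hix : ∀ u, a ≤ u → b (ix u) ≤ u := fun u hu =>
      Nat.findGreatest_spec (P := fun i => b i ≤ u) (Nat.zero_le u) hu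
    have hix2 : ∀ u j, b j ≤ u → u < b (j + 1) → ix u = j := by
      intro u j h1 h2
      have hj : j ≤ u := by
        have := tr_iter (nxt K) (tr_lt K) j a
        change a + j ≤ b j at this
        omega
      have h3 : j ≤ ix u := Nat.le_findGreatest (P := fun i => b i ≤ u) hj h1
      have h4 := hix u (le_trans (hbm.monotone (Nat.zero_le j)) h1)
      have h5 : ix u < j + 1 := hbm.lt_iff_lt.1 (lt_of_le_of_lt h4 h2)
      omega
    let Sp : ℕ → Finset ℕ := fun u => (Finset.range (a + 2)).image b ∪ S (b (ix u)) u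
    refine ⟨Sp, fun u hu => ?_, ?_⟩
    · have h1 := hS1 (b (ix u)) u (hix u hu)
      have h2 : ((Finset.range (a + 2)).image b).card ≤ a + 2 :=
        Finset.card_image_le.trans (by simp)
      have h3 := Finset.card_union_le ((Finset.range (a + 2)).image b) (S (b (ix u)) u)
      change ((Finset.range (a + 2)).image b ∪ S (b (ix u)) u).card ≤ _
      rw [Nat.succ_mul]
      omega
    · have key : ∀ j, j ≤ a + 1 → ∀ c (T : Finset ℕ), (∀ x ∈ T, a ≤ x ∧ x < b j) →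
          ¬ tr_WC Sp T c → T.card + 1 ≤ (K + 2) ^ c := by
        intro j
        induction j with
        | zero =>
          intro _ c T hT _
          have : T = ∅ := by
            rw [Finset.eq_empty_iff_forall_notMem]
            intro x hx
            have := hT x hx
            omega
          rw [this]
          exact Nat.one_le_pow _ _ (by omega)
        | succ j ihj =>
          intro hj c T hT hW
          by_cases he : ∀ x ∈ T, x < b j
          · exact ihj (by omega) c T (fun x hx => ⟨(hT x hx).1, he x hx⟩) hW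
          push Not at he
          obtain ⟨w, hw, hw2⟩ := he
          rcases c with _ | c
          · exact absurd ⟨fun _ => w, fun _ => 0, fun _ _ => hw, fun _ h => by omega⟩ hW
          have h1 : (T.filter (· < b j)).card + 1 ≤ (K + 2) ^ c := by
            refine ihj (by omega) c _ (fun x hx => ?_) ?_
            · rw [Finset.mem_filter] at hx
              exact ⟨(hT x hx.1).1, hx.2⟩
            · rintro ⟨u, q, hu, hq⟩
              refine hW ⟨fun i => if i ≤ c then u i else w, fun i => if i < c then q i else b j,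
                fun i hi => ?_, fun i hi => ?_⟩
              · by_cases h : i ≤ c
                · simp only [h, if_true]
                  exact (Finset.mem_filter.1 (hu i h)).1
                · simp only [h, if_false]
                  exact hw
              · have hi' : i ≤ c := by omega
                by_cases h : i < c
                · have h' : i + 1 ≤ c := h
                  simp only [h, hi', h', if_true, Nat.zero_le]
                  exact hq i h
                · have h' : ¬ i + 1 ≤ c := h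
                  simp only [h, hi', h', if_true, if_false, Nat.zero_le]
                  refine ⟨(Finset.mem_filter.1 (hu i hi')).2, hw2, ?_⟩
                  exact Finset.mem_union_left _
                    (Finset.mem_image_of_mem _ (Finset.mem_range.2 (by omega)))
          have h2 : (T.filter (fun x => ¬ x < b j)).card ≤ (K + 1) ^ (c + 1) := by
            refine hS2 (b j) (c + 1) _ (fun x hx => ?_) ?_
            · rw [Finset.mem_filter] at hx
              have := (hT x hx.1).2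
              rw [hb] at this
              exact ⟨by omega, this⟩
            · rintro ⟨u, q, hu, hq⟩
              refine hW ⟨u, q, fun i hi => (Finset.mem_filter.1 (hu i hi)).1, fun i hi => ?_⟩
              refine ⟨(hq i hi).1, (hq i hi).2.1, Finset.mem_union_right _ ?_⟩
              have h0 := Finset.mem_filter.1 (hu 0 (Nat.zero_le _))
              rw [hix2 (u 0) j (by omega) (hT _ h0.1).2]
              exact (hq i hi).2.2
          have h3 := Finset.card_filter_add_card_filter_not (s := T) (· < b j)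
          have h4 : (K + 1) ^ c ≤ (K + 2) ^ c := Nat.pow_le_pow_left (by omega) _
          have h5 : (K + 1) ^ (c + 1) ≤ (K + 2) ^ c * (K + 1) := by
            rw [pow_succ]; exact Nat.mul_le_mul_right _ h4
          have h6 : (K + 2) ^ (c + 1) = (K + 2) ^ c * (K + 1) + (K + 2) ^ c := by ring
          omega
      intro c T hT hW
      have := key (a + 1) le_rfl c T hT hW
      change T.card ≤ (K + 2) ^ c
      omega

theorem tr_close {A B P : ℕ} (hP : 0 < P) (h : A / P = B / P) : A < B + P := by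
  have h1 := Nat.div_add_mod A P
  have h2 := Nat.div_add_mod B P
  have h3 := Nat.mod_lt A hP
  rw [h] at h1
  omega

theorem tr_far {A B P : ℕ} (hP : 0 < P) (h : A / P + 2 ≤ B / P) : A + P ≤ B := by
  have h1 := Nat.div_add_mod A P
  have h2 := Nat.div_add_mod B P
  have h3 := Nat.mod_lt A hP
  have h4 := Nat.mul_le_mul_left P h
  rw [Nat.mul_add] at h4
  omega

theorem tr_up {x y u v : ℕ} (h : x / 2 ^ u = y / 2 ^ u) (huv : u ≤ v) :
    x / 2 ^ v = y / 2 ^ v := by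
  obtain ⟨w, rfl⟩ := Nat.exists_eq_add_of_le huv
  rw [pow_add, ← Nat.div_div_eq_div_mul, ← Nat.div_div_eq_div_mul, h]

theorem tr_G (g : ℕ) : ∀ Y : Finset ℕ,
    (∀ x ∈ Y, ((Y.erase x).image fun y => Nat.log 2 (Nat.dist x y)).card ≤ g) →
      Y.card ≤ 4 ^ g := by
  induction g with
  | zero =>
    intro Y hY
    rw [pow_zero, Finset.card_le_one]
    intro x hx y hy
    by_contra hne
    have h1 := hY x hx
    rw [Nat.le_zero, Finset.card_eq_zero, Finset.image_eq_empty] at h1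
    have : y ∈ Y.erase x := Finset.mem_erase.2 ⟨fun h => hne h.symm, hy⟩
    rw [h1] at this
    simp at this
  | succ g ih =>
    intro Y hY
    by_cases h1 : Y.card ≤ 1
    · exact h1.trans (Nat.one_le_pow _ _ (by omega))
    have hne : Y.Nonempty := Finset.card_pos.1 (by omega)
    obtain ⟨lo, hlo, hlo2⟩ := Finset.exists_min_image Y id hne
    obtain ⟨hi, hhi, hhi2⟩ := Finset.exists_max_image Y id hne
    simp only [id] at hlo2 hhi2
    have hlt : lo < hi := by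
      by_contra hc
      apply h1
      rw [Finset.card_le_one]
      intro x hx y hy
      have := hlo2 x hx
      have := hlo2 y hy
      have := hhi2 x hx
      have := hhi2 y hy
      omega
    have ht1 : 2 ^ Nat.log 2 (hi - lo) ≤ hi - lo := Nat.pow_log_le_self 2 (by omega)
    have ht2 : hi - lo < 2 ^ (Nat.log 2 (hi - lo) + 1) := Nat.lt_pow_succ_log_self (by omega) _
    generalize Nat.log 2 (hi - lo) = t at ht1 ht2
    have hP : 0 < 2 ^ t := by positivity
    have := Finset.card_le_mul_card_image_of_maps_to (s := Y) (t := Finset.range 4)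
      (f := fun y => 2 * (y - lo) / 2 ^ t) (fun y hy => by
        rw [Finset.mem_range, Nat.div_lt_iff_lt_mul hP]
        have := hhi2 y hy
        rw [pow_succ] at ht2
        omega) (4 ^ g) (fun i _ => ih _ fun x hx => by
        rw [Finset.mem_filter] at hx
        have hx1 := hlo2 x hx.1
        have hx2 := hhi2 x hx.1
        obtain ⟨z, hz, hz2⟩ : ∃ z ∈ Y, 2 ^ t ≤ 2 * Nat.dist x z := by
          by_cases hc : 2 ^ t ≤ 2 * (x - lo)
          · exact ⟨lo, hlo, by unfold Nat.dist; omega⟩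
          · exact ⟨hi, hhi, by unfold Nat.dist; omega⟩
        have hzx : z ≠ x := by
          rintro rfl
          rw [Nat.dist_self] at hz2
          omega
        refine Nat.le_of_lt_succ (lt_of_lt_of_le (Finset.card_lt_card ?_) (hY x hx.1))
        rw [Finset.ssubset_iff_of_subset (Finset.image_subset_image
          (Finset.erase_subset_erase _ (Finset.filter_subset _ _)))]
        refine ⟨_, Finset.mem_image_of_mem _ (Finset.mem_erase.2 ⟨hzx, hz⟩), fun hm => ?_⟩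
        obtain ⟨y, hy, hy2⟩ := Finset.mem_image.1 hm
        rw [Finset.mem_erase, Finset.mem_filter] at hy
        have hy1 := hlo2 y hy.2.1
        have c1 := tr_close hP (hx.2.trans hy.2.2.symm)
        have c2 := tr_close hP (hy.2.2.trans hx.2.symm)
        have hyx := hy.1
        have d1 : 2 * Nat.dist x y < 2 ^ t := by unfold Nat.dist; omega
        have d2 : 2 ^ Nat.log 2 (Nat.dist x y) ≤ Nat.dist x y :=
          Nat.pow_log_le_self 2 (by unfold Nat.dist; omega)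
        have d3 : Nat.dist x z < 2 ^ (Nat.log 2 (Nat.dist x z) + 1) :=
          Nat.lt_pow_succ_log_self (by omega) _
        rw [← hy2] at d3
        generalize Nat.log 2 (Nat.dist x y) = l at d2 d3
        have e1 : 2 ^ (l + 1) < 2 ^ t := by rw [pow_succ]; omega
        have e2 : 2 ^ t < 2 ^ (l + 2) := by rw [pow_succ]; omega
        rw [Nat.pow_lt_pow_iff_right (by omega)] at e1 e2
        omega)
    rw [Finset.card_range] at this
    rw [pow_succ]
    exact this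

/-- A catch: `true` = to the right, `false` = to the left; scales `2 ^ q t`. -/
structure Catch (X : Finset ℕ) (k : ℕ) (b : Bool) (q y : ℕ → ℕ) : Prop where
  mem : ∀ t ≤ k, y t ∈ X
  mono : ∀ t, t + 1 < k → q t < q (t + 1)
  gap : ∀ t < k, if b then y t + 2 ^ q t ≤ y (t + 1) else y (t + 1) + 2 ^ q t ≤ y t
  near : ∀ t < k, if b then y t ≤ y 0 + 2 ^ q t else y 0 ≤ y t + 2 ^ q t

/-- An admissible catch. -/
def tr_Good (X : Finset ℕ) (k : ℕ) (Sp : ℕ → Finset ℕ) (e : (ℕ → ℕ) × Bool × (ℕ → ℕ)) : Prop :=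
  Catch X k e.2.1 e.1 e.2.2 ∧ (∀ t, 1 ≤ t → t < k → e.1 t ∈ Sp (e.1 0)) ∧ ∀ t, k ≤ t → e.1 t = 0

/-- The node number `m` of level `u` is caught below `r`. -/
def tr_Cg (X : Finset ℕ) (k : ℕ) (Sp : ℕ → Finset ℕ) (r u m : ℕ) : Prop :=
  ∃ e, tr_Good X k Sp e ∧ e.1 0 = u ∧ e.1 (k - 1) < r ∧ e.2.2 0 / 2 ^ u = m

theorem tr_catch {X : Finset ℕ} {k : ℕ} (hk : 2 ≤ k) {Sp : ℕ → Finset ℕ} {r x : ℕ} (hx : x ∈ X)
    (b : Bool) (u q z : ℕ → ℕ) (hz : ∀ j ≤ 2 * k - 2, z j ∈ X ∧ (if b then x < z j else z j < x) ∧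
      Nat.log 2 (Nat.dist x (z j)) = u j ∧ u j < r)
    (hq : ∀ j < 2 * k - 2, u j < q j ∧ q j ≤ u (j + 1) ∧ q j ∈ Sp (u 0)) :
    tr_Cg X k Sp r (u 0) (x / 2 ^ u 0) := by
  have hd : ∀ j ≤ 2 * k - 2, 2 ^ u j ≤ Nat.dist x (z j) ∧ Nat.dist x (z j) < 2 ^ (u j + 1) := by
    intro j hj
    obtain ⟨_, h2, h3, _⟩ := hz j hj
    rw [← h3]
    refine ⟨Nat.pow_log_le_self 2 ?_, Nat.lt_pow_succ_log_self (by omega) _⟩
    unfold Nat.dist
    cases b <;> simp at h2 <;> omega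
  refine ⟨(fun t => if t = 0 then u 0 else if t < k then q (2 * t - 2) else 0, b,
    fun t => if t = 0 then x else z (2 * t - 2)), ⟨⟨fun t ht => ?_, fun t ht => ?_, fun t ht => ?_,
      fun t ht => ?_⟩, fun t h1 h2 => ?_, fun t ht => ?_⟩, ?_, ?_, ?_⟩
  · by_cases h0 : t = 0
    · simp only [h0, if_true]; exact hx
    · simp only [h0, if_false]; exact (hz _ (by omega)).1
  · have e1 : t + 1 ≠ 0 := by omega
    have e2 : 2 * (t + 1) - 2 = 2 * t := by omega
    by_cases h0 : t = 0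
    · subst h0
      simp only [e1, ht, if_true, if_false]
      exact (hq 0 (by omega)).1
    · have e3 : t < k := by omega
      simp only [h0, e1, e2, e3, ht, if_true, if_false]
      obtain ⟨s, rfl⟩ : ∃ s, t = s + 1 := ⟨t - 1, by omega⟩
      have e4 : 2 * (s + 1) - 2 = 2 * s := by omega
      have e5 : 2 * (s + 1) = 2 * s + 1 + 1 := by omega
      rw [e4, e5]
      have a1 := hq (2 * s) (by omega)
      have a2 := hq (2 * s + 1) (by omega)
      have a3 := hq (2 * s + 1 + 1) (by omega)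
      omega
  · have e1 : t + 1 ≠ 0 := by omega
    have e2 : 2 * (t + 1) - 2 = 2 * t := by omega
    by_cases h0 : t = 0
    · subst h0
      simp only [e1, if_true, if_false]
      have a1 := (hd 0 (by omega)).1
      have a2 := (hz 0 (by omega)).2.1
      unfold Nat.dist at a1
      cases b <;> simp at a2 ⊢ <;> omega
    · simp only [h0, e1, e2, ht, if_true, if_false]
      obtain ⟨s, rfl⟩ : ∃ s, t = s + 1 := ⟨t - 1, by omega⟩
      have e4 : 2 * (s + 1) - 2 = 2 * s := by omega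
      have e5 : 2 * (s + 1) = 2 * s + 1 + 1 := by omega
      rw [e4, e5]
      have a1 := hq (2 * s) (by omega)
      have a2 := hq (2 * s + 1) (by omega)
      have b1 := (hd (2 * s) (by omega)).2
      have b2 := (hd (2 * s + 1 + 1) (by omega)).1
      have c1 := (hz (2 * s) (by omega)).2.1
      have c2 := (hz (2 * s + 1 + 1) (by omega)).2.1
      have d1 : 2 ^ (u (2 * s) + 1) ≤ 2 ^ q (2 * s) := Nat.pow_le_pow_right (by omega) (by omega)
      have d2 : 2 ^ (q (2 * s) + 1) ≤ 2 ^ u (2 * s + 1 + 1) :=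
        Nat.pow_le_pow_right (by omega) (by omega)
      rw [pow_succ] at d2
      unfold Nat.dist at b1 b2
      cases b <;> simp at c1 c2 ⊢ <;> omega
  · by_cases h0 : t = 0
    · subst h0
      cases b <;> simp
    · simp only [h0, ht, if_true, if_false]
      have a1 := hq (2 * t - 2) (by omega)
      have b1 := (hd (2 * t - 2) (by omega)).2
      have c1 := (hz (2 * t - 2) (by omega)).2.1
      have d1 : 2 ^ (u (2 * t - 2) + 1) ≤ 2 ^ q (2 * t - 2) :=
        Nat.pow_le_pow_right (by omega) (by omega)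
      unfold Nat.dist at b1
      cases b <;> simp at c1 ⊢ <;> omega
  · have h0 : t ≠ 0 := by omega
    simp only [h0, h2, if_true, if_false]
    exact (hq _ (by omega)).2.2
  · have h0 : t ≠ 0 := by omega
    have h1 : ¬ t < k := by omega
    simp only [h0, h1, if_false]
  · simp
  · have h0 : k - 1 ≠ 0 := by omega
    have h1 : k - 1 < k := by omega
    simp only [h0, h1, if_true, if_false]
    have a1 := hq (2 * (k - 1) - 2) (by omega)
    have a2 := (hz (2 * (k - 1) - 2 + 1) (by omega)).2.2.2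
    omega
  · simp

open Classical in
/-- Nodes of level `u` in the node `n` of level `r` with no caught ancestor. -/
noncomputable def tr_Un (X : Finset ℕ) (k : ℕ) (Sp : ℕ → Finset ℕ) (r u n : ℕ) : Finset ℕ :=
  (X.filter fun x => x / 2 ^ r = n ∧ ∀ v, u ≤ v → v < r → ¬ tr_Cg X k Sp r v (x / 2 ^ v)).image
    (· / 2 ^ u)

theorem tr_mem_Un {X : Finset ℕ} {k : ℕ} {Sp : ℕ → Finset ℕ} {r u n m : ℕ} :
    m ∈ tr_Un X k Sp r u n ↔ ∃ x ∈ X, x / 2 ^ r = n ∧
      (∀ v, u ≤ v → v < r → ¬ tr_Cg X k Sp r v (x / 2 ^ v)) ∧ x / 2 ^ u = m := by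
  unfold tr_Un
  simp only [Finset.mem_image, Finset.mem_filter, and_assoc]

theorem tr_un {X : Finset ℕ} {k : ℕ} (hk : 2 ≤ k) {Sp : ℕ → Finset ℕ} {a a' g : ℕ}
    (hF : ∀ T : Finset ℕ, (∀ x ∈ T, a ≤ x ∧ x < a') → ¬ tr_WC Sp T (2 * k - 2) → T.card ≤ g)
    {u r : ℕ} (n : ℕ) (hu : a ≤ u) (hr : r ≤ a') :
    (tr_Un X k Sp r u n).card ≤ 2 * 4 ^ (2 * g) := by
  have h0 : ∀ m, m ∈ tr_Un X k Sp r u n → ∃ x ∈ X, x / 2 ^ r = n ∧
      (∀ v, u ≤ v → v < r → ¬ tr_Cg X k Sp r v (x / 2 ^ v)) ∧ x / 2 ^ u = m :=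
    fun m hm => tr_mem_Un.1 hm
  choose! rep h1 h2 h3 h4 using h0
  have := Finset.card_le_mul_card_image_of_maps_to (s := tr_Un X k Sp r u n) (t := Finset.range 2)
    (f := fun m => m % 2) (fun m _ => Finset.mem_range.2 (Nat.mod_lt _ (by omega))) (4 ^ (2 * g))
    (fun p _ => by
      have hinj : Set.InjOn rep ((tr_Un X k Sp r u n).filter fun m => m % 2 = p) := by
        intro m hm m' hm' h
        rw [Finset.mem_coe, Finset.mem_filter] at hm hm'
        rw [← h4 m hm.1, ← h4 m' hm'.1, h]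
      rw [← Finset.card_image_of_injOn hinj]
      generalize hY : ((tr_Un X k Sp r u n).filter fun m => m % 2 = p).image rep = Y
      have hY1 : ∀ y ∈ Y, y ∈ X ∧ y / 2 ^ r = n ∧
          (∀ v, u ≤ v → v < r → ¬ tr_Cg X k Sp r v (y / 2 ^ v)) := by
        intro y hy
        rw [← hY] at hy
        obtain ⟨m, hm, rfl⟩ := Finset.mem_image.1 hy
        rw [Finset.mem_filter] at hm
        exact ⟨h1 m hm.1, h2 m hm.1, h3 m hm.1⟩
      have hY2 : ∀ x ∈ Y, ∀ y ∈ Y, x ≠ y → u ≤ Nat.log 2 (Nat.dist x y) ∧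
          Nat.log 2 (Nat.dist x y) < r := by
        intro x hx y hy hxy
        have c1 := tr_close (by positivity) ((hY1 x hx).2.1.trans (hY1 y hy).2.1.symm)
        have c2 := tr_close (by positivity) ((hY1 y hy).2.1.trans (hY1 x hx).2.1.symm)
        refine ⟨Nat.le_log_of_pow_le (by omega) ?_,
          Nat.log_lt_of_lt_pow (by unfold Nat.dist; omega) (by unfold Nat.dist; omega)⟩
        rw [← hY] at hx hy
        obtain ⟨m, hm, rfl⟩ := Finset.mem_image.1 hx
        obtain ⟨m', hm', rfl⟩ := Finset.mem_image.1 hy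
        rw [Finset.mem_filter] at hm hm'
        have hne : m ≠ m' := fun h => hxy (by rw [h])
        have e1 := h4 m hm.1
        have e2 := h4 m' hm'.1
        have e3 := hm.2
        have e4 := hm'.2
        rcases lt_or_gt_of_ne hne with h | h
        · have := tr_far (A := rep m) (B := rep m') (P := 2 ^ u) (by positivity) (by omega)
          unfold Nat.dist; omega
        · have := tr_far (A := rep m') (B := rep m) (P := 2 ^ u) (by positivity) (by omega)
          unfold Nat.dist; omega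
      refine tr_G _ Y fun x hx => ?_
      have hT : ∀ b : Bool, ((Y.filter fun y => if b then x < y else y < x).image
          fun y => Nat.log 2 (Nat.dist x y)).card ≤ g := by
        intro b
        have hm : ∀ l ∈ ((Y.filter fun y => if b then x < y else y < x).image
            fun y => Nat.log 2 (Nat.dist x y)), ∃ y, y ∈ X ∧ (if b then x < y else y < x) ∧
              Nat.log 2 (Nat.dist x y) = l ∧ l < r ∧ u ≤ l := by
          intro l hl
          obtain ⟨y, hy, rfl⟩ := Finset.mem_image.1 hl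
          rw [Finset.mem_filter] at hy
          have hne : x ≠ y := by
            have := hy.2
            cases b <;> simp at this <;> omega
          exact ⟨y, (hY1 y hy.1).1, hy.2, rfl, (hY2 x hx y hy.1 hne).2, (hY2 x hx y hy.1 hne).1⟩
        refine hF _ (fun l hl => ?_) ?_
        · obtain ⟨y, _, _, _, _, _⟩ := hm l hl
          omega
        · rintro ⟨w, q, hw, hq⟩
          choose! z z1 z2 z3 z4 z5 using hm
          have w0 := hw 0 (Nat.zero_le _)
          exact (hY1 x hx).2.2 (w 0) (z5 _ w0) (z4 _ w0)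
            (tr_catch hk (hY1 x hx).1 b w q (fun j => z (w j)) (fun j hj =>
              ⟨z1 _ (hw j hj), z2 _ (hw j hj), z3 _ (hw j hj), z4 _ (hw j hj)⟩) hq)
      have hsub : ((Y.erase x).image fun y => Nat.log 2 (Nat.dist x y)) ⊆
          ((Y.filter fun y => if true then x < y else y < x).image
            fun y => Nat.log 2 (Nat.dist x y)) ∪
          ((Y.filter fun y => if false then x < y else y < x).image
            fun y => Nat.log 2 (Nat.dist x y)) := by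
        rw [← Finset.image_union]
        refine Finset.image_subset_image fun y hy => ?_
        rw [Finset.mem_erase] at hy
        have := hy.1
        simp only [Finset.mem_union, Finset.mem_filter, hy.2, true_and, if_true]
        simp
        omega
      have e1 := hT true
      have e2 := hT false
      have e3 := (Finset.card_le_card hsub).trans (Finset.card_union_le _ _)
      omega)
  rw [Finset.card_range] at this
  omega

theorem tr_rec {X : Finset ℕ} {k : ℕ} {Sp : ℕ → Finset ℕ} {a a' μ : ℕ}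
    (hU : ∀ u r n, a ≤ u → r ≤ a' → (tr_Un X k Sp r u n).card ≤ μ) (r : ℕ) :
    r ≤ a' → ∀ n, ∃ Ess : Finset ((ℕ → ℕ) × Bool × (ℕ → ℕ)),
      (∀ e ∈ Ess, tr_Good X k Sp e ∧ a ≤ e.1 0 ∧ e.1 0 < r ∧ e.1 (k - 1) < r ∧
        e.2.2 0 / 2 ^ r = n) ∧
      ((X.filter fun x => x / 2 ^ r = n).image (· / 2 ^ a)).card ≤ μ * (1 + Ess.card) ∧
      ∀ u r' c, u < r' → (Ess.filter fun e => e.1 0 = u ∧ r' ≤ e.1 (k - 1) + 1 ∧
        e.2.2 0 / 2 ^ r' = c).card ≤ 2 * μ := by
  induction r using Nat.strong_induction_on with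
  | _ r ih =>
  intro hr n
  classical
  have ih' := fun m (hm : m < r) => ih m hm (by omega)
  choose! E hE1 hE2 hE3 using ih'
  have hc : ∀ o : ℕ × ℕ, tr_Cg X k Sp r o.1 o.2 → ∃ e, tr_Good X k Sp e ∧ e.1 0 = o.1 ∧
      e.1 (k - 1) < r ∧ e.2.2 0 / 2 ^ o.1 = o.2 := fun o h => h
  choose! ch c1 c2 c3 c4 using hc
  obtain ⟨Top, hTop⟩ : ∃ Top : Finset (ℕ × ℕ), ∀ o, o ∈ Top ↔ a ≤ o.1 ∧ o.1 < r ∧
      tr_Cg X k Sp r o.1 o.2 ∧ ∃ x ∈ X, x / 2 ^ o.1 = o.2 ∧ x / 2 ^ r = n ∧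
        ∀ v, o.1 < v → v < r → ¬ tr_Cg X k Sp r v (x / 2 ^ v) := by
    refine ⟨((Finset.range r ×ˢ X).image fun p => (p.1, p.2 / 2 ^ p.1)).filter fun o =>
      a ≤ o.1 ∧ o.1 < r ∧ tr_Cg X k Sp r o.1 o.2 ∧ ∃ x ∈ X, x / 2 ^ o.1 = o.2 ∧ x / 2 ^ r = n ∧
        ∀ v, o.1 < v → v < r → ¬ tr_Cg X k Sp r v (x / 2 ^ v), fun o => ?_⟩
    rw [Finset.mem_filter]
    refine ⟨fun h => h.2, fun h => ⟨?_, h⟩⟩
    obtain ⟨_, h2, _, x, hx, h4, _⟩ := h
    exact Finset.mem_image.2 ⟨(o.1, x), Finset.mem_product.2 ⟨Finset.mem_range.2 h2, hx⟩,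
      Prod.ext rfl h4⟩
  have huniq : ∀ o ∈ Top, ∀ o' ∈ Top, ∀ z, z / 2 ^ o.1 = o.2 → z / 2 ^ o'.1 = o'.2 → o = o' := by
    have aux : ∀ o ∈ Top, ∀ o' ∈ Top, ∀ z, z / 2 ^ o.1 = o.2 → z / 2 ^ o'.1 = o'.2 →
        ¬ o.1 < o'.1 := by
      intro o ho o' ho' z hz hz' hlt
      obtain ⟨_, _, _, x, _, h4, _, h6⟩ := (hTop o).1 ho
      obtain ⟨_, h2', h3', _⟩ := (hTop o').1 ho'
      refine h6 o'.1 hlt h2' ?_
      rw [tr_up (h4.trans hz.symm) hlt.le, hz']
      exact h3'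
    intro o ho o' ho' z hz hz'
    have e1 := aux o ho o' ho' z hz hz'
    have e2 := aux o' ho' o ho z hz' hz
    have e3 : o.1 = o'.1 := by omega
    exact Prod.ext e3 (by rw [← hz, ← hz', e3])
  have hin : ∀ o ∈ Top, ∀ e ∈ insert (ch o) (E o.1 o.2), e.2.2 0 / 2 ^ o.1 = o.2 := by
    intro o ho e he
    obtain ⟨_, h2, h3, _⟩ := (hTop o).1 ho
    rcases Finset.mem_insert.1 he with rfl | he
    · exact c4 o h3
    · exact (hE1 o.1 h2 o.2 e he).2.2.2.2
  have hcard : (Top.biUnion fun o => insert (ch o) (E o.1 o.2)).card =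
      ∑ o ∈ Top, (1 + (E o.1 o.2).card) := by
    rw [Finset.card_biUnion]
    · refine Finset.sum_congr rfl fun o ho => ?_
      obtain ⟨_, h2, h3, _⟩ := (hTop o).1 ho
      rw [Finset.card_insert_of_notMem, add_comm]
      intro h
      have := (hE1 o.1 h2 o.2 _ h).2.2.1
      rw [c2 o h3] at this
      omega
    · intro o ho o' ho' hne
      rw [Function.onFun, Finset.disjoint_left]
      intro e he he'
      exact hne (huniq o ho o' ho' _ (hin o ho e he) (hin o' ho' e he'))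
  refine ⟨Top.biUnion fun o => insert (ch o) (E o.1 o.2), fun e he => ?_, ?_, fun u r' c hur => ?_⟩
  · obtain ⟨o, ho, he⟩ := Finset.mem_biUnion.1 he
    have h0 := hin o ho e he
    obtain ⟨h1, h2, h3, x, _, h4, h5, _⟩ := (hTop o).1 ho
    have h6 : e.2.2 0 / 2 ^ r = n := by rw [tr_up (h0.trans h4.symm) h2.le, h5]
    rcases Finset.mem_insert.1 he with rfl | he
    · exact ⟨c1 o h3, by rw [c2 o h3]; exact h1, by rw [c2 o h3]; exact h2, c3 o h3, h6⟩
    · obtain ⟨g1, g2, g3, g4, _⟩ := hE1 o.1 h2 o.2 e he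
      exact ⟨g1, g2, by omega, by omega, h6⟩
  · have hsub : (X.filter fun x => x / 2 ^ r = n).image (· / 2 ^ a) ⊆ tr_Un X k Sp r a n ∪
        Top.biUnion fun o => (X.filter fun x => x / 2 ^ o.1 = o.2).image (· / 2 ^ a) := by
      intro m hm
      obtain ⟨x, hx, rfl⟩ := Finset.mem_image.1 hm
      rw [Finset.mem_filter] at hx
      by_cases h : ∀ v, a ≤ v → v < r → ¬ tr_Cg X k Sp r v (x / 2 ^ v)
      · exact Finset.mem_union_left _ (tr_mem_Un.2 ⟨x, hx.1, hx.2, h, rfl⟩)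
      · push Not at h
        obtain ⟨v0, g1, g2, g3⟩ := h
        obtain ⟨v, hv, hmax⟩ := Finset.exists_max_image ((Finset.range r).filter fun v =>
          a ≤ v ∧ tr_Cg X k Sp r v (x / 2 ^ v)) id
          ⟨v0, Finset.mem_filter.2 ⟨Finset.mem_range.2 g2, g1, g3⟩⟩
        rw [Finset.mem_filter, Finset.mem_range] at hv
        refine Finset.mem_union_right _ (Finset.mem_biUnion.2 ⟨(v, x / 2 ^ v),
          (hTop _).2 ⟨hv.2.1, hv.1, hv.2.2, x, hx.1, rfl, hx.2, fun w w1 w2 w3 => ?_⟩,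
          Finset.mem_image_of_mem _ (Finset.mem_filter.2 ⟨hx.1, rfl⟩)⟩)
        have h1 := hv.2.1
        have := hmax w (Finset.mem_filter.2 ⟨Finset.mem_range.2 w2, by
          change v < w at w1; omega, w3⟩)
        change v < w at w1
        change w ≤ v at this
        omega
    have e1 := (Finset.card_le_card hsub).trans (Finset.card_union_le _ _)
    have e2 := hU a r n le_rfl hr
    have e3 : (Top.biUnion fun o => (X.filter fun x => x / 2 ^ o.1 = o.2).image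
        (· / 2 ^ a)).card ≤ ∑ o ∈ Top, μ * (1 + (E o.1 o.2).card) :=
      Finset.card_biUnion_le.trans (Finset.sum_le_sum fun o ho => hE2 o.1 ((hTop o).1 ho).2.1 o.2)
    rw [← Finset.mul_sum, ← hcard] at e3
    rw [Nat.mul_add]
    omega
  · by_cases h : ∃ o ∈ Top, r' ≤ o.1 ∧ ∃ z, z / 2 ^ o.1 = o.2 ∧ z / 2 ^ r' = c
    · obtain ⟨o, ho, g1, z, g2, g3⟩ := h
      refine le_trans (Finset.card_le_card fun e he => ?_) (hE3 o.1 ((hTop o).1 ho).2.1 o.2 u r' c hur)
      rw [Finset.mem_filter] at he ⊢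
      refine ⟨?_, he.2⟩
      obtain ⟨o', ho', he'⟩ := Finset.mem_biUnion.1 he.1
      have e1 : e.2.2 0 / 2 ^ o.1 = o.2 := by rw [tr_up (he.2.2.2.trans g3.symm) g1, g2]
      obtain rfl := huniq o ho o' ho' _ e1 (hin o' ho' e he')
      rcases Finset.mem_insert.1 he' with h | h
      · have := c2 o ((hTop o).1 ho).2.2.1
        rw [← h, he.2.1] at this
        omega
      · exact h
    · by_cases hau : a ≤ u
      swap
      · rw [Finset.card_eq_zero.2]
        · exact Nat.zero_le _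
        rw [Finset.filter_eq_empty_iff]
        intro e he hh
        obtain ⟨o, ho, he⟩ := Finset.mem_biUnion.1 he
        obtain ⟨h1, h2, h3, _⟩ := (hTop o).1 ho
        rcases Finset.mem_insert.1 he with rfl | he
        · have := c2 o h3
          omega
        · have := (hE1 o.1 h2 o.2 e he).2.1
          omega
      have hsub : ((Top.biUnion fun o => insert (ch o) (E o.1 o.2)).filter fun e => e.1 0 = u ∧
          r' ≤ e.1 (k - 1) + 1 ∧ e.2.2 0 / 2 ^ r' = c) ⊆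
          (tr_Un X k Sp r (u + 1) n ×ˢ Finset.range 2).image fun p => ch (u, 2 * p.1 + p.2) := by
        intro e he
        rw [Finset.mem_filter] at he
        obtain ⟨o, ho, he'⟩ := Finset.mem_biUnion.1 he.1
        have h0 := hin o ho e he'
        have hlt : o.1 < r' := by
          by_contra hc
          exact h ⟨o, ho, by omega, _, h0, he.2.2.2⟩
        obtain ⟨h1, h2, h3, x, hx, h4, h5, h6⟩ := (hTop o).1 ho
        rcases Finset.mem_insert.1 he' with hh | hh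
        · have e1 : o.1 = u := by rw [← c2 o h3, ← hh]; exact he.2.1
          refine Finset.mem_image.2 ⟨(o.2 / 2, o.2 % 2), Finset.mem_product.2
            ⟨tr_mem_Un.2 ⟨x, hx, h5, fun v v1 v2 => h6 v (by omega) v2, ?_⟩,
              Finset.mem_range.2 (Nat.mod_lt _ (by omega))⟩, ?_⟩
          · rw [pow_succ, ← Nat.div_div_eq_div_mul, ← e1, h4]
          · rw [hh]
            congr 1
            exact Prod.ext e1.symm (Nat.div_add_mod _ _)
        · have := (hE1 o.1 h2 o.2 e hh).2.2.2.1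
          have := he.2.2.1
          omega
      have e1 := (Finset.card_le_card hsub).trans Finset.card_image_le
      rw [Finset.card_product, Finset.card_range] at e1
      have e2 := hU (u + 1) r n (by omega) hr
      omega

/-- One block.  `Sp u` is the set of allowed separators at level `u`; `Ess` is a set of
(level tuple, direction, points); `q` is constant (zero) from `k` on. -/
theorem tree (k K a : ℕ) (hk : 2 ≤ k) : ∃ Sp : ℕ → Finset ℕ, (∀ u, a ≤ u → (Sp u).card ≤ K * (u + 2)) ∧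
    ∀ X : Finset ℕ, ∃ Ess : Finset ((ℕ → ℕ) × Bool × (ℕ → ℕ)),
      (∀ e ∈ Ess, Catch X k e.2.1 e.1 e.2.2 ∧ a ≤ e.1 0 ∧ e.1 0 < nxt K a ∧
        (∀ t, 1 ≤ t → t < k → e.1 t ∈ Sp (e.1 0)) ∧ ∀ t, k ≤ t → e.1 t = 0) ∧
      (X.image (· / 2 ^ a)).card ≤ 2 * 4 ^ (2 * (K + 1) ^ (2 * k - 2)) *
        ((X.image (· / 2 ^ nxt K a)).card + Ess.card) ∧
      ∀ (q : ℕ → ℕ) (b : Bool) (c : ℕ), {e | e ∈ Ess ∧ e.1 = q ∧ e.2.1 = b ∧
        e.2.2 0 / 2 ^ (q (k - 1) + 1) = c}.ncard ≤ 4 * 4 ^ (2 * (K + 1) ^ (2 * k - 2)) := by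
  classical
  obtain ⟨Sp, hS1, hS2⟩ := tr_F K a
  refine ⟨Sp, hS1, fun X => ?_⟩
  have hU : ∀ u r n, a ≤ u → r ≤ nxt K a →
      (tr_Un X k Sp r u n).card ≤ 2 * 4 ^ (2 * (K + 1) ^ (2 * k - 2)) :=
    fun u r n hu hr => tr_un hk (hS2 (2 * k - 2)) n hu hr
  generalize 4 ^ (2 * (K + 1) ^ (2 * k - 2)) = μ at hU ⊢
  choose E hE1 hE2 hE3 using tr_rec hU (nxt K a) le_rfl
  generalize nxt K a = a' at hE1 hE2 ⊢
  have hcard : ((X.image (· / 2 ^ a')).biUnion E).card =
      ∑ n ∈ X.image (· / 2 ^ a'), (E n).card := by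
    refine Finset.card_biUnion fun n _ n' _ hne => ?_
    rw [Function.onFun, Finset.disjoint_left]
    intro e he he'
    exact hne ((hE1 n e he).2.2.2.2.symm.trans (hE1 n' e he').2.2.2.2)
  refine ⟨(X.image (· / 2 ^ a')).biUnion E, fun e he => ?_, ?_, fun q b c => ?_⟩
  · obtain ⟨n, _, he⟩ := Finset.mem_biUnion.1 he
    obtain ⟨⟨g1, g2, g3⟩, g4, g5, _⟩ := hE1 n e he
    exact ⟨g1, g4, g5, g2, g3⟩
  · have hsub : X.image (· / 2 ^ a) ⊆ (X.image (· / 2 ^ a')).biUnion fun n =>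
        (X.filter fun x => x / 2 ^ a' = n).image (· / 2 ^ a) := by
      intro m hm
      obtain ⟨x, hx, rfl⟩ := Finset.mem_image.1 hm
      exact Finset.mem_biUnion.2 ⟨_, Finset.mem_image_of_mem _ hx,
        Finset.mem_image_of_mem _ (Finset.mem_filter.2 ⟨hx, rfl⟩)⟩
    refine (Finset.card_le_card hsub).trans (Finset.card_biUnion_le.trans
      ((Finset.sum_le_sum fun n _ => hE2 n).trans ?_))
    rw [← Finset.mul_sum, Finset.sum_add_distrib, hcard, Finset.card_eq_sum_ones (X.image _)]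
  · rcases Set.eq_empty_or_nonempty {e | e ∈ (X.image (· / 2 ^ a')).biUnion E ∧ e.1 = q ∧
        e.2.1 = b ∧ e.2.2 0 / 2 ^ (q (k - 1) + 1) = c} with h | ⟨e0, h1, h2, _, h4⟩
    · rw [h, Set.ncard_empty]
      exact Nat.zero_le _
    obtain ⟨n, _, he0⟩ := Finset.mem_biUnion.1 h1
    obtain ⟨⟨g1, _⟩, _, _, g4, g5⟩ := hE1 n e0 he0
    rw [h2] at g1 g4
    have hm : ∀ t, t < k → q 0 ≤ q t := by
      intro t
      induction t with
      | zero => intro _; exact le_rfl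
      | succ t iht => intro ht; exact (iht (by omega)).trans (g1.mono t ht).le
    have hlt : q 0 < q (k - 1) + 1 := Nat.lt_succ_of_le (hm _ (by omega))
    have e1 := hE3 n (q 0) (q (k - 1) + 1) c hlt
    rw [← Set.ncard_coe_finset] at e1
    refine le_trans (Set.ncard_le_ncard ?_ (Finset.finite_toSet _)) (e1.trans (by omega))
    rintro e ⟨j1, j2, _, j4⟩
    obtain ⟨n', _, he⟩ := Finset.mem_biUnion.1 j1
    have e2 : n' = n := by
      rw [← (hE1 n' e he).2.2.2.2, ← g5]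
      exact tr_up (j4.trans h4.symm) g4
    rw [Finset.mem_coe, Finset.mem_filter, j2]
    exact ⟨e2 ▸ he, rfl, le_rfl, j4⟩

end CurK
end

-- merged part: Pool.Agent.Work.MP_8a5de9_co_K.TRA
section
/-! Paper 5.3 (end) and 5.4 for an abstract family of subsets of `ℕ`. -/

namespace CurK

open Finset

/-- The number of occupied nodes of level `a`, summed over the family. -/
def tq_A {ι : Type} (Pi : Finset ι) (X : ι → Finset ℕ) (a : ℕ) : ℕ :=
  ∑ π ∈ Pi, ((X π).image (· / 2 ^ a)).card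

/-- Few nodes carry a catch with given scales and direction. -/
def tq_H {ι : Type} (Pi : Finset ι) (X : ι → Finset ℕ) (k E u1 : ℕ) (G : ℝ) : Prop :=
  ∀ (q : ℕ → ℕ) (b : Bool) (W : Finset (ι × ℕ)), u1 ≤ q 0 →
    (∀ w ∈ W, w.1 ∈ Pi ∧ ∃ y, Catch (X w.1) k b q y ∧ y 0 / 2 ^ (q (k - 1) + 1) = w.2) →
    (W.card : ℝ) * 2 ^ (q 0 / E) ≤ G

theorem tq_tuples (k u : ℕ) (hk : 1 ≤ k) (S : Finset ℕ) : ∃ Q : Finset (ℕ → ℕ),
    Q.card ≤ S.card ^ (k - 1) ∧ (∀ q ∈ Q, q 0 = u) ∧ ∀ q : ℕ → ℕ, q 0 = u →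
      (∀ t, 1 ≤ t → t < k → q t ∈ S) → (∀ t, k ≤ t → q t = 0) → q ∈ Q := by
  classical
  refine ⟨(Fintype.piFinset fun _ : Fin (k - 1) => S).image
    fun g t => if t = 0 then u else if h : t - 1 < k - 1 then g ⟨t - 1, h⟩ else 0,
    card_image_le.trans (by simp), fun q hq => ?_, fun q h0 h1 h2 => ?_⟩
  · obtain ⟨g, -, rfl⟩ := mem_image.1 hq
    simp
  · refine mem_image.2 ⟨fun i => q (i + 1), Fintype.mem_piFinset.2 fun i =>
      h1 _ (by omega) (by omega), funext fun t => ?_⟩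
    by_cases ht : t = 0
    · rw [if_pos ht, ht, h0]
    · rw [if_neg ht]
      by_cases h : t - 1 < k - 1
      · rw [dif_pos h]
        exact congrArg q (by simp only; omega)
      · rw [dif_neg h, h2 t (by omega)]

theorem tq_fib {α β : Type} [DecidableEq β] {s : Finset α} {t : Finset β} (f : α → β)
    (hf : ∀ a ∈ s, f a ∈ t) (g : β → ℝ) (hg : ∀ b ∈ t, ((s.filter fun a => f a = b).card : ℝ) ≤ g b) :
    (s.card : ℝ) ≤ ∑ b ∈ t, g b := by
  rw [card_eq_sum_card_fiberwise (f := f) (t := t) fun a ha => hf a ha]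
  push_cast
  exact sum_le_sum hg

theorem tq_block {ι : Type} {Pi : Finset ι} {X : ι → Finset ℕ} {k E u1 : ℕ} {G : ℝ} (hk : 2 ≤ k)
    (hG : 0 ≤ G) (H : tq_H Pi X k E u1 G) (K a : ℕ) (ha : u1 ≤ a) :
    (tq_A Pi X a : ℝ) ≤ (2 * 4 ^ (2 * (K + 1) ^ (2 * k - 2)) : ℕ) * (tq_A Pi X (nxt K a) +
      ∑ u ∈ Ico a (nxt K a), ((K * (u + 2)) ^ (k - 1) * 2 *
        (4 * 4 ^ (2 * (K + 1) ^ (2 * k - 2))) : ℕ) * (G / 2 ^ (u / E))) := by
  classical
  obtain ⟨Sp, hSp, hX⟩ := tree k K a hk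
  choose Ess h1 h2 h3 using hX
  set μ := 4 ^ (2 * (K + 1) ^ (2 * k - 2)) with hμ
  have s1 : tq_A Pi X a ≤ 2 * μ * (tq_A Pi X (nxt K a) + (Pi.sigma fun π => Ess (X π)).card) := by
    rw [card_sigma, tq_A, tq_A, ← sum_add_distrib, mul_sum]
    exact sum_le_sum fun π _ => h2 (X π)
  have s2 : ((Pi.sigma fun π => Ess (X π)).card : ℝ) ≤
      ∑ u ∈ Ico a (nxt K a), ((K * (u + 2)) ^ (k - 1) * 2 * (4 * μ) : ℕ) * (G / 2 ^ (u / E)) := by
    refine tq_fib (fun z => z.2.1 0) (fun z hz => ?_) _ fun u hu => ?_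
    · have := h1 _ _ (mem_sigma.1 hz).2
      exact mem_Ico.2 ⟨this.2.1, this.2.2.1⟩
    obtain ⟨Q, q1, q2, q3⟩ := tq_tuples k u (by omega) (Sp u)
    have hau := (mem_Ico.1 hu).1
    have g0 : 0 ≤ G / 2 ^ (u / E) := by positivity
    refine (tq_fib (t := Q ×ˢ (univ : Finset Bool)) (fun z => (z.2.1, z.2.2.1)) (fun z hz => ?_)
      (fun _ => (4 * μ : ℕ) * (G / 2 ^ (u / E))) fun w hw => ?_).trans ?_
    · obtain ⟨hz, hz0⟩ := mem_filter.1 hz
      have := h1 _ _ (mem_sigma.1 hz).2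
      exact mem_product.2 ⟨q3 _ hz0 (fun t t1 t2 => hz0 ▸ this.2.2.2.1 t t1 t2) this.2.2.2.2,
        mem_univ _⟩
    · obtain ⟨q, b⟩ := w
      have hq : q 0 = u := q2 q (mem_product.1 hw).1
      set T := ((Pi.sigma fun π => Ess (X π)).filter fun z => z.2.1 0 = u).filter
        fun z => (z.2.1, z.2.2.1) = (q, b) with hT
      have mT : ∀ z ∈ T, z.1 ∈ Pi ∧ z.2 ∈ Ess (X z.1) ∧ z.2.1 = q ∧ z.2.2.1 = b := fun z hz => by
        obtain ⟨hz, e⟩ := mem_filter.1 hz
        have := mem_sigma.1 (mem_filter.1 hz).1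
        exact ⟨this.1, this.2, (Prod.ext_iff.1 e).1, (Prod.ext_iff.1 e).2⟩
      have c1 := card_le_mul_card_image (f := fun z : (Σ _ : ι, (ℕ → ℕ) × Bool × (ℕ → ℕ)) =>
        (z.1, z.2.2.2 0 / 2 ^ (q (k - 1) + 1))) T (4 * μ) fun w _ => by
          refine le_trans ?_ (h3 (X w.1) q b w.2)
          rw [← Set.ncard_coe_finset]
          refine Set.ncard_le_ncard_of_injOn (fun z => z.2) (fun z hz => ?_) (fun z hz z' hz' e => ?_)
            ((Ess (X w.1)).finite_toSet.subset fun e he => he.1)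
          · obtain ⟨hz, e⟩ := mem_filter.1 (mem_coe.1 hz)
            obtain ⟨-, m2, m3, m4⟩ := mT z hz
            rw [← e]
            exact ⟨m2, m3, m4, rfl⟩
          · have e1 := (Prod.ext_iff.1 (mem_filter.1 (mem_coe.1 hz)).2).1
            have e2 := (Prod.ext_iff.1 (mem_filter.1 (mem_coe.1 hz')).2).1
            exact Sigma.ext (e1.trans e2.symm) (heq_of_eq e)
      have c2 := H q b (T.image fun z => (z.1, z.2.2.2 0 / 2 ^ (q (k - 1) + 1))) (by omega)
        fun w hw => by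
          obtain ⟨z, hz, rfl⟩ := mem_image.1 hw
          obtain ⟨m1, m2, m3, m4⟩ := mT z hz
          exact ⟨m1, z.2.2.2, m3 ▸ m4 ▸ (h1 _ _ m2).1, rfl⟩
      rw [hq, ← le_div_iff₀ (by positivity)] at c2
      have c3 : (T.card : ℝ) ≤ (4 * μ : ℕ) *
          ((T.image fun z => (z.1, z.2.2.2 0 / 2 ^ (q (k - 1) + 1))).card : ℝ) := by
        exact_mod_cast c1
      exact c3.trans (mul_le_mul_of_nonneg_left c2 (Nat.cast_nonneg _))
    · rw [sum_const, card_product, nsmul_eq_mul, ← mul_assoc, ← Nat.cast_mul]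
      refine mul_le_mul_of_nonneg_right (Nat.cast_le.2 ?_) g0
      refine Nat.mul_le_mul_right _ (Nat.mul_le_mul (q1.trans ?_) (by simp))
      exact Nat.pow_le_pow_left (hSp u hau) _
  have s3 : (tq_A Pi X a : ℝ) ≤ (2 * μ : ℕ) *
      (tq_A Pi X (nxt K a) + ((Pi.sigma fun π => Ess (X π)).card : ℝ)) := by
    exact_mod_cast s1
  exact s3.trans (mul_le_mul_of_nonneg_left (by linarith) (Nat.cast_nonneg _))

theorem tq_mu (k i : ℕ) (hk : 2 ≤ k) :
    2 ^ (5 * (i + 1) ^ (2 * k)) * (2 * 4 ^ (2 * (i + 1 + 1) ^ (2 * k - 2))) ≤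
      2 ^ (5 * (i + 1 + 1) ^ (2 * k)) := by
  obtain ⟨j, hj⟩ : ∃ j, 2 * k = j + 2 := ⟨2 * k - 2, by omega⟩
  rw [hj, Nat.add_sub_cancel, show (4 : ℕ) = 2 ^ 2 by norm_num, ← pow_mul, ← pow_succ', ← pow_add]
  refine Nat.pow_le_pow_right two_pos ?_
  have h1 : (i + 1) ^ j ≤ (i + 1 + 1) ^ j := Nat.pow_le_pow_left (by omega) _
  have h2 : 1 ≤ (i + 1 + 1) ^ j := Nat.one_le_pow _ _ (by omega)
  have h3 := Nat.mul_le_mul_left ((i + 1) ^ 2) h1
  rw [pow_add, pow_add]
  nlinarith [Nat.zero_le (i * (i + 1 + 1) ^ j)]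

theorem tq_ev (D c : ℕ) : ∃ l0, ∀ l, l0 ≤ l → D * (l + 2) ^ c ≤ 2 ^ l := by
  have h := tendsto_pow_const_div_const_pow_of_one_lt c (one_lt_two (α := ℝ))
  have h2 := h.eventually (gt_mem_nhds (show (0 : ℝ) < 1 / (4 * D + 1) by positivity))
  obtain ⟨l0, h3⟩ := Filter.eventually_atTop.1 h2
  refine ⟨l0, fun l hl => ?_⟩
  have h4 := h3 (l + 2) (by omega)
  rw [div_lt_div_iff₀ (by positivity) (by positivity), pow_add (2 : ℝ)] at h4
  have h5 : (0 : ℝ) ≤ ((l + 2 : ℕ) : ℝ) ^ c := by positivity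
  have h6 : (D : ℝ) * ((l + 2 : ℕ) : ℝ) ^ c ≤ 2 ^ l := by nlinarith
  exact_mod_cast h6

theorem tq_num (k E : ℕ) (hk : 2 ≤ k) (hE : 1 ≤ E) : ∃ u0, ∀ u, u0 ≤ u → ∀ i, 2 ^ i ≤ u →
    2 ^ (5 * (i + 1 + 1) ^ (2 * k)) * (((i + 1) * (u + 2)) ^ (k - 1) * 2 *
      (4 * 4 ^ (2 * (i + 1 + 1) ^ (2 * k - 2)))) * u ^ 2 ≤ 2 ^ (u / E) := by
  obtain ⟨l0, h0⟩ := tq_ev (E * (14 + 2 * k)) (2 * k)
  refine ⟨2 ^ l0, fun u hu i hi => ?_⟩
  have u0 : u ≠ 0 := by have := Nat.two_pow_pos i; omega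
  have l1 : l0 ≤ Nat.log 2 u := Nat.le_log_of_pow_le one_lt_two hu
  have l2 : i ≤ Nat.log 2 u := Nat.le_log_of_pow_le one_lt_two hi
  have l3 : 2 ^ Nat.log 2 u ≤ u := Nat.pow_log_le_self 2 u0
  have l4 : u < 2 ^ (Nat.log 2 u + 1) := Nat.lt_pow_succ_log_self one_lt_two u
  have h1 := h0 _ l1
  generalize Nat.log 2 u = l at l1 l2 l3 l4 h1
  set z := (l + 2) ^ (2 * k) with hz
  have z1 : l + 2 ≤ z := Nat.le_self_pow (by omega) _
  have z2 : (i + 1 + 1) ^ (2 * k) ≤ z := Nat.pow_le_pow_left (by omega) _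
  have z3 : (i + 1 + 1) ^ (2 * k - 2) ≤ z := (Nat.pow_le_pow_right (by omega) (by omega)).trans z2
  have u1 : u + 2 ≤ 2 ^ z := by
    refine le_trans ?_ (Nat.pow_le_pow_right two_pos z1)
    have := Nat.two_pow_pos l
    rw [pow_succ] at l4
    rw [pow_add]
    omega
  have u2 : i + 1 ≤ 2 ^ z := by
    have := Nat.lt_two_pow_self (n := i)
    omega
  have a1 : 2 ^ (5 * (i + 1 + 1) ^ (2 * k)) ≤ 2 ^ (5 * z) := Nat.pow_le_pow_right two_pos (by omega)
  have a2 : ((i + 1) * (u + 2)) ^ (k - 1) ≤ 2 ^ (2 * k * z) := by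
    refine (Nat.pow_le_pow_left (Nat.mul_le_mul u2 u1) _).trans ?_
    rw [← pow_add, ← pow_mul]
    refine Nat.pow_le_pow_right two_pos ?_
    have : k - 1 ≤ k := by omega
    nlinarith
  have a3 : 4 ^ (2 * (i + 1 + 1) ^ (2 * k - 2)) ≤ 2 ^ (4 * z) := by
    rw [show (4 : ℕ) = 2 ^ 2 by norm_num, ← pow_mul]
    exact Nat.pow_le_pow_right two_pos (by omega)
  have a4 : u ^ 2 ≤ 2 ^ (2 * z) := by
    rw [mul_comm, pow_mul]
    exact Nat.pow_le_pow_left (by omega) _
  have a5 : (14 + 2 * k) * z ≤ u / E := by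
    rw [Nat.le_div_iff_mul_le (by omega)]
    nlinarith
  calc _ ≤ 2 ^ (5 * z) * (2 ^ (2 * k * z) * 2 * (4 * 2 ^ (4 * z))) * 2 ^ (2 * z) := by gcongr
    _ = 2 ^ (5 * z + 2 * k * z + 4 * z + 2 * z + 3) := by simp only [pow_add]; ring
    _ ≤ _ := Nat.pow_le_pow_right two_pos (by nlinarith)

/-- The ends of the blocks. -/
def tq_a (a0 : ℕ) : ℕ → ℕ
  | 0 => a0
  | i + 1 => nxt (i + 1) (tq_a a0 i)

theorem tq_a_ge {a0 : ℕ} (h : 1 ≤ a0) (i : ℕ) :
    a0 ≤ tq_a a0 i ∧ 2 ^ i ≤ tq_a a0 i ∧ ack i i ≤ tq_a a0 i := by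
  induction i with
  | zero => exact ⟨le_rfl, h, by simpa [tq_a] using h⟩
  | succ i ih =>
    have h1 := two_mul_le_nxt (i + 1) (tq_a a0 i) (by omega)
    have h2 := ack_le_nxt (i + 1) (tq_a a0 i) (by omega)
    have h3 := Nat.lt_two_pow_self (n := i)
    have h4 : ack (i + 1) (i + 1) ≤ ack (i + 1) (tq_a a0 i) := ack_mono_right _ (by omega)
    rw [tq_a, pow_succ]
    omega

theorem tq_iter (k E : ℕ) (hk : 2 ≤ k) (hE : 1 ≤ E) : ∃ u0, ∀ {ι : Type} (Pi : Finset ι)
    (X : ι → Finset ℕ) (a0 : ℕ) (G : ℝ), u0 ≤ a0 → 1 ≤ a0 → 0 ≤ G → tq_H Pi X k E a0 G → ∀ i,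
    (tq_A Pi X a0 : ℝ) ≤ 2 ^ (5 * (i + 1) ^ (2 * k)) * tq_A Pi X (tq_a a0 i) + 2 / a0 * G := by
  obtain ⟨u0, h0⟩ := tq_num k E hk hE
  refine ⟨u0, fun Pi X a0 G hu h1 hG H i => ?_⟩
  have key : ∀ i, (tq_A Pi X a0 : ℝ) ≤ 2 ^ (5 * (i + 1) ^ (2 * k)) * tq_A Pi X (tq_a a0 i) +
      ∑ u ∈ Ico a0 (tq_a a0 i), ((u : ℝ) ^ 2)⁻¹ * G := by
    intro i
    induction i with
    | zero =>
      simp only [tq_a, Ico_self, sum_empty, add_zero]
      exact le_mul_of_one_le_left (Nat.cast_nonneg _) (one_le_pow₀ one_le_two)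
    | succ i ih =>
      obtain ⟨g1, g2, -⟩ := tq_a_ge h1 i
      have b1 := tq_block hk hG H (i + 1) (tq_a a0 i) g1
      have b2 : (2 : ℝ) ^ (5 * (i + 1) ^ (2 * k)) *
          (2 * 4 ^ (2 * (i + 1 + 1) ^ (2 * k - 2)) : ℕ) ≤ 2 ^ (5 * (i + 1 + 1) ^ (2 * k)) := by
        exact_mod_cast tq_mu k i hk
      have b3 := mul_le_mul_of_nonneg_left b1
        (show (0 : ℝ) ≤ 2 ^ (5 * (i + 1) ^ (2 * k)) by positivity)
      rw [← mul_assoc] at b3
      have b4 := b3.trans (mul_le_mul_of_nonneg_right b2 (by positivity))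
      rw [mul_add, mul_sum] at b4
      have b5 : ∑ u ∈ Ico (tq_a a0 i) (nxt (i + 1) (tq_a a0 i)),
          (2 : ℝ) ^ (5 * (i + 1 + 1) ^ (2 * k)) * (((((i + 1) * (u + 2)) ^ (k - 1) * 2 *
            (4 * 4 ^ (2 * (i + 1 + 1) ^ (2 * k - 2))) : ℕ) : ℝ) * (G / 2 ^ (u / E))) ≤
          ∑ u ∈ Ico (tq_a a0 i) (nxt (i + 1) (tq_a a0 i)), ((u : ℝ) ^ 2)⁻¹ * G := by
        refine sum_le_sum fun u hu' => ?_
        have hu1 := (mem_Ico.1 hu').1
        have up : (0 : ℝ) < u := by exact_mod_cast (by omega : 0 < u)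
        have n1 : (2 : ℝ) ^ (5 * (i + 1 + 1) ^ (2 * k)) * ((((i + 1) * (u + 2)) ^ (k - 1) * 2 *
            (4 * 4 ^ (2 * (i + 1 + 1) ^ (2 * k - 2))) : ℕ) : ℝ) * (u : ℝ) ^ 2 ≤ 2 ^ (u / E) := by
          exact_mod_cast h0 u (by omega) i (by omega)
        rw [← mul_assoc, div_eq_inv_mul, ← mul_assoc]
        refine mul_le_mul_of_nonneg_right ?_ hG
        rw [← div_eq_mul_inv, ← one_div, div_le_div_iff₀ (by positivity) (by positivity), one_mul]
        exact n1
      rw [tq_a, ← sum_Ico_consecutive _ g1 (lt_nxt (i + 1) (tq_a a0 i)).le]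
      linarith
  refine (key i).trans (add_le_add_right ?_ _)
  rw [← sum_mul]
  refine mul_le_mul_of_nonneg_right ?_ hG
  obtain ⟨b, rfl⟩ : ∃ b, a0 = b + 1 := ⟨a0 - 1, by omega⟩
  have := sum_Ioo_inv_sq_le (α := ℝ) b (tq_a (b + 1) i)
  rw [show Ico (b + 1) (tq_a (b + 1) i) = Ioo b (tq_a (b + 1) i) from by
    ext x; simp only [mem_Ico, mem_Ioo]; omega]
  exact_mod_cast this

end CurK
end

-- merged part: Pool.Agent.Work.MP_8a5de9_co_K.TR
section
/-! Paper 5.3 (last two lines), 5.4, 5.5. -/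

namespace CurK

open Finset

section
variable {d s : ℕ} {I P V : Type} [DecidableEq I]

/-- The conclusion of theorem AL for one model. -/
def tq_Al (M : Mod d s I P V) (R : Finset I) (k T0 E : ℕ) (N : ℝ) : Prop :=
  ∀ (Ms : ℕ → ℕ) (T : ℕ), (∀ t < k, Ms 0 ≤ Ms t ∧ Ms t ≤ Ms (k - 1)) → T0 ≤ T → T ^ E ≤ Ms 0 →
    ∀ {O : Type} [Fintype O] (op : O → P) (oσ : O → Finset I) (oy : O → ℕ → ℕ),
      (∀ o, M.Obj R k Ms (op o) (oσ o) (oy o)) →
      (∀ o o', o ≠ o' → op o = op o' →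
        M.cnt R (op o) (oy o 0) + 2 * Ms (k - 1) ≤ M.cnt R (op o') (oy o' 0) ∨
        M.cnt R (op o') (oy o' 0) + 2 * Ms (k - 1) ≤ M.cnt R (op o) (oy o 0)) →
      (Fintype.card O : ℝ) * T ≤ N

open Classical in
/-- The counts of the visible slots. -/
noncomputable def tq_X (M : Mod d s I P V) (R : Finset I) (π : P × Finset I) : Finset ℕ :=
  ((range (M.len π.1 + 1)).filter fun x => M.Vis R π.1 π.2 x).image (M.cnt R π.1)

theorem tq_memX {M : Mod d s I P V} {R : Finset I} {π : P × Finset I} {c : ℕ} :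
    c ∈ tq_X M R π ↔ ∃ x, M.Vis R π.1 π.2 x ∧ M.cnt R π.1 x = c := by
  simp only [tq_X, mem_image, mem_filter, mem_range]
  exact ⟨fun ⟨x, h, e⟩ => ⟨x, h.2, e⟩,
    fun ⟨x, h, e⟩ => ⟨x, ⟨Nat.lt_succ_of_le (M.vis_sub h).2.2, h⟩, e⟩⟩

theorem tq_side (M : Mod d s I P V) {β : Type} [DecidableEq P] [DecidableEq β]
    (W : Finset ((P × Finset I) × β)) (h : ∀ w ∈ W, w.1.2 ⊆ M.cur w.1.1) :
    W.card ≤ 2 ^ (d - 1) * (W.image fun w => (w.1.1, w.2)).card := by
  refine card_le_mul_card_image W _ fun z _ => ?_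
  have e : 2 ^ (d - 1) = (M.cur z.1).powerset.card := by
    rw [card_powerset, Nat.sub_eq_of_eq_add (M.cur_card z.1).symm]
  rw [e]
  refine card_le_card_of_injOn (fun w => w.1.2) (fun w hw => ?_) fun w hw w' hw' e => ?_
  · obtain ⟨hw, e⟩ := mem_filter.1 (mem_coe.1 hw)
    rw [← e]
    exact mem_coe.2 (mem_powerset.2 (h w hw))
  · have e1 := (mem_filter.1 (mem_coe.1 hw)).2.trans (mem_filter.1 (mem_coe.1 hw')).2.symm
    exact Prod.ext (Prod.ext (Prod.ext_iff.1 e1).1 e) (Prod.ext_iff.1 e1).2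

theorem tq_pairs [Finite P] (M : Mod d s I P V) (R : Finset I) : ∃ Pi : Finset (P × Finset I),
    (∀ π, π ∈ Pi ↔ M.cur π.1 ⊆ R ∧ π.2 ⊆ M.cur π.1) ∧
      Pi.card ≤ 2 ^ (d - 1) * s * (R.card + 1) ^ (d - 1) := by
  classical
  have := Fintype.ofFinite P
  have hm : ∀ π : P × Finset I, π ∈ (univ ×ˢ R.powerset).filter
      (fun π : P × Finset I => M.cur π.1 ⊆ R ∧ π.2 ⊆ M.cur π.1) ↔
      M.cur π.1 ⊆ R ∧ π.2 ⊆ M.cur π.1 := fun π => by
    simp only [mem_filter, mem_product, mem_univ, mem_powerset, true_and]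
    exact ⟨fun h => h.2, fun h => ⟨h.2.trans h.1, h⟩⟩
  refine ⟨_, hm, ?_⟩
  have c1 := card_le_mul_card_image_of_maps_to (f := fun π : P × Finset I => π.1)
    (t := univ.filter fun p => M.cur p ⊆ R)
    (fun π h => mem_filter.2 ⟨mem_univ _, ((hm π).1 h).1⟩) (2 ^ (d - 1)) fun p _ => by
      have e : 2 ^ (d - 1) = (M.cur p).powerset.card := by
        rw [card_powerset, Nat.sub_eq_of_eq_add (M.cur_card p).symm]
      rw [e]
      refine card_le_card_of_injOn (fun w => w.2) (fun w hw => ?_) fun w hw w' hw' e => ?_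
      · obtain ⟨hw, e⟩ := mem_filter.1 (mem_coe.1 hw)
        rw [← e]
        exact mem_coe.2 (mem_powerset.2 ((hm w).1 hw).2)
      · exact Prod.ext ((mem_filter.1 (mem_coe.1 hw)).2.trans
          (mem_filter.1 (mem_coe.1 hw')).2.symm) e
  have c2 := card_le_mul_card_image_of_maps_to (f := M.cur)
    (s := univ.filter fun p => M.cur p ⊆ R) (t := powersetCard (d - 1) R)
    (fun p h => mem_powersetCard.2 ⟨(mem_filter.1 h).2, by have := M.cur_card p; omega⟩) s
    fun γ _ => by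
      refine le_trans ?_ (M.cur_le γ)
      rw [← Set.ncard_coe_finset]
      exact Set.ncard_le_ncard (fun p hp => (mem_filter.1 (mem_coe.1 hp)).2) (Set.toFinite _)
  rw [card_powersetCard] at c2
  have c3 : R.card.choose (d - 1) ≤ (R.card + 1) ^ (d - 1) :=
    (Nat.choose_le_pow _ _).trans (Nat.pow_le_pow_left (by omega) _)
  rw [mul_assoc]
  exact c1.trans (Nat.mul_le_mul_left _ (c2.trans (Nat.mul_le_mul_left _ c3)))

theorem tq_gap {y y' n : ℕ} (hn : 0 < n) (h : y / n + 2 ≤ y' / n) : y + n ≤ y' := by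
  have h1 := Nat.lt_div_mul_add (a := y) hn
  have h2 := Nat.div_mul_le_self y' n
  have h3 := Nat.mul_le_mul_right n h
  nlinarith

/-- One parity class of nodes with a catch is a family of objects. -/
theorem tq_par {M M' : Mod d s I P V} {R : Finset I} {k T0 E : ℕ} {N : ℝ} (hk : 2 ≤ k)
    (hN : 0 ≤ N)
    (r1 : ∀ p σ x, x ≤ M.len p → (M'.Vis R p σ (M.len p - x) ↔ M.Vis R p σ x))
    (r2 : ∀ p x, x ≤ M.len p → M'.cnt R p (M.len p - x) + M.cnt R p x = M.cnt R p (M.len p))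
    (h : tq_Al M R k T0 E N) (h' : tq_Al M' R k T0 E N) {q : ℕ → ℕ} {b : Bool} {T : ℕ}
    (t1 : T0 ≤ T) (t2 : T ^ E ≤ 2 ^ q 0) (Z : Finset (P × ℕ))
    (hZ : ∀ z ∈ Z, ∃ σ y, Catch (tq_X M R (z.1, σ)) k b q y ∧ y 0 / 2 ^ (q (k - 1) + 1) = z.2)
    (hp : ∀ z ∈ Z, ∀ z' ∈ Z, z.2 % 2 = z'.2 % 2) : (Z.card : ℝ) * T ≤ N := by
  rcases Z.eq_empty_or_nonempty with rfl | ⟨z0, hz0⟩
  · simpa using hN
  have hq : ∀ t t', t ≤ t' → t' < k → q t ≤ q t' := by
    obtain ⟨σ, y, c, -⟩ := hZ z0 hz0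
    intro t t' h1 h2
    induction t', h1 using Nat.le_induction with
    | base => exact le_rfl
    | succ n _ ih => exact (ih (by omega)).trans (c.mono n h2).le
  have hMs : ∀ t < k, 2 ^ q 0 ≤ 2 ^ q t ∧ 2 ^ q t ≤ 2 ^ q (k - 1) := fun t ht =>
    ⟨Nat.pow_le_pow_right two_pos (hq 0 t (by omega) ht),
      Nat.pow_le_pow_right two_pos (hq t _ (by omega) (by omega))⟩
  choose σ y hc hy using fun z : Z => hZ z.1 z.2
  have hx : ∀ (z : Z) (t : ℕ), ∃ x, t ≤ k → M.Vis R z.1.1 (σ z) x ∧ M.cnt R z.1.1 x = y z t := by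
    intro z t
    by_cases ht : t ≤ k
    · obtain ⟨x, h1⟩ := tq_memX.1 ((hc z).mem t ht)
      exact ⟨x, fun _ => h1⟩
    · exact ⟨0, fun h1 => absurd h1 ht⟩
  choose x hx using hx
  have sep : ∀ z z' : Z, z ≠ z' → z.1.1 = z'.1.1 →
      y z 0 + 2 * 2 ^ q (k - 1) ≤ y z' 0 ∨ y z' 0 + 2 * 2 ^ q (k - 1) ≤ y z 0 := by
    intro z z' h1 h2
    have h3 : z.1.2 ≠ z'.1.2 := fun e => h1 (Subtype.ext (Prod.ext h2 e))
    have h4 := hp _ z.2 _ z'.2
    rw [← pow_succ']
    rcases lt_or_gt_of_ne h3 with h5 | h5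
    · exact Or.inl (tq_gap (Nat.two_pow_pos _) (by rw [hy, hy]; omega))
    · exact Or.inr (tq_gap (Nat.two_pow_pos _) (by rw [hy, hy]; omega))
  rw [← Fintype.card_coe]
  cases b with
  | true =>
    refine h (fun t => 2 ^ q t) T hMs t1 t2 (fun z : Z => z.1.1) σ x (fun z => ⟨fun t ht =>
      (hx z t ht).1, fun t ht => ?_, fun t ht => ?_⟩) fun z z' h1 h2 => ?_
    · rw [(hx z t ht.le).2, (hx z (t + 1) ht).2]
      simpa using (hc z).gap t ht
    · rw [(hx z t ht.le).2, (hx z 0 (Nat.zero_le _)).2]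
      simpa using (hc z).near t ht
    · rw [(hx z 0 (Nat.zero_le _)).2, (hx z' 0 (Nat.zero_le _)).2]
      exact sep z z' h1 h2
  | false =>
    have e : ∀ (z : Z) (t : ℕ), t ≤ k → M'.cnt R z.1.1 (M.len z.1.1 - x z t) + y z t =
        M.cnt R z.1.1 (M.len z.1.1) := fun z t ht => by
      rw [← (hx z t ht).2]
      exact r2 _ _ (M.vis_sub (hx z t ht).1).2.2
    refine h' (fun t => 2 ^ q t) T hMs t1 t2 (fun z : Z => z.1.1) σ
      (fun z t => M.len z.1.1 - x z t) (fun z => ⟨fun t ht =>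
      (r1 _ _ _ (M.vis_sub (hx z t ht).1).2.2).2 (hx z t ht).1, fun t ht => ?_, fun t ht => ?_⟩)
      fun z z' h1 h2 => ?_
    · have e1 := e z t ht.le
      have e2 := e z (t + 1) ht
      have e3 : y z (t + 1) + 2 ^ q t ≤ y z t := by simpa using (hc z).gap t ht
      omega
    · have e1 := e z t ht.le
      have e2 := e z 0 (Nat.zero_le _)
      have e3 : y z 0 ≤ y z t + 2 ^ q t := by simpa using (hc z).near t ht
      omega
    · have e1 := e z 0 (Nat.zero_le _)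
      have e2 := e z' 0 (Nat.zero_le _)
      have e3 := sep z z' h1 h2
      have e4 : M.cnt R z.1.1 (M.len z.1.1) = M.cnt R z'.1.1 (M.len z'.1.1) := by rw [h2]
      omega

theorem tq_hyp {M M' : Mod d s I P V} {R : Finset I} {k T0 E a0 : ℕ} {N : ℝ} (hk : 2 ≤ k)
    (hN : 0 ≤ N)
    (r1 : ∀ p σ x, x ≤ M.len p → (M'.Vis R p σ (M.len p - x) ↔ M.Vis R p σ x))
    (r2 : ∀ p x, x ≤ M.len p → M'.cnt R p (M.len p - x) + M.cnt R p x = M.cnt R p (M.len p))
    (h : tq_Al M R k T0 E N) (h' : tq_Al M' R k T0 E N) (ha : T0 * (E + 1) ≤ a0)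
    {Pi : Finset (P × Finset I)} (hPi : ∀ π ∈ Pi, π.2 ⊆ M.cur π.1) :
    tq_H Pi (tq_X M R) k (E + 1) a0 (2 ^ (d - 1) * (2 * N)) := by
  classical
  intro q b W hq hW
  have t1 : T0 ≤ 2 ^ (q 0 / (E + 1)) :=
    ((Nat.le_div_iff_mul_le (by omega)).2 (ha.trans hq)).trans Nat.lt_two_pow_self.le
  have t2 : (2 ^ (q 0 / (E + 1))) ^ E ≤ 2 ^ q 0 := by
    rw [← pow_mul]
    exact Nat.pow_le_pow_right two_pos
      ((Nat.mul_le_mul_left _ (Nat.le_succ E)).trans (Nat.div_mul_le_self _ _))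
  have c1 := tq_side M W fun w hw => hPi _ (hW w hw).1
  set Z := W.image fun w => (w.1.1, w.2) with hZ
  have mZ : ∀ z ∈ Z, ∃ σ y, Catch (tq_X M R (z.1, σ)) k b q y ∧
      y 0 / 2 ^ (q (k - 1) + 1) = z.2 := fun z hz => by
    obtain ⟨w, hw, rfl⟩ := mem_image.1 hz
    obtain ⟨-, y, h1⟩ := hW w hw
    exact ⟨w.1.2, y, h1⟩
  have p0 := tq_par hk hN r1 r2 h h' t1 t2 (Z.filter fun z => z.2 % 2 = 0)
    (fun z hz => mZ z (mem_filter.1 hz).1)
    fun z hz z' hz' => (mem_filter.1 hz).2.trans (mem_filter.1 hz').2.symm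
  have p1 := tq_par hk hN r1 r2 h h' t1 t2 (Z.filter fun z => ¬ z.2 % 2 = 0)
    (fun z hz => mZ z (mem_filter.1 hz).1)
    fun z hz z' hz' => by
      have e1 := (mem_filter.1 hz).2
      have e2 := (mem_filter.1 hz').2
      omega
  have c2 : ((Z.filter fun z => z.2 % 2 = 0).card : ℝ) + (Z.filter fun z => ¬ z.2 % 2 = 0).card =
      Z.card := by exact_mod_cast card_filter_add_card_filter_not (s := Z) fun z => z.2 % 2 = 0
  have c3 : (W.card : ℝ) ≤ 2 ^ (d - 1) * Z.card := by exact_mod_cast c1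
  push_cast at p0 p1
  have c4 : (Z.card : ℝ) * 2 ^ (q 0 / (E + 1)) ≤ 2 * N := by
    rw [← c2, add_mul]
    linarith
  refine (mul_le_mul_of_nonneg_right c3 (by positivity)).trans ?_
  rw [mul_assoc]
  exact mul_le_mul_of_nonneg_left c4 (by positivity)

theorem tq_start {M : Mod d s I P V} {R : Finset I} {a : ℕ} {Pi : Finset (P × Finset I)}
    (hPi : ∀ π, π ∈ Pi ↔ M.cur π.1 ⊆ R ∧ π.2 ⊆ M.cur π.1) {S : Finset (P × Finset I × ℕ)}
    (hS : M.Sep R (2 ^ a) S) : S.card ≤ tq_A Pi (tq_X M R) a := by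
  rw [tq_A, ← card_sigma]
  have key : ∀ p σ x y, (p, σ, x) ∈ S → (p, σ, y) ∈ S → x < y →
      M.cnt R p x / 2 ^ a ≠ M.cnt R p y / 2 ^ a := fun p σ x y hx hy hxy e => by
    have h1 := hS.2 p σ x y hx hy hxy
    have h2 := (M.cf_le R p hxy.le).1
    have h3 : (M.cnt R p x + 2 ^ a) / 2 ^ a ≤ M.cnt R p y / 2 ^ a :=
      Nat.div_le_div_right (by omega)
    rw [Nat.add_div_right _ (Nat.two_pow_pos a)] at h3
    omega
  refine card_le_card_of_injOn (fun z => ⟨(z.1, z.2.1), M.cnt R z.1 z.2.2 / 2 ^ a⟩)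
    (fun z hz => ?_) fun z hz z' hz' e => ?_
  · have hv := hS.1 z hz
    exact mem_coe.2 (mem_sigma.2 ⟨(hPi _).2 ⟨(M.vis_sub hv).1, (M.vis_sub hv).2.1⟩,
      mem_image.2 ⟨_, tq_memX.2 ⟨z.2.2, hv, rfl⟩, rfl⟩⟩)
  · obtain ⟨p, σ, x⟩ := z
    obtain ⟨p', σ', x'⟩ := z'
    simp only [Sigma.mk.injEq, Prod.mk.injEq, heq_eq_eq] at e
    obtain ⟨⟨rfl, rfl⟩, e⟩ := e
    rcases lt_trichotomy x x' with h | rfl | h
    · exact absurd e (key p σ x x' hz hz' h)
    · rfl
    · exact absurd e.symm (key p σ x' x hz' hz h)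

theorem tq_end (M : Mod d s I P V) (R : Finset I) {a : ℕ} (Pi : Finset (P × Finset I))
    (h : s * R.card < 2 ^ a) : tq_A Pi (tq_X M R) a ≤ Pi.card := by
  rw [tq_A, card_eq_sum_ones Pi]
  refine sum_le_sum fun π _ => (card_le_card (t := {0}) fun c hc => ?_).trans (by simp)
  obtain ⟨y, hy, rfl⟩ := mem_image.1 hc
  obtain ⟨x, -, rfl⟩ := tq_memX.1 hy
  exact mem_singleton.2 (Nat.div_eq_of_lt ((M.cnt_le R π.1 x).trans_lt h))

end

theorem tq_le_ack (n : ℕ) : n ≤ ack (invAck n) (invAck n) :=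
  Nat.sInf_mem (s := {k | n ≤ ack k k}) ⟨n, (lt_ack_left n n).le⟩

theorem tq_inv_mono {n n' : ℕ} (h : n ≤ n') : invAck n ≤ invAck n' :=
  Nat.sInf_le (h.trans (tq_le_ack n'))

/-- Theorem TR. -/
theorem tr (d s k : ℕ) (hd : 2 ≤ d) (hk : 2 ≤ k) (ε : ℝ) (hε : 0 < ε) : ∃ (m : ℕ) (C : ℝ), 2 ≤ m ∧
    ∀ {I P V : Type} [DecidableEq I] [Finite P] [Finite V] (M : Mod d s I P V) (R : Finset I)
    (B : ℝ), 1 ≤ B → (∀ R' ⊆ R, (M.WW R' : ℝ) ≤ B * (R'.card + 1) ^ (d - 1)) →
    (∀ R' ⊆ R, R'.card ≤ d * k → M.WW R' < k ^ d) → ∀ S, M.Sep R m S →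
    (S.card : ℝ) ≤ C * 2 ^ (5 * (invAck R.card + 2) ^ (2 * k)) * (R.card + 1) ^ (d - 1) +
      ε * B * (R.card + 1) ^ (d - 1) := by
  obtain ⟨C1, T0, E, hC1, hA⟩ := align d s k hd (by omega)
  obtain ⟨u0, h0⟩ := tq_iter k (E + 1) hk (by omega)
  obtain ⟨n0, hn0⟩ := exists_nat_ge (2 * (2 ^ (d - 1) * (2 * C1)) / ε)
  refine ⟨2 ^ (u0 + T0 * (E + 1) + s + n0 + 1), 2 ^ (d - 1) * s,
    Nat.le_self_pow (by omega) _, fun {I P V} _ _ _ M R B hB hW hO S hS => ?_⟩
  obtain ⟨a0, ha0⟩ : ∃ a0, a0 = u0 + T0 * (E + 1) + s + n0 + 1 := ⟨_, rfl⟩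
  rw [← ha0] at hS
  obtain ⟨M', -, -, r1, r2, r3⟩ := exists_refl M
  obtain ⟨Pi, hPi, cPi⟩ := tq_pairs M R
  have x0 : (0 : ℝ) ≤ B * (R.card + 1) ^ (d - 1) := by positivity
  have hN : 0 ≤ C1 * B * ((R.card : ℝ) + 1) ^ (d - 1) := by positivity
  have H := tq_hyp (a0 := a0) hk hN (r1 R) (r3 R) (hA M R B hB hW hO)
    (hA M' R B hB (fun R' h => r2 R' ▸ hW R' h) fun R' h h' => r2 R' ▸ hO R' h h') (by omega)
    fun π h => ((hPi π).1 h).2
  have h1 := h0 Pi _ a0 _ (by omega) (by omega) (by positivity) H (invAck R.card + 1)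
  obtain ⟨g1, -, g2⟩ := tq_a_ge (a0 := a0) (by omega) (invAck R.card)
  have g3 := two_mul_le_nxt (invAck R.card + 1) (tq_a a0 (invAck R.card)) (by omega)
  have g4 := tq_le_ack R.card
  have g5 : s * R.card < 2 ^ tq_a a0 (invAck R.card + 1) := by
    refine lt_of_lt_of_le ?_ (Nat.pow_le_pow_right two_pos (show s + R.card ≤ _ by
      rw [tq_a]; omega))
    rw [pow_add]
    exact Nat.mul_lt_mul'' Nat.lt_two_pow_self Nat.lt_two_pow_self
  have h2 : (S.card : ℝ) ≤ tq_A Pi (tq_X M R) a0 := by exact_mod_cast tq_start hPi hS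
  have h3 : (tq_A Pi (tq_X M R) (tq_a a0 (invAck R.card + 1)) : ℝ) ≤
      2 ^ (d - 1) * s * (R.card + 1) ^ (d - 1) := by
    exact_mod_cast (tq_end M R Pi g5).trans cPi
  have h4 := mul_le_mul_of_nonneg_left h3
    (show (0 : ℝ) ≤ 2 ^ (5 * (invAck R.card + 1 + 1) ^ (2 * k)) by positivity)
  have a1 : (0 : ℝ) < a0 := by exact_mod_cast (by omega : 0 < a0)
  have a2 : (n0 : ℝ) ≤ a0 := by exact_mod_cast (by omega : n0 ≤ a0)
  have h5 : 2 * (2 ^ (d - 1) * (2 * C1)) / (a0 : ℝ) ≤ ε := by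
    rw [div_le_iff₀ a1, mul_comm ε, ← div_le_iff₀ hε]
    exact hn0.trans a2
  have h6 := mul_le_mul_of_nonneg_right h5 x0
  have e1 : 2 / (a0 : ℝ) * (2 ^ (d - 1) * (2 * (C1 * B * ((R.card : ℝ) + 1) ^ (d - 1)))) =
      2 * (2 ^ (d - 1) * (2 * C1)) / (a0 : ℝ) * (B * (R.card + 1) ^ (d - 1)) := by ring
  rw [show invAck R.card + 2 = invAck R.card + 1 + 1 from rfl]
  linarith

/-- The combinatorial theorem. -/
theorem comb_main (d s : ℕ) (hd : 2 ≤ d) : ∃ C c : ℕ,
    ∀ {I P V : Type} [DecidableEq I] [Finite P] [Finite V] (M : Mod d s I P V) (ht : V → ℝ),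
      M.Hts ht → ∀ R : Finset I,
        M.VV R ≤ C * (R.card + 1) ^ (d - 1) * 2 ^ ((invAck R.card + 2) ^ c) := by
  obtain ⟨k, hk, hO⟩ := corO d s hd
  have d0 : (0 : ℝ) < d := by exact_mod_cast (by omega : 0 < d)
  choose Fm FC hF hT using fun (ε : ℝ) (hε : 0 < ε) => tr d s k hd hk ε hε
  obtain ⟨C, hC, hH⟩ := hs d s (d - 1) hd (Or.inl rfl)
    (fun ε => if h : 0 < ε then Fm ε h else 2) (fun ε => if h : 0 < ε then |FC ε h| else 0)
    (fun ε h => by simp only [dif_pos h]; exact hF ε h) (1 / (2 * d)) (by positivity)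
  obtain ⟨C', hC'⟩ := exists_nat_ge (C + (1 + 2 * (d * C + 2 ^ d * s)))
  refine ⟨C', 2 * k + 3, fun {I P V} _ _ _ M ht hh R => ?_⟩
  obtain ⟨L, hL⟩ : ∃ L : ℝ, L = 2 ^ (5 * (invAck R.card + 2) ^ (2 * k)) := ⟨_, rfl⟩
  have L1 : 1 ≤ L := hL ▸ one_le_pow₀ one_le_two
  obtain ⟨R1, hR1, hmax⟩ := exists_max_image R.powerset
    (fun R' => (M.WW R' : ℝ) / (R'.card + 1) ^ (d - 1)) ⟨R, mem_powerset_self R⟩
  obtain ⟨B, hB⟩ : ∃ B : ℝ, B = max 1 ((M.WW R1 : ℝ) / (R1.card + 1) ^ (d - 1)) := ⟨_, rfl⟩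
  have B1 : 1 ≤ B := hB ▸ le_max_left _ _
  have hW : ∀ R' ⊆ R, (M.WW R' : ℝ) ≤ B * (R'.card + 1) ^ (d - 1) := fun R' h => by
    rw [← div_le_iff₀ (by positivity), hB]
    exact (hmax R' (mem_powerset.2 h)).trans (le_max_right _ _)
  have hV := hH M ht hh R L B L1 (by linarith) fun ε hε R' h S hS => by
    simp only [dif_pos hε] at hS ⊢
    have h1 := hT ε hε M R' B B1 (fun R'' h' => hW R'' (h'.trans h))
      (fun R'' _ h' => hO M ht hh R'' h') S hS
    have h2 : (2 : ℝ) ^ (5 * (invAck R'.card + 2) ^ (2 * k)) ≤ L := by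
      rw [hL]
      refine pow_le_pow_right₀ one_le_two (Nat.mul_le_mul_left _ (Nat.pow_le_pow_left ?_ _))
      exact Nat.add_le_add_right (tq_inv_mono (card_le_card h)) _
    refine h1.trans (add_le_add_left (mul_le_mul_of_nonneg_right ?_ (by positivity)) _)
    exact mul_le_mul (le_abs_self _) h2 (by positivity) (abs_nonneg _)
  have s0 : (0 : ℝ) ≤ 2 ^ d * s := by positivity
  have c0 : (0 : ℝ) ≤ d * C := by positivity
  have hBL : B ≤ (1 + 2 * (d * C + 2 ^ d * s)) * L := by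
    rcases le_total ((M.WW R1 : ℝ) / (R1.card + 1) ^ (d - 1)) 1 with h | h
    · rw [hB, max_eq_left h]
      nlinarith
    · rw [max_eq_right h] at hB
      have x0 : (0 : ℝ) < (R1.card + 1) ^ (d - 1) := by positivity
      have h1 : (M.WW R1 : ℝ) ≤ d * M.VV R1 + 2 ^ d * s * (R1.card + 1) ^ (d - 1) := by
        exact_mod_cast ww_le M R1
      have h2 := mul_le_mul_of_nonneg_left (hV R1 (mem_powerset.1 hR1)) d0.le
      have h3 : B * (R1.card + 1) ^ (d - 1) = M.WW R1 := by rw [hB, div_mul_cancel₀ _ x0.ne']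
      have e : (d : ℝ) * (C * L * (R1.card + 1) ^ (d - 1) +
          1 / (2 * d) * B * (R1.card + 1) ^ (d - 1)) =
          (d * C * L + B / 2) * (R1.card + 1) ^ (d - 1) := by
        field_simp
      have h4 : B ≤ d * C * L + B / 2 + 2 ^ d * s := by
        refine le_of_mul_le_mul_right ?_ x0
        rw [add_mul]
        linarith
      nlinarith
  have hL2 : L ≤ 2 ^ ((invAck R.card + 2) ^ (2 * k + 3)) := by
    rw [hL]
    refine pow_le_pow_right₀ one_le_two ?_
    rw [pow_add, mul_comm]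
    exact Nat.mul_le_mul_left _ (le_trans (by norm_num)
      (Nat.pow_le_pow_left (show 2 ≤ invAck R.card + 2 by omega) 3))
  have x0 : (0 : ℝ) ≤ (R.card + 1) ^ (d - 1) := by positivity
  have η1 : 1 / (2 * (d : ℝ)) * B ≤ B := by
    refine mul_le_of_le_one_left (by linarith) ?_
    have : (2 : ℝ) ≤ d := by exact_mod_cast hd
    rw [div_le_one (by positivity)]
    linarith
  have f1 : C * L + 1 / (2 * (d : ℝ)) * B ≤ C' * 2 ^ ((invAck R.card + 2) ^ (2 * k + 3)) := by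
    refine le_trans ?_ (mul_le_mul hC' hL2 (by linarith) (Nat.cast_nonneg _))
    linarith
  have f2 : (M.VV R : ℝ) ≤ C' * (R.card + 1) ^ (d - 1) * 2 ^ ((invAck R.card + 2) ^ (2 * k + 3)) := by
    have := mul_le_mul_of_nonneg_right f1 x0
    have h1 := hV R Subset.rfl
    linarith
  exact_mod_cast f2

end CurK
end

-- merged part: Pool.Agent.Work.MP_8a5de9_co_K.Lam
section
/-! The lower bound of Agarwal, Sharir and Shor for Davenport-Schinzel sequences, weak form. -/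

namespace CurK

namespace La

open Function

/-- The alternating list `a b a b ...` of length `m`. -/
def altList {σ : Type} (a b : σ) (m : ℕ) : List σ :=
  (List.range m).map fun r => if Even r then a else b

lemma altList_eq {σ : Type} (a b : σ) (m : ℕ) :
    (List.ofFn fun i : Fin m => if Even i.1 then a else b) = altList a b m := by
  refine List.ext_getElem (by simp [altList]) fun k h1 h2 => ?_
  simp [altList]

theorem length_le {n s : ℕ} {L : List (Fin n)} (h : IsDS n s L) :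
    L.length ≤ n * n * (s + 2) + 1 := by
  classical
  by_contra hl
  have hl' : n * n * (s + 2) + 1 < L.length := not_le.1 hl
  let φ : Fin (L.length - 1) → Fin n × Fin n := fun k =>
    (L[k.val]'(by have := k.2; omega), L[k.val + 1]'(by have := k.2; omega))
  obtain ⟨⟨a, b⟩, hy⟩ := Fintype.exists_lt_card_fiber_of_mul_lt_card (f := φ) (n := s + 2)
    (by simp only [Fintype.card_prod, Fintype.card_fin]; omega)
  let e := Finset.orderEmbOfCardLe _ hy.le
  have he : ∀ r, φ (e r) = (a, b) := fun r =>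
    (Finset.mem_filter.1 (Finset.orderEmbOfCardLe_mem _ hy.le r)).2
  have ha : ∀ r, L[(e r).val]'(by have := (e r).2; omega) = a := fun r => congrArg Prod.fst (he r)
  have hb : ∀ r, L[(e r).val + 1]'(by have := (e r).2; omega) = b :=
    fun r => congrArg Prod.snd (he r)
  have hab : a ≠ b := by
    have := List.isChain_iff_getElem.1 h.1 (e 0).val (by have := (e 0).2; omega)
    rwa [ha 0, hb 0] at this
  refine h.2 a b hab ?_
  rw [altList_eq]
  have hlen : (altList a b (s + 2)).length = s + 2 := by simp [altList]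
  rw [List.sublist_iff_exists_fin_orderEmbedding_get_eq]
  let F : Fin (altList a b (s + 2)).length → Fin L.length := fun r =>
    ⟨(e (r.cast hlen)).val + r.val % 2, by have := (e (r.cast hlen)).2; omega⟩
  have hF : StrictMono F := by
    intro r r' hr
    have h1 : (e (r.cast hlen)).val < (e (r'.cast hlen)).val := e.strictMono (by simpa using hr)
    have h2 : (e (r.cast hlen)).val + 1 ≠ (e (r'.cast hlen)).val := by
      intro h2
      refine hab ((ha (r'.cast hlen)).symm.trans (Eq.trans ?_ (hb (r.cast hlen))))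
      simp only [h2]
    show (e (r.cast hlen)).val + r.val % 2 < (e (r'.cast hlen)).val + r'.val % 2
    omega
  refine ⟨OrderEmbedding.ofStrictMono F hF, fun r => ?_⟩
  have h1 : (altList a b (s + 2)).get r = if Even r.val then a else b := by simp [altList]
  rw [h1]
  show _ = L[(e (r.cast hlen)).val + r.val % 2]'(F r).2
  rcases Nat.even_or_odd r.val with h2 | h2
  · rw [if_pos h2]
    refine (ha (r.cast hlen)).symm.trans ?_
    simp only [Nat.even_iff.1 h2, Nat.add_zero]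
  · rw [if_neg (Nat.not_even_iff_odd.2 h2)]
    refine (hb (r.cast hlen)).symm.trans ?_
    simp only [Nat.odd_iff.1 h2]

theorem lam_bdd (s n : ℕ) : BddAbove {k | ∃ L : List (Fin n), IsDS n s L ∧ L.length = k} :=
  ⟨n * n * (s + 2) + 1, by rintro k ⟨L, h, rfl⟩; exact length_le h⟩

theorem le_lam {n s : ℕ} {L : List (Fin n)} (h : IsDS n s L) : L.length ≤ lam s n :=
  le_csSup (lam_bdd s n) ⟨L, h, rfl⟩

section Blocks

variable {β ι α : Type}

/-- The symbol `a` occurs in the block `p`. -/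
def Mem (f : β → ι → α) (a : α) (p : β) : Prop := ∃ r, f p r = a

/-- Two alternating symbols. -/
def Per (x : ℕ → α) : Prop := ∀ r, x (r + 2) = x r ∧ x r ≠ x (r + 1)

/-- A weak alternation of length `m`. -/
def Ch [LinearOrder β] (M : α → β → Prop) (x : ℕ → α) (g : ℕ → β) (m : ℕ) : Prop :=
  (∀ r, r + 1 < m → g r ≤ g (r + 1)) ∧ (∀ r, r + 2 < m → g r < g (r + 2)) ∧
    ∀ r, r < m → M (x r) (g r)

/-- Weak alternations have length at most `A`. -/
def NoAlt [LinearOrder β] (M : α → β → Prop) (A : ℕ) : Prop :=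
  ∀ x g m, Per x → Ch M x g m → m ≤ A

/-- Two symbols share at most one block, and then they hardly alternate. -/
def Sh [LinearOrder β] (M : α → β → Prop) : Prop :=
  (∀ a b p p', a ≠ b → M a p → M b p → M a p' → M b p' → p = p') ∧
    ∀ x g m p, Per x → (∀ r, M (x r) p) → Ch M x g m → m ≤ 5

lemma Per.shift {x : ℕ → α} (h : Per x) (k : ℕ) : Per fun r => x (k + r) := fun r => h (k + r)

lemma Per.eq_mod {x : ℕ → α} (h : Per x) (r : ℕ) : x r = x (r % 2) := by
  induction r using Nat.strong_induction_on with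
  | _ r ih =>
    rcases lt_or_ge r 2 with h1 | h1
    · rw [Nat.mod_eq_of_lt h1]
    · obtain ⟨k, rfl⟩ : ∃ k, r = k + 2 := ⟨r - 2, by omega⟩
      rw [(h k).1, ih k (by omega), Nat.add_mod_right]

lemma Per.two {x : ℕ → α} (h : Per x) (k r : ℕ) : x r = x k ∨ x r = x (k + 1) := by
  rw [h.eq_mod r, h.eq_mod k, h.eq_mod (k + 1)]
  rcases (by omega : r % 2 = k % 2 ∨ r % 2 = (k + 1) % 2) with h1 | h1
  · exact Or.inl (by rw [h1])
  · exact Or.inr (by rw [h1])

lemma Ch.le [LinearOrder β] {M : α → β → Prop} {x : ℕ → α} {g : ℕ → β} {m : ℕ}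
    (h : Ch M x g m) {i j : ℕ} (hij : i ≤ j) (hj : j < m) : g i ≤ g j := by
  induction j, hij using Nat.le_induction with
  | base => exact le_rfl
  | succ j _ ih => exact (ih (by omega)).trans (h.1 j hj)

lemma lex_fst {γ : Type} [LinearOrder β] [LinearOrder γ] {u v : β ×ₗ γ} (h : u ≤ v) :
    (ofLex u).1 ≤ (ofLex v).1 := by
  rcases Prod.Lex.le_iff.1 h with h | h
  · exact h.le
  · exact h.1.le

lemma lex_snd {γ : Type} [LinearOrder β] [LinearOrder γ] {u v : β ×ₗ γ} (h : u ≤ v)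
    (e : (ofLex u).1 = (ofLex v).1) : (ofLex u).2 ≤ (ofLex v).2 := by
  rcases Prod.Lex.le_iff.1 h with h | h
  · exact absurd e h.ne
  · exact h.2

lemma lex_snd_lt {γ : Type} [LinearOrder β] [LinearOrder γ] {u v : β ×ₗ γ} (h : u < v)
    (e : (ofLex u).1 = (ofLex v).1) : (ofLex u).2 < (ofLex v).2 := by
  rcases Prod.Lex.lt_iff.1 h with h | h
  · exact absurd e h.ne
  · exact h.2

variable {γ δ : Type} [LinearOrder β] [LinearOrder γ]

/-- Every block of `f` is replaced by a copy of `f'`. -/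
def comp (f : β → δ → α) (f' : γ → ι → δ) (u : β ×ₗ γ) (r : ι) : α :=
  f (ofLex u).1 (f' (ofLex u).2 r)

theorem comp_noAlt {f : β → δ → α} {f' : γ → ι → δ} {A : ℕ} (hf : ∀ p, Injective (f p))
    (h1 : NoAlt (Mem f) (A + 10)) (h2 : Sh (Mem f)) (h3 : NoAlt (Mem f') A) :
    NoAlt (Mem (comp f f')) (A + 10) := by
  intro x g m hx hg
  have hP : ∀ {i j : ℕ}, i ≤ j → j < m → (ofLex (g i)).1 ≤ (ofLex (g j)).1 :=
    fun hij hj => lex_fst (hg.le hij hj)
  have hM : ∀ r, r < m → Mem f (x r) (ofLex (g r)).1 := fun r hr =>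
    let ⟨s, hs⟩ := hg.2.2 r hr; ⟨_, hs⟩
  have hS : ∀ r, r + 2 < m → (ofLex (g r)).1 = (ofLex (g (r + 2))).1 →
      Mem f (x (r + 1)) (ofLex (g r)).1 := by
    intro r hr e
    have : (ofLex (g (r + 1))).1 = (ofLex (g r)).1 :=
      le_antisymm (e ▸ hP (by omega) hr) (hP (by omega) (by omega))
    exact this ▸ hM (r + 1) (by omega)
  by_cases h : ∃ r, r + 2 < m ∧ (ofLex (g r)).1 = (ofLex (g (r + 2))).1
  swap
  · refine h1 x (fun r => (ofLex (g r)).1) m hx ⟨fun r hr => hP (by omega) hr, fun r hr => ?_, hM⟩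
    exact lt_of_le_of_ne (hP (by omega) hr) fun e => h ⟨r, hr, e⟩
  obtain ⟨k, hk, ek⟩ := h
  set p := (ofLex (g k)).1 with hp
  have hall : ∀ r, Mem f (x r) p := by
    intro r
    rcases hx.two k r with e | e
    · rw [e]; exact hM k (by omega)
    · rw [e]; exact hS k hk ek
  have hout : ∀ l, l + 6 ≤ m → ¬ ∀ r, r < 6 → (ofLex (g (l + r))).1 ≠ p := by
    intro l hl hne
    have := h2.2 (fun r => x (l + r)) (fun r => (ofLex (g (l + r))).1) 6 p (hx.shift l)
      (fun r => hall _) ⟨fun r hr => hP (by omega) (by omega), fun r hr => ?_,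
        fun r hr => hM _ (by omega)⟩
    · omega
    refine lt_of_le_of_ne (hP (by omega) (by omega)) fun e => hne r (by omega) ?_
    exact h2.1 _ _ _ _ (hx (l + r)).2 (hM _ (by omega)) (hS (l + r) (by omega) e)
      (hall _) (hall _)
  by_contra hm
  have h5 : p ≤ (ofLex (g 5)).1 := by
    by_contra hlt
    exact hout 0 (by omega) fun r hr =>
      ((hP (by omega) (by omega)).trans_lt (not_le.1 hlt)).ne
  have h6 : (ofLex (g (m - 6))).1 ≤ p := by
    by_contra hlt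
    exact hout (m - 6) (by omega) fun r hr =>
      ((not_le.1 hlt).trans_le (hP (by omega) (by omega))).ne'
  have hmid : ∀ r, r < m - 10 → (ofLex (g (5 + r))).1 = p := fun r hr =>
    le_antisymm ((hP (by omega) (by omega)).trans h6) (h5.trans (hP (by omega) (by omega)))
  choose y hy using hall
  have hy2 : Per y := fun r =>
    ⟨hf p (by rw [hy, hy, (hx r).1]), fun e => (hx r).2 (by rw [← hy, ← hy, e])⟩
  have := h3 (fun r => y (5 + r)) (fun r => (ofLex (g (5 + r))).2) (m - 10) (hy2.shift 5)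
    ⟨fun r hr => lex_snd (hg.1 (5 + r) (by omega))
        ((hmid r (by omega)).trans (hmid (r + 1) hr).symm),
      fun r hr => lex_snd_lt (hg.2.1 (5 + r) (by omega))
        ((hmid r (by omega)).trans (hmid (r + 2) hr).symm),
      fun r hr => ?_⟩
  · omega
  obtain ⟨s, hs⟩ := hg.2.2 (5 + r) (by omega)
  refine ⟨s, hf p ?_⟩
  rw [hy, ← hs, comp, hmid r hr]

/-- Disjoint copies of `f'`. -/
def cop (β : Type) (f' : γ → ι → δ) (u : β ×ₗ γ) (r : ι) : β × δ :=
  ((ofLex u).1, f' (ofLex u).2 r)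

theorem cop_red {f' : γ → ι → δ} {z : ℕ → β × δ} {g : ℕ → β ×ₗ γ} {m : ℕ} (hz : Per z)
    (hg : Ch (Mem (cop β f')) z g m) (hm : 2 < m) :
    Per (fun r => (z r).2) ∧ Ch (Mem f') (fun r => (z r).2) (fun r => (ofLex (g r)).2) m := by
  have h1 : ∀ r, r < m → (ofLex (g r)).1 = (z r).1 := fun r hr =>
    let ⟨_, hs⟩ := hg.2.2 r hr; congrArg Prod.fst hs
  have h2 : (z 1).1 = (z 0).1 := by
    have a1 := lex_fst (hg.1 0 (by omega))
    have a2 := lex_fst (hg.1 1 (by omega))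
    rw [h1 0 (by omega), h1 (0 + 1) (by omega)] at a1
    rw [h1 1 (by omega), h1 (1 + 1) (by omega)] at a2
    have a3 : z (1 + 1) = z 0 := (hz 0).1
    rw [a3] at a2
    exact le_antisymm a2 a1
  have h3 : ∀ r, (z r).1 = (z 0).1 := by
    intro r
    rcases hz.two 0 r with e | e
    · rw [e]
    · rw [e]; exact h2
  have h4 : ∀ i j, i < m → j < m → (ofLex (g i)).1 = (ofLex (g j)).1 := fun i j hi hj => by
    rw [h1 i hi, h1 j hj, h3 i, h3 j]
  refine ⟨fun r => ⟨congrArg Prod.snd (hz r).1, fun e => (hz r).2 ?_⟩,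
    fun r hr => lex_snd (hg.1 r hr) (h4 _ _ (by omega) hr),
    fun r hr => lex_snd_lt (hg.2.1 r hr) (h4 _ _ (by omega) hr), fun r hr => ?_⟩
  · exact Prod.ext ((h3 r).trans (h3 (r + 1)).symm) e
  · obtain ⟨s, hs⟩ := hg.2.2 r hr
    exact ⟨s, congrArg Prod.snd hs⟩

theorem cop_noAlt {f' : γ → ι → δ} {A : ℕ} (h : NoAlt (Mem f') A) (hA : 2 ≤ A) :
    NoAlt (Mem (cop β f')) A := by
  intro z g m hz hg
  by_contra hm
  obtain ⟨h1, h2⟩ := cop_red hz hg (by omega)
  exact hm (h _ _ _ h1 h2)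

/-- The symbols of a block of `f` are spread over the blocks of a fresh copy of `f'`. -/
def shuf (f : β → γ → α) (f' : γ → ι → δ) (u : β ×ₗ γ) : Option ι → α ⊕ β × δ
  | none => Sum.inl (f (ofLex u).1 (ofLex u).2)
  | some r => Sum.inr (cop β f' u r)

omit [LinearOrder β] [LinearOrder γ] in
lemma shuf_inl {f : β → γ → α} {f' : γ → ι → δ} {u : β ×ₗ γ} {a : α}
    (h : Mem (shuf f f') (Sum.inl a) u) : f (ofLex u).1 (ofLex u).2 = a := by
  obtain ⟨_ | r, hr⟩ := h
  · exact Sum.inl.inj hr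
  · exact absurd hr Sum.inr_ne_inl

omit [LinearOrder β] [LinearOrder γ] in
lemma shuf_inr {f : β → γ → α} {f' : γ → ι → δ} {u : β ×ₗ γ} {c : β × δ}
    (h : Mem (shuf f f') (Sum.inr c) u) : Mem (cop β f') c u := by
  obtain ⟨_ | r, hr⟩ := h
  · exact absurd hr Sum.inl_ne_inr
  · exact ⟨r, Sum.inr.inj hr⟩

omit [LinearOrder β] [LinearOrder γ] in
lemma cop_fst {f' : γ → ι → δ} {u : β ×ₗ γ} {c : β × δ} (h : Mem (cop β f') c u) :
    (ofLex u).1 = c.1 ∧ Mem f' c.2 (ofLex u).2 :=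
  let ⟨r, hr⟩ := h; ⟨congrArg Prod.fst hr, r, congrArg Prod.snd hr⟩

omit [LinearOrder β] [LinearOrder γ] in
lemma lex_ext {u v : β ×ₗ γ} (h1 : (ofLex u).1 = (ofLex v).1) (h2 : (ofLex u).2 = (ofLex v).2) :
    u = v := ofLex.injective (Prod.ext h1 h2)

omit [LinearOrder β] [LinearOrder γ] in
lemma shuf_inj (f : β → γ → α) {f' : γ → ι → δ} (hf' : ∀ q, Injective (f' q)) (u : β ×ₗ γ) :
    Injective (shuf f f' u) := by
  rintro (_ | r) (_ | r') h
  · rfl
  · exact absurd h Sum.inl_ne_inr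
  · exact absurd h Sum.inr_ne_inl
  · exact congrArg some (hf' _ (congrArg Prod.snd (Sum.inr.inj h)))

theorem shuf_mixed {f : β → γ → α} {f' : γ → ι → δ} (hf : ∀ p, Injective (f p))
    {x : ℕ → α ⊕ β × δ} {g : ℕ → β ×ₗ γ} {m k : ℕ} (hx : Per x)
    (hg : Ch (Mem (shuf f f')) x g m) (hk : k ≤ 1) {a : α} {c : β × δ} (h1 : x k = Sum.inr c)
    (h2 : x (k + 1) = Sum.inl a) : m ≤ 5 := by
  by_contra hm
  have e0 : (ofLex (g k)).1 = c.1 := (cop_fst (shuf_inr (h1 ▸ hg.2.2 k (by omega)))).1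
  have x4 : x (k + 4) = Sum.inr c := ((hx (k + 2)).1.trans (hx k).1).trans h1
  have x3 : x (k + 3) = Sum.inl a := (hx (k + 1)).1.trans h2
  have e4 : (ofLex (g (k + 4))).1 = c.1 := (cop_fst (shuf_inr (x4 ▸ hg.2.2 (k + 4) (by omega)))).1
  have e : ∀ j, k ≤ j → j ≤ k + 4 → (ofLex (g j)).1 = c.1 := fun j j1 j2 =>
    le_antisymm (e4 ▸ lex_fst (hg.le j2 (by omega))) (e0 ▸ lex_fst (hg.le j1 (by omega)))
  have a1 := shuf_inl (h2 ▸ hg.2.2 (k + 1) (by omega))
  have a3 := shuf_inl (x3 ▸ hg.2.2 (k + 3) (by omega))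
  rw [e (k + 1) (by omega) (by omega)] at a1
  rw [e (k + 3) (by omega) (by omega)] at a3
  refine (hg.2.1 (k + 1) (by omega)).ne (lex_ext ?_ (hf c.1 (a1.trans a3.symm)))
  exact (e (k + 1) (by omega) (by omega)).trans (e (k + 3) (by omega) (by omega)).symm

theorem shuf_cases {f : β → γ → α} {f' : γ → ι → δ} (hf : ∀ p, Injective (f p))
    {x : ℕ → α ⊕ β × δ} {g : ℕ → β ×ₗ γ} {m : ℕ} (hx : Per x)
    (hg : Ch (Mem (shuf f f')) x g m) (hm : 5 < m) :
    (∃ y : ℕ → α, ∀ r, x r = Sum.inl (y r)) ∨ ∃ z : ℕ → β × δ, ∀ r, x r = Sum.inr (z r) := by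
  rcases h0 : x 0 with a | c <;> rcases h1 : x (0 + 1) with a' | c'
  · refine Or.inl (Classical.axiomOfChoice (r := fun r y => x r = Sum.inl y) fun r => ?_)
    rcases hx.two 0 r with e | e
    exacts [⟨a, e.trans h0⟩, ⟨a', e.trans h1⟩]
  · have := shuf_mixed hf hx hg (k := 1) le_rfl h1 ((hx 0).1.trans h0)
    omega
  · have := shuf_mixed hf hx hg (k := 0) (by omega) h0 h1
    omega
  · refine Or.inr (Classical.axiomOfChoice (r := fun r z => x r = Sum.inr z) fun r => ?_)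
    rcases hx.two 0 r with e | e
    exacts [⟨c, e.trans h0⟩, ⟨c', e.trans h1⟩]

lemma Per.of_inj {σ : Type} {j : σ → α} (hj : Injective j) {x : ℕ → α} {y : ℕ → σ} (hx : Per x)
    (h : ∀ r, x r = j (y r)) : Per y := fun r =>
  ⟨hj (by rw [← h, ← h, (hx r).1]), fun e => (hx r).2 (by rw [h, h, e])⟩

theorem shuf_noAlt {f : β → γ → α} {f' : γ → ι → δ} {A : ℕ} (hf : ∀ p, Injective (f p))
    (h1 : NoAlt (Mem f) A) (h2 : NoAlt (Mem f') A) (hA : 5 ≤ A) :
    NoAlt (Mem (shuf f f')) A := by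
  intro x g m hx hg
  by_contra hm
  rcases shuf_cases hf hx hg (by omega) with ⟨y, hy⟩ | ⟨z, hz⟩
  · have hy2 := hx.of_inj Sum.inl_injective hy
    have a : ∀ r, r < m → f (ofLex (g r)).1 (ofLex (g r)).2 = y r := fun r hr =>
      shuf_inl (hy r ▸ hg.2.2 r hr)
    refine hm (h1 y (fun r => (ofLex (g r)).1) m hy2
      ⟨fun r hr => lex_fst (hg.1 r hr), fun r hr => ?_, fun r hr => ⟨_, a r hr⟩⟩)
    refine lt_of_le_of_ne (lex_fst (hg.2.1 r hr).le) fun e => (hg.2.1 r hr).ne (lex_ext e ?_)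
    refine hf (ofLex (g r)).1 ?_
    have e' : (ofLex (g r)).1 = (ofLex (g (r + 2))).1 := e
    rw [a r (by omega), e', a (r + 2) hr, (hy2 r).1]
  · exact hm (cop_noAlt (β := β) h2 (by omega) z g m (hx.of_inj Sum.inr_injective hz)
      ⟨hg.1, hg.2.1, fun r hr => shuf_inr (hz r ▸ hg.2.2 r hr)⟩)

theorem shuf_sh {f : β → γ → α} {f' : γ → ι → δ} (hf : ∀ p, Injective (f p))
    (h : Sh (Mem f')) : Sh (Mem (shuf f f')) := by
  have key : ∀ (a : α) (c : β × δ) (u v : β ×ₗ γ), Mem (shuf f f') (Sum.inl a) u →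
      Mem (shuf f f') (Sum.inr c) u → Mem (shuf f f') (Sum.inl a) v →
      Mem (shuf f f') (Sum.inr c) v → u = v := by
    intro a c u v a1 c1 a2 c2
    have e := (cop_fst (shuf_inr c1)).1.trans (cop_fst (shuf_inr c2)).1.symm
    refine lex_ext e (hf (ofLex u).1 ?_)
    rw [shuf_inl a1, e, shuf_inl a2]
  constructor
  · rintro (a | c) (a' | c') u v hne m1 m2 m3 m4
    · exact absurd (congrArg Sum.inl ((shuf_inl m1).symm.trans (shuf_inl m2))) hne
    · exact key _ _ _ _ m1 m2 m3 m4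
    · exact key _ _ _ _ m2 m1 m4 m3
    · obtain ⟨e1, b1⟩ := cop_fst (shuf_inr m1)
      obtain ⟨e2, b2⟩ := cop_fst (shuf_inr m2)
      obtain ⟨e3, b3⟩ := cop_fst (shuf_inr m3)
      obtain ⟨-, b4⟩ := cop_fst (shuf_inr m4)
      refine lex_ext (e1.trans e3.symm) (h.1 _ _ _ _ (fun e => hne ?_) b1 b2 b3 b4)
      exact congrArg Sum.inr (Prod.ext (e1.symm.trans e2) e)
  · intro x g m u hx hu hg
    by_contra hm
    rcases shuf_cases hf hx hg (by omega) with ⟨y, hy⟩ | ⟨z, hz⟩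
    · refine (hx 0).2 ?_
      have a : ∀ r, f (ofLex u).1 (ofLex u).2 = y r := fun r => shuf_inl (f' := f') (hy r ▸ hu r)
      rw [hy 0, hy (0 + 1), ← a 0, ← a (0 + 1)]
    · obtain ⟨h1, h2⟩ := cop_red (f' := f') (hx.of_inj Sum.inr_injective hz)
        ⟨hg.1, hg.2.1, fun r hr => shuf_inr (hz r ▸ hg.2.2 r hr)⟩ (by omega)
      exact hm (h.2 _ _ _ (ofLex u).2 h1 (fun r => (cop_fst (shuf_inr (hz r ▸ hu r))).2) h2)

end Blocks

/-- A blocked sequence of level `t` and depth `i` with blocks indexed by `ι`. -/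
def Good (t i : ℕ) (ι : Type) [Fintype ι] : Prop :=
  ∃ (β α : Type) (_ : LinearOrder β) (_ : Fintype β) (_ : Fintype α) (f : β → ι → α),
    (∀ p, Injective (f p)) ∧ NoAlt (Mem f) (10 * t + 4) ∧ (1 ≤ t → Sh (Mem f)) ∧
      1 ≤ Fintype.card β ∧ Fintype.card β ≤ ack (9 * (t + i) + 1) (Fintype.card ι) ∧
      2 ^ (i + t - 1).choose t * Fintype.card α = Fintype.card ι * Fintype.card β

lemma Good.equiv {t i : ℕ} {ι ι' : Type} [Fintype ι] [Fintype ι'] (h : Good t i ι)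
    (e : ι' ≃ ι) : Good t i ι' := by
  obtain ⟨β, α, _, _, _, f, h1, h2⟩ := h
  have hm : Mem (fun p r => f p (e r)) = Mem f := by
    funext a p
    exact propext ⟨fun ⟨r, hr⟩ => ⟨e r, hr⟩, fun ⟨r, hr⟩ => ⟨e.symm r, by simpa using hr⟩⟩
  refine ⟨β, α, inferInstance, inferInstance, inferInstance, fun p r => f p (e r), fun p => (h1 p).comp e.injective, ?_⟩
  rw [hm, Fintype.card_congr e]
  exact h2

lemma unit_ch {α : Type} {M : α → Unit → Prop} {x : ℕ → α} {g : ℕ → Unit} {m : ℕ}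
    (h : Ch M x g m) : m ≤ 2 := by
  by_contra hm
  exact (h.2.1 0 (by omega)).ne (Subsingleton.elim _ _)

lemma ack_step {g j b bM nM bT : ℕ} (h1 : b ≤ ack (g + 9) j) (h2 : bM ≤ ack g b)
    (h3 : nM ≤ b * bM) (h4 : bT ≤ ack g nM) : bT * bM * b ≤ ack (g + 9) (j + 1) := by
  have a1 : b * bM ≤ ack (g + 3) b := by
    refine le_trans ?_ (ack_add_one_sq_lt_ack_add_three g b)
    rw [sq]
    exact Nat.mul_le_mul (by have := lt_ack_right g b; omega) (by omega)
  have a2 : bT ≤ ack (g + 5) b := by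
    have := ack_ack_lt_ack_max_add_two g (g + 3) b
    rw [max_eq_right (by omega)] at this
    exact (h4.trans (ack_mono_right g (h3.trans a1))).trans this.le
  have a3 : b * bM ≤ ack (g + 5) b := a1.trans (ack_le_ack (by omega) le_rfl)
  calc bT * bM * b = bT * (b * bM) := by ring
    _ ≤ (ack (g + 5) b + 1) ^ 2 := by rw [sq]; exact Nat.mul_le_mul (by omega) (by omega)
    _ ≤ ack (g + 8) b := ack_add_one_sq_lt_ack_add_three (g + 5) b
    _ ≤ ack (g + 8) (ack (g + 9) j) := ack_mono_right _ h1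
    _ = _ := (ack_succ_succ (g + 8) j).symm

theorem good (t : ℕ) : ∀ (i : ℕ) (ι : Type) [Fintype ι], Good t i ι := by
  induction t with
  | zero =>
    intro i ι _
    refine ⟨Fin 2, ι, inferInstance, inferInstance, inferInstance,
      fun _ r => r, fun _ => injective_id, fun x g m _ h => ?_,
      fun h => absurd h (by omega), by simp, ?_, by simp [mul_comm]⟩
    · by_contra hm
      have a1 : (g 0).val < (g 2).val := h.2.1 0 (by omega)
      have a2 : (g 2).val < (g 4).val := h.2.1 2 (by omega)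
      have := (g 4).2
      omega
    · rw [Fintype.card_fin]
      exact le_trans (by rw [ack_one]; omega) (ack_le_ack (m₁ := 1) (by omega) le_rfl)
  | succ t iht =>
    intro i
    induction i with
    | zero =>
      intro ι _
      refine ⟨Unit, ι, inferInstance, inferInstance, inferInstance,
        fun _ r => r, fun _ => injective_id,
        fun x g m _ h => (unit_ch h).trans (by omega),
        fun _ => ⟨fun _ _ _ _ _ _ _ _ _ => rfl, fun x g m _ _ _ h => (unit_ch h).trans (by omega)⟩,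
        by simp, ?_, by simp⟩
      rw [Fintype.card_unit]
      exact ack_pos _ _
    | succ i ihi =>
      suffices h : ∀ j, Good (t + 1) (i + 1) (Fin j) from
        fun ι _ => (h _).equiv (Fintype.equivFin ι)
      intro j
      induction j with
      | zero =>
        refine ⟨Unit, Empty, inferInstance, inferInstance, inferInstance,
          fun _ r => r.elim0, fun _ r => r.elim0,
          fun x => (x 0).elim, fun _ => ⟨fun a => a.elim, fun x => (x 0).elim⟩,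
          by simp, ?_, by simp⟩
        rw [Fintype.card_unit]
        exact ack_pos _ _
      | succ j ihj =>
        obtain ⟨βB, αB, _, _, _, fB, b1, b2, b3, b4, b5, b6⟩ := ihj
        obtain ⟨βM, αM, _, _, _, fM, m1, m2, -, m4, m5, m6⟩ := iht (i + 1) βB
        obtain ⟨βT, αT, _, _, _, fT, t1, t2, t3, t4, t5, t6⟩ := ihi αM
        have e1 : 10 * (t + 1) + 4 = 10 * t + 4 + 10 := by ring
        have hc : ∀ u, Injective (comp fT fM u) := fun u => (t1 _).comp (m1 _)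
        have cβ : Fintype.card ((βT ×ₗ βM) ×ₗ βB) =
            Fintype.card βT * Fintype.card βM * Fintype.card βB := by
          simp [Fintype.card_lex]
        have cα : Fintype.card (αT ⊕ (βT ×ₗ βM) × αB) =
            Fintype.card αT + Fintype.card βT * Fintype.card βM * Fintype.card αB := by
          simp [Fintype.card_lex]
        rw [Fintype.card_fin] at b5 b6
        refine Good.equiv (ι := Option (Fin j)) ?_ (finSuccEquiv j)
        refine ⟨(βT ×ₗ βM) ×ₗ βB, αT ⊕ (βT ×ₗ βM) × αB, inferInstance, inferInstance,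
          inferInstance, shuf (comp fT fM) fB,
          shuf_inj _ b1, shuf_noAlt hc ?_ b2 (by omega), fun h => shuf_sh hc (b3 h), ?_, ?_, ?_⟩
        · rw [e1] at t2 ⊢
          exact comp_noAlt t1 t2 (t3 (by omega)) m2
        · rw [cβ]
          exact Nat.mul_pos (Nat.mul_pos t4 m4) b4
        · rw [cβ, Fintype.card_option, Fintype.card_fin]
          have g1 : 9 * (t + 1 + (i + 1)) + 1 = 9 * (t + (i + 1)) + 1 + 9 := by ring
          have g2 : 9 * (t + 1 + i) + 1 = 9 * (t + (i + 1)) + 1 := by ring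
          rw [g1] at b5 ⊢
          rw [g2] at t5
          refine ack_step b5 m5 ?_ t5
          rw [← m6]
          exact Nat.le_mul_of_pos_left _ (by positivity)
        · rw [cβ, cα, Fintype.card_option, Fintype.card_fin]
          have g1 : i + 1 + (t + 1) - 1 = i + t + 1 := by omega
          have g2 : i + 1 + t - 1 = i + t := by omega
          have g3 : i + (t + 1) - 1 = i + t := by omega
          rw [g1, Nat.choose_succ_succ', pow_add] at b6 ⊢
          rw [g2] at m6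
          rw [g3] at t6
          calc _ = 2 ^ (i + t).choose t * (2 ^ (i + t).choose (t + 1) * Fintype.card αT) +
                Fintype.card βT * Fintype.card βM *
                  (2 ^ (i + t).choose t * 2 ^ (i + t).choose (t + 1) * Fintype.card αB) := by ring
            _ = _ := by rw [t6, b6, ← mul_assoc, m6]; ring

/-- One symbol from every block, different from the previous one. -/
theorem card_le_lam {β α : Type} [LinearOrder β] [Fintype β] [Fintype α] {f : β → Fin 2 → α}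
    (hf : ∀ p, Injective (f p)) {s n : ℕ} (h : NoAlt (Mem f) (s + 1)) (hβ : 1 ≤ Fintype.card β)
    (hn : Fintype.card α ≤ n) : Fintype.card β ≤ lam s n := by
  classical
  obtain ⟨j⟩ : Nonempty (α ↪ Fin n) :=
    Function.Embedding.nonempty_of_card_le (by rwa [Fintype.card_fin])
  let e := monoEquivOfFin β rfl
  let G : ℕ → β := fun k => if hk : k < Fintype.card β then e ⟨k, hk⟩ else e ⟨0, hβ⟩
  have hG : ∀ k k', k < k' → k' < Fintype.card β → G k < G k' := by
    intro k k' h1 h2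
    simp only [G, dif_pos h2, dif_pos (h1.trans h2)]
    exact e.strictMono h1
  obtain ⟨c, c0, c1⟩ : ∃ c : ℕ → α, c 0 = f (G 0) 0 ∧ ∀ k,
      (f (G (k + 1)) 0 = c k ∧ c (k + 1) = f (G (k + 1)) 1) ∨
        (f (G (k + 1)) 0 ≠ c k ∧ c (k + 1) = f (G (k + 1)) 0) := by
    refine ⟨fun k => Nat.rec (f (G 0) 0)
      (fun k a => if f (G (k + 1)) 0 = a then f (G (k + 1)) 1 else f (G (k + 1)) 0) k, rfl,
      fun k => ?_⟩
    exact (em _).imp (fun h => ⟨h, if_pos h⟩) fun h => ⟨h, if_neg h⟩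
  have c2 : ∀ k, Mem f (c k) (G k) := by
    rintro (_ | k)
    · exact ⟨0, c0.symm⟩
    · rcases c1 k with h1 | h1
      exacts [⟨1, h1.2.symm⟩, ⟨0, h1.2.symm⟩]
  have c3 : ∀ k, c k ≠ c (k + 1) := by
    intro k
    rcases c1 k with h1 | h1
    · rw [h1.2, ← h1.1]
      exact fun e => absurd (hf _ e) (by decide)
    · rw [h1.2]
      exact h1.1.symm
  have hL : IsDS n s ((List.range (Fintype.card β)).map fun k => j (c k)) := by
    constructor
    · rw [List.isChain_iff_getElem]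
      intro k hk
      simp only [List.getElem_map, List.getElem_range]
      exact fun e => c3 k (j.injective e)
    · intro a b hab hs
      rw [altList_eq] at hs
      obtain ⟨F, hF⟩ := List.sublist_iff_exists_orderEmbedding_getElem?_eq.1 hs
      have hF2 : ∀ r, r < s + 2 →
          F r < Fintype.card β ∧ j (c (F r)) = if Even r then a else b := by
        intro r hr
        have h1 := hF r
        rw [altList, List.getElem?_map, List.getElem?_range hr, List.getElem?_map] at h1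
        have h2 : F r < Fintype.card β := by
          by_contra h2
          rw [List.getElem?_eq_none (by simpa using h2)] at h1
          simp at h1
        rw [List.getElem?_range h2] at h1
        exact ⟨h2, (Option.some.inj h1).symm⟩
      have ha : j (c (F 0)) = a := by simpa using (hF2 0 (by omega)).2
      have hb : j (c (F 1)) = b := by simpa using (hF2 1 (by omega)).2
      have hx : Per fun r : ℕ => if Even r then a else b := by
        intro r
        have e2 : Even (r + 2) ↔ Even r := by simp [Nat.even_add]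
        by_cases hr : Even r <;> simp [e2, Nat.even_add_one, hr, hab, hab.symm]
      have hy : ∀ r : ℕ, (if Even r then a else b) = j (if Even r then c (F 0) else c (F 1)) := by
        intro r
        split_ifs
        exacts [ha.symm, hb.symm]
      have := h _ (fun r => G (F r)) (s + 2) (hx.of_inj j.injective hy)
        ⟨fun r hr => (hG _ _ (F.strictMono (by omega)) (hF2 _ hr).1).le,
          fun r hr => hG _ _ (F.strictMono (by omega)) (hF2 _ hr).1, fun r hr => ?_⟩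
      · omega
      have h1 := j.injective ((hF2 r hr).2.trans (hy r))
      show Mem f (if Even r then c (F 0) else c (F 1)) (G (F r))
      rw [← h1]
      exact c2 _
  simpa using le_lam hL

theorem one_le_lam (s : ℕ) {n : ℕ} (hn : 1 ≤ n) : 1 ≤ lam s n := by
  have : IsDS n s [(⟨0, hn⟩ : Fin n)] := by
    refine ⟨List.isChain_singleton _, fun a b _ h => ?_⟩
    have := h.length_le
    simp at this
  exact le_lam this

/-- For every `c` some order `s` has `λ_s(n) ≥ n 2 ^ ((α(n) + 2) ^ c) / C`. -/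
theorem lower (c : ℕ) : ∃ s C : ℕ, ∀ n : ℕ,
    n * 2 ^ ((sInf {k | n ≤ ack k k} + 2) ^ c) ≤ C * lam s n := by
  obtain ⟨D, hD⟩ : ∃ D, D = (c + 1).factorial * 20 ^ c := ⟨_, rfl⟩
  obtain ⟨a0, ha0⟩ : ∃ a0, a0 = 20 * D + 20 * c + 80 := ⟨_, rfl⟩
  refine ⟨10 * (c + 1) + 3, ack a0 a0 * 2 ^ ((a0 + 2) ^ c) + 4, fun n => ?_⟩
  have hmem : n ≤ ack (sInf {k | n ≤ ack k k}) (sInf {k | n ≤ ack k k}) :=
    Nat.sInf_mem (s := {k | n ≤ ack k k}) ⟨n, (lt_ack_left n n).le⟩
  have hlt : ∀ k, k < sInf {k | n ≤ ack k k} → ack k k < n := fun k hk =>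
    not_le.1 (Nat.notMem_of_lt_sInf (s := {k | n ≤ ack k k}) hk)
  generalize sInf {k | n ≤ ack k k} = a at hmem hlt
  rcases le_or_gt a a0 with h | h
  · rcases Nat.eq_zero_or_pos n with rfl | hn
    · simp
    calc n * 2 ^ ((a + 2) ^ c) ≤ ack a0 a0 * 2 ^ ((a0 + 2) ^ c) :=
          Nat.mul_le_mul (hmem.trans (ack_le_ack h h)) (by gcongr; norm_num)
      _ ≤ (ack a0 a0 * 2 ^ ((a0 + 2) ^ c) + 4) * 1 := by omega
      _ ≤ _ := Nat.mul_le_mul_left _ (one_le_lam _ hn)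
  obtain ⟨i, hi⟩ : ∃ i, i = (a - 14 - 9 * c) / 9 := ⟨_, rfl⟩
  obtain ⟨β, α, _, _, _, f, h1, h2, -, h4, h5, h6⟩ := good (c + 1) i (Fin 2)
  rw [Fintype.card_fin] at h5 h6
  have g1 : i + (c + 1) - 1 = i + c := by omega
  rw [g1] at h6
  have hμ : (a + 2) ^ c ≤ (i + c).choose (c + 1) := by
    have k1 := Nat.pow_sub_le_descFactorial (i + c) (c + 1)
    rw [Nat.descFactorial_eq_factorial_mul_choose, show i + c + 1 - (c + 1) = i by omega] at k1
    refine Nat.le_of_mul_le_mul_left (le_trans ?_ k1) (Nat.factorial_pos (c + 1))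
    calc (c + 1).factorial * (a + 2) ^ c ≤ (c + 1).factorial * (20 * i) ^ c :=
          Nat.mul_le_mul_left _ (Nat.pow_le_pow_left (by omega) _)
      _ = i ^ c * D := by rw [hD, mul_pow]; ring
      _ ≤ i ^ c * i := Nat.mul_le_mul_left _ (by omega)
      _ = _ := (pow_succ _ _).symm
  have hN1 : 1 ≤ Fintype.card α := by
    by_contra h0
    rw [show Fintype.card α = 0 by omega] at h6
    omega
  have hN2 : Fintype.card α ≤ n := by
    have k1 : Fintype.card α ≤ 2 * Fintype.card β := by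
      rw [← h6]
      exact Nat.le_mul_of_pos_left _ (by positivity)
    have k2 := ack_add_one_sq_lt_ack_add_three (9 * (c + 1 + i) + 1) 2
    have k3 : ack (9 * (c + 1 + i) + 1 + 3) 2 ≤ ack (a - 1) (a - 1) :=
      ack_le_ack (by omega) (by omega)
    have k4 := hlt (a - 1) (by omega)
    nlinarith
  have hk : 1 ≤ n / Fintype.card α := (Nat.one_le_div_iff hN1).2 hN2
  have cβ : Fintype.card (Fin (n / Fintype.card α) ×ₗ β) = n / Fintype.card α * Fintype.card β := by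
    simp [Fintype.card_lex]
  have key := card_le_lam (f := cop (Fin (n / Fintype.card α)) f) (s := 10 * (c + 1) + 3) (n := n)
    (fun u r r' e => h1 _ (congrArg Prod.snd e)) (cop_noAlt h2 (by omega))
    (by rw [cβ]; exact Nat.mul_pos hk h4)
    (by rw [Fintype.card_prod, Fintype.card_fin]; exact Nat.div_mul_le_self _ _)
  rw [cβ] at key
  have hn2 : n ≤ 2 * (n / Fintype.card α) * Fintype.card α := by
    have := Nat.lt_div_mul_add (a := n) hN1
    nlinarith
  calc n * 2 ^ ((a + 2) ^ c)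
      ≤ 2 * (n / Fintype.card α) * Fintype.card α * 2 ^ (i + c).choose (c + 1) :=
        Nat.mul_le_mul hn2 (Nat.pow_le_pow_right (by norm_num) hμ)
    _ = 2 * (n / Fintype.card α) * (2 ^ (i + c).choose (c + 1) * Fintype.card α) := by ring
    _ = 4 * (n / Fintype.card α * Fintype.card β) := by rw [h6]; ring
    _ ≤ _ := Nat.mul_le_mul (Nat.le_add_left _ _) key

end La

theorem lam_lower (c : ℕ) : ∃ s K : ℕ, ∀ n, 1 ≤ n → n * 2 ^ ((invAck n + 2) ^ c) ≤ K * lam s n := by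
  obtain ⟨s, K, h⟩ := La.lower c
  exact ⟨s, K, fun n _ => h n⟩

end CurK
end

-- merged part: Pool.Agent.Work.MP_8a5de9_co_K.GDefs
section
/-! Geometric notions used in the proof (paper section 2). -/

namespace CurK

open MvPolynomial

variable {d : ℕ} {ι μ K : Type}

instance : CoeFun (Arr d ι μ) fun _ => ι → Option μ → MvPolynomial (Fin d) ℝ := ⟨Arr.poly⟩

/-- The height: squared distance from `z0`. -/
def rho (z0 z : Fin d → ℝ) : ℝ := ∑ j, (z j - z0 j) ^ 2

/-- Critical points of the height on the common zero set of the `h k`, `k ∈ Γ`. -/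
def Crit (h : K → MvPolynomial (Fin d) ℝ) (z0 : Fin d → ℝ) (Γ : Finset K) : Set (Fin d → ℝ) :=
  {z | (∀ k ∈ Γ, eval z (h k) = 0) ∧ (LinearIndependent ℝ fun k : Γ => grad (h k) z) ∧
    z - z0 ∈ Submodule.span ℝ (Set.range fun k : Γ => grad (h k) z)}

variable (g : Arr d ι μ)

/-- All constraints, as one family. -/
def cons : ι × Option μ → MvPolynomial (Fin d) ℝ := fun j => g j.1 j.2

/-- All critical sets have at most `β` points. -/
def Centre (z0 : Fin d → ℝ) (β : ℕ) : Prop :=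
  ∀ Γ, (Crit (cons g) z0 Γ).Finite ∧ (Crit (cons g) z0 Γ).ncard ≤ β

open Classical in
/-- The patches through `z`. -/
noncomputable def On [Fintype ι] (z : Fin d → ℝ) : Finset ι := Finset.univ.filter (z ∈ patch g ·)

/-- The cell of the subfamily `R`. -/
def cellR (R : Finset ι) (p : Fin d → ℝ) : Set (Fin d → ℝ) :=
  connectedComponentIn (⋃ i ∈ R, patch g i)ᶜ p

/-- The open orthant: `g i > 0` for `i ∈ σ`, `g i < 0` for the other `i ∈ D`. -/
def orth (D σ : Finset ι) : Set (Fin d → ℝ) :=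
  {y | ∀ i ∈ D, (i ∈ σ → 0 < eval y (g i none)) ∧ (i ∉ σ → eval y (g i none) < 0)}

/-- `z` is seen from the cell of `R` on the side `σ` of the surfaces `D`. -/
def GVis (p : Fin d → ℝ) (R D σ : Finset ι) (z : Fin d → ℝ) : Prop :=
  z ∈ closure (cellR g R p ∩ orth g D σ)

/-- The relative interior of the intersection of the patches `γ`. -/
def Rel (γ : Finset ι) : Set (Fin d → ℝ) :=
  {z | ∀ i ∈ γ, z ∈ patch g i ∧ ∀ l, eval z (g i (some l)) ≠ 0}

/-- The same without critical points of the height. -/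
def Reg (z0 : Fin d → ℝ) (γ : Finset ι) : Set (Fin d → ℝ) :=
  {z | z ∈ Rel g γ ∧ z - z0 ∉ Submodule.span ℝ (Set.range fun i : γ => grad (g i none) z)}

/-- The height and the coordinate `j` are local coordinates on the surface of `F` at `z`. -/
def Coord (z0 : Fin d → ℝ) (F : Finset ι) (j : Fin d) (z : Fin d → ℝ) : Prop :=
  LinearIndependent ℝ (fun o : F ⊕ Bool =>
    Sum.elim (fun i : F => grad (g i none) z) (fun b => cond b (z - z0) (Pi.single j 1)) o)

/-- The number of regular points of the fibre that come before `z`. -/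
noncomputable def rk (z0 : Fin d → ℝ) (F : Finset ι) (j : Fin d) (z : Fin d → ℝ) : ℕ :=
  {y | (∀ i ∈ F, eval y (g i none) = 0) ∧ rho z0 y = rho z0 z ∧ y j = z j ∧ Coord g z0 F j y ∧
    toLex y < toLex z}.ncard

/-- The pieces of the curve of `γ`: sections `s p` of the height over the intervals `dom p`, with
a coordinate `co p F` and a rank `r p F` for every surface. -/
structure Pieces (z0 : Fin d → ℝ) (γ : Finset ι) (β : ℕ) (dom : Fin β → Set ℝ)
    (s : Fin β → ℝ → Fin d → ℝ) (Cut : Finset (Fin d → ℝ)) : Prop where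
  isOpen : ∀ p, IsOpen (dom p)
  ord : ∀ p, (dom p).OrdConnected
  cont : ∀ p, ContinuousOn (s p) (dom p)
  rho_eq : ∀ p, ∀ t ∈ dom p, rho z0 (s p t) = t
  mem : ∀ p, ∀ t ∈ dom p, s p t ∈ Reg g z0 γ
  disj : ∀ p q, ∀ t ∈ dom p, t ∈ dom q → s p t = s q t → p = q
  card : Cut.card ≤ β
  cover : ∀ z ∈ Reg g z0 γ, z ∈ Cut ∨ ∃ p, rho z0 z ∈ dom p ∧ s p (rho z0 z) = z
  coord : ∀ p F j, F ⊆ γ → F.card + 1 = γ.card → ∀ t ∈ dom p, ∀ t' ∈ dom p,
    (Coord g z0 F j (s p t) ↔ Coord g z0 F j (s p t')) ∧ rk g z0 F j (s p t) = rk g z0 F j (s p t')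

/-- Visible orthants at vertices. -/
def GV [Fintype ι] (p : Fin d → ℝ) : Set ((Fin d → ℝ) × Finset ι) :=
  {x | (On g x.1).card = d ∧ x.2 ⊆ On g x.1 ∧ GVis g p Finset.univ (On g x.1) x.2 x.1}

/-- `lam` are the multipliers of the height at the vertex `z`. -/
def Mult [Fintype ι] (z0 z : Fin d → ℝ) (lam : ι → ℝ) : Prop :=
  (On g z).card = d ∧ z - z0 = ∑ i ∈ On g z, lam i • grad (g i none) z

end CurK
end

-- merged part: Pool.Agent.Work.MP_8a5de9_co_K.Chart
section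
/-! Charts (paper 2.2, 2.3). -/

namespace CurK

open MvPolynomial Topology

variable {d : ℕ} {K : Type} [Fintype K]

theorem hasFDerivAt_eval (p : MvPolynomial (Fin d) ℝ) (x : Fin d → ℝ) :
    HasStrictFDerivAt (fun y => eval y p)
      (∑ j, grad p x j • ContinuousLinearMap.proj (R := ℝ) (φ := fun _ : Fin d => ℝ) j) x := by
  induction p using MvPolynomial.induction_on with
  | C a => simpa [grad] using hasStrictFDerivAt_const a x
  | add p q hp hq =>
    simpa only [grad, map_add, add_smul, Finset.sum_add_distrib] using hp.fun_add hq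
  | mul_X p i hp =>
    have h := hp.fun_mul (hasStrictFDerivAt_apply (𝕜 := ℝ) i x)
    simp only [map_mul, eval_X]
    refine h.congr_fderiv ?_
    ext v
    simp [grad, pderiv_X, Pi.single_apply, add_mul, Finset.sum_add_distrib, Finset.mul_sum,
      apply_ite (eval x), mul_assoc]

/-- The height as a polynomial. -/
theorem exists_rho (z0 : Fin d → ℝ) : ∃ p : MvPolynomial (Fin d) ℝ, p.totalDegree ≤ 2 ∧
    (∀ y, eval y p = rho z0 y) ∧ ∀ y, grad p y = (2 : ℝ) • (y - z0) := by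
  refine ⟨∑ j, (X j - C (z0 j)) ^ 2, totalDegree_finsetSum_le fun j _ => ?_, fun y => by simp [rho],
    fun y => funext fun i => ?_⟩
  · refine (totalDegree_pow _ _).trans ?_
    have := totalDegree_sub_C_le (X j : MvPolynomial (Fin d) ℝ) (z0 j)
    rw [totalDegree_X] at this
    omega
  · simp [grad, pderiv_X, Pi.single_apply]

/-- The derivative of the family `f`. -/
noncomputable def ch_L (f : K → MvPolynomial (Fin d) ℝ) (z : Fin d → ℝ) :
    (Fin d → ℝ) →L[ℝ] K → ℝ :=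
  ContinuousLinearMap.pi fun k =>
    ∑ j, grad (f k) z j • ContinuousLinearMap.proj (R := ℝ) (φ := fun _ : Fin d => ℝ) j

theorem ch_ker (f : K → MvPolynomial (Fin d) ℝ) (z : Fin d → ℝ)
    (h : LinearIndependent ℝ fun k => grad (f k) z) :
    Fintype.card K + Module.finrank ℝ (ch_L f z).toLinearMap.ker = d := by
  have e : (ch_L f z).toLinearMap = (Matrix.of fun k => grad (f k) z).mulVecLin := by
    refine LinearMap.ext fun v => funext fun k => ?_
    simp [ch_L, Matrix.mulVec, dotProduct]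
  have h1 := LinearIndependent.rank_matrix (M := Matrix.of fun k => grad (f k) z) h
  have h2 := LinearMap.finrank_range_add_finrank_ker (Matrix.of fun k => grad (f k) z).mulVecLin
  rw [Module.finrank_fin_fun] at h2
  rw [e, ← h1]
  exact h2

theorem ch_smooth (p : MvPolynomial (Fin d) ℝ) : ContDiff ℝ 1 fun y : Fin d → ℝ => eval y p :=
  contDiff_iff_contDiffAt.2 fun y =>
    (AnalyticOnNhd.eval_mvPolynomial p y (Set.mem_univ _)).contDiffAt

/-- Restriction of a chart to a small ball. -/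
theorem ch_restr {E F : Type} [TopologicalSpace E] [PseudoMetricSpace F]
    (Φ : OpenPartialHomeomorph E F) {z : E} (hz : z ∈ Φ.source) {V : Set F} (hV : V ∈ 𝓝 (Φ z)) :
    ∃ (Ψ : OpenPartialHomeomorph E F) (ε : ℝ), 0 < ε ∧ z ∈ Ψ.source ∧ Ψ.source ⊆ Φ.source ∧
      Ψ.target = Metric.ball (Φ z) ε ∧ Ψ.target ⊆ V ∧ Ψ.target ⊆ Φ.target ∧ ⇑Ψ = Φ ∧
      ⇑Ψ.symm = Φ.symm := by
  obtain ⟨ε, hε, hb⟩ := Metric.mem_nhds_iff.1
    (Filter.inter_mem hV (Φ.open_target.mem_nhds (Φ.map_source hz)))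
  have e : (Φ.symm.restrOpen (Metric.ball (Φ z) ε) Metric.isOpen_ball).symm.target =
      Metric.ball (Φ z) ε := Set.inter_eq_right.2 fun w hw => (hb hw).2
  refine ⟨(Φ.symm.restrOpen (Metric.ball (Φ z) ε) Metric.isOpen_ball).symm, ε, hε,
    ⟨hz, Metric.mem_ball_self hε⟩, fun y hy => hy.1, e, ?_, ?_, rfl, rfl⟩
  · rw [e]; exact fun w hw => (hb hw).1
  · rw [e]; exact fun w hw => (hb hw).2

/-- A chart onto a box whose first coordinates are the `f k`; the inverse is `C^1`. -/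
theorem chart (f : K → MvPolynomial (Fin d) ℝ) (z : Fin d → ℝ)
    (h : LinearIndependent ℝ fun k => grad (f k) z) (U : Set (Fin d → ℝ)) (hU : U ∈ 𝓝 z) :
    ∃ (Φ : OpenPartialHomeomorph (Fin d → ℝ) ((K → ℝ) × (Fin (d - Fintype.card K) → ℝ))) (ε : ℝ),
      0 < ε ∧ z ∈ Φ.source ∧ Φ.source ⊆ U ∧ Φ.target = Metric.ball (Φ z) ε ∧
      (∀ y k, (Φ y).1 k = eval y (f k)) ∧ ContDiffOn ℝ 1 Φ.symm Φ.target ∧
      ∀ y ∈ Φ.source, DifferentiableAt ℝ Φ y := by
  have hk := ch_ker f z h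
  obtain ⟨P, hP⟩ := LinearMap.exists_extend (LinearEquiv.ofFinrankEq (R := ℝ)
    (ch_L f z).toLinearMap.ker (Fin (d - Fintype.card K) → ℝ)
    (by rw [Module.finrank_fin_fun]; omega)).toLinearMap
  have hi : Function.Injective ((ch_L f z).toLinearMap.prod P) := by
    refine (injective_iff_map_eq_zero _).2 fun v hv => ?_
    have h1 : v ∈ (ch_L f z).toLinearMap.ker := congrArg Prod.fst hv
    have h2 := LinearMap.congr_fun hP ⟨v, h1⟩
    have h3 : P v = 0 := congrArg Prod.snd hv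
    rw [LinearMap.comp_apply, Submodule.subtype_apply, h3] at h2
    exact congrArg Subtype.val ((LinearEquiv.map_eq_zero_iff _).1 h2.symm)
  let e := (LinearMap.linearEquivOfInjective _ hi (by
    rw [Module.finrank_prod, Module.finrank_fin_fun, Module.finrank_fin_fun,
      Module.finrank_fintype_fun_eq_card]; omega)).toContinuousLinearEquiv
  have hc : ContDiff ℝ 1 fun y : Fin d → ℝ => ((fun k => eval y (f k), P.toContinuousLinearMap y) :
      (K → ℝ) × (Fin (d - Fintype.card K) → ℝ)) :=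
    (contDiff_pi.2 fun k => ch_smooth (f k)).prodMk P.toContinuousLinearMap.contDiff
  have hd : HasFDerivAt (fun y : Fin d → ℝ => ((fun k => eval y (f k), P.toContinuousLinearMap y) :
      (K → ℝ) × (Fin (d - Fintype.card K) → ℝ))) e.toContinuousLinearMap z :=
    ((hasStrictFDerivAt_pi.2 fun k => hasFDerivAt_eval (f k) z).hasFDerivAt.prodMk
      P.toContinuousLinearMap.hasFDerivAt).congr_fderiv (ContinuousLinearMap.ext fun v => rfl)
  obtain ⟨u, hu, hs⟩ := (hc.contDiffAt.to_localInverse hd one_ne_zero).contDiffOn le_rfl (by simp)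
  have hz := hc.contDiffAt.mem_toOpenPartialHomeomorph_source hd one_ne_zero
  generalize hΦ : hc.contDiffAt.toOpenPartialHomeomorph _ hd one_ne_zero = Φ at hz
  have h1 : ⇑Φ = fun y : Fin d → ℝ => (fun k => eval y (f k), P.toContinuousLinearMap y) :=
    hΦ ▸ rfl
  have h2 : ContDiffOn ℝ 1 Φ.symm u := hΦ ▸ hs
  have h3 : Φ.symm ⁻¹' U ∈ 𝓝 (Φ z) :=
    Φ.continuousAt_symm (Φ.map_source hz) (by rwa [Φ.left_inv hz])
  obtain ⟨Ψ, ε, hε, a1, a2, a3, a4, -, a6, a7⟩ :=
    ch_restr Φ hz (Filter.inter_mem (h1 ▸ hu : u ∈ 𝓝 (Φ z)) h3)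
  refine ⟨Ψ, ε, hε, a1, fun y hy => ?_, a6 ▸ a3, fun y k => by rw [a6, h1], ?_, fun y _ => ?_⟩
  · have := (a4 (Ψ.map_source hy)).2
    rwa [Set.mem_preimage, ← a7, Ψ.left_inv hy] at this
  · rw [a7]; exact h2.mono fun w hw => (a4 hw).1
  · rw [a6, h1]; exact hc.differentiable one_ne_zero y

theorem ch_sign (a t : ℝ) (τ : SignType) (ht : 0 < t) (h : SignType.sign a = τ ∨ a = 0) :
    SignType.sign (a + t * τ) = τ := by
  rcases h with rfl | rfl
  · rcases lt_trichotomy a 0 with h | rfl | h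
    · rw [sign_neg h, sign_eq_neg_one_iff]; simp; linarith
    · simp
    · rw [sign_pos h, sign_eq_one_iff]; simp; linarith
  · rw [zero_add, sign_mul, sign_pos ht, one_mul]
    cases τ <;> simp

set_option linter.unusedVariables false in
/-- Sign classes in a small box are connected and have the expected closures. -/
theorem chart_sign (f : K → MvPolynomial (Fin d) ℝ) (z : Fin d → ℝ)
    (h : LinearIndependent ℝ fun k => grad (f k) z) (h0 : ∀ k, eval z (f k) = 0)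
    (U : Set (Fin d → ℝ)) (hU : U ∈ 𝓝 z) : ∃ W, IsOpen W ∧ z ∈ W ∧ W ⊆ U ∧
      ∀ τ : K → SignType, IsPreconnected {y ∈ W | ∀ k, SignType.sign (eval y (f k)) = τ k} ∧
        ∀ x ∈ W, (∀ k, SignType.sign (eval x (f k)) = τ k ∨ eval x (f k) = 0) →
          x ∈ closure {y ∈ W | ∀ k, SignType.sign (eval y (f k)) = τ k} := by
  obtain ⟨Φ, ε, -, a1, a2, a3, a4, -⟩ := chart f z h U hU
  refine ⟨Φ.source, Φ.open_source, a1, a2, fun τ => ?_⟩
  have e : {y ∈ Φ.source | ∀ k, SignType.sign (eval y (f k)) = τ k} =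
      Φ.symm '' {w ∈ Φ.target | ∀ k, SignType.sign (w.1 k) = τ k} := by
    ext y
    constructor
    · rintro ⟨hy, hs⟩
      exact ⟨Φ y, ⟨Φ.map_source hy, fun k => by rw [a4, hs]⟩, Φ.left_inv hy⟩
    · rintro ⟨w, ⟨hw, hs⟩, rfl⟩
      exact ⟨Φ.map_target hw, fun k => by rw [← a4, Φ.right_inv hw, hs]⟩
  rw [e]
  refine ⟨IsPreconnected.image (Convex.isPreconnected ?_) _
    (Φ.continuousOn_symm.mono fun w hw => hw.1), fun x hx hs => ?_⟩
  · rw [a3]
    refine (convex_ball _ _).inter (Set.ofPred_forall _ ▸ convex_iInter fun k => ?_ :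
      Convex ℝ {w : (K → ℝ) × (Fin (d - Fintype.card K) → ℝ) | ∀ k, SignType.sign (w.1 k) = τ k})
    exact (((Set.ordConnected_singleton (a := τ k)).preimage_mono
      (SignType.sign (α := ℝ)).monotone).convex (𝕜 := ℝ)).linear_preimage
      ((LinearMap.proj k).comp (LinearMap.fst ℝ (K → ℝ) (Fin (d - Fintype.card K) → ℝ)))
  · rw [← Φ.left_inv hx]
    refine ContinuousWithinAt.mem_closure_image
      (Φ.continuousAt_symm (Φ.map_source hx)).continuousWithinAt ?_
    have hc : Filter.Tendsto (fun t : ℝ => Φ x + t • ((fun k => (τ k : ℝ)), 0)) (𝓝[>] 0)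
        (𝓝 (Φ x)) := by
      refine Filter.Tendsto.mono_left ?_ nhdsWithin_le_nhds
      exact Continuous.tendsto' (by fun_prop) _ _ (by simp)
    refine mem_closure_of_tendsto hc ?_
    filter_upwards [hc (Φ.open_target.mem_nhds (Φ.map_source hx)), self_mem_nhdsWithin]
      with t h1 h2
    exact ⟨h1, fun k => ch_sign _ t _ h2 (by rw [a4]; exact hs k)⟩

/-- The move in a chart whose coordinate `none` is the height. -/
theorem ch_push {m : ℕ} (f : K → MvPolynomial (Fin d) ℝ) (z0 z : Fin d → ℝ)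
    (Φ : OpenPartialHomeomorph (Fin d → ℝ) ((Option K → ℝ) × (Fin m → ℝ))) {ε : ℝ}
    (ht : Φ.target = Metric.ball (Φ z) ε) (h1 : ∀ y, (Φ y).1 none = rho z0 y)
    (h2 : ∀ y k, (Φ y).1 (some k) = eval y (f k)) [DecidableEq K]
    (D : (Fin d → ℝ) → ℝ → Fin d → ℝ)
    (hD : D = fun y t => Φ.symm (Function.update (Φ y).1 none t, (Φ y).2)) :
    (∀ y ∈ Φ.source, ∀ t, |t - rho z0 z| < ε →
      (Function.update (Φ y).1 none t, (Φ y).2) ∈ Φ.target) ∧
    (∀ y ∈ Φ.source, |rho z0 y - rho z0 z| < ε ∧ D y (rho z0 y) = y) ∧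
      ContinuousOn (fun x : (Fin d → ℝ) × ℝ => D x.1 x.2)
        (Φ.source ×ˢ Set.Ioo (rho z0 z - ε) (rho z0 z + ε)) ∧
      (∀ y ∈ Φ.source, ∀ t, |t - rho z0 z| < ε →
        D y t ∈ Φ.source ∧ rho z0 (D y t) = t ∧ ∀ k, eval (D y t) (f k) = eval y (f k)) ∧
      (m = 0 → ∀ y ∈ Φ.source, ∀ y' ∈ Φ.source, rho z0 y = rho z0 y' →
        (∀ k, eval y (f k) = eval y' (f k)) → y = y') := by
  subst hD
  have hb : ∀ y ∈ Φ.source, (∀ o, dist ((Φ y).1 o) ((Φ z).1 o) < ε) ∧ dist (Φ y).2 (Φ z).2 < ε :=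
    fun y hy => by
      have := Φ.map_source hy
      rw [ht, Metric.mem_ball, Prod.dist_eq, max_lt_iff] at this
      exact ⟨fun o => (dist_le_pi_dist _ _ o).trans_lt this.1, this.2⟩
  have hu : ∀ y ∈ Φ.source, ∀ t, |t - rho z0 z| < ε →
      (Function.update (Φ y).1 none t, (Φ y).2) ∈ Φ.target := fun y hy t h => by
    rw [ht, Metric.mem_ball, Prod.dist_eq, max_lt_iff, dist_pi_lt_iff ((abs_nonneg _).trans_lt h)]
    refine ⟨fun o => ?_, (hb y hy).2⟩
    dsimp only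
    cases o with
    | none => rwa [Function.update_self, h1, Real.dist_eq]
    | some k => rw [Function.update_of_ne (Option.some_ne_none k)]; exact (hb y hy).1 _
  refine ⟨hu, fun y hy => ⟨?_, ?_⟩, ?_, fun y hy t h => ⟨Φ.map_target (hu y hy t h), ?_, fun k => ?_⟩,
    fun hm y hy y' hy' e1 e2 => Φ.injOn hy hy' (Prod.ext (funext fun o => ?_) ?_)⟩
  · have := (hb y hy).1 none
    rwa [h1, h1, Real.dist_eq] at this
  · simp only [← h1, Function.update_eq_self, Prod.mk.eta, Φ.left_inv hy]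
  · have hc : ContinuousOn (fun x : (Fin d → ℝ) × ℝ => Φ x.1)
        (Φ.source ×ˢ Set.Ioo (rho z0 z - ε) (rho z0 z + ε)) :=
      Φ.continuousOn.comp continuousOn_fst fun x hx => hx.1
    refine Φ.continuousOn_symm.comp (ContinuousOn.prodMk ?_ hc.snd) fun x hx =>
      hu _ hx.1 _ (abs_sub_lt_iff.2 ⟨by linarith [hx.2.2], by linarith [hx.2.1]⟩)
    exact (Continuous.update continuous_fst none continuous_snd).comp_continuousOn
      (hc.fst.prodMk continuousOn_snd)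
  · rw [← h1, Φ.right_inv (hu y hy t h)]
    simp only [Function.update_self]
  · rw [← h2, Φ.right_inv (hu y hy t h), ← h2]
    exact Function.update_of_ne (Option.some_ne_none k) t _
  · cases o with
    | none => rw [h1, h1, e1]
    | some k => rw [h2, h2, e2]
  · subst hm
    exact Subsingleton.elim _ _

omit [Fintype K] in
theorem ch_ind (f : K → MvPolynomial (Fin d) ℝ) {p : MvPolynomial (Fin d) ℝ} {z0 z : Fin d → ℝ}
    (hp : grad p z = (2 : ℝ) • (z - z0)) (h : LinearIndependent ℝ fun k => grad (f k) z)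
    (hc : z - z0 ∉ Submodule.span ℝ (Set.range fun k => grad (f k) z)) :
    LinearIndependent ℝ fun o : Option K => grad (o.elim p f) z :=
  linearIndependent_option.2 ⟨h, fun hm => hc
    ((Submodule.smul_mem_iff _ (two_ne_zero (α := ℝ))).1 (hp ▸ hm))⟩

/-- Moving the height with the `f k` fixed. -/
theorem push (f : K → MvPolynomial (Fin d) ℝ) (z0 z : Fin d → ℝ)
    (h : LinearIndependent ℝ fun k => grad (f k) z)
    (hc : z - z0 ∉ Submodule.span ℝ (Set.range fun k => grad (f k) z))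
    (U : Set (Fin d → ℝ)) (hU : U ∈ 𝓝 z) :
    ∃ (W : Set (Fin d → ℝ)) (δ : ℝ) (D : (Fin d → ℝ) → ℝ → Fin d → ℝ), IsOpen W ∧ z ∈ W ∧ W ⊆ U ∧
      0 < δ ∧ (∀ y ∈ W, |rho z0 y - rho z0 z| < δ ∧ D y (rho z0 y) = y) ∧
      ContinuousOn (fun x : (Fin d → ℝ) × ℝ => D x.1 x.2)
        (W ×ˢ Set.Ioo (rho z0 z - δ) (rho z0 z + δ)) ∧
      (∀ y ∈ W, ∀ t, |t - rho z0 z| < δ →
        D y t ∈ W ∧ rho z0 (D y t) = t ∧ ∀ k, eval (D y t) (f k) = eval y (f k)) ∧
      (Fintype.card K + 1 = d → ∀ y ∈ W, ∀ y' ∈ W, rho z0 y = rho z0 y' →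
        (∀ k, eval y (f k) = eval y' (f k)) → y = y') := by
  classical
  obtain ⟨p, -, p1, p2⟩ := exists_rho z0
  obtain ⟨Φ, ε, hε, a1, a2, a3, a4, -⟩ :=
    chart (fun o : Option K => o.elim p f) z (ch_ind f (p2 z) h hc) U hU
  obtain ⟨-, b1, b2, b3, b4⟩ := ch_push f z0 z Φ a3 (fun y => (a4 y none).trans (p1 y))
    (fun y k => a4 y (some k)) _ rfl
  exact ⟨_, ε, _, Φ.open_source, a1, a2, hε, b1, b2, b3, fun hd =>
    b4 (by rw [Fintype.card_option]; omega)⟩

/-- The same at a vertex: the remaining equation `g0` is strictly monotone along the move. -/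
theorem push_vertex (f : K → MvPolynomial (Fin d) ℝ) (g0 : MvPolynomial (Fin d) ℝ)
    (z0 z : Fin d → ℝ) (hd : Fintype.card K + 1 = d)
    (h : LinearIndependent ℝ fun o : Option K => grad (o.elim g0 f) z) (lam : K → ℝ) (l0 : ℝ)
    (hl : l0 ≠ 0) (hz : z - z0 = l0 • grad g0 z + ∑ k, lam k • grad (f k) z)
    (U : Set (Fin d → ℝ)) (hU : U ∈ 𝓝 z) :
    ∃ (W : Set (Fin d → ℝ)) (δ : ℝ) (D : (Fin d → ℝ) → ℝ → Fin d → ℝ), IsOpen W ∧ z ∈ W ∧ W ⊆ U ∧
      0 < δ ∧ (∀ y ∈ W, |rho z0 y - rho z0 z| < δ ∧ D y (rho z0 y) = y) ∧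
      ContinuousOn (fun x : (Fin d → ℝ) × ℝ => D x.1 x.2)
        (W ×ˢ Set.Ioo (rho z0 z - δ) (rho z0 z + δ)) ∧
      (∀ y ∈ W, ∀ t, |t - rho z0 z| < δ →
        D y t ∈ W ∧ rho z0 (D y t) = t ∧ ∀ k, eval (D y t) (f k) = eval y (f k)) ∧
      (∀ y ∈ W, ∀ y' ∈ W, rho z0 y = rho z0 y' → (∀ k, eval y (f k) = eval y' (f k)) → y = y') ∧
      ∀ y ∈ W, StrictMonoOn (fun t => l0 * eval (D y t) g0)
        (Set.Ioo (rho z0 z - δ) (rho z0 z + δ)) := by
  classical
  obtain ⟨p, -, p1, p2⟩ := exists_rho z0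
  obtain ⟨h, hg⟩ := linearIndependent_option.1 h
  have hc : z - z0 ∉ Submodule.span ℝ (Set.range fun k => grad (f k) z) := fun hm => hg <| by
    rw [hz, Submodule.add_mem_iff_left _ (Submodule.sum_mem _ fun k _ => Submodule.smul_mem _ _
      (Submodule.subset_span (Set.mem_range_self (f := fun k => grad (f k) z) k))),
      Submodule.smul_mem_iff _ hl] at hm
    exact hm
  obtain ⟨Φ, ε, hε, a1, a2, a3, a4, a5, -⟩ :=
    chart (fun o : Option K => o.elim p f) z (ch_ind f (p2 z) h hc) U hU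
  have hT := Φ.open_target.mem_nhds (Φ.map_source a1)
  set e : (Option K → ℝ) × (Fin (d - Fintype.card (Option K)) → ℝ) := (Pi.single none 1, 0) with he
  have hG : ContDiffOn ℝ 1 (fun w => l0 * eval (Φ.symm w) g0) Φ.target :=
    contDiffOn_const.mul ((ch_smooth g0).comp_contDiffOn a5)
  have hΨ := ((a5.contDiffAt hT).differentiableAt one_ne_zero).hasFDerivAt
  generalize fderiv ℝ Φ.symm (Φ z) = L at hΨ
  have hq : ∀ q : MvPolynomial (Fin d) ℝ, HasFDerivAt (fun w => eval (Φ.symm w) q)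
      ((∑ j, grad q z j • ContinuousLinearMap.proj (R := ℝ) (φ := fun _ : Fin d => ℝ) j).comp L)
      (Φ z) := fun q =>
    HasFDerivAt.comp (g := fun y => eval y q) (Φ z)
      (by rw [Φ.left_inv a1]; exact (hasFDerivAt_eval q z).hasFDerivAt) hΨ
  have hv : ∀ o : Option K, grad (o.elim p f) z ⬝ᵥ L e = e.1 o := fun o => by
    have h1 : HasFDerivAt (fun w => eval (Φ.symm w) (o.elim p f))
        ((ContinuousLinearMap.proj o).comp (ContinuousLinearMap.fst ℝ _ _)) (Φ z) := by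
      refine (ContinuousLinearMap.hasFDerivAt _).congr_of_eventuallyEq ?_
      filter_upwards [hT] with w hw
      rw [← a4, Φ.right_inv hw]; rfl
    simpa [dotProduct] using ContinuousLinearMap.ext_iff.1 ((hq _).unique h1) e
  have h0 : 0 < fderiv ℝ (fun w => l0 * eval (Φ.symm w) g0) (Φ z) e := by
    have h1 : grad p z ⬝ᵥ L e = 1 := by simpa [he] using hv none
    have h2 : ∀ k, grad (f k) z ⬝ᵥ L e = 0 := fun k => by simpa [he] using hv (some k)
    rw [p2, hz, smul_dotProduct, add_dotProduct, sum_dotProduct] at h1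
    simp only [smul_dotProduct, h2, mul_zero, Finset.sum_const_zero, add_zero, smul_eq_mul] at h1
    rw [((hq g0).const_mul l0).fderiv]
    have : l0 * (grad g0 z ⬝ᵥ L e) > 0 := by linarith
    simpa [dotProduct] using this
  have hV : {w | 0 < fderiv ℝ (fun w => l0 * eval (Φ.symm w) g0) w e} ∈ 𝓝 (Φ z) :=
    (((hG.continuousOn_fderiv_of_isOpen Φ.open_target le_rfl).continuousAt hT).clm_apply
      continuousAt_const).eventually (lt_mem_nhds h0)
  obtain ⟨Ψ, δ, hδ, c1, c2, c3, c4, c5, c6, c7⟩ := ch_restr Φ a1 hV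
  obtain ⟨b0, b1, b2, b3, b4⟩ := ch_push f z0 z Ψ (c6 ▸ c3)
    (fun y => c6 ▸ (a4 y none).trans (p1 y)) (fun y k => c6 ▸ a4 y (some k)) _ rfl
  refine ⟨_, δ, _, Ψ.open_source, c1, c2.trans a2, hδ, b1, b2, b3,
    b4 (by rw [Fintype.card_option]; omega), fun y hy => ?_⟩
  have hd : ∀ t ∈ Set.Ioo (rho z0 z - δ) (rho z0 z + δ), ∃ c, 0 < c ∧ HasDerivAt
      (fun t => l0 * eval (Ψ.symm (Function.update (Ψ y).1 none t, (Ψ y).2)) g0) c t := fun t ht => by
    have hw := b0 y hy t (abs_sub_lt_iff.2 ⟨by linarith [ht.2], by linarith [ht.1]⟩)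
    rw [c7]
    have h1 := ((hG.contDiffAt (Φ.open_target.mem_nhds (c5 hw))).differentiableAt
      one_ne_zero).hasFDerivAt
    have h2 := h1.comp_hasDerivAt t
      ((hasDerivAt_update (Ψ y).1 none t).prodMk (hasDerivAt_const t (Ψ y).2))
    exact ⟨_, c4 hw, h2⟩
  refine strictMonoOn_of_deriv_pos (convex_Ioo _ _) (fun t ht => ?_) fun t ht => ?_
  · obtain ⟨c, -, hc⟩ := hd t ht
    exact hc.continuousAt.continuousWithinAt
  · obtain ⟨c, h1, hc⟩ := hd t (interior_subset ht)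
    rwa [hc.deriv]

/-- On the closed orthant given by the signs of the multipliers the height has a strict local
minimum. -/
theorem corner_min (f : K → MvPolynomial (Fin d) ℝ) (z0 z : Fin d → ℝ) (hd : Fintype.card K = d)
    (h : LinearIndependent ℝ fun k => grad (f k) z) (h0 : ∀ k, eval z (f k) = 0) (lam : K → ℝ)
    (hl : ∀ k, lam k ≠ 0) (hz : z - z0 = ∑ k, lam k • grad (f k) z) :
    ∀ᶠ y in 𝓝 z, (∀ k, 0 ≤ lam k * eval y (f k)) → y ≠ z → rho z0 z < rho z0 y := by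
  obtain ⟨p, -, p1, p2⟩ := exists_rho z0
  have hk : (ch_L f z).toLinearMap.ker = ⊥ := Submodule.finrank_eq_zero.1 (by
    have := ch_ker f z h
    omega)
  have hA := (hasStrictFDerivAt_pi.2 fun k =>
    (hasFDerivAt_eval (f k) z).const_mul (lam k)).hasFDerivAt
  obtain ⟨L, hA, hL⟩ : ∃ L : (Fin d → ℝ) →L[ℝ] K → ℝ,
      HasFDerivAt (fun y k => lam k * eval y (f k)) L z ∧ ∀ v k, L v k = lam k * ch_L f z v k :=
    ⟨_, hA, fun _ _ => rfl⟩
  obtain ⟨c, -, hc⟩ := L.toLinearMap.exists_antilipschitzWith (LinearMap.ker_eq_bot'.2 fun v hv =>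
    LinearMap.ker_eq_bot'.1 hk v (funext fun k => (mul_eq_zero.1
      ((hL v k).symm.trans (congrFun hv k))).resolve_left (hl k)))
  have h1 : (fun y => y - z) =O[𝓝 z] fun y => L (y - z) :=
    Asymptotics.isBigO_iff.2 ⟨c, Filter.Eventually.of_forall fun y => by
      simpa [dist_eq_norm] using hc.le_mul_dist y z⟩
  have h2 : Asymptotics.IsEquivalent (𝓝 z)
      (fun y => (fun k => lam k * eval y (f k)) - fun k => lam k * eval z (f k))
      fun y => L (y - z) := hA.isLittleO.trans_isBigO h1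
  have h3 := h1.trans h2.isBigO_symm
  have hF : HasFDerivAt (fun y => eval y p - 2 * ∑ k, lam k * eval y (f k))
      (0 : (Fin d → ℝ) →L[ℝ] ℝ) z := by
    refine (((hasFDerivAt_eval p z).fun_sub ((HasStrictFDerivAt.fun_sum fun k _ =>
      (hasFDerivAt_eval (f k) z).const_mul (lam k)).const_mul 2)).hasFDerivAt).congr_fderiv ?_
    refine ContinuousLinearMap.ext fun v => ?_
    have h3 : (∑ k, lam k • grad (f k) z) ⬝ᵥ v = ∑ k, lam k * grad (f k) z ⬝ᵥ v := by
      simp only [sum_dotProduct, smul_dotProduct, smul_eq_mul]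
    have h4 : grad p z ⬝ᵥ v - 2 * ∑ k, lam k * grad (f k) z ⬝ᵥ v = 0 := by
      rw [p2, hz, smul_dotProduct, h3, smul_eq_mul, sub_self]
    simpa [dotProduct] using h4
  filter_upwards [(hF.isLittleO.trans_isBigO h3).def one_pos, h3.eq_zero_imp] with y h4 h5 h6 h7
  have e : ((fun k => lam k * eval y (f k)) - fun k => lam k * eval z (f k)) =
      fun k => lam k * eval y (f k) := funext fun k => by simp [h0]
  rw [e] at h4 h5
  have h8 : ‖fun k => lam k * eval y (f k)‖ ≤ ∑ k, lam k * eval y (f k) :=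
    (pi_norm_le_iff_of_nonneg (Finset.sum_nonneg fun k _ => h6 k)).2 fun k => by
      rw [Real.norm_of_nonneg (h6 k)]
      exact Finset.single_le_sum (fun k _ => h6 k) (Finset.mem_univ k)
  have h9 := norm_pos_iff.2 fun e0 => h7 (sub_eq_zero.1 (h5 e0))
  simp only [h0, mul_zero, Finset.sum_const_zero, sub_zero, zero_apply, p1,
    one_mul, Real.norm_eq_abs] at h4
  linarith [neg_abs_le (rho z0 y - 2 * ∑ k, lam k * eval y (f k) - rho z0 z)]

end CurK
end

-- merged part: Pool.Agent.Work.MP_8a5de9_co_K.Sard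
section
/-! A generic centre (paper 2.3, first two lines). -/

namespace CurK

open MvPolynomial Topology MeasureTheory

/-- Almost every value has only isolated preimages. -/
theorem sa_sard {d : ℕ} {F : Type} [NormedAddCommGroup F] [NormedSpace ℝ F] [FiniteDimensional ℝ F]
    (hF : Module.finrank ℝ F = d) (G : F → Fin d → ℝ) (s : Set F)
    (hG : ∀ x ∈ s, DifferentiableAt ℝ G x) :
    volume {y | ∃ x ∈ s, G x = y ∧ ¬ ∀ᶠ x' in 𝓝 x, G x' = y → x' = x} = 0 := by
  let e : (Fin d → ℝ) ≃L[ℝ] F := ContinuousLinearEquiv.ofFinrankEq (by simp [hF])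
  have h1 : ∀ u, e u ∈ s → HasFDerivAt (fun u => G (e u)) (fderiv ℝ (fun u => G (e u)) u) u :=
    fun u hu => ((hG _ hu).comp u e.differentiableAt).hasFDerivAt
  refine measure_mono_null ?_ (addHaar_image_eq_zero_of_det_fderivWithin_eq_zero volume
    (f := fun u => G (e u)) (f' := fun u => fderiv ℝ (fun u => G (e u)) u)
    (s := {u | e u ∈ s ∧ (fderiv ℝ (fun u => G (e u)) u).det = 0})
    (fun u hu => (h1 u hu.1).hasFDerivWithinAt) fun u hu => hu.2)
  rintro y ⟨x, hx, rfl, hn⟩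
  obtain ⟨u, rfl⟩ := e.surjective x
  refine ⟨u, ⟨hx, ?_⟩, rfl⟩
  by_contra hd
  refine hn ?_
  have h2 := (h1 u hx).eventually_ne (c := G (e u))
    ⟨_, ((fderiv ℝ (fun u => G (e u)) u).toContinuousLinearEquivOfDetNeZero hd).antilipschitz⟩
  have h3 : ∀ᶠ v in 𝓝 u, G (e v) = G (e u) → v = u := by
    filter_upwards [eventually_nhdsWithin_iff.1 h2] with v hv h4
    by_contra h5
    exact hv h5 h4
  have h4 : Filter.Tendsto e.symm (𝓝 (e u)) (𝓝 u) := by
    simpa using e.symm.continuous.tendsto (e u)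
  filter_upwards [h4.eventually h3] with x' hx' h5
  rw [e.apply_symm_apply] at hx'
  rw [← hx' h5, e.apply_symm_apply]

theorem sa_pf_eval {d b : ℕ} {p : MvPolynomial (Fin d) ℝ} (hp : p.totalDegree ≤ b) :
    (fun x : Fin d → ℝ => eval x p) ∈ FS.Pf (Fin d → ℝ) b := by
  simpa using FS.pf_eval hp fun k => FS.pf_co k

theorem sa_pf_grad {d b : ℕ} {p : MvPolynomial (Fin d) ℝ} (hp : p.totalDegree ≤ b) (j : Fin d) :
    (fun x : Fin d → ℝ => grad p x j) ∈ FS.Pf (Fin d → ℝ) b := by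
  have h1 := FS.pf_fderiv (sa_pf_eval hp) (Pi.single j 1)
  have h2 : (fun x : Fin d → ℝ => grad p x j) =
      fun x => fderiv ℝ (fun x : Fin d → ℝ => eval x p) x (Pi.single j 1) := by
    funext x
    rw [(hasFDerivAt_eval p x).hasFDerivAt.fderiv]
    simp [Pi.single_apply]
  rwa [h2]

theorem sa_diff_grad {d : ℕ} (p : MvPolynomial (Fin d) ℝ) : Differentiable ℝ (grad p) :=
  differentiable_pi.2 fun j => (FS.pf_contDiff (sa_pf_grad le_rfl j)).differentiable (by simp)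

variable {d : ℕ} {K : Type} [Fintype K]

/-- Critical points together with their multipliers (independence is not required). -/
def sa_X (f : K → MvPolynomial (Fin d) ℝ) (z0 : Fin d → ℝ) : Set ((Fin d → ℝ) × (K → ℝ)) :=
  {x | (∀ k, eval x.1 (f k) = 0) ∧ x.1 - ∑ k, x.2 k • grad (f k) x.1 = z0}

theorem sa_few {b : ℕ} (hK : Fintype.card K ≤ d) (f : K → MvPolynomial (Fin d) ℝ)
    (hf : ∀ k, (f k).totalDegree ≤ b) (z0 : Fin d → ℝ) :
    FS.Few (sa_X f z0) (FS.beta (d + d) (d + d + (1 + b))) := by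
  refine FS.few_sa (κ := K ⊕ Fin d) (by simpa using hK) (by simp; omega)
    (p := Sum.elim (fun k x => eval x.1 (f k))
      fun j x => x.1 j - ∑ k, x.2 k * grad (f k) x.1 j - z0 j) ?_ ?_
  · rintro (k | j)
    · exact FS.pf_mono (by omega) (FS.pf_fst (sa_pf_eval (hf k)))
    · refine FS.pf_mono (D := 1 + b) (by omega) (FS.pf_sub (FS.pf_sub ?_ (FS.pf_sum _ fun k _ => ?_))
        (FS.pf_const _ _))
      · exact FS.pf_mono (by omega) (FS.pf_fst (FS.pf_co j))
      · exact FS.pf_mul (FS.pf_snd (FS.pf_co k)) (FS.pf_fst (sa_pf_grad (hf k) j))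
  · intro x hx y hy
    refine ⟨fun k => ?_, funext fun j => ?_⟩
    · have h1 := hy (Sum.inl k)
      simp only [Sum.elim_inl, hx.1 k, sign_zero, sign_eq_zero_iff] at h1
      exact h1
    · have h1 := hy (Sum.inr j)
      have h2 := congrFun hx.2 j
      simp only [Pi.sub_apply, Finset.sum_apply, Pi.smul_apply, smul_eq_mul] at h2 ⊢
      simp only [Sum.elim_inr, h2, sub_self, sign_zero, sign_eq_zero_iff] at h1
      exact sub_eq_zero.1 h1

/-- Centres for which a critical point in `U` is not isolated. -/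
def sa_Bad (f : K → MvPolynomial (Fin d) ℝ) (U : Set (Fin d → ℝ)) : Set (Fin d → ℝ) :=
  {z0 | ∃ x ∈ sa_X f z0, x.1 ∈ U ∧ ¬ ∀ᶠ x' in 𝓝 x, x' ∈ sa_X f z0 → x' = x}

theorem sa_local (f : K → MvPolynomial (Fin d) ℝ) (z : Fin d → ℝ)
    (h : LinearIndependent ℝ fun k => grad (f k) z) : ∃ U ∈ 𝓝 z, volume (sa_Bad f U) = 0 := by
  obtain ⟨Φ, ε, -, hz, -, -, h1, h2, -⟩ := chart f z h Set.univ Filter.univ_mem
  have hK : Fintype.card K ≤ d := by simpa using h.fintype_card_le_finrank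
  refine ⟨Φ.source, Φ.open_source.mem_nhds hz, measure_mono_null ?_
    (sa_sard (F := (Fin (d - Fintype.card K) → ℝ) × (K → ℝ)) (by simp; omega)
      (fun x => Φ.symm (0, x.1) - ∑ k, x.2 k • grad (f k) (Φ.symm (0, x.1)))
      {x | (0, x.1) ∈ Φ.target} fun x hx => ?_)⟩
  · rintro z0 ⟨x, hx, hU, hn⟩
    have h3 : ∀ y ∈ Φ.source, (∀ k, eval y (f k) = 0) → Φ y = (0, (Φ y).2) := fun y _ hy =>
      Prod.ext (funext fun k => (h1 y k).trans (hy k)) rfl
    have h4 : ∀ y ∈ Φ.source, (∀ k, eval y (f k) = 0) → Φ.symm (0, (Φ y).2) = y := fun y hy hy' => by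
      rw [← h3 y hy hy', Φ.left_inv hy]
    refine ⟨((Φ x.1).2, x.2), ?_, ?_, fun h5 => hn ?_⟩
    · show (0, (Φ x.1).2) ∈ Φ.target
      rw [← h3 _ hU hx.1]
      exact Φ.map_source hU
    · show Φ.symm (0, (Φ x.1).2) - ∑ k, x.2 k • grad (f k) (Φ.symm (0, (Φ x.1).2)) = z0
      rw [h4 _ hU hx.1]
      exact hx.2
    · have h6 : ContinuousAt (fun y : (Fin d → ℝ) × (K → ℝ) => ((Φ y.1).2, y.2)) x :=
        (((Φ.continuousAt hU).comp continuousAt_fst).snd).prodMk continuousAt_snd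
      filter_upwards [h6.eventually h5,
        continuousAt_fst.eventually (Φ.open_source.mem_nhds hU)] with y hy hy' hy2
      have h7 := hy (by
        show Φ.symm (0, (Φ y.1).2) - ∑ k, y.2 k • grad (f k) (Φ.symm (0, (Φ y.1).2)) = z0
        rw [h4 _ hy' hy2.1]
        exact hy2.2)
      refine Prod.ext ?_ (Prod.mk.inj h7).2
      rw [← h4 _ hy' hy2.1, ← h4 _ hU hx.1]
      exact congrArg (fun w => Φ.symm (0, w)) (Prod.mk.inj h7).1
  · have h3 : DifferentiableAt ℝ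
        (fun x : (Fin (d - Fintype.card K) → ℝ) × (K → ℝ) => Φ.symm (0, x.1)) x :=
      ((h2.differentiableOn (by simp)).differentiableAt (Φ.open_target.mem_nhds hx)).comp x
        ((differentiableAt_const _).prodMk differentiableAt_fst)
    refine h3.sub (DifferentiableAt.fun_sum fun k _ => ?_)
    have h4 : DifferentiableAt ℝ
        (fun x : (Fin (d - Fintype.card K) → ℝ) × (K → ℝ) => x.2 k) x := by fun_prop
    exact h4.smul ((sa_diff_grad (f k) _).comp x h3)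

theorem sa_null (f : K → MvPolynomial (Fin d) ℝ) :
    volume (sa_Bad f {z | LinearIndependent ℝ fun k => grad (f k) z}) = 0 := by
  choose! U h1 h2 using sa_local f
  obtain ⟨t, h3, h4, h5⟩ := TopologicalSpace.countable_cover_nhdsWithin (f := U)
    (s := {z | LinearIndependent ℝ fun k => grad (f k) z})
    fun z hz => mem_nhdsWithin_of_mem_nhds (h1 z hz)
  refine measure_mono_null ?_ ((measure_biUnion_null_iff h4).2 fun z hz => h2 z (h3 hz))
  rintro z0 ⟨x, hx, hU, hn⟩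
  obtain ⟨z, hz, h6⟩ := Set.mem_iUnion₂.1 (h5 hU)
  exact Set.mem_iUnion₂.2 ⟨z, hz, x, hx, h6, hn⟩

theorem exists_centre (d b : ℕ) : ∃ β : ℕ, ∀ {K : Type} [Finite K] (h : K → MvPolynomial (Fin d) ℝ),
    (∀ k, (h k).totalDegree ≤ b) →
    ∃ z0, ∀ Γ : Finset K, (Crit h z0 Γ).Finite ∧ (Crit h z0 Γ).ncard ≤ β := by
  refine ⟨FS.beta (d + d) (d + d + (1 + b)), fun {K} _ h hb => ?_⟩
  have h1 : ∀ᵐ z0 : Fin d → ℝ, ∀ Γ : Finset K, z0 ∉ sa_Bad (fun k : Γ => h k)
      {z | LinearIndependent ℝ fun k : Γ => grad (h k) z} :=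
    ae_all_iff.2 fun Γ => measure_eq_zero_iff_ae_notMem.1 (sa_null _)
  obtain ⟨z0, h2⟩ := h1.exists
  refine ⟨z0, fun Γ => ?_⟩
  have h3 : (Crit h z0 Γ).encard ≤ (FS.beta (d + d) (d + d + (1 + b)) : ℕ) := by
    rcases (Crit h z0 Γ).eq_empty_or_nonempty with e | ⟨z, hz⟩
    · simp [e]
    have hK : Fintype.card Γ ≤ d := by simpa using hz.2.1.fintype_card_le_finrank
    have h4 := (sa_few hK (fun k : Γ => h k) (fun k => hb k) z0).isolated_encard
      (Y := {x | x ∈ sa_X (fun k : Γ => h k) z0 ∧ LinearIndependent ℝ fun k : Γ => grad (h k) x.1})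
      fun x hx => ⟨hx.1, by
        by_contra hn
        exact h2 Γ ⟨x, hx.1, hx.2, hn⟩⟩
    refine le_trans (Set.encard_le_encard fun y hy => ?_) ((Set.encard_image_le Prod.fst _).trans h4)
    obtain ⟨c, hc⟩ := (Submodule.mem_span_range_iff_exists_fun ℝ).1 hy.2.2
    refine ⟨(y, c), ⟨⟨fun k => hy.1 k k.2, ?_⟩, hy.2.1⟩, rfl⟩
    show y - ∑ k : Γ, c k • grad (h k) y = z0
    rw [hc, sub_sub_cancel]
  have h4 : (Crit h z0 Γ).Finite := Set.finite_of_encard_le_coe h3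
  refine ⟨h4, ?_⟩
  rw [← h4.cast_ncard_eq] at h3
  exact_mod_cast h3

end CurK
end

-- merged part: Pool.Agent.Work.MP_8a5de9_co_K.PiecesT
section
/-! Sections of a local homeomorphism to the line, and cutting them (paper 2.4). -/

namespace CurK

open Set Topology Filter FS

variable {E : Type} [TopologicalSpace E] {ρ : E → ℝ} {Y : Set E}

/-- A section of `ρ` over an open interval, with values in `Y`. -/
structure pi_Sec (ρ : E → ℝ) (Y : Set E) (I : Set ℝ) (σ : ℝ → E) : Prop where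
  isOpen : IsOpen I
  ord : I.OrdConnected
  cont : ContinuousOn σ I
  eq : ∀ t ∈ I, ρ (σ t) = t
  mem : ∀ t ∈ I, σ t ∈ Y

/-- Near each of its points, `Y` is the image of a section. -/
def pi_Loc (ρ : E → ℝ) (Y : Set E) : Prop :=
  ∀ z ∈ Y, ∃ (W : Set E) (I : Set ℝ) (σ : ℝ → E), IsOpen W ∧ z ∈ W ∧ pi_Sec ρ Y I σ ∧
    ∀ y ∈ W, y ∈ Y → ρ y ∈ I ∧ σ (ρ y) = y

theorem pi_uniq [T2Space E] (h : pi_Loc ρ Y) {I I' : Set ℝ} {σ σ' : ℝ → E} (a : pi_Sec ρ Y I σ)
    (a' : pi_Sec ρ Y I' σ') {t0 t : ℝ} (h0 : t0 ∈ I ∩ I') (e : σ t0 = σ' t0) (ht : t ∈ I ∩ I') :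
    σ t = σ' t := by
  refine ((a.ord.inter a'.ord).isPreconnected.induction₂' (fun u v => σ u = σ' u → σ v = σ' v)
    (fun u hu => ?_) (fun _ _ _ _ _ _ b c e => c (b e)) h0 ht) e
  have c1 : ContinuousAt σ u := a.cont.continuousAt (a.isOpen.mem_nhds hu.1)
  have c2 : ContinuousAt σ' u := a'.cont.continuousAt (a'.isOpen.mem_nhds hu.2)
  by_cases e : σ u = σ' u
  · obtain ⟨W, J, τ, h1, h2, -, h4⟩ := h (σ u) (a.mem u hu.1)
    filter_upwards [self_mem_nhdsWithin, mem_nhdsWithin_of_mem_nhds (c1 (h1.mem_nhds h2)),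
      mem_nhdsWithin_of_mem_nhds (c2 (h1.mem_nhds (e ▸ h2)))] with v hv b1 b2
    refine ⟨fun _ => ?_, fun _ => e⟩
    rw [← (h4 _ b1 (a.mem v hv.1)).2, ← (h4 _ b2 (a'.mem v hv.2)).2, a.eq v hv.1, a'.eq v hv.2]
  · have c3 : ∀ᶠ v in 𝓝 u, σ v ≠ σ' v :=
      (c1.prodMk c2) (isClosed_diagonal.isOpen_compl.mem_nhds e)
    filter_upwards [mem_nhdsWithin_of_mem_nhds c3] with v hv
    exact ⟨fun e' => absurd e' e, fun e' => absurd e' hv⟩

theorem pi_max [T2Space E] (h : pi_Loc ρ Y) (y : E) : ∃ J τ, pi_Sec ρ Y J τ ∧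
    ∀ I σ, pi_Sec ρ Y I σ → ρ y ∈ I → σ (ρ y) = y → ∀ t ∈ I, t ∈ J ∧ τ t = σ t := by
  have : Nonempty (Set ℝ × (ℝ → E)) := ⟨∅, fun _ => y⟩
  let P : Set ℝ × (ℝ → E) → Prop := fun x => pi_Sec ρ Y x.1 x.2 ∧ ρ y ∈ x.1 ∧ x.2 (ρ y) = y
  have h1 : ∀ t ∈ {t | ∃ x, P x ∧ t ∈ x.1}, ∃ x, P x ∧ t ∈ x.1 := fun t ht => ht
  choose! c c1 c2 using h1
  have h2 : ∀ x, P x → ∀ t ∈ x.1, (c t).2 t = x.2 t := fun x hx t ht =>
    pi_uniq h (c1 t ⟨x, hx, ht⟩).1 hx.1 ⟨(c1 t ⟨x, hx, ht⟩).2.1, hx.2.1⟩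
      ((c1 t ⟨x, hx, ht⟩).2.2.trans hx.2.2.symm) ⟨c2 t ⟨x, hx, ht⟩, ht⟩
  refine ⟨{t | ∃ x, P x ∧ t ∈ x.1}, fun t => (c t).2 t, ⟨?_, ⟨?_⟩, ?_, ?_, ?_⟩,
    fun I σ a b e t ht => ⟨⟨(I, σ), ⟨a, b, e⟩, ht⟩, h2 (I, σ) ⟨a, b, e⟩ t ht⟩⟩
  · refine isOpen_iff_mem_nhds.2 ?_
    rintro t ⟨x, hx, ht⟩
    exact mem_of_superset (hx.1.isOpen.mem_nhds ht) fun u hu => ⟨x, hx, hu⟩
  · rintro u ⟨x, hx, hu⟩ v ⟨x', hx', hv⟩ t ht
    rcases le_total t (ρ y) with e | e
    · exact ⟨x, hx, hx.1.ord.out hu hx.2.1 ⟨ht.1, e⟩⟩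
    · exact ⟨x', hx', hx'.1.ord.out hx'.2.1 hv ⟨e, ht.2⟩⟩
  · rintro t ⟨x, hx, ht⟩
    refine ((hx.1.cont.continuousAt (hx.1.isOpen.mem_nhds ht)).congr ?_).continuousWithinAt
    filter_upwards [hx.1.isOpen.mem_nhds ht] with u hu
    exact (h2 x hx u hu).symm
  · exact fun t ht => (c1 t ht).1.eq t (c2 t ht)
  · exact fun t ht => (c1 t ht).1.mem t (c2 t ht)

theorem pi_comp [T2Space E] (h : pi_Loc ρ Y) {z : E} (hz : z ∈ Y) : ∃ J τ, pi_Sec ρ Y J τ ∧
    (∀ y ∈ cc Y z, ρ y ∈ J ∧ τ (ρ y) = y) ∧ ∀ t ∈ J, τ t ∈ cc Y z := by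
  obtain ⟨J, τ, h1, h2⟩ := pi_max h z
  have h3 : ∀ y ∈ cc Y z, ρ y ∈ J ∧ τ (ρ y) = y := fun y hy => by
    obtain ⟨I, σ, a, ⟨b1, b2⟩, b3, b4⟩ := isPreconnected_connectedComponentIn.induction₂'
      (fun u v => ∃ I σ, pi_Sec ρ Y I σ ∧ (ρ u ∈ I ∧ σ (ρ u) = u) ∧ ρ v ∈ I ∧ σ (ρ v) = v)
      (fun u hu => by
        have hu' := connectedComponentIn_subset _ _ hu
        obtain ⟨W, I, σ, c1, c2, c3, c4⟩ := h u hu'
        filter_upwards [self_mem_nhdsWithin, mem_nhdsWithin_of_mem_nhds (c1.mem_nhds c2)]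
          with v hv hw
        have c5 := c4 v hw (connectedComponentIn_subset _ _ hv)
        exact ⟨⟨I, σ, c3, c4 u c2 hu', c5⟩, I, σ, c3, c5, c4 u c2 hu'⟩)
      (by
        rintro u v w - - - ⟨I, σ, c1, c2, c3⟩ ⟨I', σ', c4, c5, c6⟩
        obtain ⟨J', τ', c7, c8⟩ := pi_max h v
        have d1 := c8 I σ c1 c3.1 c3.2 _ c2.1
        have d2 := c8 I' σ' c4 c5.1 c5.2 _ c6.1
        exact ⟨J', τ', c7, ⟨d1.1, d1.2.trans c2.2⟩, d2.1, d2.2.trans c6.2⟩)
      (mem_connectedComponentIn hz) hy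
    have d := h2 I σ a b1 b2 _ b3
    exact ⟨d.1, d.2.trans b4⟩
  have h4 := h3 z (mem_connectedComponentIn hz)
  exact ⟨J, τ, h1, h3, fun t ht => (h1.ord.isPreconnected.image τ h1.cont).subset_connectedComponentIn
    ⟨_, h4.1, h4.2⟩ (by rintro _ ⟨u, hu, rfl⟩; exact h1.mem u hu) ⟨t, ht, rfl⟩⟩

theorem pi_few_cc {A : Set E} {β : ℕ} (h : Few A β) (hA : A ⊆ Y) (z : E) :
    Few (A ∩ cc Y z) β := fun T h1 h2 =>
  h T (fun x hx => (h1 x hx).1) fun x hx y hy e => h2 x hx y hy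
    (isPreconnected_connectedComponentIn.subset_connectedComponentIn
      (mem_connectedComponentIn (h1 x hx).1) (fun _ hw => mem_inter
        (connectedComponentIn_subset _ _ hw)
        (cc_trans (h1 x hx).2 (connectedComponentIn_mono x hA hw))) e)

theorem pi_front {A : Set ℝ} {β : ℕ} (h : Few A β) :
    ∃ T : Finset ℝ, T.card ≤ 2 * β ∧ frontier A ⊆ T := by
  classical
  obtain ⟨z, hz⟩ := h.reps
  refine ⟨Finset.univ.image (fun k => sInf (cc A (z k))) ∪
    Finset.univ.image (fun k => sSup (cc A (z k))), ?_, fun t ht => ?_⟩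
  · refine (Finset.card_union_le _ _).trans ?_
    rw [two_mul]
    exact add_le_add (Finset.card_image_le.trans (by simp)) (Finset.card_image_le.trans (by simp))
  have h1 : t ∈ closure (⋃ k, cc A (z k)) :=
    closure_mono (fun x hx => mem_iUnion.2 (hz x hx)) ht.1
  rw [closure_iUnion_of_finite] at h1
  obtain ⟨k, hk⟩ := mem_iUnion.1 h1
  have h2 : (cc A (z k)).Nonempty := closure_nonempty_iff.1 ⟨t, hk⟩
  rw [Finset.coe_union]
  by_cases e : t ∈ lowerBounds (cc A (z k))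
  · exact Or.inl (Finset.mem_coe.2 (Finset.mem_image.2
      ⟨k, Finset.mem_univ _, (isGLB_of_mem_closure e hk).csInf_eq h2⟩))
  by_cases e' : t ∈ upperBounds (cc A (z k))
  · exact Or.inr (Finset.mem_coe.2 (Finset.mem_image.2
      ⟨k, Finset.mem_univ _, (isLUB_of_mem_closure e' hk).csSup_eq h2⟩))
  simp only [mem_lowerBounds, mem_upperBounds, not_forall, not_le] at e e'
  obtain ⟨a, a1, a2⟩ := e
  obtain ⟨b, b1, b2⟩ := e'
  refine absurd (mem_interior_iff_mem_nhds.2 (mem_of_superset (Icc_mem_nhds a2 b2) ?_)) ht.2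
  exact (isPreconnected_connectedComponentIn.ordConnected.out a1 b1).trans
    (connectedComponentIn_subset _ _)

open Classical in
/-- The interval number `n` of the complement of `T`. -/
def pi_Q (T : Finset ℝ) (n : ℕ) : Set ℝ := {t | t ∉ T ∧ (T.filter (· < t)).card = n}

theorem pi_Q_open (T : Finset ℝ) (n : ℕ) : IsOpen (pi_Q T n) := by
  refine isOpen_iff_mem_nhds.2 fun t ht => ?_
  have h : ∀ᶠ v in 𝓝 t, ∀ u ∈ T, (u < v ↔ u < t) ∧ u ≠ v := by
    refine (eventually_all_finset T).2 fun u hu => ?_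
    rcases lt_or_gt_of_ne (fun e : u = t => ht.1 (e ▸ hu)) with e | e
    · filter_upwards [eventually_gt_nhds e] with v hv
      exact ⟨iff_of_true hv e, hv.ne⟩
    · filter_upwards [eventually_lt_nhds e] with v hv
      exact ⟨iff_of_false hv.not_gt e.not_gt, hv.ne'⟩
  filter_upwards [h] with v hv
  exact ⟨fun e => (hv v e).2 rfl, by
    rw [← ht.2]
    exact congrArg _ (Finset.filter_congr fun u hu => (hv u hu).1)⟩

theorem pi_Q_ord (T : Finset ℝ) (n : ℕ) : (pi_Q T n).OrdConnected := by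
  classical
  refine ⟨fun u hu v hv t ht => ?_⟩
  have m : ∀ {a b : ℝ}, a ≤ b → T.filter (· < a) ⊆ T.filter (· < b) := fun e x hx =>
    Finset.mem_filter.2 ⟨(Finset.mem_filter.1 hx).1, (Finset.mem_filter.1 hx).2.trans_le e⟩
  have h1 := Finset.eq_of_subset_of_card_le (m (ht.1.trans ht.2)) (hv.2.trans hu.2.symm).le
  refine ⟨fun e => ?_, le_antisymm (hv.2 ▸ Finset.card_le_card (m ht.2))
    (hu.2 ▸ Finset.card_le_card (m ht.1))⟩
  have h2 : t ∈ T.filter (· < v) :=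
    Finset.mem_filter.2 ⟨e, lt_of_le_of_ne ht.2 fun e' => hv.1 (e' ▸ e)⟩
  rw [← h1] at h2
  exact (Finset.mem_filter.1 h2).2.not_ge ht.1

theorem pi_const {A J : Set ℝ} (hJ : J.OrdConnected) (h : ∀ t ∈ J, t ∉ frontier A) {t t' : ℝ}
    (ht : t ∈ J) (ht' : t' ∈ J) : t ∈ A ↔ t' ∈ A := by
  refine hJ.isPreconnected.induction₂' (fun u v => u ∈ A ↔ v ∈ A) (fun u hu => ?_)
    (fun _ _ _ _ _ _ => Iff.trans) ht ht'
  by_cases e : u ∈ A
  · have h1 : u ∈ interior A := by_contra fun e' => h u hu ⟨subset_closure e, e'⟩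
    filter_upwards [mem_nhdsWithin_of_mem_nhds (mem_interior_iff_mem_nhds.1 h1)] with v hv
    exact ⟨iff_of_true e hv, iff_of_true hv e⟩
  · have h1 : u ∉ closure A := fun e' => h u hu ⟨e', fun e'' => e (interior_subset e'')⟩
    filter_upwards [mem_nhdsWithin_of_mem_nhds (isClosed_closure.isOpen_compl.mem_nhds h1)]
      with v hv
    have h2 : v ∉ A := fun e' => hv (subset_closure e')
    exact ⟨iff_of_false e h2, iff_of_false h2 e⟩

theorem pi_enum [Nonempty E] {β : ℕ} (h : Few Y β) : ∃ (z : Fin β → E) (P : Fin β → Prop),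
    (∀ k, P k → z k ∈ Y) ∧ (∀ y ∈ Y, ∃ k, P k ∧ y ∈ cc Y (z k)) ∧
    ∀ k k' y, P k → P k' → y ∈ cc Y (z k) → y ∈ cc Y (z k') → k = k' := by
  classical
  obtain ⟨z, hz⟩ := h.reps
  refine ⟨z, fun k => z k ∈ Y ∧ ∀ k', z k ∈ cc Y (z k') → k ≤ k', fun k hk => hk.1, fun y hy => ?_,
    fun k k' y a b c e => le_antisymm (a.2 k' (cc_trans e (cc_symm c)))
      (b.2 k (cc_trans c (cc_symm e)))⟩
  obtain ⟨k, hk, hm⟩ := (Finset.univ.filter fun k => y ∈ cc Y (z k)).exists_min_image id (by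
    obtain ⟨k, hk⟩ := hz y hy
    exact ⟨k, Finset.mem_filter.2 ⟨Finset.mem_univ _, hk⟩⟩)
  have h1 := (Finset.mem_filter.1 hk).2
  exact ⟨k, ⟨cc_base h1, fun k' e =>
    hm k' (Finset.mem_filter.2 ⟨Finset.mem_univ _, cc_trans e h1⟩)⟩, h1⟩

theorem pi_abs [T2Space E] [Nonempty E] (hρ : Continuous ρ) (h : pi_Loc ρ Y) {β N : ℕ}
    (hf : Few Y β) {K : Type} (S : Finset K) (hS : S.card ≤ N) (A : K → Set E)
    (hA : ∀ k ∈ S, A k ⊆ Y ∧ Few (A k) β) :
    ∃ (dom : Fin (β * (N * (2 * β) + 1)) → Set ℝ) (s : Fin (β * (N * (2 * β) + 1)) → ℝ → E)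
      (Cut : Finset E), (∀ p, pi_Sec ρ Y (dom p) (s p)) ∧
      (∀ p q, ∀ t ∈ dom p, t ∈ dom q → s p t = s q t → p = q) ∧
      Cut.card ≤ β * (N * (2 * β) + 1) ∧
      (∀ z ∈ Y, z ∈ Cut ∨ ∃ p, ρ z ∈ dom p ∧ s p (ρ z) = z) ∧
      ∀ p, ∀ k ∈ S, ∀ t ∈ dom p, ∀ t' ∈ dom p, (s p t ∈ A k ↔ s p t' ∈ A k) := by
  classical
  obtain ⟨z, P, z1, z2, z3⟩ := pi_enum hf
  have h1 : ∀ k, ∃ J τ, pi_Sec ρ Y J τ ∧ (P k → ∀ y ∈ cc Y (z k), ρ y ∈ J ∧ τ (ρ y) = y) ∧
      ∀ t ∈ J, P k ∧ τ t ∈ cc Y (z k) := fun k => by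
    by_cases e : P k
    · obtain ⟨J, τ, a, b, c⟩ := pi_comp h (z1 k e)
      exact ⟨J, τ, a, fun _ => b, fun t ht => ⟨e, c t ht⟩⟩
    · exact ⟨∅, fun _ => z k, ⟨isOpen_empty, ordConnected_empty, continuousOn_empty _,
        fun _ e => e.elim, fun _ e => e.elim⟩, fun e' => absurd e' e, fun _ e => e.elim⟩
  choose J τ a1 a2 a3 using h1
  have h2 : ∀ k, ∀ a ∈ S, ∃ T : Finset ℝ, T.card ≤ 2 * β ∧
      frontier (ρ '' (A a ∩ cc Y (z k))) ⊆ T := fun k a ha =>
    pi_front ((pi_few_cc (hA a ha).2 (hA a ha).1 _).image hρ.continuousOn)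
  choose! T0 b1 b2 using h2
  have b3 : ∀ k, (S.biUnion (T0 k)).card ≤ N * (2 * β) := fun k =>
    (Finset.card_biUnion_le_card_mul _ _ _ (b1 k)).trans (Nat.mul_le_mul_right _ hS)
  let e : Fin (β * (N * (2 * β) + 1)) ≃ Fin β × Fin (N * (2 * β) + 1) := finProdFinEquiv.symm
  refine ⟨fun p => J (e p).1 ∩ pi_Q (S.biUnion (T0 (e p).1)) (e p).2, fun p => τ (e p).1,
    Finset.univ.biUnion fun k => (S.biUnion (T0 k)).image (τ k), fun p =>
      ⟨(a1 _).isOpen.inter (pi_Q_open _ _), (a1 _).ord.inter (pi_Q_ord _ _),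
        (a1 _).cont.mono inter_subset_left, fun t ht => (a1 _).eq t ht.1,
        fun t ht => (a1 _).mem t ht.1⟩, fun p q t hp hq he => ?_, ?_, fun y hy => ?_,
    fun p a ha t ht t' ht' => ?_⟩
  · have c1 : (e p).1 = (e q).1 := z3 _ _ _ (a3 _ t hp.1).1 (a3 _ t hq.1).1 (a3 _ t hp.1).2
      (by rw [show τ (e p).1 t = τ (e q).1 t from he]; exact (a3 _ t hq.1).2)
    refine e.injective (Prod.ext c1 (Fin.ext ?_))
    rw [← hp.2.2, ← hq.2.2, c1]
  · refine (Finset.card_biUnion_le_card_mul _ _ (N * (2 * β) + 1) fun k _ =>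
      Finset.card_image_le.trans ((b3 k).trans (Nat.le_succ _))).trans ?_
    rw [Finset.card_univ, Fintype.card_fin]
  · obtain ⟨k, c1, c2⟩ := z2 y hy
    obtain ⟨c3, c4⟩ := a2 k c1 y c2
    by_cases c5 : ρ y ∈ S.biUnion (T0 k)
    · exact Or.inl (Finset.mem_biUnion.2 ⟨k, Finset.mem_univ _, Finset.mem_image.2 ⟨_, c5, c4⟩⟩)
    · refine Or.inr ⟨e.symm (k, ⟨((S.biUnion (T0 k)).filter (· < ρ y)).card,
        Nat.lt_succ_of_le ((Finset.card_filter_le _ _).trans (b3 k))⟩), ?_⟩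
      simp only [Equiv.apply_symm_apply]
      exact ⟨⟨c3, c5, rfl⟩, c4⟩
  · have c1 : ∀ u ∈ J (e p).1, τ (e p).1 u ∈ A a ↔ u ∈ ρ '' (A a ∩ cc Y (z (e p).1)) :=
      fun u hu => ⟨fun c => ⟨_, ⟨c, (a3 _ u hu).2⟩, (a1 _).eq u hu⟩, by
        rintro ⟨y, ⟨c2, c3⟩, rfl⟩
        rwa [(a2 _ (a3 _ _ hu).1 y c3).2]⟩
    exact (c1 t ht.1).trans ((pi_const (pi_Q_ord _ _) (fun u hu c => hu.1
      (Finset.mem_biUnion.2 ⟨a, ha, b2 _ a ha c⟩)) ht.2 ht'.2).trans (c1 t' ht'.1).symm)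

end CurK
end

-- merged part: Pool.Agent.Work.MP_8a5de9_co_K.Pieces
section
/-! Pieces and labels (paper 2.4, first four lines). -/

namespace CurK

open MvPolynomial Set Topology Filter FS

section sa

variable {d b : ℕ} {E : Type} [NormedAddCommGroup E] [NormedSpace ℝ E]

/-- The coordinates of `u` are affine functions. -/
def pi_Aff (u : E → Fin d → ℝ) : Prop := ∀ j, (fun x => u x j) ∈ Pf E 1

variable {u v : E → Fin d → ℝ}

theorem pi_deg (p : MvPolynomial (Fin d) ℝ) (j : Fin d) :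
    (pderiv j p).totalDegree ≤ p.totalDegree := by
  conv_lhs => rw [p.as_sum, map_sum]
  refine (totalDegree_finsetSum _ _).trans (Finset.sup_le fun m hm => ?_)
  rw [pderiv_monomial]
  refine (totalDegree_monomial_le _ _).trans (le_trans ?_ (le_totalDegree hm))
  rw [Finsupp.sum_fintype _ _ fun _ => rfl, Finsupp.sum_fintype _ _ fun _ => rfl]
  exact Finset.sum_le_sum fun i _ => Nat.sub_le _ _

theorem pi_ev (hu : pi_Aff u) {p : MvPolynomial (Fin d) ℝ} (hp : p.totalDegree ≤ b) :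
    (fun x => eval (u x) p) ∈ Pf E b := by
  have h := pf_eval hp hu
  rwa [one_mul] at h

theorem pi_gr (hu : pi_Aff u) {p : MvPolynomial (Fin d) ℝ} (hp : p.totalDegree ≤ b) (j : Fin d) :
    (fun x => grad p (u x) j) ∈ Pf E (b + 1) :=
  pf_mono b.le_succ (pi_ev hu ((pi_deg p j).trans hp))

theorem pi_sub (hu : pi_Aff u) (z0 : Fin d → ℝ) (j : Fin d) :
    (fun x => (u x - z0) j) ∈ Pf E (b + 1) :=
  pf_mono (Nat.le_add_left 1 b) (pf_sub (hu j) (pf_const 1 (z0 j)))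

theorem pi_rho (hu : pi_Aff u) (z0 : Fin d → ℝ) : (fun x => rho z0 (u x)) ∈ Pf E (1 * 2) :=
  pf_sum _ fun j _ => pf_pow (pf_sub (hu j) (pf_const 1 (z0 j))) 2

theorem pi_li {O : Type} [Fintype O] (hO : Fintype.card O = d) {D : ℕ} (w : E → O → Fin d → ℝ)
    (hw : ∀ o j, (fun x => w x o j) ∈ Pf E D) : SA (d * D + 1) {x | LinearIndependent ℝ (w x)} := by
  let e : Fin d ≃ O := (Fintype.equivFinOfCardEq hO).symm
  have h := sa_ne (pf_det (M := fun x => Matrix.of fun a j => w x (e a) j) fun a j => hw (e a) j)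
    (pf_const _ 0)
  rw [Fintype.card_fin] at h
  have e1 : {x | LinearIndependent ℝ (w x)} =
      {x | (Matrix.of fun a j => w x (e a) j).det ≠ 0} := by
    ext x
    rw [mem_ofPred_eq, mem_ofPred_eq, ← linearIndependent_equiv e, ← isUnit_iff_ne_zero,
      ← Matrix.isUnit_iff_isUnit_det, ← Matrix.linearIndependent_rows_iff_isUnit]
    rfl
  rwa [e1]

theorem pi_all {κ : Type} {s : Finset κ} {a c : ℕ} (hs : s.card ≤ a) {P : κ → E → Prop}
    (h : ∀ k ∈ s, SA c {x | P k x}) : SA (a * c) {x | ∀ k ∈ s, P k x} :=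
  (sa_all s h).mono (Nat.mul_le_mul_right _ hs)

variable {ι μ : Type} {g : Arr d ι μ}

theorem pi_sa_zero (hu : pi_Aff u) {F : Finset ι} (hF : F.card ≤ d)
    (hb : ∀ i ∈ F, (g i none).totalDegree ≤ b) :
    SA (d * (b + 1)) {x | ∀ i ∈ F, eval (u x) (g i none) = 0} :=
  pi_all hF fun i hi => sa_eq (pi_ev hu (hb i hi)) (pf_const _ 0)

theorem pi_sa_coord (hu : pi_Aff u) (z0 : Fin d → ℝ) {F : Finset ι} (hF : F.card + 2 = d)
    (hb : ∀ i ∈ F, (g i none).totalDegree ≤ b) (j : Fin d) :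
    SA (d * (b + 1) + 1) {x | Coord g z0 F j (u x)} :=
  pi_li (O := F ⊕ Bool) (by simpa using hF) _ fun o k => by
    rcases o with i | _ | _
    exacts [pi_gr hu (hb i i.2) k, pf_const _ _, pi_sub hu z0 k]

theorem pi_sa_lex (hu : pi_Aff u) (hv : pi_Aff v) :
    SA (d * (d * (0 + (1 + 1)) + (1 + 1))) {x | toLex (u x) < toLex (v x)} := by
  have h := sa_ex' fun i : Fin d => (sa_all' fun j : Fin d =>
    (sa_const (E := E) (j < i)).imp (sa_eq (hu j) (hv j))).and (sa_lt (hu i) (hv i))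
  rw [Fintype.card_fin] at h
  exact h

theorem pi_sa_eq (hu : pi_Aff u) (hv : pi_Aff v) : SA (d * (1 + 1)) {x | u x = v x} := by
  have h := sa_all' fun j : Fin d => sa_eq (hu j) (hv j)
  rw [Fintype.card_fin] at h
  simpa only [funext_iff] using h

theorem pi_indep (gp : GenPos g) {γ F : Finset ι} (hF : F ⊆ γ) {z : Fin d → ℝ}
    (hz : z ∈ Rel g γ) : LinearIndependent ℝ fun i : F => grad (g i none) z :=
  (gp z).comp (fun i : F => ⟨(i, none), (hz i (hF i.2)).1, (hz i (hF i.2)).1.1⟩)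
    fun _ _ e => Subtype.ext (congrArg (fun x => x.1.1) e)

theorem pi_reg (gp : GenPos g) {z0 z : Fin d → ℝ} {γ : Finset ι} : z ∈ Reg g z0 γ ↔
    z ∈ Rel g γ ∧ LinearIndependent ℝ fun o : Option γ =>
      Option.casesOn' o (z - z0) fun i : γ => grad (g i none) z := by
  rw [linearIndependent_option']
  exact ⟨fun h => ⟨h.1, pi_indep gp (Finset.Subset.refl _) h.1, h.2⟩, fun h => ⟨h.1, h.2.2⟩⟩

theorem pi_sa_sel {m : ℕ} {g : Arr d ι (Fin m)} (hb : ∀ i l, (g i l).totalDegree ≤ b)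
    (hu : pi_Aff u) (i : ι) : SA (m + b)
      {x | (fun l => SignType.sign (eval (u x) (g i (some l)))) ∈ g.sel i} := by
  classical
  refine ⟨Finset.univ.image fun l x => eval (u x) (g i (some l)), Finset.card_image_le.trans
    (by simp), fun p hp => ?_, fun x hx y e => ?_⟩
  · obtain ⟨l, -, rfl⟩ := Finset.mem_image.1 hp
    exact pf_mono le_add_self (pi_ev hu (hb i _))
  · have h : (fun l => SignType.sign (eval (u y) (g i (some l)))) =
        fun l => SignType.sign (eval (u x) (g i (some l))) :=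
      funext fun l => e _ (Finset.mem_image_of_mem _ (Finset.mem_univ l))
    rwa [mem_ofPred_eq, h]

theorem pi_sa_reg {m : ℕ} {g : Arr d ι (Fin m)} (gp : GenPos g)
    (hb : ∀ i l, (g i l).totalDegree ≤ b) (hu : pi_Aff u) (z0 : Fin d → ℝ) {γ : Finset ι}
    (hγ : γ.card + 1 = d) :
    SA (d * (b + 1 + (m + b) + m * (b + 1)) + (d * (b + 1) + 1)) {x | u x ∈ Reg g z0 γ} := by
  simp only [pi_reg gp]
  refine (pi_all (s := γ) (by omega) fun i _ => ((sa_eq (pi_ev hu (hb i none)) (pf_const _ 0)).and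
    (pi_sa_sel hb hu i)).and ?_).and (pi_li (O := Option γ) (by simpa using hγ) _ fun o k => ?_)
  · have h := sa_all' fun l : Fin m => sa_ne (pi_ev hu (hb i (some l))) (pf_const _ 0)
    rwa [Fintype.card_fin] at h
  · rcases o with _ | i
    exacts [pi_sub hu z0 k, pi_gr hu (hb i none) k]

end sa

variable {d : ℕ} {ι μ : Type}

theorem pi_id : pi_Aff (fun x : Fin d → ℝ => x) := fun j => pf_co j

theorem pi_cont_grad (p : MvPolynomial (Fin d) ℝ) : Continuous (grad p) :=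
  continuous_pi fun _ => MvPolynomial.continuous_eval _

theorem pi_loc [Finite μ] {g : Arr d ι μ} (gp : GenPos g)
    (z0 : Fin d → ℝ) {γ : Finset ι} (hγ : γ.card + 1 = d) : pi_Loc (rho z0) (Reg g z0 γ) := by
  intro z hz
  have h1 : ∀ᶠ y in 𝓝 z, ∀ i ∈ γ, ∀ l, SignType.sign (eval y (g i (some l))) =
      SignType.sign (eval z (g i (some l))) ∧ eval y (g i (some l)) ≠ 0 := by
    refine (eventually_all_finset γ).2 fun i hi => eventually_all.2 fun l => ?_
    have c : ContinuousAt (fun y => eval y (g i (some l))) z :=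
      (MvPolynomial.continuous_eval _).continuousAt
    rcases lt_or_gt_of_ne ((hz.1 i hi).2 l) with e | e
    · filter_upwards [c.eventually_lt_const e] with y hy
      exact ⟨by rw [sign_neg hy, sign_neg e], hy.ne⟩
    · filter_upwards [c.eventually_const_lt e] with y hy
      exact ⟨by rw [sign_pos hy, sign_pos e], hy.ne'⟩
  have h2 : ∀ᶠ y in 𝓝 z, LinearIndependent ℝ fun o : Option γ =>
      Option.casesOn' o (y - z0) fun i : γ => grad (g i none) y := by
    refine (isOpen_setOfPred_linearIndependent.preimage (f := fun (y : Fin d → ℝ) (o : Option γ) =>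
      Option.casesOn' o (y - z0) fun i : γ => grad (g i none) y)
      (continuous_pi fun o => ?_)).mem_nhds ((pi_reg gp).1 hz).2
    rcases o with _ | i
    exacts [continuous_id.sub continuous_const, pi_cont_grad _]
  obtain ⟨W, δ, D, a1, a2, a3, -, a5, a6, a7, a8⟩ := push (fun i : γ => g i none) z0 z
    (pi_indep gp (Finset.Subset.refl _) hz.1) hz.2 _ (h1.and h2)
  have e : ∀ {t : ℝ}, t ∈ Ioo (rho z0 z - δ) (rho z0 z + δ) ↔ |t - rho z0 z| < δ := by
    intro t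
    rw [abs_lt, mem_Ioo]
    constructor <;> intro h <;> constructor <;> linarith [h.1, h.2]
  refine ⟨W, Ioo (rho z0 z - δ) (rho z0 z + δ), D z, a1, a2, ⟨isOpen_Ioo, ordConnected_Ioo,
    a6.comp (f := fun t => (z, t)) (by fun_prop) fun t ht => ⟨a2, ht⟩,
    fun t ht => (a7 z a2 t (e.1 ht)).2.1, fun t ht => ?_⟩, fun y hy hy' => ⟨e.2 (a5 y hy).1, ?_⟩⟩
  · obtain ⟨b1, -, b3⟩ := a7 z a2 t (e.1 ht)
    refine (pi_reg gp).2 ⟨fun i hi => ⟨⟨(b3 ⟨i, hi⟩).trans (hz.1 i hi).1.1, ?_⟩,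
      fun l => ((a3 b1).1 i hi l).2⟩, (a3 b1).2⟩
    rw [show (fun l => SignType.sign (eval (D z t) (g i (some l)))) =
      fun l => SignType.sign (eval z (g i (some l))) from funext fun l => ((a3 b1).1 i hi l).1]
    exact (hz.1 i hi).1.2
  · obtain ⟨b1, b2, b3⟩ := a7 z a2 _ (a5 y hy).1
    exact a8 (by simpa using hγ) _ b1 y hy b2 fun k =>
      ((b3 k).trans (hz.1 k k.2).1.1).trans (hy'.1 k k.2).1.1.symm

theorem pi_iso (g : Arr d ι μ) (z0 : Fin d → ℝ) {F : Finset ι}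
    (hF : F.card + 2 = d) {j : Fin d} {y : Fin d → ℝ} (h : Coord g z0 F j y) :
    ∀ᶠ w in 𝓝 y, (∀ i ∈ F, eval w (g i none) = eval y (g i none)) → rho z0 w = rho z0 y →
      w j = y j → w = y := by
  let e : Option F → F ⊕ Bool := fun o => o.elim (Sum.inr false) Sum.inl
  have he : Function.Injective e := by
    rintro (_ | a) (_ | b) h <;> simp_all [e]
  have h1 : (fun o : Option F => grad (o.elim (X j) fun i => g i none) y) =
      (fun o : F ⊕ Bool => Sum.elim (fun i : F => grad (g i none) y)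
        (fun b => cond b (y - z0) (Pi.single j 1)) o) ∘ e := by
    funext o
    rcases o with _ | i
    · funext k
      by_cases hk : k = j <;> simp [e, grad, pderiv_X, hk]
    · rfl
  have h2 := LinearIndependent.notMem_span_image h (s := range e) (x := Sum.inr true) (by
    rintro ⟨_ | a, ha⟩ <;> simp [e] at ha)
  rw [← range_comp, ← h1] at h2
  obtain ⟨W, δ, D, a1, a2, -, -, -, -, -, a8⟩ :=
    push (fun o : Option F => o.elim (X j) fun i => g i none) z0 y
      (h1 ▸ LinearIndependent.comp h e he) h2 univ univ_mem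
  filter_upwards [a1.mem_nhds a2] with w hw b1 b2 b3
  refine a8 (by simpa using hF) w hw y a2 b2 ?_
  rintro (_ | i)
  · simpa using b3
  · exact b1 i i.2

theorem pi_fib (d b : ℕ) : ∃ B : ℕ, ∀ {ι μ : Type} (g : Arr d ι μ)
    (z0 : Fin d → ℝ) (F : Finset ι), F.card + 2 = d → (∀ i ∈ F, (g i none).totalDegree ≤ b) →
    ∀ (j : Fin d) (z : Fin d → ℝ), {y | (∀ i ∈ F, eval y (g i none) = 0) ∧ rho z0 y = rho z0 z ∧
      y j = z j ∧ Coord g z0 F j y}.encard ≤ B := by
  refine ⟨_, fun g z0 F hF hb j z => (((pi_sa_zero pi_id (by omega) hb).and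
    ((sa_eq (pi_rho pi_id z0) (pf_const _ (rho z0 z))).and
      (sa_eq (pf_co j) (pf_const _ (z j))))).few (N := d) (by simp)).isolated_encard
    fun y hy => ⟨⟨hy.1, hy.2.1, hy.2.2.1⟩, ?_⟩⟩
  filter_upwards [pi_iso g z0 hF hy.2.2.2] with w hw h
  exact hw (fun i hi => (h.1 i hi).trans (hy.1 i hi).symm) (h.2.1.trans hy.2.1.symm)
    (h.2.2.trans hy.2.2.1.symm)

theorem pi_le_ncard {α : Type} [Nonempty α] {S : Set α} (hS : S.Finite) {B r : ℕ} (hr : r ≤ B) :
    r ≤ S.ncard ↔ ∃ y : Fin B → α, ∀ i : Fin B, i.1 < r →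
      y i ∈ S ∧ ∀ i' : Fin B, i'.1 < r → y i = y i' → i = i' := by
  constructor
  · intro h
    have e := hS.toFinset.equivFin.symm
    rw [ncard_eq_toFinset_card S hS] at h
    refine ⟨fun i => if hi : i.1 < r then (e ⟨i.1, hi.trans_le h⟩).1 else Classical.ofNonempty,
      fun i hi => ⟨?_, fun i' hi' => ?_⟩⟩
    · simp only [dif_pos hi]
      exact hS.mem_toFinset.1 (e _).2
    · simp only [dif_pos hi, dif_pos hi']
      exact fun e' => Fin.ext (Fin.mk.inj (e.injective (Subtype.ext e')))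
  · rintro ⟨y, hy⟩
    have h := ncard_le_ncard_of_injOn (s := (univ : Set (Fin r))) (fun i => y (Fin.castLE hr i))
      (fun i _ => (hy _ i.2).1)
      (fun i _ i' _ e => Fin.castLE_injective hr ((hy _ i.2).2 _ i'.2 e)) hS
    simpa using h

theorem pi_rk (d m b : ℕ) : ∃ B β : ℕ, ∀ {ι : Type}
    (g : Arr d ι (Fin m)), (∀ i l, (g i l).totalDegree ≤ b) →
    GenPos g → ∀ (z0 : Fin d → ℝ) (γ F : Finset ι), γ.card + 1 = d → F.card + 2 = d →
    ∀ j : Fin d, (∀ z, rk g z0 F j z ≤ B) ∧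
      ∀ r ≤ B, Few {z | z ∈ Reg g z0 γ ∧ r ≤ rk g z0 F j z} β := by
  obtain ⟨B, hB⟩ := pi_fib d b
  have u1 : pi_Aff fun x : (Fin d → ℝ) × (Fin B → Fin d → ℝ) => x.1 := fun j => pf_fst (pf_co j)
  have u2 : ∀ i, pi_Aff fun x : (Fin d → ℝ) × (Fin B → Fin d → ℝ) => x.2 i :=
    fun i j => pf_snd (pf_proj i (pf_co j))
  have key : ∃ c : ℕ, ∀ {ι : Type}
      (g : Arr d ι (Fin m)), (∀ i l, (g i l).totalDegree ≤ b) →
      GenPos g → ∀ (z0 : Fin d → ℝ) (γ F : Finset ι), γ.card + 1 = d → F.card + 2 = d →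
      ∀ (j : Fin d) (r : ℕ), SA c {x : (Fin d → ℝ) × (Fin B → Fin d → ℝ) | x.1 ∈ Reg g z0 γ ∧
        ∀ i : Fin B, i.1 < r → ((∀ k ∈ F, eval (x.2 i) (g k none) = 0) ∧
          rho z0 (x.2 i) = rho z0 x.1 ∧ x.2 i j = x.1 j ∧ Coord g z0 F j (x.2 i) ∧
          toLex (x.2 i) < toLex x.1) ∧ ∀ i' : Fin B, i'.1 < r → x.2 i = x.2 i' → i = i'} :=
    ⟨_, fun g hb gp z0 γ F hγ hF j r => (pi_sa_reg gp hb u1 z0 hγ).and (sa_all' fun i =>
      (sa_const _).imp (((pi_sa_zero (u2 i) (by omega) fun k _ => hb k none).and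
        ((sa_eq (pi_rho (u2 i) z0) (pi_rho u1 z0)).and ((sa_eq (u2 i j) (u1 j)).and
          ((pi_sa_coord (u2 i) z0 hF (fun k _ => hb k none) j).and (pi_sa_lex (u2 i) u1))))).and
        (sa_all' fun i' => (sa_const _).imp ((pi_sa_eq (u2 i) (u2 i')).imp (sa_const _)))))⟩
  obtain ⟨c, hc⟩ := key
  refine ⟨B, beta (Module.finrank ℝ ((Fin d → ℝ) × (Fin B → Fin d → ℝ))) c,
    fun g hb gp z0 γ F hγ hF j => ?_⟩
  have h1 : ∀ z, {y | (∀ i ∈ F, eval y (g i none) = 0) ∧ rho z0 y = rho z0 z ∧ y j = z j ∧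
      Coord g z0 F j y ∧ toLex y < toLex z}.encard ≤ B := fun z =>
    le_trans (encard_le_encard (by exact fun y hy => ⟨hy.1, hy.2.1, hy.2.2.1, hy.2.2.2.1⟩))
      (hB g z0 F hF (fun k _ => hb k none) j z)
  refine ⟨fun z => ?_, fun r hr => ?_⟩
  · have h2 := h1 z
    rw [← (finite_of_encard_le_coe h2).cast_ncard_eq] at h2
    exact_mod_cast h2
  · have h2 := ((hc g hb gp z0 γ F hγ hF j r).few le_rfl).image continuous_fst.continuousOn
    refine (congrArg (fun X => Few X _) (Set.ext fun z => ?_)).mp h2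
    rw [mem_ofPred_eq, rk, pi_le_ncard (finite_of_encard_le_coe (h1 z)) hr]
    exact ⟨by rintro ⟨x, hx, rfl⟩; exact ⟨hx.1, x.2, hx.2⟩, fun ⟨a, y, hy⟩ => ⟨(z, y), ⟨a, hy⟩, rfl⟩⟩

theorem exists_pieces (d m b : ℕ) : ∃ β : ℕ, ∀ {ι : Type} [DecidableEq ι]
    (g : Arr d ι (Fin m)), (∀ i l, (g i l).totalDegree ≤ b) →
    GenPos g → ∀ z0 (γ : Finset ι), γ.card + 1 = d →
    ∃ dom s Cut, Pieces g z0 γ β dom s Cut := by
  obtain ⟨B, β, h⟩ := pi_rk d m b
  obtain ⟨c, hc⟩ : ∃ c, c = d * (b + 1 + (m + b) + m * (b + 1)) + (d * (b + 1) + 1) := ⟨_, rfl⟩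
  obtain ⟨β', hβ⟩ : ∃ β', β' = β + beta d (c + (d * (b + 1) + 1)) := ⟨_, rfl⟩
  refine ⟨β' * (2 ^ d * (d * (B + 1 + 1)) * (2 * β') + 1), fun {ι} _ g hb gp z0 γ hγ => ?_⟩
  have h1 : SA c (Reg g z0 γ) := hc ▸ pi_sa_reg gp hb pi_id z0 hγ
  obtain ⟨dom, s, Cut, a1, a2, a3, a4, a5⟩ := pi_abs (β := β') (N := 2 ^ d * (d * (B + 1 + 1)))
    (pf_cont (pi_rho pi_id z0)) (pi_loc gp z0 hγ)
    (((h1.mono le_self_add).few (N := d) (by simp)).mono (hβ ▸ le_add_self))
    ((γ.powerset.filter fun F => F.card + 2 = d) ×ˢ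
      (Finset.univ : Finset (Fin d × Option (Fin (B + 1))))) (by
        rw [Finset.card_product]
        refine Nat.mul_le_mul ((Finset.card_filter_le _ _).trans ?_) (by simp)
        rw [Finset.card_powerset]
        exact Nat.pow_le_pow_right (by norm_num) (by omega))
    (fun k => {z | z ∈ Reg g z0 γ ∧
      k.2.2.elim (Coord g z0 k.1 k.2.1 z) fun r => r.1 ≤ rk g z0 k.1 k.2.1 z}) (by
        rintro ⟨F, j, o⟩ hk
        have hF := (Finset.mem_filter.1 (Finset.mem_product.1 hk).1).2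
        refine ⟨fun z hz => hz.1, ?_⟩
        rcases o with _ | r
        · exact ((h1.and (pi_sa_coord pi_id z0 hF (fun k _ => hb k none) j)).few (N := d)
            (by simp)).mono (hβ ▸ le_add_self)
        · exact ((h g hb gp z0 γ F hγ hF j).2 r (Nat.lt_succ_iff.1 r.2)).mono
            (hβ ▸ le_self_add))
  refine ⟨dom, s, Cut, fun p => (a1 p).isOpen, fun p => (a1 p).ord, fun p => (a1 p).cont,
    fun p => (a1 p).eq, fun p => (a1 p).mem, a2, a3, a4, fun p F j hF hF' => ?_⟩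
  have hF2 : F.card + 2 = d := by omega
  have b1 : ∀ o, ∀ t ∈ dom p, ∀ t' ∈ dom p, _ := fun o => a5 p (F, j, o) (Finset.mem_product.2
    ⟨Finset.mem_filter.2 ⟨Finset.mem_powerset.2 hF, hF2⟩, Finset.mem_univ _⟩)
  have b2 : ∀ t ∈ dom p, ∀ t' ∈ dom p, rk g z0 F j (s p t) ≤ rk g z0 F j (s p t') :=
    fun t ht t' ht' => ((b1 (some ⟨_, Nat.lt_succ_of_le ((h g hb gp z0 γ F hγ hF2 j).1 (s p t))⟩)
      t ht t' ht').1 ⟨(a1 p).mem t ht, le_rfl⟩).2
  exact fun t ht t' ht' => ⟨⟨fun e => ((b1 none t ht t' ht').1 ⟨(a1 p).mem t ht, e⟩).2,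
    fun e => ((b1 none t ht t' ht').2 ⟨(a1 p).mem t' ht', e⟩).2⟩,
    le_antisymm (b2 t ht t' ht') (b2 t' ht' t ht)⟩

/-- Points with the same label and the same plane coordinates coincide. -/
theorem rk_inj {d : ℕ} {ι μ : Type} (g : Arr d ι μ)
    (z0 : Fin d → ℝ) (F : Finset ι) (hF : F.card + 2 = d) (j : Fin d) {y z : Fin d → ℝ}
    (hy : ∀ i ∈ F, eval y (g i none) = 0) (hz : ∀ i ∈ F, eval z (g i none) = 0)
    (cy : Coord g z0 F j y) (cz : Coord g z0 F j z) (h1 : rho z0 y = rho z0 z) (h2 : y j = z j)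
    (h3 : rk g z0 F j y = rk g z0 F j z) : y = z := by
  obtain ⟨B, hB⟩ := pi_fib d (F.sup fun i => (g i none).totalDegree)
  have key : ∀ y z : Fin d → ℝ, (∀ i ∈ F, eval y (g i none) = 0) → Coord g z0 F j y →
      rho z0 y = rho z0 z → y j = z j → toLex y < toLex z → rk g z0 F j y < rk g z0 F j z := by
    intro y z hy cy h1 h2 h
    refine ncard_lt_ncard ⟨fun w hw => ⟨hw.1, hw.2.1.trans h1, hw.2.2.1.trans h2, hw.2.2.2.1,
      hw.2.2.2.2.trans h⟩, fun e => lt_irrefl _ (e ⟨hy, h1, h2, cy, h⟩).2.2.2.2⟩ ?_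
    exact (finite_of_encard_le_coe (hB g z0 F hF (fun i hi =>
      Finset.le_sup (f := fun i => (g i none).totalDegree) hi) j z)).subset
      fun w hw => ⟨hw.1, hw.2.1, hw.2.2.1, hw.2.2.2.1⟩
  rcases lt_trichotomy (toLex y) (toLex z) with h | h | h
  · exact absurd h3 (key y z hy cy h1 h2 h).ne
  · exact toLex.injective h
  · exact absurd h3 (key z y hz cz h1.symm h2.symm h).ne'

theorem exists_coord {d : ℕ} {ι μ : Type} [DecidableEq ι]
    (g : Arr d ι μ) (gp : GenPos g) (z0 : Fin d → ℝ) {γ F : Finset ι}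
    (hγ : γ.card + 1 = d) (hF : F ⊆ γ) (hc : F.card + 1 = γ.card) {z : Fin d → ℝ}
    (hz : z ∈ Reg g z0 γ) : ∃ j, Coord g z0 F j z := by
  have h1 : LinearIndependent ℝ fun o : Option F =>
      Option.casesOn' o (z - z0) fun i : F => grad (g i none) z :=
    linearIndependent_option'.2 ⟨pi_indep gp hF hz.1, fun e => hz.2 (Submodule.span_mono (by
      rintro _ ⟨i, rfl⟩
      exact ⟨⟨i, hF i.2⟩, rfl⟩) e)⟩
  obtain ⟨j, hj⟩ : ∃ j : Fin d, Pi.single j (1 : ℝ) ∉ Submodule.span ℝ (range fun o : Option F =>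
      Option.casesOn' o (z - z0) fun i : F => grad (g i none) z) := by
    by_contra hn
    push Not at hn
    have h2 := finrank_span_eq_card h1
    have h3 : Submodule.span ℝ (range fun o : Option F =>
        Option.casesOn' o (z - z0) fun i : F => grad (g i none) z) = ⊤ :=
      Submodule.eq_top_iff'.2 fun x => by
        rw [pi_eq_sum_univ' x]
        exact Submodule.sum_mem _ fun j _ => Submodule.smul_mem _ _ (hn j)
    rw [h3] at h2
    simp at h2
    omega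
  refine ⟨j, ?_⟩
  let e : F ⊕ Bool → Option (Option F) :=
    Sum.elim (fun i => some (some i)) fun b => cond b (some none) none
  have he : Function.Injective e := by
    rintro (a | _ | _) (b | _ | _) h <;> simp_all [e]
  have h3 := (linearIndependent_option'.2 ⟨h1, hj⟩).comp e he
  refine (congrArg (fun v : F ⊕ Bool → Fin d → ℝ => LinearIndependent ℝ v)
    (_root_.funext ?_)).mp h3
  rintro (a | _ | _) <;> rfl

end CurK
end

-- merged part: Pool.Agent.Work.MP_8a5de9_co_K.Plane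
section
/-! The plane identity behind the rule (Pl) (paper 2.4, last two lines). -/

namespace CurK

open Classical in
/-- `x` lies below the graph of `f` over `D`, not to the left of `t`. -/
noncomputable def nuP (f : ℝ → ℝ) (D : Set ℝ) (t : ℝ) (x : ℝ × ℝ) : ZMod 2 :=
  if t ≤ x.1 ∧ x.1 ∈ D ∧ x.2 < f x.1 then 1 else 0

open Classical in
/-- `x` comes before `y`: to the left, or above. -/
noncomputable def epP (x y : ℝ × ℝ) : ZMod 2 :=
  if x.1 < y.1 ∨ (x.1 = y.1 ∧ y.2 < x.2) then 1 else 0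

theorem epP_anti {x y : ℝ × ℝ} (h : x ≠ y) : epP x y + epP y x = 1 := by
  unfold epP
  rcases lt_trichotomy x.1 y.1 with h1 | h1 | h1
  · rw [if_pos (Or.inl h1), if_neg (fun h2 => h2.elim (fun h3 => lt_asymm h1 h3)
      (fun h3 => h1.ne h3.1.symm)), add_zero]
  · rcases lt_trichotomy x.2 y.2 with h2 | h2 | h2
    · rw [if_neg (fun h3 => h3.elim (fun h4 => h4.ne h1) (fun h4 => lt_asymm h2 h4.2)),
        if_pos (Or.inr ⟨h1.symm, h2⟩), zero_add]
    · exact absurd (Prod.ext h1 h2) h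
    · rw [if_pos (Or.inr ⟨h1, h2⟩), if_neg (fun h3 => h3.elim (fun h4 => h4.ne h1.symm)
        (fun h4 => lt_asymm h2 h4.2)), add_zero]
  · rw [if_neg (fun h2 => h2.elim (fun h3 => lt_asymm h1 h3) (fun h3 => h1.ne h3.1.symm)),
      if_pos (Or.inl h1), zero_add]

theorem rf_two (x : ZMod 2) : x + x = 0 := by
  revert x; decide

theorem rf_sum (u : Bool → ℝ) (t : ℝ) (Q c : Prop) [∀ a, Decidable (u a ≤ t ∧ Q)]
    [∀ a, Decidable (u a ≤ t ∧ c)]
    (h : t ∈ Set.uIcc (u true) (u false) → (Q ↔ c)) :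
    (∑ a, if u a ≤ t ∧ Q then (1 : ZMod 2) else 0) = ∑ a, if u a ≤ t ∧ c then 1 else 0 := by
  rw [Fintype.sum_bool, Fintype.sum_bool]
  by_cases h1 : u true ≤ t <;> by_cases h2 : u false ≤ t
  · by_cases hQ : Q <;> by_cases hc : c <;>
      simp only [h1, h2, hQ, hc, and_self, and_false, if_true, if_false, rf_two]
  · have := h (Set.mem_uIcc.2 (Or.inl ⟨h1, (not_le.1 h2).le⟩))
    by_cases hc : c <;>
      simp only [h1, h2, hc, this, and_self, and_false, false_and, if_true, if_false]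
  · have := h (Set.mem_uIcc.2 (Or.inr ⟨h2, (not_le.1 h1).le⟩))
    by_cases hc : c <;>
      simp only [h1, h2, hc, this, and_self, and_false, false_and, if_true, if_false]
  · simp only [h1, h2, false_and, if_false]

theorem rf_sign (f g : ℝ → ℝ) (J : Set ℝ) (hJ : J.OrdConnected) (hf : ContinuousOn f J)
    (hg : ContinuousOn g J) (hne : ∀ t ∈ J, f t ≠ g t) :
    (∀ t ∈ J, g t < f t) ∨ ∀ t ∈ J, f t < g t := by
  by_contra hc
  rw [not_or] at hc
  obtain ⟨h1, h2⟩ := hc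
  push Not at h1 h2
  obtain ⟨a, ha, ha'⟩ := h1
  obtain ⟨b, hb, hb'⟩ := h2
  obtain ⟨t, ht, hh⟩ := hJ.isPreconnected.intermediate_value₂ ha hb hf hg ha' hb'
  exact hne t ht hh

theorem plane_id (f g : ℝ → ℝ) (D D' : Set ℝ) (hD : D.OrdConnected) (hD' : D'.OrdConnected)
    (hf : ContinuousOn f D) (hg : ContinuousOn g D') (u z : Bool → ℝ) (hu : ∀ a, u a ∈ D)
    (hz : ∀ a, z a ∈ D')
    (hdis : ∀ t ∈ Set.uIcc (u true) (u false), t ∈ Set.uIcc (z true) (z false) → f t ≠ g t) :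
    ∑ a, ∑ b, (nuP f D (u a) (z b, g (z b)) + nuP g D' (z b) (u a, f (u a)) +
      epP (u a, f (u a)) (z b, g (z b))) = 0 := by
  classical
  have hU : Set.uIcc (u true) (u false) ⊆ D := hD.uIcc_subset (hu true) (hu false)
  have hZ : Set.uIcc (z true) (z false) ⊆ D' := hD'.uIcc_subset (hz true) (hz false)
  have mu : ∀ a, u a ∈ Set.uIcc (u true) (u false) := by
    intro a; cases a
    · exact Set.right_mem_uIcc
    · exact Set.left_mem_uIcc
  have mz : ∀ a, z a ∈ Set.uIcc (z true) (z false) := by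
    intro a; cases a
    · exact Set.right_mem_uIcc
    · exact Set.left_mem_uIcc
  have key := rf_sign f g (Set.uIcc (u true) (u false) ∩ Set.uIcc (z true) (z false))
    (Set.ordConnected_uIcc.inter Set.ordConnected_uIcc)
    (hf.mono fun t ht => hU ht.1) (hg.mono fun t ht => hZ ht.2) fun t ht => hdis t ht.1 ht.2
  simp only [Finset.sum_add_distrib]
  rw [Finset.sum_comm (f := fun a b => nuP f D (u a) (z b, g (z b)))]
  rcases key with k | k
  · have e1 : ∀ b, ∑ a, nuP f D (u a) (z b, g (z b)) =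
        ∑ a, if u a ≤ z b ∧ True then 1 else 0 := fun b => by
      unfold nuP
      exact rf_sum u (z b) (z b ∈ D ∧ g (z b) < f (z b)) _ fun h =>
        ⟨fun _ => trivial, fun _ => ⟨hU h, k _ ⟨h, mz b⟩⟩⟩
    have e2 : ∀ a, ∑ b, nuP g D' (z b) (u a, f (u a)) =
        ∑ b, if z b ≤ u a ∧ False then 1 else 0 := fun a => by
      unfold nuP
      exact rf_sum z (u a) (u a ∈ D' ∧ f (u a) < g (u a)) _ fun h =>
        ⟨fun h' => lt_asymm h'.2 (k _ ⟨mu a, h⟩), False.elim⟩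
    have e3 : ∀ a b, epP (u a, f (u a)) (z b, g (z b)) =
        if u a ≤ z b ∧ True then 1 else 0 := by
      intro a b
      unfold epP
      refine if_congr ⟨fun h => ⟨h.elim le_of_lt fun h' => h'.1.le, trivial⟩, fun h => ?_⟩ rfl rfl
      rcases h.1.eq_or_lt with h' | h'
      · refine Or.inr ⟨h', ?_⟩
        have := k (z b) ⟨h' ▸ mu a, mz b⟩
        rwa [h']
      · exact Or.inl h'
    simp only [e1, e2, e3, and_false, if_false, Finset.sum_const_zero, add_zero]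
    rw [Finset.sum_comm, rf_two]
  · have e1 : ∀ b, ∑ a, nuP f D (u a) (z b, g (z b)) =
        ∑ a, if u a ≤ z b ∧ False then 1 else 0 := fun b => by
      unfold nuP
      exact rf_sum u (z b) (z b ∈ D ∧ g (z b) < f (z b)) _ fun h =>
        ⟨fun h' => lt_asymm h'.2 (k _ ⟨h, mz b⟩), False.elim⟩
    have e2 : ∀ a, ∑ b, nuP g D' (z b) (u a, f (u a)) =
        ∑ b, if z b ≤ u a ∧ True then 1 else 0 := fun a => by
      unfold nuP
      exact rf_sum z (u a) (u a ∈ D' ∧ f (u a) < g (u a)) _ fun h =>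
        ⟨fun _ => trivial, fun _ => ⟨hZ h, k _ ⟨mu a, h⟩⟩⟩
    have e3 : ∀ a b, epP (u a, f (u a)) (z b, g (z b)) =
        (if z b ≤ u a ∧ True then 1 else 0) + 1 := by
      intro a b
      unfold epP
      dsimp only
      by_cases h : z b ≤ u a
      · rw [if_pos (⟨h, trivial⟩ : z b ≤ u a ∧ True), rf_two, if_neg]
        rintro (h' | ⟨h', h''⟩)
        · exact absurd h' (not_lt.2 h)
        · have := k (z b) ⟨h' ▸ mu a, mz b⟩
          rw [h'] at h''
          exact lt_asymm this h''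
      · rw [if_pos (Or.inl (not_le.1 h)), if_neg (fun h' => h h'.1), zero_add]
    simp only [e1, e2, e3, and_false, if_false, Finset.sum_const_zero, zero_add,
      Finset.sum_add_distrib]
    rw [← add_assoc, rf_two, zero_add]
    decide

end CurK
end

-- merged part: Pool.Agent.Work.MP_8a5de9_co_K.Local
section
/-! Slide and Link in geometric form (paper 2.4), vertices. -/

namespace CurK

open MvPolynomial Topology

variable {d : ℕ} {ι μ : Type} [Fintype ι] [DecidableEq ι] [Finite μ]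
  {g : Arr d ι μ}

set_option linter.unusedSectionVars false

/-- Nonzero signs are locally constant. -/
theorem lo_sign (i : ι) (z : Fin d → ℝ) : ∀ᶠ y in 𝓝 z, ∀ o, eval z (g i o) ≠ 0 →
    SignType.sign (eval y (g i o)) = SignType.sign (eval z (g i o)) := by
  refine Filter.eventually_all.2 fun o => ?_
  have hc : ContinuousAt (fun y => eval y (g i o)) z := (continuous_eval _).continuousAt
  rcases lt_trichotomy (eval z (g i o)) 0 with h | h | h
  · filter_upwards [hc.eventually_lt continuousAt_const h] with y hy _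
    rw [sign_neg hy, sign_neg h]
  · exact Filter.Eventually.of_forall fun y hy => absurd h hy
  · filter_upwards [continuousAt_const.eventually_lt hc h] with y hy _
    rw [sign_pos hy, sign_pos h]

theorem lo_of_sign {i : ι} {x y : Fin d → ℝ}
    (h : ∀ o, SignType.sign (eval x (g i o)) = SignType.sign (eval y (g i o))) :
    (x ∈ patch g i ↔ y ∈ patch g i) ∧ ∀ o, (eval x (g i o) = 0 ↔ eval y (g i o) = 0) := by
  have h0 : ∀ o, (eval x (g i o) = 0 ↔ eval y (g i o) = 0) := fun o => by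
    rw [← sign_eq_zero_iff, h o, sign_eq_zero_iff]
  have e : (fun l => SignType.sign (eval x (g i (some l)))) =
      fun l => SignType.sign (eval y (g i (some l))) := funext fun l => h (some l)
  refine ⟨and_congr (h0 none) ?_, h0⟩
  rw [e]

theorem isClosed_patch (i : ι) : IsClosed (patch g i) := g.closed i

/-- Near `z`, membership in a patch through `z` depends only on the signs of the constraints that
vanish at `z`. -/
theorem patch_local (i : ι) (z : Fin d → ℝ) : ∀ᶠ x in 𝓝 z ×ˢ 𝓝 z,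
    (∀ o, eval z (g i o) = 0 → SignType.sign (eval x.1 (g i o)) = SignType.sign (eval x.2 (g i o))) →
      (x.1 ∈ patch g i ↔ x.2 ∈ patch g i) ∧
        ∀ l, (eval x.1 (g i (some l)) = 0 ↔ eval x.2 (g i (some l)) = 0) := by
  filter_upwards [(lo_sign (g := g) i z).prod_mk (lo_sign (g := g) i z)] with x hx h
  have k := lo_of_sign (g := g) (i := i) (x := x.1) (y := x.2) fun o => by
    by_cases e : eval z (g i o) = 0
    · exact h o e
    · exact (hx.1 o e).trans (hx.2 o e).symm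
  exact ⟨k.1, fun l => k.2 (some l)⟩

/-- Near a point of the relative interior the patch is the hypersurface. -/
theorem rel_local {γ : Finset ι} {z : Fin d → ℝ} (hz : z ∈ Rel g γ) :
    ∀ᶠ y in 𝓝 z, ∀ i ∈ γ, (y ∈ patch g i ↔ eval y (g i none) = 0) ∧
      ∀ l, eval y (g i (some l)) ≠ 0 := by
  filter_upwards [Filter.eventually_all.2 fun i => lo_sign (g := g) i z] with y hy i hi
  refine ⟨⟨fun h => h.1, fun h => (lo_of_sign (g := g) (i := i) (x := y) (y := z) ?_).1.2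
    (hz i hi).1⟩, fun l e => (hz i hi).2 l ?_⟩
  · rintro (_ | l)
    · rw [h, (hz i hi).1.1]
    · exact hy i _ ((hz i hi).2 l)
  · rw [← sign_eq_zero_iff, ← hy i _ ((hz i hi).2 l), sign_eq_zero_iff]
    exact e

theorem lo_mem_on {z : Fin d → ℝ} {i : ι} : i ∈ On g z ↔ z ∈ patch g i := by
  classical
  unfold On
  rw [Finset.mem_filter]
  exact ⟨fun h => h.2, fun h => ⟨Finset.mem_univ _, h⟩⟩

/-- Any injective family of active constraints has independent gradients. -/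
theorem lo_li (gp : GenPos g) (z : Fin d → ℝ) {K : Type} (e : K → ι × Option μ)
    (he : Function.Injective e) (h : ∀ k, z ∈ patch g (e k).1 ∧ eval z (g (e k).1 (e k).2) = 0) :
    LinearIndependent ℝ fun k => grad (g (e k).1 (e k).2) z :=
  (gp z).comp (fun k => ⟨e k, h k⟩) fun _ _ hab => he (congrArg Subtype.val hab)

theorem lo_li_set (gp : GenPos g) {z : Fin d → ℝ} {γ : Finset ι} (h : ∀ i ∈ γ, z ∈ patch g i) :
    LinearIndependent ℝ fun i : γ => grad (g i none) z :=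
  lo_li gp z (fun i : γ => (i.1, none)) (fun _ _ hab => Subtype.ext (congrArg Prod.fst hab))
    fun i => ⟨h i.1 i.2, (h i.1 i.2).1⟩

theorem lo_card_le {K : Type} [Fintype K] {v : K → Fin d → ℝ} (h : LinearIndependent ℝ v) :
    Fintype.card K ≤ d := by
  have := h.fintype_card_le_finrank
  rwa [Module.finrank_fin_fun] at this

theorem on_card_le (gp : GenPos g) (z : Fin d → ℝ) : (On g z).card ≤ d := by
  have := lo_card_le (lo_li_set gp (γ := On g z) fun i hi => lo_mem_on.1 hi)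
  rwa [Fintype.card_coe] at this

theorem lo_span (gp : GenPos g) {z : Fin d → ℝ} (h : (On g z).card = d) :
    Submodule.span ℝ (Set.range fun i : On g z => grad (g i none) z) = ⊤ :=
  (lo_li_set gp (γ := On g z) fun _ hi => lo_mem_on.1 hi).span_eq_top_of_card_eq_finrank'
    (by rw [Fintype.card_coe, Module.finrank_fin_fun, h])

theorem vertex_rel (gp : GenPos g) {z : Fin d → ℝ} (h : (On g z).card = d) :
    z ∈ Rel g (On g z) ∧ ∀ z0, ∃ lam, Mult g z0 z lam := by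
  refine ⟨fun i hi => ⟨lo_mem_on.1 hi, fun l h0 => ?_⟩, fun z0 => ?_⟩
  · have h1 := lo_card_le (lo_li gp z
      (fun o : Option (On g z) => o.elim (i, some l) fun k => (k.1, none)) ?_ ?_)
    · rw [Fintype.card_option, Fintype.card_coe] at h1
      omega
    · rintro (_ | a) (_ | b) hab
      · rfl
      · exact absurd (congrArg Prod.snd hab) (Option.some_ne_none l)
      · exact absurd (congrArg Prod.snd hab).symm (Option.some_ne_none l)
      · exact congrArg some (Subtype.ext (congrArg Prod.fst hab))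
    · rintro (_ | a)
      · exact ⟨lo_mem_on.1 hi, h0⟩
      · exact ⟨lo_mem_on.1 a.2, (lo_mem_on.1 a.2).1⟩
  · have h1 : z - z0 ∈ Submodule.span ℝ (Set.range fun i : On g z => grad (g i none) z) := by
      rw [lo_span gp h]
      exact Submodule.mem_top
    obtain ⟨c, hc⟩ := (Submodule.mem_span_range_iff_exists_fun ℝ).1 h1
    refine ⟨fun i => if hi : i ∈ On g z then c ⟨i, hi⟩ else 0, h, ?_⟩
    rw [← hc, ← Finset.sum_coe_sort (On g z)]
    refine Finset.sum_congr rfl fun i _ => ?_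
    beta_reduce
    rw [dif_pos i.2]

theorem vertex_le {z0 : Fin d → ℝ} {β : ℕ} (gp : GenPos g) (hc : Centre g z0 β) (D : Finset ι)
    (hD : D.card = d) : {z | On g z = D}.Finite ∧ {z | On g z = D}.ncard ≤ β := by
  let e : ι ↪ ι × Option μ := ⟨fun i => (i, none), fun _ _ hab => congrArg Prod.fst hab⟩
  have hs : {z | On g z = D} ⊆ Crit (cons g) z0 (D.map e) := by
    intro z hz
    have hz' : On g z = D := hz
    have h1 : ∀ k ∈ D.map e, z ∈ patch g k.1 ∧ eval z (g k.1 k.2) = 0 := by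
      intro k hk
      obtain ⟨i, hi, rfl⟩ := Finset.mem_map.1 hk
      have := lo_mem_on.1 (hz'.symm ▸ hi : i ∈ On g z)
      exact ⟨this, this.1⟩
    refine ⟨fun k hk => (h1 k hk).2,
      lo_li gp z (fun k : D.map e => k.1) Subtype.val_injective fun k => h1 k.1 k.2, ?_⟩
    have h2 : z - z0 ∈ Submodule.span ℝ (Set.range fun i : On g z => grad (g i none) z) := by
      rw [lo_span gp (hz'.symm ▸ hD)]
      exact Submodule.mem_top
    refine Submodule.span_mono ?_ h2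
    rintro _ ⟨i, rfl⟩
    exact ⟨⟨e i.1, Finset.mem_map_of_mem e (hz' ▸ i.2)⟩, rfl⟩
  exact ⟨(hc _).1.subset hs, (Set.ncard_le_ncard hs (hc _).1).trans (hc _).2⟩

theorem gvis_mono {p : Fin d → ℝ} (hp : ∀ i, p ∉ patch g i) {R R' D σ : Finset ι} (h : R ⊆ R')
    {z : Fin d → ℝ} (hz : GVis g p R' D σ z) : GVis g p R D σ z := by
  have _ := hp
  refine closure_mono (Set.inter_subset_inter_left _ (connectedComponentIn_mono p ?_)) hz
  exact Set.compl_subset_compl.2 (Set.biUnion_subset_biUnion_left h)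

/-- Near a point that lies exactly on the patches `γ` of `R`, visibility does not depend on the
point of the closed orthant. -/
theorem lo_local (gp : GenPos g) (p : Fin d → ℝ) {R γ : Finset ι} {z : Fin d → ℝ}
    (h1 : ∀ i ∈ γ, z ∈ patch g i) (h2 : ∀ w ∈ R, w ∉ γ → z ∉ patch g w)
    (U : Set (Fin d → ℝ)) (hU : U ∈ 𝓝 z) :
    ∃ W, IsOpen W ∧ z ∈ W ∧ W ⊆ U ∧ (∀ y ∈ W, ∀ w ∈ R, w ∉ γ → y ∉ patch g w) ∧
      ∀ σ : Finset ι, IsPreconnected (W ∩ orth g γ σ) ∧ ∀ x ∈ W,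
        (∀ i ∈ γ, (i ∈ σ → 0 ≤ eval x (g i none)) ∧ (i ∉ σ → eval x (g i none) ≤ 0)) →
        x ∈ closure (W ∩ orth g γ σ) ∧ (GVis g p R γ σ x ↔ W ∩ orth g γ σ ⊆ cellR g R p) := by
  have hV : ∀ᶠ y in 𝓝 z, ∀ w, w ∈ R → w ∉ γ → y ∉ patch g w := by
    refine Filter.eventually_all.2 fun w => ?_
    by_cases hw : w ∈ R ∧ w ∉ γ
    · exact Filter.mem_of_superset
        ((isClosed_patch (g := g) w).isOpen_compl.mem_nhds (h2 w hw.1 hw.2)) fun y hy _ _ => hy
    · exact Filter.Eventually.of_forall fun y a b => absurd ⟨a, b⟩ hw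
  obtain ⟨W, hW, hz, hWU, hτ⟩ := chart_sign (fun i : γ => g i none) z (lo_li_set gp h1)
    (fun i => (h1 i.1 i.2).1) _ (Filter.inter_mem hU hV)
  refine ⟨W, hW, hz, fun y hy => (hWU hy).1, fun y hy => (hWU hy).2, fun σ => ?_⟩
  obtain ⟨hc, hcl⟩ := hτ fun i => if i.1 ∈ σ then 1 else -1
  have e : {y ∈ W | ∀ k : γ, SignType.sign (eval y (g k none)) = if k.1 ∈ σ then 1 else -1} =
      W ∩ orth g γ σ := by
    ext y
    refine and_congr_right fun _ => ⟨fun h i hi => ⟨fun hs => ?_, fun hs => ?_⟩, fun h k => ?_⟩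
    · have := h ⟨i, hi⟩
      rw [if_pos hs] at this
      exact sign_eq_one_iff.1 this
    · have := h ⟨i, hi⟩
      rw [if_neg hs] at this
      exact sign_eq_neg_one_iff.1 this
    · by_cases hs : k.1 ∈ σ
      · rw [if_pos hs]
        exact sign_eq_one_iff.2 ((h k.1 k.2).1 hs)
      · rw [if_neg hs]
        exact sign_eq_neg_one_iff.2 ((h k.1 k.2).2 hs)
  rw [e] at hc hcl
  refine ⟨hc, fun x hx hs => ?_⟩
  have hx' : x ∈ closure (W ∩ orth g γ σ) := by
    refine hcl x hx fun k => ?_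
    by_cases hk : k.1 ∈ σ
    · rw [if_pos hk]
      exact ((hs k.1 k.2).1 hk).lt_or_eq.imp sign_eq_one_iff.2 Eq.symm
    · rw [if_neg hk]
      exact ((hs k.1 k.2).2 hk).lt_or_eq.imp sign_eq_neg_one_iff.2 id
  refine ⟨hx', fun hv => ?_, fun hv =>
    closure_mono (Set.subset_inter hv Set.inter_subset_right) hx'⟩
  obtain ⟨y, hy1, hy2, hy3⟩ := mem_closure_iff.1 hv W hW hx
  have hsub : W ∩ orth g γ σ ⊆ (⋃ i ∈ R, patch g i)ᶜ := by
    intro u hu hu'
    obtain ⟨w, hw, huw⟩ := Set.mem_iUnion₂.1 hu'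
    by_cases hwγ : w ∈ γ
    · by_cases hs : w ∈ σ
      · exact ((hu.2 w hwγ).1 hs).ne' huw.1
      · exact ((hu.2 w hwγ).2 hs).ne huw.1
    · exact (hWU hu.1).2 w hw hwγ huw
  unfold cellR at hy2 ⊢
  rw [connectedComponentIn_eq hy2]
  exact hc.subset_connectedComponentIn ⟨hy1, hy3⟩ hsub

theorem slide_geo (gp : GenPos g) (p : Fin d → ℝ) {R γ : Finset ι} (σ : Finset ι) (hγ : γ ⊆ R)
    {X : Set (Fin d → ℝ)} (hX : IsPreconnected X) (h1 : X ⊆ Rel g γ)
    (h2 : ∀ z ∈ X, ∀ w ∈ R, w ∉ γ → z ∉ patch g w) {x y : Fin d → ℝ} (hx : x ∈ X) (hy : y ∈ X)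
    (h : GVis g p R γ σ x) : GVis g p R γ σ y := by
  have _ := hγ
  have key := hX.induction₂ (fun a b => GVis g p R γ σ a ↔ GVis g p R γ σ b) ?_
    (fun _ _ _ _ _ _ a b => a.trans b) (fun _ _ _ _ a => a.symm) hx hy
  · exact key.1 h
  intro z hz
  obtain ⟨W, hW, hzW, -, -, hσ⟩ := lo_local gp p (R := R) (γ := γ) (z := z)
    (fun i hi => (h1 hz i hi).1) (h2 z hz) _ Filter.univ_mem
  have k : ∀ u ∈ W, u ∈ X → (GVis g p R γ σ u ↔ W ∩ orth g γ σ ⊆ cellR g R p) := fun u hu huX =>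
    ((hσ σ).2 u hu fun i hi => ⟨fun _ => (h1 huX i hi).1.1.ge, fun _ => (h1 huX i hi).1.1.le⟩).2
  filter_upwards [mem_nhdsWithin_of_mem_nhds (hW.mem_nhds hzW), self_mem_nhdsWithin] with u hu huX
  exact (k z hzW hz).trans (k u hu huX).symm

/-- A surface that does not pass through the point can be dropped. -/
theorem lo_erase (p : Fin d → ℝ) {R D σ : Finset ι} {i : ι} {x : Fin d → ℝ}
    (h : (i ∈ σ → 0 < eval x (g i none)) ∧ (i ∉ σ → eval x (g i none) < 0)) :
    GVis g p R (D.erase i) (σ.erase i) x ↔ GVis g p R D σ x := by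
  have a : ∀ k ∈ D.erase i, (k ∈ σ.erase i ↔ k ∈ σ) := fun k hk =>
    ⟨Finset.mem_of_mem_erase, fun hs => Finset.mem_erase.2 ⟨Finset.ne_of_mem_erase hk, hs⟩⟩
  refine ⟨fun hv => ?_, fun hv =>
    closure_mono (Set.inter_subset_inter_right _ fun y hy k hk => ?_) hv⟩
  · have hO : IsOpen {y : Fin d → ℝ |
        (i ∈ σ → 0 < eval y (g i none)) ∧ (i ∉ σ → eval y (g i none) < 0)} := by
      by_cases hs : i ∈ σ
      · simp only [hs, true_imp_iff, not_true, false_imp_iff, and_true]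
        exact isOpen_lt continuous_const (continuous_eval _)
      · simp only [hs, true_imp_iff, not_false_iff, false_imp_iff, true_and]
        exact isOpen_lt (continuous_eval _) continuous_const
    refine closure_mono (fun y hy => ?_) (hO.inter_closure ⟨h, hv⟩)
    refine ⟨hy.2.1, fun k hk => ?_⟩
    by_cases hki : k = i
    · rw [hki]
      exact hy.1
    · have hk' := Finset.mem_erase.2 ⟨hki, hk⟩
      rw [← a k hk']
      exact hy.2.2 k hk'
  · rw [a k hk]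
    exact hy k (Finset.mem_of_mem_erase hk)

theorem link_geo (gp : GenPos g) (p z0 : Fin d → ℝ) {z : Fin d → ℝ} {lam : ι → ℝ}
    (hm : Mult g z0 z lam) {R σ : Finset ι} (hR : On g z ⊆ R) (hσ : σ ⊆ On g z) {i : ι}
    (hi : i ∈ On g z) {s : ℝ → Fin d → ℝ} (hs : ContinuousAt s (rho z0 z)) (h0 : s (rho z0 z) = z)
    (h1 : ∀ᶠ t in 𝓝 (rho z0 z), rho z0 (s t) = t ∧ s t ∈ Reg g z0 ((On g z).erase i)) :
    lam i ≠ 0 ∧
    ((i ∈ σ ↔ 0 < lam i) → ∀ᶠ t in 𝓝[>] (rho z0 z),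
      (GVis g p R ((On g z).erase i) (σ.erase i) (s t) ↔ GVis g p R (On g z) σ z)) ∧
    (¬ (i ∈ σ ↔ 0 < lam i) → ∀ᶠ t in 𝓝[<] (rho z0 z),
      (GVis g p R ((On g z).erase i) (σ.erase i) (s t) ↔ GVis g p R (On g z) σ z)) := by
  have _ := hR
  have _ := hσ
  have hz : z - z0 = lam i • grad (g i none) z +
      ∑ k : (On g z).erase i, lam k • grad (g k none) z := by
    rw [Finset.sum_coe_sort ((On g z).erase i) fun k => lam k • grad (g k none) z,
      Finset.add_sum_erase (On g z) (fun k => lam k • grad (g k none) z) hi]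
    exact hm.2
  have hl : lam i ≠ 0 := by
    intro e
    have h2 := h1.self_of_nhds.2.2
    rw [h0, hz, e, zero_smul, zero_add] at h2
    exact h2 (Submodule.sum_mem _ fun k _ =>
      Submodule.smul_mem _ _ (Submodule.subset_span ⟨k, rfl⟩))
  obtain ⟨W, hW, hzW, -, -, hloc⟩ := lo_local gp p (R := R) (γ := On g z) (z := z)
    (fun k hk => lo_mem_on.1 hk) (fun w _ hw h => hw (lo_mem_on.2 h)) _ Filter.univ_mem
  have hli : LinearIndependent ℝ fun o : Option ((On g z).erase i) =>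
      grad (o.elim (g i none) fun k => g k none) z := by
    have h2 := lo_li gp z (fun o : Option ((On g z).erase i) => (o.elim i fun k => k.1, none)) ?_ ?_
    · have e : (fun o : Option ((On g z).erase i) =>
          grad (o.elim (g i none) fun k => g k none) z) =
          fun o : Option ((On g z).erase i) => grad (g (o.elim i fun k => k.1) none) z := by
        funext o
        cases o <;> rfl
      rw [e]
      exact h2
    · rintro (_ | a) (_ | b) hab
      · rfl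
      · exact absurd (congrArg Prod.fst hab).symm (Finset.ne_of_mem_erase b.2)
      · exact absurd (congrArg Prod.fst hab) (Finset.ne_of_mem_erase a.2)
      · exact congrArg some (Subtype.ext (congrArg Prod.fst hab))
    · rintro (_ | a)
      · exact ⟨lo_mem_on.1 hi, (lo_mem_on.1 hi).1⟩
      · have := lo_mem_on.1 (Finset.mem_of_mem_erase a.2)
        exact ⟨this, this.1⟩
  obtain ⟨W', δ, D, hW', hzW', hWW, hδ, a1, -, a3, a4, a5⟩ :=
    push_vertex (fun k : (On g z).erase i => g k none) (g i none) z0 z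
      (by rw [Fintype.card_coe, Finset.card_erase_add_one hi, hm.1]) hli (fun k => lam k) (lam i)
      hl hz W (hW.mem_nhds hzW)
  have t0 : rho z0 z ∈ Set.Ioo (rho z0 z - δ) (rho z0 z + δ) :=
    ⟨sub_lt_self _ hδ, lt_add_of_pos_right _ hδ⟩
  have v0 : lam i * eval (D z (rho z0 z)) (g i none) = 0 := by
    rw [(a1 z hzW').2, (lo_mem_on.1 hi).1, mul_zero]
  have hzv := ((hloc σ).2 z hzW fun k hk =>
    ⟨fun _ => (lo_mem_on.1 hk).1.ge, fun _ => (lo_mem_on.1 hk).1.le⟩).2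
  have main : ∀ᶠ t in 𝓝 (rho z0 z),
      (rho z0 z < t → 0 < lam i * eval (s t) (g i none)) ∧
      (t < rho z0 z → lam i * eval (s t) (g i none) < 0) ∧
      (((i ∈ σ → 0 < eval (s t) (g i none)) ∧ (i ∉ σ → eval (s t) (g i none) < 0)) →
        (GVis g p R ((On g z).erase i) (σ.erase i) (s t) ↔ GVis g p R (On g z) σ z)) := by
    filter_upwards [h1, hs.eventually_mem (h0.symm ▸ hW'.mem_nhds hzW'),
      isOpen_Ioo.mem_nhds t0] with t ht htW htI
    have hab : |t - rho z0 z| < δ := abs_lt.2 ⟨by linarith [htI.1], by linarith [htI.2]⟩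
    obtain ⟨b1, b2, b3⟩ := a3 z hzW' t hab
    have e : s t = D z t := a4 _ htW _ b1 (ht.1.trans b2.symm) fun k =>
      (ht.2.1 k.1 k.2).1.1.trans
        ((b3 k).trans (lo_mem_on.1 (Finset.mem_of_mem_erase k.2)).1).symm
    refine ⟨fun h => ?_, fun h => ?_, fun h => ?_⟩
    · rw [e, ← v0]
      exact a5 z hzW' t0 htI h
    · rw [e, ← v0]
      exact a5 z hzW' htI t0 h
    · refine (lo_erase p h).trans (Iff.trans ((hloc σ).2 _ (hWW htW) fun k hk => ?_).2 hzv.symm)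
      by_cases hki : k = i
      · rw [hki]
        exact ⟨fun a => (h.1 a).le, fun a => (h.2 a).le⟩
      · have := (ht.2.1 k (Finset.mem_erase.2 ⟨hki, hk⟩)).1.1
        exact ⟨fun _ => this.ge, fun _ => this.le⟩
  refine ⟨hl, fun hc => ?_, fun hc => ?_⟩
  · filter_upwards [mem_nhdsWithin_of_mem_nhds main, self_mem_nhdsWithin] with t ht htt
    have k := ht.1 htt
    refine ht.2.2 ⟨fun a => (pos_iff_pos_of_mul_pos k).1 (hc.1 a), fun a => ?_⟩
    exact (neg_iff_neg_of_mul_pos k).1 (lt_of_le_of_ne (not_lt.1 fun b => a (hc.2 b)) hl)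
  · filter_upwards [mem_nhdsWithin_of_mem_nhds main, self_mem_nhdsWithin] with t ht htt
    have k := ht.2.1 htt
    refine ht.2.2 ⟨fun a => ?_, fun a => ?_⟩
    · exact (neg_iff_pos_of_mul_neg k).1
        (lt_of_le_of_ne (not_lt.1 fun b => hc ⟨fun _ => b, fun _ => a⟩) hl)
    · exact (pos_iff_neg_of_mul_neg k).1
        (by_contra fun b => hc ⟨fun c => absurd c a, fun c => absurd c b⟩)

end CurK
end

-- merged part: Pool.Agent.Work.MP_8a5de9_co_K.MinT
section
/-! The elder rule for sublevel sets of an open set (paper 2.5, topological half). -/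

namespace CurK

open Set Filter Topology FS

variable {E : Type} [NormedAddCommGroup E] [NormedSpace ℝ E] {O : Set E} {ρ : E → ℝ}

/-- The part of `O` below the level `t`. -/
def mi_low (O : Set E) (ρ : E → ℝ) (t : ℝ) : Set E := O ∩ {y | ρ y < t}

/-- The points of `Q` can be moved down inside `O`. -/
def mi_Push (O : Set E) (ρ : E → ℝ) (t : ℝ) (W Q : Set E) : Prop :=
  ∃ (δ : ℝ) (D : E → ℝ → E), 0 < δ ∧ (∀ y ∈ W, |ρ y - t| < δ ∧ D y (ρ y) = y) ∧
    ContinuousOn (fun x : E × ℝ => D x.1 x.2) (W ×ˢ Ioo (t - δ) (t + δ)) ∧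
    (∀ y ∈ W, ∀ s, |s - t| < δ → ρ (D y s) = s) ∧
    ∀ y ∈ Q, ∀ s, t - δ < s → s ≤ ρ y → D y s ∈ O

/-- No two components of the lower part merge at `z`. -/
def mi_Gd (O : Set E) (ρ : E → ℝ) (z : E) : Prop :=
  ∃ (W : Set E) (F : Set (Set E)), IsOpen W ∧ z ∈ W ∧ F.Finite ∧
    (∀ Q ∈ F, IsOpen Q ∧ Q ⊆ W ∩ O ∧ (∀ y ∈ W ∩ O, y ∈ closure Q → y ∈ Q) ∧
      mi_Push O ρ (ρ z) W Q) ∧ ∀ y ∈ W ∩ O, ρ y < ρ z → ∃ Q ∈ F, y ∈ Q

/-- The local data with respect to one component `U`. -/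
def mi_Loc (O : Set E) (ρ : E → ℝ) (t : ℝ) (U W Q B : Set E) : Prop :=
  IsOpen B ∧ B ⊆ Q ∧ (∀ y ∈ Q, y ∈ closure B → y ∈ B) ∧ (∀ y ∈ Q, ρ y < t → (y ∈ B ↔ y ∈ U)) ∧
    ∀ x ∈ W, ρ x = t → ∀ V ∈ 𝓝 x, ∀ᶠ y in 𝓝 x, y ∈ B →
      ∃ S, IsPreconnected S ∧ S ⊆ V ∩ O ∧ y ∈ S ∧ (S ∩ U).Nonempty

omit [NormedSpace ℝ E] in
theorem mi_low_open (hO : IsOpen O) (hρ : Continuous ρ) (t : ℝ) : IsOpen (mi_low O ρ t) :=
  hO.inter (isOpen_lt hρ continuous_const)

omit [NormedAddCommGroup E] [NormedSpace ℝ E] in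
theorem mi_low_mono {s t : ℝ} (h : s ≤ t) : mi_low O ρ s ⊆ mi_low O ρ t :=
  fun _ hy => ⟨hy.1, lt_of_lt_of_le hy.2 h⟩

omit [NormedSpace ℝ E] in
theorem mi_cc_closed {G : Set E} {u y : E} (hy : y ∈ G) (h : y ∈ closure (cc G u)) :
    y ∈ cc G u := by
  obtain ⟨a, ha⟩ : (cc G u).Nonempty := closure_nonempty_iff.1 ⟨y, h⟩
  have hu : u ∈ G := cc_base ha
  refine ((isPreconnected_connectedComponentIn (x := u) (F := G)).subset_closure
    (t := insert y (cc G u)) (subset_insert _ _)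
    (insert_subset h subset_closure)).subset_connectedComponentIn
    (mem_insert_of_mem _ (mem_connectedComponentIn hu))
    (insert_subset hy (connectedComponentIn_subset _ _)) (mem_insert _ _)

omit [NormedSpace ℝ E] in
theorem mi_cc_of {G S : Set E} {u a y : E} (hS : IsPreconnected S) (h : S ⊆ G) (ha : a ∈ S)
    (hu : a ∈ cc G u) (hy : y ∈ S) : y ∈ cc G u :=
  cc_trans hu (hS.subset_connectedComponentIn ha h hy)

theorem mi_cpt {G : Set E} (hG : IsOpen G) (hρ : Continuous ρ) {x y : E} (h : y ∈ cc G x) :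
    ∃ a ∈ G, ∀ t, ρ a < t → y ∈ cc (mi_low G ρ t) x := by
  have hx := mem_connectedComponentIn (cc_base h)
  have h1 : IsPathConnected (cc G x) :=
    (hG.connectedComponentIn.isConnected_iff_isPathConnected).1
      ⟨⟨x, hx⟩, isPreconnected_connectedComponentIn⟩
  obtain ⟨γ, hγ⟩ := h1.joinedIn x hx y h
  obtain ⟨a, ⟨τ, rfl⟩, ha⟩ := (isCompact_range γ.continuous).exists_isMaxOn
    ⟨x, γ.source_mem_range⟩ hρ.continuousOn
  refine ⟨γ τ, connectedComponentIn_subset _ _ (hγ τ), fun t ht => ?_⟩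
  have h2 : range γ ⊆ mi_low G ρ t := fun w hw => by
    refine ⟨?_, lt_of_le_of_lt (ha hw) ht⟩
    obtain ⟨σ, rfl⟩ := hw
    exact connectedComponentIn_subset _ _ (hγ σ)
  exact (isPreconnected_range γ.continuous).subset_connectedComponentIn γ.source_mem_range h2
    γ.target_mem_range

theorem mi_below (hO : IsOpen O) (hρ : Continuous ρ) {t : ℝ} {x y : E}
    (h : y ∈ cc (mi_low O ρ t) x) : ∃ s < t, y ∈ cc (mi_low O ρ s) x := by
  obtain ⟨a, ha, h1⟩ := mi_cpt (mi_low_open hO hρ t) hρ h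
  obtain ⟨s, h2, h3⟩ := exists_between (show ρ a < t from ha.2)
  have h4 : mi_low (mi_low O ρ t) ρ s ⊆ mi_low O ρ s := fun w hw => ⟨hw.1.1, hw.2⟩
  exact ⟨s, h3, connectedComponentIn_mono x h4 (h1 s h2)⟩

theorem mi_loc (hO : IsOpen O) (hρ : Continuous ρ) {t : ℝ} {W Q : Set E} (hW : IsOpen W)
    (hQ : IsOpen Q) (hQW : Q ⊆ W) (h : mi_Push O ρ t W Q) (u : E) :
    ∃ B, mi_Loc O ρ t (cc (mi_low O ρ t) u) W Q B := by
  obtain ⟨δ, D, hδ, h1, h2, h3, h4⟩ := h
  set U := cc (mi_low O ρ t) u with hU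
  have hUo : IsOpen U := (mi_low_open hO hρ t).connectedComponentIn
  let r : E → E := fun y => D y (min (ρ y) (t - δ / 2))
  have hm : ∀ y ∈ W, t - δ < min (ρ y) (t - δ / 2) := fun y hy =>
    lt_min (by linarith [(abs_lt.1 (h1 y hy).1).1]) (by linarith)
  have hr : ContinuousOn r W := by
    refine h2.comp (f := fun y => (y, min (ρ y) (t - δ / 2)))
      (continuous_id.prodMk (hρ.min continuous_const)).continuousOn fun y hy => ⟨hy, hm y hy, ?_⟩
    exact lt_of_le_of_lt (min_le_right _ _) (by linarith)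
  -- segments of the descent
  have seg : ∀ y ∈ Q, ∀ a b, t - δ < a → b ≤ ρ y → IsPreconnected (D y '' Icc a b) ∧
      ∀ s ∈ Icc a b, D y s ∈ O ∧ ρ (D y s) = s := fun y hy a b ha hb => by
    have h5 := (abs_lt.1 (h1 y (hQW hy)).1).2
    refine ⟨isPreconnected_Icc.image _ (h2.comp (f := fun s => (y, s))
      (continuous_const.prodMk continuous_id).continuousOn fun s hs =>
        ⟨hQW hy, by linarith [hs.1], by linarith [hs.2]⟩), fun s hs =>
      ⟨h4 y hy s (by linarith [hs.1]) (hs.2.trans hb),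
        h3 y (hQW hy) s (abs_lt.2 ⟨by linarith [hs.1], by linarith [hs.2]⟩)⟩⟩
  have key : ∀ y ∈ Q, ∀ s, min (ρ y) (t - δ / 2) ≤ s → s ≤ ρ y → s < t →
      (r y ∈ U ↔ D y s ∈ U) := fun y hy s a1 a2 a3 => by
    obtain ⟨b1, b2⟩ := seg y hy _ s (hm y (hQW hy)) a2
    have b3 : D y '' Icc (min (ρ y) (t - δ / 2)) s ⊆ mi_low O ρ t := by
      rintro _ ⟨s', hs', rfl⟩
      exact ⟨(b2 s' hs').1, by
        show ρ (D y s') < t
        rw [(b2 s' hs').2]; linarith [hs'.2]⟩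
    exact ⟨fun e => mi_cc_of b1 b3 ⟨_, ⟨le_rfl, a1⟩, rfl⟩ e ⟨_, ⟨a1, le_rfl⟩, rfl⟩,
      fun e => mi_cc_of b1 b3 ⟨_, ⟨a1, le_rfl⟩, rfl⟩ e ⟨_, ⟨le_rfl, a1⟩, rfl⟩⟩
  refine ⟨Q ∩ r ⁻¹' U, (hr.mono hQW).isOpen_inter_preimage hQ hUo, inter_subset_left,
    fun y hy hc => ⟨hy, ?_⟩, fun y hy hl => ?_, fun x hx hxt V hV => ?_⟩
  · obtain ⟨-, b2⟩ := seg y hy _ _ (hm y (hQW hy)) (min_le_left (ρ y) (t - δ / 2))
    have b3 := b2 _ ⟨le_rfl, le_rfl⟩
    refine mi_cc_closed ⟨b3.1, ?_⟩ ?_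
    · show ρ (D y _) < t
      rw [b3.2]
      exact lt_of_le_of_lt (min_le_right _ _) (by linarith)
    · exact closure_mono (image_subset_iff.2 inter_subset_right)
        (((hr.continuousAt (hW.mem_nhds (hQW hy))).continuousWithinAt).mem_closure_image hc)
  · have := key y hy (ρ y) (min_le_left _ _) le_rfl hl
    rw [(h1 y (hQW hy)).2] at this
    exact ⟨fun e => this.1 e.2, fun e => ⟨hy, this.2 e⟩⟩
  · have c1 : ContinuousAt (fun x : E × ℝ => D x.1 x.2) (x, t) :=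
      h2.continuousAt ((hW.prod isOpen_Ioo).mem_nhds ⟨hx, by linarith, by linarith⟩)
    have c2 : D x t = x := by rw [← hxt]; exact (h1 x hx).2
    have c3 : (fun x : E × ℝ => D x.1 x.2) ⁻¹' V ∈ 𝓝 (x, t) := c1 (by simpa only [c2] using hV)
    rw [nhds_prod_eq] at c3
    obtain ⟨N1, n1, N2, n2, n3⟩ := mem_prod_iff.1 c3
    obtain ⟨η, hη, n4⟩ := Metric.mem_nhds_iff.1 n2
    have c4 : ∀ᶠ y in 𝓝 x, |ρ y - t| < min η δ / 2 := by
      have : ∀ᶠ s in 𝓝 (ρ x), |s - t| < min η δ / 2 := by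
        rw [hxt]
        exact Metric.ball_mem_nhds t (by positivity)
      exact hρ.continuousAt.eventually this
    filter_upwards [n1, c4] with y y1 y2 hy
    have m1 := min_le_left η δ
    have m2 := min_le_right η δ
    obtain ⟨y3, y4⟩ := abs_lt.1 y2
    obtain ⟨b1, b2⟩ := seg y hy.1 (t - min η δ / 2) (ρ y) (by linarith) le_rfl
    refine ⟨_, b1, ?_, ⟨ρ y, ⟨by linarith, le_rfl⟩, (h1 y (hQW hy.1)).2⟩,
      D y (t - min η δ / 2), ⟨_, ⟨le_rfl, by linarith⟩, rfl⟩, ?_⟩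
    · rintro _ ⟨s, hs, rfl⟩
      refine ⟨n3 (mk_mem_prod y1 (n4 ?_)), (b2 s hs).1⟩
      rw [Metric.mem_ball, Real.dist_eq, abs_lt]
      constructor <;> linarith [hs.1, hs.2]
    · refine (key y hy.1 _ ((min_le_right _ _).trans (by linarith)) (by linarith) ?_).1 hy.2
      have : 0 < min η δ := lt_min hη hδ
      linarith

theorem mi_loc' (hO : IsOpen O) (hρ : Continuous ρ) {z : E} (h : mi_Gd O ρ z) (u : E) :
    ∃ W B, IsOpen W ∧ z ∈ W ∧ mi_Loc O ρ (ρ z) (cc (mi_low O ρ (ρ z)) u) W (W ∩ O) B := by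
  obtain ⟨W, F, hW, hz, hF, h1, h2⟩ := h
  have h3 := fun Q (hQ : Q ∈ F) => mi_loc hO hρ hW (h1 Q hQ).1
    ((h1 Q hQ).2.1.trans inter_subset_left) (h1 Q hQ).2.2.2 u
  choose! B hB using h3
  refine ⟨W, ⋃ Q ∈ F, B Q, hW, hz, isOpen_biUnion fun Q hQ => (hB Q hQ).1,
    iUnion₂_subset fun Q hQ => (hB Q hQ).2.1.trans (h1 Q hQ).2.1, fun y hy hc => ?_,
    fun y hy hl => ⟨fun e => ?_, fun e => ?_⟩, fun x hx hxt V hV => ?_⟩
  · rw [hF.closure_biUnion] at hc
    obtain ⟨Q, hQ, e⟩ := mem_iUnion₂.1 hc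
    exact mem_biUnion hQ ((hB Q hQ).2.2.1 y
      ((h1 Q hQ).2.2.1 y hy (closure_mono (hB Q hQ).2.1 e)) e)
  · obtain ⟨Q, hQ, e⟩ := mem_iUnion₂.1 e
    exact ((hB Q hQ).2.2.2.1 y ((hB Q hQ).2.1 e) hl).1 e
  · obtain ⟨Q, hQ, e'⟩ := h2 y hy hl
    exact mem_biUnion hQ (((hB Q hQ).2.2.2.1 y e' hl).2 e)
  · filter_upwards [(eventually_all_finite hF).2 fun Q hQ => (hB Q hQ).2.2.2.2 x hx hxt V hV]
      with y hy e
    obtain ⟨Q, hQ, e⟩ := mem_iUnion₂.1 e
    exact hy Q hQ e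

/-- Without a bad point on its boundary a component does not merge. -/
theorem mi_stay (hO : IsOpen O) (hρ : Continuous ρ) (hc : ∀ t, IsCompact {y | ρ y ≤ t}) {t : ℝ}
    {u : E} (hu : u ∈ mi_low O ρ t)
    (h : ∀ z ∈ closure (cc (mi_low O ρ t) u), ρ z = t → mi_Gd O ρ z) :
    ∃ s, t < s ∧ ∀ y ∈ cc (mi_low O ρ s) u, ρ y < t → y ∈ cc (mi_low O ρ t) u := by
  set U := cc (mi_low O ρ t) u with hU
  have hUo : IsOpen U := (mi_low_open hO hρ t).connectedComponentIn
  have hUs : U ⊆ mi_low O ρ t := connectedComponentIn_subset _ _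
  let K := closure U ∩ {z | ρ z = t}
  have hK : IsCompact K := (hc t).of_isClosed_subset
    (isClosed_closure.inter (isClosed_eq hρ continuous_const)) fun z hz => le_of_eq hz.2
  have h1 : ∀ z ∈ K, ∃ W W' B, IsOpen W ∧ IsOpen W' ∧ z ∈ W' ∧ closure W' ⊆ W ∧
      mi_Loc O ρ t U W (W ∩ O) B := fun z hz => by
    obtain ⟨W, B, a1, a2, a3⟩ := mi_loc' hO hρ (h z hz.1 hz.2) u
    rw [show ρ z = t from hz.2] at a3
    obtain ⟨ε, hε, a4⟩ := Metric.nhds_basis_closedBall.mem_iff.1 (a1.mem_nhds a2)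
    exact ⟨W, Metric.ball z ε, B, a1, Metric.isOpen_ball, Metric.mem_ball_self hε,
      Metric.closure_ball_subset_closedBall.trans a4, a3⟩
  choose! W W' B hW hW' hz hcl hL using h1
  obtain ⟨F, hFK, hF⟩ := hK.elim_nhds_subcover W' fun z h => (hW' z h).mem_nhds (hz z h)
  let A := U ∪ ⋃ z ∈ F, B z ∩ W' z
  have hA : IsOpen A := hUo.union (isOpen_biUnion fun z h =>
    (hL z (hFK z h)).1.inter (hW' z (hFK z h)))
  have hAU : ∀ y ∈ A, ρ y < t → y ∈ U := fun y hy hl => by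
    rcases hy with hy | hy
    · exact hy
    obtain ⟨z, h, e⟩ := mem_iUnion₂.1 hy
    exact ((hL z (hFK z h)).2.2.2.1 y ((hL z (hFK z h)).2.1 e.1) hl).1 e.1
  have hN : ∀ x, ρ x = t → ∀ᶠ y in 𝓝 x, y ∈ O → y ∈ closure A → y ∈ A := fun x hx => by
    have b1 : ∀ V ∈ 𝓝 x, ∀ᶠ y in 𝓝 x, y ∈ O → y ∈ closure A → y ∈ closure U ∨
        ∃ S, IsPreconnected S ∧ S ⊆ V ∩ O ∧ y ∈ S ∧ (S ∩ U).Nonempty := fun V hV => by
      have b2 : ∀ z ∈ F, ∀ᶠ y in 𝓝 x, y ∈ O → y ∈ closure (B z ∩ W' z) →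
          ∃ S, IsPreconnected S ∧ S ⊆ V ∩ O ∧ y ∈ S ∧ (S ∩ U).Nonempty := fun z h => by
        have hz := hFK z h
        by_cases e : x ∈ W z
        · filter_upwards [(hL z hz).2.2.2.2 x e hx V hV, (hW z hz).mem_nhds e] with y y1 y2 y3 y4
          exact y1 ((hL z hz).2.2.1 y ⟨y2, y3⟩ (closure_mono inter_subset_left y4))
        · filter_upwards [isClosed_closure.isOpen_compl.mem_nhds
            (show x ∈ (closure (W' z))ᶜ from fun e' => e (hcl z hz e'))] with y y1 _ y4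
          exact absurd (closure_mono inter_subset_right y4) y1
      filter_upwards [(eventually_all_finset F).2 b2] with y y1 y2 y3
      rw [closure_union, F.closure_biUnion] at y3
      refine y3.imp id fun y3 => ?_
      obtain ⟨z, h, e⟩ := mem_iUnion₂.1 y3
      exact y1 z h y2 e
    by_cases e : x ∈ closure U
    · obtain ⟨z, h, e'⟩ := mem_iUnion₂.1 (hF ⟨e, hx⟩)
      have hz := hFK z h
      have hWW : W' z ⊆ W z := subset_closure.trans (hcl z hz)
      have hUB : ∀ y ∈ W z, y ∈ U → y ∈ B z := fun y y1 y2 =>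
        ((hL z hz).2.2.2.1 y ⟨y1, (hUs y2).1⟩ (hUs y2).2).2 y2
      filter_upwards [b1 _ ((hW' z hz).mem_nhds e'), (hW' z hz).mem_nhds e'] with y y1 y2 y3 y4
      refine Or.inr (mem_biUnion (s := (F : Set E)) h ⟨?_, y2⟩)
      rcases y1 y3 y4 with y5 | ⟨S, s1, s2, s3, a, s4, s5⟩
      · exact (hL z hz).2.2.1 y ⟨hWW y2, y3⟩ (closure_mono (fun w hw => hUB w hw.1 hw.2)
          ((hW z hz).inter_closure ⟨hWW y2, y5⟩))
      · exact s1.subset_of_closure_inter_subset (hL z hz).1 ⟨a, s4, hUB a (hWW (s2 s4).1) s5⟩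
          (fun w hw => (hL z hz).2.2.1 w ⟨hWW (s2 hw.2).1, (s2 hw.2).2⟩ hw.1) s3
    · have e' : (closure U)ᶜ ∈ 𝓝 x := isClosed_closure.isOpen_compl.mem_nhds e
      filter_upwards [b1 _ e', e'] with y y1 y2 y3 y4
      rcases y1 y3 y4 with y5 | ⟨S, -, s2, -, a, s4, s5⟩
      · exact absurd y5 y2
      · exact absurd (subset_closure s5) (s2 s4).1
  let N := interior {y | y ∈ O → y ∈ closure A → y ∈ A}
  have hs : ∃ s, t < s ∧ ∀ y, t ≤ ρ y → ρ y < s → y ∈ N := by
    have c1 : IsCompact ({y | ρ y ≤ t + 1} ∩ ({y | t ≤ ρ y} ∩ Nᶜ)) := (hc _).inter_right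
      ((isClosed_le continuous_const hρ).inter isOpen_interior.isClosed_compl)
    rcases ({y | ρ y ≤ t + 1} ∩ ({y | t ≤ ρ y} ∩ Nᶜ)).eq_empty_or_nonempty with e | e
    · refine ⟨t + 1, by linarith, fun y y1 y2 => by_contra fun y3 => ?_⟩
      exact (e ▸ (⟨y2.le, y1, y3⟩ : y ∈ {y | ρ y ≤ t + 1} ∩ ({y | t ≤ ρ y} ∩ Nᶜ)) : y ∈ (∅ : Set E))
    · obtain ⟨a, a1, a2⟩ := c1.exists_isMinOn e hρ.continuousOn
      refine ⟨ρ a, lt_of_le_of_ne a1.2.1 fun e' => a1.2.2 ?_, fun y y1 y2 => by_contra fun y3 => ?_⟩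
      · exact mem_interior_iff_mem_nhds.2 (hN a e'.symm)
      · exact absurd y2 (not_lt.2 (a2 ⟨y2.le.trans a1.1, y1, y3⟩))
  obtain ⟨s, s1, s2⟩ := hs
  refine ⟨s, s1, fun y hy => hAU y ?_⟩
  refine isPreconnected_connectedComponentIn.subset_of_closure_inter_subset hA
    ⟨u, mem_connectedComponentIn (mi_low_mono s1.le hu), Or.inl (mem_connectedComponentIn hu)⟩
    (fun w hw => ?_) hy
  have w1 := connectedComponentIn_subset _ _ hw.2
  rcases lt_or_ge (ρ w) t with e | e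
  · exact Or.inl (mi_cc_closed ⟨w1.1, e⟩ (closure_mono (fun a ha => hAU a ha.2 ha.1.2)
      ((mi_low_open hO hρ t).inter_closure ⟨⟨w1.1, e⟩, hw.1⟩)))
  · exact interior_subset (s2 w e w1.2) w1.1 hw.1

/-- The elder rule. -/
theorem mi_elder (hO : IsOpen O) (hρ : Continuous ρ) (hc : ∀ t, IsCompact {y | ρ y ≤ t})
    (Cr : Finset E) {β : ℕ} (h1 : ∀ z ∉ Cr, mi_Gd O ρ z)
    (h2 : ∀ z ∈ Cr, ∃ W ∈ 𝓝 z, Few (W ∩ mi_low O ρ (ρ z)) β) (p : E) (T : Finset E)
    (h3 : ∀ x ∈ T, x ∈ cc O p ∧ ∃ s, ρ x < s ∧ ∀ w ∈ T, w ∈ cc (mi_low O ρ s) x → w = x) :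
    T.card ≤ Cr.card * β + 1 := by
  classical
  obtain ⟨_, -⟩ := exists_wellFoundedLT E
  rcases T.eq_empty_or_nonempty with rfl | hT
  · simp
  choose! W hW hF using h2
  have key : ∀ x ∈ T.erase (T.min' hT), ∃ z ∈ Cr, ∃ a ∈ W z, a ∈ cc (mi_low O ρ (ρ z)) x ∧
      ∀ w ∈ T, w < x → w ∉ cc (mi_low O ρ (ρ z)) x := fun x hx => by
    obtain ⟨x1, x2⟩ := Finset.mem_erase.1 hx
    let Z := {s | ∃ w ∈ T, w < x ∧ w ∈ cc (mi_low O ρ s) x}
    obtain ⟨x3, s0, x4, x5⟩ := h3 x x2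
    have z1 : ∀ s ∈ Z, s0 ≤ s := fun s ⟨w, w1, w2, w3⟩ => le_of_not_gt fun e =>
      w2.ne (x5 w w1 (connectedComponentIn_mono x (mi_low_mono e.le) w3))
    have z2 : Z.Nonempty := by
      obtain ⟨a, -, a2⟩ := mi_cpt hO hρ (cc_trans (cc_symm x3) (h3 _ (T.min'_mem hT)).1)
      exact ⟨ρ a + 1, _, T.min'_mem hT, lt_of_le_of_ne (T.min'_le x x2) (Ne.symm x1),
        a2 _ (by linarith)⟩
    have z3 : s0 ≤ sInf Z := le_csInf z2 z1
    have z4 : x ∈ mi_low O ρ (sInf Z) :=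
      ⟨connectedComponentIn_subset _ _ x3, lt_of_lt_of_le x4 z3⟩
    have z5 : ∀ w ∈ T, w < x → w ∉ cc (mi_low O ρ (sInf Z)) x := fun w w1 w2 w3 => by
      obtain ⟨s, s1, s2⟩ := mi_below hO hρ w3
      exact absurd s1 (not_lt.2 (csInf_le ⟨s0, z1⟩ ⟨w, w1, w2, s2⟩))
    by_contra hn
    obtain ⟨s, s1, s2⟩ := mi_stay hO hρ hc z4 fun z z6 z7 => h1 z fun z8 => by
      obtain ⟨a, a1, a2⟩ := mem_closure_iff_nhds.1 z6 _ (hW z z8)
      exact hn ⟨z, z8, a, a1, z7 ▸ a2, z7 ▸ z5⟩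
    have z6 : ∀ w ∈ T, ∀ᶠ s' in 𝓝[>] (sInf Z), w < x → w ∉ cc (mi_low O ρ s') x := fun w w1 => by
      rcases lt_trichotomy (ρ w) (sInf Z) with e | e | e
      · filter_upwards [Ioo_mem_nhdsGT s1] with s' hs' w2 w3
        exact z5 w w1 w2 (s2 w (connectedComponentIn_mono x (mi_low_mono hs'.2.le) w3) e)
      · obtain ⟨-, s3, a1, a2⟩ := h3 w w1
        filter_upwards [Ioo_mem_nhdsGT (e ▸ a1)] with s' hs' w2 w3
        exact w2.ne' (a2 x x2 (connectedComponentIn_mono w (mi_low_mono hs'.2.le) (cc_symm w3)))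
      · filter_upwards [Ioo_mem_nhdsGT e] with s' hs' _ w3
        exact absurd (connectedComponentIn_subset _ _ w3).2 (not_lt.2 hs'.2.le)
    obtain ⟨s3, a1, a2⟩ := ((eventually_all_finset T).2 z6).exists_mem
      |>.elim fun A hA => (mem_nhdsGT_iff_exists_Ioo_subset.1 hA.1).imp fun s3 h =>
        And.intro h.1 fun s' hs' => hA.2 s' (h.2 hs')
    obtain ⟨s4, ⟨w, w1, w2, w3⟩, a3⟩ := exists_lt_of_csInf_lt z2 (show sInf Z < s3 from a1)
    obtain ⟨s5, a4, a5⟩ := exists_between (max_lt a3 (show sInf Z < s3 from a1))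
    exact a2 s5 ⟨lt_of_le_of_lt (le_max_right _ _) a4, a5⟩ w w1 w2
      (connectedComponentIn_mono x (mi_low_mono ((le_max_left _ _).trans a4.le)) w3)
  choose! z z1 a a1 a2 a3 using key
  have h4 : (T.erase (T.min' hT)).card ≤ β * Cr.card := by
    refine Finset.card_le_mul_card_image_of_maps_to z1 β fun c hc' => ?_
    have h5 : ∀ x ∈ (T.erase (T.min' hT)).filter (z · = c),
        ∀ y ∈ (T.erase (T.min' hT)).filter (z · = c),
        a y ∈ cc (mi_low O ρ (ρ c)) (a x) → x = y := fun x hx y hy e => by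
      obtain ⟨x1, x2⟩ := Finset.mem_filter.1 hx
      obtain ⟨y1, y2⟩ := Finset.mem_filter.1 hy
      have b1 := a2 x x1
      have b2 := a2 y y1
      rw [x2] at b1
      rw [y2] at b2
      have b3 : y ∈ cc (mi_low O ρ (ρ c)) x := cc_trans (cc_trans b1 e) (cc_symm b2)
      rcases lt_trichotomy x y with l | l | l
      · exact absurd (cc_symm b3) (y2 ▸ a3 y y1 x (Finset.mem_of_mem_erase x1) l)
      · exact l
      · exact absurd b3 (x2 ▸ a3 x x1 y (Finset.mem_of_mem_erase y1) l)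
    have h6 : ∀ x ∈ (T.erase (T.min' hT)).filter (z · = c), a x ∈ W c ∩ mi_low O ρ (ρ c) :=
      fun x hx => by
        obtain ⟨x1, x2⟩ := Finset.mem_filter.1 hx
        exact x2 ▸ ⟨a1 x x1, connectedComponentIn_subset _ _ (a2 x x1)⟩
    rw [← Finset.card_image_of_injOn (f := a) fun x hx y hy e =>
      h5 x hx y hy (e ▸ mem_connectedComponentIn (h6 x hx).2)]
    refine hF c hc' _ (fun b hb => ?_) fun b hb b' hb' e => ?_
    · obtain ⟨x, hx, rfl⟩ := Finset.mem_image.1 hb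
      exact h6 x hx
    · obtain ⟨x, hx, rfl⟩ := Finset.mem_image.1 hb
      obtain ⟨y, hy, rfl⟩ := Finset.mem_image.1 hb'
      rw [h5 x hx y hy (connectedComponentIn_mono _ inter_subset_right e)]
  have h5 := Finset.card_erase_add_one (T.min'_mem hT)
  rw [mul_comm] at h4
  omega

end CurK
end

-- merged part: Pool.Agent.Work.MP_8a5de9_co_K.Min
section
/-! Corner minima (paper 2.5). -/

namespace CurK

open Set Filter Topology FS MvPolynomial

section

variable {d m : ℕ} {ι : Type} [Fintype ι] [DecidableEq ι]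
  {g : Arr d ι (Fin m)}

theorem mi_rho_pf (z0 : Fin d → ℝ) : (fun y => rho z0 y) ∈ Pf (Fin d → ℝ) (1 * 2) :=
  pf_sum _ fun j _ => pf_pow (pf_sub (pf_co j) (pf_const 1 (z0 j))) 2

theorem mi_rho_cont (z0 : Fin d → ℝ) : Continuous (rho z0) := pf_cont (mi_rho_pf z0)

theorem mi_rho_cpt (z0 : Fin d → ℝ) (t : ℝ) : IsCompact {y | rho z0 y ≤ t} := by
  refine (isCompact_closedBall z0 (|t| + 1)).of_isClosed_subset
    (isClosed_le (mi_rho_cont z0) continuous_const) fun y hy => ?_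
  rw [Metric.mem_closedBall, dist_pi_le_iff (by positivity)]
  intro j
  have h1 : (y j - z0 j) ^ 2 ≤ rho z0 y :=
    Finset.single_le_sum (f := fun j => (y j - z0 j) ^ 2) (fun _ _ => sq_nonneg _)
      (Finset.mem_univ j)
  have h2 : rho z0 y ≤ t := hy
  have h3 := le_abs_self t
  rw [Real.dist_eq, abs_le]
  constructor <;> nlinarith [sq_nonneg (y j - z0 j - 1), sq_nonneg (y j - z0 j + 1)]

theorem mi_ev_cont (q : MvPolynomial (Fin d) ℝ) : Continuous fun y : Fin d → ℝ => eval y q :=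
  MvPolynomial.continuous_eval q

theorem mi_O_open (R : Finset ι) : IsOpen (⋃ i ∈ R, patch g i)ᶜ :=
  (isClosed_biUnion_finset fun i _ => isClosed_patch i).isOpen_compl

omit [Fintype ι] [DecidableEq ι] in
theorem mi_mem_O {R : Finset ι} {y : Fin d → ℝ} :
    y ∈ (⋃ i ∈ R, patch g i)ᶜ ↔ ∀ i ∈ R, y ∉ patch g i := by
  simp

omit [DecidableEq ι] in
theorem mi_mem_on {z : Fin d → ℝ} {i : ι} : i ∈ On g z ↔ z ∈ patch g i := by
  simp [On]

theorem mi_far (z : Fin d → ℝ) : ∀ᶠ y in 𝓝 z, ∀ i, y ∈ patch g i → z ∈ patch g i := by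
  refine eventually_all.2 fun i => ?_
  by_cases h : z ∈ patch g i
  · exact Eventually.of_forall fun _ _ => h
  · filter_upwards [(isClosed_patch (g := g) i).isOpen_compl.mem_nhds h] with y hy e
    exact absurd e hy

/-- Near `z` only the active constraints matter. -/
theorem mi_near (z : Fin d → ℝ) : ∃ U ∈ 𝓝 z, ∀ y ∈ U, ∀ y' ∈ U, ∀ i, y ∈ patch g i →
    z ∈ patch g i ∧ ((∀ o, eval z (g i o) = 0 → eval y (g i o) = eval y' (g i o)) →
      y' ∈ patch g i) := by
  obtain ⟨U, h1, h2⟩ := mem_prod_self_iff.1 (eventually_all.2 fun i => patch_local (g := g) i z)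
  refine ⟨_, inter_mem h1 (mi_far (g := g) z), fun y hy y' hy' i e => ⟨hy.2 i e, fun e' => ?_⟩⟩
  exact (h2 (mk_mem_prod hy.1 hy'.1) i fun o ho => congrArg _ (e' o ho)).1.1 e

omit [Fintype ι] [DecidableEq ι] in
theorem mi_li (gp : GenPos g) (z : Fin d → ℝ) {K : Type} (a : K → ι × Option (Fin m))
    (ha : Function.Injective a) (h : ∀ k, z ∈ patch g (a k).1 ∧ eval z (g (a k).1 (a k).2) = 0) :
    LinearIndependent ℝ fun k => grad (g (a k).1 (a k).2) z :=
  (gp z).comp (fun k => ⟨a k, h k⟩) fun _ _ e => ha (congrArg Subtype.val e)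

theorem mi_gd1 (gp : GenPos g) (z0 z : Fin d → ℝ) (R : Finset ι) (Γ : Finset (ι × Option (Fin m)))
    (hΓ : ∀ j, j ∈ Γ ↔ j.1 ∈ R ∧ z ∈ patch g j.1 ∧ eval z (g j.1 j.2) = 0)
    (h : z - z0 ∉ Submodule.span ℝ (range fun k : Γ => grad (cons g k) z)) :
    mi_Gd (⋃ i ∈ R, patch g i)ᶜ (rho z0) z := by
  obtain ⟨U, u1, u2⟩ := mi_near (g := g) z
  obtain ⟨W, δ, D, a1, a2, a3, a4, a5, a6, a7, -⟩ := push (fun k : Γ => cons g k) z0 z
    (mi_li gp z Subtype.val Subtype.val_injective fun k => ((hΓ k).1 k.2).2) h U u1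
  refine ⟨W, {W ∩ (⋃ i ∈ R, patch g i)ᶜ}, a1, a2, finite_singleton _, ?_,
    fun y hy _ => ⟨_, rfl, hy⟩⟩
  rintro _ rfl
  refine ⟨a1.inter (mi_O_open R), subset_rfl, fun y hy _ => hy, δ, D, a4, a5, a6,
    fun y hy s hs => (a7 y hy s hs).2.1, fun y hy s s1 s2 => mi_mem_O.2 fun i hi e => ?_⟩
  obtain ⟨b1, -, b2⟩ := a7 y hy.1 s
    (abs_lt.2 ⟨by linarith, by linarith [(abs_lt.1 (a5 y hy.1).1).2]⟩)
  obtain ⟨c1, c2⟩ := u2 _ (a3 b1) _ (a3 hy.1) i e
  exact mi_mem_O.1 hy.2 i hi (c2 fun o ho => b2 ⟨(i, o), (hΓ _).2 ⟨hi, c1, ho⟩⟩)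

/-- Near a vertex the complement of the patches is the union of the open orthants. -/
theorem mi_near_v (gp : GenPos g) {z : Fin d → ℝ} (h : (On g z).card = d) {R : Finset ι}
    (hR : On g z ⊆ R) : ∀ᶠ y in 𝓝 z,
      (y ∈ (⋃ i ∈ R, patch g i)ᶜ ↔ ∀ i ∈ On g z, eval y (g i none) ≠ 0) := by
  filter_upwards [mi_far (g := g) z, rel_local (vertex_rel gp h).1] with y hy hy'
  rw [mi_mem_O]
  exact ⟨fun e i hi e' => e i (hR hi) ((hy' i hi).1.2 e'),
    fun e i _ e' => e i (mi_mem_on.2 (hy i e')) e'.1⟩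

omit [DecidableEq ι] in
theorem mi_corner (gp : GenPos g) {z0 z : Fin d → ℝ} {lam : ι → ℝ} (hm : Mult g z0 z lam)
    (hl : ∀ i ∈ On g z, lam i ≠ 0) : ∀ᶠ y in 𝓝 z,
      (∀ i ∈ On g z, 0 ≤ lam i * eval y (g i none)) → y ≠ z → rho z0 z < rho z0 y := by
  have := corner_min (fun k : On g z => g k none) z0 z (by simpa using hm.1)
    (mi_li gp z (fun k : On g z => (k.1, none)) (fun _ _ e => Subtype.ext (congrArg Prod.fst e))
      fun k => ⟨mi_mem_on.1 k.2, (mi_mem_on.1 k.2).1⟩) (fun k => (mi_mem_on.1 k.2).1)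
    (fun k => lam k) (fun k => hl k k.2)
    (hm.2.trans (Finset.sum_coe_sort _ fun i => lam i • grad (g i none) z).symm)
  exact this.mono fun y hy e => hy fun k => e k k.2

theorem mi_gd2 (gp : GenPos g) {z0 z : Fin d → ℝ} {R : Finset ι} {lam : ι → ℝ}
    (hm : Mult g z0 z lam) (hR : On g z ⊆ R) (hl : ∀ i ∈ On g z, lam i ≠ 0) :
    mi_Gd (⋃ i ∈ R, patch g i)ᶜ (rho z0) z := by
  have h1 := fun i (hi : i ∈ On g z) => push_vertex (fun k : (On g z).erase i => g k none)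
    (g i none) z0 z (by rw [Fintype.card_coe, Finset.card_erase_add_one hi, hm.1])
    (by
      have := mi_li gp z (fun o : Option ((On g z).erase i) => (o.elim i Subtype.val, none))
        (fun a b e => by
          have e' := congrArg Prod.fst e
          rcases a with _ | a <;> rcases b with _ | b
          · rfl
          · exact absurd e'.symm (Finset.mem_erase.1 b.2).1
          · exact absurd e' (Finset.mem_erase.1 a.2).1
          · exact congrArg some (Subtype.ext e'))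
        fun o => by
          have : z ∈ patch g (o.elim i Subtype.val) := by
            rcases o with _ | o
            exacts [mi_mem_on.1 hi, mi_mem_on.1 (Finset.mem_of_mem_erase o.2)]
          exact ⟨this, this.1⟩
      have e : (fun o : Option ((On g z).erase i) => grad (g (o.elim i Subtype.val) none) z) =
          fun o => grad (o.elim (g i none) fun k => g k none) z :=
        _root_.funext fun o => by rcases o with _ | o <;> rfl
      exact e ▸ this)
    (fun k => lam k) (lam i) (hl i hi)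
    (by rw [hm.2, ← Finset.add_sum_erase _ _ hi,
      Finset.sum_coe_sort _ fun i => lam i • grad (g i none) z])
    _ ((mi_near_v gp hm.1 hR).and (mi_corner gp hm hl))
  choose! W δ D a1 a2 a3 a4 a5 a6 a7 a8 a9 using h1
  obtain ⟨V, v1, v2, v3⟩ := mem_nhds_iff.1 ((mi_near_v gp hm.1 hR).and (mi_corner gp hm hl))
  let W0 := V ∩ ⋂ i ∈ On g z, W i
  have w1 : IsOpen W0 := v2.inter (isOpen_biInter_finset a1)
  have w2 : ∀ i ∈ On g z, W0 ⊆ W i := fun i hi y hy => mem_iInter₂.1 hy.2 i hi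
  refine ⟨W0, (fun i => W0 ∩ (⋃ i ∈ R, patch g i)ᶜ ∩ {y | lam i * eval y (g i none) < 0}) ''
    (On g z : Set ι), w1, ⟨v3, mem_iInter₂.2 a2⟩, (Finset.finite_toSet _).image _, ?_,
    fun y hy hlt => ?_⟩
  · rintro _ ⟨i, hi, rfl⟩
    have c0 : Continuous fun y : Fin d → ℝ => lam i * eval y (g i none) :=
      continuous_const.mul (mi_ev_cont _)
    refine ⟨(w1.inter (mi_O_open R)).inter (isOpen_lt c0 continuous_const), inter_subset_left,
      fun y hy e => ⟨hy, lt_of_le_of_ne ?_ (mul_ne_zero (hl i hi) ((v1 hy.1.1).1.1 hy.2 i hi))⟩,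
      δ i, D i, a4 i hi, fun y hy => a5 i hi y (w2 i hi hy),
      (a6 i hi).mono (prod_mono (w2 i hi) subset_rfl),
      fun y hy s hs => (a7 i hi y (w2 i hi hy) s hs).2.1, fun y hy s s1 s2 => ?_⟩
    · exact closure_minimal (fun w hw => le_of_lt hw.2) (isClosed_le c0 continuous_const) e
    have y1 := w2 i hi hy.1.1
    obtain ⟨y2, y3⟩ := abs_lt.1 (a5 i hi y y1).1
    obtain ⟨b1, -, b2⟩ := a7 i hi y y1 s (abs_lt.2 ⟨by linarith, by linarith⟩)
    refine (a3 i hi b1).1.2 fun k hk => ?_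
    by_cases e : k = i
    · have b3 := (a9 i hi y y1).monotoneOn ⟨s1, by linarith⟩ ⟨by linarith, by linarith⟩ s2
      simp only [(a5 i hi y y1).2] at b3
      have b4 : lam i * eval y (g i none) < 0 := hy.2
      intro e'
      rw [e] at e'
      rw [e'] at b3
      linarith
    · exact (b2 ⟨k, Finset.mem_erase.2 ⟨e, hk⟩⟩).trans_ne ((v1 hy.1.1.1).1.1 hy.1.2 k hk)
  · by_contra hn
    refine absurd hlt (not_lt.2 ((v1 hy.1.1).2 (fun i hi => le_of_not_gt fun e => ?_) ?_).le)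
    · exact hn ⟨_, ⟨i, hi, rfl⟩, hy, e⟩
    · rintro rfl
      exact lt_irrefl _ hlt

omit [Fintype ι] in
theorem mi_sub (R : Finset ι) (k : ℕ) :
    (R.powerset.filter (·.card ≤ k)).card ≤ (R.card + 1) ^ k := by
  induction k with
  | zero =>
    refine Finset.card_le_one.2 fun a ha b hb => ?_
    rw [Finset.card_eq_zero.1 (Nat.le_zero.1 (Finset.mem_filter.1 ha).2),
      Finset.card_eq_zero.1 (Nat.le_zero.1 (Finset.mem_filter.1 hb).2)]
  | succ k ih =>
    refine (Finset.card_le_card (t := R.powerset.filter (·.card ≤ k) ∪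
      R.biUnion fun a => (R.powerset.filter (·.card ≤ k)).image (insert a)) fun D hD => ?_).trans
      ((Finset.card_union_le _ _).trans ?_)
    · obtain ⟨d1, d2⟩ := Finset.mem_filter.1 hD
      rcases D.eq_empty_or_nonempty with rfl | ⟨a, ha⟩
      · simp
      refine Finset.mem_union_right _ (Finset.mem_biUnion.2 ⟨a, Finset.mem_powerset.1 d1 ha,
        Finset.mem_image.2 ⟨D.erase a, Finset.mem_filter.2 ⟨Finset.mem_powerset.2
          ((Finset.erase_subset _ _).trans (Finset.mem_powerset.1 d1)), ?_⟩,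
          Finset.insert_erase ha⟩⟩)
      have := Finset.card_erase_add_one ha
      omega
    · have := Finset.card_biUnion_le_card_mul R
        (fun a => (R.powerset.filter (·.card ≤ k)).image (insert a)) _
        fun a _ => Finset.card_image_le.trans ih
      rw [pow_succ]
      nlinarith

/-- The critical points of at most `d - 1` patches. -/
theorem mi_cr (gp : GenPos g) {z0 : Fin d → ℝ} {β : ℕ} (hc : Centre g z0 β) (R : Finset ι) :
    ∃ Cr : Finset (Fin d → ℝ), Cr.card ≤ (R.card + 1) ^ (d - 1) * (2 ^ ((d - 1) * (m + 1)) * β) ∧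
      ∀ z ∉ Cr, mi_Gd (⋃ i ∈ R, patch g i)ᶜ (rho z0) z := by
  classical
  refine ⟨(R.powerset.filter (·.card ≤ d - 1)).biUnion fun D =>
    (D ×ˢ Finset.univ).powerset.biUnion fun Γ => (hc Γ).1.toFinset, ?_, fun z hz => ?_⟩
  · refine (Finset.card_biUnion_le_card_mul _ _ _ fun D hD => ?_).trans
      (Nat.mul_le_mul_right _ (mi_sub R _))
    refine (Finset.card_biUnion_le_card_mul _ _ β fun Γ _ => ?_).trans
      (Nat.mul_le_mul_right _ ?_)
    · exact (Set.ncard_eq_toFinset_card _ (hc Γ).1).symm.trans_le (hc Γ).2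
    · rw [Finset.card_powerset, Finset.card_product]
      refine Nat.pow_le_pow_right (by norm_num) (Nat.mul_le_mul (Finset.mem_filter.1 hD).2 ?_)
      simp
  have h0 : ∀ D ⊆ R, D.card ≤ d - 1 → ∀ Γ : Finset (ι × Option (Fin m)),
      (∀ j ∈ Γ, j.1 ∈ D ∧ z ∈ patch g j.1 ∧ eval z (g j.1 j.2) = 0) →
      z - z0 ∉ Submodule.span ℝ (range fun k : Γ => grad (cons g k) z) := fun D d1 d2 Γ h1 h2 =>
    hz (Finset.mem_biUnion.2 ⟨D, Finset.mem_filter.2 ⟨Finset.mem_powerset.2 d1, d2⟩,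
      Finset.mem_biUnion.2 ⟨Γ, Finset.mem_powerset.2 fun j hj =>
        Finset.mem_product.2 ⟨(h1 j hj).1, Finset.mem_univ _⟩, (hc Γ).1.mem_toFinset.2
        ⟨fun j hj => (h1 j hj).2.2,
          mi_li gp z Subtype.val Subtype.val_injective fun k => (h1 k k.2).2, h2⟩⟩⟩)
  by_cases e : (R.filter (z ∈ patch g ·)).card ≤ d - 1
  · refine mi_gd1 gp z0 z R
      (Finset.univ.filter fun j => j.1 ∈ R ∧ z ∈ patch g j.1 ∧ eval z (g j.1 j.2) = 0)
      (by simp) (h0 _ (Finset.filter_subset _ _) e _ fun j hj => ?_)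
    obtain ⟨-, b1, b2⟩ := Finset.mem_filter.1 hj
    exact ⟨Finset.mem_filter.2 ⟨b1, b2.1⟩, b2⟩
  have e1 : R.filter (z ∈ patch g ·) ⊆ On g z := fun i hi =>
    mi_mem_on.2 (Finset.mem_filter.1 hi).2
  have e2 := on_card_le gp z
  have e3 := Finset.card_le_card e1
  have e4 : On g z ⊆ R :=
    Finset.eq_of_subset_of_card_le e1 (by omega) ▸ Finset.filter_subset _ _
  have e5 : (On g z).card = d := by omega
  obtain ⟨lam, hm⟩ := (vertex_rel gp e5).2 z0
  refine mi_gd2 gp hm e4 fun i hi hl => ?_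
  refine h0 ((On g z).erase i) ((Finset.erase_subset _ _).trans e4)
    (by rw [Finset.card_erase_of_mem hi, e5]) (((On g z).erase i) ×ˢ {none}) (fun j hj => ?_) ?_
  · obtain ⟨b1, b2⟩ := Finset.mem_product.1 hj
    have b3 := mi_mem_on.1 (Finset.mem_of_mem_erase b1)
    exact ⟨b1, b3, Finset.mem_singleton.1 b2 ▸ b3.1⟩
  · rw [hm.2, ← Finset.add_sum_erase _ _ hi, hl, zero_smul, zero_add]
    exact Submodule.sum_mem _ fun k hk => Submodule.smul_mem _ _ (Submodule.subset_span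
      ⟨⟨(k, none), Finset.mem_product.2 ⟨hk, Finset.mem_singleton_self _⟩⟩, rfl⟩)

omit [Fintype ι] [DecidableEq ι] in
theorem mi_sa {b : ℕ} (hb : ∀ i l, (g i l).totalDegree ≤ b) (i : ι) :
    SA (m + 1 + 1 * b) {y | y ∈ patch g i} := by
  classical
  refine ⟨Finset.univ.image fun o y => eval y (g i o), Finset.card_image_le.trans (by simp),
    fun q hq => ?_, fun x hx y e => ?_⟩
  · obtain ⟨o, -, rfl⟩ := Finset.mem_image.1 hq
    exact pf_mono le_add_self (pf_eval (hb i o) fun k => pf_co k)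
  have e1 : ∀ o, SignType.sign (eval y (g i o)) = SignType.sign (eval x (g i o)) := fun o =>
    e _ (Finset.mem_image_of_mem _ (Finset.mem_univ o))
  have e2 : (fun l => SignType.sign (eval y (g i (some l)))) =
      fun l => SignType.sign (eval x (g i (some l))) := funext fun l => e1 (some l)
  exact ⟨sign_eq_zero_iff.1 ((e1 none).trans (sign_eq_zero_iff.2 hx.1)), e2 ▸ hx.2⟩

theorem mi_few {b : ℕ} (hb : ∀ i l, (g i l).totalDegree ≤ b) (gp : GenPos g) (z0 z : Fin d → ℝ)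
    (R : Finset ι) : ∃ W ∈ 𝓝 z, Few (W ∩ mi_low (⋃ i ∈ R, patch g i)ᶜ (rho z0) (rho z0 z))
      (beta d (d * (1 + 1 + (1 + 1)) + (d * (m + 1 + 1 * b) + (1 * 2 + 1)))) := by
  obtain ⟨ε, hε, h1⟩ := Metric.mem_nhds_iff.1 (mi_far (g := g) z)
  refine ⟨_, Metric.ball_mem_nhds z hε, SA.few ?_ (by simp)⟩
  have s1 := (sa_all' fun j : Fin d => (sa_lt (pf_co j) (pf_const 1 (z j + ε))).and
    (sa_lt (pf_const 1 (z j - ε)) (pf_co j))).and
    ((sa_all (R ∩ On g z) fun i _ => (mi_sa hb i).not).and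
      (sa_lt (mi_rho_pf z0) (pf_const _ (rho z0 z))))
  have s2 : (R ∩ On g z).card ≤ d :=
    (Finset.card_le_card Finset.inter_subset_right).trans (on_card_le gp z)
  simp only [Fintype.card_fin] at s1
  refine (congrArg (SA _) (Set.ext fun y => ?_)).mp (s1.mono (by gcongr))
  have s3 : y ∈ Metric.ball z ε ↔ ∀ j, y j < z j + ε ∧ z j - ε < y j := by
    rw [Metric.mem_ball, dist_pi_lt_iff hε]
    refine forall_congr' fun j => ?_
    rw [Real.dist_eq, abs_lt]
    constructor <;> rintro ⟨a, b⟩ <;> constructor <;> linarith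
  refine ⟨fun e => ⟨s3.2 e.1, mi_mem_O.2 fun i hi e' => ?_, e.2.2⟩, fun e => ⟨s3.1 e.1,
    fun i hi e' => mi_mem_O.1 e.2.1 i (Finset.mem_inter.1 hi).1 e', e.2.2⟩⟩
  exact e.2.1 i (Finset.mem_inter.2 ⟨hi, mi_mem_on.2 (h1 (s3.2 e.1) i e')⟩) e'

/-- A component of a sublevel set is born at a corner minimum. -/
theorem mi_born (gp : GenPos g) {z0 z p : Fin d → ℝ} {R : Finset ι} {lam : ι → ℝ}
    (hm : Mult g z0 z lam) (hR : On g z ⊆ R) (hl : ∀ i ∈ On g z, lam i ≠ 0) {σ : Finset ι}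
    (hσ : ∀ i ∈ On g z, i ∈ σ ↔ 0 < lam i) (hv : GVis g p R (On g z) σ z)
    {V : Set (Fin d → ℝ)} (hV : V ∈ 𝓝 z) :
    ∃ x ∈ V, x ∈ cc (⋃ i ∈ R, patch g i)ᶜ p ∧ ∃ s, rho z0 x < s ∧
      cc (mi_low (⋃ i ∈ R, patch g i)ᶜ (rho z0) s) x ⊆ V := by
  obtain ⟨r, hr, h1⟩ := Metric.nhds_basis_closedBall.mem_iff.1
    (inter_mem hV ((mi_near_v gp hm.1 hR).and (mi_corner gp hm hl)))
  have c0 : ∀ i, Continuous fun y : Fin d → ℝ => lam i * eval y (g i none) := fun i =>
    continuous_const.mul (mi_ev_cont _)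
  have c1 : IsClosed {y : Fin d → ℝ | ∀ i ∈ On g z, 0 ≤ lam i * eval y (g i none)} := by
    simpa only [ofPred_forall, Finset.mem_coe] using
      isClosed_biInter (s := (On g z : Set ι)) fun i _ => isClosed_le continuous_const (c0 i)
  have c2 : IsOpen {y : Fin d → ℝ | ∀ i ∈ On g z, 0 < lam i * eval y (g i none)} := by
    simpa only [ofPred_forall] using
      isOpen_biInter_finset (s := On g z) fun i _ => isOpen_lt continuous_const (c0 i)
  have h2 : ∃ s, rho z0 z < s ∧ ∀ y ∈ Metric.sphere z r,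
      (∀ i ∈ On g z, 0 ≤ lam i * eval y (g i none)) → s ≤ rho z0 y := by
    rcases (Metric.sphere z r ∩
      {y | ∀ i ∈ On g z, 0 ≤ lam i * eval y (g i none)}).eq_empty_or_nonempty with e | e
    · exact ⟨_, lt_add_one _, fun y y1 y2 => absurd (e ▸ mem_inter y1 y2) (notMem_empty y)⟩
    · obtain ⟨a, a1, a2⟩ := ((isCompact_sphere z r).inter_right c1).exists_isMinOn e
        (mi_rho_cont z0).continuousOn
      refine ⟨_, (h1 (Metric.sphere_subset_closedBall a1.1)).2.2 a1.2 ?_,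
        fun y y1 y2 => a2 (mem_inter y1 y2)⟩
      rintro rfl
      exact hr.ne (by simpa using a1.1)
  obtain ⟨s, s1, s2⟩ := h2
  obtain ⟨x, ⟨x1, x2⟩, x3, x4⟩ := mem_closure_iff_nhds.1 hv _ (inter_mem (Metric.ball_mem_nhds z hr)
    ((mi_rho_cont z0).continuousAt.eventually (gt_mem_nhds s1)))
  refine ⟨x, (h1 (Metric.ball_subset_closedBall x1)).1, x3, s, x2, Subset.trans
    (isPreconnected_connectedComponentIn.subset_of_closure_inter_subset (Metric.isOpen_ball.inter c2)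
      ⟨x, mem_connectedComponentIn ⟨connectedComponentIn_subset _ _ x3, x2⟩, x1, fun i hi => ?_⟩
      fun y hy => ?_) fun y hy => (h1 (Metric.ball_subset_closedBall hy.1)).1⟩
  · by_cases e : 0 < lam i
    · exact mul_pos e ((x4 i hi).1 ((hσ i hi).2 e))
    · exact mul_pos_of_neg_of_neg (lt_of_le_of_ne (not_lt.1 e) (hl i hi))
        ((x4 i hi).2 fun e' => e ((hσ i hi).1 e'))
  · have y1 := connectedComponentIn_subset _ _ hy.2
    have y2 : y ∈ Metric.closedBall z r :=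
      Metric.closure_ball_subset_closedBall (closure_mono inter_subset_left hy.1)
    have y3 : ∀ i ∈ On g z, 0 ≤ lam i * eval y (g i none) :=
      closure_minimal (fun w hw i hi => (hw.2 i hi).le) c1 hy.1
    refine ⟨lt_of_le_of_ne y2 fun e => absurd y1.2 (not_lt.2 (s2 y e y3)), fun i hi =>
      lt_of_le_of_ne (y3 i hi) (mul_ne_zero (hl i hi) ((h1 y2).2.1.1 y1.1 i hi)).symm⟩

end

open Classical in
theorem min_le (d m b β : ℕ) (hd : 2 ≤ d) : ∃ C : ℕ, ∀ {ι : Type} [Fintype ι] [DecidableEq ι]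
    (g : Arr d ι (Fin m)), (∀ i l, (g i l).totalDegree ≤ b) →
    GenPos g → ∀ z0, Centre g z0 β → ∀ p, (∀ i, p ∉ patch g i) → ∀ R : Finset ι,
    {z | On g z ⊆ R ∧ ∃ lam, Mult g z0 z lam ∧ (∀ i ∈ On g z, lam i ≠ 0) ∧
      GVis g p R (On g z) ((On g z).filter fun i => 0 < lam i) z}.ncard ≤
        C * (R.card + 1) ^ (d - 1) := by
  refine ⟨2 ^ ((d - 1) * (m + 1)) * β *
    beta d (d * (1 + 1 + (1 + 1)) + (d * (m + 1 + 1 * b) + (1 * 2 + 1))) + 1,
    fun {ι} _ _ g hb gp z0 hc p _ R => ?_⟩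
  set M := {z | On g z ⊆ R ∧ ∃ lam, Mult g z0 z lam ∧ (∀ i ∈ On g z, lam i ≠ 0) ∧
      GVis g p R (On g z) ((On g z).filter fun i => 0 < lam i) z} with hM
  rcases M.finite_or_infinite with hf | hf
  swap
  · rw [hf.ncard]
    exact Nat.zero_le _
  obtain ⟨V, v1, v2⟩ := hf.t2_separation
  have h1 := fun z (hz : z ∈ M) => hz.2.elim fun lam h => mi_born gp h.1 hz.1 h.2.1
    (fun i hi => by simp [hi]) h.2.2 ((v1 z).2.mem_nhds (v1 z).1)
  choose! x x1 x2 s x3 x4 using h1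
  have h2 : ∀ z ∈ M, ∀ w ∈ M, x w ∈ V z → w = z := fun z hz w hw e =>
    v2.elim_set hw hz (x w) (x1 w hw) e
  obtain ⟨Cr, c1, c2⟩ := mi_cr gp hc R
  have h3 := mi_elder (mi_O_open R) (mi_rho_cont z0) (mi_rho_cpt z0) Cr c2
    (fun z _ => mi_few hb gp z0 z R) p (hf.toFinset.image x) fun y hy => by
      obtain ⟨z, hz, rfl⟩ := Finset.mem_image.1 hy
      rw [hf.mem_toFinset] at hz
      refine ⟨x2 z hz, s z, x3 z hz, fun w hw e => ?_⟩
      obtain ⟨w, hw', rfl⟩ := Finset.mem_image.1 hw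
      rw [h2 z hz w (hf.mem_toFinset.1 hw') (x4 z hz e)]
  have h5 : InjOn x hf.toFinset := fun z hz w hw e => (h2 z (hf.mem_toFinset.1 hz) w
    (hf.mem_toFinset.1 hw) (e ▸ x1 z (hf.mem_toFinset.1 hz))).symm
  rw [Finset.card_image_of_injOn h5, ← Set.ncard_eq_toFinset_card M hf] at h3
  have h4 : 1 ≤ (R.card + 1) ^ (d - 1) := Nat.one_le_pow _ _ (Nat.succ_pos _)
  refine h3.trans ?_
  rw [add_mul]
  refine add_le_add ((Nat.mul_le_mul_right _ c1).trans_eq ?_) (h4.trans_eq (one_mul _).symm)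
  ring

end CurK
end

-- merged part: Pool.Agent.Work.MP_8a5de9_co_K.GModA
section
/-! Positions in a finite set of times, the family of all pieces, hits. -/

namespace CurK

open MvPolynomial Topology Filter

/-- The number of elements of `T` below `t`. -/
noncomputable def gm_idx (T : Finset ℝ) (t : ℝ) : ℕ := (T.filter (· < t)).card

theorem gm_idx_mono (T : Finset ℝ) : Monotone (gm_idx T) := fun _ _ h =>
  Finset.card_le_card (Finset.monotone_filter_right T fun _ _ hu => lt_of_lt_of_le hu h)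

theorem gm_idx_le (T : Finset ℝ) (t : ℝ) : gm_idx T t ≤ T.card := Finset.card_filter_le _ _

theorem gm_idx_lt {T : Finset ℝ} {u t : ℝ} (hu : u ∈ T) (h : u < t) :
    gm_idx T u < gm_idx T t := by
  refine Finset.card_lt_card ⟨Finset.monotone_filter_right T fun _ _ hv => lt_trans hv h,
    fun hs => ?_⟩
  have := hs (Finset.mem_filter.2 ⟨hu, h⟩)
  exact lt_irrefl _ (Finset.mem_filter.1 this).2

theorem gm_idx_lt_card {T : Finset ℝ} {u : ℝ} (hu : u ∈ T) : gm_idx T u < T.card :=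
  (gm_idx_lt hu (lt_add_one u)).trans_le (gm_idx_le _ _)

theorem gm_idx_inj {T : Finset ℝ} {u t : ℝ} (hu : u ∈ T) (ht : t ∈ T)
    (h : gm_idx T u = gm_idx T t) : u = t := by
  rcases lt_trichotomy u t with e | e | e
  · exact absurd h (gm_idx_lt hu e).ne
  · exact e
  · exact absurd h (gm_idx_lt ht e).ne'

theorem gm_idx_surj (T : Finset ℝ) {a : ℕ} (ha : a < T.card) : ∃ t ∈ T, gm_idx T t = a := by
  have h : T.image (gm_idx T) = Finset.range T.card := by
    refine Finset.eq_of_subset_of_card_le (fun b hb => ?_) ?_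
    · obtain ⟨t, ht, rfl⟩ := Finset.mem_image.1 hb
      exact Finset.mem_range.2 (gm_idx_lt_card ht)
    · rw [Finset.card_range, Finset.card_image_of_injOn fun u hu t ht => gm_idx_inj hu ht]
  exact Finset.mem_image.1 (h ▸ Finset.mem_range.2 ha)

theorem gm_near (T : Finset ℝ) (t : ℝ) :
    ∀ᶠ u in 𝓝 t, ∀ v ∈ T, (v < t → v < u) ∧ (t < v → u < v) := by
  refine (T.eventually_all).2 fun v _ => Eventually.and ?_ ?_
  · by_cases h : v < t
    · exact (lt_mem_nhds h).mono fun _ hu _ => hu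
    · exact Eventually.of_forall fun _ hv => absurd hv h
  · by_cases h : t < v
    · exact (gt_mem_nhds h).mono fun _ hu _ => hu
    · exact Eventually.of_forall fun _ hv => absurd hv h

theorem gm_left (T : Finset ℝ) (t : ℝ) :
    ∀ᶠ u in 𝓝[<] t, u ∉ T ∧ gm_idx T u = gm_idx T t := by
  filter_upwards [nhdsWithin_le_nhds (gm_near T t), self_mem_nhdsWithin] with u hu ht
  refine ⟨fun h => lt_irrefl _ ((hu u h).1 ht), ?_⟩
  unfold gm_idx
  rw [Finset.filter_congr fun v hv => ⟨fun h => lt_trans h ht, (hu v hv).1⟩]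

theorem gm_right {T : Finset ℝ} {t : ℝ} (h0 : t ∈ T) :
    ∀ᶠ u in 𝓝[>] t, u ∉ T ∧ gm_idx T u = gm_idx T t + 1 := by
  filter_upwards [nhdsWithin_le_nhds (gm_near T t), self_mem_nhdsWithin] with u hu ht
  refine ⟨fun h => lt_irrefl _ ((hu u h).2 ht), ?_⟩
  unfold gm_idx
  rw [← Finset.card_insert_of_notMem (a := t) (by simp)]
  congr 1
  ext v
  simp only [Finset.mem_filter, Finset.mem_insert]
  constructor
  · rintro ⟨h1, h2⟩
    rcases lt_trichotomy v t with e | e | e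
    · exact Or.inr ⟨h1, e⟩
    · exact Or.inl e
    · exact absurd ((hu v h1).2 e) (not_lt.2 h2.le)
  · rintro (rfl | ⟨h1, h2⟩)
    · exact ⟨h0, ht⟩
    · exact ⟨h1, lt_trans h2 ht⟩

theorem gm_idx_uIcc (T : Finset ℝ) {a b t : ℝ} (h : t ∈ Set.uIcc a b) :
    gm_idx T t ∈ Set.uIcc (gm_idx T a) (gm_idx T b) := by
  rcases Set.mem_uIcc.1 h with e | e
  · exact Set.mem_uIcc.2 (Or.inl ⟨gm_idx_mono T e.1, gm_idx_mono T e.2⟩)
  · exact Set.mem_uIcc.2 (Or.inr ⟨gm_idx_mono T e.1, gm_idx_mono T e.2⟩)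

variable {d : ℕ} {ι μ : Type}

/-- All pieces of all curves. -/
structure gm_Data (g : Arr d ι μ) (z0 : Fin d → ℝ) (B : ℕ)
    (P : Type) where
  cur : P → Finset ι
  dom : P → Set ℝ
  sec : P → ℝ → Fin d → ℝ
  cur_card : ∀ q, (cur q).card + 1 = d
  cur_le : ∀ γ, {q | cur q = γ}.ncard ≤ B
  isOpen : ∀ q, IsOpen (dom q)
  ord : ∀ q, (dom q).OrdConnected
  cont : ∀ q, ContinuousOn (sec q) (dom q)
  rho_eq : ∀ q, ∀ t ∈ dom q, rho z0 (sec q t) = t
  mem : ∀ q, ∀ t ∈ dom q, sec q t ∈ Reg g z0 (cur q)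
  disj : ∀ q q', cur q = cur q' → ∀ t ∈ dom q, t ∈ dom q' → sec q t = sec q' t → q = q'
  cover : ∀ γ : Finset ι, γ.card + 1 = d → ∃ Cut : Finset (Fin d → ℝ), Cut.card ≤ B ∧
    ∀ z ∈ Reg g z0 γ, z ∈ Cut ∨ ∃ q, cur q = γ ∧ rho z0 z ∈ dom q ∧ sec q (rho z0 z) = z
  coord : ∀ q F j, F ⊆ cur q → F.card + 2 = d → ∀ t ∈ dom q, ∀ t' ∈ dom q,
    (Coord g z0 F j (sec q t) ↔ Coord g z0 F j (sec q t')) ∧
      rk g z0 F j (sec q t) = rk g z0 F j (sec q t')

theorem gm_exists_data [Finite ι] {g : Arr d ι μ} {z0 : Fin d → ℝ}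
    {B : ℕ} (h : ∀ γ : Finset ι, γ.card + 1 = d → ∃ dom s Cut, Pieces g z0 γ B dom s Cut) :
    ∃ (P : Type) (_ : Finite P), Nonempty (gm_Data g z0 B P) := by
  choose dom s Cut hP using fun γ : {γ : Finset ι // γ.card + 1 = d} => h γ.1 γ.2
  refine ⟨{γ : Finset ι // γ.card + 1 = d} × Fin B, inferInstance, ⟨{
    cur := fun q => q.1.1
    dom := fun q => dom q.1 q.2
    sec := fun q => s q.1 q.2
    cur_card := fun q => q.1.2
    cur_le := fun γ => ?_
    isOpen := fun q => (hP q.1).isOpen _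
    ord := fun q => (hP q.1).ord _
    cont := fun q => (hP q.1).cont _
    rho_eq := fun q => (hP q.1).rho_eq _
    mem := fun q => (hP q.1).mem _
    disj := ?_
    cover := fun γ hγ => ⟨Cut ⟨γ, hγ⟩, (hP _).card, fun z hz =>
      ((hP ⟨γ, hγ⟩).cover z hz).imp_right fun ⟨a, ha⟩ => ⟨(⟨γ, hγ⟩, a), rfl, ha⟩⟩
    coord := fun q F j h1 h2 => (hP q.1).coord _ F j h1 (by have := q.1.2; omega) }⟩⟩
  · refine (Set.ncard_le_ncard_of_injOn (t := Set.univ) Prod.snd (fun _ _ => trivial)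
      (fun q hq q' hq' e => Prod.ext (Subtype.ext (hq.trans hq'.symm)) e)).trans ?_
    rw [Set.ncard_univ, Nat.card_fin]
  · rintro ⟨γ, a⟩ ⟨γ', a'⟩ e t h1 h2 h3
    obtain rfl : γ = γ' := Subtype.ext e
    rw [(hP γ).disj a a' t h1 h2 h3]

theorem gm_rel_patch {g : Arr d ι μ} {γ : Finset ι} {z : Fin d → ℝ}
    (h : z ∈ Rel g γ) {i : ι} (hi : i ∈ γ) : z ∈ patch g i :=
  (h i hi).1

theorem gm_mem_on [Fintype ι] {g : Arr d ι μ} {z : Fin d → ℝ}
    {i : ι} : i ∈ On g z ↔ z ∈ patch g i := by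
  simp [On]

namespace gm_Data

variable [Fintype ι] [DecidableEq ι] [Finite μ] {g : Arr d ι μ}
  {z0 : Fin d → ℝ} {B β : ℕ} {P : Type} (G : gm_Data g z0 B P)

theorem on_eq (gp : GenPos g) {q : P} {t : ℝ} (ht : t ∈ G.dom q) {w : ι} (hw : w ∉ G.cur q)
    (h : G.sec q t ∈ patch g w) : On g (G.sec q t) = insert w (G.cur q) := by
  refine (Finset.eq_of_subset_of_card_le (fun i hi => gm_mem_on.2 ?_) ?_).symm
  · rcases Finset.mem_insert.1 hi with rfl | hi
    · exact h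
    · exact gm_rel_patch (G.mem q t ht).1 hi
  · rw [Finset.card_insert_of_notMem hw, G.cur_card]
    exact on_card_le gp _

/-- The hit times. -/
def HT (q : P) : Set ℝ := {t | t ∈ G.dom q ∧ ∃ w, w ∉ G.cur q ∧ G.sec q t ∈ patch g w}

theorem HT_finite (gp : GenPos g) (hc : Centre g z0 β) (q : P) : (G.HT q).Finite := by
  have h1 : (⋃ w ∈ {w | w ∉ G.cur q}, {z | On g z = insert w (G.cur q)}).Finite :=
    (Set.toFinite _).biUnion fun w hw => (vertex_le gp hc _ (by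
      rw [Finset.card_insert_of_notMem hw, G.cur_card])).1
  refine (h1.image (rho z0)).subset ?_
  rintro t ⟨ht, w, hw, h⟩
  exact ⟨_, Set.mem_biUnion hw (G.on_eq gp ht hw h), G.rho_eq q t ht⟩

open Classical in
/-- The hit times as a finite set. -/
noncomputable def T (q : P) : Finset ℝ := if h : (G.HT q).Finite then h.toFinset else ∅

theorem mem_T (gp : GenPos g) (hc : Centre g z0 β) {q : P} {t : ℝ} :
    t ∈ G.T q ↔ t ∈ G.dom q ∧ ∃ w, w ∉ G.cur q ∧ G.sec q t ∈ patch g w := by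
  rw [T, dif_pos (G.HT_finite gp hc q), Set.Finite.mem_toFinset]
  rfl

/-- The time of the hit at position `a`. -/
noncomputable def tm (q : P) (a : ℕ) : ℝ :=
  Classical.epsilon fun t => t ∈ G.T q ∧ gm_idx (G.T q) t = a

omit [Fintype ι] [DecidableEq ι] [Finite μ] in
theorem tm_spec {q : P} {a : ℕ} (ha : a < (G.T q).card) :
    G.tm q a ∈ G.T q ∧ gm_idx (G.T q) (G.tm q a) = a :=
  Classical.epsilon_spec (gm_idx_surj _ ha)

omit [Fintype ι] [DecidableEq ι] [Finite μ] in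
theorem tm_idx {q : P} {t : ℝ} (ht : t ∈ G.T q) : G.tm q (gm_idx (G.T q) t) = t :=
  gm_idx_inj (G.tm_spec (gm_idx_lt_card ht)).1 ht (G.tm_spec (gm_idx_lt_card ht)).2

omit [Fintype ι] [DecidableEq ι] [Finite μ] in
include G in
theorem ne_of (hd : 2 ≤ d) (q : P) : Nonempty ι := by
  have := G.cur_card q
  obtain ⟨i, _⟩ := Finset.card_pos.1 (show 0 < (G.cur q).card by omega)
  exact ⟨i⟩

/-- The patch that hits at position `a`. -/
noncomputable def hit (hd : 2 ≤ d) (q : P) (a : ℕ) : ι :=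
  @Classical.epsilon ι (G.ne_of hd q) fun w => w ∉ G.cur q ∧ G.sec q (G.tm q a) ∈ patch g w

theorem hit_spec (hd : 2 ≤ d) (gp : GenPos g) (hc : Centre g z0 β) {q : P} {a : ℕ}
    (ha : a < (G.T q).card) : G.tm q a ∈ G.dom q ∧ G.hit hd q a ∉ G.cur q ∧
      On g (G.sec q (G.tm q a)) = insert (G.hit hd q a) (G.cur q) := by
  obtain ⟨h1, h2⟩ := (G.mem_T gp hc).1 (G.tm_spec ha).1
  have h3 := Classical.epsilon_spec h2
  exact ⟨h1, h3.1, G.on_eq gp h1 h3.1 h3.2⟩

theorem hit_idx (hd : 2 ≤ d) (gp : GenPos g) (hc : Centre g z0 β) {q : P} {t : ℝ}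
    (ht : t ∈ G.dom q) {w : ι} (hw : w ∉ G.cur q) (h : G.sec q t ∈ patch g w) :
    t ∈ G.T q ∧ G.hit hd q (gm_idx (G.T q) t) = w := by
  have h1 : t ∈ G.T q := (G.mem_T gp hc).2 ⟨ht, w, hw, h⟩
  refine ⟨h1, ?_⟩
  have h2 := (G.hit_spec hd gp hc (gm_idx_lt_card h1)).2.2
  rw [G.tm_idx h1] at h2
  have h3 := gm_mem_on.2 h
  rw [h2] at h3
  exact ((Finset.mem_insert.1 h3).resolve_right hw).symm

theorem hit_le (hd : 2 ≤ d) (gp : GenPos g) (hc : Centre g z0 β) (q : P) (w : ι) :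
    ((Finset.range (G.T q).card).filter fun a => G.hit hd q a = w).card ≤ β := by
  by_cases hw : w ∈ G.cur q
  · rw [Finset.filter_eq_empty_iff.2 fun a ha e =>
      (G.hit_spec hd gp hc (Finset.mem_range.1 ha)).2.1 (e ▸ hw)]
    exact Nat.zero_le _
  · have h1 := vertex_le gp hc (insert w (G.cur q)) (by
      rw [Finset.card_insert_of_notMem hw, G.cur_card])
    rw [← Set.ncard_coe_finset]
    refine (Set.ncard_le_ncard_of_injOn (fun a => G.sec q (G.tm q a)) (fun a ha => ?_)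
      (fun a ha b hb e => ?_) h1.1).trans h1.2
    · obtain ⟨h2, h3⟩ := Finset.mem_filter.1 (Finset.mem_coe.1 ha)
      exact h3 ▸ (G.hit_spec hd gp hc (Finset.mem_range.1 h2)).2.2
    · have h2 := Finset.mem_range.1 (Finset.mem_filter.1 (Finset.mem_coe.1 ha)).1
      have h3 := Finset.mem_range.1 (Finset.mem_filter.1 (Finset.mem_coe.1 hb)).1
      have h4 := congrArg (rho z0) e
      rw [G.rho_eq q _ (G.hit_spec hd gp hc h2).1, G.rho_eq q _ (G.hit_spec hd gp hc h3).1] at h4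
      rw [← (G.tm_spec h2).2, h4, (G.tm_spec h3).2]

end gm_Data

end CurK
end

-- merged part: Pool.Agent.Work.MP_8a5de9_co_K.GModB
section
/-! Visible slots, regular vertices, labels. -/

namespace CurK

open MvPolynomial Topology Filter

variable {d : ℕ} {ι μ : Type}

/-- A chosen index of a set of indices. -/
noncomputable def gm_pick (hd : 2 ≤ d) (S : Set (Fin d)) : Fin d :=
  @Classical.epsilon (Fin d) ⟨⟨0, by omega⟩⟩ fun j => j ∈ S

/-- The label of a point of the surface of `F`. -/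
noncomputable def gm_lz (hd : 2 ≤ d) (g : Arr d ι μ)
    (z0 : Fin d → ℝ) (F : Finset ι) (z : Fin d → ℝ) : ℕ :=
  Nat.pair (gm_pick hd {j | Coord g z0 F j z}) (rk g z0 F (gm_pick hd {j | Coord g z0 F j z}) z)

/-- The coordinate of a label. -/
def gm_co (hd : 2 ≤ d) (l : ℕ) : Fin d := ⟨l.unpair.1 % d, Nat.mod_lt _ (by omega)⟩

theorem gm_co_lz (hd : 2 ≤ d) (g : Arr d ι μ)
    (z0 : Fin d → ℝ) (F : Finset ι) (z : Fin d → ℝ) :
    gm_co hd (gm_lz hd g z0 F z) = gm_pick hd {j | Coord g z0 F j z} :=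
  Fin.ext (by simp only [gm_co, gm_lz, Nat.unpair_pair]; exact Nat.mod_eq_of_lt (Fin.is_lt _))

theorem gm_lz_inj [DecidableEq ι] (hd : 2 ≤ d) {g : Arr d ι μ}
    (gp : GenPos g) {z0 : Fin d → ℝ} {F γ γ' : Finset ι} (hF : F.card + 2 = d)
    (hγ : γ.card + 1 = d) (hγ' : γ'.card + 1 = d) (h1 : F ⊆ γ) (h2 : F ⊆ γ') {y z : Fin d → ℝ}
    (hy : y ∈ Reg g z0 γ) (hz : z ∈ Reg g z0 γ') (hl : gm_lz hd g z0 F y = gm_lz hd g z0 F z)
    (hr : rho z0 y = rho z0 z)
    (hc : y (gm_co hd (gm_lz hd g z0 F y)) = z (gm_co hd (gm_lz hd g z0 F y))) : y = z := by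
  have a1 : Coord g z0 F (gm_pick hd {j | Coord g z0 F j y}) y :=
    Classical.epsilon_spec (exists_coord g gp z0 hγ h1 (by omega) hy)
  have a2 : Coord g z0 F (gm_pick hd {j | Coord g z0 F j z}) z :=
    Classical.epsilon_spec (exists_coord g gp z0 hγ' h2 (by omega) hz)
  rw [gm_co_lz] at hc
  obtain ⟨a3, a4⟩ := Nat.pair_eq_pair.1 hl
  rw [← Fin.ext a3] at a2 a4
  exact rk_inj g z0 F hF _ (fun i hi => (hy.1 i (h1 hi)).1.1) (fun i hi => (hz.1 i (h2 hi)).1.1)
    a1 a2 hr hc a4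

/-- The equations of the patches, as constraints. -/
def gm_emb (ι μ : Type) : ι ↪ ι × Option μ := ⟨fun i => (i, none), fun _ _ e => congrArg Prod.fst e⟩

theorem gm_crit {g : Arr d ι μ}
    (gp : GenPos g) {z0 z : Fin d → ℝ} {γ : Finset ι} (h : z ∈ Rel g γ) (hn : z ∉ Reg g z0 γ) :
    z ∈ Crit (cons g) z0 (γ.map (gm_emb ι μ)) := by
  have key : ∀ k ∈ γ.map (gm_emb ι μ), z ∈ patch g k.1 ∧ eval z (g k.1 k.2) = 0 := fun k hk => by
    obtain ⟨i, hi, rfl⟩ := Finset.mem_map.1 hk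
    exact ⟨gm_rel_patch h hi, (h i hi).1.1⟩
  let f : γ.map (gm_emb ι μ) → {j : ι × Option μ // z ∈ patch g j.1 ∧ eval z (g j.1 j.2) = 0} :=
    fun k => ⟨k.1, key k.1 k.2⟩
  have hf : Function.Injective f := fun k k' e => Subtype.ext (congrArg (fun x => x.1) e)
  have a1 := (gp z).comp f hf
  have a2 : z - z0 ∈ Submodule.span ℝ (Set.range fun i : γ => grad (g i none) z) :=
    not_not.1 fun e => hn ⟨h, e⟩
  refine ⟨fun k hk => (key k hk).2, a1, Submodule.span_mono ?_ a2⟩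
  rintro _ ⟨i, rfl⟩
  exact ⟨⟨(i.1, none), Finset.mem_map.2 ⟨i.1, i.2, rfl⟩⟩, rfl⟩

namespace gm_Data

variable [Fintype ι] [DecidableEq ι] [Finite μ] {g : Arr d ι μ}
  {z0 : Fin d → ℝ} {B β : ℕ} {P : Type} (G : gm_Data g z0 B P)

/-- Visible slots. -/
def Vis (p : Fin d → ℝ) (R : Finset ι) (q : P) (σ : Finset ι) (x : ℕ) : Prop :=
  G.cur q ⊆ R ∧ σ ⊆ G.cur q ∧ ∃ t ∈ G.dom q, t ∉ G.T q ∧ gm_idx (G.T q) t = x ∧
    GVis g p R (G.cur q) σ (G.sec q t)

theorem transfer (hd : 2 ≤ d) (gp : GenPos g) (hc : Centre g z0 β) (p : Fin d → ℝ)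
    {R σ : Finset ι} {q : P} (hR : G.cur q ⊆ R) {t t' : ℝ} (ht : t ∈ G.dom q)
    (ht' : t' ∈ G.dom q)
    (h : ∀ u ∈ Set.uIcc t t', u ∈ G.T q → G.hit hd q (gm_idx (G.T q) u) ∉ R)
    (hv : GVis g p R (G.cur q) σ (G.sec q t)) : GVis g p R (G.cur q) σ (G.sec q t') := by
  have hs : Set.uIcc t t' ⊆ G.dom q := (G.ord q).uIcc_subset ht ht'
  refine slide_geo gp p σ hR (X := G.sec q '' Set.uIcc t t')
    (isPreconnected_uIcc.image _ ((G.cont q).mono hs)) ?_ ?_ ⟨t, Set.left_mem_uIcc, rfl⟩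
    ⟨t', Set.right_mem_uIcc, rfl⟩ hv
  · rintro _ ⟨u, hu, rfl⟩
    exact (G.mem q u (hs hu)).1
  · rintro _ ⟨u, hu, rfl⟩ w hw hw' e
    obtain ⟨a1, a2⟩ := G.hit_idx hd gp hc (hs hu) hw' e
    exact h u hu a1 (a2.symm ▸ hw)

theorem vis_iff (hd : 2 ≤ d) (gp : GenPos g) (hc : Centre g z0 β) (p : Fin d → ℝ)
    {R σ : Finset ι} {q : P} (hR : G.cur q ⊆ R) (hσ : σ ⊆ G.cur q) {t : ℝ} (ht : t ∈ G.dom q)
    (hT : t ∉ G.T q) :
    G.Vis p R q σ (gm_idx (G.T q) t) ↔ GVis g p R (G.cur q) σ (G.sec q t) := by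
  refine ⟨fun ⟨_, _, t', a1, a2, a3, a4⟩ => G.transfer hd gp hc p hR a1 ht (fun u hu h => ?_) a4,
    fun h => ⟨hR, hσ, t, ht, hT, rfl, h⟩⟩
  exfalso
  rcases Set.mem_uIcc.1 hu with e | e
  · have b1 := gm_idx_mono (G.T q) e.1
    have b2 := gm_idx_lt h (lt_of_le_of_ne e.2 fun b => hT (b ▸ h))
    omega
  · have b1 := gm_idx_mono (G.T q) e.1
    have b2 := gm_idx_lt h (lt_of_le_of_ne e.2 fun b => a2 (b ▸ h))
    omega

theorem slide (hd : 2 ≤ d) (gp : GenPos g) (hc : Centre g z0 β) (p : Fin d → ℝ)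
    {R σ : Finset ι} {q : P} {x : ℕ} (hx : x < (G.T q).card) (hR : G.hit hd q x ∉ R) :
    G.Vis p R q σ x ↔ G.Vis p R q σ (x + 1) := by
  obtain ⟨a1, a2⟩ := G.tm_spec hx
  have a3 : ∀ᶠ u in 𝓝 (G.tm q x), u ∈ G.dom q :=
    (G.isOpen q).mem_nhds (G.hit_spec hd gp hc hx).1
  obtain ⟨l, ⟨l1, l2⟩, l3⟩ := ((gm_left (G.T q) (G.tm q x)).and (nhdsWithin_le_nhds a3)).exists
  obtain ⟨r, ⟨r1, r2⟩, r3⟩ := ((gm_right a1).and (nhdsWithin_le_nhds a3)).exists
  rw [a2] at l2 r2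
  by_cases h : G.cur q ⊆ R ∧ σ ⊆ G.cur q
  · have key : ∀ u ∈ Set.uIcc l r, u ∈ G.T q → G.hit hd q (gm_idx (G.T q) u) ∉ R := by
      intro u hu h'
      have b0 : l < r := not_le.1 fun e => by
        have := gm_idx_mono (G.T q) e
        omega
      rw [Set.uIcc_of_le b0.le] at hu
      have b1 := gm_idx_mono (G.T q) hu.1
      have b2 := gm_idx_lt h' (lt_of_le_of_ne hu.2 fun b => r1 (b ▸ h'))
      rwa [show gm_idx (G.T q) u = x by omega]
    have b3 := G.vis_iff hd gp hc p h.1 h.2 l3 l1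
    have b4 := G.vis_iff hd gp hc p h.1 h.2 r3 r1
    rw [l2] at b3
    rw [r2] at b4
    rw [b3, b4]
    exact ⟨G.transfer hd gp hc p h.1 l3 r3 key,
      G.transfer hd gp hc p h.1 r3 l3 (by rwa [Set.uIcc_comm])⟩
  · exact ⟨fun e => absurd ⟨e.1, e.2.1⟩ h, fun e => absurd ⟨e.1, e.2.1⟩ h⟩

/-- `z` lies on the piece `q`. -/
def At (q : P) (z : Fin d → ℝ) : Prop := rho z0 z ∈ G.dom q ∧ G.sec q (rho z0 z) = z

/-- Regular vertices. -/
def IsV (z : Fin d → ℝ) : Prop :=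
  (On g z).card = d ∧ ∀ i ∈ On g z, ∃ q, G.cur q = (On g z).erase i ∧ G.At q z

theorem at_hit (hd : 2 ≤ d) (gp : GenPos g) (hc : Centre g z0 β) {q : P} {z : Fin d → ℝ}
    (hz : G.At q z) {i : ι} (hi : i ∈ On g z) (hq : G.cur q = (On g z).erase i) :
    rho z0 z ∈ G.T q ∧ G.hit hd q (gm_idx (G.T q) (rho z0 z)) = i :=
  G.hit_idx hd gp hc hz.1 (hq ▸ Finset.notMem_erase _ _) (by rw [hz.2]; exact gm_mem_on.1 hi)

theorem link (hd : 2 ≤ d) (gp : GenPos g) (hc : Centre g z0 β) (p : Fin d → ℝ) {q : P}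
    {z : Fin d → ℝ} {lam : ι → ℝ} (hm : Mult g z0 z lam) (hz : G.At q z) {i : ι}
    (hi : i ∈ On g z) (hq : G.cur q = (On g z).erase i) {R σ : Finset ι} (hR : On g z ⊆ R)
    (hσ : σ ⊆ On g z) : lam i ≠ 0 ∧
      (G.Vis p R q (σ.erase i) (gm_idx (G.T q) (rho z0 z) +
        if (i ∈ σ ↔ i ∈ (On g z).filter fun i => 0 < lam i) then 1 else 0) ↔
        GVis g p R (On g z) σ z) := by
  have a3 : ∀ᶠ u in 𝓝 (rho z0 z), u ∈ G.dom q := (G.isOpen q).mem_nhds hz.1
  obtain ⟨b1, b2, b3⟩ := link_geo gp p z0 hm hR hσ hi ((G.cont q).continuousAt a3) hz.2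
    (a3.mono fun t ht => ⟨G.rho_eq q t ht, hq ▸ G.mem q t ht⟩)
  have c1 : G.cur q ⊆ R := hq ▸ (Finset.erase_subset _ _).trans hR
  have c2 : σ.erase i ⊆ G.cur q := hq ▸ Finset.erase_subset_erase _ hσ
  have c3 : (i ∈ (On g z).filter fun i => 0 < lam i) ↔ 0 < lam i := by
    rw [Finset.mem_filter, and_iff_right hi]
  refine ⟨b1, ?_⟩
  split_ifs with h
  · obtain ⟨t, ⟨t1, t2⟩, t3, t4⟩ := ((gm_right (G.at_hit hd gp hc hz hi hq).1).and
      ((a3.filter_mono nhdsWithin_le_nhds).and (b2 (h.trans c3)))).exists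
    rw [← t2, G.vis_iff hd gp hc p c1 c2 t3 t1, hq, t4]
  · obtain ⟨t, ⟨t1, t2⟩, t3, t4⟩ := ((gm_left (G.T q) (rho z0 z)).and
      ((a3.filter_mono nhdsWithin_le_nhds).and (b3 fun e => h (e.trans c3.symm)))).exists
    rw [add_zero, ← t2, G.vis_iff hd gp hc p c1 c2 t3 t1, hq, t4]

/-- Few vertices are not regular. -/
theorem nonreg (gp : GenPos g) (hc : Centre g z0 β) (R : Finset ι) :
    ∃ N : Finset (Fin d → ℝ), N.card ≤ (B + β) * (R.card + 1) ^ (d - 1) ∧
      ∀ z, (On g z).card = d → On g z ⊆ R → ¬ G.IsV z → z ∈ N := by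
  classical
  choose! Cut c1 c2 using G.cover
  refine ⟨(R.powersetCard (d - 1)).biUnion fun γ => (if γ.card + 1 = d then Cut γ else ∅) ∪
    (hc (γ.map (gm_emb ι μ))).1.toFinset, ?_,
    fun z h1 h2 h3 => ?_⟩
  · refine (Finset.card_biUnion_le_card_mul _ _ (B + β) fun γ _ =>
      (Finset.card_union_le _ _).trans (add_le_add ?_ ?_)).trans ?_
    · split_ifs with h
      · exact c1 γ h
      · exact Nat.zero_le _
    · rw [← Set.ncard_eq_toFinset_card _ (hc _).1]
      exact (hc _).2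
    · rw [Finset.card_powersetCard, mul_comm]
      exact Nat.mul_le_mul_left _ ((Nat.choose_le_pow _ _).trans
        (Nat.pow_le_pow_left (Nat.le_succ _) _))
  · obtain ⟨i, hi, hn⟩ : ∃ i ∈ On g z, ¬ ∃ q, G.cur q = (On g z).erase i ∧ G.At q z := by
      by_contra e
      exact h3 ⟨h1, fun i hi => not_not.1 fun e' => e ⟨i, hi, e'⟩⟩
    have a1 : ((On g z).erase i).card + 1 = d := by rw [Finset.card_erase_add_one hi, h1]
    refine Finset.mem_biUnion.2 ⟨(On g z).erase i, Finset.mem_powersetCard.2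
      ⟨(Finset.erase_subset _ _).trans h2, by omega⟩, Finset.mem_union.2 ?_⟩
    by_cases e : z ∈ Reg g z0 ((On g z).erase i)
    · rw [if_pos a1]
      exact Or.inl ((c2 _ a1 z e).resolve_right hn)
    · exact Or.inr ((Set.Finite.mem_toFinset _).2 (gm_crit gp (fun j hj =>
        (vertex_rel gp h1).1 j (Finset.mem_of_mem_erase hj)) e))

/-- The label of a piece. -/
noncomputable def lab (hd : 2 ≤ d) (q : P) (F : Finset ι) : ℕ :=
  gm_lz hd g z0 F (G.sec q (Classical.epsilon fun t => t ∈ G.dom q))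

omit [Fintype ι] [DecidableEq ι] [Finite μ] in
theorem lab_eq (hd : 2 ≤ d) {q : P} {F : Finset ι} (h1 : F ⊆ G.cur q) (h2 : F.card + 2 = d)
    {t : ℝ} (ht : t ∈ G.dom q) : G.lab hd q F = gm_lz hd g z0 F (G.sec q t) := by
  have a1 : Classical.epsilon (fun t => t ∈ G.dom q) ∈ G.dom q := Classical.epsilon_spec ⟨t, ht⟩
  have a2 := fun j => G.coord q F j h1 h2 _ a1 t ht
  unfold lab gm_lz
  rw [show {j | Coord g z0 F j (G.sec q (Classical.epsilon fun t => t ∈ G.dom q))} =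
    {j | Coord g z0 F j (G.sec q t)} from Set.ext fun j => (a2 j).1, (a2 _).2]

omit [Fintype ι] [Finite μ] in
/-- Points of two pieces with the same label and the same plane coordinates coincide. -/
theorem sec_eq (hd : 2 ≤ d) (gp : GenPos g) {q q' : P} {F : Finset ι} (h2 : F.card + 2 = d)
    (h1 : F ⊆ G.cur q) (h1' : F ⊆ G.cur q') (hl : G.lab hd q F = G.lab hd q' F) {t : ℝ}
    (ht : t ∈ G.dom q) (ht' : t ∈ G.dom q')
    (hc : G.sec q t (gm_co hd (G.lab hd q F)) = G.sec q' t (gm_co hd (G.lab hd q F))) :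
    G.sec q t = G.sec q' t := by
  rw [G.lab_eq hd h1 h2 ht] at hl hc
  rw [G.lab_eq hd h1' h2 ht'] at hl
  exact gm_lz_inj hd gp h2 (G.cur_card q) (G.cur_card q') h1 h1' (G.mem q t ht) (G.mem q' t ht')
    hl (by rw [G.rho_eq q t ht, G.rho_eq q' t ht']) hc

end gm_Data

end CurK
end

-- merged part: Pool.Agent.Work.MP_8a5de9_co_K.GMod
section
/-! The model of an arrangement (paper 2.4). -/

namespace CurK

open MvPolynomial

namespace gm_Data

variable {d : ℕ} {ι μ : Type} [Fintype ι] [DecidableEq ι] [Finite μ]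
  {g : Arr d ι μ}
  {z0 : Fin d → ℝ} {B β : ℕ} {P : Type} (G : gm_Data g z0 B P)

omit [Finite μ] in
theorem exists_pc (hd : 2 ≤ d) (v : {z // G.IsV z}) (i : ι) :
    ∃ q, i ∈ On g v.1 → G.cur q = (On g v.1).erase i ∧ G.At q v.1 := by
  by_cases h : i ∈ On g v.1
  · exact (v.2.2 i h).imp fun _ hq _ => hq
  · have := v.2.1
    obtain ⟨j, hj⟩ := Finset.card_pos.1 (show 0 < (On g v.1).card by omega)
    exact (v.2.2 j hj).imp fun _ _ e => absurd e h

/-- The piece through a regular vertex. -/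
noncomputable def pc (hd : 2 ≤ d) (v : {z // G.IsV z}) (i : ι) : P := (G.exists_pc hd v i).choose

omit [Finite μ] in
theorem pc_spec (hd : 2 ≤ d) (v : {z // G.IsV z}) {i : ι} (hi : i ∈ On g v.1) :
    G.cur (G.pc hd v i) = (On g v.1).erase i ∧ G.At (G.pc hd v i) v.1 :=
  (G.exists_pc hd v i).choose_spec hi

/-- The multipliers at a regular vertex. -/
noncomputable def lam (gp : GenPos g) (v : {z // G.IsV z}) : ι → ℝ :=
  ((vertex_rel gp v.2.1).2 z0).choose

theorem lam_spec (gp : GenPos g) (v : {z // G.IsV z}) : Mult g z0 v.1 (G.lam gp v) :=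
  ((vertex_rel gp v.2.1).2 z0).choose_spec

theorem finite_V (gp : GenPos g) (hc : Centre g z0 β) : Finite {z // G.IsV z} := by
  have h1 : (⋃ D ∈ {D : Finset ι | D.card = d}, {z | On g z = D}).Finite :=
    (Set.toFinite _).biUnion fun D hD => (vertex_le gp hc D hD).1
  exact (h1.subset fun z (hz : G.IsV z) => Set.mem_biUnion hz.1 rfl).to_subtype

theorem bad_le (hd : 2 ≤ d) (gp : GenPos g) (hc : Centre g z0 β) (R : Finset ι) :
    {x : P × ℕ | x.2 < (G.T x.1).card ∧ G.cur x.1 ⊆ R ∧ G.hit hd x.1 x.2 ∈ R ∧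
      ¬ ∃ v : {z // G.IsV z}, ∃ i ∈ On g v.1, G.pc hd v i = x.1 ∧
        gm_idx (G.T (G.pc hd v i)) (rho z0 v.1) = x.2}.ncard ≤
      d * ((B + β) * (R.card + 1) ^ (d - 1)) := by
  classical
  obtain ⟨N, n1, n2⟩ := G.nonreg gp hc R
  have key : ∀ (q : P) (a : ℕ), a < (G.T q).card → G.At q (G.sec q (G.tm q a)) ∧
      rho z0 (G.sec q (G.tm q a)) = G.tm q a ∧ G.hit hd q a ∈ On g (G.sec q (G.tm q a)) ∧
      G.cur q = (On g (G.sec q (G.tm q a))).erase (G.hit hd q a) := fun q a ha => by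
    obtain ⟨a1, a2, a3⟩ := G.hit_spec hd gp hc ha
    have a4 := G.rho_eq q _ a1
    refine ⟨⟨by rwa [a4], by rw [a4]⟩, a4, ?_, ?_⟩
    · rw [a3]
      exact Finset.mem_insert_self _ _
    · rw [a3, Finset.erase_insert a2]
  refine (Set.ncard_le_ncard_of_injOn
    (t := ↑(N.biUnion fun z => (On g z).image fun i => (z, i)))
    (fun x => (G.sec x.1 (G.tm x.1 x.2), G.hit hd x.1 x.2)) ?_ ?_ (Finset.finite_toSet _)).trans ?_
  · rintro ⟨q, a⟩ ⟨h1, h2, h3, h4⟩
    obtain ⟨k1, k2, k3, k4⟩ := key q a h1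
    obtain ⟨a1, a2, a3⟩ := G.hit_spec hd gp hc h1
    refine Finset.mem_coe.2 (Finset.mem_biUnion.2 ⟨_, n2 _ ?_ ?_ fun hv => h4 ?_,
      Finset.mem_image.2 ⟨_, k3, rfl⟩⟩)
    · rw [a3, Finset.card_insert_of_notMem a2, G.cur_card]
    · rw [a3]
      exact Finset.insert_subset h3 h2
    · obtain ⟨b1, b2⟩ := G.pc_spec hd ⟨_, hv⟩ k3
      have b3 : G.pc hd ⟨_, hv⟩ (G.hit hd q a) = q :=
        G.disj _ _ (b1.trans k4.symm) _ b2.1 k1.1 (b2.2.trans k1.2.symm)
      exact ⟨⟨_, hv⟩, _, k3, b3, by rw [b3, k2]; exact (G.tm_spec h1).2⟩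
  · rintro ⟨q, a⟩ ⟨h1, -⟩ ⟨q', a'⟩ ⟨h1', -⟩ e
    obtain ⟨e1, e2⟩ := Prod.mk.inj e
    obtain ⟨k1, k2, -, k4⟩ := key q a h1
    obtain ⟨l1, l2, -, l4⟩ := key q' a' h1'
    dsimp only at e1 e2 h1 h1'
    rw [← e1] at l1 l2 l4
    obtain rfl : q = q' := G.disj _ _ (by rw [k4, l4, e2]) _ k1.1 l1.1 (k1.2.trans l1.2.symm)
    rw [← (G.tm_spec h1).2, ← k2, l2, (G.tm_spec h1').2]
  · rw [Set.ncard_coe_finset]
    refine (Finset.card_biUnion_le_card_mul _ _ d fun z _ =>
      Finset.card_image_le.trans (on_card_le gp z)).trans ?_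
    rw [mul_comm]
    exact Nat.mul_le_mul_left _ n1

theorem pl (hd : 2 ≤ d) (gp : GenPos g) (hc : Centre g z0 β) {F : Finset ι} {q q' : P}
    (u z : Bool → Fin d → ℝ) (h2 : F.card + 2 = d) (h1 : F ⊆ G.cur q) (h1' : F ⊆ G.cur q')
    (hl : G.lab hd q F = G.lab hd q' F) (hu : ∀ a, G.At q (u a)) (hz : ∀ a, G.At q' (z a))
    (hdis : ∀ x ∈ Set.uIcc (gm_idx (G.T q) (rho z0 (u true))) (gm_idx (G.T q) (rho z0 (u false))),
      ∀ y ∈ Set.uIcc (gm_idx (G.T q') (rho z0 (z true))) (gm_idx (G.T q') (rho z0 (z false))),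
        ¬ (q = q' ∧ x = y) ∧ ¬ (G.hit hd q x ∈ G.cur q' ∧ G.hit hd q' y ∈ G.cur q)) :
    ∑ a, ∑ b, (nuP (fun t => G.sec q t (gm_co hd (G.lab hd q F))) (G.dom q) (rho z0 (u a))
        (rho z0 (z b), z b (gm_co hd (G.lab hd q F))) +
      nuP (fun t => G.sec q' t (gm_co hd (G.lab hd q' F))) (G.dom q') (rho z0 (z b))
        (rho z0 (u a), u a (gm_co hd (G.lab hd q' F))) +
      epP (rho z0 (u a), u a (gm_co hd (G.lab hd q F)))
        (rho z0 (z b), z b (gm_co hd (G.lab hd q F)))) = 0 := by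
  have key := plane_id (fun t => G.sec q t (gm_co hd (G.lab hd q F)))
    (fun t => G.sec q' t (gm_co hd (G.lab hd q F))) (G.dom q) (G.dom q') (G.ord q) (G.ord q')
    (continuousOn_pi.1 (G.cont q) _) (continuousOn_pi.1 (G.cont q') _)
    (fun a => rho z0 (u a)) (fun a => rho z0 (z a)) (fun a => (hu a).1) (fun a => (hz a).1)
    (fun t t1 t2 e => by
      have a1 := (G.ord q).uIcc_subset (hu true).1 (hu false).1 t1
      have a2 := (G.ord q').uIcc_subset (hz true).1 (hz false).1 t2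
      have a3 := G.sec_eq hd gp h2 h1 h1' hl a1 a2 e
      obtain ⟨b1, b2⟩ := hdis _ (gm_idx_uIcc _ t1) _ (gm_idx_uIcc _ t2)
      by_cases ec : G.cur q = G.cur q'
      · obtain rfl := G.disj _ _ ec t a1 a2 a3
        exact b1 ⟨rfl, rfl⟩
      · have c1 := G.cur_card q
        have c2 := G.cur_card q'
        obtain ⟨w, w1, w2⟩ := Finset.not_subset.1 fun e : G.cur q' ⊆ G.cur q =>
          ec (Finset.eq_of_subset_of_card_le e (by omega)).symm
        obtain ⟨w', w3, w4⟩ := Finset.not_subset.1 fun e : G.cur q ⊆ G.cur q' =>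
          ec (Finset.eq_of_subset_of_card_le e (by omega))
        refine b2 ⟨?_, ?_⟩
        · rwa [(G.hit_idx hd gp hc a1 w2 (a3 ▸ gm_rel_patch (G.mem q' t a2).1 w1)).2]
        · rwa [(G.hit_idx hd gp hc a2 w4 (a3 ▸ gm_rel_patch (G.mem q t a1).1 w3)).2])
  simp only [(hu _).2, (hz _).2] at key
  rw [← hl]
  exact key

/-- The model. -/
noncomputable def toMod (hd : 2 ≤ d) (gp : GenPos g) (hc : Centre g z0 β) (p : Fin d → ℝ)
    (hp : ∀ i, p ∉ patch g i) {s : ℕ} (hs : d * (B + β) ≤ s) : Mod d s ι P {z // G.IsV z} where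
  cur := G.cur
  cur_card := G.cur_card
  cur_le γ := (G.cur_le γ).trans (le_trans (by nlinarith) hs)
  len q := (G.T q).card
  hit := G.hit hd
  hit_not _ _ ha := (G.hit_spec hd gp hc ha).2.1
  hit_le q w := (G.hit_le hd gp hc q w).trans (le_trans (by nlinarith) hs)
  Vis := G.Vis p
  vis_sub := fun ⟨h1, h2, _, _, _, h3, _⟩ => ⟨h1, h2, h3 ▸ gm_idx_le _ _⟩
  mono := fun h1 h2 ⟨_, h3, t, h4, h5, h6, h7⟩ => ⟨h1, h3, t, h4, h5, h6, gvis_mono hp h2 h7⟩
  slide := G.slide hd gp hc p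
  tup v := On g v.1
  tup_card v := v.2.1
  tup_le D := by
    by_cases h : D.card = d
    · exact ((Set.ncard_le_ncard_of_injOn Subtype.val (fun _ hv => hv)
        Subtype.val_injective.injOn (vertex_le gp hc D h).1).trans (vertex_le gp hc D h).2).trans
        (le_trans (by nlinarith) hs)
    · rw [Set.eq_empty_of_forall_notMem (s := {v : {z // G.IsV z} | On g v.1 = D})
        fun v hv => h (hv ▸ v.2.1), Set.ncard_empty]
      exact Nat.zero_le _
  pc := G.pc hd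
  ps v i := gm_idx (G.T (G.pc hd v i)) (rho z0 v.1)
  dir v := (On g v.1).filter fun i => 0 < G.lam gp v i
  dir_sub _ := Finset.filter_subset _ _
  pc_cur v _ hi := (G.pc_spec hd v hi).1
  ps_lt v _ hi :=
    gm_idx_lt_card (G.at_hit hd gp hc (G.pc_spec hd v hi).2 hi (G.pc_spec hd v hi).1).1
  ps_hit v _ hi := (G.at_hit hd gp hc (G.pc_spec hd v hi).2 hi (G.pc_spec hd v hi).1).2
  inj v v' i hi i' hi' e1 e2 := by
    have a1 := (G.at_hit hd gp hc (G.pc_spec hd v hi).2 hi (G.pc_spec hd v hi).1).1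
    have a2 := (G.at_hit hd gp hc (G.pc_spec hd v' hi').2 hi' (G.pc_spec hd v' hi').1).1
    have a3 := (G.pc_spec hd v hi).2.2
    rw [e1] at a1 e2 a3
    rw [gm_idx_inj a1 a2 e2, (G.pc_spec hd v' hi').2.2] at a3
    exact Subtype.ext a3.symm
  bad R := (G.bad_le hd gp hc R).trans (by rw [← mul_assoc]; exact Nat.mul_le_mul_right _ hs)
  link R v σ hR hσ i hi j hj h :=
    (G.link hd gp hc p (G.lam_spec gp v) (G.pc_spec hd v hj).2 hj (G.pc_spec hd v hj).1
      hR hσ).2.2 ((G.link hd gp hc p (G.lam_spec gp v) (G.pc_spec hd v hi).2 hi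
        (G.pc_spec hd v hi).1 hR hσ).2.1 h)
  lab := G.lab hd
  lab_eq v i hi j hj hij := by
    have a1 : (((On g v.1).erase i).erase j).card + 2 = d := by
      have b1 := Finset.card_erase_add_one (Finset.mem_erase.2 ⟨hij.symm, hj⟩)
      have b2 := Finset.card_erase_add_one hi
      have b3 := v.2.1
      omega
    obtain ⟨a2, a3⟩ := G.pc_spec hd v hi
    obtain ⟨a4, a5⟩ := G.pc_spec hd v hj
    rw [G.lab_eq hd (a2 ▸ Finset.erase_subset _ _) a1 a3.1, a3.2,
      G.lab_eq hd (a4 ▸ Finset.erase_subset_erase _ (Finset.erase_subset _ _)) a1 a5.1, a5.2]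
  nu F q u z := nuP (fun t => G.sec q t (gm_co hd (G.lab hd q F))) (G.dom q) (rho z0 u.1)
    (rho z0 z.1, z.1 (gm_co hd (G.lab hd q F)))
  ep _ l u z := epP (rho z0 u.1, u.1 (gm_co hd l)) (rho z0 z.1, z.1 (gm_co hd l))
  ep_anti F u z i hi j hj h2 h1 h1' hl hne := epP_anti fun e => by
    obtain ⟨e1, e2⟩ := Prod.mk.inj e
    obtain ⟨a1, a2⟩ := (G.pc_spec hd u hi).2
    obtain ⟨a3, a4⟩ := (G.pc_spec hd z hj).2
    rw [← e1] at a3 a4
    have := G.sec_eq hd gp h2 h1 h1' hl a1 a3 (by rw [a2, a4]; exact e2)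
    rw [a2, a4] at this
    exact hne (Subtype.ext this)
  pl F q q' u z i j h2 h1 h1' hl hu hz hdis := by
    refine G.pl hd gp hc (fun a => (u a).1) (fun a => (z a).1) h2 h1 h1' hl
      (fun a => (hu a).2 ▸ (G.pc_spec hd _ (hu a).1).2)
      (fun a => (hz a).2 ▸ (G.pc_spec hd _ (hz a).1).2) ?_
    simp only [(hu _).2, (hz _).2] at hdis
    exact hdis

theorem ov_iff (hd : 2 ≤ d) (gp : GenPos g) (hc : Centre g z0 β) (p : Fin d → ℝ)
    (hp : ∀ i, p ∉ patch g i) {s : ℕ} (hs : d * (B + β) ≤ s) (R : Finset ι)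
    (v : {z // G.IsV z}) (σ : Finset ι) : (G.toMod hd gp hc p hp hs).OV R v σ ↔
      On g v.1 ⊆ R ∧ σ ⊆ On g v.1 ∧ GVis g p R (On g v.1) σ v.1 := by
  refine and_congr_right fun hR => and_congr_right fun hσ => ⟨fun h => ?_, fun h i hi =>
    (G.link hd gp hc p (G.lam_spec gp v) (G.pc_spec hd v hi).2 hi
      (G.pc_spec hd v hi).1 hR hσ).2.2 h⟩
  have := v.2.1
  obtain ⟨i, hi⟩ := Finset.card_pos.1 (show 0 < (On g v.1).card by omega)
  exact (G.link hd gp hc p (G.lam_spec gp v) (G.pc_spec hd v hi).2 hi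
    (G.pc_spec hd v hi).1 hR hσ).2.1 (h i hi)

theorem gv_le (hd : 2 ≤ d) (gp : GenPos g) (hc : Centre g z0 β) (p : Fin d → ℝ)
    (hp : ∀ i, p ∉ patch g i) {s : ℕ} (hs : d * (B + β) ≤ s) :
    (GV g p).ncard ≤ (G.toMod hd gp hc p hp hs).VV Finset.univ +
      2 ^ d * ((B + β) * (Fintype.card ι + 1) ^ (d - 1)) := by
  classical
  obtain ⟨N, n1, n2⟩ := G.nonreg gp hc Finset.univ
  have := G.finite_V gp hc
  have a1 : GV g p ⊆ (fun x : {z // G.IsV z} × Finset ι => (x.1.1, x.2)) ''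
      {x | (G.toMod hd gp hc p hp hs).OV Finset.univ x.1 x.2} ∪
      ↑(N.biUnion fun z => (On g z).powerset.image fun σ => (z, σ)) := by
    rintro ⟨z, σ⟩ ⟨h1, h2, h3⟩
    by_cases h : G.IsV z
    · exact Or.inl ⟨(⟨z, h⟩, σ), (G.ov_iff hd gp hc p hp hs _ _ _).2
        ⟨Finset.subset_univ _, h2, h3⟩, rfl⟩
    · exact Or.inr (Finset.mem_coe.2 (Finset.mem_biUnion.2 ⟨z, n2 z h1 (Finset.subset_univ _) h,
        Finset.mem_image.2 ⟨σ, Finset.mem_powerset.2 h2, rfl⟩⟩))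
  refine (Set.ncard_le_ncard a1 (((Set.toFinite _).image _).union (Finset.finite_toSet _))).trans
    ((Set.ncard_union_le _ _).trans (add_le_add (Set.ncard_image_le (Set.toFinite _)) ?_))
  rw [Set.ncard_coe_finset]
  refine (Finset.card_biUnion_le_card_mul _ _ (2 ^ d) fun z _ =>
    Finset.card_image_le.trans ?_).trans ?_
  · rw [Finset.card_powerset]
    exact Nat.pow_le_pow_right two_pos (on_card_le gp z)
  · rw [mul_comm]
    exact Nat.mul_le_mul_left _ n1

end gm_Data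

theorem exists_mod (d m b β : ℕ) (hd : 2 ≤ d) : ∃ s : ℕ, ∀ {ι : Type} [Fintype ι] [DecidableEq ι]
    (g : Arr d ι (Fin m)), (∀ i l, (g i l).totalDegree ≤ b) →
    GenPos g → ∀ z0, Centre g z0 β → ∀ p, (∀ i, p ∉ patch g i) →
    ∃ (P V : Type) (_ : Finite P) (_ : Finite V) (M : Mod d s ι P V) (ht : V → ℝ), M.Hts ht ∧
      (GV g p).ncard ≤ M.VV Finset.univ + s * (Fintype.card ι + 1) ^ (d - 1) := by
  obtain ⟨B, hB⟩ := exists_pieces d m b
  obtain ⟨C, hC⟩ := min_le d m b β hd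
  refine ⟨2 ^ d * (B + β) + C, fun g hg gp z0 hc p hp => ?_⟩
  obtain ⟨P, hP, ⟨G⟩⟩ := gm_exists_data (hB g hg gp z0)
  have hs : d * (B + β) ≤ 2 ^ d * (B + β) + C :=
    (Nat.mul_le_mul_right _ Nat.lt_two_pow_self.le).trans (Nat.le_add_right _ _)
  refine ⟨P, {z // G.IsV z}, hP, G.finite_V gp hc, G.toMod hd gp hc p hp hs,
    fun v => rho z0 v.1, ⟨fun v v' i _ i' _ e1 e2 => ?_, fun R => ?_⟩,
    (G.gv_le hd gp hc p hp hs).trans (add_le_add le_rfl ?_)⟩
  · have e3 : G.pc hd v i = G.pc hd v' i' := e1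
    have e4 : gm_idx (G.T (G.pc hd v i)) (rho z0 v.1) <
      gm_idx (G.T (G.pc hd v' i')) (rho z0 v'.1) := e2
    rw [e3] at e4
    exact (gm_idx_mono _).reflect_lt e4
  · refine le_trans (Set.ncard_le_ncard_of_injOn Subtype.val (fun v hv => ?_)
      Subtype.val_injective.injOn ?_)
      ((hC g hg gp z0 hc p hp R).trans (Nat.mul_le_mul_right _ (Nat.le_add_left _ _)))
    · obtain ⟨a1, a2, a3⟩ := (G.ov_iff hd gp hc p hp hs R v _).1 hv
      exact ⟨a1, G.lam gp v, G.lam_spec gp v, fun i hi => (G.link hd gp hc p (G.lam_spec gp v)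
        (G.pc_spec hd v hi).2 hi (G.pc_spec hd v hi).1 a1 a2).1, a3⟩
    · exact ((Set.toFinite {D : Finset _ | D.card = d}).biUnion fun D hD =>
        (vertex_le gp hc D hD).1).subset fun z ⟨_, _, h, _⟩ => Set.mem_biUnion h.1 rfl
  · rw [← mul_assoc]
    exact Nat.mul_le_mul_right _ (Nat.le_add_right _ _)

end CurK
end

-- merged part: Pool.Agent.Work.MP_8a5de9_co_K.Faces
section
/-! From faces to vertices (paper 2.6). -/

namespace CurK

open MvPolynomial Topology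

section aux

variable {d : ℕ} {ι μ : Type} {g : Arr d ι μ}

theorem fa_refl (x : Fin d → ℝ) : Same g x x := fun _ => ⟨Iff.rfl, fun _ _ => Iff.rfl⟩

theorem fa_symm {x y : Fin d → ℝ} (h : Same g x y) : Same g y x :=
  fun i => ⟨(h i).1.symm, fun hy l => ((h i).2 ((h i).1.2 hy) l).symm⟩

theorem fa_trans {x y w : Fin d → ℝ} (h : Same g x y) (h' : Same g y w) : Same g x w :=
  fun i => ⟨(h i).1.trans (h' i).1, fun hx l => ((h i).2 hx l).trans ((h' i).2 ((h i).1.1 hx) l)⟩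

theorem fa_mem (x : Fin d → ℝ) : x ∈ face g x := mem_connectedComponentIn (fa_refl x)

theorem fa_same {x y : Fin d → ℝ} (h : y ∈ face g x) : Same g x y :=
  connectedComponentIn_subset {y | Same g x y} x h

theorem fa_eq {x y : Fin d → ℝ} (h : y ∈ face g x) : face g y = face g x := by
  have e : {w | Same g y w} = {w | Same g x w} :=
    Set.ext fun w => ⟨fa_trans (fa_same h), fa_trans (fa_symm (fa_same h))⟩
  rw [face, e]
  exact (connectedComponentIn_eq h).symm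

theorem fa_sub {S : Set (Fin d → ℝ)} (hS : IsPreconnected S) {y : Fin d → ℝ} (hy : y ∈ S)
    (h : ∀ w ∈ S, Same g y w) : S ⊆ face g y := hS.subset_connectedComponentIn hy h

theorem fa_cell {p y : Fin d → ℝ} (hy : y ∈ cell g p) : face g y ⊆ cell g p := by
  have h1 := connectedComponentIn_subset _ _ hy
  rw [cell, connectedComponentIn_eq hy]
  refine isPreconnected_connectedComponentIn.subset_connectedComponentIn (fa_mem y) fun w hw => ?_
  simp only [Set.mem_compl_iff, Set.mem_iUnion, not_exists] at h1 ⊢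
  exact fun i hi => h1 i ((fa_same hw i).1.2 hi)

theorem fa_cont (q : MvPolynomial (Fin d) ℝ) : Continuous fun y : Fin d → ℝ => eval y q :=
  MvPolynomial.continuous_eval q

theorem fa_sign (q : MvPolynomial (Fin d) ℝ) {z : Fin d → ℝ} (h : eval z q ≠ 0) :
    ∀ᶠ y in 𝓝 z, SignType.sign (eval y q) = SignType.sign (eval z q) := by
  rcases lt_or_gt_of_ne h with a | a
  · filter_upwards [(isOpen_lt (fa_cont q) continuous_const).mem_nhds a] with y hy
    rw [sign_neg a, sign_neg hy]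
  · filter_upwards [(isOpen_lt continuous_const (fa_cont q)).mem_nhds a] with y hy
    rw [sign_pos a, sign_pos hy]

theorem fa_min (z0 : Fin d → ℝ) {X : Set (Fin d → ℝ)} (hX : IsClosed X) {x : Fin d → ℝ}
    (hx : x ∈ X) : ∃ z ∈ X, ∀ y ∈ X, rho z0 z ≤ rho z0 y := by
  have hc : Continuous (rho z0) := by
    unfold rho
    fun_prop
  have hK : IsCompact {y | rho z0 y ≤ rho z0 x} := by
    refine (isCompact_closedBall z0 (rho z0 x + 1)).of_isClosed_subset
      (isClosed_le hc continuous_const) fun y hy => ?_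
    have h0 : ∀ w, 0 ≤ rho z0 w := fun w => Finset.sum_nonneg fun _ _ => sq_nonneg _
    refine (dist_pi_le_iff (by linarith [h0 x])).2 fun j => ?_
    have h1 : (y j - z0 j) ^ 2 ≤ rho z0 x := (Finset.single_le_sum
      (f := fun j => (y j - z0 j) ^ 2) (fun _ _ => sq_nonneg _) (Finset.mem_univ j)).trans hy
    rw [Real.dist_eq]
    nlinarith [sq_nonneg (|y j - z0 j| - 1), sq_abs (y j - z0 j), sq_nonneg (y j - z0 j)]
  obtain ⟨z, hz, h⟩ := (hK.inter_left hX).exists_isMinOn ⟨x, hx, le_refl (rho z0 x)⟩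
    hc.continuousOn
  refine ⟨z, hz.1, fun y hy => ?_⟩
  rcases le_total (rho z0 y) (rho z0 x) with a | a
  exacts [h ⟨hy, a⟩, le_trans hz.2 a]

variable [Fintype ι] [DecidableEq ι] [Fintype μ]

open Classical in
/-- The active constraints at `z`. -/
noncomputable def fa_act (g : Arr d ι μ) (z : Fin d → ℝ) :
    Finset (ι × Option μ) :=
  Finset.univ.filter fun j => z ∈ patch g j.1 ∧ eval z (g j.1 j.2) = 0

omit [DecidableEq ι] in
theorem fa_act_mem {z : Fin d → ℝ} {j : ι × Option μ} :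
    j ∈ fa_act g z ↔ z ∈ patch g j.1 ∧ eval z (g j.1 j.2) = 0 := by
  simp only [fa_act, Finset.mem_filter, Finset.mem_univ, true_and]

omit [DecidableEq ι] in
theorem fa_li (gp : GenPos g) (z : Fin d → ℝ) :
    LinearIndependent ℝ fun k : fa_act g z => grad (cons g k) z :=
  (gp z).comp (fun k : fa_act g z => ⟨k.1, fa_act_mem.1 k.2⟩)
    fun _ _ e => Subtype.ext (Subtype.mk.inj e)

theorem fa_nhds (z : Fin d → ℝ) : ∃ U ∈ 𝓝 z, ∀ y ∈ U, ∀ y' ∈ U,
    (∀ k : fa_act g z, SignType.sign (eval y (cons g k)) = SignType.sign (eval y' (cons g k))) →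
      Same g y y' := by
  have h1 : ∀ᶠ y in 𝓝 z, ∀ i, z ∉ patch g i → y ∉ patch g i :=
    Filter.eventually_all.2 fun i => Filter.eventually_imp_distrib_left.2 fun hi =>
      (isClosed_patch i).isOpen_compl.mem_nhds hi
  have h2 : ∀ᶠ y in 𝓝 z, ∀ j : ι × Option μ, eval z (g j.1 j.2) ≠ 0 →
      SignType.sign (eval y (g j.1 j.2)) = SignType.sign (eval z (g j.1 j.2)) :=
    Filter.eventually_all.2 fun j => Filter.eventually_imp_distrib_left.2 fun hj => fa_sign _ hj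
  refine ⟨_, h1.and h2, fun y hy y' hy' h i => ?_⟩
  by_cases hi : z ∈ patch g i
  · have h3 : ∀ o, SignType.sign (eval y (g i o)) = SignType.sign (eval y' (g i o)) := fun o => by
      by_cases ho : eval z (g i o) = 0
      · exact h ⟨(i, o), fa_act_mem.2 ⟨hi, ho⟩⟩
      · exact (hy.2 (i, o) ho).trans (hy'.2 (i, o) ho).symm
    have h5 : ∀ o, eval y (g i o) = 0 ↔ eval y' (g i o) = 0 := fun o => by
      rw [← sign_eq_zero_iff, h3, sign_eq_zero_iff]
    have h6 : (fun l => SignType.sign (eval y (g i (some l)))) =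
        fun l => SignType.sign (eval y' (g i (some l))) := funext fun l => h3 (some l)
    exact ⟨and_congr (h5 none) (by rw [h6]), fun _ l => h5 (some l)⟩
  · exact ⟨iff_of_false (hy.1 i hi) (hy'.1 i hi), fun a => absurd a (hy.1 i hi)⟩

theorem fa_loc (gp : GenPos g) (z : Fin d → ℝ) : ∃ W, IsOpen W ∧ z ∈ W ∧
    (∀ y ∈ W, ∀ y' ∈ W, (∀ k : fa_act g z, SignType.sign (eval y' (cons g k)) =
      SignType.sign (eval y (cons g k))) → face g y' = face g y) ∧
    ∀ y ∈ W, ∀ y' ∈ W, Same g z y' → y' ∈ closure (face g y) := by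
  obtain ⟨U, hU, h⟩ := fa_nhds (g := g) z
  obtain ⟨W, h1, h2, h3, h4⟩ := chart_sign (fun k : fa_act g z => cons g k) z (fa_li gp z)
    (fun k => (fa_act_mem.1 k.2).2) U hU
  have h5 : ∀ y ∈ W, {w ∈ W | ∀ k : fa_act g z, SignType.sign (eval w (cons g k)) =
      SignType.sign (eval y (cons g k))} ⊆ face g y := fun y hy =>
    fa_sub (h4 _).1 ⟨hy, fun _ => rfl⟩ fun w hw => h y (h3 hy) w (h3 hw.1) fun k => (hw.2 k).symm
  refine ⟨W, h1, h2, fun y hy y' hy' e => fa_eq (h5 y hy ⟨hy', e⟩), fun y hy y' hy' e =>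
    closure_mono (h5 y hy) ((h4 _).2 y' hy' fun k => Or.inr ?_)⟩
  obtain ⟨⟨i, o⟩, hk⟩ := k
  obtain ⟨a, b⟩ := fa_act_mem.1 hk
  rcases o with _ | l
  exacts [((e i).1.1 a).1, ((e i).2 a l).1 b]

/-- At most `3 ^ d` faces have a given point in the closure. -/
theorem fa_few (gp : GenPos g) (z : Fin d → ℝ) : ∃ Φ : Finset (Set (Fin d → ℝ)), Φ.card ≤ 3 ^ d ∧
    ∀ x, z ∈ closure (face g x) → face g x ∈ Φ := by
  classical
  obtain ⟨W, h1, h2, h3, -⟩ := fa_loc gp z
  have h4 : ∀ τ : fa_act g z → SignType, ∃ F : Set (Fin d → ℝ), ∀ y ∈ W,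
      (fun k : fa_act g z => SignType.sign (eval y (cons g k))) = τ → face g y = F := fun τ => by
    by_cases a : ∃ y ∈ W, (fun k : fa_act g z => SignType.sign (eval y (cons g k))) = τ
    · obtain ⟨y, hy, e⟩ := a
      exact ⟨face g y, fun y' hy' e' => h3 y hy y' hy' fun k => congrFun (e'.trans e.symm) k⟩
    · exact ⟨∅, fun y hy e => absurd ⟨y, hy, e⟩ a⟩
  choose F hF using h4
  refine ⟨Finset.univ.image F, Finset.card_image_le.trans ?_, fun x hx => ?_⟩
  · have a := (fa_li gp z).fintype_card_le_finrank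
    rw [Module.finrank_fin_fun] at a
    rw [Finset.card_univ, Fintype.card_fun]
    exact Nat.pow_le_pow_right (by decide) a
  · obtain ⟨y, hy, hy'⟩ := mem_closure_iff.1 hx W h1 h2
    rw [← fa_eq hy']
    exact Finset.mem_image.2 ⟨_, Finset.mem_univ _, (hF _ y hy rfl).symm⟩

/-- A face that meets the closure of a cell lies in it. -/
theorem fa_clo (gp : GenPos g) {p x : Fin d → ℝ} (hx : x ∈ closure (cell g p)) :
    face g x ⊆ closure (cell g p) := by
  choose W h1 h2 _ h4 using fa_loc gp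
  have h5 : ∀ y ∈ face g x ∩ closure (cell g p), ∀ w ∈ face g x, w ∈ W y →
      w ∈ closure (cell g p) := fun y hy w hw a => by
    obtain ⟨u, hu, hu'⟩ := mem_closure_iff.1 hy.2 _ (h1 y) (h2 y)
    exact closure_mono (fa_cell hu')
      (h4 y u hu w a (fa_trans (fa_symm (fa_same hy.1)) (fa_same hw)))
  intro w hw
  by_contra hn
  obtain ⟨u, hu, a, b⟩ := isPreconnected_connectedComponentIn (x := x) (F := {y | Same g x y})
    (⋃ y ∈ face g x ∩ closure (cell g p), W y) (closure (cell g p))ᶜ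
    (isOpen_biUnion fun y _ => h1 y) isClosed_closure.isOpen_compl
    (fun y hy => by
      by_cases c : y ∈ closure (cell g p)
      exacts [Or.inl (Set.mem_biUnion ⟨hy, c⟩ (h2 y)), Or.inr c])
    ⟨x, fa_mem x, Set.mem_biUnion ⟨fa_mem x, hx⟩ (h2 x)⟩ ⟨w, hw, hn⟩
  obtain ⟨y, hy, c⟩ := Set.mem_iUnion₂.1 a
  exact b (h5 y hy u hu c)

/-- A lowest point of the closure of a face is critical. -/
theorem fa_crit (gp : GenPos g) {z0 z x : Fin d → ℝ} (hz : z ∈ closure (face g x))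
    (h : ∀ y ∈ closure (face g x), rho z0 z ≤ rho z0 y) : z ∈ Crit (cons g) z0 (fa_act g z) := by
  refine ⟨fun k hk => (fa_act_mem.1 hk).2, fa_li gp z, by_contra fun hn => ?_⟩
  obtain ⟨U, hU, h0⟩ := fa_nhds (g := g) z
  obtain ⟨W, δ, D, h1, h2, h3, h4, h5, h6, h7, -⟩ :=
    push (fun k : fa_act g z => cons g k) z0 z (fa_li gp z) hn U hU
  obtain ⟨y, hy, hy'⟩ := mem_closure_iff.1 hz W h1 h2
  have a : ∀ t ∈ Set.Ioo (rho z0 z - δ) (rho z0 z + δ), |t - rho z0 z| < δ := fun t ht =>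
    abs_lt.2 ⟨by linarith [ht.1], by linarith [ht.2]⟩
  have b := abs_lt.1 (h5 y hy).1
  have c : D y '' Set.Ioo (rho z0 z - δ) (rho z0 z + δ) ⊆ face g y := by
    refine fa_sub (isPreconnected_Ioo.image _ (h6.comp (f := fun t => (y, t))
      (Continuous.prodMk_right y).continuousOn fun t ht => ⟨hy, ht⟩))
      ⟨rho z0 y, ⟨by linarith [b.1], by linarith [b.2]⟩, (h5 y hy).2⟩ ?_
    rintro _ ⟨t, ht, rfl⟩
    obtain ⟨e1, -, e2⟩ := h7 y hy t (a t ht)
    exact h0 y (h3 hy) _ (h3 e1) fun k => congrArg SignType.sign (e2 k).symm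
  have e : rho z0 z - δ / 2 ∈ Set.Ioo (rho z0 z - δ) (rho z0 z + δ) := ⟨by linarith, by linarith⟩
  have f := h _ (subset_closure (fa_eq hy' ▸ c ⟨_, e, rfl⟩))
  rw [(h7 y hy _ (a _ e)).2.1] at f
  linarith

omit [DecidableEq ι] [Fintype μ] in
theorem fa_on {z : Fin d → ℝ} {i : ι} : i ∈ On g z ↔ z ∈ patch g i := by
  simp only [On, Finset.mem_filter, Finset.mem_univ, true_and]

/-- A vertex in the closure of the cell has a visible orthant. -/
theorem fa_gv (gp : GenPos g) {p z : Fin d → ℝ} (hd : (On g z).card = d)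
    (hz : z ∈ closure (cell g p)) : ∃ σ, (z, σ) ∈ GV g p := by
  classical
  have h1 := (vertex_rel gp hd).1
  have h2 : ∀ᶠ y in 𝓝 z, ∀ i ∈ On g z, ∀ l,
      SignType.sign (eval y (g i (some l))) = SignType.sign (eval z (g i (some l))) :=
    (Filter.eventually_all_finset _).2 fun i hi => Filter.eventually_all.2 fun l =>
      fa_sign _ ((h1 i hi).2 l)
  have e : cellR g Finset.univ p = cell g p := by
    simp only [cellR, cell, Finset.mem_univ, Set.iUnion_true]
  have h3 : z ∈ closure (⋃ σ ∈ (On g z).powerset, cell g p ∩ orth g (On g z) σ) := by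
    refine mem_closure_iff_nhds.2 fun U hU => ?_
    obtain ⟨y, ⟨a, b⟩, c⟩ := mem_closure_iff_nhds.1 hz _ (Filter.inter_mem hU h2)
    refine ⟨y, a, Set.mem_iUnion₂.2 ⟨(On g z).filter fun i => 0 < eval y (g i none),
      Finset.mem_powerset.2 (Finset.filter_subset _ _), c, fun i hi =>
        ⟨fun u => (Finset.mem_filter.1 u).2, fun u => lt_of_le_of_ne
          (not_lt.1 fun v => u (Finset.mem_filter.2 ⟨hi, v⟩)) fun v => ?_⟩⟩⟩
    refine connectedComponentIn_subset _ _ c (Set.mem_iUnion.2 ⟨i, v, ?_⟩)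
    rw [funext (b i hi)]
    exact (h1 i hi).1.2
  rw [Finset.closure_biUnion] at h3
  obtain ⟨σ, a, b⟩ := Set.mem_iUnion₂.1 h3
  exact ⟨σ, hd, Finset.mem_powerset.1 a, by rwa [GVis, e]⟩

theorem fa_fin (gp : GenPos g) {z0 : Fin d → ℝ} {β : ℕ} (hc : Centre g z0 β) (p : Fin d → ℝ) :
    (GV g p).Finite := by
  refine ((Set.toFinite {D : Finset ι | D.card = d}).biUnion fun D hD =>
    (vertex_le gp hc D hD).1).prod (Set.toFinite Set.univ) |>.subset fun x hx => ?_
  exact ⟨Set.mem_biUnion (x := On g x.1) hx.1 rfl, trivial⟩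

/-- The critical points that lie on at most `k` patches. -/
theorem fa_cr {z0 : Fin d → ℝ} {β : ℕ} (hc : Centre g z0 β) (k : ℕ) :
    ∃ Z : Finset (Fin d → ℝ), Z.card ≤ 2 ^ (k * (Fintype.card μ + 1)) * β * (Fintype.card ι + 1) ^ k ∧
      ∀ z, (On g z).card ≤ k → z ∈ Crit (cons g) z0 (fa_act g z) → z ∈ Z := by
  classical
  let S : (Fin k → Option ι) → Finset ι := fun φ => (Finset.univ.image φ).eraseNone
  refine ⟨Finset.univ.biUnion fun φ => (S φ ×ˢ Finset.univ).powerset.biUnion fun Γ =>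
    (hc Γ).1.toFinset, ?_, fun z h1 h2 => ?_⟩
  · refine (Finset.card_biUnion_le_card_mul _ _ (2 ^ (k * (Fintype.card μ + 1)) * β)
      fun φ _ => (Finset.card_biUnion_le_card_mul _ _ β fun Γ _ => ?_).trans ?_).trans ?_
    · rw [← Set.ncard_eq_toFinset_card _ (hc Γ).1]
      exact (hc Γ).2
    · rw [Finset.card_powerset, Finset.card_product, Finset.card_univ, Fintype.card_option]
      refine Nat.mul_le_mul_right _ (Nat.pow_le_pow_right two_pos (Nat.mul_le_mul_right _ ?_))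
      refine (Finset.card_eraseNone_le _).trans (Finset.card_image_le.trans ?_)
      rw [Finset.card_univ, Fintype.card_fin]
    · rw [Finset.card_univ, Fintype.card_fun, Fintype.card_option, Fintype.card_fin, mul_comm]
  · refine Finset.mem_biUnion.2 ⟨fun j => if h : j.1 < (On g z).card then
      some ((On g z).equivFin.symm ⟨j.1, h⟩).1 else none, Finset.mem_univ _,
      Finset.mem_biUnion.2 ⟨fa_act g z, Finset.mem_powerset.2 fun j hj => ?_,
        (Set.Finite.mem_toFinset _).2 h2⟩⟩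
    have a := fa_on.2 (fa_act_mem.1 hj).1
    refine Finset.mem_product.2 ⟨Finset.mem_eraseNone.2 (Finset.mem_image.2
      ⟨⟨((On g z).equivFin ⟨j.1, a⟩).1, ((On g z).equivFin ⟨j.1, a⟩).2.trans_le h1⟩,
        Finset.mem_univ _, ?_⟩), Finset.mem_univ _⟩
    simp only [Fin.is_lt, dif_pos, Fin.eta, Equiv.symm_apply_apply]

end aux

theorem faces_le (d m b β : ℕ) (hd : 2 ≤ d) : ∃ C : ℕ, ∀ {ι : Type} [Fintype ι] [DecidableEq ι]
    (g : Arr d ι (Fin m)), (∀ i l, (g i l).totalDegree ≤ b) →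
    GenPos g → ∀ z0, Centre g z0 β → ∀ p, (∀ i, p ∉ patch g i) →
    (face g '' frontier (cell g p)).encard ≤
      (3 ^ d * (GV g p).ncard + C * (Fintype.card ι + 1) ^ (d - 1) : ℕ) := by
  classical
  refine ⟨3 ^ d * (2 ^ ((d - 1) * (Fintype.card (Fin m) + 1)) * β),
    fun {ι} _ _ g _ gp z0 hc p _ => ?_⟩
  obtain ⟨Z, h1, h2⟩ := fa_cr hc (d - 1)
  choose Φ h3 h4 using fa_few gp
  have h5 := fa_fin gp hc p
  have h6 : face g '' frontier (cell g p) ⊆ ↑((h5.toFinset.image Prod.fst ∪ Z).biUnion Φ) := by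
    rintro _ ⟨x, hx, rfl⟩
    obtain ⟨z, hz, h⟩ := fa_min z0 isClosed_closure (subset_closure (fa_mem (g := g) x))
    refine Finset.mem_coe.2 (Finset.mem_biUnion.2 ⟨z, Finset.mem_union.2 ?_, h4 z x hz⟩)
    rcases (on_card_le gp z).eq_or_lt with a | a
    · obtain ⟨σ, hσ⟩ := fa_gv gp a (closure_minimal (fa_clo gp (frontier_subset_closure hx))
        isClosed_closure hz)
      exact Or.inl (Finset.mem_image.2 ⟨_, h5.mem_toFinset.2 hσ, rfl⟩)
    · exact Or.inr (h2 z (Nat.le_sub_one_of_lt a) (fa_crit gp hz h))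
  refine (Set.encard_le_encard h6).trans ?_
  rw [Set.encard_coe_eq_coe_finsetCard, Nat.cast_le]
  refine (Finset.card_biUnion_le_card_mul _ _ _ fun z _ => h3 z).trans ?_
  rw [mul_comm, mul_assoc, ← mul_add, Set.ncard_eq_toFinset_card _ h5]
  exact Nat.mul_le_mul_left _ ((Finset.card_union_le _ _).trans
    (add_le_add Finset.card_image_le h1))

end CurK
end

-- merged part: Pool.Agent.Work.MP_8a5de9_co_K.Main
section
/-! The main theorem. -/

namespace CurK

theorem single_cell_ack (d m b : ℕ) (hd : 2 ≤ d) : ∃ C c : ℕ, ∀ (n : ℕ)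
    (g : Arr d (Fin n) (Fin m)), (∀ i l, (g i l).totalDegree ≤ b) →
    GenPos g → ∀ p, (∀ i, p ∉ patch g i) → (face g '' frontier (cell g p)).encard ≤
      (C * (n + 1) ^ (d - 1) * 2 ^ ((invAck n + 2) ^ c) : ℕ) := by
  obtain ⟨β, hβ⟩ := exists_centre d b
  obtain ⟨s, hs⟩ := exists_mod d m b β hd
  obtain ⟨C1, h1⟩ := faces_le d m b β hd
  obtain ⟨C2, c, h2⟩ := comb_main d s hd
  refine ⟨3 ^ d * (C2 + s) + C1, c, fun n g hg gp p hp => ?_⟩
  obtain ⟨z0, hz⟩ := hβ (cons g) fun k => hg k.1 k.2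
  obtain ⟨P, V, _, _, M, ht, hM, hV⟩ := hs g hg gp z0 hz p hp
  refine (h1 g hg gp z0 hz p hp).trans (Nat.cast_le.2 ?_)
  have h3 := h2 M ht hM Finset.univ
  rw [Finset.card_univ] at h3
  rw [Fintype.card_fin] at h3 hV ⊢
  have h4 : 1 ≤ 2 ^ ((invAck n + 2) ^ c) := Nat.one_le_two_pow
  generalize 2 ^ ((invAck n + 2) ^ c) = L at h3 h4 ⊢
  generalize (n + 1) ^ (d - 1) = N at h3 hV ⊢
  have h5 : N ≤ N * L := Nat.le_mul_of_pos_right N h4
  calc 3 ^ d * (GV g p).ncard + C1 * N ≤ 3 ^ d * (C2 * N * L + s * (N * L)) + C1 * (N * L) :=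
        Nat.add_le_add (Nat.mul_le_mul_left _ (hV.trans (Nat.add_le_add h3
          (Nat.mul_le_mul_left _ h5)))) (Nat.mul_le_mul_left _ h5)
    _ = _ := by ring

theorem single_cell (d m b : ℕ) (hd : 2 ≤ d) : ∃ s C : ℕ, ∀ (n : ℕ)
    (g : Arr d (Fin n) (Fin m)), (∀ i l, (g i l).totalDegree ≤ b) →
    GenPos g → ∀ p, (∀ i, p ∉ patch g i) → (face g '' frontier (cell g p)).encard ≤
      (C * n ^ (d - 2) * lam s n : ℕ) := by
  obtain ⟨C, c, h⟩ := single_cell_ack d m b hd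
  obtain ⟨s, K, hK⟩ := lam_lower c
  refine ⟨s, C * 2 ^ (d - 1) * K, fun n g hg gp p hp => ?_⟩
  rcases Nat.eq_zero_or_pos n with rfl | hn
  · have : cell g p = Set.univ := by
      unfold cell
      rw [Set.iUnion_of_empty, Set.compl_empty, connectedComponentIn_univ,
        PreconnectedSpace.connectedComponent_eq_univ]
    rw [this, frontier_univ, Set.image_empty, Set.encard_empty]
    exact zero_le
  refine (h n g hg gp p hp).trans (Nat.cast_le.2 ?_)
  obtain ⟨e, rfl⟩ : ∃ e, d = e + 2 := ⟨d - 2, by omega⟩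
  have h1 : (n + 1) ^ (e + 1) ≤ (2 * n) ^ (e + 1) := Nat.pow_le_pow_left (by omega) _
  have h2 := hK n hn
  show C * (n + 1) ^ (e + 1) * _ ≤ C * 2 ^ (e + 1) * K * n ^ e * lam s n
  calc C * (n + 1) ^ (e + 1) * 2 ^ ((invAck n + 2) ^ c)
      ≤ C * (2 * n) ^ (e + 1) * 2 ^ ((invAck n + 2) ^ c) :=
        Nat.mul_le_mul_right _ (Nat.mul_le_mul_left _ h1)
    _ = C * 2 ^ (e + 1) * n ^ e * (n * 2 ^ ((invAck n + 2) ^ c)) := by ring
    _ ≤ C * 2 ^ (e + 1) * n ^ e * (K * lam s n) := Nat.mul_le_mul_left _ h2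
    _ = _ := by ring

end CurK
end
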